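import Mathlib

/-!
# Critical delay for decay of oscillations (MP_8b22d5_an): definitions
-/

open MeasureTheory Set Filter Topology

namespace Pool.Agent.CDk

/-! ## The problem -/

/-- `x` is a solution on `[s - r, ∞)` of `x''(t) + p(t) x(t - τ(t)) = 0`, `t ≥ s`: there is `y = x'`
on `[s - r, ∞)` (one sided at the left end) which is absolutely continuous on compact subintervals
(so `x` and `x'` are absolutely continuous there), and the equation holds for almost every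
`t ≥ s`. -/
def IsSol (p τ : ℝ → ℝ) (s r : ℝ) (x : ℝ → ℝ) : Prop :=
  ∃ y : ℝ → ℝ, (∀ t, s - r ≤ t → HasDerivWithinAt x (y t) (Ici (s - r)) t) ∧
    (∀ a b, s - r ≤ a → a ≤ b → AbsolutelyContinuousOnInterval y a b) ∧
    (∀ᵐ t, s ≤ t → HasDerivAt y (-(p t * x (t - τ t))) t)

/-- arbitrarily large zeros -/
def Osc (x : ℝ → ℝ) : Prop := ∀ T : ℝ, ∃ t, T ≤ t ∧ x t = 0

/-- the coefficients of the problem: `p, τ` measurable, `-1 ≤ p ≤ 0`, `τ ≥ 0` essentially bounded -/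
def Coef (p τ : ℝ → ℝ) : Prop :=
  Measurable p ∧ Measurable τ ∧ (∀ t, -1 ≤ p t ∧ p t ≤ 0) ∧ (∀ t, 0 ≤ τ t) ∧ ∃ C, ∀ᵐ t, τ t ≤ C

/-- `τ_m`, the essential supremum of `τ` on `[s, ∞)` -/
noncomputable def tm (τ : ℝ → ℝ) (s : ℝ) : ℝ := essSup τ (volume.restrict (Ici s))

/-- admissible numbers -/
def Adm (κ : ℝ) : Prop := 0 < κ ∧ ∀ p τ : ℝ → ℝ, Coef p τ → ∀ s : ℝ, tm τ s < κ →
  ∀ x : ℝ → ℝ, IsSol p τ s (tm τ s) x → Osc x → Tendsto x atTop (𝓝 0)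

/-- eventually slowly oscillating: from some point on the consecutive zeros are at distance at
least `r` -/
def Slow (x : ℝ → ℝ) (s r : ℝ) : Prop :=
  ∃ z : ℕ → ℝ, s ≤ z 0 ∧ Tendsto z atTop atTop ∧ ∀ n, x (z n) = 0 ∧ z n < z (n+1) ∧
    r ≤ z (n+1) - z n ∧ ∀ t ∈ Ioo (z n) (z (n+1)), x t ≠ 0

/-- admissible for slowly oscillating solutions -/
def SAdm (κ : ℝ) : Prop := 0 < κ ∧ ∀ p τ : ℝ → ℝ, Coef p τ → ∀ s : ℝ, tm τ s < κ →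
  ∀ x : ℝ → ℝ, IsSol p τ s (tm τ s) x → Slow x s (tm τ s) → Tendsto x atTop (𝓝 0)

/-! ## The constant -/

/-- `Zs e n j t = ∑_{k<n} (-1)^k (t - k e)_+^{2k+j}/(2k+j)!` -/
noncomputable def Zs (e : ℝ) (n j : ℕ) (t : ℝ) : ℝ :=
  ∑ k ∈ Finset.range n, (-1 : ℝ)^k * (max (t - k * e) 0)^(2*k+j) / ((2*k+j).factorial : ℝ)

/-- `Cs e n j t = ∑_{k<n} (-1)^k (k+1) (t - k e)_+^{2k+j}/(2k+j)!` -/
noncomputable def Cs (e : ℝ) (n j : ℕ) (t : ℝ) : ℝ :=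
  ∑ k ∈ Finset.range n, (-1 : ℝ)^k * (k+1) * (max (t - k * e) 0)^(2*k+j) / ((2*k+j).factorial : ℝ)

/-- the data of an antiperiodic solution of half period `ρ + e + u + s` with largest delay
`ρ + u + s` (`n` is a cut off for the sums) -/
structure Data (n : ℕ) (e ρ u s : ℝ) : Prop where
  he : 0 < e
  hρ : 0 < ρ
  hu : 0 ≤ u
  hs : 0 ≤ s
  hn : ρ + e ≤ n * e
  E1 : Zs e n 0 ρ = 0
  E2 : Real.cosh s = Zs e n 1 ρ * u - Zs e n 0 (ρ + e)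
  E3 : Real.sinh s = Zs e n 1 (ρ + e) + Zs e n 0 (ρ + e) * u - Zs e n 1 ρ * u^2 / 2

/-- the delays obtained in this way -/
def KSet : Set ℝ := {κ | ∃ n e ρ u s, Data n e ρ u s ∧ κ = ρ + u + s}

/-! ## The extremal data -/

/-- parameters of the extremal solution -/
structure Par where
  e0 : ℝ
  ρ : ℝ
  u : ℝ
  s : ℝ

namespace Par
variable (P : Par)

/-- `Y = ρ + u` -/
noncomputable def Y : ℝ := P.ρ + P.u
/-- `L = ρ + u + e0` -/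
noncomputable def L : ℝ := P.ρ + P.u + P.e0
/-- `sinh s` -/
noncomputable def sg : ℝ := Real.sinh P.s

/-- the profile `D*` of the extremal solution (normalised by slope `1` at its zero) -/
noncomputable def D (y : ℝ) : ℝ := Zs P.e0 15 1 (min y P.ρ)
/-- `∫ D*` -/
noncomputable def I (y : ℝ) : ℝ := Zs P.e0 15 2 (min y P.ρ) + Zs P.e0 15 1 P.ρ * max (y - P.ρ) 0
/-- `∫∫ D*` -/
noncomputable def J (y : ℝ) : ℝ := Zs P.e0 15 3 (min y P.ρ) + Zs P.e0 15 2 P.ρ * max (y - P.ρ) 0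
  + Zs P.e0 15 1 P.ρ * (max (y - P.ρ) 0)^2 / 2
/-- `∫∫∫ D*` -/
noncomputable def K (y : ℝ) : ℝ := Zs P.e0 15 4 (min y P.ρ) + Zs P.e0 15 3 P.ρ * max (y - P.ρ) 0
  + Zs P.e0 15 2 P.ρ * (max (y - P.ρ) 0)^2 / 2 + Zs P.e0 15 1 P.ρ * (max (y - P.ρ) 0)^3 / 6
/-- the adjoint profile -/
noncomputable def mb (v : ℝ) : ℝ := if v ≤ P.ρ then
    P.u^2/2 * Zs P.e0 15 0 (P.ρ - v) + P.u * Zs P.e0 15 1 (P.ρ - v) + Zs P.e0 15 2 (P.ρ - v)
  else (max (P.Y - v) 0)^2 / 2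

/-- the extremal parameters -/
structure Star : Prop where
  data : Data 15 P.e0 P.ρ P.u P.s
  E4 : P.u^2/2 * Cs P.e0 15 2 (P.ρ - P.e0) + P.u * Cs P.e0 15 3 (P.ρ - P.e0)
    + Cs P.e0 15 4 (P.ρ - P.e0) = 1
  e_lo : (0.121818 : ℝ) < P.e0
  e_hi : P.e0 < 0.121819
  ρ_lo : (1.640087 : ℝ) < P.ρ
  ρ_hi : P.ρ < 1.640088
  u_lo : (0.903874 : ℝ) < P.u
  u_hi : P.u < 0.903877
  s_lo : (0.500519 : ℝ) < P.s
  s_hi : P.s < 0.500521

/-! ## Normalised functions -/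

/-- `ι = I*/L` -/
noncomputable def io (y : ℝ) : ℝ := P.I y / P.L

/-- `q = 1/(Y+e)` -/
noncomputable def q (e : ℝ) : ℝ := 1 / (P.Y + e)

/-- `(q - i(v - e))_+` -/
noncomputable def gf (e : ℝ) (i : ℝ → ℝ) (v : ℝ) : ℝ := max (P.q e - i (v - e)) 0

noncomputable def Uf (e : ℝ) (i : ℝ → ℝ) : ℝ := P.sg * P.q e + ∫ v in (0:ℝ)..P.Y, P.mb v * P.gf e i v
noncomputable def Nf (e : ℝ) (i : ℝ → ℝ) : ℝ :=
  P.sg * P.q e + ∫ v in (0:ℝ)..P.Y, (P.Y - v)^2/2 * P.gf e i v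
noncomputable def If (e : ℝ) (i : ℝ → ℝ) (r : ℝ) : ℝ := ∫ v in (0:ℝ)..r, (r - v) * P.gf e i v
noncomputable def psi (i : ℝ → ℝ) : ℝ := 1 - ∫ y in (0:ℝ)..(P.ρ - P.e0), P.mb (y + P.e0) * i y

end Par

/-- the weight of the tube -/
noncomputable def w (y : ℝ) : ℝ := min (3 * y^2) 1 + 4 * max (y - 1.4) 0

/-- the tube around `ι` -/
structure Par.Tube (P : Par) (δ : ℝ) (i : ℝ → ℝ) : Prop where
  cont : Continuous i
  mono : Monotone i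
  zero : ∀ y ≤ 0, i y = 0
  close : ∀ y, 0 ≤ y → y ≤ 2.2 → |i y - P.io y| ≤ δ * w y

end Pool.Agent.CDk
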