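import Pool.Agent.CDk.Defs

open MeasureTheory Set Filter Topology

namespace Pool.Agent.CDk.Enc

/-! a small verified checker for rational polynomials -/

private noncomputable def ev : List ℚ → ℝ → ℝ
  | [], _ => 0
  | a :: l, t => a + t * ev l t

private def padd : List ℚ → List ℚ → List ℚ
  | [], m => m
  | l, [] => l
  | a :: l, b :: m => (a + b) :: padd l m

private def psm (c : ℚ) (l : List ℚ) : List ℚ := l.map (fun x => c * x)

private def pshift (c : ℚ) : List ℚ → List ℚ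
  | [] => []
  | a :: l => padd [a] (padd (psm c (pshift c l)) (0 :: pshift c l))

private def pbd (r : ℚ) : List ℚ → ℚ
  | [] => 0
  | a :: l => |a| + r * pbd r l

private def chk (l : List ℚ) (ε : ℚ) : ℕ → ℚ → ℚ → Bool
  | 0, lo, hi => decide (pbd ((hi - lo) / 2) (pshift ((lo + hi) / 2) l) ≤ ε)
  | n + 1, lo, hi => decide (pbd ((hi - lo) / 2) (pshift ((lo + hi) / 2) l) ≤ ε) ||
      (chk l ε n lo ((lo + hi) / 2) && chk l ε n ((lo + hi) / 2) hi)

private theorem ev_padd (l m : List ℚ) (t : ℝ) : ev (padd l m) t = ev l t + ev m t := by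
  induction l generalizing m with
  | nil => simp [padd, ev]
  | cons a l ih =>
    cases m with
    | nil => simp [padd, ev]
    | cons b m => simp only [padd, ev, ih]; push_cast; ring

private theorem ev_psm (c : ℚ) (l : List ℚ) (t : ℝ) : ev (psm c l) t = c * ev l t := by
  induction l with
  | nil => simp [psm, ev]
  | cons a l ih =>
    have : psm c (a :: l) = (c * a) :: psm c l := rfl
    rw [this, ev, ev, ih]; push_cast; ring

private theorem ev_pshift (c : ℚ) (l : List ℚ) (s : ℝ) : ev (pshift c l) s = ev l (c + s) := by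
  induction l with
  | nil => rfl
  | cons a l ih =>
    rw [pshift, ev_padd, ev_padd, ev_psm, ev, ev, ev, ev, ih]; push_cast; ring

private theorem ev_pbd (r : ℚ) (l : List ℚ) {s : ℝ} (hs : |s| ≤ r) : |ev l s| ≤ pbd r l := by
  induction l with
  | nil => simp [ev, pbd]
  | cons a l ih =>
    rw [ev, pbd]
    push_cast
    refine (abs_add_le _ _).trans ?_
    rw [abs_mul]
    have h0 : (0:ℝ) ≤ r := (abs_nonneg s).trans hs
    have h1 : |s| * |ev l s| ≤ r * pbd r l := mul_le_mul hs ih (abs_nonneg _) h0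
    linarith

private theorem chk_leaf {l : List ℚ} {ε lo hi : ℚ}
    (h : pbd ((hi - lo) / 2) (pshift ((lo + hi) / 2) l) ≤ ε) {t : ℝ} (h0 : (lo:ℝ) ≤ t)
    (h1 : t ≤ hi) : |ev l t| ≤ ε := by
  have h2 := ev_pbd ((hi - lo) / 2) (pshift ((lo + hi) / 2) l)
    (s := t - (lo + hi) / 2) (by push_cast; rw [abs_le]; constructor <;> linarith)
  rw [ev_pshift] at h2
  have h3 : (((lo + hi) / 2 : ℚ) : ℝ) + (t - (lo + hi) / 2) = t := by push_cast; ring
  rw [h3] at h2
  exact h2.trans (by exact_mod_cast h)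

private theorem chk_sound {l : List ℚ} {ε : ℚ} : ∀ (n : ℕ) (lo hi : ℚ), chk l ε n lo hi = true →
    ∀ t : ℝ, (lo:ℝ) ≤ t → t ≤ hi → |ev l t| ≤ ε := by
  intro n
  induction n with
  | zero =>
    intro lo hi h t h0 h1
    exact chk_leaf (of_decide_eq_true h) h0 h1
  | succ n ih =>
    intro lo hi h t h0 h1
    rw [chk, Bool.or_eq_true, Bool.and_eq_true] at h
    rcases h with h | ⟨ha, hb⟩
    · exact chk_leaf (of_decide_eq_true h) h0 h1
    · rcases le_total t (((lo + hi) / 2 : ℚ) : ℝ) with h2 | h2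
      · exact ih _ _ ha t h0 h2
      · exact ih _ _ hb t h2 h1

/-- the monomial `t ^ m / m!` -/
private def pmono : ℕ → List ℚ
  | 0 => [1]
  | m + 1 => 0 :: psm (1 / (m + 1)) (pmono m)

private theorem ev_pmono (m : ℕ) (t : ℝ) : ev (pmono m) t = t ^ m / (m.factorial : ℝ) := by
  induction m with
  | zero => simp [pmono, ev]
  | succ m ih =>
    rw [pmono, ev, ev_psm, ih, Nat.factorial_succ]
    have : ((m.factorial : ℕ) : ℝ) ≠ 0 := by positivity
    push_cast
    field_simp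
    ring

/-- `∑_{k ≤ i} (-1)^k (t - k c)^(2k+j)/(2k+j)!` -/
private def pz (c : ℚ) (j : ℕ) : ℕ → List ℚ
  | 0 => pmono j
  | i + 1 => padd (pz c j i) (psm ((-1) ^ (i + 1)) (pshift (-((i + 1) * c)) (pmono (2 * (i + 1) + j))))

private theorem ev_pz (c : ℚ) (j i : ℕ) (t : ℝ) : ev (pz c j i) t =
    ∑ k ∈ Finset.range (i + 1), (-1 : ℝ)^k * (t - k * c)^(2*k+j) / ((2*k+j).factorial : ℝ) := by
  induction i with
  | zero => simp [pz, ev_pmono]
  | succ i ih =>
    rw [pz, ev_padd, ih, ev_psm, ev_pshift, ev_pmono, Finset.sum_range_succ _ (i + 1)]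
    push_cast
    ring

private theorem Zs_piece {c : ℚ} (hc : 0 < c) {n j i : ℕ} {t : ℝ} (hin : i < n) (h0 : (i * c : ℝ) ≤ t)
    (h1 : t ≤ (i + 1) * c ∨ i + 1 = n) : Zs c n j t = ev (pz c j i) t := by
  have hc' : (0:ℝ) < c := by exact_mod_cast hc
  rw [ev_pz, Zs]
  have hsub : Finset.range (i + 1) ⊆ Finset.range n := by
    intro k hk
    rw [Finset.mem_range] at hk ⊢
    omega
  rw [← Finset.sum_subset hsub]
  · refine Finset.sum_congr rfl fun k hk => ?_
    rw [Finset.mem_range] at hk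
    have h2 : (k:ℝ) * c ≤ i * c := mul_le_mul_of_nonneg_right (by exact_mod_cast (by omega : k ≤ i)) hc'.le
    rw [max_eq_left (by linarith only [h0, h2])]
  · intro k hk hk'
    rw [Finset.mem_range] at hk hk'
    have h3 : i + 1 ≤ k := by omega
    rcases h1 with h1 | h1
    · have h2 : ((i:ℝ) + 1) * c ≤ k * c :=
        mul_le_mul_of_nonneg_right (by exact_mod_cast h3) hc'.le
      rw [max_eq_right (by linarith only [h1, h2]), zero_pow (by omega)]
      simp
    · omega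

/-- replacing `e0` by a rational number, and `15` by `6` -/
private theorem Zs_e {e t : ℝ} (he0 : 0.121818 ≤ e) (he1 : e ≤ 0.121819)
    (ht1 : t ≤ 1.640088) (j : ℕ) : |Zs e 15 j t - Zs 0.1218185 6 j t| ≤
      ∑ k ∈ Finset.range 6, (k * 5e-7 * ((2 * k + j : ℕ) : ℝ) *
        (1.640088 - k * 0.121818)^(2*k+j-1)) / ((2*k+j).factorial : ℝ) +
      ∑ k ∈ Finset.range 9, (0.90918 : ℝ)^(2*(6+k)+j) / ((2*(6+k)+j).factorial : ℝ) := by
  have hsplit : Zs e 15 j t = Zs e 6 j t +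
      ∑ k ∈ Finset.range 9, (-1 : ℝ)^(6+k) * (max (t - (6+k : ℕ) * e) 0)^(2*(6+k)+j) /
        ((2*(6+k)+j).factorial : ℝ) := by
    unfold Zs
    rw [show 15 = 6 + 9 from rfl, Finset.sum_range_add]
  rw [hsplit, add_sub_right_comm]
  refine (abs_add_le _ _).trans (add_le_add ?_ ?_)
  · unfold Zs
    rw [← Finset.sum_sub_distrib]
    refine (Finset.abs_sum_le_sum_abs _ _).trans (Finset.sum_le_sum fun k hk => ?_)
    rw [Finset.mem_range] at hk
    have hk' : (k:ℝ) ≤ 5 := by exact_mod_cast (by omega : k ≤ 5)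
    have hk0 : (0:ℝ) ≤ k := Nat.cast_nonneg k
    have hf : (0:ℝ) < ((2*k+j).factorial : ℝ) := by positivity
    rw [← sub_div, ← mul_sub, abs_div, abs_mul, abs_pow, abs_neg, abs_one, one_pow, one_mul,
      abs_of_pos hf]
    refine div_le_div_of_nonneg_right ?_ hf.le
    refine (abs_pow_sub_pow_le ..).trans ?_
    have h1 : |max (t - k * e) 0 - max (t - k * 0.1218185) 0| ≤ k * 5e-7 := by
      refine (abs_max_sub_max_le_abs _ _ _).trans ?_
      rw [show t - k * e - (t - k * 0.1218185) = k * (0.1218185 - e) by ring, abs_mul,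
        abs_of_nonneg hk0]
      refine mul_le_mul_of_nonneg_left ?_ hk0
      rw [abs_le]; constructor <;> norm_num at he0 he1 ⊢ <;> linarith
    have h2 : max |max (t - k * e) 0| |max (t - k * 0.1218185) 0| ≤
        1.640088 - k * 0.121818 := by
      rw [abs_of_nonneg (le_max_right _ _), abs_of_nonneg (le_max_right _ _)]
      refine max_le (max_le ?_ ?_) (max_le ?_ ?_) <;> nlinarith
    have h3 : 0 ≤ max |max (t - k * e) 0| |max (t - k * 0.1218185) 0| :=
      (abs_nonneg _).trans (le_max_left _ _)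
    refine mul_le_mul (mul_le_mul_of_nonneg_right h1 (Nat.cast_nonneg _))
      (pow_le_pow_left₀ h3 h2 _) (by positivity) (by positivity)
  · refine (Finset.abs_sum_le_sum_abs _ _).trans (Finset.sum_le_sum fun k _ => ?_)
    have hf : (0:ℝ) < ((2*(6+k)+j).factorial : ℝ) := by positivity
    have hk0 : (0:ℝ) ≤ k := Nat.cast_nonneg k
    rw [abs_div, abs_mul, abs_pow, abs_neg, abs_one, one_pow, one_mul, abs_of_pos hf]
    refine div_le_div_of_nonneg_right ?_ hf.le
    rw [abs_pow, abs_of_nonneg (le_max_right _ _)]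
    refine pow_le_pow_left₀ (le_max_right _ _) (max_le ?_ (by norm_num)) _
    push_cast
    nlinarith only [he0, ht1]

private theorem Zs_e0 {e t : ℝ} (he0 : 0.121818 ≤ e) (he1 : e ≤ 0.121819)
    (ht1 : t ≤ 1.640088) : |Zs e 15 0 t - Zs 0.1218185 6 0 t| ≤ 0.0000013 :=
  (Zs_e he0 he1 ht1 0).trans (by norm_num [Finset.sum_range_succ, Nat.factorial])

private theorem Zs_e1 {e t : ℝ} (he0 : 0.121818 ≤ e) (he1 : e ≤ 0.121819)
    (ht1 : t ≤ 1.640088) : |Zs e 15 1 t - Zs 0.1218185 6 1 t| ≤ 0.00000076 :=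
  (Zs_e he0 he1 ht1 1).trans (by norm_num [Finset.sum_range_succ, Nat.factorial])

private theorem Zs_e2 {e t : ℝ} (he0 : 0.121818 ≤ e) (he1 : e ≤ 0.121819)
    (ht1 : t ≤ 1.640088) : |Zs e 15 2 t - Zs 0.1218185 6 2 t| ≤ 0.00000035 :=
  (Zs_e he0 he1 ht1 2).trans (by norm_num [Finset.sum_range_succ, Nat.factorial])

private theorem Zs_e3 {e t : ℝ} (he0 : 0.121818 ≤ e) (he1 : e ≤ 0.121819)
    (ht1 : t ≤ 1.640088) : |Zs e 15 3 t - Zs 0.1218185 6 3 t| ≤ 0.00000035 :=
  (Zs_e he0 he1 ht1 3).trans (by norm_num [Finset.sum_range_succ, Nat.factorial])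

private theorem Zs_e4 {e t : ℝ} (he0 : 0.121818 ≤ e) (he1 : e ≤ 0.121819)
    (ht1 : t ≤ 1.640088) : |Zs e 15 4 t - Zs 0.1218185 6 4 t| ≤ 0.00000035 :=
  (Zs_e he0 he1 ht1 4).trans (by norm_num [Finset.sum_range_succ, Nat.factorial])

private def cc : ℚ := 1218185 / 10000000

private theorem cc_cast : ((cc : ℚ) : ℝ) = 0.1218185 := by
  unfold cc; push_cast; norm_num

/-- the right end of the `i`-th piece -/
private def rt (i : ℕ) : ℚ := if i = 5 then 1640088 / 1000000 else (i + 1) * cc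

/-- the check on all pieces; `f i` is the polynomial on the `i`-th piece -/
private def chkAll (f : ℕ → List ℚ) (ε : ℚ) : Bool :=
  (List.range 6).all fun i => chk (f i) ε 5 (i * cc) (rt i)

private theorem chkAll_sound {f : ℕ → List ℚ} {ε : ℚ} (h : chkAll f ε = true) {t : ℝ} (h0 : 0 ≤ t)
    (h1 : t ≤ 1.640088) : ∃ i : ℕ, i < 6 ∧ (i * cc : ℝ) ≤ t ∧ (t ≤ (i + 1) * cc ∨ i + 1 = 6) ∧
      |ev (f i) t| ≤ ε := by
  unfold chkAll at h
  rw [List.all_eq_true] at h
  have key : ∀ i : ℕ, i < 6 → (i * cc : ℝ) ≤ t → t ≤ rt i → |ev (f i) t| ≤ ε := by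
    intro i hi ha hb
    refine chk_sound 5 _ _ (h i (List.mem_range.2 hi)) t ?_ hb
    push_cast
    exact ha
  have hcc := cc_cast
  have hrt5 : ((rt 5 : ℚ) : ℝ) = 1.640088 := by
    unfold rt; push_cast; norm_num
  have hrt : ∀ i, i < 5 → ((rt i : ℚ) : ℝ) = (i + 1) * cc := by
    intro i hi
    unfold rt
    rw [if_neg (by omega)]
    push_cast
    ring
  by_cases h5 : (5:ℝ) * cc ≤ t
  · exact ⟨5, by norm_num, by push_cast; exact h5, Or.inr rfl, key 5 (by norm_num)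
      (by push_cast; exact h5) (by rw [hrt5]; exact h1)⟩
  · push Not at h5
    have hpos : (0:ℝ) < cc := by rw [hcc]; norm_num
    have hfl := Nat.floor_le (div_nonneg h0 hpos.le)
    have hfl' := Nat.lt_floor_add_one (t / (cc:ℝ))
    rw [le_div_iff₀ hpos] at hfl
    rw [div_lt_iff₀ hpos] at hfl'
    have hi : ⌊t / (cc:ℝ)⌋₊ < 5 := by
      rw [Nat.floor_lt (div_nonneg h0 hpos.le), div_lt_iff₀ hpos]
      exact_mod_cast h5
    refine ⟨⌊t / (cc:ℝ)⌋₊, by omega, hfl, Or.inl hfl'.le, key _ (by omega) hfl ?_⟩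
    rw [hrt _ hi]
    exact hfl'.le

private def lD : List ℚ := [0, 0.99582, 0.0503, -0.15027, -0.01586, 0.0092]
private def lI : List ℚ := [0, 0, 0.99582/2, 0.0503/3, -0.15027/4, -0.01586/5, 0.0092/6]
private def lJ : List ℚ := [0, 0, 0, 0.99582/6, 0.0503/12, -0.15027/20, -0.01586/30, 0.0092/42]
private def lK : List ℚ :=
  [0, 0, 0, 0, 0.99582/24, 0.0503/60, -0.15027/120, -0.01586/210, 0.0092/336]
private def l5 : List ℚ := [0.000343, 0.992092, 0.062395, -0.166656, -0.006049, 0.00705]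
private def lM : List ℚ := [0.405756, 0.946702, 0.350512, -0.138773, -0.038228, 0.009728]
private def dif (j : ℕ) (m : List ℚ) (i : ℕ) : List ℚ := padd (pz cc j i) (psm (-1) m)

private theorem chkD : chkAll (dif 1 lD) (145 / 1000000) = true := by decide +kernel
private theorem chkI : chkAll (dif 2 lI) (13 / 1000000) = true := by decide +kernel
private theorem chkJ : chkAll (dif 3 lJ) (8 / 1000000) = true := by decide +kernel
private theorem chkK : chkAll (dif 4 lK) (8 / 1000000) = true := by decide +kernel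

/-- from the check to the estimate of a single `Zs` -/
private theorem dif_sound {j : ℕ} {m : List ℚ} {ε : ℚ} (h : chkAll (dif j m) ε = true) {t : ℝ}
    (h0 : 0 ≤ t) (h1 : t ≤ 1.640088) : |Zs 0.1218185 6 j t - ev m t| ≤ ε := by
  obtain ⟨i, hi, ha, hb, hc⟩ := chkAll_sound h h0 h1
  have hcc : (0:ℚ) < cc := by unfold cc; norm_num
  have h2 := Zs_piece hcc (n := 6) (j := j) hi ha hb
  rw [cc_cast] at h2
  rw [dif, ev_padd, ev_psm] at hc
  rw [h2]
  push_cast at hc
  rwa [show ev (pz cc j i) t - ev m t = ev (pz cc j i) t + -1 * ev m t by ring]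

/-! the same with a cut at the left end: first piece starts at `0.121818` -/

private def lft (i : ℕ) : ℚ := if i = 0 then 121818 / 1000000 else i * cc

private def chkAll' (f : ℕ → List ℚ) (ε : ℚ) : Bool :=
  (List.range 6).all fun i => chk (f i) ε 5 (lft i) (rt i)

private theorem chkAll_sound' {f : ℕ → List ℚ} {ε : ℚ} (h : chkAll' f ε = true) {t : ℝ}
    (h0 : 0.121818 ≤ t)
    (h1 : t ≤ 1.640088) : ∃ i : ℕ, i < 6 ∧ (i * cc : ℝ) ≤ t ∧ (t ≤ (i + 1) * cc ∨ i + 1 = 6) ∧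
      |ev (f i) t| ≤ ε := by
  unfold chkAll' at h
  rw [List.all_eq_true] at h
  have h00 : (0:ℝ) ≤ t := le_trans (by norm_num) h0
  have key : ∀ i : ℕ, i < 6 → (i * cc : ℝ) ≤ t → t ≤ rt i → |ev (f i) t| ≤ ε := by
    intro i hi ha hb
    refine chk_sound 5 _ _ (h i (List.mem_range.2 hi)) t ?_ hb
    unfold lft
    split_ifs
    · push_cast
      refine le_trans ?_ h0
      norm_num
    · push_cast
      exact ha
  have hcc := cc_cast
  have hrt5 : ((rt 5 : ℚ) : ℝ) = 1.640088 := by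
    unfold rt; push_cast; norm_num
  have hrt : ∀ i, i < 5 → ((rt i : ℚ) : ℝ) = (i + 1) * cc := by
    intro i hi
    unfold rt
    rw [if_neg (by omega)]
    push_cast
    ring
  by_cases h5 : (5:ℝ) * cc ≤ t
  · exact ⟨5, by norm_num, by push_cast; exact h5, Or.inr (by norm_num), key 5 (by norm_num)
      (by push_cast; exact h5) (by rw [hrt5]; exact h1)⟩
  · push Not at h5
    have hpos : (0:ℝ) < cc := by rw [hcc]; norm_num
    have hfl := Nat.floor_le (div_nonneg h00 hpos.le)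
    have hfl' := Nat.lt_floor_add_one (t / (cc:ℝ))
    rw [le_div_iff₀ hpos] at hfl
    rw [div_lt_iff₀ hpos] at hfl'
    have hi : ⌊t / (cc:ℝ)⌋₊ < 5 := by
      rw [Nat.floor_lt (div_nonneg h00 hpos.le), div_lt_iff₀ hpos]
      exact_mod_cast h5
    refine ⟨⌊t / (cc:ℝ)⌋₊, by omega, hfl, Or.inl hfl'.le, key _ (by omega) hfl ?_⟩
    rw [hrt _ hi]
    exact hfl'.le

private def mbl (i : ℕ) : List ℚ :=
  padd (psm (0.9038755 ^ 2 / 2) (pz cc 0 i)) (padd (psm 0.9038755 (pz cc 1 i))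
    (padd (pz cc 2 i) (psm (-1) lM)))
private def ubl (i : ℕ) : List ℚ := padd (psm 0.9038755 (pz cc 0 i)) (pz cc 1 i)

private theorem chk5 : chkAll' (dif 1 l5) (9 / 1000000) = true := by decide +kernel
private theorem chkM : chkAll' mbl (6 / 1000000) = true := by decide +kernel
private theorem chkZ : chkAll' (pz cc 0) (1001 / 1000) = true := by decide +kernel
private theorem chkU : chkAll' ubl (15 / 10) = true := by decide +kernel

private theorem dif_sound' {j : ℕ} {m : List ℚ} {ε : ℚ} (h : chkAll' (dif j m) ε = true) {t : ℝ}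
    (h0 : 0.121818 ≤ t) (h1 : t ≤ 1.640088) : |Zs 0.1218185 6 j t - ev m t| ≤ ε := by
  obtain ⟨i, hi, ha, hb, hc⟩ := chkAll_sound' h h0 h1
  have hcc : (0:ℚ) < cc := by unfold cc; norm_num
  have h2 := Zs_piece hcc (n := 6) (j := j) hi ha hb
  rw [cc_cast] at h2
  rw [dif, ev_padd, ev_psm] at hc
  rw [h2]
  push_cast at hc
  rwa [show ev (pz cc j i) t - ev m t = ev (pz cc j i) t + -1 * ev m t by ring]

/-- the estimate of the adjoint profile at the rational parameters -/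
private theorem mb_sound {t : ℝ} (h0 : 0.121818 ≤ t) (h1 : t ≤ 1.640088) :
    |(0.9038755 ^ 2 / 2 * Zs 0.1218185 6 0 t + 0.9038755 * Zs 0.1218185 6 1 t +
      Zs 0.1218185 6 2 t) - ev lM t| ≤ 0.000006 := by
  obtain ⟨i, hi, ha, hb, hc⟩ := chkAll_sound' chkM h0 h1
  have hcc : (0:ℚ) < cc := by unfold cc; norm_num
  have h2 : ∀ j, Zs 0.1218185 6 j t = ev (pz cc j i) t := fun j => by
    have := Zs_piece hcc (n := 6) (j := j) hi ha hb
    rwa [cc_cast] at this
  rw [mbl, ev_padd, ev_padd, ev_padd, ev_psm, ev_psm, ev_psm] at hc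
  rw [h2, h2, h2]
  push_cast at hc
  norm_num at hc ⊢
  rw [abs_le] at hc ⊢
  constructor <;> linarith [hc.1, hc.2]

private theorem z_sound {t : ℝ} (h0 : 0.121818 ≤ t) (h1 : t ≤ 1.640088) :
    |Zs 0.1218185 6 0 t| ≤ 1.001 := by
  obtain ⟨i, hi, ha, hb, hc⟩ := chkAll_sound' chkZ h0 h1
  have hcc : (0:ℚ) < cc := by unfold cc; norm_num
  have h2 := Zs_piece hcc (n := 6) (j := 0) hi ha hb
  rw [cc_cast] at h2
  rw [h2]
  push_cast at hc
  refine hc.trans (by norm_num)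

private theorem u_sound {t : ℝ} (h0 : 0.121818 ≤ t) (h1 : t ≤ 1.640088) :
    |0.9038755 * Zs 0.1218185 6 0 t + Zs 0.1218185 6 1 t| ≤ 1.5 := by
  obtain ⟨i, hi, ha, hb, hc⟩ := chkAll_sound' chkU h0 h1
  have hcc : (0:ℚ) < cc := by unfold cc; norm_num
  have h2 : ∀ j, Zs 0.1218185 6 j t = ev (pz cc j i) t := fun j => by
    have := Zs_piece hcc (n := 6) (j := j) hi ha hb
    rwa [cc_cast] at this
  rw [ubl, ev_padd, ev_psm] at hc
  rw [h2, h2]
  push_cast at hc
  norm_num at hc ⊢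
  exact hc

end Pool.Agent.CDk.Enc

namespace Pool.Agent.CDk.Par
variable {P : Par}

/-- polynomial approximations of `D`, `I`, `J`, `K` on `[0, ρ]` (each is the integral of the
previous one) -/
noncomputable def PD (y : ℝ) : ℝ := 0.99582*y + 0.0503*y^2 - 0.15027*y^3 - 0.01586*y^4 + 0.0092*y^5
noncomputable def PI (y : ℝ) : ℝ :=
  0.99582/2*y^2 + 0.0503/3*y^3 - 0.15027/4*y^4 - 0.01586/5*y^5 + 0.0092/6*y^6
noncomputable def PJ (y : ℝ) : ℝ :=
  0.99582/6*y^3 + 0.0503/12*y^4 - 0.15027/20*y^5 - 0.01586/30*y^6 + 0.0092/42*y^7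
noncomputable def PK (y : ℝ) : ℝ :=
  0.99582/24*y^4 + 0.0503/60*y^5 - 0.15027/120*y^6 - 0.01586/210*y^7 + 0.0092/336*y^8

/-- finer approximation of `D` on `[e0, ρ]` -/
noncomputable def PD5 (y : ℝ) : ℝ :=
  0.000343 + 0.992092*y + 0.062395*y^2 - 0.166656*y^3 - 0.006049*y^4 + 0.00705*y^5

/-- approximation of `mb (ρ - t)`, `t ∈ [e0, ρ]` -/
noncomputable def PM (t : ℝ) : ℝ :=
  0.405756 + 0.946702*t + 0.350512*t^2 - 0.138773*t^3 - 0.038228*t^4 + 0.009728*t^5

private theorem min_rho (h : P.Star) {y : ℝ} (h1 : y ≤ P.ρ) : y ≤ 1.640088 :=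
  h1.trans h.ρ_hi.le

private theorem D_in {y : ℝ} (h1 : y ≤ P.ρ) : P.D y = Zs P.e0 15 1 y := by
  rw [D, min_eq_left h1]

private theorem I_in {y : ℝ} (h1 : y ≤ P.ρ) : P.I y = Zs P.e0 15 2 y := by
  rw [I, min_eq_left h1, max_eq_right (by linarith), mul_zero, add_zero]

private theorem J_in {y : ℝ} (h1 : y ≤ P.ρ) : P.J y = Zs P.e0 15 3 y := by
  rw [J, min_eq_left h1, max_eq_right (by linarith)]
  ring

private theorem K_in {y : ℝ} (h1 : y ≤ P.ρ) : P.K y = Zs P.e0 15 4 y := by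
  rw [K, min_eq_left h1, max_eq_right (by linarith)]
  ring

open Pool.Agent.CDk.Enc

theorem D_app (h : P.Star) {y : ℝ} (h0 : 0 ≤ y) (h1 : y ≤ P.ρ) : |P.D y - PD y| ≤ 0.00015 := by
  have h2 := Zs_e1 h.e_lo.le h.e_hi.le (h1.trans h.ρ_hi.le)
  have h3 := dif_sound chkD h0 (h1.trans h.ρ_hi.le)
  have h4 : ev lD y = PD y := by
    simp only [ev, lD, PD]; push_cast; ring
  rw [D_in h1]
  rw [h4] at h3
  push_cast at h3
  norm_num at h2 h3 ⊢
  rw [abs_le] at *
  constructor <;> linarith [h2.1, h2.2, h3.1, h3.2]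

theorem D_small (h : P.Star) {y : ℝ} (h0 : 0 ≤ y) (h1 : y ≤ P.e0) : P.D y = y := by
  have h2 := h.ρ_lo
  have h3 := h.e_hi
  have h4 := h.e_lo
  norm_num at h2 h3 h4
  rw [D_in (by linarith only [h1, h2, h3, h4])]
  unfold Zs
  rw [Finset.sum_range_succ']
  rw [Finset.sum_eq_zero]
  · simp [h0]
  · intro k _
    have h5 : y - ((k + 1 : ℕ) : ℝ) * P.e0 ≤ 0 := by
      push_cast
      have : (0:ℝ) ≤ k := Nat.cast_nonneg k
      nlinarith only [h1, h0]
    rw [max_eq_right h5, zero_pow (by omega)]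
    simp

theorem D_app5 (h : P.Star) {y : ℝ} (h0 : P.e0 ≤ y) (h1 : y ≤ P.ρ) : |P.D y - PD5 y| ≤ 0.00001 := by
  have h2 := Zs_e1 h.e_lo.le h.e_hi.le (h1.trans h.ρ_hi.le)
  have h3 := dif_sound' chk5 (h.e_lo.le.trans h0) (h1.trans h.ρ_hi.le)
  have h4 : ev l5 y = PD5 y := by
    simp only [ev, l5, PD5]; push_cast; ring
  rw [D_in h1]
  rw [h4] at h3
  push_cast at h3
  norm_num at h2 h3 ⊢
  rw [abs_le] at *
  constructor <;> linarith [h2.1, h2.2, h3.1, h3.2]

theorem I_app (h : P.Star) {y : ℝ} (h0 : 0 ≤ y) (h1 : y ≤ P.ρ) : |P.I y - PI y| ≤ 0.000015 := by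
  have h2 := Zs_e2 h.e_lo.le h.e_hi.le (h1.trans h.ρ_hi.le)
  have h3 := dif_sound chkI h0 (h1.trans h.ρ_hi.le)
  have h4 : ev lI y = PI y := by
    simp only [ev, lI, PI]; push_cast; ring
  rw [I_in h1]
  rw [h4] at h3
  push_cast at h3
  norm_num at h2 h3 ⊢
  rw [abs_le] at *
  constructor <;> linarith [h2.1, h2.2, h3.1, h3.2]

theorem J_app (h : P.Star) {y : ℝ} (h0 : 0 ≤ y) (h1 : y ≤ P.ρ) : |P.J y - PJ y| ≤ 0.00001 := by
  have h2 := Zs_e3 h.e_lo.le h.e_hi.le (h1.trans h.ρ_hi.le)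
  have h3 := dif_sound chkJ h0 (h1.trans h.ρ_hi.le)
  have h4 : ev lJ y = PJ y := by
    simp only [ev, lJ, PJ]; push_cast; ring
  rw [J_in h1]
  rw [h4] at h3
  push_cast at h3
  norm_num at h2 h3 ⊢
  rw [abs_le] at *
  constructor <;> linarith [h2.1, h2.2, h3.1, h3.2]

theorem K_app (h : P.Star) {y : ℝ} (h0 : 0 ≤ y) (h1 : y ≤ P.ρ) : |P.K y - PK y| ≤ 0.00001 := by
  have h2 := Zs_e4 h.e_lo.le h.e_hi.le (h1.trans h.ρ_hi.le)
  have h3 := dif_sound chkK h0 (h1.trans h.ρ_hi.le)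
  have h4 : ev lK y = PK y := by
    simp only [ev, lK, PK]; push_cast; ring
  rw [K_in h1]
  rw [h4] at h3
  push_cast at h3
  norm_num at h2 h3 ⊢
  rw [abs_le] at *
  constructor <;> linarith [h2.1, h2.2, h3.1, h3.2]

theorem mb_app (h : P.Star) {t : ℝ} (h0 : P.e0 ≤ t) (h1 : t ≤ P.ρ) : |P.mb (P.ρ - t) - PM t| ≤ 0.00001 := by
  have ht0 : 0.121818 ≤ t := h.e_lo.le.trans h0
  have ht1 : t ≤ 1.640088 := h1.trans h.ρ_hi.le
  have e0 := Zs_e0 h.e_lo.le h.e_hi.le ht1
  have e1 := Zs_e1 h.e_lo.le h.e_hi.le ht1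
  have e2 := Zs_e2 h.e_lo.le h.e_hi.le ht1
  have hm := mb_sound ht0 ht1
  have hz := z_sound ht0 ht1
  have hU := u_sound ht0 ht1
  have hu0 := h.u_lo
  have hu1 := h.u_hi
  have h4 : ev lM t = PM t := by
    simp only [ev, lM, PM]; push_cast; ring
  rw [h4] at hm
  have hpos : 0 < P.e0 := h.data.he
  have hmb : P.mb (P.ρ - t) =
      P.u^2/2 * Zs P.e0 15 0 t + P.u * Zs P.e0 15 1 t + Zs P.e0 15 2 t := by
    rw [mb, if_pos (by linarith only [h0, hpos]), sub_sub_cancel]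
  rw [hmb]
  set a0 := Zs P.e0 15 0 t
  set a1 := Zs P.e0 15 1 t
  set a2 := Zs P.e0 15 2 t
  set b0 := Zs 0.1218185 6 0 t
  set b1 := Zs 0.1218185 6 1 t
  set b2 := Zs 0.1218185 6 2 t
  set u := P.u
  -- replace `a` by `b`
  have s1 : |(u^2/2 * a0 + u * a1 + a2) - (u^2/2 * b0 + u * b1 + b2)| ≤ 0.0000016 := by
    have : (u^2/2 * a0 + u * a1 + a2) - (u^2/2 * b0 + u * b1 + b2) =
        u^2/2 * (a0 - b0) + u * (a1 - b1) + (a2 - b2) := by ring
    rw [this]
    refine (abs_add_le _ _).trans ?_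
    refine (add_le_add_left (abs_add_le _ _) _).trans ?_
    rw [abs_mul, abs_mul, abs_of_nonneg (by positivity : (0:ℝ) ≤ u^2/2),
      abs_of_nonneg (by norm_num at hu0; linarith only [hu0] : (0:ℝ) ≤ u)]
    have k1 : u^2/2 * |a0 - b0| ≤ 0.4086 * 0.0000013 := by
      refine mul_le_mul ?_ e0 (abs_nonneg _) (by norm_num)
      norm_num at hu0 hu1 ⊢
      nlinarith only [hu1, hu0]
    have k2 : u * |a1 - b1| ≤ 0.904 * 0.00000076 := by
      refine mul_le_mul ?_ e1 (abs_nonneg _) (by norm_num)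
      norm_num at hu0 hu1 ⊢
      linarith only [hu1]
    refine (add_le_add (add_le_add k1 k2) e2).trans ?_
    norm_num
  -- replace `u` by its rational value
  have s2 : |(u^2/2 * b0 + u * b1 + b2) - (0.9038755 ^ 2 / 2 * b0 + 0.9038755 * b1 + b2)| ≤
      0.0000023 := by
    have : (u^2/2 * b0 + u * b1 + b2) - (0.9038755 ^ 2 / 2 * b0 + 0.9038755 * b1 + b2) =
        (u - 0.9038755) * (0.9038755 * b0 + b1) + (u - 0.9038755)^2/2 * b0 := by ring
    rw [this]
    refine (abs_add_le _ _).trans ?_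
    rw [abs_mul, abs_mul]
    have hd : |u - 0.9038755| ≤ 0.0000015 := by
      rw [abs_le]; norm_num at hu0 hu1 ⊢; constructor <;> linarith
    have k1 : |u - 0.9038755| * |0.9038755 * b0 + b1| ≤ 0.0000015 * 1.5 :=
      mul_le_mul hd hU (abs_nonneg _) (by norm_num)
    have k2 : |(u - 0.9038755)^2/2| * |b0| ≤ (0.0000015^2/2) * 1.001 := by
      refine mul_le_mul ?_ hz (abs_nonneg _) (by norm_num)
      rw [abs_of_nonneg (by positivity)]
      refine div_le_div_of_nonneg_right ?_ (by norm_num)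
      rw [← sq_abs]
      exact pow_le_pow_left₀ (abs_nonneg _) hd 2
    refine (add_le_add k1 k2).trans ?_
    norm_num
  norm_num at s1 s2 hm ⊢
  rw [abs_le] at *
  constructor <;> linarith [s1.1, s1.2, s2.1, s2.2, hm.1, hm.2]

end Pool.Agent.CDk.Par
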