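import Pool.Agent.CDk.Defs

open MeasureTheory Set Filter Topology

namespace Pool.Agent.CDk.Par
variable {P : Par}

/-! ### truncated powers -/

theorem tp_nonneg (x : ℝ) (n : ℕ) : 0 ≤ (max x 0) ^ n / (n.factorial : ℝ) := by
  positivity

theorem tp_hasDerivAt (n : ℕ) (hn : 1 ≤ n) (x : ℝ) :
    HasDerivAt (fun x : ℝ => (max x 0) ^ (n + 1) / ((n + 1).factorial : ℝ))
      ((max x 0) ^ n / (n.factorial : ℝ)) x := by
  have hfac : ((n + 1).factorial : ℝ) = (n + 1) * n.factorial := by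
    rw [Nat.factorial_succ]; push_cast; ring
  have hf0 : (n.factorial : ℝ) ≠ 0 := by positivity
  have hn1 : ((n : ℝ) + 1) ≠ 0 := by positivity
  rcases lt_trichotomy x 0 with h | h | h
  · have h1 : (fun x : ℝ => (max x 0) ^ (n + 1) / ((n + 1).factorial : ℝ)) =ᶠ[𝓝 x] fun _ => 0 := by
      filter_upwards [Iio_mem_nhds h] with y hy
      rw [max_eq_right (le_of_lt hy), zero_pow (by omega), zero_div]
    rw [max_eq_right h.le, zero_pow (by omega), zero_div]
    exact (hasDerivAt_const x (0 : ℝ)).congr_of_eventuallyEq h1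
  · subst h
    rw [max_self, zero_pow (by omega), zero_div, hasDerivAt_iff_tendsto_slope]
    have h1 : Tendsto (fun y : ℝ => (max y 0) ^ n / ((n + 1).factorial : ℝ)) (𝓝 0) (𝓝 0) := by
      have : Continuous fun y : ℝ => (max y 0) ^ n / ((n + 1).factorial : ℝ) := by fun_prop
      have h2 := this.tendsto 0
      simpa [zero_pow (show n ≠ 0 by omega)] using h2
    refine (h1.mono_left nhdsWithin_le_nhds).congr' ?_
    filter_upwards [self_mem_nhdsWithin] with y hy
    have hy0 : y ≠ 0 := hy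
    rw [slope_def_field]
    rcases lt_or_gt_of_ne hy0 with h2 | h2
    · rw [max_eq_right h2.le, max_self, zero_pow (show n ≠ 0 by omega), zero_pow (by omega)]
      simp
    · rw [max_eq_left h2.le, max_self, zero_pow (show n + 1 ≠ 0 by omega), pow_succ]
      field_simp
      ring
  · have h1 : (fun x : ℝ => (max x 0) ^ (n + 1) / ((n + 1).factorial : ℝ)) =ᶠ[𝓝 x]
        fun x => x ^ (n + 1) / ((n + 1).factorial : ℝ) := by
      filter_upwards [Ioi_mem_nhds h] with y hy
      rw [max_eq_left (le_of_lt hy)]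
    rw [max_eq_left h.le]
    have h2 : HasDerivAt (fun x : ℝ => x ^ (n + 1) / ((n + 1).factorial : ℝ))
        (((n + 1 : ℕ) : ℝ) * x ^ n / ((n + 1).factorial : ℝ)) x := by
      have := (hasDerivAt_pow (n + 1) x).div_const ((n + 1).factorial : ℝ)
      simpa using this
    have h3 : ((n + 1 : ℕ) : ℝ) * x ^ n / ((n + 1).factorial : ℝ) = x ^ n / (n.factorial : ℝ) := by
      rw [hfac]
      push_cast
      field_simp
    rw [← h3]
    exact h2.congr_of_eventuallyEq h1

theorem tp_hasDerivAt_shift (a : ℝ) (n : ℕ) (hn : 1 ≤ n) (x : ℝ) :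
    HasDerivAt (fun x : ℝ => (max (x - a) 0) ^ (n + 1) / ((n + 1).factorial : ℝ))
      ((max (x - a) 0) ^ n / (n.factorial : ℝ)) x := by
  have h1 := (tp_hasDerivAt n hn (x - a)).comp x ((hasDerivAt_id x).sub_const a)
  rw [mul_one] at h1
  exact h1

theorem Zs_cont (e : ℝ) (n j : ℕ) : Continuous (Zs e n j) := by
  unfold Zs
  fun_prop

theorem Zs_hasDerivAt (e : ℝ) (n j : ℕ) (hj : 1 ≤ j) (x : ℝ) :
    HasDerivAt (Zs e n (j + 1)) (Zs e n j x) x := by
  unfold Zs
  refine HasDerivAt.fun_sum fun k _ => ?_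
  have h1 := (tp_hasDerivAt_shift (k * e) (2 * k + j) (by omega) x).const_mul ((-1 : ℝ) ^ k)
  have h2 : 2 * k + j + 1 = 2 * k + (j + 1) := by ring
  rw [h2] at h1
  simpa only [mul_div_assoc] using h1

theorem Zs_hasDerivAt0 (e : ℝ) (n : ℕ) {x : ℝ} (hx : 0 < x) :
    HasDerivAt (Zs e n 1) (Zs e n 0 x) x := by
  unfold Zs
  refine HasDerivAt.fun_sum fun k _ => ?_
  rcases Nat.eq_zero_or_pos k with hk | hk
  · subst hk
    have h1 : (fun x : ℝ => (-1 : ℝ) ^ 0 * (max (x - ((0 : ℕ) : ℝ) * e) 0) ^ (2 * 0 + 1) /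
        ((2 * 0 + 1).factorial : ℝ)) =ᶠ[𝓝 x] fun x => x := by
      filter_upwards [Ioi_mem_nhds hx] with y hy
      have : max y 0 = y := max_eq_left (le_of_lt hy)
      simp [this]
    have h2 : (-1 : ℝ) ^ 0 * (max (x - ((0 : ℕ) : ℝ) * e) 0) ^ (2 * 0 + 0) /
        ((2 * 0 + 0).factorial : ℝ) = 1 := by simp
    rw [h2]
    exact (hasDerivAt_id x).congr_of_eventuallyEq h1
  · have h1 := (tp_hasDerivAt_shift (k * e) (2 * k + 0) (by omega) x).const_mul ((-1 : ℝ) ^ k)
    have h2 : 2 * k + 0 + 1 = 2 * k + 1 := by ring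
    rw [h2] at h1
    simpa only [mul_div_assoc] using h1

theorem Zs_neg (e : ℝ) (n j : ℕ) (he : 0 < e) (hj : 1 ≤ j) {x : ℝ} (hx : x ≤ 0) : Zs e n j x = 0 := by
  unfold Zs
  refine Finset.sum_eq_zero fun k _ => ?_
  have : x - k * e ≤ 0 := by
    have : (0 : ℝ) ≤ k * e := by positivity
    linarith
  rw [max_eq_right this, zero_pow (by omega)]
  simp

theorem Zs_shift (e : ℝ) (n j : ℕ) (y : ℝ) :
    Zs e (n + 1) j (y + e) = (max (y + e) 0) ^ j / (j.factorial : ℝ) - Zs e n (j + 2) y := by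
  unfold Zs
  rw [Finset.sum_range_succ']
  have h0 : ∑ k ∈ Finset.range n, (-1 : ℝ) ^ (k + 1) * (max (y + e - ((k + 1 : ℕ) : ℝ) * e) 0) ^
      (2 * (k + 1) + j) / ((2 * (k + 1) + j).factorial : ℝ) =
      - ∑ k ∈ Finset.range n, (-1 : ℝ) ^ k * (max (y - k * e) 0) ^ (2 * k + (j + 2)) /
        ((2 * k + (j + 2)).factorial : ℝ) := by
    rw [← Finset.sum_neg_distrib]
    refine Finset.sum_congr rfl fun k _ => ?_
    have h1 : y + e - ((k + 1 : ℕ) : ℝ) * e = y - k * e := by push_cast; ring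
    have h2 : 2 * (k + 1) + j = 2 * k + (j + 2) := by ring
    rw [h1, h2, pow_succ]
    ring
  rw [h0]
  have h3 : (-1 : ℝ) ^ 0 * (max (y + e - ((0 : ℕ) : ℝ) * e) 0) ^ (2 * 0 + j) /
      ((2 * 0 + j).factorial : ℝ) = (max (y + e) 0) ^ j / (j.factorial : ℝ) := by simp
  rw [h3]
  ring

theorem Zs_trunc (e : ℝ) (n j : ℕ) (hn : 1 ≤ 2 * n + j) {y : ℝ} (hy : y ≤ n * e) :
    Zs e (n + 1) j y = Zs e n j y := by
  unfold Zs
  rw [Finset.sum_range_succ]
  have : y - n * e ≤ 0 := by linarith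
  rw [max_eq_right this, zero_pow (by omega)]
  simp

/-- terms decrease: alternating sum is nonnegative -/
theorem Zs_nonneg_aux (e : ℝ) (he : 0 < e) (n j : ℕ) {y : ℝ} (hy0 : 0 ≤ y)
    (hy : y ^ 2 ≤ (j + 1) * (j + 2)) : 0 ≤ Zs e n (j + 0) y ∨ j = 0 := by
  by_cases hj : j = 0
  · exact Or.inr hj
  left
  have hj1 : 1 ≤ j := by omega
  set t : ℕ → ℝ := fun k => (max (y - k * e) 0) ^ (2 * k + j) / ((2 * k + j).factorial : ℝ) with ht
  have ht0 : ∀ k, 0 ≤ t k := fun k => tp_nonneg _ _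
  have hdec : ∀ k, t (k + 1) ≤ t k := by
    intro k
    have h1 : max (y - ((k + 1 : ℕ) : ℝ) * e) 0 ≤ max (y - k * e) 0 := by
      refine max_le_max ?_ le_rfl
      push_cast
      nlinarith
    have h0 : 0 ≤ max (y - k * e) 0 := le_max_right _ _
    have h2 : max (y - k * e) 0 ≤ y := by
      refine max_le ?_ hy0
      have : (0 : ℝ) ≤ k * e := by positivity
      linarith
    have h3 : (max (y - ((k + 1 : ℕ) : ℝ) * e) 0) ^ (2 * (k + 1) + j) ≤
        (max (y - k * e) 0) ^ (2 * k + j) * y ^ 2 := by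
      calc (max (y - ((k + 1 : ℕ) : ℝ) * e) 0) ^ (2 * (k + 1) + j)
          ≤ (max (y - k * e) 0) ^ (2 * (k + 1) + j) :=
            pow_le_pow_left₀ (le_max_right _ _) h1 _
        _ = (max (y - k * e) 0) ^ (2 * k + j) * (max (y - k * e) 0) ^ 2 := by
            rw [← pow_add]; congr 1; ring
        _ ≤ (max (y - k * e) 0) ^ (2 * k + j) * y ^ 2 :=
            mul_le_mul_of_nonneg_left (pow_le_pow_left₀ h0 h2 _) (by positivity)
    have h4 : ((2 * (k + 1) + j).factorial : ℝ) = ((2 * k + j + 2 : ℕ) : ℝ) * ((2 * k + j + 1 : ℕ) : ℝ) *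
        ((2 * k + j).factorial : ℝ) := by
      have : 2 * (k + 1) + j = 2 * k + j + 1 + 1 := by ring
      rw [this, Nat.factorial_succ, Nat.factorial_succ]
      push_cast
      ring
    have h5 : ((j : ℝ) + 1) * (j + 2) ≤ ((2 * k + j + 2 : ℕ) : ℝ) * ((2 * k + j + 1 : ℕ) : ℝ) := by
      have : (j + 1) * (j + 2) ≤ (2 * k + j + 2) * (2 * k + j + 1) := by nlinarith
      exact_mod_cast this
    have hF : (0 : ℝ) < ((2 * k + j).factorial : ℝ) := by positivity
    show (max (y - ((k + 1 : ℕ) : ℝ) * e) 0) ^ (2 * (k + 1) + j) / ((2 * (k + 1) + j).factorial : ℝ) ≤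
      (max (y - k * e) 0) ^ (2 * k + j) / ((2 * k + j).factorial : ℝ)
    rw [h4, div_le_div_iff₀ (by positivity) hF]
    have h6 : 0 ≤ (max (y - k * e) 0) ^ (2 * k + j) := by positivity
    calc (max (y - ((k + 1 : ℕ) : ℝ) * e) 0) ^ (2 * (k + 1) + j) * ((2 * k + j).factorial : ℝ)
        ≤ ((max (y - k * e) 0) ^ (2 * k + j) * y ^ 2) * ((2 * k + j).factorial : ℝ) :=
          mul_le_mul_of_nonneg_right h3 hF.le
      _ ≤ ((max (y - k * e) 0) ^ (2 * k + j) * (((2 * k + j + 2 : ℕ) : ℝ) * ((2 * k + j + 1 : ℕ) : ℝ))) *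
          ((2 * k + j).factorial : ℝ) := by
          refine mul_le_mul_of_nonneg_right ?_ hF.le
          exact mul_le_mul_of_nonneg_left (hy.trans h5) h6
      _ = _ := by ring
  have hform : ∀ n : ℕ, Zs e n (j + 0) y = ∑ k ∈ Finset.range n, (-1 : ℝ) ^ k * t k := by
    intro n
    unfold Zs
    refine Finset.sum_congr rfl fun k _ => ?_
    rw [mul_div_assoc, Nat.add_zero]
  rw [hform]
  -- partial sums of an alternating decreasing sequence
  have key : ∀ n : ℕ, 0 ≤ ∑ k ∈ Finset.range n, (-1 : ℝ) ^ k * t k ∧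
      (Even n → t n ≤ t n + ∑ k ∈ Finset.range n, (-1 : ℝ) ^ k * t k) ∧
      (Odd n → t n ≤ ∑ k ∈ Finset.range n, (-1 : ℝ) ^ k * t k) := by
    intro n
    induction n with
    | zero => simp
    | succ n ih =>
      obtain ⟨h1, h2, h3⟩ := ih
      rw [Finset.sum_range_succ]
      rcases Nat.even_or_odd n with he' | ho
      · rw [he'.neg_one_pow, one_mul]
        have := hdec n
        have := ht0 n
        refine ⟨by linarith, fun h => ?_, fun _ => by linarith⟩
        exact absurd h (by simpa using Nat.not_even_iff_odd.2 he'.add_one)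
      · rw [ho.neg_one_pow]
        have h4 := h3 ho
        refine ⟨by linarith, fun _ => by linarith, fun h => ?_⟩
        exact absurd h (by simpa using Nat.not_odd_iff_even.2 ho.add_one)
  exact (key n).1

/-- glueing -/
theorem glue_hasDerivAt (ρ : ℝ) (f f' g g' : ℝ → ℝ) (hf : ∀ y, HasDerivAt f (f' y) y)
    (hg : ∀ z, HasDerivAt g (g' z) z) (hg0 : g 0 = 0) (h : g' 0 = f' ρ) (y : ℝ) :
    HasDerivAt (fun y => f (min y ρ) + g (max (y - ρ) 0)) (f' (min y ρ) + (g' (max (y - ρ) 0) - g' 0)) y := by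
  rcases lt_trichotomy y ρ with hy | hy | hy
  · have h1 : (fun y => f (min y ρ) + g (max (y - ρ) 0)) =ᶠ[𝓝 y] f := by
      filter_upwards [Iio_mem_nhds hy] with x hx
      rw [min_eq_left (le_of_lt hx), max_eq_right (by linarith [hx.out]), hg0, add_zero]
    rw [min_eq_left hy.le, max_eq_right (by linarith), sub_self, add_zero]
    exact (hf y).congr_of_eventuallyEq h1
  · subst hy
    rw [min_self, sub_self, max_self, sub_self, add_zero, ← hasDerivWithinAt_univ,
      ← Iic_union_Ici (a := y)]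
    refine HasDerivWithinAt.union ?_ ?_
    · refine (hf y).hasDerivWithinAt.congr (fun x hx => ?_) ?_
      · rw [min_eq_left hx, max_eq_right (by linarith [hx.out]), hg0, add_zero]
      · rw [min_self, sub_self, max_self, hg0, add_zero]
    · have h2 : HasDerivAt (fun x => f y + g (x - y)) (f' y) y := by
        have h3 := (hg (y - y)).comp_sub_const y y
        have h4 : g' (y - y) = f' y := by rw [sub_self, h]
        rw [h4] at h3
        exact h3.const_add (f y)
      refine h2.hasDerivWithinAt.congr (fun x hx => ?_) ?_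
      · rw [min_eq_right hx, max_eq_left (by linarith [hx.out])]
      · rw [min_self, sub_self, max_self]
  · have h1 : (fun y => f (min y ρ) + g (max (y - ρ) 0)) =ᶠ[𝓝 y] fun x => f ρ + g (x - ρ) := by
      filter_upwards [Ioi_mem_nhds hy] with x hx
      rw [min_eq_right (le_of_lt hx), max_eq_left (by linarith [hx.out])]
    rw [min_eq_right hy.le, max_eq_left (by linarith), h]
    have h2 : HasDerivAt (fun x => f ρ + g (x - ρ)) (g' (y - ρ)) y := by
      have h3 := (hg (y - ρ)).comp_sub_const y ρ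
      exact h3.const_add (f ρ)
    have h3 : f' ρ + (g' (y - ρ) - f' ρ) = g' (y - ρ) := by ring
    rw [h3]
    exact h2.congr_of_eventuallyEq h1

theorem Y_pos (h : P.Star) : 2.543961 < P.Y ∧ P.Y < 2.543965 ∧ 2.665779 < P.L ∧ P.L < 2.665784 := by
  have h1 := h.ρ_lo; have h2 := h.ρ_hi; have h3 := h.u_lo; have h4 := h.u_hi
  have h5 := h.e_lo; have h6 := h.e_hi
  unfold Y L
  refine ⟨by linarith, by linarith, by linarith, by linarith⟩

theorem sinh_poly (x : ℝ) (hx : |x| ≤ 1) :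
    |Real.sinh x - (x + x ^ 3 / 6 + x ^ 5 / 120 + x ^ 7 / 5040 + x ^ 9 / 362880)| ≤
      |x| ^ 10 * (11 / 36288000) := by
  have h1 := Real.exp_bound hx (show 0 < 10 by norm_num)
  have h2 := Real.exp_bound (x := -x) (by rwa [abs_neg]) (show 0 < 10 by norm_num)
  rw [abs_neg] at h2
  rw [Real.sinh_eq]
  simp only [Finset.sum_range_succ, Finset.sum_range_zero, Nat.factorial] at h1 h2
  norm_num at h1 h2
  rw [abs_le] at h1 h2 ⊢
  obtain ⟨h1, h1'⟩ := h1
  obtain ⟨h2, h2'⟩ := h2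
  constructor
  · linarith
  · linarith

theorem sg_bd (h : P.Star) : 0.52168 < P.sg ∧ P.sg < 0.521684 := by
  unfold sg
  have h1 : Real.sinh 0.500519 < Real.sinh P.s := Real.sinh_lt_sinh.2 h.s_lo
  have h2 : Real.sinh P.s < Real.sinh 0.500521 := Real.sinh_lt_sinh.2 h.s_hi
  have h3 := sinh_poly 0.500519 (by rw [abs_of_pos (by norm_num)]; norm_num)
  have h4 := sinh_poly 0.500521 (by rw [abs_of_pos (by norm_num)]; norm_num)
  rw [abs_of_pos (show (0 : ℝ) < 0.500519 by norm_num), abs_le] at h3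
  rw [abs_of_pos (show (0 : ℝ) < 0.500521 by norm_num), abs_le] at h4
  obtain ⟨h3, -⟩ := h3
  obtain ⟨-, h4⟩ := h4
  norm_num at h3 h4 ⊢
  constructor
  · linarith
  · linarith

theorem D_cont (h : P.Star) : Continuous P.D := by
  unfold D
  exact (Zs_cont _ _ _).comp (continuous_id.min continuous_const)

theorem Zs_nonneg (e : ℝ) (he : 0 < e) (n j : ℕ) (hj : 1 ≤ j) {y : ℝ} (hy0 : 0 ≤ y)
    (hy : y ^ 2 ≤ (j + 1) * (j + 2)) : 0 ≤ Zs e n j y :=
  (Zs_nonneg_aux e he n j hy0 hy).resolve_right (by omega)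

theorem ρ_pos (h : P.Star) : 0 < P.ρ := h.data.hρ

theorem e0_pos (h : P.Star) : 0 < P.e0 := h.data.he

theorem D_zero (h : P.Star) {y : ℝ} (hy : y ≤ 0) : P.D y = 0 := by
  unfold D
  rw [min_eq_left (hy.trans h.data.hρ.le)]
  exact Zs_neg _ _ _ h.data.he le_rfl hy

theorem D_const (h : P.Star) {y : ℝ} (hy : P.ρ ≤ y) : P.D y = P.D P.ρ := by
  unfold D
  rw [min_eq_right hy, min_self]

/-- truncation of the last term -/
theorem Zs15 (h : P.Star) (j : ℕ) {y : ℝ} (hy : y ≤ P.ρ) : Zs P.e0 15 j y = Zs P.e0 14 j y := by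
  refine Zs_trunc _ 14 j (by omega) ?_
  have h1 := h.ρ_hi; have h2 := h.e_lo
  push_cast
  linarith

theorem Zs_shift15 (h : P.Star) (j : ℕ) {y : ℝ} (hy : y ≤ P.ρ) :
    Zs P.e0 15 j (y + P.e0) = (max (y + P.e0) 0) ^ j / (j.factorial : ℝ) - Zs P.e0 15 (j + 2) y := by
  rw [Zs_shift, Zs15 h _ hy]

/-- `I*(y) = 1 - Z'(y + e0)` -/
theorem I_eq (h : P.Star) {y : ℝ} (hy : 0 ≤ y) (hy2 : y ≤ P.ρ) : P.I y = 1 - Zs P.e0 15 0 (y + P.e0) := by
  rw [Zs_shift15 h 0 hy2]
  unfold I
  rw [min_eq_left hy2, max_eq_right (by linarith : y - P.ρ ≤ 0)]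
  simp

/-- the first zero of `1 - I*` -/
theorem I_rho (h : P.Star) : P.I (P.ρ - P.e0) = 1 := by
  have h1 := h.ρ_lo; have h2 := h.e_hi; have h3 := e0_pos h
  rw [I_eq h (by linarith) (by linarith), sub_add_cancel, h.data.E1, sub_zero]

theorem I_zero (h : P.Star) {y : ℝ} (hy : y ≤ 0) : P.I y = 0 := by
  have h1 := ρ_pos h
  unfold I
  rw [min_eq_left (by linarith), max_eq_right (by linarith), Zs_neg _ _ _ (e0_pos h) (by norm_num) hy]
  simp

theorem J_zero (h : P.Star) {y : ℝ} (hy : y ≤ 0) : P.J y = 0 := by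
  have h1 := ρ_pos h
  unfold J
  rw [min_eq_left (by linarith), max_eq_right (by linarith), Zs_neg _ _ _ (e0_pos h) (by norm_num) hy]
  simp

theorem K_zero (h : P.Star) {y : ℝ} (hy : y ≤ 0) : P.K y = 0 := by
  have h1 := ρ_pos h
  unfold K
  rw [min_eq_left (by linarith), max_eq_right (by linarith), Zs_neg _ _ _ (e0_pos h) (by norm_num) hy]
  simp

theorem I_deriv (h : P.Star) (y : ℝ) : HasDerivAt P.I (P.D y) y := by
  have h1 := glue_hasDerivAt P.ρ (Zs P.e0 15 2) (Zs P.e0 15 1) (fun z => Zs P.e0 15 1 P.ρ * z)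
    (fun _ => Zs P.e0 15 1 P.ρ) (fun x => Zs_hasDerivAt _ _ 1 le_rfl x)
    (fun z => by simpa using (hasDerivAt_id z).const_mul (Zs P.e0 15 1 P.ρ)) (by simp) rfl y
  rw [sub_self, add_zero] at h1
  exact h1

theorem J_deriv (h : P.Star) (y : ℝ) : HasDerivAt P.J (P.I y) y := by
  have h1 := glue_hasDerivAt P.ρ (Zs P.e0 15 3) (Zs P.e0 15 2)
    (fun z => Zs P.e0 15 2 P.ρ * z + Zs P.e0 15 1 P.ρ * z ^ 2 / 2)
    (fun z => Zs P.e0 15 2 P.ρ + Zs P.e0 15 1 P.ρ * z) (fun x => Zs_hasDerivAt _ _ 2 (by norm_num) x)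
    (fun z => by
      have h2 := ((hasDerivAt_id z).const_mul (Zs P.e0 15 2 P.ρ)).add
        (((hasDerivAt_pow 2 z).const_mul (Zs P.e0 15 1 P.ρ)).div_const 2)
      refine h2.congr_deriv ?_
      push_cast
      ring) (by simp) (by simp) y
  refine (h1.congr_deriv ?_).congr_of_eventuallyEq (Eventually.of_forall fun x => ?_)
  · unfold I
    ring
  · unfold J
    ring

theorem K_deriv (h : P.Star) (y : ℝ) : HasDerivAt P.K (P.J y) y := by
  have h1 := glue_hasDerivAt P.ρ (Zs P.e0 15 4) (Zs P.e0 15 3)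
    (fun z => Zs P.e0 15 3 P.ρ * z + Zs P.e0 15 2 P.ρ * z ^ 2 / 2 + Zs P.e0 15 1 P.ρ * z ^ 3 / 6)
    (fun z => Zs P.e0 15 3 P.ρ + Zs P.e0 15 2 P.ρ * z + Zs P.e0 15 1 P.ρ * z ^ 2 / 2)
    (fun x => Zs_hasDerivAt _ _ 3 (by norm_num) x)
    (fun z => by
      have h2 := (((hasDerivAt_id z).const_mul (Zs P.e0 15 3 P.ρ)).add
        (((hasDerivAt_pow 2 z).const_mul (Zs P.e0 15 2 P.ρ)).div_const 2)).add
        (((hasDerivAt_pow 3 z).const_mul (Zs P.e0 15 1 P.ρ)).div_const 6)
      refine h2.congr_deriv ?_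
      push_cast
      ring) (by simp) (by simp) y
  refine (h1.congr_deriv ?_).congr_of_eventuallyEq (Eventually.of_forall fun x => ?_)
  · unfold J
    ring
  · unfold K
    ring

theorem D_nonneg (h : P.Star) (y : ℝ) : 0 ≤ P.D y := by
  rcases le_or_gt y 0 with hy | hy
  · rw [D_zero h hy]
  · unfold D
    have h1 := ρ_pos h; have h2 := h.ρ_hi
    have h3 : 0 ≤ min y P.ρ := le_min hy.le h1.le
    have h4 : min y P.ρ ≤ 1.640088 := (min_le_right _ _).trans h2.le
    refine Zs_nonneg _ (e0_pos h) _ _ le_rfl h3 ?_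
    push_cast
    nlinarith

theorem I_cont (h : P.Star) : Continuous P.I :=
  continuous_iff_continuousAt.2 fun y => (I_deriv h y).continuousAt

theorem J_cont (h : P.Star) : Continuous P.J :=
  continuous_iff_continuousAt.2 fun y => (J_deriv h y).continuousAt

theorem K_cont (h : P.Star) : Continuous P.K :=
  continuous_iff_continuousAt.2 fun y => (K_deriv h y).continuousAt

theorem I_mono (h : P.Star) : Monotone P.I := by
  refine monotone_of_deriv_nonneg (fun y => (I_deriv h y).differentiableAt) fun y => ?_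
  rw [(I_deriv h y).deriv]
  exact D_nonneg h y

/-- `D*' = 1 - I*(· - e0)` on `(0, ρ)` -/
theorem D_deriv (h : P.Star) {y : ℝ} (hy : 0 < y) (hy2 : y < P.ρ) :
    HasDerivAt P.D (1 - P.I (y - P.e0)) y := by
  have h1 : P.D =ᶠ[𝓝 y] Zs P.e0 15 1 := by
    filter_upwards [Iio_mem_nhds hy2] with x hx
    unfold D
    rw [min_eq_left (le_of_lt hx)]
  have h2 : 1 - P.I (y - P.e0) = Zs P.e0 15 0 y := by
    rcases le_or_gt P.e0 y with h3 | h3
    · rw [I_eq h (by linarith) (by linarith [e0_pos h]), sub_add_cancel]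
      ring
    · rw [I_zero h (by linarith)]
      have h4 := Zs_shift15 h 0 (y := y - P.e0) (by linarith [e0_pos h])
      rw [sub_add_cancel] at h4
      rw [h4, Zs_neg _ _ _ (e0_pos h) (by norm_num) (by linarith)]
      simp
  rw [h2]
  exact (Zs_hasDerivAt0 _ _ hy).congr_of_eventuallyEq h1

theorem D_mono (h : P.Star) : Monotone P.D := by
  have h1 : MonotoneOn P.D (Icc 0 P.ρ) := by
    refine monotoneOn_of_deriv_nonneg (convex_Icc _ _) (D_cont h).continuousOn ?_ ?_
    · intro y hy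
      rw [interior_Icc] at hy
      exact (D_deriv h hy.1 hy.2).differentiableAt.differentiableWithinAt
    · intro y hy
      rw [interior_Icc] at hy
      rw [(D_deriv h hy.1 hy.2).deriv]
      have h2 : P.I (y - P.e0) ≤ P.I (P.ρ - P.e0) := I_mono h (by linarith [hy.2])
      rw [I_rho h] at h2
      linarith
  have h3 : ∀ y, P.D y = P.D (max 0 (min y P.ρ)) := by
    intro y
    have h4 := ρ_pos h
    rcases le_or_gt y 0 with hy | hy
    · rw [min_eq_left (hy.trans h4.le), max_eq_left hy, D_zero h hy, D_zero h le_rfl]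
    · rw [max_eq_right (le_min hy.le h4.le)]
      rcases le_or_gt y P.ρ with hy2 | hy2
      · rw [min_eq_left hy2]
      · rw [min_eq_right hy2.le, D_const h hy2.le]
  intro a b hab
  rw [h3 a, h3 b]
  have h4 := ρ_pos h
  refine h1 ⟨le_max_left _ _, max_le h4.le (min_le_right _ _)⟩
    ⟨le_max_left _ _, max_le h4.le (min_le_right _ _)⟩ ?_
  exact max_le_max le_rfl (min_le_min hab le_rfl)

theorem I_Y (h : P.Star) : P.I P.Y = 1 + Real.cosh P.s := by
  have h1 := I_eq h (ρ_pos h).le le_rfl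
  have h2 : P.I P.Y = Zs P.e0 15 2 P.ρ + Zs P.e0 15 1 P.ρ * P.u := by
    unfold I Y
    rw [min_eq_right (by linarith [h.data.hu]), add_sub_cancel_left, max_eq_left h.data.hu]
  have h3 : P.I P.ρ = Zs P.e0 15 2 P.ρ := by
    unfold I
    rw [min_self, sub_self, max_self, mul_zero, add_zero]
  rw [h2, ← h3, h1, h.data.E2]
  ring

theorem J_Y (h : P.Star) : P.J P.Y + P.sg = P.L := by
  have h1 := Zs_shift15 h 0 (y := P.ρ) le_rfl
  have h2 := Zs_shift15 h 1 (y := P.ρ) le_rfl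
  have h3 : P.J P.Y = Zs P.e0 15 3 P.ρ + Zs P.e0 15 2 P.ρ * P.u + Zs P.e0 15 1 P.ρ * P.u ^ 2 / 2 := by
    unfold J Y
    rw [min_eq_right (by linarith [h.data.hu]), add_sub_cancel_left, max_eq_left h.data.hu]
  have h4 : max (P.ρ + P.e0) 0 = P.ρ + P.e0 := max_eq_left (by linarith [ρ_pos h, e0_pos h])
  rw [h4] at h1 h2
  norm_num [Nat.factorial] at h1 h2
  unfold sg L
  rw [h3, h.data.E3, h1, h2]
  ring

/-- the fixed point equation -/
theorem D_fix (h : P.Star) {r : ℝ} (hr : 0 ≤ r) : P.D r = ∫ v in (0:ℝ)..r, max (1 - P.I (v - P.e0)) 0 := by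
  have hc : Continuous fun v => max (1 - P.I (v - P.e0)) 0 :=
    (continuous_const.sub ((I_cont h).comp (continuous_id.sub continuous_const))).max continuous_const
  have h1 : ∀ r, 0 ≤ r → r ≤ P.ρ → P.D r = ∫ v in (0:ℝ)..r, max (1 - P.I (v - P.e0)) 0 := by
    intro r hr hr2
    have h2 := intervalIntegral.integral_eq_sub_of_hasDerivAt_of_le hr (D_cont h).continuousOn
      (f' := fun v => max (1 - P.I (v - P.e0)) 0) (fun v hv => ?_) (hc.intervalIntegrable _ _)
    · rw [h2, D_zero h le_rfl, sub_zero]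
    · have h3 := D_deriv h hv.1 (hv.2.trans_le hr2)
      have h4 : 0 ≤ 1 - P.I (v - P.e0) := by
        have h5 : P.I (v - P.e0) ≤ P.I (P.ρ - P.e0) := I_mono h (by linarith [hv.2])
        rw [I_rho h] at h5
        linarith
      simp only [max_eq_left h4]
      exact h3
  rcases le_or_gt r P.ρ with hr2 | hr2
  · exact h1 r hr hr2
  · rw [D_const h hr2.le, h1 P.ρ (ρ_pos h).le le_rfl,
      ← intervalIntegral.integral_add_adjacent_intervals (hc.intervalIntegrable 0 P.ρ)
        (hc.intervalIntegrable P.ρ r)]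
    have h3 : ∫ v in P.ρ..r, max (1 - P.I (v - P.e0)) 0 = ∫ _v in P.ρ..r, (0 : ℝ) := by
      refine intervalIntegral.integral_congr fun v hv => ?_
      rw [uIcc_of_le hr2.le] at hv
      have h5 : P.I (P.ρ - P.e0) ≤ P.I (v - P.e0) := I_mono h (by linarith [hv.1])
      rw [I_rho h] at h5
      exact max_eq_right (by linarith)
    rw [h3]
    simp

end Pool.Agent.CDk.Par
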