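import Pool.Agent.CDk.Defs
import Pool.Agent.CDk.FNa

open MeasureTheory Set Filter Topology

namespace Pool.Agent.CDk.Par
variable {P : Par}

/-- `m = - mb'` on `[0, Y]` -/
noncomputable def m (P : Par) (v : ℝ) : ℝ :=
  (P.Y - v) - ∫ y in (min v (P.ρ - P.e0))..(P.ρ - P.e0), P.mb (y + P.e0)

theorem Zs_zero_pt (h : P.Star) (j : ℕ) (hj : 1 ≤ j) : Zs P.e0 15 j 0 = 0 :=
  Zs_neg _ _ _ (e0_pos h) hj le_rfl

theorem Zs0_small (h : P.Star) {t : ℝ} (ht : t ≤ P.e0) : Zs P.e0 15 0 t = 1 := by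
  have h1 := ρ_pos h; have h2 := h.ρ_lo; have h3 := h.e_hi
  have h4 := Zs_shift15 h 0 (y := t - P.e0) (by linarith only [ht, h2])
  rw [sub_add_cancel] at h4
  rw [h4, Zs_neg _ _ _ (e0_pos h) (by norm_num) (by linarith only [ht])]
  simp

theorem Zs1_small (h : P.Star) {t : ℝ} (h0 : 0 ≤ t) (ht : t ≤ P.e0) : Zs P.e0 15 1 t = t := by
  have h1 := ρ_pos h; have h2 := h.ρ_lo; have h3 := h.e_hi
  have h4 := Zs_shift15 h 1 (y := t - P.e0) (by linarith only [ht, h2])
  rw [sub_add_cancel, max_eq_left h0] at h4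
  rw [h4, Zs_neg _ _ _ (e0_pos h) (by norm_num) (by linarith only [ht])]
  simp

theorem Zs2_small (h : P.Star) {t : ℝ} (h0 : 0 ≤ t) (ht : t ≤ P.e0) : Zs P.e0 15 2 t = t ^ 2 / 2 := by
  have h1 := ρ_pos h; have h2 := h.ρ_lo; have h3 := h.e_hi
  have h4 := Zs_shift15 h 2 (y := t - P.e0) (by linarith only [ht, h2])
  rw [sub_add_cancel, max_eq_left h0] at h4
  rw [h4, Zs_neg _ _ _ (e0_pos h) (by norm_num) (by linarith only [ht])]
  simp [Nat.factorial]

theorem mb_in {v : ℝ} (hv : v ≤ P.ρ) : P.mb v =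
    P.u^2/2 * Zs P.e0 15 0 (P.ρ - v) + P.u * Zs P.e0 15 1 (P.ρ - v) + Zs P.e0 15 2 (P.ρ - v) := by
  unfold mb
  rw [if_pos hv]

theorem mb_cont (h : P.Star) : Continuous P.mb := by
  unfold mb
  have h0 := Zs_cont P.e0 15 0
  have h1 := Zs_cont P.e0 15 1
  have h2 := Zs_cont P.e0 15 2
  refine Continuous.if_le (by fun_prop) (by fun_prop) continuous_id continuous_const ?_
  intro v hv
  rw [hv, sub_self, Zs0_small h (e0_pos h).le, Zs_zero_pt h 1 le_rfl, Zs_zero_pt h 2 (by norm_num)]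
  unfold Y
  rw [add_sub_cancel_left, max_eq_left h.data.hu]
  ring

theorem mb_out (h : P.Star) {v : ℝ} (hv : P.ρ - P.e0 ≤ v) : P.mb v = (max (P.Y - v) 0)^2 / 2 := by
  rcases le_or_gt v P.ρ with h1 | h1
  · have hu := h.data.hu
    rw [mb_in h1, Zs0_small h (by linarith only [hv]), Zs1_small h (by linarith) (by linarith),
      Zs2_small h (by linarith) (by linarith)]
    unfold Y
    rw [max_eq_left (by linarith)]
    ring
  · unfold mb
    rw [if_neg (not_le.2 h1)]

/-- `Zs 0` has the derivative `- Zs 1 (· - e0)` -/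
theorem Zs0_hasDerivAt (h : P.Star) {t : ℝ} (ht : t < P.ρ + P.e0) :
    HasDerivAt (Zs P.e0 15 0) (-(Zs P.e0 15 1 (t - P.e0))) t := by
  have h1 : Zs P.e0 15 0 =ᶠ[𝓝 t] fun t => 1 - Zs P.e0 15 2 (t - P.e0) := by
    filter_upwards [Iio_mem_nhds ht] with x hx
    have h4 := Zs_shift15 h 0 (y := x - P.e0) (by linarith [hx.out])
    rw [sub_add_cancel] at h4
    rw [h4]
    simp
  refine HasDerivAt.congr_of_eventuallyEq ?_ h1
  exact ((Zs_hasDerivAt P.e0 15 1 le_rfl (t - P.e0)).comp_sub_const t P.e0).const_sub 1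

/-- closed form of `m` for `v < ρ` -/
noncomputable def mm (P : Par) (v : ℝ) : ℝ :=
  P.u * Zs P.e0 15 0 (P.ρ - v) + Zs P.e0 15 1 (P.ρ - v) -
    P.u ^ 2 / 2 * Zs P.e0 15 1 (P.ρ - v - P.e0)

theorem mb_deriv1 (h : P.Star) {v : ℝ} (h0 : 0 ≤ v) (h1 : v < P.ρ) :
    HasDerivAt P.mb (-(P.mm v)) v := by
  have h2 : P.mb =ᶠ[𝓝 v] fun v => P.u^2/2 * Zs P.e0 15 0 (P.ρ - v) +
      P.u * Zs P.e0 15 1 (P.ρ - v) + Zs P.e0 15 2 (P.ρ - v) := by
    filter_upwards [Iio_mem_nhds h1] with x hx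
    exact mb_in (le_of_lt hx)
  refine HasDerivAt.congr_of_eventuallyEq ?_ h2
  have he := e0_pos h
  have h3 := (Zs0_hasDerivAt h (t := P.ρ - v) (by linarith)).comp_const_sub P.ρ v
  have h4 := (Zs_hasDerivAt0 P.e0 15 (x := P.ρ - v) (by linarith)).comp_const_sub P.ρ v
  have h5 := (Zs_hasDerivAt P.e0 15 1 le_rfl (P.ρ - v)).comp_const_sub P.ρ v
  have h6 := ((h3.const_mul (P.u ^ 2 / 2)).add (h4.const_mul P.u)).add h5
  refine h6.congr_deriv ?_
  unfold mm
  ring

theorem mb_deriv2 (h : P.Star) {v : ℝ} (h1 : P.ρ - P.e0 < v) :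
    HasDerivAt P.mb (-(max (P.Y - v) 0)) v := by
  have h2 : P.mb =ᶠ[𝓝 v] fun v => (max (P.Y - v) 0) ^ 2 / 2 := by
    filter_upwards [Ioi_mem_nhds h1] with x hx
    exact mb_out h (le_of_lt hx)
  refine HasDerivAt.congr_of_eventuallyEq ?_ h2
  have h3 := (tp_hasDerivAt 1 le_rfl (P.Y - v)).comp_const_sub P.Y v
  simpa [Nat.factorial] using h3

/-- `∫_v^(ρ-e0) mb(y+e0) dy` -/
theorem mb_int_tail (h : P.Star) {v : ℝ} (h0 : 0 ≤ v) (h1 : v ≤ P.ρ - P.e0) :
    ∫ y in v..(P.ρ - P.e0), P.mb (y + P.e0) =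
      P.u^2/2 * Zs P.e0 15 1 (P.ρ - P.e0 - v) + P.u * Zs P.e0 15 2 (P.ρ - P.e0 - v) +
        Zs P.e0 15 3 (P.ρ - P.e0 - v) := by
  have hc0 := Zs_cont P.e0 15 0
  have hc1 := Zs_cont P.e0 15 1
  have hc2 := Zs_cont P.e0 15 2
  have hc3 := Zs_cont P.e0 15 3
  have hm := mb_cont h
  have h2 := intervalIntegral.integral_eq_sub_of_hasDerivAt_of_le h1
    (f := fun y => -(P.u^2/2 * Zs P.e0 15 1 (P.ρ - P.e0 - y) + P.u * Zs P.e0 15 2 (P.ρ - P.e0 - y) +
        Zs P.e0 15 3 (P.ρ - P.e0 - y))) (f' := fun y => P.mb (y + P.e0))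
    (by fun_prop) (fun y hy => ?_) ((hm.comp (continuous_id.add continuous_const)).intervalIntegrable _ _)
  · rw [h2, sub_self, Zs_zero_pt h 1 le_rfl, Zs_zero_pt h 2 (by norm_num), Zs_zero_pt h 3 (by norm_num)]
    ring
  · have h3 := (Zs_hasDerivAt0 P.e0 15 (x := P.ρ - P.e0 - y) (by linarith [hy.2])).comp_const_sub
      (P.ρ - P.e0) y
    have h4 := (Zs_hasDerivAt P.e0 15 1 le_rfl (P.ρ - P.e0 - y)).comp_const_sub (P.ρ - P.e0) y
    have h5 := (Zs_hasDerivAt P.e0 15 2 (by norm_num) (P.ρ - P.e0 - y)).comp_const_sub (P.ρ - P.e0) y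
    have h6 := (((h3.const_mul (P.u ^ 2 / 2)).add (h4.const_mul P.u)).add h5).neg
    have h7 : P.ρ - (y + P.e0) = P.ρ - P.e0 - y := by ring
    rw [mb_in (by linarith [hy.2]), h7]
    refine h6.congr_deriv ?_
    ring

theorem m_eq_mm (h : P.Star) {v : ℝ} (h0 : 0 ≤ v) (h1 : v ≤ P.ρ) : P.m v = P.mm v := by
  have he := e0_pos h
  unfold m
  rcases le_or_gt v (P.ρ - P.e0) with h2 | h2
  · rw [min_eq_left h2, mb_int_tail h h0 h2]
    have h3 := Zs_shift15 h 0 (y := P.ρ - v - P.e0) (by linarith)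
    have h4 := Zs_shift15 h 1 (y := P.ρ - v - P.e0) (by linarith)
    rw [sub_add_cancel, max_eq_left (by linarith)] at h3 h4
    unfold mm Y
    rw [h3, h4]
    have h5 : P.ρ - P.e0 - v = P.ρ - v - P.e0 := by ring
    rw [h5]
    simp
    ring
  · rw [min_eq_right h2.le, intervalIntegral.integral_same]
    unfold mm Y
    rw [Zs0_small h (by linarith), Zs1_small h (by linarith) (by linarith),
      Zs_neg _ _ _ he le_rfl (by linarith)]
    ring

theorem m_out (P : Par) {v : ℝ} (h1 : P.ρ - P.e0 ≤ v) : P.m v = P.Y - v := by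
  unfold m
  rw [min_eq_right h1, intervalIntegral.integral_same, sub_zero]

theorem mb_deriv (h : P.Star) {v : ℝ} (h0 : 0 ≤ v) (h1 : v ≤ P.Y) : HasDerivAt P.mb (-(P.m v)) v := by
  rcases lt_or_ge v P.ρ with h2 | h2
  · rw [m_eq_mm h h0 h2.le]
    exact mb_deriv1 h h0 h2
  · have he := e0_pos h
    have h3 := mb_deriv2 h (v := v) (by linarith)
    rw [max_eq_left (by linarith)] at h3
    rw [m_out P (by linarith)]
    exact h3

theorem mb_formula (h : P.Star) {v : ℝ} (h0 : 0 ≤ v) (h1 : v ≤ P.ρ - P.e0) :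
    P.mb v = (P.Y - v)^2/2 - ∫ y in v..(P.ρ - P.e0), (y - v) * P.mb (y + P.e0) := by
  have he := e0_pos h
  have hu := h.data.hu
  have hf : Continuous fun y => P.mb (y + P.e0) := (mb_cont h).comp (continuous_id.add continuous_const)
  have hyf : Continuous fun y => y * P.mb (y + P.e0) := continuous_id.mul hf
  set c : ℝ := P.ρ - P.e0 with hc
  -- auxiliary function
  set G : ℝ → ℝ := fun x => P.mb x - (P.Y - x)^2/2 +
    ((∫ y in x..c, y * P.mb (y + P.e0)) - x * ∫ y in x..c, P.mb (y + P.e0)) with hG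
  have hGd : ∀ x, 0 ≤ x → x ≤ c → HasDerivAt G 0 x := by
    intro x hx0 hx1
    have d1 := mb_deriv h hx0 (by unfold Y; linarith only [he, hu, hx1])
    have d2 : HasDerivAt (fun x => ∫ y in x..c, y * P.mb (y + P.e0)) (-(x * P.mb (x + P.e0))) x :=
      intervalIntegral.integral_hasDerivAt_left (hyf.intervalIntegrable _ _)
        (hyf.stronglyMeasurableAtFilter _ _) hyf.continuousAt
    have d3 : HasDerivAt (fun x => ∫ y in x..c, P.mb (y + P.e0)) (-(P.mb (x + P.e0))) x :=
      intervalIntegral.integral_hasDerivAt_left (hf.intervalIntegrable _ _)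
        (hf.stronglyMeasurableAtFilter _ _) hf.continuousAt
    have d4 : HasDerivAt (fun x => (P.Y - x)^2/2) (-(P.Y - x)) x := by
      have := (((hasDerivAt_id x).const_sub P.Y).pow 2).div_const 2
      refine this.congr_deriv ?_
      simp
      ring
    have d5 := (d1.sub d4).add (d2.sub ((hasDerivAt_id x).mul d3))
    refine d5.congr_deriv ?_
    unfold m
    rw [← hc, min_eq_left hx1]
    simp only [id]
    ring
  have hconst : G v = G c := by
    have hcont : ContinuousOn G (Icc v c) := fun x hx =>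
      (hGd x (h0.trans hx.1) hx.2).continuousAt.continuousWithinAt
    have := constant_of_has_deriv_right_zero hcont
      (fun x hx => (hGd x (h0.trans hx.1) hx.2.le).hasDerivWithinAt)
    exact (this c ⟨h1, le_rfl⟩).symm
  have hGc : G c = 0 := by
    rw [hG]
    dsimp only
    rw [intervalIntegral.integral_same, intervalIntegral.integral_same, mb_out h (le_of_eq hc.symm),
      max_eq_left (by unfold Y; linarith)]
    ring
  have hGv : (∫ y in v..c, (y - v) * P.mb (y + P.e0)) =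
      (∫ y in v..c, y * P.mb (y + P.e0)) - v * ∫ y in v..c, P.mb (y + P.e0) := by
    have hvf : Continuous fun y => v * P.mb (y + P.e0) := continuous_const.mul hf
    rw [← intervalIntegral.integral_const_mul, ← intervalIntegral.integral_sub
      (hyf.intervalIntegrable _ _) (hvf.intervalIntegrable _ _)]
    refine intervalIntegral.integral_congr fun y _ => ?_
    ring
  rw [hGv]
  have h5 : G v = 0 := hconst.trans hGc
  rw [hG] at h5
  dsimp only at h5
  linarith only [h5]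

theorem Zs0_eq (h : P.Star) {t : ℝ} (h1 : t ≤ P.ρ) : Zs P.e0 15 0 t = 1 - P.I (t - P.e0) := by
  rcases le_or_gt P.e0 t with h2 | h2
  · rw [I_eq h (by linarith) (by linarith [e0_pos h]), sub_add_cancel]
    ring
  · rw [Zs0_small h h2.le, I_zero h (by linarith), sub_zero]

theorem Zs0_nonneg (h : P.Star) {t : ℝ} (h1 : t ≤ P.ρ) : 0 ≤ Zs P.e0 15 0 t := by
  rw [Zs0_eq h h1]
  have h2 : P.I (t - P.e0) ≤ P.I (P.ρ - P.e0) := I_mono h (by linarith)
  rw [I_rho h] at h2
  linarith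

theorem Zs1_eq {t : ℝ} (h1 : t ≤ P.ρ) : Zs P.e0 15 1 t = P.D t := by
  unfold D
  rw [min_eq_left h1]

theorem Zs2_eq {t : ℝ} (h1 : t ≤ P.ρ) : Zs P.e0 15 2 t = P.I t := by
  unfold I
  rw [min_eq_left h1, max_eq_right (by linarith), mul_zero, add_zero]

theorem I_nonneg (h : P.Star) (y : ℝ) : 0 ≤ P.I y := by
  rcases le_or_gt y 0 with hy | hy
  · rw [I_zero h hy]
  · have := I_mono h hy.le
    rwa [I_zero h le_rfl] at this

theorem mb_nonneg (h : P.Star) {v : ℝ} (h0 : 0 ≤ v) : 0 ≤ P.mb v := by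
  rcases le_or_gt v P.ρ with h1 | h1
  · rw [mb_in h1]
    have h2 := Zs0_nonneg h (t := P.ρ - v) (by linarith)
    have h3 : 0 ≤ Zs P.e0 15 1 (P.ρ - v) := by
      rw [Zs1_eq (by linarith)]
      exact D_nonneg h _
    have h4 : 0 ≤ Zs P.e0 15 2 (P.ρ - v) := by
      rw [Zs2_eq (by linarith)]
      exact I_nonneg h _
    have hu := h.data.hu
    positivity
  · rw [mb_out h (by linarith [e0_pos h])]
    positivity

theorem mm_nonneg (h : P.Star) {v : ℝ} (h0 : 0 ≤ v) (h1 : v ≤ P.ρ) : 0 ≤ P.mm v := by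
  unfold mm
  have h2 := Zs0_nonneg h (t := P.ρ - v) (by linarith)
  have he := e0_pos h
  rw [Zs1_eq (by linarith : P.ρ - v ≤ P.ρ), Zs1_eq (by linarith : P.ρ - v - P.e0 ≤ P.ρ)]
  have h3 : P.D (P.ρ - v - P.e0) ≤ P.D (P.ρ - v) := D_mono h (by linarith)
  have h4 := D_nonneg h (P.ρ - v)
  have h5 := D_nonneg h (P.ρ - v - P.e0)
  have hu := h.data.hu
  have hu2 := h.u_hi
  have h6 : P.u ^ 2 / 2 ≤ 1 := by nlinarith only [hu2, hu]
  have h7 : P.u ^ 2 / 2 * P.D (P.ρ - v - P.e0) ≤ 1 * P.D (P.ρ - v) :=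
    mul_le_mul h6 h3 h5 (by norm_num)
  have h8 : 0 ≤ P.u * Zs P.e0 15 0 (P.ρ - v) := mul_nonneg hu h2
  linarith only [h7, h8]

theorem m_nonneg (h : P.Star) {v : ℝ} (h0 : 0 ≤ v) (h1 : v ≤ P.Y) : 0 ≤ P.m v := by
  rcases le_or_gt v P.ρ with h2 | h2
  · rw [m_eq_mm h h0 h2]
    exact mm_nonneg h h0 h2
  · rw [m_out P (by linarith [e0_pos h])]
    linarith

theorem Y_pos' (h : P.Star) : 0 < P.Y := by
  have := (Y_pos h).1
  linarith

theorem mb_anti (h : P.Star) : AntitoneOn P.mb (Ici 0) := by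
  have hY := Y_pos' h
  have h1 : AntitoneOn P.mb (Icc 0 P.Y) := by
    refine antitoneOn_of_deriv_nonpos (convex_Icc _ _) (mb_cont h).continuousOn ?_ ?_
    · intro y hy
      rw [interior_Icc] at hy
      exact (mb_deriv h hy.1.le hy.2.le).differentiableAt.differentiableWithinAt
    · intro y hy
      rw [interior_Icc] at hy
      rw [(mb_deriv h hy.1.le hy.2.le).deriv]
      linarith [m_nonneg h hy.1.le hy.2.le]
  have hz : ∀ y, P.Y ≤ y → P.mb y = 0 := by
    intro y hy
    have hu := h.data.hu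
    have he := e0_pos h
    have h2 : P.ρ ≤ P.Y := by unfold Y; linarith
    rw [mb_out h (by linarith), max_eq_right (by linarith)]
    simp
  intro a ha b hb hab
  rcases le_or_gt b P.Y with hb2 | hb2
  · exact h1 ⟨ha, hab.trans hb2⟩ ⟨hb, hb2⟩ hab
  · rw [hz b hb2.le]
    exact mb_nonneg h ha

/-- from the matching equations -/
theorem mb_int (h : P.Star) : P.sg + ∫ v in (0:ℝ)..P.ρ, P.mb v = P.L := by
  have hc0 := Zs_cont P.e0 15 0
  have hc1 := Zs_cont P.e0 15 1
  have hc2 := Zs_cont P.e0 15 2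
  have hc3 := Zs_cont P.e0 15 3
  have hm := mb_cont h
  have h2 := intervalIntegral.integral_eq_sub_of_hasDerivAt_of_le (ρ_pos h).le
    (f := fun y => -(P.u^2/2 * Zs P.e0 15 1 (P.ρ - y) + P.u * Zs P.e0 15 2 (P.ρ - y) +
        Zs P.e0 15 3 (P.ρ - y))) (f' := P.mb)
    (by fun_prop) (fun y hy => ?_) (hm.intervalIntegrable _ _)
  · rw [h2, sub_self, Zs_zero_pt h 1 le_rfl, Zs_zero_pt h 2 (by norm_num), Zs_zero_pt h 3 (by norm_num),
      sub_zero]
    have h3 : P.J P.Y = Zs P.e0 15 3 P.ρ + Zs P.e0 15 2 P.ρ * P.u + Zs P.e0 15 1 P.ρ * P.u ^ 2 / 2 := by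
      unfold J Y
      rw [min_eq_right (by linarith only [h.data.hu, h]), add_sub_cancel_left, max_eq_left h.data.hu]
    rw [← J_Y h, h3]
    ring
  · have h3 := (Zs_hasDerivAt0 P.e0 15 (x := P.ρ - y) (by linarith [hy.2])).comp_const_sub P.ρ y
    have h4 := (Zs_hasDerivAt P.e0 15 1 le_rfl (P.ρ - y)).comp_const_sub P.ρ y
    have h5 := (Zs_hasDerivAt P.e0 15 2 (by norm_num) (P.ρ - y)).comp_const_sub P.ρ y
    have h6 := (((h3.const_mul (P.u ^ 2 / 2)).add (h4.const_mul P.u)).add h5).neg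
    rw [mb_in hy.2.le]
    refine h6.congr_deriv ?_
    ring

/-! ### convolution of truncated powers -/

theorem conv_poly (p : ℕ) : ∀ (r : ℕ), 1 ≤ r → ∀ (S β : ℝ), 0 ≤ S → 0 ≤ β →
    ∫ y in (0:ℝ)..S, (S - y) ^ p / (p.factorial : ℝ) * ((max (y - β) 0) ^ r / (r.factorial : ℝ)) =
      (max (S - β) 0) ^ (p + r + 1) / ((p + r + 1).factorial : ℝ) := by
  induction p with
  | zero =>
    intro r hr S β hS hβ
    have h1 := intervalIntegral.integral_eq_sub_of_hasDerivAt (a := 0) (b := S)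
      (f := fun y => (max (y - β) 0) ^ (r + 1) / ((r + 1).factorial : ℝ))
      (f' := fun y => (max (y - β) 0) ^ r / (r.factorial : ℝ))
      (fun x _ => tp_hasDerivAt_shift β r hr x)
      ((by fun_prop : Continuous fun y : ℝ => (max (y - β) 0) ^ r / (r.factorial : ℝ)).intervalIntegrable _ _)
    simp only [pow_zero, Nat.factorial_zero, Nat.cast_one, div_one, one_mul, zero_add]
    rw [h1, zero_sub, max_eq_right (by linarith : -β ≤ 0), zero_pow (by omega)]
    simp
  | succ p ih =>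
    intro r hr S β hS hβ
    have hu : ∀ x ∈ uIcc 0 S, HasDerivAt (fun y : ℝ => (S - y) ^ (p + 1) / ((p + 1).factorial : ℝ))
        (-((S - x) ^ p / (p.factorial : ℝ))) x := by
      intro x _
      have h2 := (((hasDerivAt_id x).const_sub S).pow (p + 1)).div_const ((p + 1).factorial : ℝ)
      refine h2.congr_deriv ?_
      rw [Nat.factorial_succ]
      push_cast
      have : (p.factorial : ℝ) ≠ 0 := by positivity
      have : (p : ℝ) + 1 ≠ 0 := by positivity
      simp only [id]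
      field_simp
    have hv : ∀ x ∈ uIcc 0 S, HasDerivAt (fun y : ℝ => (max (y - β) 0) ^ (r + 1) / ((r + 1).factorial : ℝ))
        ((max (x - β) 0) ^ r / (r.factorial : ℝ)) x := fun x _ => tp_hasDerivAt_shift β r hr x
    have h3 := intervalIntegral.integral_mul_deriv_eq_deriv_mul hu hv
      ((by fun_prop : Continuous fun x : ℝ => -((S - x) ^ p / (p.factorial : ℝ))).intervalIntegrable _ _)
      ((by fun_prop : Continuous fun y : ℝ => (max (y - β) 0) ^ r / (r.factorial : ℝ)).intervalIntegrable _ _)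
    rw [h3, sub_self, zero_sub, max_eq_right (by linarith only [hβ] : -β ≤ 0), zero_pow (by omega : p + 1 ≠ 0),
      zero_pow (by omega : r + 1 ≠ 0), zero_div, zero_mul, zero_div, mul_zero, sub_self, zero_sub,
      ← intervalIntegral.integral_neg]
    have h4 := ih (r + 1) (by omega) S β hS hβ
    have h5 : p + 1 + r + 1 = p + (r + 1) + 1 := by ring
    rw [h5, ← h4]
    refine intervalIntegral.integral_congr fun y _ => ?_
    simp

theorem conv_tp (p r : ℕ) (hr : 1 ≤ r) (T α β : ℝ) (hT : 0 ≤ T) (hα : 0 ≤ α) (hβ : 0 ≤ β)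
    (hpα : 1 ≤ p ∨ α = 0) :
    ∫ y in (0:ℝ)..T, (max (T - y - α) 0) ^ p / (p.factorial : ℝ) *
      ((max (y - β) 0) ^ r / (r.factorial : ℝ)) =
      (max (T - (α + β)) 0) ^ (p + r + 1) / ((p + r + 1).factorial : ℝ) := by
  have hcont : Continuous fun y : ℝ => (max (T - y - α) 0) ^ p / (p.factorial : ℝ) *
      ((max (y - β) 0) ^ r / (r.factorial : ℝ)) := by fun_prop
  rcases hpα with hp | h0
  · rcases le_or_gt α T with h1 | h1
    · have h2 := conv_poly p r hr (T - α) β (by linarith) hβ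
      have h3 : T - (α + β) = T - α - β := by ring
      rw [h3, ← h2, ← intervalIntegral.integral_add_adjacent_intervals
        (hcont.intervalIntegrable 0 (T - α)) (hcont.intervalIntegrable (T - α) T)]
      have h4 : ∫ y in (T - α)..T, (max (T - y - α) 0) ^ p / (p.factorial : ℝ) *
          ((max (y - β) 0) ^ r / (r.factorial : ℝ)) = ∫ _y in (T - α)..T, (0 : ℝ) := by
        refine intervalIntegral.integral_congr fun y hy => ?_
        rw [uIcc_of_le (by linarith only [hα])] at hy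
        rw [max_eq_right (by linarith [hy.1]), zero_pow (by omega), zero_div, zero_mul]
      rw [h4, intervalIntegral.integral_zero, add_zero]
      refine intervalIntegral.integral_congr fun y hy => ?_
      rw [uIcc_of_le (by linarith only [h1])] at hy
      have h5 : T - y - α = T - α - y := by ring
      rw [h5, max_eq_left (by linarith only [hy.2, hy])]
    · have h4 : ∫ y in (0 : ℝ)..T, (max (T - y - α) 0) ^ p / (p.factorial : ℝ) *
          ((max (y - β) 0) ^ r / (r.factorial : ℝ)) = ∫ _y in (0 : ℝ)..T, (0 : ℝ) := by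
        refine intervalIntegral.integral_congr fun y hy => ?_
        rw [uIcc_of_le hT] at hy
        rw [max_eq_right (by linarith [hy.1]), zero_pow (by omega), zero_div, zero_mul]
      rw [h4, intervalIntegral.integral_zero, max_eq_right (by linarith only [hβ, h1]), zero_pow (by omega), zero_div]
  · subst h0
    have h2 := conv_poly p r hr T β hT hβ
    rw [zero_add, ← h2]
    refine intervalIntegral.integral_congr fun y hy => ?_
    rw [uIcc_of_le hT] at hy
    rw [sub_zero, max_eq_left (by linarith only [hy.2, hy])]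

theorem sum_conv (N : ℕ) (g : ℕ → ℝ) (hg : ∀ n, N ≤ n → g n = 0) :
    ∑ a ∈ Finset.range N, ∑ b ∈ Finset.range N, g (a + b) =
      ∑ n ∈ Finset.range N, ((n : ℝ) + 1) * g n := by
  have h1 : ∀ a ∈ Finset.range N, ∑ b ∈ Finset.range N, g (a + b) =
      ∑ b ∈ Finset.range (N - a), g (a + b) := by
    intro a _
    symm
    refine Finset.sum_subset (Finset.range_subset_range.2 (by omega)) fun b _ hb => ?_
    rw [Finset.mem_range] at hb
    exact hg _ (by omega)
  rw [Finset.sum_congr rfl h1, ← Finset.sum_range_diag_flip N fun a b => g (a + b)]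
  refine Finset.sum_congr rfl fun n _ => ?_
  have h2 : ∀ k ∈ Finset.range (n + 1), g (k + (n - k)) = g n := by
    intro k hk
    rw [Finset.mem_range] at hk
    congr 1
    omega
  rw [Finset.sum_congr rfl h2, Finset.sum_const, Finset.card_range, nsmul_eq_mul]
  push_cast
  ring

theorem conv_Zs (e : ℝ) (he : 0 < e) (j : ℕ) (T : ℝ) (hT : 0 ≤ T) (hT2 : T ≤ 14 * e) :
    ∫ y in (0:ℝ)..T, Zs e 15 j (T - y) * Zs e 15 1 y = Cs e 15 (j + 2) T := by
  set f : ℕ → ℝ → ℝ := fun a y => (-1 : ℝ) ^ a * ((max (T - y - a * e) 0) ^ (2 * a + j) /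
    ((2 * a + j).factorial : ℝ)) with hf
  set k : ℕ → ℝ → ℝ := fun b y => (-1 : ℝ) ^ b * ((max (y - b * e) 0) ^ (2 * b + 1) /
    ((2 * b + 1).factorial : ℝ)) with hk
  set g : ℕ → ℝ := fun n => (-1 : ℝ) ^ n * ((max (T - n * e) 0) ^ (2 * n + (j + 2)) /
    ((2 * n + (j + 2)).factorial : ℝ)) with hg
  have h1 : ∀ y, Zs e 15 j (T - y) * Zs e 15 1 y =
      ∑ a ∈ Finset.range 15, ∑ b ∈ Finset.range 15, f a y * k b y := by
    intro y
    rw [← Finset.sum_mul_sum]
    unfold Zs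
    congr 1
    · refine Finset.sum_congr rfl fun a _ => ?_
      rw [hf]; dsimp only; rw [mul_div_assoc]
    · refine Finset.sum_congr rfl fun a _ => ?_
      rw [hk]; dsimp only; rw [mul_div_assoc]
  have hfc : ∀ a, Continuous (f a) := fun a => by
    rw [hf]; dsimp only; fun_prop
  have hkc : ∀ b, Continuous (k b) := fun b => by
    rw [hk]; dsimp only; fun_prop
  simp only [h1]
  have hfk : ∀ a b, Continuous fun y => f a y * k b y := fun a b => (hfc a).mul (hkc b)
  rw [intervalIntegral.integral_finsetSum fun a _ =>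
    (continuous_finsetSum _ fun b _ => hfk a b).intervalIntegrable _ _]
  have h2 : ∀ a ∈ Finset.range 15, ∫ y in (0:ℝ)..T, ∑ b ∈ Finset.range 15, f a y * k b y =
      ∑ b ∈ Finset.range 15, g (a + b) := by
    intro a _
    rw [intervalIntegral.integral_finsetSum fun b _ => (hfk a b).intervalIntegrable _ _]
    refine Finset.sum_congr rfl fun b _ => ?_
    have h3 := conv_tp (2 * a + j) (2 * b + 1) (by omega) T (a * e) (b * e) hT (by positivity)
      (by positivity) (by
        rcases Nat.eq_zero_or_pos a with h | h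
        · right; rw [h]; simp
        · left; omega)
    have h4 : (fun y => f a y * k b y) = fun y => ((-1 : ℝ) ^ a * (-1 : ℝ) ^ b) *
        ((max (T - y - a * e) 0) ^ (2 * a + j) / ((2 * a + j).factorial : ℝ) *
          ((max (y - b * e) 0) ^ (2 * b + 1) / ((2 * b + 1).factorial : ℝ))) := by
      funext y
      rw [hf, hk]
      ring
    rw [h4, intervalIntegral.integral_const_mul, h3, hg]
    dsimp only
    have h5 : 2 * a + j + (2 * b + 1) + 1 = 2 * (a + b) + (j + 2) := by ring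
    have h6 : (a : ℝ) * e + b * e = ((a + b : ℕ) : ℝ) * e := by push_cast; ring
    rw [h5, h6, ← pow_add]
  rw [Finset.sum_congr rfl h2, sum_conv 15 g fun n hn => ?_]
  · unfold Cs
    refine Finset.sum_congr rfl fun n _ => ?_
    rw [hg]
    ring
  · rw [hg]
    dsimp only
    have h7 : T - n * e ≤ 0 := by
      have : (15 : ℝ) ≤ n := by exact_mod_cast hn
      nlinarith only [he, hT2, this]
    rw [max_eq_right h7, zero_pow (by omega)]
    simp

/-- stationarity (equation E4) -/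
theorem mb_stat (h : P.Star) : ∫ y in (0:ℝ)..(P.ρ - P.e0), P.mb (y + P.e0) * P.D y = 1 := by
  have he := e0_pos h
  have h1 := h.ρ_lo; have h2 := h.ρ_hi; have h3 := h.e_lo; have h4 := h.e_hi
  have hT : 0 ≤ P.ρ - P.e0 := by linarith only [h1, h2, h4]
  have hT2 : P.ρ - P.e0 ≤ 14 * P.e0 := by linarith only [h1, h2, h3]
  have c0 := conv_Zs P.e0 he 0 _ hT hT2
  have c1 := conv_Zs P.e0 he 1 _ hT hT2
  have c2 := conv_Zs P.e0 he 2 _ hT hT2
  have hc0 := Zs_cont P.e0 15 0
  have hc1 := Zs_cont P.e0 15 1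
  have hc2 := Zs_cont P.e0 15 2
  have hE := h.E4
  rw [← c0, ← c1, ← c2, ← intervalIntegral.integral_const_mul, ← intervalIntegral.integral_const_mul,
    ← intervalIntegral.integral_add ((by fun_prop : Continuous fun y : ℝ => P.u ^ 2 / 2 *
      (Zs P.e0 15 0 (P.ρ - P.e0 - y) * Zs P.e0 15 1 y)).intervalIntegrable _ _)
      ((by fun_prop : Continuous fun y : ℝ => P.u *
      (Zs P.e0 15 1 (P.ρ - P.e0 - y) * Zs P.e0 15 1 y)).intervalIntegrable _ _),
    ← intervalIntegral.integral_add ((by fun_prop : Continuous fun y : ℝ => P.u ^ 2 / 2 *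
      (Zs P.e0 15 0 (P.ρ - P.e0 - y) * Zs P.e0 15 1 y) + P.u *
      (Zs P.e0 15 1 (P.ρ - P.e0 - y) * Zs P.e0 15 1 y)).intervalIntegrable _ _)
      ((by fun_prop : Continuous fun y : ℝ =>
      (Zs P.e0 15 2 (P.ρ - P.e0 - y) * Zs P.e0 15 1 y)).intervalIntegrable _ _)] at hE
  rw [← hE]
  refine intervalIntegral.integral_congr fun y hy => ?_
  rw [uIcc_of_le hT] at hy
  have h7 : P.ρ - (y + P.e0) = P.ρ - P.e0 - y := by ring
  rw [mb_in (by linarith only [hy.2, hy]), h7, ← Zs1_eq (by linarith only [hy.2, h1, h2, h3, hy] : y ≤ P.ρ)]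
  ring

/-! ### triangle Fubini -/

theorem tri_fubini (f g : ℝ → ℝ) (hf : Continuous f) (hg : Continuous g) (c : ℝ) :
    ∫ v in (0:ℝ)..c, g v * (∫ y in v..c, (y - v) * f y) =
      ∫ y in (0:ℝ)..c, f y * ∫ v in (0:ℝ)..y, (y - v) * g v := by
  have hyf : Continuous fun y => y * f y := continuous_id.mul hf
  have hvg : Continuous fun y => y * g y := continuous_id.mul hg
  set F0 : ℝ → ℝ := fun v => ∫ y in v..c, f y with hF0
  set F1 : ℝ → ℝ := fun v => ∫ y in v..c, y * f y with hF1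
  set G0 : ℝ → ℝ := fun y => ∫ v in (0:ℝ)..y, g v with hG0
  set G1 : ℝ → ℝ := fun y => ∫ v in (0:ℝ)..y, v * g v with hG1
  have dF0 : ∀ x, HasDerivAt F0 (-(f x)) x := fun x =>
    intervalIntegral.integral_hasDerivAt_left (hf.intervalIntegrable _ _)
        (hf.stronglyMeasurableAtFilter _ _) hf.continuousAt
  have dF1 : ∀ x, HasDerivAt F1 (-(x * f x)) x := fun x =>
    intervalIntegral.integral_hasDerivAt_left (hyf.intervalIntegrable _ _)
        (hyf.stronglyMeasurableAtFilter _ _) hyf.continuousAt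
  have dG0 : ∀ x, HasDerivAt G0 (g x) x := fun x =>
    intervalIntegral.integral_hasDerivAt_right (hg.intervalIntegrable _ _)
        (hg.stronglyMeasurableAtFilter _ _) hg.continuousAt
  have dG1 : ∀ x, HasDerivAt G1 (x * g x) x := fun x =>
    intervalIntegral.integral_hasDerivAt_right (hvg.intervalIntegrable _ _)
        (hvg.stronglyMeasurableAtFilter _ _) hvg.continuousAt
  have cF0 : Continuous F0 := continuous_iff_continuousAt.2 fun x => (dF0 x).continuousAt
  have cF1 : Continuous F1 := continuous_iff_continuousAt.2 fun x => (dF1 x).continuousAt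
  have cG0 : Continuous G0 := continuous_iff_continuousAt.2 fun x => (dG0 x).continuousAt
  have cG1 : Continuous G1 := continuous_iff_continuousAt.2 fun x => (dG1 x).continuousAt
  have eF : ∀ v, (∫ y in v..c, (y - v) * f y) = F1 v - v * F0 v := by
    intro v
    have hvf : Continuous fun y => v * f y := continuous_const.mul hf
    rw [hF1, hF0]
    dsimp only
    rw [← intervalIntegral.integral_const_mul, ← intervalIntegral.integral_sub
      (hyf.intervalIntegrable _ _) (hvf.intervalIntegrable _ _)]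
    refine intervalIntegral.integral_congr fun y _ => ?_
    ring
  have eG : ∀ y, (∫ v in (0:ℝ)..y, (y - v) * g v) = y * G0 y - G1 y := by
    intro y
    have hyg : Continuous fun v => y * g v := continuous_const.mul hg
    rw [hG1, hG0]
    dsimp only
    rw [← intervalIntegral.integral_const_mul, ← intervalIntegral.integral_sub
      (hyg.intervalIntegrable _ _) (hvg.intervalIntegrable _ _)]
    refine intervalIntegral.integral_congr fun y _ => ?_
    ring
  simp only [eF, eG]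
  have hd : ∀ x ∈ uIcc 0 c, HasDerivAt (fun v => G0 v * (F1 v - v * F0 v) +
      (v * G0 v - G1 v) * F0 v) (g x * (F1 x - x * F0 x) - f x * (x * G0 x - G1 x)) x := by
    intro x _
    have h1 := (dG0 x).mul ((dF1 x).sub ((hasDerivAt_id x).mul (dF0 x)))
    have h2 := (((hasDerivAt_id x).mul (dG0 x)).sub (dG1 x)).mul (dF0 x)
    refine (h1.add h2).congr_deriv ?_
    simp only [id, Pi.mul_apply, Pi.sub_apply]
    ring
  have hc1 : Continuous fun v => g v * (F1 v - v * F0 v) := by fun_prop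
  have hc2 : Continuous fun y => f y * (y * G0 y - G1 y) := by fun_prop
  have h3 := intervalIntegral.integral_eq_sub_of_hasDerivAt hd ((hc1.sub hc2).intervalIntegrable _ _)
  rw [intervalIntegral.integral_sub (hc1.intervalIntegrable _ _) (hc2.intervalIntegrable _ _)] at h3
  have e1 : F0 c = 0 := intervalIntegral.integral_same
  have e2 : F1 c = 0 := intervalIntegral.integral_same
  have e3 : G0 0 = 0 := intervalIntegral.integral_same
  have e4 : G1 0 = 0 := intervalIntegral.integral_same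
  rw [e1, e2, e3, e4] at h3
  linarith only [h3]

/-- `ℓ` of the next state -/
theorem Uf_eq (h : P.Star) {e : ℝ} (he : 0 ≤ e) {i : ℝ → ℝ} (hi : Continuous i) :
    P.Uf e i = P.Nf e i - ∫ y in (0:ℝ)..(P.ρ - P.e0), P.mb (y + P.e0) * P.If e i y := by
  have he0 := e0_pos h
  have hu := h.data.hu
  have h1 := h.ρ_lo; have h4 := h.e_hi
  have hT : 0 ≤ P.ρ - P.e0 := by linarith only [he0, h1, h4]
  have hTY : P.ρ - P.e0 ≤ P.Y := by unfold Y; linarith only [he0, hu]
  have hg : Continuous (P.gf e i) := by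
    unfold gf
    exact (continuous_const.sub (hi.comp (continuous_id.sub continuous_const))).max continuous_const
  have hf : Continuous fun y => P.mb (y + P.e0) := (mb_cont h).comp (continuous_id.add continuous_const)
  have hmb := mb_cont h
  have h5 := tri_fubini (fun y => P.mb (y + P.e0)) (P.gf e i) hf hg (P.ρ - P.e0)
  unfold Uf Nf If
  rw [← h5]
  have hc1 : Continuous fun v => P.mb v * P.gf e i v := hmb.mul hg
  have hc2 : Continuous fun v => (P.Y - v) ^ 2 / 2 * P.gf e i v := by fun_prop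
  rw [← intervalIntegral.integral_add_adjacent_intervals (hc1.intervalIntegrable 0 (P.ρ - P.e0))
      (hc1.intervalIntegrable (P.ρ - P.e0) P.Y),
    ← intervalIntegral.integral_add_adjacent_intervals (hc2.intervalIntegrable 0 (P.ρ - P.e0))
      (hc2.intervalIntegrable (P.ρ - P.e0) P.Y)]
  have h6 : ∫ v in (P.ρ - P.e0)..P.Y, P.mb v * P.gf e i v =
      ∫ v in (P.ρ - P.e0)..P.Y, (P.Y - v) ^ 2 / 2 * P.gf e i v := by
    refine intervalIntegral.integral_congr fun v hv => ?_
    rw [uIcc_of_le hTY] at hv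
    rw [mb_out h hv.1, max_eq_left (by linarith only [hv.2, hv])]
  have h7 : ∫ v in (0:ℝ)..(P.ρ - P.e0), P.mb v * P.gf e i v =
      (∫ v in (0:ℝ)..(P.ρ - P.e0), (P.Y - v) ^ 2 / 2 * P.gf e i v) -
      ∫ v in (0:ℝ)..(P.ρ - P.e0), P.gf e i v * (∫ y in v..(P.ρ - P.e0), (y - v) * P.mb (y + P.e0)) := by
    have h8 : ∫ v in (0:ℝ)..(P.ρ - P.e0),
        P.gf e i v * (∫ y in v..(P.ρ - P.e0), (y - v) * P.mb (y + P.e0)) =
        ∫ v in (0:ℝ)..(P.ρ - P.e0), ((P.Y - v) ^ 2 / 2 * P.gf e i v - P.mb v * P.gf e i v) := by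
      refine intervalIntegral.integral_congr fun v hv => ?_
      rw [uIcc_of_le hT] at hv
      rw [mb_formula h hv.1 hv.2]
      ring
    rw [h8, intervalIntegral.integral_sub (hc2.intervalIntegrable _ _) (hc1.intervalIntegrable _ _)]
    ring
  rw [h6, h7]
  ring

theorem Uf_e0 (h : P.Star) : P.Uf P.e0 P.io = P.psi P.io := by
  have he0 := e0_pos h
  have hu := h.data.hu
  have h1 := h.ρ_lo; have h4 := h.e_hi
  have hY := Y_pos h
  have hL : 0 < P.L := by linarith only [hY.2.2.1, he0, h4, hY]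
  have hq : P.q P.e0 = 1 / P.L := rfl
  have hmb := mb_cont h
  have hI := I_cont h
  have hg : ∀ v, P.gf P.e0 P.io v = (1 / P.L) * max (1 - P.I (v - P.e0)) 0 := by
    intro v
    unfold gf io
    rw [hq, mul_max_of_nonneg _ _ (by positivity), mul_zero]
    congr 1
    ring
  have hρY : P.ρ ≤ P.Y := by unfold Y; linarith only [hu]
  have hc : Continuous fun v => P.mb v * max (1 - P.I (v - P.e0)) 0 := by fun_prop
  have h2 : ∫ v in (0:ℝ)..P.Y, P.mb v * P.gf P.e0 P.io v =
      (1 / P.L) * ∫ v in (0:ℝ)..P.Y, P.mb v * max (1 - P.I (v - P.e0)) 0 := by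
    rw [← intervalIntegral.integral_const_mul]
    refine intervalIntegral.integral_congr fun v _ => ?_
    rw [hg v]
    ring
  have h3 : ∫ v in (0:ℝ)..P.Y, P.mb v * max (1 - P.I (v - P.e0)) 0 =
      ∫ v in (0:ℝ)..P.ρ, P.mb v * (1 - P.I (v - P.e0)) := by
    rw [← intervalIntegral.integral_add_adjacent_intervals (hc.intervalIntegrable 0 P.ρ)
      (hc.intervalIntegrable P.ρ P.Y)]
    have h5 : ∫ v in P.ρ..P.Y, P.mb v * max (1 - P.I (v - P.e0)) 0 = ∫ _v in P.ρ..P.Y, (0 : ℝ) := by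
      refine intervalIntegral.integral_congr fun v hv => ?_
      rw [uIcc_of_le hρY] at hv
      have h6 : P.I (P.ρ - P.e0) ≤ P.I (v - P.e0) := I_mono h (by linarith only [hv.1, hv])
      rw [I_rho h] at h6
      rw [max_eq_right (by linarith only [h6]), mul_zero]
    rw [h5, intervalIntegral.integral_zero, add_zero]
    refine intervalIntegral.integral_congr fun v hv => ?_
    rw [uIcc_of_le (ρ_pos h).le] at hv
    have h6 : P.I (v - P.e0) ≤ P.I (P.ρ - P.e0) := I_mono h (by linarith only [hv.2, hv])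
    rw [I_rho h] at h6
    rw [max_eq_left (by linarith only [h6])]
  have hc2 : Continuous fun v => P.mb v * P.I (v - P.e0) := by fun_prop
  have h7 : ∫ v in (0:ℝ)..P.ρ, P.mb v * (1 - P.I (v - P.e0)) =
      (∫ v in (0:ℝ)..P.ρ, P.mb v) - ∫ v in (0:ℝ)..P.ρ, P.mb v * P.I (v - P.e0) := by
    rw [← intervalIntegral.integral_sub (hmb.intervalIntegrable _ _) (hc2.intervalIntegrable _ _)]
    refine intervalIntegral.integral_congr fun v _ => ?_
    ring
  have h8 : ∫ v in (0:ℝ)..P.ρ, P.mb v * P.I (v - P.e0) =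
      ∫ y in (0:ℝ)..(P.ρ - P.e0), P.mb (y + P.e0) * P.I y := by
    rw [← intervalIntegral.integral_add_adjacent_intervals (hc2.intervalIntegrable 0 P.e0)
      (hc2.intervalIntegrable P.e0 P.ρ)]
    have h5 : ∫ v in (0:ℝ)..P.e0, P.mb v * P.I (v - P.e0) = ∫ _v in (0:ℝ)..P.e0, (0 : ℝ) := by
      refine intervalIntegral.integral_congr fun v hv => ?_
      rw [uIcc_of_le he0.le] at hv
      rw [I_zero h (by linarith only [hv.2, hv]), mul_zero]
    rw [h5, intervalIntegral.integral_zero, zero_add]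
    have h9 := intervalIntegral.integral_comp_add_right (a := 0) (b := P.ρ - P.e0)
      (fun v => P.mb v * P.I (v - P.e0)) P.e0
    rw [zero_add, sub_add_cancel] at h9
    rw [← h9]
    refine intervalIntegral.integral_congr fun v _ => ?_
    rw [add_sub_cancel_right]
  have h10 : ∫ y in (0:ℝ)..(P.ρ - P.e0), P.mb (y + P.e0) * P.io y =
      (1 / P.L) * ∫ y in (0:ℝ)..(P.ρ - P.e0), P.mb (y + P.e0) * P.I y := by
    rw [← intervalIntegral.integral_const_mul]
    refine intervalIntegral.integral_congr fun v _ => ?_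
    dsimp only [io]
    ring
  have h11 := mb_int h
  unfold Uf psi
  rw [hq, h2, h3, h7, h8, h10]
  have h12 : ∫ v in (0:ℝ)..P.ρ, P.mb v = P.L - P.sg := by linarith only [h11]
  rw [h12]
  field_simp
  ring

/-! ### enclosures of the alternating sums -/

theorem Zs_split (e : ℝ) (m n j : ℕ) (y : ℝ) :
    Zs e (m + n) j y = Zs e m j y + (-1 : ℝ) ^ m * Zs e n (j + 2 * m) (y - m * e) := by
  unfold Zs
  rw [Finset.sum_range_add, Finset.mul_sum]
  congr 1
  refine Finset.sum_congr rfl fun k _ => ?_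
  have h1 : y - ((m + k : ℕ) : ℝ) * e = y - m * e - k * e := by push_cast; ring
  have h2 : 2 * (m + k) + j = 2 * k + (j + 2 * m) := by ring
  rw [h1, h2, pow_add]
  ring

theorem Zs_tail_nonneg (h : P.Star) (n j : ℕ) (hj : 1 ≤ j) {y : ℝ}
    (hy : y ≤ 2) : 0 ≤ Zs P.e0 n j y := by
  rcases le_or_gt y 0 with h0 | h0
  · rw [Zs_neg _ _ _ (e0_pos h) hj h0]
  · refine Zs_nonneg _ (e0_pos h) n j hj h0.le ?_
    have : (1 : ℝ) ≤ j := by exact_mod_cast hj
    nlinarith only [hy, this, h0]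

/-- an even number of terms gives a lower bound -/
theorem Zs_ge (h : P.Star) (m j : ℕ) (hm : Even m) (hm2 : m ≤ 15) (hj : 1 ≤ j) {y : ℝ} (hy : y ≤ 2) :
    Zs P.e0 m j y ≤ Zs P.e0 15 j y := by
  obtain ⟨n, hn⟩ : ∃ n, 15 = m + n := ⟨15 - m, by omega⟩
  rw [hn, Zs_split, hm.neg_one_pow, one_mul]
  have he := e0_pos h
  have h1 := Zs_tail_nonneg h n (j + 2 * m) (by omega) (y := y - m * P.e0) (by
    have : 0 ≤ (m : ℝ) * P.e0 := by positivity
    linarith only [hy, this])
  linarith only [h1]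

/-- an odd number of terms gives an upper bound -/
theorem Zs_le (h : P.Star) (m j : ℕ) (hm : Odd m) (hm2 : m ≤ 15) (hj : 1 ≤ j) {y : ℝ} (hy : y ≤ 2) :
    Zs P.e0 15 j y ≤ Zs P.e0 m j y := by
  obtain ⟨n, hn⟩ : ∃ n, 15 = m + n := ⟨15 - m, by omega⟩
  rw [hn, Zs_split, hm.neg_one_pow]
  have he := e0_pos h
  have h1 := Zs_tail_nonneg h n (j + 2 * m) (by omega) (y := y - m * P.e0) (by
    have : 0 ≤ (m : ℝ) * P.e0 := by positivity
    linarith only [hy, this])
  linarith only [h1]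

theorem mm_le (h : P.Star) {v : ℝ} (h0 : 0 ≤ v) (h1 : v ≤ P.ρ) : P.mm v ≤ 1.2 := by
  have he := h.e_lo; have he2 := h.e_hi; have hu := h.u_lo; have hu2 := h.u_hi
  have hρ := h.ρ_hi
  have hu0 : 0 ≤ P.u := h.data.hu
  obtain ⟨t, ht⟩ : ∃ t, t = P.ρ - v := ⟨_, rfl⟩
  unfold mm
  rw [← ht]
  have ht0 : 0 ≤ t := by linarith only [h1, ht]
  have ht1 : t ≤ P.ρ := by linarith only [h0, ht]
  have hZ1e0 : 0 ≤ Zs P.e0 15 1 (t - P.e0) := by
    rw [Zs1_eq (by linarith only [h0, he, he2, ht])]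
    exact D_nonneg h _
  rcases le_or_gt t (2 * P.e0) with h2 | h2
  · have hZ0 : Zs P.e0 15 0 t ≤ 1 := by
      rw [Zs0_eq h ht1]
      linarith only [I_nonneg h (t - P.e0), h]
    have hZ1 : Zs P.e0 15 1 t ≤ t := by
      have := Zs_le h 1 1 odd_one (by norm_num) le_rfl (y := t) (by linarith only [h0, he, he2, hρ, ht])
      unfold Zs at this ⊢
      rw [Finset.sum_range_one] at this
      refine this.trans ?_
      simp [max_eq_left ht0]
    have h3 : P.u * Zs P.e0 15 0 t ≤ P.u * 1 := mul_le_mul_of_nonneg_left hZ0 hu0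
    have h4 : 0 ≤ P.u ^ 2 / 2 * Zs P.e0 15 1 (t - P.e0) := by positivity
    linarith only [he, he2, hu2, h2, hZ1, h3, h4]
  · obtain ⟨y, hy⟩ : ∃ y, y = t - 2 * P.e0 := ⟨_, rfl⟩
    obtain ⟨x, hx⟩ : ∃ x, x = y + P.e0 := ⟨_, rfl⟩
    have hy0 : 0 ≤ y := by linarith only [h2, hy]
    have hy1 : y ≤ 1.4 := by linarith only [h0, he, he2, hρ, ht, hy]
    have hx1 : t - P.e0 = x := by linarith only [hy, hx]
    have hZ0 : Zs P.e0 15 0 t ≤ 1 - x ^ 2 / 2 + y ^ 4 / 24 := by
      have e1 := Zs_shift15 h 0 (y := x) (by linarith only [h0, he, he2, ht, hy, hx])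
      have e2 : x + P.e0 = t := by linarith only [hy, hx]
      rw [e2] at e1
      have e3 := Zs_ge h 2 2 (by decide) (by norm_num) (by norm_num) (y := x) (by linarith only [h0, he, he2, hρ, ht, hy, hx])
      have e4 : Zs P.e0 2 2 x = x ^ 2 / 2 - y ^ 4 / 24 := by
        unfold Zs
        rw [Finset.sum_range_succ, Finset.sum_range_one]
        have e5 : x - ((1 : ℕ) : ℝ) * P.e0 = y := by push_cast; linarith only [hx]
        have e6 : x - ((0 : ℕ) : ℝ) * P.e0 = x := by push_cast; linarith only []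
        rw [e5, e6, max_eq_left hy0, max_eq_left (by linarith only [he, he2, h2, hy, hx])]
        norm_num [Nat.factorial]
        ring
      rw [e1]
      norm_num
      linarith only [e3, e4]
    have hZ1 : Zs P.e0 15 1 t ≤ t - x ^ 3 / 6 + y ^ 5 / 120 := by
      have e3 := Zs_le h 3 1 (by decide) (by norm_num) (by norm_num) (y := t) (by linarith)
      have e4 : Zs P.e0 3 1 t = t - x ^ 3 / 6 + y ^ 5 / 120 := by
        unfold Zs
        rw [Finset.sum_range_succ, Finset.sum_range_succ, Finset.sum_range_one]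
        have e5 : t - ((2 : ℕ) : ℝ) * P.e0 = y := by push_cast; linarith only [hy]
        have e7 : t - ((1 : ℕ) : ℝ) * P.e0 = x := by push_cast; linarith only [hy, hx]
        have e6 : t - ((0 : ℕ) : ℝ) * P.e0 = t := by push_cast; linarith only []
        have e8 : max x 0 = x := max_eq_left (by linarith)
        rw [e5, e6, e7, max_eq_left hy0, e8, max_eq_left ht0]
        norm_num [Nat.factorial]
        ring
      rw [← e4]
      exact e3
    have hZ1e : x - y ^ 3 / 6 ≤ Zs P.e0 15 1 x := by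
      have e3 := Zs_ge h 2 1 (by decide) (by norm_num) (by norm_num) (y := x) (by linarith)
      have e4 : Zs P.e0 2 1 x = x - y ^ 3 / 6 := by
        unfold Zs
        rw [Finset.sum_range_succ, Finset.sum_range_one]
        have e5 : x - ((1 : ℕ) : ℝ) * P.e0 = y := by push_cast; linarith only [hx]
        have e6 : x - ((0 : ℕ) : ℝ) * P.e0 = x := by push_cast; linarith only []
        rw [e5, e6, max_eq_left hy0, max_eq_left (by linarith)]
        norm_num [Nat.factorial]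
        ring
      rw [← e4]
      exact e3
    rw [hx1]
    have hx0 : 0 ≤ x := by linarith only [he, he2, h2, hy, hx]
    have hz : y + 0.121818 ≤ x := by linarith only [he, hx]
    have hz2 : x ≤ y + 0.121819 := by linarith
    have hz0 : 0 ≤ y + 0.121818 := by linarith only [he, he2, h2, hy]
    have hu3 : 0.408494 ≤ P.u ^ 2 / 2 := by nlinarith only [he, he2, hu]
    have hu4 : P.u ^ 2 / 2 ≤ 0.408497 := by nlinarith only [hu2, he, he2, hu]
    have hy3 : 0 ≤ y ^ 3 := by positivity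
    have hy4 : 0 ≤ y ^ 4 := by positivity
    -- upper bound
    have b1 : P.u * Zs P.e0 15 0 t ≤ P.u * (1 - x ^ 2 / 2 + y ^ 4 / 24) :=
      mul_le_mul_of_nonneg_left hZ0 hu0
    have b2 : P.u ^ 2 / 2 * (x - y ^ 3 / 6) ≤ P.u ^ 2 / 2 * Zs P.e0 15 1 x :=
      mul_le_mul_of_nonneg_left hZ1e (by positivity)
    have hx2 : (y + 0.121818) ^ 2 ≤ x ^ 2 := pow_le_pow_left₀ hz0 hz 2
    have hx3 : (y + 0.121818) ^ 3 ≤ x ^ 3 := pow_le_pow_left₀ hz0 hz 3
    have b3 : 0.903874 * (y + 0.121818) ^ 2 ≤ P.u * x ^ 2 :=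
      mul_le_mul hu.le hx2 (by positivity) hu0
    have b4 : P.u * y ^ 4 ≤ 0.903877 * y ^ 4 := mul_le_mul_of_nonneg_right hu2.le hy4
    have b5 : P.u ^ 2 / 2 * y ^ 3 ≤ 0.408497 * y ^ 3 := mul_le_mul_of_nonneg_right hu4 hy3
    have b6 : 0.408494 * x ≤ P.u ^ 2 / 2 * x := mul_le_mul_of_nonneg_right hu3 hx0
    have hq : 0 ≤ 0.5735 + 0.0622 * y - 0.0448 * y ^ 2 - 0.0084 * y ^ 3 := by
      nlinarith only [mul_nonneg hy0 (sub_nonneg.2 hy1), mul_nonneg (mul_nonneg hy0 hy0) (sub_nonneg.2 hy1), h0, he, he2, hρ, ht, hy, hy0, hy1]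
    have hfin : 0.903877 + 0.121819 + 0.591506 * (y + 0.121819) - 0.451937 * (y + 0.121818) ^ 2 -
        (y + 0.121818) ^ 3 / 6 + 0.0680833 * y ^ 3 + 0.0376616 * y ^ 4 + y ^ 5 / 120 ≤ 1.2 := by
      have := mul_nonneg (sq_nonneg (y - 0.423)) hq
      nlinarith only [mul_nonneg hy3 hy0, mul_nonneg hy4 hy0, mul_nonneg hy0 hy0, he, he2, hy3, this, hy4, hy0]
    have e8 : P.u * (1 - x ^ 2 / 2 + y ^ 4 / 24) = P.u - (P.u * x ^ 2) / 2 + (P.u * y ^ 4) / 24 := by
      ring
    have e9 : P.u ^ 2 / 2 * (x - y ^ 3 / 6) = P.u ^ 2 / 2 * x - (P.u ^ 2 / 2 * y ^ 3) / 6 := by ring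
    rw [e8] at b1
    rw [e9] at b2
    have htx : t = x + P.e0 := by linarith only [hy, hx]
    have c1 : P.u * Zs P.e0 15 0 t + Zs P.e0 15 1 t - P.u ^ 2 / 2 * Zs P.e0 15 1 x ≤
        P.u - (P.u * x ^ 2) / 2 + (P.u * y ^ 4) / 24 + (x + P.e0 - x ^ 3 / 6 + y ^ 5 / 120) -
        (P.u ^ 2 / 2 * x - (P.u ^ 2 / 2 * y ^ 3) / 6) := by
      rw [htx] at hZ1 ⊢
      rw [htx] at b1
      linarith only [hZ1, b1, b2]
    have c2 : P.u - (P.u * x ^ 2) / 2 + (P.u * y ^ 4) / 24 + (x + P.e0 - x ^ 3 / 6 + y ^ 5 / 120) -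
        (P.u ^ 2 / 2 * x - (P.u ^ 2 / 2 * y ^ 3) / 6) ≤
        0.903877 + 0.121819 + 0.591506 * (y + 0.121819) - 0.451937 * (y + 0.121818) ^ 2 -
        (y + 0.121818) ^ 3 / 6 + 0.0680833 * y ^ 3 + 0.0376616 * y ^ 4 + y ^ 5 / 120 := by
      have c3 : x * 0.591506 ≤ (y + 0.121819) * 0.591506 := by linarith only [he2, hx]
      generalize (y + 0.121818) ^ 2 = A at *
      generalize (y + 0.121818) ^ 3 = B at *
      generalize P.u * x ^ 2 = C at *
      generalize P.u ^ 2 / 2 * x = D at *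
      generalize P.u * y ^ 4 = E at *
      generalize P.u ^ 2 / 2 * y ^ 3 = F at *
      linarith only [he2, hu2, hx, hy3, hy4, hx3, b3, b6, b4, b5]
    exact c1.trans (c2.trans hfin)

theorem m_bd (h : P.Star) {v : ℝ} (h0 : 0 ≤ v) (h1 : v ≤ P.Y) : 0 ≤ P.m v ∧ P.m v ≤ 1.2 := by
  refine ⟨m_nonneg h h0 h1, ?_⟩
  rcases le_or_gt v P.ρ with h2 | h2
  · rw [m_eq_mm h h0 h2]
    exact mm_le h h0 h2
  · rw [m_out P (by linarith [e0_pos h])]
    have := h.u_hi
    unfold Y
    linarith only [h2, this]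

end Pool.Agent.CDk.Par
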