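import Pool.Agent.CDk.CX
import Pool.Agent.CDk.Defs
import Pool.Agent.CDk.ENC
import Pool.Agent.CDk.FNa
import Pool.Agent.CDk.FNb

open MeasureTheory Set Filter Topology

namespace Pool.Agent.CDk.Par
variable {P : Par}

/-! ### private tools: integrals of polynomials given by the list of their coefficients -/

private noncomputable def pe : List ℝ → ℝ → ℝ
  | [], _ => 0
  | a :: l, x => a + x * pe l x

private noncomputable def pa : ℕ → List ℝ → ℝ → ℝ
  | _, [], _ => 0
  | k, a :: l, x => a / ((k : ℝ) + 1) * x ^ (k + 1) + pa (k + 1) l x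

private theorem pe_cont (l : List ℝ) : Continuous (pe l) := by
  induction l with
  | nil => exact continuous_const
  | cons a l ih =>
    show Continuous fun x => a + x * pe l x
    fun_prop

private theorem pa_deriv (l : List ℝ) (k : ℕ) (x : ℝ) :
    HasDerivAt (pa k l) (x ^ k * pe l x) x := by
  induction l generalizing k with
  | nil =>
    have : HasDerivAt (fun _ : ℝ => (0 : ℝ)) 0 x := hasDerivAt_const x 0
    simpa [pa, pe] using this
  | cons a l ih =>
    have h1 : HasDerivAt (fun x : ℝ => a / ((k : ℝ) + 1) * x ^ (k + 1)) (a * x ^ k) x := by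
      have h2 := (hasDerivAt_pow (k + 1) x).const_mul (a / ((k : ℝ) + 1))
      have h3 : ((k : ℝ) + 1) ≠ 0 := by positivity
      have h6 : a / ((k : ℝ) + 1) * (((k + 1 : ℕ) : ℝ) * x ^ (k + 1 - 1)) = a * x ^ k := by
        rw [Nat.add_sub_cancel]
        push_cast
        field_simp
      rw [h6] at h2
      exact h2
    have h4 := h1.add (ih (k + 1))
    have h5 : x ^ k * pe (a :: l) x = a * x ^ k + x ^ (k + 1) * pe l x := by
      simp only [pe]
      ring
    rw [h5]
    exact h4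

private theorem int_pe (l : List ℝ) (a b : ℝ) :
    ∫ x in a..b, pe l x = pa 0 l b - pa 0 l a := by
  refine intervalIntegral.integral_eq_sub_of_hasDerivAt (fun x _ => ?_)
    ((pe_cont l).intervalIntegrable _ _)
  simpa using pa_deriv l 0 x

private theorem int_le {f : ℝ → ℝ} {a b : ℝ} (hab : a ≤ b) (hf : Continuous f) (l : List ℝ)
    (h : ∀ x, a ≤ x → x ≤ b → f x ≤ pe l x) : ∫ x in a..b, f x ≤ pa 0 l b - pa 0 l a := by
  rw [← int_pe]
  exact intervalIntegral.integral_mono_on hab (hf.intervalIntegrable _ _)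
    ((pe_cont l).intervalIntegrable _ _) fun x hx => h x hx.1 hx.2

private theorem int_ge {f : ℝ → ℝ} {a b : ℝ} (hab : a ≤ b) (hf : Continuous f) (l : List ℝ)
    (h : ∀ x, a ≤ x → x ≤ b → pe l x ≤ f x) : pa 0 l b - pa 0 l a ≤ ∫ x in a..b, f x := by
  rw [← int_pe]
  exact intervalIntegral.integral_mono_on hab ((pe_cont l).intervalIntegrable _ _)
    (hf.intervalIntegrable _ _) fun x hx => h x hx.1 hx.2

private theorem I_cont' (h : P.Star) : Continuous P.I :=
  continuous_iff_continuousAt.2 fun y => (I_deriv h y).continuousAt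

private theorem w_cont' : Continuous w := by
  unfold w
  fun_prop

private theorem w_nonneg' (y : ℝ) : 0 ≤ w y := by
  unfold w
  have : 0 ≤ min (3 * y ^ 2) 1 := le_min (by positivity) zero_le_one
  have : 0 ≤ max (y - 1.4) 0 := le_max_right _ _
  linarith

private theorem w_up1 {y : ℝ} (hy : y ≤ 1.4) : w y ≤ 3 * y ^ 2 ∧ w y ≤ 1 := by
  unfold w
  rw [max_eq_right (by linarith : y - 1.4 ≤ 0)]
  constructor
  · have := min_le_left (3 * y ^ 2) 1
    linarith
  · have := min_le_right (3 * y ^ 2) 1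
    linarith

private theorem w_up2 {y : ℝ} (hy : 1.4 ≤ y) : w y ≤ 1 + 4 * (y - 1.4) := by
  unfold w
  rw [max_eq_left (by linarith : 0 ≤ y - 1.4)]
  have := min_le_right (3 * y ^ 2) 1
  linarith

private theorem w_ii (a b : ℝ) : IntervalIntegrable w volume a b :=
  w_cont'.intervalIntegrable a b

private theorem wint1 : ∫ y in (0:ℝ)..1.2, w y ≤ 0.8151001 := by
  rw [← intervalIntegral.integral_add_adjacent_intervals (w_ii 0 0.577) (w_ii 0.577 1.2)]
  have u1 : (∫ y in (0:ℝ)..0.577, w y) ≤ pa 0 [0, 0, 3] 0.577 - pa 0 [0, 0, 3] 0 := by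
    refine int_le (by norm_num) w_cont' _ fun x hx0 hx1 => ?_
    have := (w_up1 (y := x) (by linarith)).1
    simp only [pe]
    linarith
  have u2 : (∫ y in (0.577:ℝ)..1.2, w y) ≤ pa 0 [1] 1.2 - pa 0 [1] 0.577 := by
    refine int_le (by norm_num) w_cont' _ fun x hx0 hx1 => ?_
    have := (w_up1 (y := x) (by linarith)).2
    simp only [pe]
    linarith
  simp only [pa] at u1 u2
  norm_num at u1 u2 ⊢
  linarith

private theorem wint2 : ∫ y in (1.2:ℝ)..1.4, w y ≤ 0.2 := by
  have u2 : (∫ y in (1.2:ℝ)..1.4, w y) ≤ pa 0 [1] 1.4 - pa 0 [1] 1.2 := by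
    refine int_le (by norm_num) w_cont' _ fun x hx0 hx1 => ?_
    have := (w_up1 (y := x) (by linarith)).2
    simp only [pe]
    linarith
  simp only [pa] at u2
  norm_num at u2 ⊢
  linarith

private theorem wint3 {b : ℝ} (hb : 1.4 ≤ b) :
    ∫ y in (1.4:ℝ)..b, w y ≤ (b - 1.4) + 2 * (b - 1.4) ^ 2 := by
  have u2 : (∫ y in (1.4:ℝ)..b, w y) ≤ pa 0 [-4.6, 4] b - pa 0 [-4.6, 4] 1.4 := by
    refine int_le hb w_cont' _ fun x hx0 hx1 => ?_
    have := w_up2 hx0
    simp only [pe]
    linarith only [this]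
  simp only [pa] at u2
  norm_num at u2 ⊢
  nlinarith only [u2]

/-- the integral of `w` up to `T = ρ - e0` and a bit more -/
private theorem wintT {b : ℝ} (hb : 1.4 ≤ b) : ∫ y in (0:ℝ)..b, w y ≤
    1.0151001 + ((b - 1.4) + 2 * (b - 1.4) ^ 2) := by
  rw [← intervalIntegral.integral_add_adjacent_intervals (w_ii 0 1.2) (w_ii 1.2 b),
    ← intervalIntegral.integral_add_adjacent_intervals (w_ii 1.2 1.4) (w_ii 1.4 b)]
  have h1 := wint1
  have h2 := wint2
  have h3 := wint3 hb
  norm_num at h1 h2 h3 ⊢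
  linarith only [h1, h2, h3]

private theorem mdiff (h : P.Star) {C v1 v2 : ℝ} (h0 : 0 ≤ v1) (h12 : v1 ≤ v2) (h2 : v2 ≤ P.Y)
    (hm : ∀ v, v1 ≤ v → v ≤ v2 → P.m v ≤ C) : P.mb v1 - P.mb v2 ≤ C * (v2 - v1) := by
  have b6 : ∀ z ∈ Icc v1 v2, HasDerivWithinAt P.mb (-(P.m z)) (Icc v1 v2) z :=
    fun z hz => (mb_deriv h (by linarith [hz.1]) (by linarith [hz.2])).hasDerivWithinAt
  have b7 := Convex.norm_image_sub_le_of_norm_hasDerivWithin_le (C := C) b6
    (fun z hz => by
      have b8 := (m_bd h (v := z) (by linarith [hz.1]) (by linarith [hz.2])).1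
      rw [norm_neg, Real.norm_eq_abs, abs_of_nonneg b8]
      exact hm z hz.1 hz.2)
    (convex_Icc _ _) (right_mem_Icc.2 h12) (left_mem_Icc.2 h12)
  rw [Real.norm_eq_abs, Real.norm_eq_abs] at b7
  have b9 : |v1 - v2| = v2 - v1 := by
    rw [abs_sub_comm]
    exact abs_of_nonneg (sub_nonneg.2 h12)
  rw [b9] at b7
  exact (le_abs_self _).trans b7

/-- for `v ≥ T` the function `m` is `Y - v` -/
private theorem B1_m_out (h : P.Star) {v : ℝ} (hv : P.ρ - P.e0 ≤ v) : P.m v = P.Y - v := by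
  have _ := h
  unfold m
  rw [min_eq_right hv, intervalIntegral.integral_same, sub_zero]

private theorem m_mid (h : P.Star) {v : ℝ} (hv : 1.32 ≤ v) : P.m v ≤ 1.15 := by
  have e1 := h.e_lo
  have e2 := h.e_hi
  have r1 := h.ρ_lo
  have r2 := h.ρ_hi
  have u1 := h.u_lo
  obtain ⟨y1, y2, -, -⟩ := Y_pos h
  rcases le_total (P.ρ - P.e0) v with hT | hT
  · rw [B1_m_out h hT]
    linarith only [e2, r1, r2, y2, hT]
  · unfold m
    rw [min_eq_left hT]
    have hc : Continuous fun y => P.mb (y + P.e0) := (mb_cont h).comp (by fun_prop)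
    have h1 : (P.ρ - P.e0 - v) * 0.4084 ≤ ∫ y in v..(P.ρ - P.e0), P.mb (y + P.e0) := by
      have h2 : ∫ _y in v..(P.ρ - P.e0), (0.4084 : ℝ) = (P.ρ - P.e0 - v) * 0.4084 := by
        rw [intervalIntegral.integral_const, smul_eq_mul]
      rw [← h2]
      refine intervalIntegral.integral_mono_on hT
        ((continuous_const : Continuous fun _ : ℝ => (0.4084 : ℝ)).intervalIntegrable _ _)
        (hc.intervalIntegrable _ _) fun y hy => ?_
      have h3 : P.mb P.ρ ≤ P.mb (y + P.e0) :=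
        mb_anti h (show (0:ℝ) ≤ y + P.e0 by linarith only [hy.1, hv, e1, r1, r2, hy]) (show (0:ℝ) ≤ P.ρ by linarith only [r1, r2])
          (by linarith only [hy.2, hy])
      rw [mb_out h (v := P.ρ) (by linarith only [e1, r1, r2])] at h3
      have h4 : P.Y - P.ρ = P.u := by unfold Y; ring
      rw [h4, max_eq_left (by linarith only [r1, r2, u1])] at h3
      nlinarith only [h3, r1, r2, u1]
    linarith only [hv, e2, r1, r2, y2, h1]

/-- the data of the crossing -/
private theorem cdata (h : P.Star) {x c : ℝ} (hx : -P.e0 ≤ x) (hx1 : x ≤ 1)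
    (hc : P.io c = P.q (P.e0 + x)) : 1.24 ≤ c ∧ c ≤ 1.565 ∧ c + (P.e0 + x) ≤ 2.44 ∧
      (0 ≤ x → c ≤ P.ρ - P.e0) ∧ (x ≤ 0 → P.ρ - P.e0 ≤ c) := by
  obtain ⟨c', h1, h2, h3, h4, h5, h6⟩ := cross h (e := P.e0 + x) (by linarith) (by linarith)
  have := cross_unique h (by linarith) hc h1
  subst this
  exact ⟨h2, h3, h4, fun hx => h5 (by linarith), fun hx => h6 (by linarith)⟩

private theorem D_nonneg' (h : P.Star) (y : ℝ) : 0 ≤ P.D y := by
  rcases le_total y 0 with h0 | h0
  · rw [D_zero h h0]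
  · rw [← D_zero h (le_refl (0 : ℝ))]
    exact D_mono h h0

private theorem io_incr (h : P.Star) {s a b : ℝ} (hab : a ≤ b) (hs : s ≤ P.D a / P.L) :
    s * (b - a) ≤ P.io b - P.io a := by
  obtain ⟨-, -, l1, l2⟩ := Y_pos h
  have hL : 0 < P.L := by linarith
  have hd : ∀ z, HasDerivAt (fun y => P.io y - s * y) (P.D z / P.L - s) z := fun z => by
    have h1 := ((I_deriv h z).div_const P.L).sub ((hasDerivAt_id z).const_mul s)
    rw [mul_one] at h1
    exact h1
  have hmono : MonotoneOn (fun y => P.io y - s * y) (Icc a b) := by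
    refine monotoneOn_of_deriv_nonneg (convex_Icc _ _)
      (fun z _ => (hd z).continuousAt.continuousWithinAt)
      (fun z _ => (hd z).differentiableAt.differentiableWithinAt) fun z hz => ?_
    rw [interior_Icc] at hz
    rw [(hd z).deriv, sub_nonneg]
    exact hs.trans (div_le_div_of_nonneg_right (D_mono h hz.1.le) hL.le)
  have := hmono (left_mem_Icc.2 hab) (right_mem_Icc.2 hab) hab
  simp only at this
  linarith

private theorem io_T (h : P.Star) : P.io (P.ρ - P.e0) = P.q (P.e0 + 0) := by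
  unfold io q
  rw [I_rho h, add_zero]
  rfl

private theorem q_sub (h : P.Star) {x : ℝ} (hx : -P.e0 ≤ x) :
    P.q (P.e0 + 0) - P.q (P.e0 + x) = x / (P.L * (P.L + x)) := by
  obtain ⟨y1, y2, l1, l2⟩ := Y_pos h
  have e2 := h.e_hi
  unfold q
  have h1 : P.Y + (P.e0 + 0) = P.L := by unfold Y L; ring
  have h2 : P.Y + (P.e0 + x) = P.L + x := by unfold Y L; ring
  rw [h1, h2]
  have h3 : P.L ≠ 0 := by linarith only [y1, y2, l1]
  have h4 : P.L + x ≠ 0 := by linarith only [hx, y1, h1]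
  field_simp
  ring

/-- lower bounds of the slope of `io` -/
private theorem slope_lb (h : P.Star) {a s : ℝ} (ha : 1.36 ≤ a)
    (hs : s * 2.665784 ≤ PD 1.36 - 0.00015) : s ≤ P.D a / P.L := by
  obtain ⟨y1, y2, l1, l2⟩ := Y_pos h
  have r1 := h.ρ_lo
  have hL : 0 < P.L := by linarith only [l1, l2]
  rw [le_div_iff₀ hL]
  have h1 := (abs_le.1 (D_app h (y := 1.36) (by norm_num) (by linarith only [l1, l2, r1]))).1
  have h2 := D_mono h ha
  have h3 := D_nonneg' h a
  rcases le_total s 0 with h0 | h0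
  · nlinarith only [hs, h1, h2, h3, y1, y2, l1, h0]
  · nlinarith only [hs, h1, h2, l1, y1, y2, l2, h3]

private theorem slope_lb2 (h : P.Star) {a s : ℝ} (ha : 1.42 ≤ a)
    (hs : s * 2.665784 ≤ PD 1.42 - 0.00015) : s ≤ P.D a / P.L := by
  obtain ⟨y1, y2, l1, l2⟩ := Y_pos h
  have r1 := h.ρ_lo
  have hL : 0 < P.L := by linarith only [l1, l2]
  rw [le_div_iff₀ hL]
  have h1 := (abs_le.1 (D_app h (y := 1.42) (by norm_num) (by linarith only [l1, l2, r1]))).1
  have h2 := D_mono h ha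
  have h3 := D_nonneg' h a
  rcases le_total s 0 with h0 | h0
  · nlinarith only [hs, h1, h2, h3, y1, y2, l1, h0]
  · nlinarith only [hs, h1, h2, l1, y1, y2, l2, h3]

private theorem slope_lb3 (h : P.Star) {a s : ℝ} (ha : 1.5 ≤ a)
    (hs : s * 2.665784 ≤ PD 1.5 - 0.00015) : s ≤ P.D a / P.L := by
  obtain ⟨y1, y2, l1, l2⟩ := Y_pos h
  have r1 := h.ρ_lo
  have hL : 0 < P.L := by linarith only [l1, l2]
  rw [le_div_iff₀ hL]
  have h1 := (abs_le.1 (D_app h (y := 1.5) (by norm_num) (by linarith only [l1, l2, r1]))).1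
  have h2 := D_mono h ha
  have h3 := D_nonneg' h a
  rcases le_total s 0 with h0 | h0
  · nlinarith only [hs, h1, h2, h3, y1, y2, l1, h0]
  · nlinarith only [hs, h1, h2, l1, y1, y2, l2, h3]

private theorem mb_up (h : P.Star) {v : ℝ} (h0 : 0 ≤ v) (h1 : v ≤ P.Y) :
    P.mb v ≤ (P.Y - v) ^ 2 / 2 := by
  rcases le_total v (P.ρ - P.e0) with hv | hv
  · rw [mb_formula h h0 hv]
    have e1 := h.e_lo
    have : 0 ≤ ∫ y in v..(P.ρ - P.e0), (y - v) * P.mb (y + P.e0) := by
      refine intervalIntegral.integral_nonneg hv fun y hy => ?_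
      exact mul_nonneg (by linarith [hy.1]) (mb_nonneg h (by linarith [hy.1]))
    linarith
  · rw [mb_out h hv, max_eq_left (by linarith)]

theorem B1_neg (h : P.Star) {x c : ℝ} (hx : -P.e0 ≤ x) (hx1 : x ≤ 0) (hc : P.io c = P.q (P.e0 + x)) :
    (∫ y in (0:ℝ)..(P.ρ - P.e0), w y * (P.mb (y + (P.e0 + x)) - P.mb (y + P.e0)))
      + (∫ y in (P.ρ - P.e0)..c, w y * P.mb (y + (P.e0 + x))) ≤ 1.7 * (-x) := by
  have e1 := h.e_lo
  have e2 := h.e_hi
  have r1 := h.ρ_lo
  have r2 := h.ρ_hi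
  have u1 := h.u_lo
  have u2 := h.u_hi
  obtain ⟨y1, y2, l1, l2⟩ := Y_pos h
  obtain ⟨c1, c2, c3, -, c5⟩ := cdata h hx (by linarith only [hx1, r1, r2]) hc
  have hTc := c5 hx1
  have hmb : Continuous P.mb := mb_cont h
  have hw := w_cont'
  -- first part
  have p1 : (∫ y in (0:ℝ)..(P.ρ - P.e0), w y * (P.mb (y + (P.e0 + x)) - P.mb (y + P.e0))) ≤
      ∫ y in (0:ℝ)..(P.ρ - P.e0), w y * (1.2 * (-x)) := by
    refine intervalIntegral.integral_mono_on (by linarith only [e2, r1, r2])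
      ((by fun_prop : Continuous fun y =>
        w y * (P.mb (y + (P.e0 + x)) - P.mb (y + P.e0))).intervalIntegrable _ _)
      ((by fun_prop : Continuous fun y => w y * (1.2 * (-x))).intervalIntegrable _ _)
      fun y hy => ?_
    refine mul_le_mul_of_nonneg_left ?_ (w_nonneg' y)
    have := mdiff h (C := 1.2) (v1 := y + (P.e0 + x)) (v2 := y + P.e0) (by linarith only [hy.1, hx, hy])
      (by linarith only [hx1]) (by linarith only [hy.2, r1, r2, y1, hy]) (fun v hv1 hv2 =>
        (m_bd h (by linarith only [hy.1, hx, hv1, hy]) (by linarith only [hy.2, r1, r2, y1, hv2, hy])).2)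
    linarith only [this]
  rw [intervalIntegral.integral_mul_const] at p1
  have p2 : (∫ y in (0:ℝ)..(P.ρ - P.e0), w y) ≤ 1.1615 := by
    have h1 := wintT (b := P.ρ - P.e0) (by linarith only [e2, r1, r2])
    nlinarith only [h1, e2, hx, hx1, e1, r1, r2]
  have p3 := mul_le_mul_of_nonneg_right p2 (by linarith only [hx1] : 0 ≤ 1.2 * (-x))
  -- second part
  have s1 : (∫ y in (P.ρ - P.e0)..c, w y * P.mb (y + (P.e0 + x))) ≤ (c - (P.ρ - P.e0)) * 0.8 := by
    have h2 : ∫ _y in (P.ρ - P.e0)..c, (0.8 : ℝ) = (c - (P.ρ - P.e0)) * 0.8 := by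
      rw [intervalIntegral.integral_const, smul_eq_mul]
    rw [← h2]
    refine intervalIntegral.integral_mono_on hTc
      ((by fun_prop : Continuous fun y => w y * P.mb (y + (P.e0 + x))).intervalIntegrable _ _)
      ((continuous_const : Continuous fun _ : ℝ => (0.8 : ℝ)).intervalIntegrable _ _)
      fun y hy => ?_
    have h3 := w_up2 (y := y) (by linarith only [hy.1, e2, r1, r2, hy])
    have h4 := mb_up h (v := y + (P.e0 + x)) (by linarith only [hy.1, hx, e2, r1, r2, hy]) (by linarith only [hy.2, hx1, e2, r1, r2, y1, c2, hy])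
    have h5 := mb_nonneg h (v := y + (P.e0 + x)) (by linarith only [hy.1, hx, e2, r1, r2, hy])
    have h6 : 0 ≤ P.Y - (y + (P.e0 + x)) := by linarith only [hy.2, hx1, e2, r1, r2, y1, c2, hy]
    have h7 : P.Y - (y + (P.e0 + x)) ≤ 2.543965 - y := by linarith only [hx, y2]
    have h7' : P.Y - (y + (P.e0 + x)) ≤ 1.025698 - (y - 1.518268) := by
      have : P.Y - (y + (P.e0 + x)) = P.u + P.ρ - P.e0 - x - y := by unfold Y; ring
      rw [this]
      linarith only [hx, r1, r2, u2]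
    have h8 : (P.Y - (y + (P.e0 + x))) ^ 2 ≤ (1.025698 - (y - 1.518268)) ^ 2 :=
      pow_le_pow_left₀ h6 h7' 2
    have hy1 : 1.518268 ≤ y := by linarith only [hy.1, e2, r1, hy]
    have hy2 : y ≤ 1.565 := hy.2.trans c2
    calc w y * P.mb (y + (P.e0 + x))
        ≤ (1 + 4 * (y - 1.4)) * ((1.025698 - (y - 1.518268)) ^ 2 / 2) :=
          mul_le_mul h3 (by linarith only [h4, h8]) h5 (by linarith only [r1, r2, hy1])
      _ ≤ 0.8 := by
          have a1 : 0 ≤ y - 1.518268 := by linarith only [hy1]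
          have a2 : 0 ≤ 1.565 - y := by linarith only [hy2]
          nlinarith only [mul_nonneg a1 a2, mul_nonneg (mul_nonneg a1 a2) a1, hy2, r1, r2, hy1, a1, a2]
  have s2 : 0.408 * (c - (P.ρ - P.e0)) ≤ -x * 0.1475 := by
    have h1 := io_incr h (s := 0.408) hTc (slope_lb3 h (by linarith only [e2, r1, r2]) (by
      unfold PD
      norm_num))
    rw [hc, io_T h] at h1
    have h2 := q_sub h hx
    have h3 : -(x / (P.L * (P.L + x))) ≤ -x * 0.1475 := by
      have h4 : 0 < P.L * (P.L + x) := mul_pos (by linarith only [r1, r2, l1]) (by linarith only [hx, e2, r1, r2, l1])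
      rw [← neg_div, div_le_iff₀ h4]
      have h5 : 1 ≤ 0.1475 * (P.L * (P.L + x)) := by nlinarith only [hx, l1, e2, r1, r2]
      nlinarith only [hx1, h5]
    linarith only [h1, h2, h3]
  norm_num at p3 s1 s2 ⊢
  nlinarith only [hx1, p1, p3, s1, s2]

/-- the difference of the kernels, bounded by pieces -/
private theorem first_pos (h : P.Star) {x b : ℝ} (hx : 0 ≤ x) (hb : 1.4 ≤ b)
    (hb2 : b + (P.e0 + x) ≤ P.Y) :
    (∫ y in (0:ℝ)..b, w y * (P.mb (y + P.e0) - P.mb (y + (P.e0 + x)))) ≤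
      x * (1.20813 + 1.02215 * ((b - 1.4) + 2 * (b - 1.4) ^ 2)) := by
  have e1 := h.e_lo
  have e2 := h.e_hi
  have r1 := h.ρ_lo
  have r2 := h.ρ_hi
  obtain ⟨y1, y2, l1, l2⟩ := Y_pos h
  have hmb : Continuous P.mb := mb_cont h
  have hw := w_cont'
  have hcc : Continuous fun y => w y * (P.mb (y + P.e0) - P.mb (y + (P.e0 + x))) := by fun_prop
  have hi : ∀ a b : ℝ, IntervalIntegrable
      (fun y => w y * (P.mb (y + P.e0) - P.mb (y + (P.e0 + x)))) volume a b :=
    fun a b => hcc.intervalIntegrable a b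
  have piece : ∀ (C s t : ℝ), 0 ≤ s → s ≤ t → t ≤ b → (∀ v, s + P.e0 ≤ v → v ≤ P.Y → P.m v ≤ C) →
      (∫ y in s..t, w y * (P.mb (y + P.e0) - P.mb (y + (P.e0 + x)))) ≤
        (∫ y in s..t, w y) * (C * x) := by
    intro C s t hs hst ht hC
    rw [← intervalIntegral.integral_mul_const]
    refine intervalIntegral.integral_mono_on hst (hi _ _)
      ((by fun_prop : Continuous fun y => w y * (C * x)).intervalIntegrable _ _)
      fun y hy => ?_
    refine mul_le_mul_of_nonneg_left ?_ (w_nonneg' y)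
    have := mdiff h (C := C) (v1 := y + P.e0) (v2 := y + (P.e0 + x)) (by linarith only [hy.1, e1, r1, r2, hs, hy])
      (by linarith only [hx]) (by linarith only [hy.2, hb2, ht, hy]) (fun v hv1 hv2 =>
        hC v (by linarith only [hy.1, hv1, hy]) (by linarith only [hy.2, hb2, ht, hv2, hy]))
    linarith only [this]
  rw [← intervalIntegral.integral_add_adjacent_intervals (hi 0 1.2) (hi 1.2 b),
    ← intervalIntegral.integral_add_adjacent_intervals (hi 1.2 1.4) (hi 1.4 b)]
  have q1 := piece 1.2 0 1.2 le_rfl (by norm_num) (by linarith only [hb, r1, r2])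
    (fun v hv1 hv2 => (m_bd h (by linarith only [e1, r1, r2, hv1]) hv2).2)
  have q2 := piece 1.15 1.2 1.4 (by norm_num) (by norm_num) hb
    (fun v hv1 hv2 => m_mid h (by linarith only [e1, r1, r2, hv1]))
  have q3 := piece 1.02215 1.4 b (by norm_num) hb le_rfl
    (fun v hv1 hv2 => by
      rw [B1_m_out h (by linarith only [e1, r1, r2, hv1])]
      linarith only [e1, r1, r2, y2, hv1])
  have w1 := mul_le_mul_of_nonneg_right wint1 (by linarith only [hx] : 0 ≤ 1.2 * x)
  have w2 := mul_le_mul_of_nonneg_right wint2 (by linarith only [hx] : 0 ≤ 1.15 * x)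
  have w3 := mul_le_mul_of_nonneg_right (wint3 hb) (by linarith only [hx] : 0 ≤ 1.02215 * x)
  norm_num at q1 q2 q3 w1 w2 w3 ⊢
  nlinarith only [hx, q1, q2, q3, w1, w2, w3]

/-- the same up to any `c ≤ b` -/
private theorem first_le (h : P.Star) {x b c : ℝ} (hx : 0 ≤ x) (hc : 0 ≤ c) (hcb : c ≤ b)
    (hb : 1.4 ≤ b) (hb2 : b + (P.e0 + x) ≤ P.Y) :
    (∫ y in (0:ℝ)..c, w y * (P.mb (y + P.e0) - P.mb (y + (P.e0 + x)))) ≤
      x * (1.20813 + 1.02215 * ((b - 1.4) + 2 * (b - 1.4) ^ 2)) := by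
  have e1 := h.e_lo
  have hmb : Continuous P.mb := mb_cont h
  have hw := w_cont'
  have hcc : Continuous fun y => w y * (P.mb (y + P.e0) - P.mb (y + (P.e0 + x))) := by fun_prop
  refine le_trans ?_ (first_pos h hx hb hb2)
  refine intervalIntegral.integral_mono_interval le_rfl hc hcb ?_
    (hcc.intervalIntegrable _ _)
  refine (ae_restrict_iff' measurableSet_Ioc).2 (Eventually.of_forall fun y hy => ?_)
  refine mul_nonneg (w_nonneg' y) (sub_nonneg.2 ?_)
  exact mb_anti h (show (0:ℝ) ≤ y + P.e0 by linarith only [hy.1, e1, hy])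
    (show (0:ℝ) ≤ y + (P.e0 + x) by linarith [hy.1]) (by linarith)

/-- the part between `c` and `T` -/
private theorem second_le (h : P.Star) {c S : ℝ} (hcT : c ≤ P.ρ - P.e0)
    (hS : ∀ y, c ≤ y → y ≤ P.ρ - P.e0 → w y * P.mb (y + P.e0) ≤ S) :
    (∫ y in c..(P.ρ - P.e0), w y * P.mb (y + P.e0)) ≤ (P.ρ - P.e0 - c) * S := by
  have hmb : Continuous P.mb := mb_cont h
  have hw := w_cont'
  have h2 : ∫ _y in c..(P.ρ - P.e0), (S : ℝ) = (P.ρ - P.e0 - c) * S := by
    rw [intervalIntegral.integral_const, smul_eq_mul]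
  rw [← h2]
  exact intervalIntegral.integral_mono_on hcT
    ((by fun_prop : Continuous fun y => w y * P.mb (y + P.e0)).intervalIntegrable _ _)
    ((continuous_const : Continuous fun _ : ℝ => (S : ℝ)).intervalIntegrable _ _)
    fun y hy => hS y hy.1 hy.2

private theorem wmb_up (h : P.Star) {y : ℝ} (h0 : 1.36 ≤ y) (h1 : y ≤ P.ρ - P.e0) :
    w y * P.mb (y + P.e0) ≤ 0.603 := by
  have e1 := h.e_lo
  have e2 := h.e_hi
  have r2 := h.ρ_hi
  obtain ⟨y1, y2, l1, l2⟩ := Y_pos h
  have h4 := mb_up h (v := y + P.e0) (by linarith only [h0, e1, e2]) (by linarith only [h1, e1, e2, r2, y1])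
  have h5 := mb_nonneg h (v := y + P.e0) (by linarith only [h0, e1, e2])
  have h6 : 0 ≤ P.Y - (y + P.e0) := by linarith only [h1, e1, e2, r2, y1]
  have h7 : P.Y - (y + P.e0) ≤ 2.422147 - y := by linarith only [e1, y2]
  have h8 : (P.Y - (y + P.e0)) ^ 2 ≤ (2.422147 - y) ^ 2 := pow_le_pow_left₀ h6 h7 2
  rcases le_total y 1.4 with hy | hy
  · have h3 := (w_up1 hy).2
    calc w y * P.mb (y + P.e0) ≤ 1 * ((2.422147 - y) ^ 2 / 2) :=
          mul_le_mul h3 (by linarith only [h4, h8]) h5 zero_le_one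
      _ ≤ 0.603 := by nlinarith only [h0, e1, e2, h1, r2]
  · have h3 := w_up2 hy
    have hy2 : y ≤ 1.51827 := by linarith only [h1, e1, r2]
    calc w y * P.mb (y + P.e0) ≤ (1 + 4 * (y - 1.4)) * ((2.422147 - y) ^ 2 / 2) :=
          mul_le_mul h3 (by linarith only [h4, h8]) h5 (by linarith only [e1, e2, hy])
      _ ≤ 0.603 := by
          have a1 : 0 ≤ y - 1.4 := by linarith only [hy]
          have a2 : 0 ≤ 1.51827 - y := by linarith only [h1, e1, r2]
          nlinarith only [mul_nonneg a1 a2, mul_nonneg (mul_nonneg a1 a2) a1, h1, r2, h0, e2, a1, a2, e1]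

private theorem wmb_up2 (h : P.Star) {y : ℝ} (h0 : 1.24 ≤ y) (h1 : y ≤ P.ρ - P.e0) :
    w y * P.mb (y + P.e0) ≤ 0.7 := by
  have e1 := h.e_lo
  have e2 := h.e_hi
  have r2 := h.ρ_hi
  obtain ⟨y1, y2, l1, l2⟩ := Y_pos h
  rcases le_total y 1.4 with hy | hy
  · have h4 := mb_up h (v := y + P.e0) (by linarith only [h0, e1, e2]) (by linarith only [h1, e1, e2, r2, y1])
    have h5 := mb_nonneg h (v := y + P.e0) (by linarith only [h0, e1, e2])
    have h6 : 0 ≤ P.Y - (y + P.e0) := by linarith only [h1, e1, e2, r2, y1]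
    have h7 : P.Y - (y + P.e0) ≤ 1.182148 := by linarith only [h0, e1, e2, y2]
    have h8 : (P.Y - (y + P.e0)) ^ 2 ≤ 1.182148 ^ 2 := pow_le_pow_left₀ h6 h7 2
    have h3 := (w_up1 hy).2
    calc w y * P.mb (y + P.e0) ≤ 1 * (1.182148 ^ 2 / 2) :=
          mul_le_mul h3 (by linarith only [h4, h8]) h5 zero_le_one
      _ ≤ 0.7 := by norm_num
  · exact (wmb_up h (by linarith only [e1, e2, hy]) h1).trans (by norm_num)

/-- values of `io` -/
private theorem io_val (h : P.Star) : P.io 1.42 ≤ 0.3360 ∧ P.io 1.36 ≤ 0.3135 ∧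
    0.3383 ≤ P.io 1.43 ∧ 0.3260 ≤ P.io 1.4 := by
  have r1 := h.ρ_lo
  obtain ⟨y1, y2, l1, l2⟩ := Y_pos h
  have hL : 0 < P.L := by linarith only [l1, l2]
  have a1 := (abs_le.1 (I_app h (y := 1.42) (by norm_num) (by linarith only [r1, l1, l2]))).2
  have a2 := (abs_le.1 (I_app h (y := 1.36) (by norm_num) (by linarith only [r1, l1, l2]))).2
  have a3 := (abs_le.1 (I_app h (y := 1.43) (by norm_num) (by linarith only [r1, l1, l2]))).1
  have a4 := (abs_le.1 (I_app h (y := 1.4) (by norm_num) (by linarith only [r1, l1, l2]))).1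
  unfold PI at a1 a2 a3 a4
  norm_num at a1 a2 a3 a4
  unfold io
  refine ⟨?_, ?_, ?_, ?_⟩
  · rw [div_le_iff₀ hL]
    linarith only [l1, l2, a1]
  · rw [div_le_iff₀ hL]
    linarith only [l1, l2, a2]
  · rw [le_div_iff₀ hL]
    linarith
  · rw [le_div_iff₀ hL]
    linarith only [l1, l2, a4]

private theorem q_val (h : P.Star) {x : ℝ} (hx : 0 ≤ x) : P.q (P.e0 + x) = 1 / (P.L + x) := by
  have _ := h
  have _ := hx
  unfold q
  have h2 : P.Y + (P.e0 + x) = P.L + x := by unfold Y L; ring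
  rw [h2]

private theorem c_ge (h : P.Star) {x c a : ℝ} (ha : 1.24 ≤ a) (hc1 : 1.24 ≤ c)
    (hc : P.io c = P.q (P.e0 + x)) (hq : P.io a ≤ P.q (P.e0 + x)) : a ≤ c := by
  by_contra hcon
  push Not at hcon
  have _ := ha
  have h1 := io_incr h (s := 0.38) hcon.le (io_slope h hc1).1
  nlinarith only [hc, hq, hcon, h1]

private theorem c_le (h : P.Star) {x c a : ℝ} (ha : 1.24 ≤ a)
    (hc : P.io c = P.q (P.e0 + x)) (hq : P.q (P.e0 + x) ≤ P.io a) : c ≤ a := by
  by_contra hcon
  push Not at hcon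
  have h1 := io_incr h (s := 0.38) hcon.le (io_slope h ha).1
  nlinarith only [hc, hq, hcon, h1]

theorem B1_pos (h : P.Star) {x c : ℝ} (hx : 0 ≤ x) (hx1 : x ≤ 0.3) (hc : P.io c = P.q (P.e0 + x)) :
    (∫ y in (0:ℝ)..c, w y * (P.mb (y + P.e0) - P.mb (y + (P.e0 + x))))
      + (∫ y in c..(P.ρ - P.e0), w y * P.mb (y + P.e0)) ≤ 1.6 * x := by
  have e1 := h.e_lo
  have e2 := h.e_hi
  have r1 := h.ρ_lo
  have r2 := h.ρ_hi
  obtain ⟨y1, y2, l1, l2⟩ := Y_pos h
  obtain ⟨c1, c2, c3, c4, -⟩ := cdata h (x := x) (by linarith only [hx, e1, r1, r2]) (by linarith only [hx1, r1, r2]) hc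
  have hcT := c4 hx
  have hL : 0 < P.L := by linarith only [r1, r2, l1]
  obtain ⟨v1, v2, v3, v4⟩ := io_val h
  have hc42 : 1.42 ≤ c := by
    refine c_ge h (by norm_num) c1 hc (v1.trans ?_)
    rw [q_val h hx, le_div_iff₀ (by linarith only [hx, r1, r2, l1])]
    linarith only [hx1, r1, r2, l2]
  have p1 := first_le h (x := x) (b := P.ρ - P.e0) (c := c) hx (by linarith only [r1, r2, hc42]) hcT (by linarith only [e2, r1, r2])
    (by linarith only [hx1, r1, r2, y1])
  have p2 := second_le h (c := c) (S := 0.603) hcT (fun y hy1 hy2 => wmb_up h (by linarith only [r1, r2, hc42, hy1]) hy2)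
  have p3 : 0.4025 * (P.ρ - P.e0 - c) ≤ x * 0.14073 := by
    have h1 := io_incr h (s := 0.4025) hcT (slope_lb2 h hc42 (by
      unfold PD
      norm_num))
    rw [hc, io_T h] at h1
    have h2 := q_sub h (x := x) (by linarith only [hx, e1, r1, r2])
    have h3 : x / (P.L * (P.L + x)) ≤ x * 0.14073 := by
      have h4 : 0 < P.L * (P.L + x) := mul_pos (by linarith only [r1, r2, l1]) (by linarith only [hx, r1, r2, l1])
      rw [div_le_iff₀ h4]
      have h5 : 1 ≤ 0.14073 * (P.L * (P.L + x)) := by nlinarith only [hx, l1, r1, r2]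
      nlinarith only [hx, h5]
    linarith only [h1, h2, h3]
  have p4 : (P.ρ - P.e0 - 1.4) + 2 * (P.ρ - P.e0 - 1.4) ^ 2 ≤ 0.14625 := by nlinarith only [e2, e1, r1, r2]
  have p5 := mul_le_mul_of_nonneg_left p4 hx
  norm_num at p1 p2 p3 p5 ⊢
  nlinarith only [hx, p1, p2, p3, p5]

theorem B1_pos2 (h : P.Star) {x c : ℝ} (hx : 0.3 ≤ x) (hx1 : x ≤ 1) (hc : P.io c = P.q (P.e0 + x)) :
    (∫ y in (0:ℝ)..c, w y * (P.mb (y + P.e0) - P.mb (y + (P.e0 + x))))
      + (∫ y in c..(P.ρ - P.e0), w y * P.mb (y + P.e0)) ≤ 1.45 * x := by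
  have e1 := h.e_lo
  have e2 := h.e_hi
  have r1 := h.ρ_lo
  have r2 := h.ρ_hi
  obtain ⟨y1, y2, l1, l2⟩ := Y_pos h
  have hx0 : 0 ≤ x := by linarith only [hx, r1, r2]
  obtain ⟨c1, c2, c3, c4, -⟩ := cdata h (x := x) (by linarith only [hx, e1, r1, r2]) (by linarith) hc
  have hcT := c4 hx0
  have hL : 0 < P.L := by linarith only [r1, r2, l1]
  obtain ⟨v1, v2, v3, v4⟩ := io_val h
  have h4 : 0 < P.L * (P.L + x) := mul_pos (by linarith only [r1, r2, l1]) (by linarith only [hx, r1, r2, l1])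
  have h2 := q_sub h (x := x) (by linarith only [hx, e1, r1, r2])
  rcases le_total x 0.5 with hx5 | hx5
  · have hc36 : 1.36 ≤ c := by
      refine c_ge h (by norm_num) c1 hc (v2.trans ?_)
      rw [q_val h hx0, le_div_iff₀ (by linarith only [hx, r1, r2, l1])]
      linarith only [r1, r2, l2, hx5]
    have hc43 : c ≤ 1.43 := by
      refine c_le h (by norm_num) hc (le_trans ?_ v3)
      rw [q_val h hx0, div_le_iff₀ (by linarith only [hx, r1, r2, l1])]
      linarith only [hx, r1, r2, l1]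
    have p1 := first_le h (x := x) (b := 1.43) (c := c) hx0 (by linarith only [r1, r2, hc36]) hc43 (by norm_num)
      (by linarith only [r1, r2, y1, c3, hc36])
    have p2 := second_le h (c := c) (S := 0.603) hcT
      (fun y hy1 hy2 => wmb_up h (by linarith only [hc36, hy1]) hy2)
    have p3 : 0.3965 * (P.ρ - P.e0 - c) ≤ x * 0.1265 := by
      have h1 := io_incr h (s := 0.3965) hcT (slope_lb h hc36 (by
        unfold PD
        norm_num))
      rw [hc, io_T h] at h1
      have h3 : x / (P.L * (P.L + x)) ≤ x * 0.1265 := by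
        rw [div_le_iff₀ h4]
        have h5 : 1 ≤ 0.1265 * (P.L * (P.L + x)) := by nlinarith only [hx, l1, r1, r2]
        nlinarith only [h5, hx]
      linarith only [h2, h1, h3]
    norm_num at p1 p2 p3 ⊢
    nlinarith only [hx, r1, r2, p1, p2, p3]
  · have hc40 : c ≤ 1.4 := by
      refine c_le h (by norm_num) hc (le_trans ?_ v4)
      rw [q_val h hx0, div_le_iff₀ (by linarith only [r1, r2, l1, hx5])]
      linarith only [r1, r2, l1, hx5]
    have p1 := first_le h (x := x) (b := 1.4) (c := c) hx0 (by linarith only [r1, r2, c1]) hc40 le_rfl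
      (by linarith only [hx1, e2, r1, r2, y1])
    have p2 := second_le h (c := c) (S := 0.7) hcT
      (fun y hy1 hy2 => wmb_up2 h (by linarith only [c1, hy1]) hy2)
    have p3 : 0.38 * (P.ρ - P.e0 - c) ≤ x * 0.1186 := by
      have h1 := io_incr h (s := 0.38) hcT (io_slope h c1).1
      rw [hc, io_T h] at h1
      have h3 : x / (P.L * (P.L + x)) ≤ x * 0.1186 := by
        rw [div_le_iff₀ h4]
        have h5 : 1 ≤ 0.1186 * (P.L * (P.L + x)) := by nlinarith only [hx5, hx, l1, r1, r2]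
        nlinarith only [h5, hx]
      linarith only [h2, h1, h3]
    norm_num at p1 p2 p3 ⊢
    nlinarith only [r1, r2, hx5, p1, p2, p3]

end Pool.Agent.CDk.Par
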