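import Pool.Agent.CDk.CX
import Pool.Agent.CDk.Defs
import Pool.Agent.CDk.ENC
import Pool.Agent.CDk.FNa

open MeasureTheory Set Filter Topology

namespace Pool.Agent.CDk.Par
variable {P : Par}

/-! ### the functions `I`, `D`, `io` -/

private theorem I_cont' (h : P.Star) : Continuous P.I :=
  continuous_iff_continuousAt.2 fun y => (I_deriv h y).continuousAt

private theorem D_nonneg' (h : P.Star) (y : ℝ) : 0 ≤ P.D y := by
  rcases le_total y 0 with h0 | h0
  · rw [D_zero h h0]
  · rw [← D_zero h (le_refl (0 : ℝ))]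
    exact D_mono h h0

private theorem I_mono' (h : P.Star) : Monotone P.I :=
  monotone_of_deriv_nonneg (fun y => (I_deriv h y).differentiableAt)
    (fun y => by rw [(I_deriv h y).deriv]; exact D_nonneg' h y)

private theorem I_nonneg' (h : P.Star) (y : ℝ) : 0 ≤ P.I y := by
  rcases le_total y 0 with h0 | h0
  · rw [I_zero h h0]
  · rw [← I_zero h (le_refl (0 : ℝ))]
    exact I_mono' h h0

private theorem D_le (h : P.Star) {y : ℝ} (hy : 0 ≤ y) : P.D y ≤ y := by
  rw [D_fix h hy]
  have hc : Continuous fun v => max (1 - P.I (v - P.e0)) 0 := by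
    have := I_cont' h
    fun_prop
  calc ∫ v in (0:ℝ)..y, max (1 - P.I (v - P.e0)) 0 ≤ ∫ _v in (0:ℝ)..y, (1:ℝ) := by
        refine intervalIntegral.integral_mono_on hy (hc.intervalIntegrable _ _)
          ((continuous_const : Continuous fun _ : ℝ => (1:ℝ)).intervalIntegrable _ _)
          fun v _ => ?_
        exact max_le (by linarith [I_nonneg' h (v - P.e0)]) zero_le_one
    _ = y := by simp

private theorem I_le (h : P.Star) {y : ℝ} (hy : 0 ≤ y) : P.I y ≤ y ^ 2 / 2 := by
  have hd : ∀ z, HasDerivAt (fun y => y ^ 2 / 2 - P.I y) (z - P.D z) z := fun z => by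
    have h1 := ((hasDerivAt_pow 2 z).div_const 2).sub (I_deriv h z)
    have h2 : ((2 : ℕ) : ℝ) * z ^ (2 - 1) / 2 - P.D z = z - P.D z := by
      norm_num
    rw [h2] at h1
    exact h1
  have hmono : MonotoneOn (fun y => y ^ 2 / 2 - P.I y) (Icc 0 y) := by
    refine monotoneOn_of_deriv_nonneg (convex_Icc _ _)
      (fun z _ => (hd z).continuousAt.continuousWithinAt)
      (fun z _ => (hd z).differentiableAt.differentiableWithinAt) fun z hz => ?_
    rw [interior_Icc] at hz
    rw [(hd z).deriv, sub_nonneg]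
    exact D_le h hz.1.le
  have := hmono (left_mem_Icc.2 hy) (right_mem_Icc.2 hy) hy
  simp only [I_zero h (le_refl (0:ℝ))] at this
  linarith

private theorem D_ge (h : P.Star) {y : ℝ} (hy : 0 ≤ y) : y - y ^ 3 / 6 ≤ P.D y := by
  rw [D_fix h hy]
  have e1 := h.e_lo
  have hc : Continuous fun v => max (1 - P.I (v - P.e0)) 0 := by
    have := I_cont' h
    fun_prop
  have h1 : ∀ v ∈ uIcc 0 y, HasDerivAt (fun v : ℝ => v - v ^ 3 / 6) (1 - v ^ 2 / 2) v := by
    intro v _
    have h2 := (hasDerivAt_id v).sub ((hasDerivAt_pow 3 v).div_const 6)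
    have h3 : 1 - ((3 : ℕ) : ℝ) * v ^ (3 - 1) / 6 = 1 - v ^ 2 / 2 := by
      norm_num
      ring
    rw [h3] at h2
    exact h2
  have h4 := intervalIntegral.integral_eq_sub_of_hasDerivAt h1
    ((by fun_prop : Continuous fun v : ℝ => 1 - v ^ 2 / 2).intervalIntegrable _ _)
  have h5 : ∫ v in (0:ℝ)..y, (1 - v ^ 2 / 2) ≤ ∫ v in (0:ℝ)..y, max (1 - P.I (v - P.e0)) 0 := by
    refine intervalIntegral.integral_mono_on hy
      ((by fun_prop : Continuous fun v : ℝ => 1 - v ^ 2 / 2).intervalIntegrable _ _)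
      (hc.intervalIntegrable _ _) fun v hv => ?_
    refine le_trans ?_ (le_max_left _ _)
    have h6 : P.I (v - P.e0) ≤ P.I v := I_mono' h (by linarith)
    have h7 := I_le h hv.1
    linarith only [h6, h7]
  rw [h4] at h5
  linarith only [h5]

private theorem I_ge (h : P.Star) {y : ℝ} (hy : 0 ≤ y) : y ^ 2 / 2 - y ^ 4 / 24 ≤ P.I y := by
  have hd : ∀ z, HasDerivAt (fun y => P.I y - (y ^ 2 / 2 - y ^ 4 / 24))
      (P.D z - (z - z ^ 3 / 6)) z := fun z => by
    have h1 := (I_deriv h z).sub (((hasDerivAt_pow 2 z).div_const 2).sub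
      ((hasDerivAt_pow 4 z).div_const 24))
    have h2 : P.D z - (((2 : ℕ) : ℝ) * z ^ (2 - 1) / 2 - ((4 : ℕ) : ℝ) * z ^ (4 - 1) / 24) =
        P.D z - (z - z ^ 3 / 6) := by
      norm_num
      ring
    rw [h2] at h1
    exact h1
  have hmono : MonotoneOn (fun y => P.I y - (y ^ 2 / 2 - y ^ 4 / 24)) (Icc 0 y) := by
    refine monotoneOn_of_deriv_nonneg (convex_Icc _ _)
      (fun z _ => (hd z).continuousAt.continuousWithinAt)
      (fun z _ => (hd z).differentiableAt.differentiableWithinAt) fun z hz => ?_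
    rw [interior_Icc] at hz
    rw [(hd z).deriv, sub_nonneg]
    exact D_ge h hz.1.le
  have := hmono (left_mem_Icc.2 hy) (right_mem_Icc.2 hy) hy
  simp only [I_zero h (le_refl (0:ℝ))] at this
  norm_num at this
  linarith

/-- tangents from below -/
private theorem io_tan (h : P.Star) (a r : ℝ) : P.io a + P.D a / P.L * (r - a) ≤ P.io r := by
  obtain ⟨-, -, l1, l2⟩ := Y_pos h
  have hL : 0 < P.L := by linarith
  have hd : ∀ z, HasDerivAt (fun y => P.io y - P.D a / P.L * y) (P.D z / P.L - P.D a / P.L) z :=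
    fun z => by
      have h1 := ((I_deriv h z).div_const P.L).sub ((hasDerivAt_id z).const_mul (P.D a / P.L))
      rw [mul_one] at h1
      exact h1
  rcases le_total a r with har | har
  · have hmono : MonotoneOn (fun y => P.io y - P.D a / P.L * y) (Icc a r) := by
      refine monotoneOn_of_deriv_nonneg (convex_Icc _ _)
        (fun z _ => (hd z).continuousAt.continuousWithinAt)
        (fun z _ => (hd z).differentiableAt.differentiableWithinAt) fun z hz => ?_
      rw [interior_Icc] at hz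
      rw [(hd z).deriv, sub_nonneg]
      exact div_le_div_of_nonneg_right (D_mono h hz.1.le) hL.le
    have := hmono (left_mem_Icc.2 har) (right_mem_Icc.2 har) har
    simp only at this
    linarith
  · have hmono : AntitoneOn (fun y => P.io y - P.D a / P.L * y) (Icc r a) := by
      refine antitoneOn_of_deriv_nonpos (convex_Icc _ _)
        (fun z _ => (hd z).continuousAt.continuousWithinAt)
        (fun z _ => (hd z).differentiableAt.differentiableWithinAt) fun z hz => ?_
      rw [interior_Icc] at hz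
      rw [(hd z).deriv, sub_nonpos]
      exact div_le_div_of_nonneg_right (D_mono h hz.2.le) hL.le
    have := hmono (left_mem_Icc.2 har) (right_mem_Icc.2 har) har
    simp only at this
    linarith

/-- chords from above -/
private theorem io_up (h : P.Star) {s a b : ℝ} (hab : a ≤ b)
    (hs : ∀ y, a ≤ y → y ≤ b → P.D y / P.L ≤ s) : P.io b - P.io a ≤ s * (b - a) := by
  have hd : ∀ z, HasDerivAt (fun y => P.io y - s * y) (P.D z / P.L - s) z := fun z => by
    have h1 := ((I_deriv h z).div_const P.L).sub ((hasDerivAt_id z).const_mul s)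
    rw [mul_one] at h1
    exact h1
  have hmono : AntitoneOn (fun y => P.io y - s * y) (Icc a b) := by
    refine antitoneOn_of_deriv_nonpos (convex_Icc _ _)
      (fun z _ => (hd z).continuousAt.continuousWithinAt)
      (fun z _ => (hd z).differentiableAt.differentiableWithinAt) fun z hz => ?_
    rw [interior_Icc] at hz
    rw [(hd z).deriv, sub_nonpos]
    exact hs z hz.1.le hz.2.le
  have := hmono (left_mem_Icc.2 hab) (right_mem_Icc.2 hab) hab
  simp only at this
  linarith

private theorem io_low (h : P.Star) {s a b : ℝ} (hab : a ≤ b)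
    (hs : ∀ y, a ≤ y → y ≤ b → s ≤ P.D y / P.L) : s * (b - a) ≤ P.io b - P.io a := by
  have hd : ∀ z, HasDerivAt (fun y => P.io y - s * y) (P.D z / P.L - s) z := fun z => by
    have h1 := ((I_deriv h z).div_const P.L).sub ((hasDerivAt_id z).const_mul s)
    rw [mul_one] at h1
    exact h1
  have hmono : MonotoneOn (fun y => P.io y - s * y) (Icc a b) := by
    refine monotoneOn_of_deriv_nonneg (convex_Icc _ _)
      (fun z _ => (hd z).continuousAt.continuousWithinAt)
      (fun z _ => (hd z).differentiableAt.differentiableWithinAt) fun z hz => ?_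
    rw [interior_Icc] at hz
    rw [(hd z).deriv, sub_nonneg]
    exact hs z hz.1.le hz.2.le
  have := hmono (left_mem_Icc.2 hab) (right_mem_Icc.2 hab) hab
  simp only at this
  linarith

private theorem io_vals (h : P.Star) : 0.15877 ≤ P.io 0.94 ∧ 0.27595 ≤ P.io 1.27 ∧
    0.32712 ≤ P.io 1.4 ∧ P.io 1.4 ≤ 0.32715 := by
  have r1 := h.ρ_lo
  obtain ⟨y1, y2, l1, l2⟩ := Y_pos h
  have hL : 0 < P.L := by linarith only [l1, l2]
  have a1 := (abs_le.1 (I_app h (y := 0.94) (by norm_num) (by linarith only [r1, l1, l2]))).1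
  have a2 := (abs_le.1 (I_app h (y := 1.27) (by norm_num) (by linarith only [r1, l1, l2]))).1
  have a3 := abs_le.1 (I_app h (y := 1.4) (by norm_num) (by linarith only [r1, l1, l2]))
  unfold PI at a1 a2 a3
  norm_num at a1 a2 a3
  unfold io
  refine ⟨?_, ?_, ?_, ?_⟩
  · rw [le_div_iff₀ hL]
    linarith only [l1, l2, a1]
  · rw [le_div_iff₀ hL]
    linarith only [l1, l2, a2]
  · rw [le_div_iff₀ hL]
    linarith only [a3.1, l1, l2, a3]
  · rw [div_le_iff₀ hL]
    linarith only [a3.2, l1, l2, a3]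

private theorem D_vals (h : P.Star) : 0.3188 ≤ P.D 0.94 / P.L ∧ P.D 0.94 / P.L ≤ 0.319 ∧
    0.3851 ≤ P.D 1.27 / P.L ∧ P.D 1.27 / P.L ≤ 0.3855 ∧ 0.4008 ≤ P.D 1.4 / P.L := by
  have r1 := h.ρ_lo
  obtain ⟨y1, y2, l1, l2⟩ := Y_pos h
  have hL : 0 < P.L := by linarith only [l1, l2]
  have a1 := abs_le.1 (D_app h (y := 0.94) (by norm_num) (by linarith only [r1, l1, l2]))
  have a2 := abs_le.1 (D_app h (y := 1.27) (by norm_num) (by linarith only [r1, l1, l2]))
  have a3 := abs_le.1 (D_app h (y := 1.4) (by norm_num) (by linarith only [r1, l1, l2]))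
  unfold PD at a1 a2 a3
  norm_num at a1 a2 a3
  refine ⟨?_, ?_, ?_, ?_, ?_⟩
  · rw [le_div_iff₀ hL]
    linarith only [a1.1, l1, l2, a1]
  · rw [div_le_iff₀ hL]
    linarith only [a1.2, l1, l2, a1]
  · rw [le_div_iff₀ hL]
    linarith only [a2.1, l1, l2, a2]
  · rw [div_le_iff₀ hL]
    linarith only [a2.2, l1, l2, a2]
  · rw [le_div_iff₀ hL]
    linarith only [a3.1, l1, l2, a3]

/-! ### the weight -/

private theorem w_nonneg' (y : ℝ) : 0 ≤ w y := by
  unfold w
  have : 0 ≤ min (3 * y ^ 2) 1 := le_min (by positivity) zero_le_one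
  have : 0 ≤ max (y - 1.4) 0 := le_max_right _ _
  linarith

private theorem w_small {y : ℝ} (h0 : 0 ≤ y) (hy : y ≤ 0.577) : w y = 3 * y ^ 2 := by
  unfold w
  rw [max_eq_right (by linarith : y - 1.4 ≤ 0), min_eq_left (by nlinarith only [hy, h0])]
  ring

private theorem w_mid {y : ℝ} (h0 : 0.577 ≤ y) : 0.9987 ≤ w y := by
  unfold w
  have h1 : 0.9987 ≤ min (3 * y ^ 2) 1 := le_min (by nlinarith only [h0]) (by norm_num)
  have : 0 ≤ max (y - 1.4) 0 := le_max_right _ _
  linarith only [h1, this]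

private theorem w_one {y : ℝ} (h0 : 1 ≤ y) : 1 ≤ w y := by
  unfold w
  have h1 : 1 ≤ min (3 * y ^ 2) 1 := le_min (by nlinarith) le_rfl
  have : 0 ≤ max (y - 1.4) 0 := le_max_right _ _
  linarith only [h1, this]

private theorem w_big {y : ℝ} (h0 : 1.4 ≤ y) : w y = 1 + 4 * (y - 1.4) := by
  unfold w
  rw [max_eq_left (by linarith : 0 ≤ y - 1.4), min_eq_right (by nlinarith only [h0])]

/-! ### the functionals -/

private structure GG (P : Par) (G : ℝ → ℝ) (q : ℝ) : Prop where
  cont : Continuous G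
  nonneg : ∀ v, 0 ≤ G v
  le : ∀ v, G v ≤ q
  eq : ∀ v, v ≤ 0.7218 → G v = q
  anti : Antitone G
  pos : 0 < q

private noncomputable def NG (P : Par) (G : ℝ → ℝ) (q : ℝ) : ℝ :=
  P.sg * q + ∫ v in (0:ℝ)..P.Y, (P.Y - v) ^ 2 / 2 * G v

private noncomputable def FG (P : Par) (G : ℝ → ℝ) (r : ℝ) : ℝ :=
  ∫ v in (0:ℝ)..P.Y, max (r - v) 0 * G v

private theorem sq_int (Y a b : ℝ) :
    ∫ v in a..b, (Y - v) ^ 2 / 2 = ((Y - a) ^ 3 - (Y - b) ^ 3) / 6 := by
  have h4 : ∀ v ∈ uIcc a b, HasDerivAt (fun v => -(Y - v) ^ 3 / 6) ((Y - v) ^ 2 / 2) v := by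
    intro v _
    have h5 : HasDerivAt (fun v => Y - v) (-1) v := by
      simpa using (hasDerivAt_id v).const_sub Y
    have h6 := ((h5.pow 3).neg).div_const 6
    have h7 : -(((3 : ℕ) : ℝ) * (Y - v) ^ (3 - 1) * (-1)) / 6 = (Y - v) ^ 2 / 2 := by
      norm_num
      ring
    rw [h7] at h6
    exact h6
  rw [intervalIntegral.integral_eq_sub_of_hasDerivAt h4
    ((by fun_prop : Continuous fun v => (Y - v) ^ 2 / 2).intervalIntegrable _ _)]
  ring

private theorem lin_int (r a b : ℝ) :
    ∫ v in a..b, (r - v) = ((r - a) ^ 2 - (r - b) ^ 2) / 2 := by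
  have h4 : ∀ v ∈ uIcc a b, HasDerivAt (fun v => -(r - v) ^ 2 / 2) (r - v) v := by
    intro v _
    have h5 : HasDerivAt (fun v => r - v) (-1) v := by
      simpa using (hasDerivAt_id v).const_sub r
    have h6 := ((h5.pow 2).neg).div_const 2
    have h7 : -(((2 : ℕ) : ℝ) * (r - v) ^ (2 - 1) * (-1)) / 2 = r - v := by
      norm_num
    rw [h7] at h6
    exact h6
  rw [intervalIntegral.integral_eq_sub_of_hasDerivAt h4
    ((by fun_prop : Continuous fun v => r - v).intervalIntegrable _ _)]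
  ring

private theorem max_int {r b : ℝ} (h0 : 0 ≤ r) (hrb : r ≤ b) :
    ∫ v in (0:ℝ)..b, max (r - v) 0 = r ^ 2 / 2 := by
  have hc : Continuous fun v : ℝ => max (r - v) 0 := by fun_prop
  rw [← intervalIntegral.integral_add_adjacent_intervals (hc.intervalIntegrable 0 r)
    (hc.intervalIntegrable r b)]
  have h1 : ∫ v in (0:ℝ)..r, max (r - v) 0 = ∫ v in (0:ℝ)..r, (r - v) := by
    refine intervalIntegral.integral_congr fun v hv => ?_
    rw [uIcc_of_le h0] at hv
    exact max_eq_left (by linarith [hv.2])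
  have h2 : ∫ v in r..b, max (r - v) 0 = ∫ _v in r..b, (0:ℝ) := by
    refine intervalIntegral.integral_congr fun v hv => ?_
    rw [uIcc_of_le hrb] at hv
    exact max_eq_right (by linarith [hv.1])
  rw [h1, h2, lin_int, intervalIntegral.integral_zero]
  ring

private theorem max_int2 {r b : ℝ} (h0 : 0 ≤ b) (hrb : b ≤ r) :
    ∫ v in (0:ℝ)..b, max (r - v) 0 = r * b - b ^ 2 / 2 := by
  have h1 : ∫ v in (0:ℝ)..b, max (r - v) 0 = ∫ v in (0:ℝ)..b, (r - v) := by
    refine intervalIntegral.integral_congr fun v hv => ?_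
    rw [uIcc_of_le h0] at hv
    exact max_eq_left (by linarith [hv.2])
  rw [h1, lin_int]
  ring

variable {G : ℝ → ℝ} {q : ℝ}

private theorem FG_nonneg (h : P.Star) (hG : GG P G q) (r : ℝ) : 0 ≤ FG P G r := by
  obtain ⟨y1, -, -, -⟩ := Y_pos h
  exact intervalIntegral.integral_nonneg (by linarith) fun v _ =>
    mul_nonneg (le_max_right _ _) (hG.nonneg v)

private theorem NG_pos (h : P.Star) (hG : GG P G q) : 0 < NG P G q := by
  obtain ⟨y1, -, -, -⟩ := Y_pos h
  have h1 : 0 ≤ ∫ v in (0:ℝ)..P.Y, (P.Y - v) ^ 2 / 2 * G v :=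
    intervalIntegral.integral_nonneg (by linarith) fun v _ =>
      mul_nonneg (by positivity) (hG.nonneg v)
  have h2 : 0 < P.sg * q := mul_pos (by linarith only [(sg_bd h).1, h]) hG.pos
  unfold NG
  linarith

/-- difference of the functionals -/
private theorem diff_eq (hG : GG P G q) (c r : ℝ) :
    c * NG P G q - FG P G r = c * P.sg * q + ∫ v in (0:ℝ)..P.Y,
      (c * ((P.Y - v) ^ 2 / 2) - max (r - v) 0) * G v := by
  have hc := hG.cont
  have h1 : (fun v => (c * ((P.Y - v) ^ 2 / 2) - max (r - v) 0) * G v) = fun v =>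
      c * ((P.Y - v) ^ 2 / 2 * G v) - max (r - v) 0 * G v := by
    funext v
    ring
  rw [h1, intervalIntegral.integral_sub
    ((by fun_prop : Continuous fun v => c * ((P.Y - v) ^ 2 / 2 * G v)).intervalIntegrable _ _)
    ((by fun_prop : Continuous fun v => max (r - v) 0 * G v).intervalIntegrable _ _),
    intervalIntegral.integral_const_mul]
  unfold NG FG
  ring

private theorem kap_int (c r a b : ℝ) :
    ∫ v in a..b, (c * ((P.Y - v) ^ 2 / 2) - max (r - v) 0) =
      c * (((P.Y - a) ^ 3 - (P.Y - b) ^ 3) / 6) - ∫ v in a..b, max (r - v) 0 := by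
  rw [intervalIntegral.integral_sub
    ((by fun_prop : Continuous fun v => c * ((P.Y - v) ^ 2 / 2)).intervalIntegrable _ _)
    ((by fun_prop : Continuous fun v => max (r - v) 0).intervalIntegrable _ _),
    intervalIntegral.integral_const_mul, sq_int]

/-- the part up to `0.7218` -/
private theorem split_eq (hG : GG P G q) (c r : ℝ) :
    c * NG P G q - FG P G r = q * (c * (P.sg + (P.Y ^ 3 - (P.Y - 0.7218) ^ 3) / 6) -
      ∫ v in (0:ℝ)..0.7218, max (r - v) 0) + ∫ v in (0.7218:ℝ)..P.Y,
      (c * ((P.Y - v) ^ 2 / 2) - max (r - v) 0) * G v := by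
  have hc := hG.cont
  have hcc : Continuous fun v => (c * ((P.Y - v) ^ 2 / 2) - max (r - v) 0) * G v := by fun_prop
  rw [diff_eq hG, ← intervalIntegral.integral_add_adjacent_intervals
    (hcc.intervalIntegrable 0 0.7218) (hcc.intervalIntegrable 0.7218 P.Y)]
  have h1 : (∫ v in (0:ℝ)..0.7218, (c * ((P.Y - v) ^ 2 / 2) - max (r - v) 0) * G v) =
      ∫ v in (0:ℝ)..0.7218, (c * ((P.Y - v) ^ 2 / 2) - max (r - v) 0) * q := by
    refine intervalIntegral.integral_congr fun v hv => ?_
    rw [uIcc_of_le (by norm_num)] at hv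
    show (c * ((P.Y - v) ^ 2 / 2) - max (r - v) 0) * G v =
      (c * ((P.Y - v) ^ 2 / 2) - max (r - v) 0) * q
    rw [hG.eq v hv.2]
  rw [h1, intervalIntegral.integral_mul_const, kap_int, sub_zero]
  ring

private theorem S1_bd (h : P.Star) : 2.2572 ≤ P.sg + (P.Y ^ 3 - (P.Y - 0.7218) ^ 3) / 6 ∧
    P.sg + (P.Y ^ 3 - (P.Y - 0.7218) ^ 3) / 6 ≤ 2.2574 := by
  obtain ⟨y1, y2, -, -⟩ := Y_pos h
  obtain ⟨g1, g2⟩ := sg_bd h
  have h1 : P.Y ^ 3 - (P.Y - 0.7218) ^ 3 =
      3 * 0.7218 * P.Y ^ 2 - 3 * 0.7218 ^ 2 * P.Y + 0.7218 ^ 3 := by ring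
  rw [h1]
  have h2 : 2.543961 ^ 2 ≤ P.Y ^ 2 := pow_le_pow_left₀ (by norm_num) y1.le 2
  have h3 : P.Y ^ 2 ≤ 2.543965 ^ 2 := pow_le_pow_left₀ (by linarith only [y1, g1, g2]) y2.le 2
  norm_num at h2 h3 ⊢
  constructor <;> linarith

private theorem S2_bd (h : P.Star) : 3.2656 ≤ P.sg + P.Y ^ 3 / 6 ∧
    P.sg + P.Y ^ 3 / 6 ≤ 3.26568 := by
  obtain ⟨y1, y2, -, -⟩ := Y_pos h
  obtain ⟨g1, g2⟩ := sg_bd h
  have h2 : 2.543961 ^ 3 ≤ P.Y ^ 3 := pow_le_pow_left₀ (by norm_num) y1.le 3
  have h3 : P.Y ^ 3 ≤ 2.543965 ^ 3 := pow_le_pow_left₀ (by linarith only [y1, g1, g2]) y2.le 3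
  norm_num at h2 h3 ⊢
  constructor <;> linarith

/-! ### upper bounds of `FG` -/

/-- if the kernel is nonnegative beyond `0.7218` -/
private theorem U_pos (h : P.Star) (hG : GG P G q) {b r : ℝ} (hb : 0 ≤ b) (hr : 0.7218 ≤ r)
    (h1 : r - 0.7218 ≤ b * 1.66013) (h2 : b ≤ 0.5)
    (h3 : r * 0.7218 - 0.7218 ^ 2 / 2 ≤ b * 2.2572) : FG P G r ≤ b * NG P G q := by
  obtain ⟨y1, y2, -, -⟩ := Y_pos h
  have e := split_eq hG b r
  have s := (S1_bd h).1
  rw [max_int2 (by norm_num) hr] at e
  have k : 0 ≤ ∫ v in (0.7218:ℝ)..P.Y, (b * ((P.Y - v) ^ 2 / 2) - max (r - v) 0) * G v := by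
    refine intervalIntegral.integral_nonneg (by linarith only [y1, y2]) fun v hv => ?_
    refine mul_nonneg ?_ (hG.nonneg v)
    have hv1 := hv.1
    have hv2 := hv.2
    have hb2 : 0 ≤ b * ((P.Y - v) ^ 2 / 2) := by positivity
    rcases le_total r v with hrv | hrv
    · rw [max_eq_right (by linarith only [hrv])]
      linarith only [hb2]
    · rw [max_eq_left (by linarith only [hrv])]
      -- compare with `v = 0.7218`
      have k1 : 1.66013 ≤ (P.Y - 0.7218) ^ 2 / 2 := by nlinarith only [y1, y2]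
      have k2 : b * 1.66013 ≤ b * ((P.Y - 0.7218) ^ 2 / 2) := mul_le_mul_of_nonneg_left k1 hb
      have k3 : b * ((P.Y - 0.7218) ^ 2 / 2) - b * ((P.Y - v) ^ 2 / 2) =
          (v - 0.7218) * (b * ((P.Y - 0.7218) + (P.Y - v)) / 2) := by ring
      have k4 : b * ((P.Y - 0.7218) + (P.Y - v)) / 2 ≤ 1 := by
        have : (P.Y - 0.7218) + (P.Y - v) ≤ 3.7 := by linarith only [y1, y2, hv1]
        nlinarith only [h2, y1, y2, hb, hv1]
      have k5 := mul_le_mul_of_nonneg_left k4 (by linarith only [hv1] : 0 ≤ v - 0.7218)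
      linarith only [h1, k2, k5]
  have k2 : 0 ≤ q * (b * (P.sg + (P.Y ^ 3 - (P.Y - 0.7218) ^ 3) / 6) -
      (r * 0.7218 - 0.7218 ^ 2 / 2)) := by
    refine mul_nonneg hG.pos.le ?_
    have := mul_le_mul_of_nonneg_left s hb
    linarith only [h3, this]
  linarith only [e, k, k2]

private theorem U_14 (h : P.Star) (hG : GG P G q) : FG P G 1.4 ≤ 0.356 * NG P G q := by
  obtain ⟨y1, y2, -, -⟩ := Y_pos h
  have e := split_eq hG 0.356 1.4
  have s := (S1_bd h).1
  rw [max_int2 (by norm_num) (by norm_num)] at e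
  have hc := hG.cont
  have hcc : Continuous fun v => (0.356 * ((P.Y - v) ^ 2 / 2) - max (1.4 - v) 0) * G v := by
    fun_prop
  rw [← intervalIntegral.integral_add_adjacent_intervals
    (hcc.intervalIntegrable 0.7218 0.95) (hcc.intervalIntegrable 0.95 P.Y)] at e
  have k1 : -0.0875 * q * (0.95 - 0.7218) ≤ ∫ v in (0.7218:ℝ)..0.95,
      (0.356 * ((P.Y - v) ^ 2 / 2) - max (1.4 - v) 0) * G v := by
    have h2 : ∫ _v in (0.7218:ℝ)..0.95, (-0.0875 * q : ℝ) = -0.0875 * q * (0.95 - 0.7218) := by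
      rw [intervalIntegral.integral_const, smul_eq_mul]
      ring
    rw [← h2]
    refine intervalIntegral.integral_mono_on (by norm_num)
      ((continuous_const : Continuous fun _ : ℝ => (-0.0875 * q : ℝ)).intervalIntegrable _ _)
      (hcc.intervalIntegrable _ _) fun v hv => ?_
    have hv1 := hv.1
    have hv2 := hv.2
    rw [max_eq_left (by linarith only [y1, y2, hv2])]
    have k2 : -0.0875 ≤ 0.356 * ((P.Y - v) ^ 2 / 2) - (1.4 - v) := by nlinarith only [hv1, y1, y2, hv2]
    have g1 := hG.nonneg v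
    have g2 := hG.le v
    rcases le_total 0 (0.356 * ((P.Y - v) ^ 2 / 2) - (1.4 - v)) with hp | hp
    · have := mul_nonneg hp g1
      have := hG.pos
      nlinarith
    · nlinarith only [g2, y1, y2, k2, g1]
  have k2 : 0 ≤ ∫ v in (0.95:ℝ)..P.Y, (0.356 * ((P.Y - v) ^ 2 / 2) - max (1.4 - v) 0) * G v := by
    refine intervalIntegral.integral_nonneg (by linarith only [y1, y2]) fun v hv => ?_
    refine mul_nonneg ?_ (hG.nonneg v)
    have hv1 := hv.1
    have hv2 := hv.2
    rcases le_total 1.4 v with hrv | hrv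
    · rw [max_eq_right (by linarith only [hrv])]
      nlinarith only [sq_nonneg (P.Y - v)]
    · rw [max_eq_left (by linarith only [hrv])]
      nlinarith only [hv1, y1, y2, hv2]
  have k3 : q * 0.053 ≤ q * (0.356 * (P.sg + (P.Y ^ 3 - (P.Y - 0.7218) ^ 3) / 6) -
      (1.4 * 0.7218 - 0.7218 ^ 2 / 2)) := by
    refine mul_le_mul_of_nonneg_left ?_ hG.pos.le
    norm_num
    linarith only [y1, y2, s]
  have := hG.pos
  norm_num at k1
  linarith only [e, k2, k3, this, k1]

private theorem U_22 (h : P.Star) (hG : GG P G q) : FG P G 2.2 ≤ 0.773 * NG P G q := by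
  obtain ⟨y1, y2, -, -⟩ := Y_pos h
  have e := split_eq hG 0.773 2.2
  have s := (S1_bd h).1
  rw [max_int2 (by norm_num) (by norm_num)] at e
  have hc := hG.cont
  have hcc : Continuous fun v => (0.773 * ((P.Y - v) ^ 2 / 2) - max (2.2 - v) 0) * G v := by
    fun_prop
  rw [← intervalIntegral.integral_add_adjacent_intervals
    (hcc.intervalIntegrable 0.7218 2.1338) (hcc.intervalIntegrable 2.1338 P.Y)] at e
  have k1 : (∫ v in (0.7218:ℝ)..2.1338, (0.773 * ((P.Y - v) ^ 2 / 2) - max (2.2 - v) 0)) * q ≤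
      ∫ v in (0.7218:ℝ)..2.1338, (0.773 * ((P.Y - v) ^ 2 / 2) - max (2.2 - v) 0) * G v := by
    rw [← intervalIntegral.integral_mul_const]
    refine intervalIntegral.integral_mono_on (by norm_num)
      ((by fun_prop : Continuous fun v =>
        (0.773 * ((P.Y - v) ^ 2 / 2) - max (2.2 - v) 0) * q).intervalIntegrable _ _)
      (hcc.intervalIntegrable _ _) fun v hv => ?_
    have hv1 := hv.1
    have hv2 := hv.2
    rw [max_eq_left (by linarith only [y1, y2, hv2])]
    have k2 : 0.773 * ((P.Y - v) ^ 2 / 2) - (2.2 - v) ≤ 0 := by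
      have a1 : 0 ≤ v - 0.7218 := by linarith only [hv1]
      have a2 : 0 ≤ 2.1338 - v := by linarith only [hv2]
      nlinarith only [mul_nonneg a1 a2, y2, hv2, a1, a2, y1, hv1]
    exact mul_le_mul_of_nonpos_left (hG.le v) k2
  have k2 : (P.Y - 2.1338) * (-0.0013 * q) ≤ ∫ v in (2.1338:ℝ)..P.Y,
      (0.773 * ((P.Y - v) ^ 2 / 2) - max (2.2 - v) 0) * G v := by
    have h2 : ∫ _v in (2.1338:ℝ)..P.Y, (-0.0013 * q : ℝ) = (P.Y - 2.1338) * (-0.0013 * q) := by
      rw [intervalIntegral.integral_const, smul_eq_mul]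
    rw [← h2]
    refine intervalIntegral.integral_mono_on (by linarith only [y1, y2])
      ((continuous_const : Continuous fun _ : ℝ => (-0.0013 * q : ℝ)).intervalIntegrable _ _)
      (hcc.intervalIntegrable _ _) fun v hv => ?_
    have hv1 := hv.1
    have hv2 := hv.2
    have g1 := hG.nonneg v
    have g2 := hG.le v
    have g3 := hG.pos
    have k2 : -0.0013 ≤ 0.773 * ((P.Y - v) ^ 2 / 2) - max (2.2 - v) 0 := by
      rcases le_total 2.2 v with hrv | hrv
      · rw [max_eq_right (by linarith only [hrv])]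
        nlinarith only [sq_nonneg (P.Y - v), y1, y2]
      · rw [max_eq_left (by linarith only [hrv])]
        nlinarith only [hv1, y1, y2, hv2]
    rcases le_total 0 (0.773 * ((P.Y - v) ^ 2 / 2) - max (2.2 - v) 0) with hp | hp
    · have := mul_nonneg hp g1
      nlinarith only [g3, this]
    · nlinarith only [g2, y1, y2, g1, k2]
  rw [kap_int] at k1
  have k3 : ∫ v in (0.7218:ℝ)..2.1338, max (2.2 - v) 0 =
      ((2.2 - 0.7218) ^ 2 - (2.2 - 2.1338) ^ 2) / 2 := by
    have h1 : ∫ v in (0.7218:ℝ)..2.1338, max (2.2 - v) 0 = ∫ v in (0.7218:ℝ)..2.1338, (2.2 - v) := by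
      refine intervalIntegral.integral_congr fun v hv => ?_
      rw [uIcc_of_le (by norm_num)] at hv
      exact max_eq_left (by linarith only [hv.2, y1, y2, hv])
    rw [h1, lin_int]
  rw [k3] at k1
  have k4 : -0.3202 ≤ 0.773 * (((P.Y - 0.7218) ^ 3 - (P.Y - 2.1338) ^ 3) / 6) -
      ((2.2 - 0.7218) ^ 2 - (2.2 - 2.1338) ^ 2) / 2 := by
    have h1 : (P.Y - 0.7218) ^ 3 - (P.Y - 2.1338) ^ 3 =
        3 * (2.1338 - 0.7218) * P.Y ^ 2 - 3 * (2.1338 ^ 2 - 0.7218 ^ 2) * P.Y +
          (2.1338 ^ 3 - 0.7218 ^ 3) := by ring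
    rw [h1]
    have h2 : 2.543961 ^ 2 ≤ P.Y ^ 2 := pow_le_pow_left₀ (by norm_num) y1.le 2
    norm_num at h2 ⊢
    linarith only [y1, y2, h2]
  have k5 := mul_le_mul_of_nonneg_right k4 hG.pos.le
  have k6 : q * 0.4172 ≤ q * (0.773 * (P.sg + (P.Y ^ 3 - (P.Y - 0.7218) ^ 3) / 6) -
      (2.2 * 0.7218 - 0.7218 ^ 2 / 2)) := by
    refine mul_le_mul_of_nonneg_left ?_ hG.pos.le
    norm_num
    linarith only [y1, y2, s]
  have g3 := hG.pos
  have k7 : (P.Y - 2.1338) * (0.0013 * q) ≤ 0.42 * (0.0013 * q) :=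
    mul_le_mul_of_nonneg_right (by linarith only [y1, y2]) (by positivity)
  have k8 : (P.Y - 2.1338) * (-0.0013 * q) = -((P.Y - 2.1338) * (0.0013 * q)) := by ring
  rw [k8] at k2
  linarith only [e, k1, k2, k5, k6, g3, k7]

/-- convexity of `FG` in `r` -/
private theorem FG_conv (h : P.Star) (hG : GG P G q) {r1 r2 r : ℝ} (h1 : r1 ≤ r) (h2 : r ≤ r2) :
    (r2 - r1) * FG P G r ≤ (r2 - r) * FG P G r1 + (r - r1) * FG P G r2 := by
  obtain ⟨y1, y2, -, -⟩ := Y_pos h
  have hc := hG.cont
  unfold FG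
  rw [← intervalIntegral.integral_const_mul, ← intervalIntegral.integral_const_mul,
    ← intervalIntegral.integral_const_mul, ← intervalIntegral.integral_add
    ((by fun_prop : Continuous fun v => (r2 - r) * (max (r1 - v) 0 * G v)).intervalIntegrable _ _)
    ((by fun_prop : Continuous fun v => (r - r1) * (max (r2 - v) 0 * G v)).intervalIntegrable _ _)]
  refine intervalIntegral.integral_mono_on (by linarith)
    ((by fun_prop : Continuous fun v => (r2 - r1) * (max (r - v) 0 * G v)).intervalIntegrable _ _)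
    ((by fun_prop : Continuous fun v => (r2 - r) * (max (r1 - v) 0 * G v) +
      (r - r1) * (max (r2 - v) 0 * G v)).intervalIntegrable _ _) fun v _ => ?_
  have g1 := hG.nonneg v
  have key : (r2 - r1) * max (r - v) 0 ≤ (r2 - r) * max (r1 - v) 0 + (r - r1) * max (r2 - v) 0 := by
    have a1 : 0 ≤ r2 - r := by linarith
    have a2 : 0 ≤ r - r1 := by linarith
    have m1 := le_max_left (r1 - v) 0
    have m2 := le_max_left (r2 - v) 0
    have m3 := le_max_right (r1 - v) 0
    have m4 := le_max_right (r2 - v) 0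
    rcases le_total 0 (r - v) with hp | hp
    · rw [max_eq_left hp]
      have b1 := mul_le_mul_of_nonneg_left m1 a1
      have b2 := mul_le_mul_of_nonneg_left m2 a2
      nlinarith only [b1, b2]
    · rw [max_eq_right hp]
      have b1 := mul_nonneg a1 m3
      have b2 := mul_nonneg a2 m4
      linarith
  have := mul_le_mul_of_nonneg_right key g1
  linarith

private theorem FG_small (h : P.Star) (hG : GG P G q) {r : ℝ} (h0 : 0 ≤ r) (h1 : r ≤ 1) :
    FG P G r ≤ q * (r ^ 2 / 2) := by
  obtain ⟨y1, y2, -, -⟩ := Y_pos h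
  have hc := hG.cont
  rw [← max_int h0 (b := P.Y) (by linarith only [h1, y1, y2]), ← intervalIntegral.integral_const_mul]
  unfold FG
  refine intervalIntegral.integral_mono_on (by linarith)
    ((by fun_prop : Continuous fun v => max (r - v) 0 * G v).intervalIntegrable _ _)
    ((by fun_prop : Continuous fun v => q * max (r - v) 0).intervalIntegrable _ _) fun v _ => ?_
  rw [mul_comm q]
  exact mul_le_mul_of_nonneg_left (hG.le v) (le_max_right _ _)

private theorem NG_ge (h : P.Star) (hG : GG P G q) : q * 2.2572 ≤ NG P G q := by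
  obtain ⟨y1, y2, -, -⟩ := Y_pos h
  have hc := hG.cont
  have e := split_eq hG 1 0
  have s := (S1_bd h).1
  rw [max_int le_rfl (by norm_num)] at e
  have k : 0 ≤ ∫ v in (0.7218:ℝ)..P.Y, (1 * ((P.Y - v) ^ 2 / 2) - max (0 - v) 0) * G v := by
    refine intervalIntegral.integral_nonneg (by linarith only [y1, y2]) fun v hv => ?_
    refine mul_nonneg ?_ (hG.nonneg v)
    rw [max_eq_right (by linarith only [hv.1, y1, y2, hv])]
    nlinarith only [sq_nonneg (P.Y - v)]
  have k2 : 0 ≤ FG P G 0 := FG_nonneg h hG 0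
  have k3 := mul_le_mul_of_nonneg_left s hG.pos.le
  nlinarith only [e, k, k2, k3]

private theorem upper (h : P.Star) (hG : GG P G q) {r : ℝ} (h0 : 0 ≤ r) (h1 : r ≤ 2.2) :
    FG P G r ≤ (P.io r + 0.03 * w r) * NG P G q := by
  obtain ⟨y1, y2, l1, l2⟩ := Y_pos h
  have hN := NG_pos h hG
  have hNg := NG_ge h hG
  have hq := hG.pos
  have hL : 0 < P.L := by linarith only [l1, l2]
  -- small r
  have small : r ≤ 1 → r ^ 2 / 2 ≤ (P.io r + 0.03 * w r) * 2.2572 →
      0 ≤ P.io r + 0.03 * w r → FG P G r ≤ (P.io r + 0.03 * w r) * NG P G q := by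
    intro hr1 hh hb
    calc FG P G r ≤ q * (r ^ 2 / 2) := FG_small h hG h0 hr1
      _ ≤ q * ((P.io r + 0.03 * w r) * 2.2572) := mul_le_mul_of_nonneg_left hh hq.le
      _ = (P.io r + 0.03 * w r) * (q * 2.2572) := by ring
      _ ≤ (P.io r + 0.03 * w r) * NG P G q := mul_le_mul_of_nonneg_left hNg hb
  have hio : (r ^ 2 / 2 - r ^ 4 / 24) / 2.665784 ≤ P.io r := by
    rcases le_total (r ^ 2 / 2 - r ^ 4 / 24) 0 with hp | hp
    · exact (div_nonpos_of_nonpos_of_nonneg hp (by norm_num)).trans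
        (div_nonneg (I_nonneg' h r) hL.le)
    · unfold io
      calc (r ^ 2 / 2 - r ^ 4 / 24) / 2.665784 ≤ (r ^ 2 / 2 - r ^ 4 / 24) / P.L :=
            div_le_div_of_nonneg_left hp hL l2.le
        _ ≤ P.I r / P.L := div_le_div_of_nonneg_right (I_ge h h0) hL.le
  have hio0 : 0 ≤ P.io r := div_nonneg (I_nonneg' h r) hL.le
  have hw0 := w_nonneg' r
  obtain ⟨i1, i2, i3, i4⟩ := io_vals h
  obtain ⟨d1, d2, d3, d4, d5⟩ := D_vals h
  rcases le_total r 0.577 with c1 | c1
  · refine small (by linarith only [l1, l2, c1]) ?_ (by linarith only [hio0, hw0])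
    rw [w_small h0 c1]
    have r2 : 0 ≤ r ^ 2 := sq_nonneg r
    have r3 : r ^ 4 ≤ 0.333 * r ^ 2 := by
      have : r ^ 2 ≤ 0.333 := by nlinarith only [l1, l2, c1, h0]
      nlinarith only [this]
    have : (r ^ 2 / 2 - r ^ 4 / 24) / 2.665784 = r ^ 2 * (1 / 5.331568) - r ^ 4 * (1 / 63.978816) := by
      ring
    rw [this] at hio
    norm_num at hio ⊢
    linarith only [hio0, r3, hio]
  · rcases le_total r 0.7218 with c2 | c2
    · refine small (by linarith only [l1, l2, c2]) ?_ (by linarith only [hio0, hw0])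
      have hw := w_mid c1
      have r2 : r ^ 2 ≤ 0.521 := by nlinarith only [l1, l2, c2, h0]
      have r3 : r ^ 4 ≤ 0.521 * r ^ 2 := by
        have r2' : 0 ≤ r ^ 2 := sq_nonneg r
        nlinarith only [r2]
      have : (r ^ 2 / 2 - r ^ 4 / 24) / 2.665784 =
          r ^ 2 * (1 / 5.331568) - r ^ 4 * (1 / 63.978816) := by
        ring
      rw [this] at hio
      norm_num at hio ⊢
      linarith only [l1, l2, hw, r2, r3, hio]
    · rcases le_total r 1.12 with c3 | c3
      · -- tangent at 0.94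
        have hw := w_mid c1
        have t := io_tan h 0.94 r
        set b' := P.io 0.94 + P.D 0.94 / P.L * (r - 0.94) + 0.02996 with hb'
        have hb'1 : 0.158 + 0.3188 * (r - 0.94) - 0.00005 + 0.02996 ≤ b' := by
          rcases le_total r 0.94 with hh | hh
          · nlinarith only [l1, l2, i1, d2, hb', h0, d1]
          · nlinarith only [l1, l2, i1, d2, hb', h0, d1]
        have hb'2 : b' ≤ P.io r + 0.03 * w r := by
          rw [hb']
          linarith only [l1, l2, hw, t]
        have hb'3 : b' ≤ 0.5 := by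
          have t2 : P.io 0.94 ≤ 0.32715 := by
            refine le_trans ?_ i4
            exact div_le_div_of_nonneg_right (I_mono' h (by norm_num)) hL.le
          rw [hb']
          rcases le_total r 0.94 with hh | hh
          · nlinarith only [l1, l2, d1, t2, hh, h0, d2]
          · nlinarith only [l1, l2, d1, c3, t2, h0, d2]
        have hbb : 0.18868 + 0.3188 * (r - 0.94) - 0.00005 ≤ b' ∨ r ≤ 0.94 := by
          rcases le_total r 0.94 with hh | hh
          · exact Or.inr hh
          · left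
            rw [hb']
            nlinarith only [l1, l2, i1, d2, hh, d1, h0]
        have hbc : r ≤ 0.94 → 0.18873 + 0.319 * (r - 0.94) ≤ b' := by
          intro hh
          rw [hb']
          nlinarith only [i1, l1, l2, d2, hh]
        refine le_trans (U_pos h hG (b := b') ?_ c2 ?_ hb'3 ?_)
          (mul_le_mul_of_nonneg_right hb'2 hN.le)
        · rcases hbb with hh | hh
          · linarith only [l1, l2, c2, hh]
          · have := hbc hh
            linarith only [l1, l2, c2, this]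
        · rcases hbb with hh | hh
          · linarith only [l1, l2, c3, hh]
          · have := hbc hh
            linarith only [l1, l2, c3, this]
        · rcases hbb with hh | hh
          · norm_num
            linarith only [h1, l1, l2, hh]
          · have := hbc hh
            norm_num
            linarith only [h1, l1, l2, this]
      · rcases le_total r 1.4 with c4 | c4
        · have hw := w_one (y := r) (by linarith only [l1, l2, c3])
          have t := io_tan h 1.27 r
          have f1 : FG P G 1.12 ≤ 0.248 * NG P G q :=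
            U_pos h hG (by norm_num) (by norm_num) (by norm_num) (by norm_num) (by norm_num)
          have f2 := U_14 h hG
          have f3 := FG_conv h hG c3 c4
          have f4 := mul_le_mul_of_nonneg_left f1 (by linarith only [c4] : 0 ≤ 1.4 - r)
          have f5 := mul_le_mul_of_nonneg_left f2 (by linarith only [c3] : 0 ≤ r - 1.12)
          have f6 : (1.4 - 1.12) * FG P G r ≤
              ((1.4 - r) * 0.248 + (r - 1.12) * 0.356) * NG P G q := by linarith only [f3, f4, f5]
          have f7 : (1.4 - r) * 0.248 + (r - 1.12) * 0.356 ≤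
              (1.4 - 1.12) * (P.io r + 0.03 * w r) := by
            rcases le_total r 1.27 with hh | hh
            · nlinarith only [i2, d4, c4, hw, t, hh, l1, l2, d3, c3]
            · nlinarith only [i2, c4, hw, t, h1, d4, l1, l2, d3, c3, hh]
          have f8 := mul_le_mul_of_nonneg_right f7 hN.le
          norm_num at f6 f8 ⊢
          linarith only [f3, f4, f5, f8]
        · rw [w_big c4]
          have t := io_low h (s := 0.4008) c4 (fun y hy1 _ =>
            d5.trans (div_le_div_of_nonneg_right (D_mono h hy1) hL.le))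
          have f1 := U_14 h hG
          have f2 := U_22 h hG
          have f3 := FG_conv h hG c4 h1
          have f4 := mul_le_mul_of_nonneg_left f1 (by linarith only [h1] : 0 ≤ 2.2 - r)
          have f5 := mul_le_mul_of_nonneg_left f2 (by linarith only [c4] : 0 ≤ r - 1.4)
          have f6 : (2.2 - 1.4) * FG P G r ≤
              ((2.2 - r) * 0.356 + (r - 1.4) * 0.773) * NG P G q := by linarith only [f3, f4, f5]
          have f7 : (2.2 - r) * 0.356 + (r - 1.4) * 0.773 ≤
              (2.2 - 1.4) * (P.io r + 0.03 * (1 + 4 * (r - 1.4))) := by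
            norm_num at t ⊢
            linarith only [h1, l1, l2, i3, t]
          have f8 := mul_le_mul_of_nonneg_right f7 hN.le
          norm_num at f6 f8 ⊢
          linarith only [f3, f4, f5, f8]

/-! ### lower bounds of `FG` -/

private theorem L_gen (h : P.Star) (hG : GG P G q) {a r : ℝ} (ha : 0 < a) (h0 : 0 ≤ r)
    (h1 : r ≤ 2.2) (hY : a * 3.26568 ≤ r ^ 2 / 2)
    (hE : a * 2.2574 ≤ ∫ v in (0:ℝ)..0.7218, max (r - v) 0)
    (hk0 : a * 3.236 < r) : a * NG P G q ≤ FG P G r := by
  obtain ⟨y1, y2, -, -⟩ := Y_pos h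
  obtain ⟨g1, g2⟩ := sg_bd h
  have s1 := (S1_bd h).2
  have s2 := (S2_bd h).2
  have hc := hG.cont
  have hq := hG.pos
  -- the kernel (with the opposite sign)
  let k : ℝ → ℝ := fun v => a * ((P.Y - v) ^ 2 / 2) - max (r - v) 0
  have hk : Continuous k := by
    show Continuous fun v => a * ((P.Y - v) ^ 2 / 2) - max (r - v) 0
    fun_prop
  have kr : 0 ≤ k r := by
    show 0 ≤ a * ((P.Y - r) ^ 2 / 2) - max (r - r) 0
    rw [sub_self, max_self, sub_zero]
    positivity
  have kz : k 0 < 0 := by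
    show a * ((P.Y - 0) ^ 2 / 2) - max (r - 0) 0 < 0
    rw [sub_zero, sub_zero, max_eq_left h0]
    have : P.Y ^ 2 / 2 ≤ 3.236 := by nlinarith only [y2, g1, g2, s1]
    nlinarith only [hk0, ha, y2, g1, g2, s1]
  obtain ⟨v0, hv0, hkv0⟩ : ∃ v0 ∈ Icc 0 r, k v0 = 0 := by
    have := intermediate_value_Icc h0 hk.continuousOn
    exact this ⟨kz.le, kr⟩
  have hv00 : 0 < v0 := by
    rcases lt_or_eq_of_le hv0.1 with hh | hh
    · exact hh
    · rw [← hh] at hkv0
      linarith only [kz, hkv0]
  have kin : ∀ v, v ≤ r → k v = a * ((P.Y - v) ^ 2 / 2) - (r - v) := fun v hv => by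
    show a * ((P.Y - v) ^ 2 / 2) - max (r - v) 0 = _
    rw [max_eq_left (by linarith only [hv])]
  have kz' := kin 0 h0
  have kv' := kin v0 hv0.2
  -- sign to the left of `v0`
  have sl : ∀ v, 0 ≤ v → v ≤ v0 → k v ≤ 0 := by
    intro v hv1 hv2
    have e1 := kin v (hv2.trans hv0.2)
    -- convexity: v0 * k v ≤ (v0 - v) * k 0 + v * k v0
    have e2 : v0 * k v = (v0 - v) * k 0 + v * k v0 - a / 2 * (v * (v0 - v) * v0) := by
      rw [e1, kz', kv']
      ring
    have e3 : 0 ≤ a / 2 * (v * (v0 - v) * v0) :=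
      mul_nonneg (by linarith only [ha]) (mul_nonneg (mul_nonneg hv1 (by linarith only [hv2])) hv00.le)
    have e4 : (v0 - v) * k 0 ≤ 0 := mul_nonpos_of_nonneg_of_nonpos (by linarith only [hv2]) kz.le
    rw [hkv0, mul_zero, add_zero] at e2
    by_contra hcon
    push Not at hcon
    have := mul_pos hv00 hcon
    linarith only [e2, e3, e4, this]
  have sr : ∀ v, v0 ≤ v → 0 ≤ k v := by
    intro v hv1
    rcases le_total v r with hvr | hvr
    · have e1 := kin v hvr
      have e2 : v * k v0 = (v - v0) * k 0 + v0 * k v - a / 2 * (v0 * (v - v0) * v) := by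
        rw [e1, kz', kv']
        ring
      have hv : 0 < v := lt_of_lt_of_le hv00 hv1
      have e3 : 0 ≤ a / 2 * (v0 * (v - v0) * v) :=
        mul_nonneg (by linarith only [ha]) (mul_nonneg (mul_nonneg hv00.le (by linarith only [hv1])) hv.le)
      have e4 : (v - v0) * k 0 ≤ 0 := mul_nonpos_of_nonneg_of_nonpos (by linarith only [hv1]) kz.le
      rw [hkv0, mul_zero] at e2
      by_contra hcon
      push Not at hcon
      have := mul_neg_of_pos_of_neg hv00 hcon
      linarith only [e2, e3, e4, this]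
    · show 0 ≤ a * ((P.Y - v) ^ 2 / 2) - max (r - v) 0
      rw [max_eq_right (by linarith only [hvr])]
      have : 0 ≤ a * ((P.Y - v) ^ 2 / 2) := by positivity
      linarith only [this]
  -- the level
  obtain ⟨γ, hγ0, hγ1, hγ⟩ : ∃ γ, 0 ≤ γ ∧ γ ≤ q ∧ ∀ v, 0.7218 ≤ v → k v * G v ≤ k v * γ := by
    rcases le_total 0.7218 v0 with hh | hh
    · refine ⟨G v0, hG.nonneg _, hG.le _, fun v hv => ?_⟩
      rcases le_total v v0 with hv' | hv'
      · exact mul_le_mul_of_nonpos_left (hG.anti hv') (sl v (by linarith only [g1, g2, hv]) hv')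
      · exact mul_le_mul_of_nonneg_left (hG.anti hv') (sr v hv')
    · refine ⟨q, hq.le, le_rfl, fun v hv => ?_⟩
      exact mul_le_mul_of_nonneg_left (hG.le v) (sr v (hh.trans hv))
  have e := split_eq hG a r
  have e5 : (∫ v in (0.7218:ℝ)..P.Y, (a * ((P.Y - v) ^ 2 / 2) - max (r - v) 0) * G v) ≤
      (∫ v in (0.7218:ℝ)..P.Y, (a * ((P.Y - v) ^ 2 / 2) - max (r - v) 0)) * γ := by
    rw [← intervalIntegral.integral_mul_const]
    refine intervalIntegral.integral_mono_on (by linarith only [y1, g1, g2])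
      ((by fun_prop : Continuous fun v =>
        (a * ((P.Y - v) ^ 2 / 2) - max (r - v) 0) * G v).intervalIntegrable _ _)
      ((by fun_prop : Continuous fun v =>
        (a * ((P.Y - v) ^ 2 / 2) - max (r - v) 0) * γ).intervalIntegrable _ _) fun v hv => ?_
    exact hγ v hv.1
  have hmm : Continuous fun v : ℝ => max (r - v) 0 := by fun_prop
  have e6 : (∫ v in (0.7218:ℝ)..P.Y, max (r - v) 0) =
      r ^ 2 / 2 - ∫ v in (0:ℝ)..0.7218, max (r - v) 0 := by
    have := intervalIntegral.integral_add_adjacent_intervals (μ := volume)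
      (hmm.intervalIntegrable 0 0.7218) (hmm.intervalIntegrable 0.7218 P.Y)
    rw [max_int h0 (b := P.Y) (by linarith only [h1, y1, g1, g2])] at this
    linarith only [this]
  rw [kap_int, e6, sub_self] at e5
  set T := ∫ v in (0:ℝ)..0.7218, max (r - v) 0 with hT
  set S1 := P.sg + (P.Y ^ 3 - (P.Y - 0.7218) ^ 3) / 6 with hS1
  have e7 : a * (((P.Y - 0.7218) ^ 3 - 0 ^ 3) / 6) - (r ^ 2 / 2 - T) =
      (a * (P.sg + P.Y ^ 3 / 6) - r ^ 2 / 2) - (a * S1 - T) := by
    rw [hS1]
    ring
  rw [e7] at e5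
  have e8 : a * S1 - T ≤ 0 := by
    have := mul_le_mul_of_nonneg_left s1 ha.le
    linarith only [hE, this]
  have e9 : a * (P.sg + P.Y ^ 3 / 6) - r ^ 2 / 2 ≤ 0 := by
    have := mul_le_mul_of_nonneg_left s2 ha.le
    linarith only [hY, this]
  have e10 : q * (a * S1 - T) + ((a * (P.sg + P.Y ^ 3 / 6) - r ^ 2 / 2) - (a * S1 - T)) * γ =
      (q - γ) * (a * S1 - T) + γ * (a * (P.sg + P.Y ^ 3 / 6) - r ^ 2 / 2) := by ring
  have e11 : (q - γ) * (a * S1 - T) ≤ 0 :=
    mul_nonpos_of_nonneg_of_nonpos (by linarith only [hγ1]) e8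
  have e12 : γ * (a * (P.sg + P.Y ^ 3 / 6) - r ^ 2 / 2) ≤ 0 :=
    mul_nonpos_of_nonneg_of_nonpos hγ0 e9
  linarith only [e5, e, e11, e12]

private theorem PhiY_mid {r : ℝ} (h1 : 0.577 ≤ r) (h2 : r ≤ 1.4) :
    ((PI r + 0.000015) / 2.665779 - 0.03 * 0.9987) * 3.26568 ≤ r ^ 2 / 2 := by
  obtain ⟨t, rfl⟩ : ∃ t, r = 1.25 + t := ⟨r - 1.25, by ring⟩
  have t1 : -0.673 ≤ t := by linarith only [h1]
  have t2 : t ≤ 0.15 := by linarith only [h2]
  have tsq : 0 ≤ t ^ 2 := sq_nonneg t
  have tsq1 : t ^ 2 ≤ 0.453 := by nlinarith only [h1, h2]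
  have key : (1.25 + t) ^ 2 / 2 - ((PI (1.25 + t) + 0.000015) / 2.665779 - 0.03 * 0.9987) * 3.26568 =
      (196477010888773/66644475000000000 : ℝ) + (5001129/3554372000 : ℝ) * t + t ^ 2 * ((17883888657/71087440000 : ℝ) +
      (174972413/888593000 : ℝ) * t + (58387637/2221482500 : ℝ) * t ^ 2 +
      (-28329774/2776853125 : ℝ) * t ^ 3 + (-625922/333222375 : ℝ) * t ^ 4) := by
    unfold PI
    ring
  have br : 0.1 ≤ (17883888657/71087440000 : ℝ) +
      (174972413/888593000 : ℝ) * t + (58387637/2221482500 : ℝ) * t ^ 2 +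
      (-28329774/2776853125 : ℝ) * t ^ 3 + (-625922/333222375 : ℝ) * t ^ 4 := by
    have a3 : t ^ 3 ≤ 0.07 := by nlinarith only [tsq1, h2]
    have a4 : t ^ 4 ≤ 0.21 := by nlinarith only [tsq1]
    norm_num at t1 t2 a3 a4 ⊢
    linarith only [h1, tsq, a3, a4]
  have br2 := mul_nonneg tsq (sub_nonneg.2 br)
  have : 0 ≤ (196477010888773/66644475000000000 : ℝ) + (5001129/3554372000 : ℝ) * t + 0.1 * t ^ 2 := by
    nlinarith only [sq_nonneg (t + 0.007)]
  linarith only [h1, tsq, key, br2]

private theorem lower (h : P.Star) (hG : GG P G q) {r : ℝ} (h0 : 0 ≤ r) (h1 : r ≤ 2.2) :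
    (P.io r - 0.03 * w r) * NG P G q ≤ FG P G r := by
  obtain ⟨y1, y2, l1, l2⟩ := Y_pos h
  have hN := NG_pos h hG
  have hL : 0 < P.L := by linarith only [l1, l2]
  have r1 := h.ρ_lo
  rcases le_or_gt (P.io r - 0.03 * w r) 0 with ha | ha
  · exact (mul_nonpos_of_nonpos_of_nonneg ha hN.le).trans (FG_nonneg h hG r)
  obtain ⟨i1, i2, i3, i4⟩ := io_vals h
  have hio : P.io r ≤ r ^ 2 / 5.331558 := by
    unfold io
    calc P.I r / P.L ≤ (r ^ 2 / 2) / P.L := div_le_div_of_nonneg_right (I_le h h0) hL.le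
      _ ≤ (r ^ 2 / 2) / 2.665779 :=
          div_le_div_of_nonneg_left (by positivity) (by norm_num) l1.le
      _ = r ^ 2 / 5.331558 := by ring
  have hr0 : 0 < r := by
    rcases lt_or_eq_of_le h0 with hh | hh
    · exact hh
    · exfalso
      rw [← hh] at hio ha
      have := w_nonneg' 0
      norm_num at hio
      linarith only [ha, this, hio]
  rcases le_total r 0.577 with c1 | c1
  · have hw := w_small h0 c1
    have hrr : 0 < r ^ 2 := by positivity
    have aa : P.io r - 0.03 * w r ≤ r ^ 2 * 0.0976 := by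
      rw [hw]
      have : r ^ 2 / 5.331558 = r ^ 2 * (1 / 5.331558) := by ring
      rw [this] at hio
      norm_num at hio ⊢
      linarith only [hrr, hio]
    refine L_gen h hG ha h0 h1 (by linarith only [hrr, aa]) ?_ ?_
    · rw [max_int h0 (by linarith only [l1, l2, c1])]
      linarith only [hrr, aa]
    · nlinarith only [hr0, aa, h0, h1]
  · have hw := w_mid c1
    rcases le_total r 1.4 with c2 | c2
    · have hY := PhiY_mid c1 c2
      have hio2 : P.io r ≤ (PI r + 0.000015) / 2.665779 := by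
        have a1 := (abs_le.1 (I_app h h0 (by linarith only [l1, l2, r1, c2]))).2
        unfold io
        calc P.I r / P.L ≤ P.I r / 2.665779 :=
              div_le_div_of_nonneg_left (I_nonneg' h r) (by norm_num) l1.le
          _ ≤ (PI r + 0.000015) / 2.665779 :=
              div_le_div_of_nonneg_right (by linarith only [a1]) (by norm_num)
      have hY2 : (P.io r - 0.03 * w r) * 3.26568 ≤ r ^ 2 / 2 := by
        refine le_trans ?_ hY
        refine mul_le_mul_of_nonneg_right ?_ (by norm_num)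
        norm_num at hw hio2 ⊢
        linarith only [hw, hio2]
      rcases le_total r 0.7218 with c3 | c3
      · refine L_gen h hG ha h0 h1 hY2 ?_ ?_
        · rw [max_int h0 c3]
          linarith only [ha, hw, hY, hio2]
        · nlinarith only [l1, l2, c1, hw, hY, hio2, h0, c2]
      · have hE : (P.io r - 0.03 * w r) * 2.2574 ≤ r * 0.7218 - 0.7218 ^ 2 / 2 := by
          rcases le_total r 1.09 with c4 | c4
          · have e1 : (r - 0.7218) * (1.09 - r) ≥ 0 := mul_nonneg (by linarith only [c3]) (by linarith only [c4])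
            have : r ^ 2 / 5.331558 = r ^ 2 * (1 / 5.331558) := by ring
            rw [this] at hio
            norm_num at hio hw ⊢
            nlinarith only [h1, l1, l2, e1, hio, hw]
          · have e1 := io_low h (s := 0.35) c2 (fun y hy1 _ => io_slope2 h (by linarith only [c4, hy1]))
            norm_num at e1 hw ⊢
            linarith only [h1, l1, l2, i4, e1, hw]
        refine L_gen h hG ha h0 h1 hY2 ?_ ?_
        · rw [max_int2 (by norm_num) c3]
          exact hE
        · norm_num at hE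
          linarith only [h1, l1, l2, hE]
    · have hw2 := w_big c2
      have e1 := io_up h (s := 0.4127) c2 (fun y hy1 _ => (io_slope h (by linarith only [l1, l2, hy1])).2)
      have aa : P.io r - 0.03 * w r ≤ 0.29715 + 0.2927 * (r - 1.4) := by
        rw [hw2]
        norm_num at e1 ⊢
        linarith only [i4, e1]
      have hE : (P.io r - 0.03 * w r) * 2.2574 ≤ r * 0.7218 - 0.7218 ^ 2 / 2 := by
        norm_num at aa ⊢
        linarith only [l1, l2, i4, c2, hw2, e1]
      refine L_gen h hG ha h0 h1 ?_ ?_ ?_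
      · nlinarith only [i4, hw, hw2, e1, h0, l1, l2, c1]
      · rw [max_int2 (by norm_num) (by linarith only [l1, l2, c2])]
        exact hE
      · norm_num at hE
        linarith only [l1, l2, i4, c2, hw2, e1]

/-- the crude tube bound for long excursions -/
theorem tube_long (h : P.Star) {δ x r : ℝ} {i : ℝ → ℝ} (hδ : 0 ≤ δ) (hδ1 : δ ≤ 0.03)
    (hi : P.Tube δ i) (hx : 0.6 ≤ x) (hr : 0 ≤ r) (hr1 : r ≤ 2.2) :
    |P.If (P.e0 + x) i r - P.io r * P.Nf (P.e0 + x) i| ≤ 0.03 * w r * P.Nf (P.e0 + x) i := by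
  have _ := hδ
  have _ := hδ1
  obtain ⟨y1, y2, l1, l2⟩ := Y_pos h
  have e1 := h.e_lo
  have hic := hi.cont
  have hq : 0 < P.q (P.e0 + x) := by
    unfold q
    exact div_pos zero_lt_one (by linarith only [hx, y1, l1, l2, e1])
  have hi0 : ∀ y, 0 ≤ i y := fun y => by
    rcases le_total y 0 with hy | hy
    · rw [hi.zero y hy]
    · rw [← hi.zero 0 le_rfl]
      exact hi.mono hy
  have hG : GG P (P.gf (P.e0 + x) i) (P.q (P.e0 + x)) := by
    refine ⟨?_, ?_, ?_, ?_, ?_, hq⟩
    · unfold gf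
      fun_prop
    · intro v
      exact le_max_right _ _
    · intro v
      exact max_le (by linarith only [hi0 (v - (P.e0 + x)), hi0]) hq.le
    · intro v hv
      unfold gf
      rw [hi.zero _ (by linarith only [hx, l1, l2, e1, hv]), sub_zero]
      exact max_eq_left hq.le
    · intro v v' hv
      refine max_le_max ?_ le_rfl
      have := hi.mono (show v - (P.e0 + x) ≤ v' - (P.e0 + x) by linarith only [hv])
      linarith only [this]
  have hN : P.Nf (P.e0 + x) i = NG P (P.gf (P.e0 + x) i) (P.q (P.e0 + x)) := rfl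
  have hF : P.If (P.e0 + x) i r = FG P (P.gf (P.e0 + x) i) r := by
    have hc := hG.cont
    have hcc : Continuous fun v => max (r - v) 0 * P.gf (P.e0 + x) i v := by fun_prop
    unfold FG If
    rw [← intervalIntegral.integral_add_adjacent_intervals
      (hcc.intervalIntegrable 0 r) (hcc.intervalIntegrable r P.Y)]
    have h2 : ∫ v in r..P.Y, max (r - v) 0 * P.gf (P.e0 + x) i v = ∫ _v in r..P.Y, (0:ℝ) := by
      refine intervalIntegral.integral_congr fun v hv => ?_
      rw [uIcc_of_le (by linarith only [hr1, y1, l1, l2])] at hv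
      show max (r - v) 0 * P.gf (P.e0 + x) i v = 0
      rw [max_eq_right (by linarith only [hv.1, hv]), zero_mul]
    rw [h2, intervalIntegral.integral_zero, add_zero]
    refine intervalIntegral.integral_congr fun v hv => ?_
    rw [uIcc_of_le hr] at hv
    show (r - v) * P.gf (P.e0 + x) i v = max (r - v) 0 * P.gf (P.e0 + x) i v
    rw [max_eq_left (by linarith only [hv.2, hv])]
  have a1 := lower h hG hr hr1
  have a2 := upper h hG hr hr1
  rw [hN, hF, abs_le]
  constructor
  · linarith only [a1]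
  · linarith only [a2]

end Pool.Agent.CDk.Par
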