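import Pool.Agent.CDk.Defs
import Pool.Agent.CDk.ENC
import Pool.Agent.CDk.FNa

open MeasureTheory Set Filter Topology

namespace Pool.Agent.CDk.Par
variable {P : Par}

theorem cx_L_pos (h : P.Star) : 0 < P.L := by
  have := (Y_pos h).2.2.1
  linarith

/-- mean value form -/
theorem cx_mvt (h : P.Star) {a b : ℝ} (hab : a < b) :
    ∃ ξ, a < ξ ∧ ξ < b ∧ P.io b - P.io a = P.D ξ / P.L * (b - a) := by
  obtain ⟨ξ, hξ, h1⟩ := exists_hasDerivAt_eq_slope P.I P.D hab
    (fun x _ => (I_deriv h x).continuousAt.continuousWithinAt) (fun x _ => I_deriv h x)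
  refine ⟨ξ, hξ.1, hξ.2, ?_⟩
  have h2 : b - a ≠ 0 := by linarith
  have hL := (cx_L_pos h).ne'
  unfold io
  rw [h1]
  field_simp

theorem cx_D_nonneg (h : P.Star) (y : ℝ) : 0 ≤ P.D y := by
  rcases le_total y 0 with h1 | h1
  · rw [D_zero h h1]
  · have h2 := D_mono h h1
    rw [D_zero h le_rfl] at h2
    exact h2

theorem cx_D_pos (h : P.Star) {y : ℝ} (hy : 0 < y) : 0 < P.D y := by
  have he : 0 < P.e0 := h.data.he
  have h1 : 0 < min y P.e0 := lt_min hy he
  have h2 := D_mono h (min_le_left y P.e0)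
  rw [D_small h h1.le (min_le_right _ _)] at h2
  linarith

theorem cx_cont (h : P.Star) : Continuous P.io := by
  unfold io
  have : Continuous P.I := continuous_iff_continuousAt.2 fun x => (I_deriv h x).continuousAt
  exact this.div_const _

theorem cx_mono (h : P.Star) : Monotone P.io := by
  intro a b hab
  rcases hab.eq_or_lt with rfl | hlt
  · exact le_rfl
  · obtain ⟨ξ, -, -, h1⟩ := cx_mvt h hlt
    have h2 : 0 ≤ P.D ξ / P.L * (b - a) :=
      mul_nonneg (div_nonneg (cx_D_nonneg h _) (cx_L_pos h).le) (by linarith)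
    linarith

theorem cx_strict (h : P.Star) {a b : ℝ} (ha : 0 ≤ a) (hab : a < b) : P.io a < P.io b := by
  obtain ⟨ξ, h0, -, h1⟩ := cx_mvt h hab
  have h2 : 0 < P.D ξ / P.L * (b - a) :=
    mul_pos (div_pos (cx_D_pos h (lt_of_le_of_lt ha h0)) (cx_L_pos h)) (by linarith)
  linarith

theorem cx_zero (h : P.Star) {y : ℝ} (hy : y ≤ 0) : P.io y = 0 := by
  unfold io
  rw [I_zero h hy, zero_div]

theorem cx_q_pos (h : P.Star) {e : ℝ} (he : 0 ≤ e) : 0 < P.q e := by
  unfold q
  have := (Y_pos h).1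
  exact div_pos one_pos (by linarith)

/-- slopes of `ι` near the crossing -/
theorem io_slope (h : P.Star) {y : ℝ} (hy : 1.24 ≤ y) : 0.38 ≤ P.D y / P.L ∧ P.D y / P.L ≤ 0.4127 := by
  obtain ⟨-, -, hL1, hL2⟩ := Y_pos h
  have hL := cx_L_pos h
  have hρ := h.ρ_lo
  have hρ' := h.ρ_hi
  have he := h.e_hi
  constructor
  · rw [le_div_iff₀ hL]
    have h1 := D_mono h hy
    have h2 := abs_le.1 (D_app h (y := 1.24) (by norm_num) (by linarith only [hρ, hρ']))
    have h3 : (1.0145 : ℝ) ≤ PD 1.24 := by unfold PD; norm_num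
    linarith only [h2.1, hL2, hρ, hρ', h1, h2, h3]
  · rw [div_le_iff₀ hL]
    have h1 : P.D y ≤ P.D P.ρ := by
      rcases le_total y P.ρ with h2 | h2
      · exact D_mono h h2
      · rw [D_const h h2]
    have h2 := abs_le.1 (D_app5 h (y := P.ρ) (by linarith only [hρ, hρ', he]) le_rfl)
    have h3 : PD5 P.ρ ≤ 1.10001 := by
      unfold PD5
      have a2 : P.ρ ^ 2 ≤ 1.640088 ^ 2 := pow_le_pow_left₀ (by linarith only [hρ, hρ']) hρ'.le 2
      have a3 : (1.640087 : ℝ) ^ 3 ≤ P.ρ ^ 3 := pow_le_pow_left₀ (by norm_num) hρ.le 3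
      have a4 : (1.640087 : ℝ) ^ 4 ≤ P.ρ ^ 4 := pow_le_pow_left₀ (by norm_num) hρ.le 4
      have a5 : P.ρ ^ 5 ≤ 1.640088 ^ 5 := pow_le_pow_left₀ (by linarith only [hρ, hρ']) hρ'.le 5
      norm_num at a2 a3 a4 a5 ⊢
      linarith only [hρ, hρ', a2, a3, a4, a5]
    linarith only [h2.2, hL1, hρ, hρ', h1, h2, h3]

theorem io_slope2 (h : P.Star) {y : ℝ} (hy : 1.09 ≤ y) : 0.35 ≤ P.D y / P.L := by
  obtain ⟨-, -, hL1, hL2⟩ := Y_pos h
  have hL := cx_L_pos h
  have hρ := h.ρ_lo
  rw [le_div_iff₀ hL]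
  have h1 := D_mono h hy
  have h2 := abs_le.1 (D_app h (y := 1.09) (by norm_num) (by linarith only [hL1, hL2, hρ]))
  have h3 : (0.9405 : ℝ) ≤ PD 1.09 := by unfold PD; norm_num
  linarith only [h2.1, hL1, hL2, h1, h2, h3]

/-- uniqueness of the crossing -/
theorem cross_unique (h : P.Star) {e c c' : ℝ} (he : 0 ≤ e) (hc : P.io c = P.q e) (hc' : P.io c' = P.q e) :
    c = c' := by
  have hq := cx_q_pos h he
  have hpos : ∀ x, P.io x = P.q e → 0 < x := by
    intro x hx
    by_contra h1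
    rw [cx_zero h (not_lt.1 h1)] at hx
    linarith
  rcases lt_trichotomy c c' with h1 | h1 | h1
  · have := cx_strict h (hpos c hc).le h1
    linarith
  · exact h1
  · have := cx_strict h (hpos c' hc').le h1
    linarith

theorem cx_q_e0 (h : P.Star) : P.io (P.ρ - P.e0) = P.q P.e0 := by
  unfold io q
  rw [I_rho h]
  rfl

theorem cx_q_anti (h : P.Star) {a b : ℝ} (ha : 0 ≤ a) (hab : a ≤ b) : P.q b ≤ P.q a := by
  unfold q
  have := (Y_pos h).1
  exact one_div_le_one_div_of_le (by linarith only [ha, this]) (by linarith)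

/-- the crossing `ι(c) = q(e)` -/
theorem cross (h : P.Star) {e : ℝ} (he : 0 ≤ e) (he1 : e ≤ P.e0 + 1.05) :
    ∃ c, P.io c = P.q e ∧ 1.24 ≤ c ∧ c ≤ 1.565 ∧ c + e ≤ 2.44 ∧
      (P.e0 ≤ e → c ≤ P.ρ - P.e0) ∧ (e ≤ P.e0 → P.ρ - P.e0 ≤ c) := by
  obtain ⟨hY1, hY2, hL1, hL2⟩ := Y_pos h
  have hL := cx_L_pos h
  have hρ := h.ρ_lo
  have hρ' := h.ρ_hi
  have helo := h.e_lo
  have hehi := h.e_hi
  -- left end
  have hleft : P.io 1.24 ≤ P.q e := by
    have h2 := abs_le.1 (I_app h (y := 1.24) (by norm_num) (by linarith only [hρ, hρ']))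
    have h3 : PI 1.24 ≤ 0.7058 := by unfold PI; norm_num
    unfold io q
    rw [div_le_div_iff₀ hL (by linarith only [he, hY1, hρ, hρ'])]
    have h4 : P.I 1.24 ≤ 0.706 := by linarith only [h2.2, hρ, hρ', h2, h3]
    have h5 : P.Y + e ≤ 3.7158 := by linarith only [he1, hY2, hρ, hρ', hehi]
    have h6 : P.I 1.24 * (P.Y + e) ≤ 0.706 * 3.7158 := by
      refine mul_le_mul h4 h5 (by linarith only [he, hY1, hρ, hρ']) (by norm_num)
    linarith only [hL1, hρ, hρ', h6]
  have hright : P.q e ≤ P.io 1.565 := by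
    have h2 := abs_le.1 (I_app h (y := 1.565) (by norm_num) (by linarith only [hρ, hρ']))
    have h3 : 1.0505 ≤ PI 1.565 := by unfold PI; norm_num
    unfold io q
    rw [div_le_div_iff₀ (by linarith only [he, hY1, hρ, hρ']) hL]
    have h4 : 1.05 ≤ P.I 1.565 := by linarith only [h2.1, hρ, hρ', h2, h3]
    have h5 : 1.05 * 2.543961 ≤ P.I 1.565 * (P.Y + e) :=
      mul_le_mul h4 (by linarith only [he, hY1]) (by norm_num) (by linarith only [hρ, hρ', h2, h3])
    linarith only [hL2, hρ, hρ', h5]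
  obtain ⟨c, hc, hc1⟩ := intermediate_value_Icc (by norm_num : (1.24 : ℝ) ≤ 1.565)
    (cx_cont h).continuousOn (⟨hleft, hright⟩ : P.q e ∈ Icc (P.io 1.24) (P.io 1.565))
  refine ⟨c, hc1, hc.1, hc.2, ?_, ?_, ?_⟩
  · by_contra hcon
    push Not at hcon
    -- the value at the right end
    set e1 := P.e0 + 1.05 with he1'
    have h7 : P.q e1 + 0.004 ≤ P.io (2.44 - e1) := by
      have h8 : P.io 1.268 ≤ P.io (2.44 - e1) := cx_mono h (by rw [he1']; linarith only [hρ, hρ', hehi])
      have h2 := abs_le.1 (I_app h (y := 1.268) (by norm_num) (by linarith only [hρ, hρ']))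
      have h3 : 0.7335 ≤ PI 1.268 := by unfold PI; norm_num
      have h4 : 0.7334 ≤ P.I 1.268 := by linarith only [h2.1, hρ, hρ', h2, h3]
      have h5 : 0.2751 ≤ P.io 1.268 := by
        unfold io
        rw [le_div_iff₀ hL]
        linarith only [hL2, hρ, hρ', h2, h3]
      have h6 : P.q e1 ≤ 0.2692 := by
        unfold q
        rw [div_le_iff₀ (by rw [he1']; linarith only [hY1, hρ, hρ', helo])]
        rw [he1']
        linarith only [hY1, hρ, hρ', helo]
      linarith only [hρ, hρ', h8, h5, h6]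
    have h8 : P.q e ≤ P.q e1 + 0.16 * (e1 - e) := by
      unfold q
      have h9 : 0 < P.Y + e := by linarith only [he, hY1, hρ, hρ']
      have h10 : 0 < P.Y + e1 := by rw [he1']; linarith only [hY1, hρ, hρ', helo]
      have h11 : 1 / (P.Y + e) - 1 / (P.Y + e1) = (e1 - e) / ((P.Y + e) * (P.Y + e1)) := by
        field_simp
        ring
      have h12 : (e1 - e) / ((P.Y + e) * (P.Y + e1)) ≤ 0.16 * (e1 - e) := by
        rw [div_le_iff₀ (mul_pos h9 h10)]
        have h13 : (2.54 : ℝ) * 2.54 ≤ (P.Y + e) * (P.Y + e1) :=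
          mul_le_mul (by linarith only [he, hY1, hρ, hρ']) (by rw [he1']; linarith only [hY1, hρ, hρ', helo]) (by norm_num) h9.le
        have h14 : 0 ≤ e1 - e := by linarith only [he1]
        have h15 : 0.16 * (e1 - e) * (2.54 * 2.54) ≤
            0.16 * (e1 - e) * ((P.Y + e) * (P.Y + e1)) :=
          mul_le_mul_of_nonneg_left h13 (by linarith only [he1])
        linarith only [he1, h15]
      linarith only [h11, h12]
    have h9 : P.io (2.44 - e1) + 0.38 * (e1 - e) ≤ P.io (2.44 - e) := by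
      rcases he1.eq_or_lt with h10 | h10
      · rw [h10]; linarith only []
      · obtain ⟨ξ, hξ1, hξ2, hξ3⟩ := cx_mvt h (a := 2.44 - e1) (b := 2.44 - e) (by linarith only [h10])
        have h11 : 1.24 ≤ ξ := by rw [he1'] at hξ1; linarith only [hρ, hρ', hehi, hξ1]
        have h12 := (io_slope h h11).1
        have h13 : 0.38 * (e1 - e) ≤ P.D ξ / P.L * (2.44 - e - (2.44 - e1)) := by
          have h14 : 2.44 - e - (2.44 - e1) = e1 - e := by ring
          rw [h14]
          exact mul_le_mul_of_nonneg_right h12 (by linarith only [h10])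
        linarith only [hξ3, h13]
    have h10 : P.io (2.44 - e) ≤ P.io c := cx_mono h (by linarith only [hcon])
    rw [hc1] at h10
    have h11 : 0 ≤ e1 - e := by linarith only [hρ, hρ', he1, h7, h8, h9, h10]
    linarith only [hρ, hρ', he1, h7, h8, h9, h10]
  · intro h1
    by_contra h2
    push Not at h2
    have h3 := cx_strict h (by linarith : (0:ℝ) ≤ P.ρ - P.e0) h2
    rw [hc1, cx_q_e0 h] at h3
    have h4 := cx_q_anti h (by linarith : (0:ℝ) ≤ P.e0) h1
    linarith
  · intro h1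
    by_contra h2
    push Not at h2
    have h3 := cx_strict h (by linarith only [hc.1, hρ, hρ', hc] : (0:ℝ) ≤ c) h2
    rw [hc1, cx_q_e0 h] at h3
    have h4 := cx_q_anti h he h1
    linarith only [h3, h4]

end Pool.Agent.CDk.Par
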