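import Mathlib

open MeasureTheory Set Filter Topology

namespace Pool.Agent.CDk

theorem ac_shift {f : ℝ → ℝ} {z a b : ℝ} (hf : AbsolutelyContinuousOnInterval f (z + a) (z + b)) :
    AbsolutelyContinuousOnInterval (fun t => f (z + t)) a b := by
  rw [absolutelyContinuousOnInterval_iff] at hf ⊢
  intro ε hε
  obtain ⟨δ, hδ, H⟩ := hf ε hε
  refine ⟨δ, hδ, fun E hE hs => ?_⟩
  have := H (E.1, fun i => (z + (E.2 i).1, z + (E.2 i).2)) ?_ ?_
  · simpa using this
  · obtain ⟨h1, h2⟩ := hE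
    refine ⟨fun i hi => ?_, ?_⟩
    · obtain ⟨h3, h4⟩ := h1 i hi
      rw [mem_uIcc] at h3 h4 ⊢
      rw [mem_uIcc]
      simp only
      constructor
      · rcases h3 with h3 | h3
        · left; constructor <;> linarith [h3.1, h3.2]
        · right; constructor <;> linarith [h3.1, h3.2]
      · rcases h4 with h4 | h4
        · left; constructor <;> linarith [h4.1, h4.2]
        · right; constructor <;> linarith [h4.1, h4.2]
    · intro i hi j hj hij
      have h5 := h2 hi hj hij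
      simp only [Function.onFun] at h5 ⊢
      rw [Set.disjoint_left] at h5 ⊢
      intro t ht ht'
      apply h5 (a := t - z)
      · rw [mem_uIoc] at ht ⊢
        rcases ht with ht | ht
        · left; constructor <;> linarith [ht.1, ht.2]
        · right; constructor <;> linarith [ht.1, ht.2]
      · rw [mem_uIoc] at ht' ⊢
        rcases ht' with ht | ht
        · left; constructor <;> linarith [ht.1, ht.2]
        · right; constructor <;> linarith [ht.1, ht.2]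
  · simpa using hs

theorem ac_const_mul {f : ℝ → ℝ} {a b : ℝ} (c : ℝ) (hf : AbsolutelyContinuousOnInterval f a b) :
    AbsolutelyContinuousOnInterval (fun t => c * f t) a b := hf.const_mul c

/-- an abstract solution: `x' = y`, `y' = c x(· - θ)` with `0 ≤ c ≤ 1`, `0 ≤ θ ≤ κ` -/
structure Sol (x y : ℝ → ℝ) (t0 κ : ℝ) : Prop where
  dx : ∀ t, t0 ≤ t → HasDerivWithinAt x (y t) (Ici t0) t
  ac : ∀ a b, t0 ≤ a → a ≤ b → AbsolutelyContinuousOnInterval y a b
  eq : ∀ᵐ t, t0 ≤ t → ∃ c θ, 0 ≤ c ∧ c ≤ 1 ∧ 0 ≤ θ ∧ θ ≤ κ ∧ HasDerivAt y (c * x (t - θ)) t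

theorem ae_shift {p : ℝ → Prop} (z : ℝ) (h : ∀ᵐ t, p t) : ∀ᵐ t, p (z + t) :=
  (measurePreserving_add_left volume z).quasiMeasurePreserving.ae h

theorem slope_nonneg {u : ℝ → ℝ} {v T : ℝ} (hT : 0 < T) (hu : HasDerivWithinAt u v (Icc 0 T) 0)
    (hu0 : u 0 = 0) (hpos : ∀ t ∈ Icc 0 T, 0 ≤ u t) : 0 ≤ v := by
  have h0 : HasDerivWithinAt u v (Ioo 0 T) 0 := hu.mono Ioo_subset_Icc_self
  have h1 : Tendsto (slope u 0) (𝓝[Ioo 0 T] 0) (𝓝 v) :=
    (hasDerivWithinAt_iff_tendsto_slope' (fun h => lt_irrefl _ h.1)).mp h0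
  have hne : (𝓝[Ioo 0 T] (0:ℝ)).NeBot := by
    rw [nhdsWithin_Ioo_eq_nhdsGT hT]; infer_instance
  refine ge_of_tendsto h1 ?_
  filter_upwards [self_mem_nhdsWithin] with t ht
  rw [slope_def_field, hu0, sub_zero, sub_zero]
  exact div_nonneg (hpos t ⟨ht.1.le, ht.2.le⟩) ht.1.le

theorem slope_nonpos {u : ℝ → ℝ} {v T : ℝ} (hT : 0 < T) (hu : HasDerivWithinAt u v (Icc 0 T) T)
    (hu0 : u T = 0) (hpos : ∀ t ∈ Icc 0 T, 0 ≤ u t) : v ≤ 0 := by
  have h0 : HasDerivWithinAt u v (Ioo 0 T) T := hu.mono Ioo_subset_Icc_self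
  have h1 : Tendsto (slope u T) (𝓝[Ioo 0 T] T) (𝓝 v) :=
    (hasDerivWithinAt_iff_tendsto_slope' (fun h => lt_irrefl _ h.2)).mp h0
  have hne : (𝓝[Ioo 0 T] (T:ℝ)).NeBot := by
    rw [nhdsWithin_Ioo_eq_nhdsLT hT]; infer_instance
  refine le_of_tendsto h1 ?_
  filter_upwards [self_mem_nhdsWithin] with t ht
  rw [slope_def_field, hu0, sub_zero]
  exact div_nonpos_of_nonneg_of_nonpos (hpos t ⟨ht.1.le, ht.2.le⟩) (by linarith [ht.2])

/-- constant sign on a gap -/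
theorem sign_const {x : ℝ → ℝ} {a b : ℝ} (hx : ContinuousOn x (Ioo a b))
    (hne : ∀ t ∈ Ioo a b, x t ≠ 0) : ∃ σ : ℝ, (σ = 1 ∨ σ = -1) ∧ ∀ t ∈ Ioo a b, 0 < σ * x t := by
  by_cases h : ∃ t ∈ Ioo a b, 0 < x t
  · obtain ⟨t0, ht0, hp⟩ := h
    refine ⟨1, Or.inl rfl, fun t ht => ?_⟩
    rw [one_mul]
    by_contra hcon
    push Not at hcon
    have := isPreconnected_Ioo.intermediate_value ht ht0 hx (⟨hcon, hp.le⟩ : (0:ℝ) ∈ Icc (x t) (x t0))
    obtain ⟨s, hs, hs0⟩ := this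
    exact hne s hs hs0
  · push Not at h
    refine ⟨-1, Or.inr rfl, fun t ht => ?_⟩
    have := h t ht
    have := lt_of_le_of_ne this (hne t ht)
    linarith

/-- a function with nonnegative a.e. second derivative is convex, so it is `≤ 0` between two
zeros -/
theorem convex_zero {u v : ℝ → ℝ} {T : ℝ} (hT : 0 < T)
    (hu : ∀ t ∈ Icc 0 T, HasDerivWithinAt u (v t) (Icc 0 T) t)
    (hv : AbsolutelyContinuousOnInterval v 0 T)
    (ha : ∀ᵐ t, t ∈ Ioo 0 T → ∃ a, 0 ≤ a ∧ HasDerivAt v a t) (hu0 : u 0 = 0) (huT : u T = 0) :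
    ∀ t ∈ Icc 0 T, u t ≤ 0 := by
  have hmono : MonotoneOn v (Icc 0 T) := by
    intro a ha' b hb' hab
    have h1 : AbsolutelyContinuousOnInterval v a b := hv.mono (by
      rw [uIcc_of_le hab, uIcc_of_le hT.le]; exact Icc_subset_Icc ha'.1 hb'.2)
    have h2 := h1.integral_deriv_eq_sub
    have h3 : 0 ≤ ∫ t in a..b, deriv v t := by
      apply intervalIntegral.integral_nonneg_of_ae_restrict hab
      rw [Filter.EventuallyLE, ae_restrict_iff' measurableSet_Icc]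
      have hn : ∀ᵐ t : ℝ, t ≠ 0 ∧ t ≠ T := by
        have h4 : (volume : Measure ℝ) ({0, T} : Set ℝ) = 0 := (Set.toFinite _).measure_zero _
        have := measure_eq_zero_iff_ae_notMem.mp h4
        filter_upwards [this] with t ht
        simp only [mem_insert_iff, mem_singleton_iff, not_or] at ht
        exact ht
      filter_upwards [ha, hn] with t ht hnt htI
      obtain ⟨d, hd, hd2⟩ := ht ⟨lt_of_le_of_ne (ha'.1.trans htI.1) (Ne.symm hnt.1),
        lt_of_le_of_ne (htI.2.trans hb'.2) hnt.2⟩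
      simp only [Pi.zero_apply]
      rw [hd2.deriv]; exact hd
    linarith
  have hconv : ConvexOn ℝ (Icc 0 T) u := by
    apply MonotoneOn.convexOn_of_deriv (convex_Icc _ _) (fun t ht => (hu t ht).continuousWithinAt)
    · rw [interior_Icc]
      intro t ht
      exact ((hu t ⟨ht.1.le, ht.2.le⟩).hasDerivAt (Icc_mem_nhds ht.1 ht.2)).differentiableAt.differentiableWithinAt
    · rw [interior_Icc]
      intro a ha' b hb' hab
      rw [((hu a ⟨ha'.1.le, ha'.2.le⟩).hasDerivAt (Icc_mem_nhds ha'.1 ha'.2)).deriv,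
        ((hu b ⟨hb'.1.le, hb'.2.le⟩).hasDerivAt (Icc_mem_nhds hb'.1 hb'.2)).deriv]
      exact hmono ⟨ha'.1.le, ha'.2.le⟩ ⟨hb'.1.le, hb'.2.le⟩ hab
  intro t ht
  have h5 := hconv.2 (⟨le_rfl, hT.le⟩ : (0:ℝ) ∈ Icc 0 T) (⟨hT.le, le_rfl⟩ : T ∈ Icc 0 T)
    (div_nonneg (sub_nonneg.mpr ht.2) hT.le) (div_nonneg ht.1 hT.le) (by field_simp; ring)
  simp only [smul_eq_mul, mul_zero, zero_add, hu0, huT] at h5
  rwa [div_mul_cancel₀ _ hT.ne'] at h5

end Pool.Agent.CDk
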