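import Mathlib

open MeasureTheory Set Filter Topology

namespace Pool.Agent.CDk

/-- a history profile: continuous, nondecreasing, zero on the negative axis -/
structure Pf (D : ℝ → ℝ) : Prop where
  cont : Continuous D
  mono : Monotone D
  zero : ∀ y ≤ 0, D y = 0

/-- `∫ D` -/
noncomputable def I1 (D : ℝ → ℝ) (y : ℝ) : ℝ := ∫ t in (0:ℝ)..y, D t
/-- `∫∫ D` -/
noncomputable def I2 (D : ℝ → ℝ) (y : ℝ) : ℝ := ∫ t in (0:ℝ)..y, I1 D t

private theorem gp_nn {D : ℝ → ℝ} (hD : Pf D) (y : ℝ) : 0 ≤ D y := by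
  rcases le_total y 0 with h | h
  · exact (hD.zero y h).ge
  · rw [← hD.zero 0 le_rfl]; exact hD.mono h

private theorem gp_hasDerivAt {D : ℝ → ℝ} (hD : Continuous D) (y : ℝ) :
    HasDerivAt (I1 D) (D y) y :=
  intervalIntegral.integral_hasDerivAt_right (hD.intervalIntegrable _ _)
    hD.stronglyMeasurable.stronglyMeasurableAtFilter hD.continuousAt

private theorem gp_cont {D : ℝ → ℝ} (hD : Continuous D) : Continuous (I1 D) :=
  continuous_iff_continuousAt.2 fun y => (gp_hasDerivAt hD y).continuousAt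

private theorem gp2_hasDerivAt {D : ℝ → ℝ} (hD : Continuous D) (y : ℝ) :
    HasDerivAt (I2 D) (I1 D y) y := gp_hasDerivAt (gp_cont hD) y

private theorem gp2_cont {D : ℝ → ℝ} (hD : Continuous D) : Continuous (I2 D) :=
  gp_cont (gp_cont hD)

private theorem gp_int {v a : ℝ → ℝ} {T x y : ℝ} (hv : AbsolutelyContinuousOnInterval v 0 T)
    (ha : ∀ᵐ t, t ∈ Ioo 0 T → HasDerivAt v (a t) t) (hx : 0 ≤ x) (hxy : x ≤ y) (hy : y ≤ T) :
    IntervalIntegrable a volume x y ∧ ∫ t in x..y, a t = v y - v x := by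
  have hv' : AbsolutelyContinuousOnInterval v x y := by
    refine hv.mono ?_
    rw [uIcc_of_le hxy, uIcc_of_le (by linarith)]
    exact Icc_subset_Icc hx hy
  have hae : ∀ᵐ t, t ∈ uIoc x y → deriv v t = a t := by
    filter_upwards [ha, Measure.ae_ne volume T] with t h1 h2 h3
    rw [uIoc_of_le hxy] at h3
    exact (h1 ⟨lt_of_le_of_lt hx h3.1, lt_of_le_of_ne (h3.2.trans hy) h2⟩).deriv
  refine ⟨?_, ?_⟩
  · refine hv'.intervalIntegrable_deriv.congr_ae ?_
    exact (ae_restrict_iff' measurableSet_uIoc).2 hae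
  · rw [← hv'.integral_deriv_eq_sub]
    refine (intervalIntegral.integral_congr_ae hae).symm

private theorem gp_u {u v : ℝ → ℝ} {T x y : ℝ}
    (hu : ∀ t ∈ Icc 0 T, HasDerivWithinAt u (v t) (Icc 0 T) t)
    (hvc : ContinuousOn v (Icc 0 T)) (hx : 0 ≤ x) (hxy : x ≤ y) (hy : y ≤ T) :
    IntervalIntegrable v volume x y ∧ ∫ t in x..y, v t = u y - u x := by
  have hsub : Icc x y ⊆ Icc 0 T := Icc_subset_Icc hx hy
  have hi : IntervalIntegrable v volume x y := by
    refine ContinuousOn.intervalIntegrable ?_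
    rw [uIcc_of_le hxy]
    exact hvc.mono hsub
  refine ⟨hi, ?_⟩
  refine intervalIntegral.integral_eq_sub_of_hasDerivAt_of_le hxy ?_ ?_ hi
  · intro t ht
    exact ((hu t (hsub ht)).continuousWithinAt).mono hsub
  · intro t ht
    exact (hu t (hsub ⟨ht.1.le, ht.2.le⟩)).hasDerivAt
      (Icc_mem_nhds (lt_of_le_of_lt hx ht.1) (lt_of_lt_of_le ht.2 hy))

/-- the comparison on the acceleration phase -/
private theorem gp_acc {κ T t0 : ℝ} {E u v a : ℝ → ℝ} (hE : Monotone E) (hE0 : ∀ r, 0 ≤ E r)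
    (ht0 : 0 ≤ t0) (htT : t0 < T)
    (hu : ∀ t ∈ Icc 0 T, HasDerivWithinAt u (v t) (Icc 0 T) t)
    (hv : AbsolutelyContinuousOnInterval v 0 T)
    (ha : ∀ᵐ t, t ∈ Ioo 0 T → HasDerivAt v (a t) t)
    (hupp : ∀ᵐ t, t ∈ Ioo 0 t0 → ∀ B, 0 ≤ B → (∀ t' ∈ Icc 0 t, u t' ≤ B) → a t ≤ B + E (κ - t))
    (hu0 : u 0 = 0) (hv0 : 0 ≤ v 0) :
    ∀ t ∈ Icc 0 t0, u t ≤
      v 0 * Real.sinh t0 + ∫ τ in (0:ℝ)..t0, Real.sinh (t0 - τ) * E (κ - τ) := by
  have hT : 0 < T := lt_of_le_of_lt ht0 htT
  have huc : ContinuousOn u (Icc 0 T) := fun t ht => (hu t ht).continuousWithinAt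
  have hvc : ContinuousOn v (Icc 0 T) := by
    have := hv.continuousOn
    rwa [uIcc_of_le hT.le] at this
  set M : ℝ → ℝ := fun t => sSup (u '' Icc 0 (min t T)) with hM
  have hbdd : ∀ t, BddAbove (u '' Icc 0 (min t T)) := fun t => by
    obtain ⟨C, hC⟩ := (isCompact_Icc.image_of_continuousOn huc).bddAbove
    refine ⟨C, ?_⟩
    rintro _ ⟨x, hx, rfl⟩
    exact hC ⟨x, ⟨hx.1, hx.2.trans (min_le_right _ _)⟩, rfl⟩
  have hM0 : ∀ t, 0 ≤ M t := fun t => by
    rcases lt_or_ge t 0 with ht | ht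
    · have h1 : Icc 0 (min t T) = ∅ := Icc_eq_empty (by
        have := min_le_left t T
        intro h2
        linarith)
      simp [hM, h1]
    · exact le_csSup (hbdd t) ⟨0, ⟨le_rfl, le_min ht hT.le⟩, hu0⟩
  have hMm : Monotone M := fun s t hst => by
    rcases lt_or_ge s 0 with hs | hs
    · have h1 : Icc 0 (min s T) = ∅ := Icc_eq_empty (by
        have := min_le_left s T
        intro h2
        linarith)
      have h2 : M s = 0 := by simp [hM, h1]
      rw [h2]; exact hM0 t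
    · refine csSup_le_csSup (hbdd t) ⟨u 0, 0, ⟨le_rfl, le_min hs hT.le⟩, rfl⟩ ?_
      exact image_mono (Icc_subset_Icc_right (min_le_min_right T hst))
  have hMu : ∀ t, t ≤ T → ∀ t' ∈ Icc 0 t, u t' ≤ M t := fun t ht t' ht' =>
    le_csSup (hbdd t) ⟨t', ⟨ht'.1, le_min ht'.2 (ht'.2.trans ht)⟩, rfl⟩
  have hEa : Antitone fun t => E (κ - t) := fun s t hst => hE (by linarith)
  set N : ℝ → ℝ := fun t => M t + E (κ - t) with hN
  have hN0 : ∀ t, 0 ≤ N t := fun t => add_nonneg (hM0 t) (hE0 _)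
  have hNi : ∀ x y, IntervalIntegrable N volume x y := fun x y =>
    hMm.intervalIntegrable.add hEa.intervalIntegrable
  have hNm : Measurable N := hMm.measurable.add hEa.measurable
  set G : ℝ → ℝ := fun t => v 0 + ∫ s in (0:ℝ)..t, N s with hG
  have hGc : Continuous G :=
    continuous_const.add (intervalIntegral.continuous_primitive (fun x y => hNi x y) 0)
  have hGd : ∀ t, ContinuousAt N t → HasDerivAt G (N t) t := fun t ht =>
    (intervalIntegral.integral_hasDerivAt_right (hNi 0 t)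
      hNm.stronglyMeasurable.stronglyMeasurableAtFilter ht).const_add _
  have hG0 : ∀ t, 0 ≤ t → 0 ≤ G t := fun t ht =>
    add_nonneg hv0 (intervalIntegral.integral_nonneg ht fun s _ => hN0 s)
  set R : ℝ → ℝ := fun t => ∫ s in (0:ℝ)..t, G s with hR
  have hRd : ∀ t, HasDerivAt R (G t) t := fun t =>
    intervalIntegral.integral_hasDerivAt_right (hGc.intervalIntegrable _ _)
      hGc.stronglyMeasurable.stronglyMeasurableAtFilter hGc.continuousAt
  have hRc : Continuous R := continuous_iff_continuousAt.2 fun y => (hRd y).continuousAt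
  have hRm : ∀ s t, 0 ≤ s → s ≤ t → R s ≤ R t := fun s t hs hst => by
    have h1 : R t - R s = ∫ x in s..t, G x := by
      rw [sub_eq_iff_eq_add, add_comm]
      exact (intervalIntegral.integral_add_adjacent_intervals
        (hGc.intervalIntegrable _ _) (hGc.intervalIntegrable _ _)).symm
    have h2 : 0 ≤ ∫ x in s..t, G x :=
      intervalIntegral.integral_nonneg hst fun x hx => hG0 x (hs.trans hx.1)
    linarith
  have hvG : ∀ t ∈ Icc 0 t0, v t ≤ G t := fun t ht => by
    obtain ⟨h1, h2⟩ := gp_int hv ha le_rfl ht.1 (ht.2.trans htT.le)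
    have h3 : ∫ s in (0:ℝ)..t, a s ≤ ∫ s in (0:ℝ)..t, N s := by
      refine intervalIntegral.integral_mono_ae_restrict ht.1 h1 (hNi 0 t) ?_
      refine (ae_restrict_iff' measurableSet_Icc).2 ?_
      filter_upwards [hupp, Measure.ae_ne volume 0, Measure.ae_ne volume t] with s hs hs0 hst hsI
      have hs1 : 0 < s := lt_of_le_of_ne hsI.1 (Ne.symm hs0)
      have hs2 : s < t := lt_of_le_of_ne hsI.2 hst
      exact hs ⟨hs1, lt_of_lt_of_le hs2 ht.2⟩ (M s) (hM0 s)
        (hMu s (by linarith [ht.2]))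
    simp only [hG]
    linarith
  have huR : ∀ t ∈ Icc 0 t0, u t ≤ R t := fun t ht => by
    obtain ⟨h1, h2⟩ := gp_u hu hvc le_rfl ht.1 (ht.2.trans htT.le)
    have h3 : ∫ s in (0:ℝ)..t, v s ≤ ∫ s in (0:ℝ)..t, G s :=
      intervalIntegral.integral_mono_on ht.1 h1 (hGc.intervalIntegrable _ _)
        fun s hs => hvG s ⟨hs.1, hs.2.trans ht.2⟩
    simp only [hR]
    linarith
  have hMR : ∀ t ∈ Icc 0 t0, M t ≤ R t := fun t ht => by
    have h1 : min t T = t := min_eq_left (ht.2.trans htT.le)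
    simp only [hM, h1]
    refine csSup_le ⟨u 0, 0, ⟨le_rfl, ht.1⟩, rfl⟩ ?_
    rintro _ ⟨x, hx, rfl⟩
    exact (huR x ⟨hx.1, hx.2.trans ht.2⟩).trans (hRm x t hx.1 hx.2)
  -- the test function
  set Φ : ℝ → ℝ := fun τ => G τ * Real.sinh (t0 - τ) + R τ * Real.cosh (t0 - τ) with hΦ
  have hsh : Continuous fun τ : ℝ => Real.sinh (t0 - τ) :=
    Real.continuous_sinh.comp (continuous_const.sub continuous_id)
  have hch : Continuous fun τ : ℝ => Real.cosh (t0 - τ) :=
    Real.continuous_cosh.comp (continuous_const.sub continuous_id)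
  have hΦc : Continuous Φ := (hGc.mul hsh).add (hRc.mul hch)
  set S : Set ℝ := {t | ¬ ContinuousAt M t} ∪ {t | ¬ ContinuousAt (fun t => E (κ - t)) t} with hS
  have hSc : S.Countable := hMm.countable_not_continuousAt.union hEa.countable_not_continuousAt
  have hΦd : ∀ τ ∈ Ioo (0:ℝ) t0 \ S, HasDerivAt Φ ((N τ - R τ) * Real.sinh (t0 - τ)) τ := by
    rintro τ ⟨_, hτ⟩
    have h1 : ContinuousAt M τ := by
      by_contra h; exact hτ (Or.inl h)
    have h2 : ContinuousAt (fun t => E (κ - t)) τ := by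
      by_contra h; exact hτ (Or.inr h)
    have h3 := hGd τ (h1.add h2)
    have h4 : HasDerivAt (fun τ : ℝ => Real.sinh (t0 - τ)) (-Real.cosh (t0 - τ)) τ := by
      exact ((Real.hasDerivAt_sinh (t0 - τ)).comp τ ((hasDerivAt_id τ).const_sub t0)).congr_deriv
        (by ring)
    have h5 : HasDerivAt (fun τ : ℝ => Real.cosh (t0 - τ)) (-Real.sinh (t0 - τ)) τ := by
      exact ((Real.hasDerivAt_cosh (t0 - τ)).comp τ ((hasDerivAt_id τ).const_sub t0)).congr_deriv
        (by ring)
    have h6 := (h3.mul h4).add ((hRd τ).mul h5)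
    refine h6.congr_deriv ?_
    ring
  have hIi : IntervalIntegrable (fun τ => (N τ - R τ) * Real.sinh (t0 - τ)) volume 0 t0 :=
    ((hNi 0 t0).sub (hRc.intervalIntegrable _ _)).mul_continuousOn hsh.continuousOn
  have hmain := integral_eq_of_hasDerivAt_off_countable_of_le Φ _ ht0 hSc hΦc.continuousOn hΦd hIi
  have hEi : IntervalIntegrable (fun τ => Real.sinh (t0 - τ) * E (κ - τ)) volume 0 t0 :=
    (hEa.intervalIntegrable).continuousOn_mul hsh.continuousOn
  have hle : ∫ τ in (0:ℝ)..t0, (N τ - R τ) * Real.sinh (t0 - τ) ≤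
      ∫ τ in (0:ℝ)..t0, Real.sinh (t0 - τ) * E (κ - τ) := by
    refine intervalIntegral.integral_mono_on ht0 hIi hEi fun τ hτ => ?_
    have h1 := hMR τ hτ
    have h2 : 0 ≤ Real.sinh (t0 - τ) := Real.sinh_nonneg_iff.2 (by linarith [hτ.2])
    simp only [hN]
    nlinarith
  have hΦ1 : Φ t0 = R t0 := by simp [hΦ]
  have hΦ0 : Φ 0 = v 0 * Real.sinh t0 := by simp [hΦ, hG, hR]
  rw [hΦ1, hΦ0] at hmain
  intro t ht
  have h1 := huR t ht
  have h2 := hRm t t0 ht.1 ht.2
  linarith

/-- one excursion `u > 0` of length `T`: `D` bounds the opposite part of the history, `E` the part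
of the same sign; `t0` is the end of the acceleration phase used in the estimate -/
theorem gap {κ T t0 : ℝ} {D E u v a : ℝ → ℝ} (hD : Pf D) (hE : Monotone E) (hE0 : ∀ r, 0 ≤ E r)
    (ht0 : 0 ≤ t0) (ht1 : t0 ≤ 1.4) (htκ : t0 ≤ κ) (htT : t0 < T)
    (hu : ∀ t ∈ Icc 0 T, HasDerivWithinAt u (v t) (Icc 0 T) t)
    (hv : AbsolutelyContinuousOnInterval v 0 T)
    (ha : ∀ᵐ t, t ∈ Ioo 0 T → HasDerivAt v (a t) t)
    (hlow : ∀ᵐ t, t ∈ Ioo t0 T → -(D (κ - t)) ≤ a t)
    (hupp : ∀ᵐ t, t ∈ Ioo 0 t0 → ∀ B, 0 ≤ B → (∀ t' ∈ Icc 0 t, u t' ≤ B) → a t ≤ B + E (κ - t))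
    (hu0 : u 0 = 0) (huT : u T = 0) (hupos : ∀ t ∈ Icc 0 T, 0 ≤ u t) :
    let A := v 0 * Real.sinh t0 + ∫ τ in (0:ℝ)..t0, Real.sinh (t0 - τ) * E (κ - τ)
    let q := (A + I2 D (κ - t0) - I2 D (κ - T)) / (T - t0)
    (-(v T) ≤ q - I1 D (κ - T)) ∧
    (∀ r ∈ Icc 0 (T - t0), u (T - r) ≤ r * q + I2 D (κ - T) - I2 D (r + κ - T)) ∧
    (∀ t ∈ Icc 0 t0, u t ≤ A) := by
  intro A q
  have hT : 0 < T := lt_of_le_of_lt ht0 htT
  have hTR : 0 < T - t0 := sub_pos.2 htT
  have huc : ContinuousOn u (Icc 0 T) := fun t ht => (hu t ht).continuousWithinAt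
  have hvc : ContinuousOn v (Icc 0 T) := by
    have := hv.continuousOn
    rwa [uIcc_of_le hT.le] at this
  -- `v 0 ≥ 0`
  have hv0 : 0 ≤ v 0 := by
    by_contra hneg
    push Not at hneg
    -- `v < 0` on a right neighbourhood of `0`
    have h1 : ∀ᶠ t in 𝓝[Icc 0 T] (0:ℝ), v t < 0 :=
      (hvc 0 ⟨le_rfl, hT.le⟩).eventually (Iio_mem_nhds hneg)
    rw [nhdsWithin_Icc_eq_nhdsGE hT] at h1
    obtain ⟨δ, hδ, hδ'⟩ := mem_nhdsGE_iff_exists_Icc_subset.1 h1
    have hδ0 : (0:ℝ) < δ := hδ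
    set y := min δ T with hy
    have hy0 : 0 < y := lt_min hδ0 hT
    obtain ⟨h2, h3⟩ := gp_u hu hvc le_rfl hy0.le (min_le_right _ _)
    have h4 : (∫ t in (0:ℝ)..y, v t) < 0 := by
      have h5 : 0 < ∫ t in (0:ℝ)..y, (- v t) := by
        refine intervalIntegral.intervalIntegral_pos_of_pos_on h2.neg (fun t ht => ?_) hy0
        have : v t < 0 := hδ' ⟨ht.1.le, ht.2.le.trans (min_le_left _ _)⟩
        linarith
      rw [intervalIntegral.integral_neg] at h5
      linarith
    have h6 := hupos y ⟨hy0.le, min_le_right _ _⟩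
    linarith
  have hacc := gp_acc hE hE0 ht0 htT hu hv ha hupp hu0 hv0
  have hA : u t0 ≤ A := hacc t0 ⟨ht0, le_rfl⟩
  -- the function `h`
  set h : ℝ → ℝ := fun r => u (T - r) + I2 D (r + κ - T) with hh
  set h' : ℝ → ℝ := fun r => -v (T - r) + I1 D (r + κ - T) with hh'
  have hI1c := gp_cont hD.cont
  have hI2c := gp2_cont hD.cont
  have hmono : ∀ r1 r2, 0 ≤ r1 → r1 ≤ r2 → r2 ≤ T - t0 → h' r1 ≤ h' r2 := by
    intro r1 r2 h1 h12 h2
    obtain ⟨hi, hi'⟩ := gp_int hv ha (x := T - r2) (y := T - r1) (by linarith) (by linarith)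
      (by linarith)
    have hcD : Continuous fun t => -(D (κ - t)) := by
      have := hD.cont
      fun_prop
    have h3 : ∫ t in (T - r2)..(T - r1), -(D (κ - t)) ≤ ∫ t in (T - r2)..(T - r1), a t := by
      refine intervalIntegral.integral_mono_ae_restrict (by linarith)
        (hcD.intervalIntegrable _ _) hi ?_
      refine (ae_restrict_iff' measurableSet_Icc).2 ?_
      filter_upwards [hlow, Measure.ae_ne volume t0, Measure.ae_ne volume T] with t ht htn htT' htI
      refine ht ⟨lt_of_le_of_ne ?_ (Ne.symm htn), lt_of_le_of_ne ?_ htT'⟩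
      · linarith [htI.1]
      · linarith [htI.2]
    have h4 : ∫ t in (T - r2)..(T - r1), -(D (κ - t)) =
        I1 D (r1 + κ - T) - I1 D (r2 + κ - T) := by
      rw [intervalIntegral.integral_neg, intervalIntegral.integral_comp_sub_left (fun t => D t) κ]
      have : ∫ x in (κ - (T - r1))..(κ - (T - r2)), D x =
          I1 D (κ - (T - r2)) - I1 D (κ - (T - r1)) :=
        intervalIntegral.integral_eq_sub_of_hasDerivAt (fun y _ => gp_hasDerivAt hD.cont y)
          (hD.cont.intervalIntegrable _ _)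
      rw [this, show κ - (T - r2) = r2 + κ - T by ring, show κ - (T - r1) = r1 + κ - T by ring]
      ring
    simp only [hh']
    linarith
  have hder : ∀ r ∈ Ioo 0 (T - t0), HasDerivAt h (h' r) r := by
    intro r hr
    have h1 : HasDerivAt u (v (T - r)) (T - r) :=
      (hu (T - r) ⟨by linarith [hr.2], by linarith [hr.1]⟩).hasDerivAt
        (Icc_mem_nhds (by linarith [hr.2]) (by linarith [hr.1]))
    have h2 : HasDerivAt (fun r => u (T - r)) (-v (T - r)) r :=
      (h1.comp r ((hasDerivAt_id r).const_sub T)).congr_deriv (by ring)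
    have h3' : HasDerivAt (fun r : ℝ => r + κ - T) 1 r :=
      ((hasDerivAt_id r).add_const κ).sub_const T
    have h3 : HasDerivAt (fun r => I2 D (r + κ - T)) (I1 D (r + κ - T)) r :=
      (HasDerivAt.comp (h₂ := I2 D) (h := fun r : ℝ => r + κ - T) r
        (gp2_hasDerivAt hD.cont (r + κ - T)) h3').congr_deriv (by ring)
    exact h2.add h3
  have hcont : ContinuousOn h (Icc 0 (T - t0)) := by
    refine ContinuousOn.add ?_ (by fun_prop : Continuous fun r => I2 D (r + κ - T)).continuousOn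
    refine huc.comp (by fun_prop : Continuous fun r : ℝ => T - r).continuousOn ?_
    intro r hr
    exact ⟨by linarith [hr.2], by linarith [hr.1]⟩
  -- the two mean value inequalities
  have hmv : ∀ r ∈ Icc 0 (T - t0), ∀ x ∈ Icc 0 (T - t0), h r + (x - r) * h' r ≤ h x := by
    intro r hr x hx
    rcases le_total r x with hrx | hrx
    · have hg : MonotoneOn (fun y => h y - y * h' r) (Icc r x) := by
        refine monotoneOn_of_hasDerivWithinAt_nonneg (f' := fun y => h' y - h' r) (convex_Icc r x)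
          ?_ ?_ ?_
        · refine (hcont.mono (Icc_subset_Icc hr.1 hx.2)).sub ?_
          exact (by fun_prop : Continuous fun y : ℝ => y * h' r).continuousOn
        · intro y hy
          rw [interior_Icc] at hy
          have h1 := hder y ⟨lt_of_le_of_lt hr.1 hy.1, lt_of_lt_of_le hy.2 hx.2⟩
          exact ((h1.sub ((hasDerivAt_id y).mul_const (h' r))).congr_deriv
            (by ring)).hasDerivWithinAt
        · intro y hy
          rw [interior_Icc] at hy
          have := hmono r y hr.1 hy.1.le (hy.2.le.trans hx.2)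
          linarith
      have h2 := hg (left_mem_Icc.2 hrx) (right_mem_Icc.2 hrx) hrx
      simp only at h2
      linarith
    · have hg : AntitoneOn (fun y => h y - y * h' r) (Icc x r) := by
        refine antitoneOn_of_hasDerivWithinAt_nonpos (f' := fun y => h' y - h' r) (convex_Icc x r)
          ?_ ?_ ?_
        · refine (hcont.mono (Icc_subset_Icc hx.1 hr.2)).sub ?_
          exact (by fun_prop : Continuous fun y : ℝ => y * h' r).continuousOn
        · intro y hy
          rw [interior_Icc] at hy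
          have h1 := hder y ⟨lt_of_le_of_lt hx.1 hy.1, lt_of_lt_of_le hy.2 hr.2⟩
          exact ((h1.sub ((hasDerivAt_id y).mul_const (h' r))).congr_deriv
            (by ring)).hasDerivWithinAt
        · intro y hy
          rw [interior_Icc] at hy
          have := hmono y r (hx.1.trans hy.1.le) hy.2.le hr.2
          linarith
      have h2 := hg (left_mem_Icc.2 hrx) (right_mem_Icc.2 hrx) hrx
      simp only at h2
      linarith
  have h0 : h 0 = I2 D (κ - T) := by
    simp only [hh, sub_zero, huT, zero_add]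
  have hR : h (T - t0) ≤ A + I2 D (κ - t0) := by
    simp only [hh]
    rw [show T - (T - t0) = t0 by ring, show T - t0 + κ - T = κ - t0 by ring]
    linarith
  have hq : (T - t0) * q = A + I2 D (κ - t0) - I2 D (κ - T) := by
    simp only [q]
    field_simp
  refine ⟨?_, ?_, hacc⟩
  · have h1 := hmv 0 ⟨le_rfl, hTR.le⟩ (T - t0) ⟨hTR.le, le_rfl⟩
    have h2 : h' 0 = -v T + I1 D (κ - T) := by simp only [hh', sub_zero, zero_add]
    have h3 : (T - t0) * h' 0 ≤ (T - t0) * q := by
      rw [hq]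
      linarith
    have h4 : h' 0 ≤ q := le_of_mul_le_mul_left h3 hTR
    linarith
  · intro r hr
    have h1 := hmv r hr 0 ⟨le_rfl, hTR.le⟩
    have h2 := hmv r hr (T - t0) ⟨hTR.le, le_rfl⟩
    -- combine with the weights `(T - t0 - r) / (T - t0)` and `r / (T - t0)`
    have h3 : (T - t0 - r) * (h r + (0 - r) * h' r) ≤ (T - t0 - r) * h 0 :=
      mul_le_mul_of_nonneg_left h1 (by linarith [hr.2])
    have h4 : r * (h r + (T - t0 - r) * h' r) ≤ r * (A + I2 D (κ - t0)) :=
      mul_le_mul_of_nonneg_left (h2.trans hR) hr.1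
    rw [h0] at h3
    have h5 : (T - t0) * h r ≤ (T - t0) * (r * q + I2 D (κ - T)) := by
      have : (T - t0) * (r * q + I2 D (κ - T)) =
          r * (A + I2 D (κ - t0) - I2 D (κ - T)) + (T - t0) * I2 D (κ - T) := by
        rw [← hq]; ring
      rw [this]
      nlinarith
    have h6 : h r ≤ r * q + I2 D (κ - T) := le_of_mul_le_mul_left h5 hTR
    simp only [hh] at h6
    linarith

end Pool.Agent.CDk
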