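import Pool.Agent.CDk.Defs
import Pool.Agent.CDk.GAP

open MeasureTheory Set Filter Topology

namespace Pool.Agent.CDk

section basic
variable {D : ℝ → ℝ}

theorem Pf.nonneg (hD : Pf D) (y : ℝ) : 0 ≤ D y := by
  rcases le_total y 0 with hy | hy
  · rw [hD.zero y hy]
  · rw [← hD.zero 0 le_rfl]; exact hD.mono hy

theorem I1_deriv (hD : Pf D) (y : ℝ) : HasDerivAt (I1 D) (D y) y :=
  intervalIntegral.integral_hasDerivAt_right (hD.cont.intervalIntegrable _ _)
    (hD.cont.stronglyMeasurableAtFilter _ _) hD.cont.continuousAt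

theorem I1_cont (hD : Pf D) : Continuous (I1 D) := by
  rw [continuous_iff_continuousAt]
  exact fun y => (I1_deriv hD y).continuousAt

theorem I1_zero (hD : Pf D) {y : ℝ} (hy : y ≤ 0) : I1 D y = 0 := by
  unfold I1
  rw [intervalIntegral.integral_congr (g := fun _ => (0:ℝ))]
  · simp
  · intro t ht
    rw [uIcc_of_ge hy] at ht
    exact hD.zero t ht.2

theorem I1_mono (hD : Pf D) : Monotone (I1 D) :=
  monotone_of_hasDerivAt_nonneg (fun y => I1_deriv hD y) (fun y => hD.nonneg y)

theorem I1_pf (hD : Pf D) : Pf (I1 D) :=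
  ⟨I1_cont hD, I1_mono hD, fun _ hy => I1_zero hD hy⟩

theorem I2_eq (D : ℝ → ℝ) : I2 D = I1 (I1 D) := rfl

theorem I2_deriv (hD : Pf D) (y : ℝ) : HasDerivAt (I2 D) (I1 D y) y := I1_deriv (I1_pf hD) y

theorem I2_pf (hD : Pf D) : Pf (I2 D) := I1_pf (I1_pf hD)

/-- convexity of `I2 D` from the origin -/
theorem I2_convex (hD : Pf D) {a b : ℝ} (ha : 0 ≤ a) (hab : a ≤ b) (hb : 0 < b) :
    I2 D a ≤ a / b * I2 D b := by
  -- (I2 D) a ≤ a * I1 a and I2 b ≥ I2 a + (b-a) I1 a
  have h1 : I2 D a ≤ a * I1 D a := by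
    unfold I2
    calc ∫ t in (0:ℝ)..a, I1 D t ≤ ∫ t in (0:ℝ)..a, I1 D a := by
          apply intervalIntegral.integral_mono_on ha ((I1_cont hD).intervalIntegrable _ _)
            (continuous_const.intervalIntegrable _ _)
          intro t ht
          exact I1_mono hD ht.2
      _ = a * I1 D a := by simp
  have h2 : I2 D a + (b - a) * I1 D a ≤ I2 D b := by
    have : I2 D b - I2 D a = ∫ t in a..b, I1 D t := by
      unfold I2
      rw [intervalIntegral.integral_interval_sub_left] <;>
        exact (I1_cont hD).intervalIntegrable _ _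
    have h3 : (b - a) * I1 D a ≤ ∫ t in a..b, I1 D t := by
      calc (b - a) * I1 D a = ∫ t in a..b, I1 D a := by simp
        _ ≤ _ := by
          apply intervalIntegral.integral_mono_on hab (continuous_const.intervalIntegrable _ _)
            ((I1_cont hD).intervalIntegrable _ _)
          intro t ht
          exact I1_mono hD ht.1
    linarith
  rw [div_mul_eq_mul_div, le_div_iff₀ hb]
  nlinarith [(I1_pf hD).nonneg a, (I2_pf hD).nonneg a]

end basic

/-- virtual states: total `N`, opening part `V = N - I2 D Y ≥ N/10` and profile `D` -/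
structure VS (P : Par) (N δ : ℝ) (D : ℝ → ℝ) : Prop where
  pf : Pf D
  pos : 0 < N
  op : N ≤ 10 * (N - I2 D P.Y)
  tube : P.Tube δ (fun y => I1 D y / N)

variable {P : Par}



/-- the potential -/
noncomputable def Phi (P : Par) (N δ : ℝ) (D : ℝ → ℝ) : ℝ :=
  Real.log (N * P.psi (fun y => I1 D y / N)) + 50 * δ^2


end Pool.Agent.CDk
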