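import Pool.Agent.CDk.Defs

open MeasureTheory Set Filter Topology

namespace Pool.Agent.CDk.Par
variable {P : Par}

/-- the kernel of `I' - ι(r) N'` -/
noncomputable def ker (P : Par) (r v : ℝ) : ℝ := max (r - v) 0 - P.io r * (P.Y - v)^2/2

/-- the derivative in `e` of `If e ι r - ι(r) Nf e ι` -/
noncomputable def dH (P : Par) (e c r : ℝ) : ℝ :=
  -(P.q e)^2 * (∫ v in (0:ℝ)..(c + e), P.ker r v) + (∫ y in (0:ℝ)..c, P.ker r (y + e) * (P.D y / P.L))
    + P.io r * (P.sg * (P.q e)^2)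


end Pool.Agent.CDk.Par
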