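import Pool.Agent.CDk.GAP

open MeasureTheory Set Filter Topology

namespace Pool.Agent.CDk

/-- the slope and the profile after an excursion with parameter `e ≥ 0` -/
noncomputable def Fq (Y e V : ℝ) (D : ℝ → ℝ) : ℝ := (V + I2 D Y) / (Y + e)
noncomputable def FD (Y e V : ℝ) (D : ℝ → ℝ) (r : ℝ) : ℝ :=
  ∫ v in (0:ℝ)..(max r 0), max (Fq Y e V D - I1 D (v - e)) 0

private theorem D_nn {D : ℝ → ℝ} (hD : Pf D) (y : ℝ) : 0 ≤ D y := by
  rcases le_total y 0 with h | h
  · exact (hD.zero y h).ge
  · rw [← hD.zero 0 le_rfl]; exact hD.mono h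

private theorem I1_hasDerivAt {D : ℝ → ℝ} (hD : Continuous D) (y : ℝ) :
    HasDerivAt (I1 D) (D y) y :=
  intervalIntegral.integral_hasDerivAt_right (hD.intervalIntegrable _ _)
    hD.stronglyMeasurable.stronglyMeasurableAtFilter hD.continuousAt

private theorem I1_cont {D : ℝ → ℝ} (hD : Continuous D) : Continuous (I1 D) :=
  continuous_iff_continuousAt.2 fun y => (I1_hasDerivAt hD y).continuousAt

private theorem I2_hasDerivAt {D : ℝ → ℝ} (hD : Continuous D) (y : ℝ) :
    HasDerivAt (I2 D) (I1 D y) y := I1_hasDerivAt (I1_cont hD) y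

private theorem I2_cont {D : ℝ → ℝ} (hD : Continuous D) : Continuous (I2 D) :=
  I1_cont (I1_cont hD)

private theorem I1_zero {D : ℝ → ℝ} (hD : Pf D) {y : ℝ} (hy : y ≤ 0) : I1 D y = 0 := by
  unfold I1
  rw [intervalIntegral.integral_symm, neg_eq_zero]
  rw [intervalIntegral.integral_congr (g := fun _ => (0 : ℝ))]
  · simp
  · intro t ht
    rw [uIcc_of_le hy] at ht
    exact hD.zero t ht.2

private theorem I1_mono {D : ℝ → ℝ} (hD : Pf D) : Monotone (I1 D) :=
  monotone_of_deriv_nonneg (fun y => (I1_hasDerivAt hD.cont y).differentiableAt) fun y => by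
    rw [(I1_hasDerivAt hD.cont y).deriv]
    exact D_nn hD y

private theorem I1_pf {D : ℝ → ℝ} (hD : Pf D) : Pf (I1 D) :=
  ⟨I1_cont hD.cont, I1_mono hD, fun _ hy => I1_zero hD hy⟩

private theorem I2_zero {D : ℝ → ℝ} (hD : Pf D) {y : ℝ} (hy : y ≤ 0) : I2 D y = 0 :=
  I1_zero (I1_pf hD) hy

private theorem I2_mono {D : ℝ → ℝ} (hD : Pf D) : Monotone (I2 D) := I1_mono (I1_pf hD)

private theorem FD_integrand_cont {Y e V : ℝ} {D : ℝ → ℝ} (hD : Continuous D) :
    Continuous fun v => max (Fq Y e V D - I1 D (v - e)) 0 := by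
  have := I1_cont hD
  fun_prop

theorem FD_pf {Y e V : ℝ} {D : ℝ → ℝ} (hD : Pf D) : Pf (FD Y e V D) := by
  have hc := FD_integrand_cont (Y := Y) (e := e) (V := V) hD.cont
  have hG : ∀ y, HasDerivAt (fun r => ∫ v in (0:ℝ)..r, max (Fq Y e V D - I1 D (v - e)) 0)
      (max (Fq Y e V D - I1 D (y - e)) 0) y := fun y =>
    intervalIntegral.integral_hasDerivAt_right (hc.intervalIntegrable _ _)
      hc.stronglyMeasurable.stronglyMeasurableAtFilter hc.continuousAt
  have hGm : Monotone (fun r => ∫ v in (0:ℝ)..r, max (Fq Y e V D - I1 D (v - e)) 0) :=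
    monotone_of_deriv_nonneg (fun y => (hG y).differentiableAt) fun y => by
      rw [(hG y).deriv]
      exact le_max_right _ _
  have hGc : Continuous (fun r => ∫ v in (0:ℝ)..r, max (Fq Y e V D - I1 D (v - e)) 0) :=
    continuous_iff_continuousAt.2 fun y => (hG y).continuousAt
  refine ⟨?_, ?_, ?_⟩
  · exact hGc.comp (continuous_id.max continuous_const)
  · intro a b hab
    exact hGm (max_le_max_right 0 hab)
  · intro y hy
    unfold FD
    rw [max_eq_right hy]
    simp

/-- the integral of `q - I1 D (v - e)` -/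
private theorem int_lin {e q : ℝ} {D : ℝ → ℝ} (hD : Pf D) (he : 0 ≤ e) (r : ℝ) :
    (∫ v in (0:ℝ)..r, (q - I1 D (v - e))) = r * q - I2 D (r - e) := by
  have hc := I1_cont hD.cont
  rw [intervalIntegral.integral_sub (by simp)
    ((by fun_prop : Continuous fun v => I1 D (v - e)).intervalIntegrable _ _)]
  rw [intervalIntegral.integral_comp_sub_right (fun v => I1 D v) e]
  have h1 : (∫ v in (0 - e)..(r - e), I1 D v) = I2 D (r - e) - I2 D (0 - e) :=
    intervalIntegral.integral_eq_sub_of_hasDerivAt (fun y _ => I2_hasDerivAt hD.cont y)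
      (hc.intervalIntegrable _ _)
  rw [h1, I2_zero hD (show (0:ℝ) - e ≤ 0 by linarith), sub_zero]
  simp

private theorem FD_sup' {Y e V : ℝ} {D : ℝ → ℝ} (hD : Pf D) (he : 0 ≤ e)
    {r r' : ℝ} (hr : 0 ≤ r') (hrr : r' ≤ r) :
    r' * Fq Y e V D - I2 D (r' - e) ≤ FD Y e V D r := by
  have h1 : FD Y e V D r' ≤ FD Y e V D r := (FD_pf hD).mono hrr
  refine le_trans ?_ h1
  rw [← int_lin hD he]
  unfold FD
  rw [max_eq_left hr]
  have hc := I1_cont hD.cont
  refine intervalIntegral.integral_mono_on hr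
    ((by fun_prop : Continuous fun v => Fq Y e V D - I1 D (v - e)).intervalIntegrable _ _)
    ((FD_integrand_cont hD.cont).intervalIntegrable _ _) fun v _ => le_max_left _ _

/-- the sup formula -/
theorem FD_sup {Y e V : ℝ} {D : ℝ → ℝ} (hD : Pf D) (hY : 0 < Y) (he : 0 ≤ e) (hV : 0 ≤ V)
    {r r' : ℝ} (hr : 0 ≤ r') (hrr : r' ≤ r) :
    r' * Fq Y e V D - I2 D (r' - e) ≤ FD Y e V D r := FD_sup' hD he hr hrr

/-- the sup formula is attained -/
private theorem FD_att {Y e V : ℝ} {D : ℝ → ℝ} (hD : Pf D) (he : 0 ≤ e) {r : ℝ} (hr : 0 ≤ r) :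
    ∃ r', 0 ≤ r' ∧ r' ≤ r ∧ FD Y e V D r = r' * Fq Y e V D - I2 D (r' - e) := by
  set q := Fq Y e V D with hq
  have hc := I1_cont hD.cont
  have hcc : Continuous fun v => I1 D (v - e) := by fun_prop
  have hci : Continuous fun v => max (q - I1 D (v - e)) 0 := FD_integrand_cont hD.cont
  rcases lt_or_ge q 0 with hq0 | hq0
  · refine ⟨0, le_rfl, hr, ?_⟩
    rw [I2_zero hD (by linarith), zero_mul, sub_zero]
    unfold FD
    rw [max_eq_left hr, intervalIntegral.integral_congr (g := fun _ => (0 : ℝ))]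
    · simp
    · intro v _
      have h1 : 0 ≤ I1 D (v - e) := D_nn (I1_pf hD) _
      exact max_eq_right (by linarith)
  · -- the last point with `I1 D (v - e) ≤ q`
    set S : Set ℝ := {v | v ∈ Icc 0 r ∧ I1 D (v - e) ≤ q} with hS
    have hSc : IsCompact S := by
      have : S = Icc 0 r ∩ {v | I1 D (v - e) ≤ q} := rfl
      rw [this]
      exact isCompact_Icc.inter_right (isClosed_le hcc continuous_const)
    have h0S : (0 : ℝ) ∈ S := ⟨⟨le_rfl, hr⟩, by rw [I1_zero hD (by linarith)]; exact hq0⟩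
    obtain ⟨r', hr'S, hmax⟩ := hSc.exists_isGreatest ⟨0, h0S⟩
    refine ⟨r', hr'S.1.1, hr'S.1.2, ?_⟩
    rw [← int_lin hD he]
    unfold FD
    rw [max_eq_left hr, ← intervalIntegral.integral_add_adjacent_intervals
      (hci.intervalIntegrable 0 r') (hci.intervalIntegrable r' r)]
    have h2 : (∫ v in r'..r, max (q - I1 D (v - e)) 0) = 0 := by
      rw [intervalIntegral.integral_congr_ae (g := fun _ => (0 : ℝ))]
      · simp
      · refine Eventually.of_forall fun v hv => ?_
        rw [uIoc_of_le hr'S.1.2] at hv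
        refine max_eq_right ?_
        by_contra hcon
        push Not at hcon
        have h3 : v ∈ S := ⟨⟨hr'S.1.1.trans hv.1.le, hv.2⟩, by linarith⟩
        exact absurd (hmax h3) (not_le.2 hv.1)
    rw [h2, add_zero]
    refine intervalIntegral.integral_congr fun v hv => ?_
    rw [uIcc_of_le hr'S.1.1] at hv
    refine max_eq_left ?_
    have h3 : I1 D (v - e) ≤ I1 D (r' - e) := I1_mono hD (by linarith [hv.2])
    linarith [hr'S.2]

private theorem G_facts {Y : ℝ} {D D' : ℝ → ℝ} (hD : Pf D) (hD' : Pf D')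
    (hDD : ∀ r ≤ Y, D r ≤ D' r) :
    ConvexOn ℝ (Iic Y) (fun y => I2 D' y - I2 D y) ∧
      MonotoneOn (fun y => I2 D' y - I2 D y) (Iic Y) := by
  have hG : ∀ y, HasDerivAt (fun y => I2 D' y - I2 D y) (I1 D' y - I1 D y) y := fun y =>
    (I2_hasDerivAt hD'.cont y).sub (I2_hasDerivAt hD.cont y)
  have hG1 : ∀ y, HasDerivAt (fun y => I1 D' y - I1 D y) (D' y - D y) y := fun y =>
    (I1_hasDerivAt hD'.cont y).sub (I1_hasDerivAt hD.cont y)
  have hG1m : MonotoneOn (fun y => I1 D' y - I1 D y) (Iic Y) := by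
    refine monotoneOn_of_deriv_nonneg (convex_Iic Y)
      (fun y _ => (hG1 y).continuousAt.continuousWithinAt)
      (fun y _ => (hG1 y).differentiableAt.differentiableWithinAt) fun y hy => ?_
    rw [(hG1 y).deriv]
    have := hDD y (show y ∈ Iic Y from interior_subset hy)
    linarith
  have hG1nn : ∀ y ≤ Y, 0 ≤ I1 D' y - I1 D y := by
    intro y hy
    have h1 : I1 D' (min y 0) - I1 D (min y 0) = 0 := by
      rw [I1_zero hD (min_le_right _ _), I1_zero hD' (min_le_right _ _), sub_self]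
    rw [← h1]
    exact hG1m ((min_le_left y 0).trans hy) hy (min_le_left _ _)
  refine ⟨?_, ?_⟩
  · refine MonotoneOn.convexOn_of_deriv (convex_Iic Y)
      (fun y _ => (hG y).continuousAt.continuousWithinAt)
      (fun y _ => (hG y).differentiableAt.differentiableWithinAt) ?_
    intro a ha b hb hab
    rw [(hG a).deriv, (hG b).deriv]
    exact hG1m (interior_subset ha) (interior_subset hb) hab
  · refine monotoneOn_of_deriv_nonneg (convex_Iic Y)
      (fun y _ => (hG y).continuousAt.continuousWithinAt)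
      (fun y _ => (hG y).differentiableAt.differentiableWithinAt) fun y hy => ?_
    rw [(hG y).deriv]
    exact hG1nn y (show y ∈ Iic Y from interior_subset hy)

theorem F_mono {Y e V V' : ℝ} {D D' : ℝ → ℝ} (hD : Pf D) (hD' : Pf D') (hY : 0 < Y) (he : 0 ≤ e)
    (hV : V ≤ V') (hDD : ∀ r ≤ Y, D r ≤ D' r) :
    Fq Y e V D ≤ Fq Y e V' D' ∧ ∀ r ≤ Y, FD Y e V D r ≤ FD Y e V' D' r := by
  obtain ⟨hconv, hmono⟩ := G_facts hD hD' hDD
  have hYe : 0 < Y + e := by linarith
  set G : ℝ → ℝ := fun y => I2 D' y - I2 D y with hG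
  have hG0 : ∀ y ≤ 0, G y = 0 := fun y hy => by
    simp only [hG, I2_zero hD hy, I2_zero hD' hy, sub_self]
  have hGY : 0 ≤ G Y := by
    rw [← hG0 0 le_rfl]
    exact hmono hY.le (le_refl Y) hY.le
  have hqq : Fq Y e V D + (G Y) / (Y + e) ≤ Fq Y e V' D' := by
    unfold Fq
    rw [← add_div]
    refine div_le_div_of_nonneg_right ?_ hYe.le
    simp only [hG]
    linarith
  refine ⟨?_, ?_⟩
  · have : 0 ≤ (G Y) / (Y + e) := div_nonneg hGY hYe.le
    linarith
  · intro r hrY
    rcases le_total r 0 with hr | hr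
    · rw [(FD_pf hD).zero r hr, (FD_pf hD').zero r hr]
    obtain ⟨r', hr0, hrr, hatt⟩ := FD_att (Y := Y) (e := e) (V := V) hD he hr
    rw [hatt]
    refine le_trans ?_ (FD_sup' (Y := Y) (e := e) (V := V') hD' he hr0 hrr)
    have hr'Y : r' ≤ Y := hrr.trans hrY
    have h1 : G (r' - e) ≤ r' * (G Y / (Y + e)) := by
      have ha : (0 : ℝ) ≤ 1 - r' / (Y + e) := by
        rw [sub_nonneg, div_le_one hYe]; linarith
      have hb : (0 : ℝ) ≤ r' / (Y + e) := div_nonneg hr0 hYe.le
      have h2 := hconv.2 (x := -e) (y := Y) (show -e ≤ Y by linarith) (le_refl Y) ha hb (by ring)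
      have h3 : (1 - r' / (Y + e)) • (-e) + (r' / (Y + e)) • Y = r' - e := by
        rw [smul_eq_mul, smul_eq_mul]
        field_simp
        ring
      rw [h3] at h2
      have h4 : G (-e) = 0 := hG0 _ (by linarith)
      have h5 : G (r' - e) ≤ (1 - r' / (Y + e)) • G (-e) + (r' / (Y + e)) • G Y := h2
      rw [h4, smul_zero, zero_add, smul_eq_mul] at h5
      calc G (r' - e) ≤ r' / (Y + e) * G Y := h5
        _ = r' * (G Y / (Y + e)) := by ring
    have h2 := mul_le_mul_of_nonneg_left hqq hr0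
    simp only [hG] at h1 h2
    rw [mul_add] at h2
    linarith

theorem F_homog {Y e V c : ℝ} {D : ℝ → ℝ} (hc : 0 ≤ c) :
    Fq Y e (c * V) (fun r => c * D r) = c * Fq Y e V D ∧
    ∀ r, FD Y e (c * V) (fun r => c * D r) r = c * FD Y e V D r := by
  have h1 : ∀ y, I1 (fun r => c * D r) y = c * I1 D y := fun y => by
    unfold I1
    rw [intervalIntegral.integral_const_mul]
  have h2 : ∀ y, I2 (fun r => c * D r) y = c * I2 D y := fun y => by
    unfold I2
    simp only [h1]
    rw [intervalIntegral.integral_const_mul]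
  have h3 : Fq Y e (c * V) (fun r => c * D r) = c * Fq Y e V D := by
    unfold Fq
    rw [h2, ← mul_add, mul_div_assoc]
  refine ⟨h3, fun r => ?_⟩
  unfold FD
  rw [h3, ← intervalIntegral.integral_const_mul]
  refine intervalIntegral.integral_congr fun v _ => ?_
  rw [h1, ← mul_sub, mul_max_of_nonneg _ _ hc, mul_zero]

/-- `I1 D y ≤ y D y` and `D y (Y - y)² / 2 ≤ I2 D Y` -/
private theorem I1_le {D : ℝ → ℝ} (hD : Pf D) {y : ℝ} (hy : 0 ≤ y) : I1 D y ≤ y * D y := by
  have h1 : I1 D y ≤ ∫ _t in (0:ℝ)..y, D y :=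
    intervalIntegral.integral_mono_on hy (hD.cont.intervalIntegrable _ _) (by simp)
      fun t ht => hD.mono ht.2
  simpa using h1

private theorem I2_ge {D : ℝ → ℝ} (hD : Pf D) {y Y : ℝ} (hy : 0 ≤ y) (hyY : y ≤ Y) :
    D y * (Y - y) ^ 2 / 2 ≤ I2 D Y := by
  -- monotone auxiliary functions
  have h1 : ∀ t ∈ Ici y, D y * (t - y) ≤ I1 D t := by
    intro t ht
    have hm : MonotoneOn (fun t => I1 D t - D y * (t - y)) (Ici y) := by
      have hd : ∀ t, HasDerivAt (fun t => I1 D t - D y * (t - y)) (D t - D y * 1) t := fun t =>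
        (I1_hasDerivAt hD.cont t).sub (((hasDerivAt_id t).sub_const y).const_mul (D y))
      refine monotoneOn_of_deriv_nonneg (convex_Ici y)
        (fun t _ => (hd t).continuousAt.continuousWithinAt)
        (fun t _ => (hd t).differentiableAt.differentiableWithinAt) fun t ht => ?_
      rw [(hd t).deriv, mul_one]
      have := hD.mono (show y ≤ t from interior_subset ht)
      linarith
    have h2 := hm (self_mem_Ici) ht ht
    simp only [sub_self, mul_zero, sub_zero] at h2
    have h3 : 0 ≤ I1 D y := D_nn (I1_pf hD) y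
    linarith
  have hm : MonotoneOn (fun t => I2 D t - D y * (t - y) ^ 2 / 2) (Ici y) := by
    have hd : ∀ t, HasDerivAt (fun t => I2 D t - D y * (t - y) ^ 2 / 2)
        (I1 D t - D y * (t - y)) t := by
      intro t
      have h2 : HasDerivAt (fun t => D y * (t - y) ^ 2 / 2) (D y * (t - y)) t := by
        have h3 := (((hasDerivAt_id t).sub_const y).pow 2).const_mul (D y) |>.div_const 2
        refine h3.congr_deriv ?_
        simp
        ring
      exact (I2_hasDerivAt hD.cont t).sub h2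
    refine monotoneOn_of_deriv_nonneg (convex_Ici y)
      (fun t _ => (hd t).continuousAt.continuousWithinAt)
      (fun t _ => (hd t).differentiableAt.differentiableWithinAt) fun t ht => ?_
    rw [(hd t).deriv]
    have := h1 t (interior_subset ht)
    linarith
  have h2 := hm (self_mem_Ici) (show Y ∈ Ici y from hyY) hyY
  simp only [sub_self] at h2
  have h3 : 0 ≤ I2 D y := D_nn (I1_pf (I1_pf hD)) y
  have h4 : D y * (0:ℝ) ^ 2 / 2 = 0 := by ring
  rw [h4] at h2
  linarith

/-- strict decrease when `V` is replaced by `lam V` -/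
theorem F_strict {Y lam : ℝ} (hY : 0 < Y) (h0 : 0 ≤ lam) (h1 : lam < 1) : ∃ η, 0 < η ∧ η < 1 ∧
    ∀ (e V : ℝ) (D : ℝ → ℝ), 0 ≤ e → 0 < V → Pf D → V + I2 D Y ≤ 10 * V →
      Fq Y e (lam * V) D ≤ (1 - η) * Fq Y e V D ∧
      ∀ r, 0 ≤ r → r ≤ Y → FD Y e (lam * V) D r ≤ (1 - η) * FD Y e V D r := by
  refine ⟨(1 - lam) / 50, by linarith, by linarith, ?_⟩
  intro e V D he hV hD hI
  have hYe : 0 < Y + e := by linarith
  have hI2 : 0 ≤ I2 D Y := D_nn (I1_pf (I1_pf hD)) Y
  set q := Fq Y e V D with hq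
  set ql := Fq Y e (lam * V) D with hql
  have hq0 : 0 < q := div_pos (by linarith) hYe
  have hql0 : 0 ≤ ql := div_nonneg (by positivity) hYe.le
  have hdiff : (1 - lam) / 10 * q ≤ q - ql := by
    rw [hq, hql]
    unfold Fq
    rw [← sub_div, ← mul_div_assoc]
    refine div_le_div_of_nonneg_right ?_ hYe.le
    have h2 : (1 - lam) / 10 * (V + I2 D Y) ≤ (1 - lam) / 10 * (10 * V) :=
      mul_le_mul_of_nonneg_left hI (by linarith)
    linarith
  refine ⟨?_, ?_⟩
  · have h2 : (1 - lam) / 50 * q ≤ (1 - lam) / 10 * q :=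
      mul_le_mul_of_nonneg_right (by linarith) hq0.le
    linarith
  intro r hr hrY
  have hc := I1_cont hD.cont
  have hi1 : Continuous fun v => max (q - I1 D (v - e)) 0 := FD_integrand_cont hD.cont
  have hi2 : Continuous fun v => max (ql - I1 D (v - e)) 0 := FD_integrand_cont hD.cont
  have hq5 : ∀ v, v ≤ Y / 5 → I1 D (v - e) ≤ ql := by
    intro v hv
    rcases le_total (v - e) 0 with h2 | h2
    · rw [I1_zero hD h2]; exact hql0
    · set y := v - e with hy
      have hy5 : y ≤ Y / 5 := by linarith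
      have he5 : Y + e ≤ 6 / 5 * Y := by linarith
      have h3 := I1_le hD h2
      have h4 := I2_ge hD h2 (show y ≤ Y by linarith)
      have hDn := D_nn hD y
      have h5 : D y * (4 / 5 * Y) ^ 2 / 2 ≤ I2 D Y := by
        refine le_trans ?_ h4
        have : (4 / 5 * Y) ^ 2 ≤ (Y - y) ^ 2 := pow_le_pow_left₀ (by linarith) (by linarith) 2
        have := mul_le_mul_of_nonneg_left this hDn
        linarith
      have h6 : y * D y ≤ Y / 5 * D y := mul_le_mul_of_nonneg_right hy5 hDn
      have h7 : I1 D y * Y ≤ 5 / 8 * I2 D Y := by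
        have h8 : I1 D y * Y ≤ Y / 5 * D y * Y :=
          mul_le_mul_of_nonneg_right (h3.trans h6) hY.le
        have h9 : Y / 5 * D y * Y = 5 / 8 * (D y * (4 / 5 * Y) ^ 2 / 2) := by ring
        rw [h9] at h8
        linarith
      have h10 : I2 D Y ≤ ql * (Y + e) := by
        rw [hql]
        unfold Fq
        rw [div_mul_cancel₀ _ hYe.ne']
        have : 0 ≤ lam * V := mul_nonneg h0 hV.le
        linarith
      have h11 : ql * (Y + e) ≤ ql * (6 / 5 * Y) := mul_le_mul_of_nonneg_left he5 hql0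
      have h12 : I1 D y * Y ≤ ql * Y := by
        have : 0 ≤ ql * Y := mul_nonneg hql0 hY.le
        nlinarith
      exact le_of_mul_le_mul_right h12 hY
  have hdiffint : FD Y e V D r - FD Y e (lam * V) D r =
      ∫ v in (0:ℝ)..r, (max (q - I1 D (v - e)) 0 - max (ql - I1 D (v - e)) 0) := by
    unfold FD
    rw [max_eq_left hr, intervalIntegral.integral_sub (hi1.intervalIntegrable _ _)
      (hi2.intervalIntegrable _ _)]
  have hlow : (1 - lam) / 10 * q * min r (Y / 5) ≤ FD Y e V D r - FD Y e (lam * V) D r := by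
    rw [hdiffint]
    set m := min r (Y / 5) with hm
    have hm0 : 0 ≤ m := le_min hr (by linarith)
    have hmr : m ≤ r := min_le_left _ _
    have hi3 : Continuous fun v => max (q - I1 D (v - e)) 0 - max (ql - I1 D (v - e)) 0 :=
      hi1.sub hi2
    rw [← intervalIntegral.integral_add_adjacent_intervals
      (hi3.intervalIntegrable 0 m) (hi3.intervalIntegrable m r)]
    have h2 : (1 - lam) / 10 * q * m ≤
        ∫ v in (0:ℝ)..m, (max (q - I1 D (v - e)) 0 - max (ql - I1 D (v - e)) 0) := by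
      have h3 : (∫ _v in (0:ℝ)..m, (1 - lam) / 10 * q) = (1 - lam) / 10 * q * m := by
        rw [intervalIntegral.integral_const]; simp; ring
      rw [← h3]
      refine intervalIntegral.integral_mono_on hm0 (by simp)
        (hi3.intervalIntegrable _ _) fun v hv => ?_
      have h4 := hq5 v (hv.2.trans (min_le_right _ _))
      have h5 : (0:ℝ) ≤ (1 - lam) / 10 * q := by
        have : 0 ≤ (1 - lam) / 10 := by linarith
        positivity
      rw [max_eq_left (by linarith), max_eq_left (by linarith)]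
      linarith
    have h3 : 0 ≤ ∫ v in m..r, (max (q - I1 D (v - e)) 0 - max (ql - I1 D (v - e)) 0) := by
      refine intervalIntegral.integral_nonneg hmr fun v _ => ?_
      have h5 : (0:ℝ) ≤ (1 - lam) / 10 * q := by
        have : 0 ≤ (1 - lam) / 10 := by linarith
        positivity
      have : max (ql - I1 D (v - e)) 0 ≤ max (q - I1 D (v - e)) 0 :=
        max_le_max_right 0 (by linarith)
      linarith
    linarith
  have hup : FD Y e V D r ≤ q * r := by
    unfold FD
    rw [max_eq_left hr]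
    have h3 : (∫ _v in (0:ℝ)..r, q) = q * r := by
      rw [intervalIntegral.integral_const]; simp; ring
    rw [← h3]
    refine intervalIntegral.integral_mono_on hr (hi1.intervalIntegrable _ _) (by simp)
      fun v _ => ?_
    have h4 : 0 ≤ I1 D (v - e) := D_nn (I1_pf hD) _
    exact max_le (by linarith) hq0.le
  have hmin : r / 5 ≤ min r (Y / 5) := le_min (by linarith) (by linarith)
  have h2 : (1 - lam) / 10 * q * (r / 5) ≤ (1 - lam) / 10 * q * min r (Y / 5) := by
    refine mul_le_mul_of_nonneg_left hmin ?_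
    have : 0 ≤ (1 - lam) / 10 := by linarith
    positivity
  have h3 : (1 - lam) / 50 * FD Y e V D r ≤ (1 - lam) / 50 * (q * r) :=
    mul_le_mul_of_nonneg_left hup (by linarith)
  linarith

end Pool.Agent.CDk
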