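import Mathlib

namespace Pool.Agent.CDk.T1c

/-- scaled weight -/
def W (y : ℕ) : ℕ := min (3 * y ^ 2) (10 ^ 12) + 4 * 10 ^ 6 * (y - 1400000)

/-- upper bound on one cell -/
def cell (r k1 k2 e v : ℕ) : ℕ :=
  max (2 * 10 ^ 12 * (r - v) - k1 * (2543961 - (v + 2500)) ^ 2)
    (k2 * (2543965 - v) ^ 2 - 2 * 10 ^ 12 * (r - (v + 2500))) * W (v + 2500 - e)

/-- sum over `n` cells from `v` -/
def cells (r k1 k2 e : ℕ) : ℕ → ℕ → ℕ
  | 0, _ => 0
  | n + 1, v => cell r k1 k2 e v + cells r k1 k2 e n (v + 2500)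

theorem num1 : cells 570000 60302 60317 0 624 0 ≤ 68 * 10 ^ 30 ∧
    cells 700000 90156 90170 0 624 0 ≤ 90 * 10 ^ 30 ∧
    cells 800000 116740 116754 0 624 0 ≤ 105 * 10 ^ 30 ∧
    cells 900000 146225 146240 0 624 0 ≤ 117 * 10 ^ 30 ∧
    cells 1000000 178353 178368 0 624 0 ≤ 126 * 10 ^ 30 ∧
    cells 1100000 212836 212850 0 624 0 ≤ 133 * 10 ^ 30 ∧
    cells 1200000 249356 249371 0 624 0 ≤ 137 * 10 ^ 30 ∧
    cells 1300000 287575 287590 0 624 0 ≤ 137 * 10 ^ 30 ∧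
    cells 1400000 327130 327145 0 624 0 ≤ 137 * 10 ^ 30 ∧
    cells 1500000 367644 367659 0 624 0 ≤ 138 * 10 ^ 30 ∧
    cells 1800000 491241 491263 0 624 0 ≤ 190 * 10 ^ 30 ∧
    cells 2200000 656286 656317 0 624 0 ≤ 380 * 10 ^ 30 := by
  decide +kernel

theorem num2 : cells 570000 60302 60317 120000 608 120000 ≤ 68 * 10 ^ 30 ∧
    cells 700000 90156 90170 120000 608 120000 ≤ 84 * 10 ^ 30 ∧
    cells 800000 116740 116754 120000 608 120000 ≤ 97 * 10 ^ 30 ∧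
    cells 900000 146225 146240 120000 608 120000 ≤ 107 * 10 ^ 30 ∧
    cells 1000000 178353 178368 120000 608 120000 ≤ 115 * 10 ^ 30 ∧
    cells 1100000 212836 212850 120000 608 120000 ≤ 120 * 10 ^ 30 ∧
    cells 1200000 249356 249371 120000 608 120000 ≤ 121 * 10 ^ 30 ∧
    cells 1300000 287575 287590 120000 608 120000 ≤ 121 * 10 ^ 30 ∧
    cells 1400000 327130 327145 120000 608 120000 ≤ 121 * 10 ^ 30 ∧
    cells 1500000 367644 367659 120000 608 120000 ≤ 121 * 10 ^ 30 ∧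
    cells 1800000 491241 491263 120000 608 120000 ≤ 180 * 10 ^ 30 ∧
    cells 2200000 656286 656317 120000 608 120000 ≤ 360 * 10 ^ 30 := by
  decide +kernel

theorem num3 : cells 570000 60302 60317 400000 572 400000 ≤ 60 * 10 ^ 30 ∧
    cells 700000 90156 90170 400000 572 400000 ≤ 70 * 10 ^ 30 ∧
    cells 800000 116740 116754 400000 572 400000 ≤ 80 * 10 ^ 30 ∧
    cells 900000 146225 146240 400000 572 400000 ≤ 95 * 10 ^ 30 ∧
    cells 1000000 178353 178368 400000 572 400000 ≤ 105 * 10 ^ 30 ∧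
    cells 1100000 212836 212850 400000 572 400000 ≤ 107 * 10 ^ 30 ∧
    cells 1200000 249356 249371 400000 572 400000 ≤ 107 * 10 ^ 30 ∧
    cells 1300000 287575 287590 400000 572 400000 ≤ 107 * 10 ^ 30 ∧
    cells 1400000 327130 327145 400000 572 400000 ≤ 107 * 10 ^ 30 ∧
    cells 1500000 367644 367659 400000 572 400000 ≤ 107 * 10 ^ 30 ∧
    cells 1800000 491241 491263 400000 572 400000 ≤ 120 * 10 ^ 30 ∧
    cells 2200000 656286 656317 400000 572 400000 ≤ 310 * 10 ^ 30 := by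
  decide +kernel

end Pool.Agent.CDk.T1c
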