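import Pool.Agent.CDk.CX
import Pool.Agent.CDk.ENC
import Pool.Agent.CDk.FNa
import Pool.Agent.CDk.FNb
import Pool.Agent.CDk.Ker
import Pool.Agent.CDk.T1n

open MeasureTheory Set Filter Topology



namespace Pool.Agent.CDk.Par
variable {P : Par}

/-- `I y ≤ y D y` -/
theorem t1_I_le (h : P.Star) {y : ℝ} (hy : 0 ≤ y) : P.I y ≤ y * P.D y := by
  rcases hy.eq_or_lt with rfl | hlt
  · rw [I_zero h le_rfl]; simp
  · obtain ⟨ξ, hξ, h1⟩ := exists_hasDerivAt_eq_slope P.I P.D hlt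
      (fun x _ => (I_deriv h x).continuousAt.continuousWithinAt) (fun x _ => I_deriv h x)
    rw [I_zero h le_rfl, sub_zero, sub_zero, eq_div_iff hlt.ne'] at h1
    have h2 : P.D ξ ≤ P.D y := D_mono h hξ.2.le
    nlinarith

/-- `I(a - e)(Y + e)` decreases -/
theorem t1_anti (h : P.Star) {a : ℝ} (ha : a ≤ 2) :
    AntitoneOn (fun e => P.I (a - e) * (P.Y + e)) (Ici 0) := by
  have hY := (Y_pos h).1
  have hd : ∀ e : ℝ, HasDerivAt (fun e => P.I (a - e) * (P.Y + e))
      (-(P.D (a - e)) * (P.Y + e) + P.I (a - e) * 1) e := fun e =>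
    ((I_deriv h (a - e)).comp_const_sub a e).mul ((hasDerivAt_id e).const_add P.Y)
  refine antitoneOn_of_deriv_nonpos (convex_Ici 0)
    (fun e _ => (hd e).continuousAt.continuousWithinAt)
    (fun e _ => (hd e).differentiableAt.differentiableWithinAt) fun e he => ?_
  rw [interior_Ici] at he
  rw [(hd e).deriv]
  have he0 : 0 < e := he
  rcases le_or_gt (a - e) 0 with h1 | h1
  · rw [I_zero h h1, D_zero h h1]
    simp
  · have h2 := t1_I_le h h1.le
    have h3 : 0 ≤ P.D (a - e) := by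
      have := D_mono h h1.le
      rwa [D_zero h le_rfl] at this
    nlinarith only [h2, h3, ha, hY, he0]

/-- lower bound of `c + e` -/
theorem t1_cpe (h : P.Star) {e1 e c a : ℝ} (ha : a ≤ 2) (he1 : 0 ≤ e1) (he : e1 ≤ e)
    (h0 : P.I (a - e1) * (P.Y + e1) ≤ P.L) (hc0 : 0 ≤ c) (hc : P.io c = P.q e) : a ≤ c + e := by
  by_contra hcon
  push Not at hcon
  have hY := (Y_pos h).1
  have hL := cx_L_pos h
  have h1 : P.io c < P.io (a - e) := cx_strict h hc0 (by linarith only [hcon])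
  have h2 := t1_anti h ha (mem_Ici.2 he1) (mem_Ici.2 (he1.trans he)) he
  dsimp only at h2
  rw [hc] at h1
  unfold io q at h1
  rw [div_lt_div_iff₀ (by linarith) hL] at h1
  linarith

/-- the facts on the crossing which are used -/
theorem t1_c (h : P.Star) {x c : ℝ} (hx : -P.e0 ≤ x) (hx1 : x ≤ 1)
    (hc : P.io c = P.q (P.e0 + x)) : 1.24 ≤ c ∧ c ≤ 1.5625 ∧ 1.5615 ≤ c + (P.e0 + x) ∧
      (0 ≤ x → c ≤ P.ρ - P.e0 ∧ P.ρ ≤ c + (P.e0 + x)) := by
  obtain ⟨c', hc', h1, h2, h3, h4, h5⟩ := cross h (e := P.e0 + x) (by linarith) (by linarith)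
  have hcc : c = c' := cross_unique h (by linarith) hc hc'
  subst hcc
  obtain ⟨hY1, hY2, hL1, hL2⟩ := Y_pos h
  have hL := cx_L_pos h
  have hρ := h.ρ_lo
  have hρ' := h.ρ_hi
  have helo := h.e_lo
  have hehi := h.e_hi
  refine ⟨h1, ?_, ?_, fun hx0 => ⟨h4 (by linarith only [hx0]), ?_⟩⟩
  · by_contra hcon
    push Not at hcon
    have a1 : P.io 1.5625 < P.io c := cx_strict h (by norm_num) hcon
    have a2 : P.q (P.e0 + x) ≤ P.q 0 := cx_q_anti h le_rfl (by linarith only [hx])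
    rw [hc] at a1
    have a3 := abs_le.1 (I_app h (y := 1.5625) (by norm_num) (by linarith only [h2, hρ, hcon]))
    have a4 : (1.0484 : ℝ) ≤ PI 1.5625 := by unfold PI; norm_num
    have a5 : P.q 0 < P.io 1.5625 := by
      unfold q io
      rw [div_lt_div_iff₀ (by linarith only [h2, hY1, hcon]) hL]
      have : (1.048385 : ℝ) * 2.543961 ≤ P.I 1.5625 * (P.Y + 0) :=
        mul_le_mul (by linarith only [a3.1, a3, a4]) (by linarith only [hY1]) (by norm_num) (by linarith only [a3.1, h2, hcon, a3, a4])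
      linarith only [h2, hL2, hcon, this]
    linarith only [a1, a2, a5]
  · refine t1_cpe h (by norm_num) le_rfl (by linarith only [hx]) ?_ (by linarith only [h1, hρ, hρ']) hc
    have a3 := abs_le.1 (I_app h (y := 1.5615) (by norm_num) (by linarith only [hρ, hρ']))
    have a4 : PI 1.5615 ≤ 1.04735 := by unfold PI; norm_num
    have a5 : P.I (1.5615 - 0) * (P.Y + 0) ≤ 1.04737 * 2.543965 := by
      rw [sub_zero, add_zero]
      exact mul_le_mul (by linarith only [a3.2, hρ, hρ', a3, a4]) hY2.le (by linarith only [hY1, hρ, hρ']) (by norm_num)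
    linarith only [hL1, hρ, hρ', a5]
  · refine t1_cpe h (by linarith only [hρ, hρ']) (e1 := P.e0) (by linarith only [hρ, hρ', helo]) (by linarith only [hx0]) ?_ (by linarith only [h1, hρ, hρ']) hc
    rw [I_rho h]
    unfold Y L
    linarith only []

theorem t1_io_mono (h : P.Star) : Monotone P.io := cx_mono h

theorem t1_I_bd (h : P.Star) : P.I 1.4 ≤ 0.8722 := by
  have hρ := h.ρ_lo
  have a3 := abs_le.1 (I_app h (y := 1.4) (by norm_num) (by linarith))
  have a4 : PI 1.4 ≤ 0.87215 := by unfold PI; norm_num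
  linarith only [a3.2, a3, a4]

/-- `io r / w r` is at most `0.3272` -/
theorem t1_io_w (h : P.Star) {r : ℝ} (hr : 0 < r) : P.io r ≤ 0.3272 * w r := by
  obtain ⟨hY1, hY2, hL1, hL2⟩ := Y_pos h
  have hL := cx_L_pos h
  have h14 : P.io 1.4 ≤ 0.3272 := by
    unfold io
    rw [div_le_iff₀ hL]
    have := t1_I_bd h
    linarith only [hL1, hL2, this]
  rcases le_or_gt r 1.4 with h1 | h1
  · unfold w
    rw [max_eq_right (by linarith only [h1] : r - 1.4 ≤ 0), mul_zero, add_zero]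
    rcases le_total (3 * r ^ 2) 1 with h2 | h2
    · rw [min_eq_left h2]
      -- I r ≤ r^2 / 2 * max D' ≤ ...
      have h3 : P.I r ≤ r * P.D r := t1_I_le h hr.le
      have h4 : P.D r ≤ r := by
        rw [D_fix h hr.le]
        have h5 : ∫ v in (0:ℝ)..r, max (1 - P.I (v - P.e0)) 0 ≤ ∫ _v in (0:ℝ)..r, (1 : ℝ) := by
          refine intervalIntegral.integral_mono_on hr.le ?_ (by simp) fun v _ => ?_
          · have hc : Continuous fun v => max (1 - P.I (v - P.e0)) 0 :=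
              (continuous_const.sub ((continuous_iff_continuousAt.2 fun x =>
                (I_deriv h x).continuousAt).comp (continuous_id.sub continuous_const))).max
                continuous_const
            exact hc.intervalIntegrable _ _
          · refine max_le ?_ (by norm_num)
            have h6 : 0 ≤ P.I (v - P.e0) := by
              have := cx_mono h (le_max_right (v - P.e0) 0)
              rw [cx_zero h le_rfl] at this
              have h7 : 0 ≤ P.io (v - P.e0) ∨ v - P.e0 ≤ 0 := by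
                rcases le_total (v - P.e0) 0 with h8 | h8
                · exact Or.inr h8
                · rw [max_eq_left h8] at this
                  exact Or.inl this
              rcases h7 with h7 | h7
              · unfold io at h7
                rw [le_div_iff₀ hL] at h7
                linarith only [h7]
              · rw [I_zero h h7]
            linarith only [h6]
        refine h5.trans ?_
        simp
      have h6 : P.I r ≤ r ^ 2 := by nlinarith only [h3, hr, h4]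
      unfold io
      rw [div_le_iff₀ hL]
      nlinarith only [sq_nonneg r, h6, hL1]
    · rw [min_eq_right h2]
      have := cx_mono h h1
      linarith only [h14, this]
  · have h3 : w r = 1 + 4 * (r - 1.4) := by
      unfold w
      rw [min_eq_right (by nlinarith only [h1, hr]), max_eq_left (by linarith only [h1])]
    rw [h3]
    obtain ⟨ξ, h4, h5, h6⟩ := cx_mvt h h1
    have h7 := (io_slope h (y := ξ) (by linarith only [hL1, hL2, h4])).2
    have h8 : P.D ξ / P.L * (r - 1.4) ≤ 0.4127 * (r - 1.4) :=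
      mul_le_mul_of_nonneg_right h7 (by linarith only [h4, h5])
    linarith only [h14, h4, h5, h6, h8]

theorem t1_w_pos {r : ℝ} (hr : 0 < r) : 0 < w r := by
  unfold w
  have : 0 < min (3 * r ^ 2) 1 := lt_min (by positivity) (by norm_num)
  have h2 : 0 ≤ max (r - 1.4) 0 := le_max_right _ _
  linarith

/-- the kernel at distance from the crossing -/
theorem t1_ker (h : P.Star) {a r v : ℝ} (hr : 0 < r) (hr1 : r ≤ 2.2) (ha : 1.4 ≤ a)
    (ha2 : a ≤ 2.2) (hv : a ≤ v) (hv1 : v ≤ P.Y) :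
    |P.ker r v| ≤ max ((2.2 - a) / 4.2) (0.1636 * (P.Y - a) ^ 2) * w r := by
  have hw := t1_w_pos hr
  have hio : 0 ≤ P.io r := by
    have := cx_mono h hr.le
    rwa [cx_zero h le_rfl] at this
  have h1 : max (r - v) 0 ≤ (2.2 - a) / 4.2 * w r := by
    rcases le_or_gt r a with h2 | h2
    · rw [max_eq_right (by linarith)]
      have : 0 ≤ (2.2 - a) / 4.2 := div_nonneg (by linarith) (by norm_num)
      positivity
    · have h3 : w r = 1 + 4 * (r - 1.4) := by
        unfold w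
        rw [min_eq_right (by nlinarith only [ha, h2, hr]), max_eq_left (by linarith)]
      rw [h3]
      refine max_le ?_ ?_
      · have h4 : r - v ≤ r - a := by linarith
        refine h4.trans ?_
        rw [div_mul_eq_mul_div, le_div_iff₀ (by norm_num)]
        nlinarith only [mul_nonneg (sub_nonneg.2 hr1) (sub_nonneg.2 ha), hr1, ha]
      · have : 0 ≤ (2.2 - a) / 4.2 := div_nonneg (by linarith) (by norm_num)
        have : 0 ≤ 1 + 4 * (r - 1.4) := by linarith only [hr1, ha, h2]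
        positivity
  have h2 : P.io r * (P.Y - v) ^ 2 / 2 ≤ 0.1636 * (P.Y - a) ^ 2 * w r := by
    have h3 := t1_io_w h hr
    have h4 : (P.Y - v) ^ 2 ≤ (P.Y - a) ^ 2 := pow_le_pow_left₀ (by linarith only [hv1]) (by linarith only [hv]) 2
    have h5 : P.io r * (P.Y - v) ^ 2 ≤ (0.3272 * w r) * (P.Y - a) ^ 2 :=
      mul_le_mul h3 h4 (by positivity) (by positivity)
    linarith only [h5]
  have h3 : 0 ≤ max (r - v) 0 := le_max_right _ _
  have h4 : 0 ≤ P.io r * (P.Y - v) ^ 2 / 2 := by positivity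
  have h5 : (2.2 - a) / 4.2 * w r ≤ max ((2.2 - a) / 4.2) (0.1636 * (P.Y - a) ^ 2) * w r :=
    mul_le_mul_of_nonneg_right (le_max_left _ _) hw.le
  have h6 : 0.1636 * (P.Y - a) ^ 2 * w r ≤ max ((2.2 - a) / 4.2) (0.1636 * (P.Y - a) ^ 2) * w r :=
    mul_le_mul_of_nonneg_right (le_max_right _ _) hw.le
  unfold ker
  rw [abs_le]
  constructor <;> linarith

/-- the kernel near and beyond the crossing -/
theorem ker_bd (h : P.Star) {x c r v : ℝ} (hx : -P.e0 ≤ x) (hx1 : x ≤ 0.8)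
    (hc : P.io c = P.q (P.e0 + x)) (hr : 0 < r) (hr1 : r ≤ 2.2) (hv : c + (P.e0 + x) - 0.15 ≤ v)
    (hv1 : v ≤ P.Y) : |P.ker r v| ≤ 0.22 * w r ∧ (0 ≤ x → |P.ker r v| ≤ 0.19 * w r) := by
  obtain ⟨-, -, h1, h2⟩ := t1_c h hx (by linarith) hc
  obtain ⟨hY1, hY2, -, -⟩ := Y_pos h
  have hw := t1_w_pos hr
  have hρ := h.ρ_lo
  constructor
  · refine (t1_ker h hr hr1 (a := 1.4115) (by norm_num) (by norm_num) (by linarith only [hv, h1]) hv1).trans ?_
    refine mul_le_mul_of_nonneg_right (max_le (by norm_num) ?_) hw.le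
    have : (P.Y - 1.4115) ^ 2 ≤ 1.132465 ^ 2 := pow_le_pow_left₀ (by linarith only [hY1, hY2]) (by linarith only [hY2]) 2
    norm_num at this ⊢
    linarith only [hY1, hY2, this]
  · intro hx0
    have h3 := (h2 hx0).2
    refine (t1_ker h hr hr1 (a := 1.490087) (by norm_num) (by norm_num) (by linarith only [hv, hρ, h3]) hv1).trans ?_
    refine mul_le_mul_of_nonneg_right (max_le (by norm_num) ?_) hw.le
    have : (P.Y - 1.490087) ^ 2 ≤ 1.053878 ^ 2 := pow_le_pow_left₀ (by linarith only [hY1, hY2]) (by linarith only [hY2]) 2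
    norm_num at this ⊢
    linarith only [hY1, hY2, this]

theorem mb_near (h : P.Star) {x c v : ℝ} (hx : -P.e0 ≤ x) (hx1 : x ≤ 1)
    (hc : P.io c = P.q (P.e0 + x)) (hv1 : v ≤ P.Y) :
    (c + (P.e0 + x) - 0.15 ≤ v → P.mb v ≤ 0.65 ∧ (0 ≤ x → P.mb v ≤ 0.56)) ∧
    (c + (P.e0 + x) ≤ v → P.mb v ≤ 0.49 ∧ (0 ≤ x → P.mb v ≤ 0.42)) := by
  obtain ⟨-, -, h1, h2⟩ := t1_c h hx hx1 hc
  obtain ⟨hY1, hY2, -, -⟩ := Y_pos h
  have hρ := h.ρ_lo
  have hρ' := h.ρ_hi
  have helo := h.e_lo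
  have hehi := h.e_hi
  have hu := h.u_lo
  have hu' := h.u_hi
  refine ⟨fun hv => ⟨?_, fun hx0 => ?_⟩, fun hv => ⟨?_, fun hx0 => ?_⟩⟩
  · have a1 : P.mb v ≤ P.mb (P.ρ - 0.229) := mb_anti h (mem_Ici.2 (by linarith only [hρ, hρ']))
      (mem_Ici.2 (by linarith only [h1, hρ, hρ', hv])) (by linarith only [h1, hρ, hρ', hv])
    have a2 := abs_le.1 (mb_app h (t := 0.229) (by linarith only [hρ, hρ', hehi]) (by linarith only [hρ, hρ']))
    have a3 : PM 0.229 ≤ 0.645 := by unfold PM; norm_num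
    linarith only [a2.2, hρ, hρ', a1, a2, a3]
  · have h3 := (h2 hx0).2
    have a1 : P.mb v ≤ P.mb (P.ρ - 0.15) := mb_anti h (mem_Ici.2 (by linarith only [hρ, hρ']))
      (mem_Ici.2 (by linarith only [hρ, hρ', hv, h3])) (by linarith only [hv, h3])
    have a2 := abs_le.1 (mb_app h (t := 0.15) (by linarith only [hρ, hρ', hehi]) (by linarith only [hρ, hρ']))
    have a3 : PM 0.15 ≤ 0.559 := by unfold PM; norm_num
    linarith only [a2.2, hρ, hρ', a1, a2, a3]
  · rw [mb_out h (by linarith only [h1, hρ, hρ', helo, hv]), max_eq_left (by linarith only [hv1])]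
    have : (P.Y - v) ^ 2 ≤ 0.982465 ^ 2 := pow_le_pow_left₀ (by linarith only [hv1]) (by linarith only [h1, hY2, hv]) 2
    norm_num at this ⊢
    linarith only [hρ, hρ', this]
  · have h3 := (h2 hx0).2
    rw [mb_out h (by linarith only [hρ, hρ', helo, hv, h3]), max_eq_left (by linarith only [hv1])]
    have h4 : P.Y = P.ρ + P.u := rfl
    have : (P.Y - v) ^ 2 ≤ 0.903877 ^ 2 := pow_le_pow_left₀ (by linarith only [hv1]) (by linarith only [hu', hv, h3, h4]) 2
    norm_num at this ⊢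
    linarith only [hρ, hρ', this]

theorem w_c (h : P.Star) {x c : ℝ} (hx : -P.e0 ≤ x) (hx1 : x ≤ 1)
    (hc : P.io c = P.q (P.e0 + x)) : w c ≤ 1.65 ∧ (0 ≤ x → w c ≤ 1.475) := by
  obtain ⟨h0, h1, -, h2⟩ := t1_c h hx hx1 hc
  have hρ' := h.ρ_hi
  have helo := h.e_lo
  have h3 : min (3 * c ^ 2) 1 ≤ 1 := min_le_right _ _
  refine ⟨?_, fun hx0 => ?_⟩
  · have h4 : max (c - 1.4) 0 ≤ 0.1625 := max_le (by linarith only [h1]) (by norm_num)
    unfold w
    linarith only [h3, h4]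
  · have h5 := (h2 hx0).1
    have h4 : max (c - 1.4) 0 ≤ 0.11827 := max_le (by linarith only [hρ', helo, h5]) (by norm_num)
    unfold w
    linarith only [h3, h4]

end Pool.Agent.CDk.Par

namespace Pool.Agent.CDk.Par
variable {P : Par}

theorem w_cont : Continuous w := by
  unfold w
  fun_prop

theorem w_nonneg (y : ℝ) : 0 ≤ w y := by
  unfold w
  have h1 : 0 ≤ min (3 * y ^ 2) 1 := le_min (by positivity) (by norm_num)
  have h2 : 0 ≤ max (y - 1.4) 0 := le_max_right _ _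
  linarith

theorem w_mono {a b : ℝ} (ha : 0 ≤ a) (hab : a ≤ b) : w a ≤ w b := by
  unfold w
  have h1 : min (3 * a ^ 2) 1 ≤ min (3 * b ^ 2) 1 :=
    min_le_min (by nlinarith only [ha, hab]) le_rfl
  have h2 : max (a - 1.4) 0 ≤ max (b - 1.4) 0 := max_le_max (by linarith only [hab]) le_rfl
  linarith

theorem ker_cont (P : Par) (r : ℝ) : Continuous (P.ker r) := by
  unfold ker
  fun_prop

theorem t1_io_nonneg (h : P.Star) {r : ℝ} (hr : 0 ≤ r) : 0 ≤ P.io r := by
  have := cx_mono h hr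
  rwa [cx_zero h le_rfl] at this

/-! ### one cell -/

theorem W_cast {y : ℝ} {m : ℕ} (hy : 0 ≤ y) (hm : y * 10 ^ 6 ≤ m) : w y * 10 ^ 12 ≤ (T1c.W m : ℝ) := by
  obtain ⟨d, hd⟩ : ∃ d, d = m - 1400000 := ⟨_, rfl⟩
  have hd' : m ≤ d + 1400000 := by omega
  unfold w T1c.W
  rw [← hd, Nat.cast_add, Nat.cast_min, Nat.cast_mul, Nat.cast_mul, Nat.cast_pow]
  have h0 : 0 ≤ y * 10 ^ 6 := by positivity
  have h1 : min (3 * y ^ 2) 1 * 10 ^ 12 ≤ min (((3 : ℕ) : ℝ) * (m : ℝ) ^ 2) (((10 ^ 12 : ℕ) : ℝ)) := by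
    have e1 : (((10 ^ 12 : ℕ) : ℝ)) = 10 ^ 12 := by norm_num
    have e2 : ((3 : ℕ) : ℝ) = 3 := by norm_num
    rw [e1, e2]
    refine le_min ?_ ?_
    · have h2 : (y * 10 ^ 6) ^ 2 ≤ (m : ℝ) ^ 2 := pow_le_pow_left₀ h0 hm 2
      have h3 : min (3 * y ^ 2) 1 ≤ 3 * y ^ 2 := min_le_left _ _
      have h4 : (y * 10 ^ 6) ^ 2 = y ^ 2 * 10 ^ 12 := by ring
      rw [h4] at h2
      linarith only [h2, h3]
    · have h3 : min (3 * y ^ 2) 1 ≤ 1 := min_le_right _ _
      linarith only [h3]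
  have h2 : 4 * max (y - 1.4) 0 * 10 ^ 12 ≤ ((4 * 10 ^ 6 : ℕ) : ℝ) * (d : ℝ) := by
    have h3 : (m : ℝ) ≤ (d : ℝ) + 1400000 := by exact_mod_cast hd'
    have h4 : (0 : ℝ) ≤ (d : ℝ) := Nat.cast_nonneg _
    have e1 : ((4 * 10 ^ 6 : ℕ) : ℝ) = 4 * 10 ^ 6 := by norm_num
    rw [e1]
    rcases le_total (y - 1.4) 0 with h5 | h5
    · rw [max_eq_right h5]
      linarith only []
    · rw [max_eq_left h5]
      linarith only [hm, h3]
  rw [add_mul]
  exact add_le_add h1 h2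

theorem cell_core {io ker mx yt wt : ℝ} {ap am dm dp k1 k2 m : ℕ} (hio : 0 ≤ io) (hyt : 0 ≤ yt)
    (hwt : 0 ≤ wt) (hker : ker = mx - io * yt ^ 2 / 2) (a1 : mx * 10 ^ 6 ≤ ap) (a2 : (am : ℝ) ≤ mx * 10 ^ 6)
    (b1 : (dm : ℝ) ≤ yt * 10 ^ 6) (b2 : yt * 10 ^ 6 ≤ dp) (hk1 : (k1 : ℝ) ≤ io * 10 ^ 6)
    (hk2 : io * 10 ^ 6 ≤ k2) (hw : wt * 10 ^ 12 ≤ m) :
    |ker| * wt ≤ ((max (2 * 10 ^ 12 * ap - k1 * dm ^ 2) (k2 * dp ^ 2 - 2 * 10 ^ 12 * am) * m : ℕ) : ℝ) /
      (2 * 10 ^ 30) := by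
  have b1' : (k1 : ℝ) * (dm : ℝ) ^ 2 ≤ io * yt ^ 2 * 10 ^ 18 := by
    have h5 : (dm : ℝ) ^ 2 ≤ (yt * 10 ^ 6) ^ 2 := pow_le_pow_left₀ (Nat.cast_nonneg _) b1 2
    calc (k1 : ℝ) * (dm : ℝ) ^ 2 ≤ (io * 10 ^ 6) * (yt * 10 ^ 6) ^ 2 :=
          mul_le_mul hk1 h5 (by positivity) (by positivity)
      _ = io * yt ^ 2 * 10 ^ 18 := by ring
  have b2' : io * yt ^ 2 * 10 ^ 18 ≤ (k2 : ℝ) * (dp : ℝ) ^ 2 := by
    have h5 : (yt * 10 ^ 6) ^ 2 ≤ (dp : ℝ) ^ 2 := pow_le_pow_left₀ (by positivity) b2 2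
    calc io * yt ^ 2 * 10 ^ 18 = (io * 10 ^ 6) * (yt * 10 ^ 6) ^ 2 := by ring
      _ ≤ (k2 : ℝ) * (dp : ℝ) ^ 2 := mul_le_mul hk2 h5 (by positivity) (Nat.cast_nonneg _)
  have c1 : |ker| * (2 * 10 ^ 18) ≤
      ((max (2 * 10 ^ 12 * ap - k1 * dm ^ 2) (k2 * dp ^ 2 - 2 * 10 ^ 12 * am) : ℕ) : ℝ) := by
    have d1 : (2 * 10 ^ 12 * (ap : ℝ)) - (k1 : ℝ) * (dm : ℝ) ^ 2 ≤
        ((2 * 10 ^ 12 * ap - k1 * dm ^ 2 : ℕ) : ℝ) := by
      have h6 : ((2 * 10 ^ 12 * ap : ℕ) : ℝ) ≤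
          ((2 * 10 ^ 12 * ap - k1 * dm ^ 2 : ℕ) : ℝ) + ((k1 * dm ^ 2 : ℕ) : ℝ) := by
        exact_mod_cast (le_tsub_add : 2 * 10 ^ 12 * ap ≤ 2 * 10 ^ 12 * ap - k1 * dm ^ 2 + k1 * dm ^ 2)
      rw [Nat.cast_mul k1, Nat.cast_pow dm, Nat.cast_mul _ ap] at h6
      norm_num at h6 ⊢
      linarith
    have d2 : (k2 : ℝ) * (dp : ℝ) ^ 2 - 2 * 10 ^ 12 * (am : ℝ) ≤
        ((k2 * dp ^ 2 - 2 * 10 ^ 12 * am : ℕ) : ℝ) := by
      have h6 : ((k2 * dp ^ 2 : ℕ) : ℝ) ≤
          ((k2 * dp ^ 2 - 2 * 10 ^ 12 * am : ℕ) : ℝ) + ((2 * 10 ^ 12 * am : ℕ) : ℝ) := by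
        exact_mod_cast (le_tsub_add : k2 * dp ^ 2 ≤ k2 * dp ^ 2 - 2 * 10 ^ 12 * am + 2 * 10 ^ 12 * am)
      rw [Nat.cast_mul k2, Nat.cast_pow dp, Nat.cast_mul _ am] at h6
      norm_num at h6 ⊢
      linarith
    rw [Nat.cast_max]
    have e1 : ker * (2 * 10 ^ 18) = 2 * 10 ^ 12 * (mx * 10 ^ 6) - io * yt ^ 2 * 10 ^ 18 := by
      rw [hker]
      ring
    rcases abs_cases ker with ⟨h6, -⟩ | ⟨h6, -⟩
    · rw [h6, e1]
      refine le_trans ?_ (le_max_left _ _)
      linarith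
    · rw [h6, neg_mul, e1]
      refine le_trans ?_ (le_max_right _ _)
      linarith only [a2, b2', d2]
  rw [le_div_iff₀ (by positivity)]
  calc |ker| * wt * (2 * 10 ^ 30) = (|ker| * (2 * 10 ^ 18)) * (wt * 10 ^ 12) := by ring
    _ ≤ _ := by
        rw [Nat.cast_mul]
        exact mul_le_mul c1 hw (mul_nonneg hwt (by positivity)) (Nat.cast_nonneg _)

/-! ### interpolation in `r` -/

theorem D_lip (h : P.Star) {x y : ℝ} (hxy : x ≤ y) : P.D y - P.D x ≤ y - x := by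
  have hint : Continuous fun v => max (1 - P.I (v - P.e0)) 0 :=
    (continuous_const.sub ((I_cont h).comp (continuous_id.sub continuous_const))).max continuous_const
  have key : ∀ a b : ℝ, 0 ≤ a → a ≤ b → P.D b - P.D a ≤ b - a := by
    intro a b ha hab
    rw [D_fix h (ha.trans hab), D_fix h ha, intervalIntegral.integral_interval_sub_left
      (hint.intervalIntegrable _ _) (hint.intervalIntegrable _ _)]
    have h1 := intervalIntegral.integral_mono_on hab (hint.intervalIntegrable (μ := volume) _ _)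
      (continuous_const.intervalIntegrable (μ := volume) _ _) (g := fun _ => (1 : ℝ)) (fun v _ => by
        have := I_nonneg h (v - P.e0)
        exact max_le (by linarith) (by norm_num))
    refine h1.trans ?_
    simp
  rcases le_total 0 x with h0 | h0
  · exact key x y h0 hxy
  · rw [D_zero h h0]
    rcases le_total 0 y with h1 | h1
    · have := key 0 y le_rfl h1
      rw [D_zero h le_rfl] at this
      linarith
    · rw [D_zero h h1]
      linarith

/-- chord minus function, for `ι` -/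
theorem io_chord (h : P.Star) {r1 r2 l : ℝ} (hl0 : 0 ≤ l) (hl1 : l ≤ 1) :
    0 ≤ l * P.io r1 + (1 - l) * P.io r2 - P.io (l * r1 + (1 - l) * r2) ∧
    l * P.io r1 + (1 - l) * P.io r2 - P.io (l * r1 + (1 - l) * r2) ≤
      l * (1 - l) * (r2 - r1) ^ 2 / (2 * P.L) := by
  have hL := cx_L_pos h
  have hderiv : deriv P.I = P.D := by
    funext x
    exact (I_deriv h x).deriv
  have c1 : ConvexOn ℝ univ P.I := by
    refine Monotone.convexOn_univ_of_deriv (fun x => (I_deriv h x).differentiableAt) ?_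
    rw [hderiv]
    exact D_mono h
  have hd2 : ∀ x, HasDerivAt (fun x => x ^ 2 / 2 - P.I x) (x - P.D x) x := by
    intro x
    have := ((hasDerivAt_pow 2 x).div_const 2).sub (I_deriv h x)
    refine this.congr_deriv ?_
    push_cast
    ring
  have c2 : ConvexOn ℝ univ (fun x => x ^ 2 / 2 - P.I x) := by
    refine Monotone.convexOn_univ_of_deriv (fun x => (hd2 x).differentiableAt) ?_
    have : deriv (fun x => x ^ 2 / 2 - P.I x) = fun x => x - P.D x := by
      funext x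
      exact (hd2 x).deriv
    rw [this]
    intro x y hxy
    have := D_lip h hxy
    dsimp only
    linarith
  have e1 := c1.2 (mem_univ r1) (mem_univ r2) hl0 (by linarith : 0 ≤ 1 - l) (by ring)
  have e2 := c2.2 (mem_univ r1) (mem_univ r2) hl0 (by linarith : 0 ≤ 1 - l) (by ring)
  simp only [smul_eq_mul] at e1 e2
  have e3 : l * P.io r1 + (1 - l) * P.io r2 - P.io (l * r1 + (1 - l) * r2) =
      (l * P.I r1 + (1 - l) * P.I r2 - P.I (l * r1 + (1 - l) * r2)) / P.L := by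
    unfold io
    ring
  rw [e3]
  constructor
  · exact div_nonneg (by linarith only [e1]) hL.le
  · have e4 : l * (1 - l) * (r2 - r1) ^ 2 / (2 * P.L) = (l * (1 - l) * (r2 - r1) ^ 2 / 2) / P.L := by
      rw [div_div]
    rw [e4]
    refine div_le_div_of_nonneg_right ?_ hL.le
    nlinarith only [e2]

theorem pos_chord (z1 z2 l : ℝ) (hl0 : 0 ≤ l) (hl1 : l ≤ 1) :
    max (l * z1 + (1 - l) * z2) 0 ≤ l * max z1 0 + (1 - l) * max z2 0 := by
  refine max_le ?_ ?_
  · have h1 : l * z1 ≤ l * max z1 0 := mul_le_mul_of_nonneg_left (le_max_left _ _) hl0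
    have h2 : (1 - l) * z2 ≤ (1 - l) * max z2 0 :=
      mul_le_mul_of_nonneg_left (le_max_left _ _) (by linarith)
    linarith
  · have h1 : 0 ≤ l * max z1 0 := mul_nonneg hl0 (le_max_right _ _)
    have h2 : 0 ≤ (1 - l) * max z2 0 := mul_nonneg (by linarith) (le_max_right _ _)
    linarith

theorem ker_chord (h : P.Star) {r1 r2 l t : ℝ} (hl0 : 0 ≤ l) (hl1 : l ≤ 1) :
    |P.ker (l * r1 + (1 - l) * r2) t| ≤ l * |P.ker r1 t| + (1 - l) * |P.ker r2 t| +
      ((l * max (r1 - t) 0 + (1 - l) * max (r2 - t) 0 - max (l * r1 + (1 - l) * r2 - t) 0) +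
        l * (1 - l) * (r2 - r1) ^ 2 / (2 * P.L) * ((P.Y - t) ^ 2 / 2)) := by
  obtain ⟨a1, a2⟩ := io_chord h (r1 := r1) (r2 := r2) hl0 hl1
  have b1 := pos_chord (r1 - t) (r2 - t) l hl0 hl1
  have b2 : l * (r1 - t) + (1 - l) * (r2 - t) = l * r1 + (1 - l) * r2 - t := by ring
  rw [b2] at b1
  have hsq : 0 ≤ (P.Y - t) ^ 2 / 2 := by positivity
  have e1 := mul_le_mul_of_nonneg_right a2 hsq
  have e2 := mul_nonneg a1 hsq
  have k1 : l * P.ker r1 t ≤ l * |P.ker r1 t| := mul_le_mul_of_nonneg_left (le_abs_self _) hl0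
  have k2 : -(l * |P.ker r1 t|) ≤ l * P.ker r1 t := by
    have := mul_le_mul_of_nonneg_left (neg_abs_le (P.ker r1 t)) hl0
    linarith only [this]
  have k3 : (1 - l) * P.ker r2 t ≤ (1 - l) * |P.ker r2 t| :=
    mul_le_mul_of_nonneg_left (le_abs_self _) (by linarith only [hl1])
  have k4 : -((1 - l) * |P.ker r2 t|) ≤ (1 - l) * P.ker r2 t := by
    have := mul_le_mul_of_nonneg_left (neg_abs_le (P.ker r2 t)) (by linarith only [hl1] : 0 ≤ 1 - l)
    linarith only [this]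
  unfold ker at k1 k2 k3 k4 ⊢
  rw [abs_le]
  constructor
  · nlinarith only [e1, e2, k2, k4]
  · nlinarith only [b1, e1, k1, k3]

/-- the antiderivative of `(r - t)_+` -/
theorem pos_int (r a b : ℝ) : ∫ t in a..b, max (r - t) 0 =
    (max (r - a) 0) ^ 2 / 2 - (max (r - b) 0) ^ 2 / 2 := by
  have h1 : ∀ x ∈ uIcc a b, HasDerivAt (fun t => -((max (r - t) 0) ^ 2 / 2)) (max (r - x) 0) x := by
    intro x _
    have h3 := (((tp_hasDerivAt 1 le_rfl (r - x)).comp_const_sub r x).neg).congr_deriv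
      (g' := max (r - x) 0) (by simp [Nat.factorial])
    refine h3.congr_of_eventuallyEq (Eventually.of_forall fun y => ?_)
    simp [Nat.factorial]
  have h2 := intervalIntegral.integral_eq_sub_of_hasDerivAt h1
    ((by fun_prop : Continuous fun x : ℝ => max (r - x) 0).intervalIntegrable _ _)
  rw [h2]
  ring

theorem sq_int (Y a b : ℝ) : ∫ t in a..b, (Y - t) ^ 2 / 2 = (Y - a) ^ 3 / 6 - (Y - b) ^ 3 / 6 := by
  have h1 : ∀ x ∈ uIcc a b, HasDerivAt (fun t => -((Y - t) ^ 3 / 6)) ((Y - x) ^ 2 / 2) x := by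
    intro x _
    have h3 := ((((hasDerivAt_id x).const_sub Y).pow 3).div_const 6).neg
    refine h3.congr_deriv ?_
    simp only [id]
    push_cast
    ring
  have h2 := intervalIntegral.integral_eq_sub_of_hasDerivAt h1
    ((by fun_prop : Continuous fun x : ℝ => (Y - x) ^ 2 / 2).intervalIntegrable _ _)
  rw [h2]
  ring

end Pool.Agent.CDk.Par

namespace Pool.Agent.CDk.Par
variable {P : Par}

/-! ### enclosures of `ι` at the grid points -/

theorem io_enc (h : P.Star) {y k1 k2 : ℝ} (h0 : 0 ≤ y) (h1 : y ≤ 1.640087)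
    (a : k1 * 2.665784 ≤ (PI y - 0.000015) * 10 ^ 6) (b : (PI y + 0.000015) * 10 ^ 6 ≤ k2 * 2.665779)
    (hk1 : 0 ≤ k1) (hk2 : 0 ≤ k2) : k1 ≤ P.io y * 10 ^ 6 ∧ P.io y * 10 ^ 6 ≤ k2 := by
  obtain ⟨-, -, hL1, hL2⟩ := Y_pos h
  have hL := cx_L_pos h
  have h2 := abs_le.1 (I_app h h0 (h1.trans h.ρ_lo.le))
  have e1 : P.io y * 10 ^ 6 = P.I y * 10 ^ 6 / P.L := by unfold io; ring
  rw [e1, le_div_iff₀ hL, div_le_iff₀ hL]
  constructor
  · have : k1 * P.L ≤ k1 * 2.665784 := mul_le_mul_of_nonneg_left hL2.le hk1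
    linarith only [h2.1, a, h2, this]
  · have : k2 * 2.665779 ≤ k2 * P.L := mul_le_mul_of_nonneg_left hL1.le hk2
    linarith only [h2.2, b, h2, this]

theorem io_enc2 (h : P.Star) {y k1 k2 : ℝ} (h1 : 1.65 ≤ y)
    (a : k1 * 2.665784 ≤ (PI 1.640087 - 0.000015 + 1.09994 * (y - 1.640087)) * 10 ^ 6)
    (b : (PI 1.640087 + 0.000015 + 1.09998 * (y - 1.640087)) * 10 ^ 6 ≤ k2 * 2.665779)
    (hk1 : 0 ≤ k1) (hk2 : 0 ≤ k2) : k1 ≤ P.io y * 10 ^ 6 ∧ P.io y * 10 ^ 6 ≤ k2 := by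
  obtain ⟨-, -, hL1, hL2⟩ := Y_pos h
  have hL := cx_L_pos h
  have hρ := h.ρ_lo
  have hρ' := h.ρ_hi
  have he := h.e_hi
  have h2 := abs_le.1 (I_app h (y := 1.640087) (by norm_num) hρ.le)
  have h3 := abs_le.1 (D_app5 h (y := 1.640087) (by linarith only [hρ, hρ', he]) hρ.le)
  have h4 : |PD5 1.640087 - 1.09996| ≤ 0.000009 := by
    rw [abs_le]; unfold PD5; constructor <;> norm_num
  rw [abs_le] at h4
  have h5 : P.D P.ρ - P.D 1.640087 ≤ P.ρ - 1.640087 := D_lip h hρ.le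
  obtain ⟨ξ, h6, h7⟩ := exists_hasDerivAt_eq_slope P.I P.D (by linarith only [h1, hρ, hρ'] : (1.640087 : ℝ) < y)
    (fun x _ => (I_deriv h x).continuousAt.continuousWithinAt) (fun x _ => I_deriv h x)
  rw [eq_div_iff (by linarith only [h1, hρ, hρ'])] at h7
  have h9 : P.D ξ ≤ P.D P.ρ := by
    rcases le_total ξ P.ρ with h10 | h10
    · exact D_mono h h10
    · rw [D_const h h10]
  have h10 : P.D 1.640087 ≤ P.D ξ := D_mono h h6.1.le
  have h11 : 1.09994 * (y - 1.640087) ≤ P.D ξ * (y - 1.640087) :=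
    mul_le_mul_of_nonneg_right (by linarith only [h3.1, h4.1, hρ, hρ', h3, h4, h10]) (by linarith only [h1, hρ, hρ'])
  have h12 : P.D ξ * (y - 1.640087) ≤ 1.09998 * (y - 1.640087) :=
    mul_le_mul_of_nonneg_right (by linarith only [h3.2, h4.2, hρ', h3, h4, h5, h9]) (by linarith only [h1, hρ, hρ'])
  have e1 : P.io y * 10 ^ 6 = P.I y * 10 ^ 6 / P.L := by unfold io; ring
  rw [e1, le_div_iff₀ hL, div_le_iff₀ hL]
  constructor
  · have : k1 * P.L ≤ k1 * 2.665784 := mul_le_mul_of_nonneg_left hL2.le hk1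
    linarith only [h2.1, a, h2, h7, h11, this]
  · have : k2 * 2.665779 ≤ k2 * P.L := mul_le_mul_of_nonneg_left hL1.le hk2
    linarith only [h2.2, b, h2, h7, h12, this]

/-! ### one interval -/

theorem w_ge_one {r : ℝ} (hr : 0.5774 ≤ r) : 1 ≤ w r := by
  unfold w
  rw [min_eq_right (by nlinarith only [hr])]
  have : 0 ≤ max (r - 1.4) 0 := le_max_right _ _
  linarith only [this]

theorem w_ge_lin {r : ℝ} (hr : 0.5774 ≤ r) : 1 + 4 * (r - 1.4) ≤ w r := by
  unfold w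
  rw [min_eq_right (by nlinarith only [hr])]
  have : r - 1.4 ≤ max (r - 1.4) 0 := le_max_left _ _
  linarith only [this]

end Pool.Agent.CDk.Par

namespace Pool.Agent.CDk.Par
variable {P : Par}

theorem t1_I_sq (h : P.Star) {r : ℝ} (hr : 0 ≤ r) : P.I r ≤ r ^ 2 / 2 := by
  have hd2 : ∀ x, HasDerivAt (fun x => x ^ 2 / 2 - P.I x) (x - P.D x) x := by
    intro x
    have := ((hasDerivAt_pow 2 x).div_const 2).sub (I_deriv h x)
    refine this.congr_deriv ?_
    push_cast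
    ring
  have hmono : MonotoneOn (fun x => x ^ 2 / 2 - P.I x) (Ici 0) := by
    refine monotoneOn_of_deriv_nonneg (convex_Ici 0)
      (fun x _ => (hd2 x).continuousAt.continuousWithinAt)
      (fun x _ => (hd2 x).differentiableAt.differentiableWithinAt) fun x hx => ?_
    rw [interior_Ici] at hx
    rw [(hd2 x).deriv]
    have := D_lip h (le_of_lt hx)
    rw [D_zero h le_rfl] at this
    linarith
  have := hmono (mem_Ici.2 le_rfl) (mem_Ici.2 hr) hr
  dsimp only at this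
  rw [I_zero h le_rfl] at this
  linarith

theorem w_le_sq {y : ℝ} (hy : y ≤ 1.4) : w y ≤ 3 * y ^ 2 ∧ w y ≤ 1 := by
  unfold w
  rw [max_eq_right (by linarith only [hy]), mul_zero, add_zero]
  exact ⟨min_le_left _ _, min_le_right _ _⟩

end Pool.Agent.CDk.Par

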