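import Pool.Agent.CDk.Defs
import Pool.Agent.CDk.FNa
import Pool.Agent.CDk.Ker

open MeasureTheory Set Filter Topology

namespace Pool.Agent.CDk.Par
variable {P : Par}

theorem q_pos (h : P.Star) {e : ℝ} (he : 0 ≤ e) : 0 < P.q e := by
  have := Y_pos h
  unfold q
  apply one_div_pos.mpr
  linarith

theorem gf_contin {e : ℝ} {i : ℝ → ℝ} (hi : Continuous i) : Continuous (P.gf e i) := by
  unfold gf
  fun_prop

theorem io_cont (h : P.Star) : Continuous P.io := by
  have : Continuous P.I := by
    rw [continuous_iff_continuousAt]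
    intro y
    exact (I_deriv h y).continuousAt
  unfold io
  exact this.div_const _

theorem pker_cont {r : ℝ} : Continuous (P.ker r) := by
  unfold ker
  fun_prop

/-- `If - ι(r) Nf` as one integral -/
theorem If_ker (h : P.Star) {e r : ℝ} {i : ℝ → ℝ} (hi : Continuous i) (hr : 0 ≤ r) (hr1 : r ≤ 2.2) :
    P.If e i r - P.io r * P.Nf e i
      = (∫ v in (0:ℝ)..P.Y, P.ker r v * P.gf e i v) - P.io r * (P.sg * P.q e) := by
  have hY := Y_pos h
  have hg : Continuous (P.gf e i) := gf_contin hi
  have h1 : P.If e i r = ∫ v in (0:ℝ)..P.Y, max (r - v) 0 * P.gf e i v := by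
    unfold If
    rw [← intervalIntegral.integral_add_adjacent_intervals (a := 0) (b := r) (c := P.Y)
      (Continuous.intervalIntegrable (by fun_prop) _ _) (Continuous.intervalIntegrable (by fun_prop) _ _)]
    have h2 : ∫ v in r..P.Y, max (r - v) 0 * P.gf e i v = 0 := by
      rw [intervalIntegral.integral_congr (g := fun _ => (0:ℝ))]
      · simp
      · intro v hv
        rw [uIcc_of_le (by linarith)] at hv
        simp only
        rw [max_eq_right (by linarith [hv.1]), zero_mul]
    rw [h2, add_zero]
    apply intervalIntegral.integral_congr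
    intro v hv
    rw [uIcc_of_le hr] at hv
    simp only
    rw [max_eq_left (by linarith [hv.2])]
  have h3 : (∫ v in (0:ℝ)..P.Y, P.ker r v * P.gf e i v)
      = (∫ v in (0:ℝ)..P.Y, max (r - v) 0 * P.gf e i v)
        - P.io r * ∫ v in (0:ℝ)..P.Y, (P.Y - v)^2/2 * P.gf e i v := by
    rw [← intervalIntegral.integral_const_mul, ← intervalIntegral.integral_sub
      (Continuous.intervalIntegrable (by fun_prop) _ _) (Continuous.intervalIntegrable (by fun_prop) _ _)]
    apply intervalIntegral.integral_congr
    intro v _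
    simp only [ker]
    ring
  rw [h3, h1]
  unfold Nf
  ring

/-- double integral form of `If` -/
theorem If_deriv {e : ℝ} {i : ℝ → ℝ} (hi : Continuous i) (r : ℝ) :
    HasDerivAt (P.If e i) (∫ v in (0:ℝ)..r, P.gf e i v) r := by
  have hg : Continuous (P.gf e i) := gf_contin hi
  have h1 : ∀ r, P.If e i r = r * (∫ v in (0:ℝ)..r, P.gf e i v) - ∫ v in (0:ℝ)..r, v * P.gf e i v := by
    intro r
    unfold If
    rw [← intervalIntegral.integral_const_mul, ← intervalIntegral.integral_sub
      (Continuous.intervalIntegrable (by fun_prop) _ _) (Continuous.intervalIntegrable (by fun_prop) _ _)]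
    apply intervalIntegral.integral_congr
    intro v _
    simp only
    ring
  have h2 : HasDerivAt (fun r => ∫ v in (0:ℝ)..r, P.gf e i v) (P.gf e i r) r :=
    intervalIntegral.integral_hasDerivAt_right (Continuous.intervalIntegrable hg _ _)
      (hg.stronglyMeasurableAtFilter _ _) hg.continuousAt
  have hg2 : Continuous (fun v => v * P.gf e i v) := by fun_prop
  have h3 : HasDerivAt (fun r => ∫ v in (0:ℝ)..r, v * P.gf e i v) (r * P.gf e i r) r :=
    intervalIntegral.integral_hasDerivAt_right (Continuous.intervalIntegrable hg2 _ _)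
      (hg2.stronglyMeasurableAtFilter _ _) hg2.continuousAt
  have h4 : P.If e i = fun r => r * (∫ v in (0:ℝ)..r, P.gf e i v) - ∫ v in (0:ℝ)..r, v * P.gf e i v :=
    funext h1
  rw [h4]
  have h5 := ((hasDerivAt_id' r).mul h2).sub h3
  refine h5.congr_deriv ?_
  ring

theorem Nf_eq {e : ℝ} {i : ℝ → ℝ} (hi : Continuous i) :
    P.Nf e i = P.sg * P.q e + ∫ t in (0:ℝ)..P.Y, P.If e i t := by
  have hg : Continuous (P.gf e i) := gf_contin hi
  unfold Nf
  congr 1
  -- M r = ∫_0^r (r-v)^2/2 g
  have h1 : ∀ r : ℝ, (∫ v in (0:ℝ)..r, (r - v)^2/2 * P.gf e i v)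
      = r^2/2 * (∫ v in (0:ℝ)..r, P.gf e i v) - r * (∫ v in (0:ℝ)..r, v * P.gf e i v)
        + ∫ v in (0:ℝ)..r, v^2/2 * P.gf e i v := by
    intro r
    rw [← intervalIntegral.integral_const_mul, ← intervalIntegral.integral_const_mul,
      ← intervalIntegral.integral_sub (Continuous.intervalIntegrable (by fun_prop) _ _)
        (Continuous.intervalIntegrable (by fun_prop) _ _),
      ← intervalIntegral.integral_add (Continuous.intervalIntegrable (by fun_prop) _ _)
        (Continuous.intervalIntegrable (by fun_prop) _ _)]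
    apply intervalIntegral.integral_congr
    intro v _
    simp only
    ring
  have hd : ∀ φ : ℝ → ℝ, Continuous φ → ∀ r, HasDerivAt (fun r => ∫ v in (0:ℝ)..r, φ v) (φ r) r := by
    intro φ hφ r
    exact intervalIntegral.integral_hasDerivAt_right (Continuous.intervalIntegrable hφ _ _)
      (hφ.stronglyMeasurableAtFilter _ _) hφ.continuousAt
  have h2 : ∀ r : ℝ, HasDerivAt (fun r => ∫ v in (0:ℝ)..r, (r - v)^2/2 * P.gf e i v) (P.If e i r) r := by
    intro r
    have e1 := hd (P.gf e i) hg r
    have e2 := hd (fun v => v * P.gf e i v) (by fun_prop) r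
    have e3 := hd (fun v => v^2/2 * P.gf e i v) (by fun_prop) r
    have e4 : HasDerivAt (fun r : ℝ => r^2/2) r r := by
      have := (hasDerivAt_pow 2 r).div_const 2
      refine this.congr_deriv ?_
      norm_num
    have e5 := ((e4.mul e1).sub ((hasDerivAt_id' r).mul e2)).add e3
    rw [show (fun r => ∫ v in (0:ℝ)..r, (r - v)^2/2 * P.gf e i v) = _ from funext h1]
    refine e5.congr_deriv ?_
    unfold If
    have : (∫ v in (0:ℝ)..r, (r - v) * P.gf e i v) = r * (∫ v in (0:ℝ)..r, P.gf e i v)
        - ∫ v in (0:ℝ)..r, v * P.gf e i v := by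
      rw [← intervalIntegral.integral_const_mul, ← intervalIntegral.integral_sub
        (Continuous.intervalIntegrable (by fun_prop) _ _) (Continuous.intervalIntegrable (by fun_prop) _ _)]
      apply intervalIntegral.integral_congr
      intro v _
      simp only
      ring
    rw [this]
    ring
  have h3 := intervalIntegral.integral_eq_sub_of_hasDerivAt (a := 0) (b := P.Y)
    (fun r _ => h2 r) ?_
  · rw [h3]; simp
  · apply Continuous.intervalIntegrable
    rw [continuous_iff_continuousAt]
    intro y
    exact (If_deriv hi y).continuousAt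

/-- the profile is a fixed point -/
theorem gf_e0 (h : P.Star) (v : ℝ) : P.gf P.e0 P.io v = max (1 - P.I (v - P.e0)) 0 / P.L := by
  have hY := Y_pos h
  have hL : 0 < P.L := by linarith
  unfold gf q io
  have : P.Y + P.e0 = P.L := by unfold Y L; ring
  rw [this, ← max_div_div_right hL.le, zero_div, sub_div]

theorem If_e0 (h : P.Star) {r : ℝ} (hr : 0 ≤ r) : P.If P.e0 P.io r = P.io r := by
  have hc := io_cont h
  have hg : Continuous (P.gf P.e0 P.io) := gf_contin hc
  have h1 : ∀ t, 0 ≤ t → ∫ v in (0:ℝ)..t, P.gf P.e0 P.io v = P.D t / P.L := by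
    intro t ht
    simp_rw [gf_e0 h]
    rw [intervalIntegral.integral_div, ← D_fix h ht]
  have hcont : Continuous (fun t => ∫ v in (0:ℝ)..t, P.gf P.e0 P.io v) := by
    exact intervalIntegral.continuous_primitive (fun a b => Continuous.intervalIntegrable hg a b) 0
  have h2 := intervalIntegral.integral_eq_sub_of_hasDerivAt (a := 0) (b := r)
    (fun t _ => If_deriv (P := P) (e := P.e0) hc t) (Continuous.intervalIntegrable hcont _ _)
  have h3 := intervalIntegral.integral_eq_sub_of_hasDerivAt (a := 0) (b := r) (f := P.io)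
    (f' := fun t => P.D t / P.L)
    (fun t _ => by unfold io; exact (I_deriv h t).div_const _)
    (Continuous.intervalIntegrable ((D_cont h).div_const _) _ _)
  have h4 : P.If P.e0 P.io 0 = 0 := by unfold If; simp
  have h5 : P.io 0 = 0 := by unfold io; rw [I_zero h le_rfl, zero_div]
  rw [h4, sub_zero] at h2
  rw [h5, sub_zero] at h3
  rw [← h2, ← h3]
  apply intervalIntegral.integral_congr
  intro t ht
  rw [uIcc_of_le hr] at ht
  exact h1 t ht.1

theorem Nf_e0 (h : P.Star) : P.Nf P.e0 P.io = 1 := by
  have hY := Y_pos h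
  have hL : 0 < P.L := by linarith
  rw [Nf_eq (io_cont h)]
  have h1 : ∫ t in (0:ℝ)..P.Y, P.If P.e0 P.io t = P.J P.Y / P.L := by
    have h3 := intervalIntegral.integral_eq_sub_of_hasDerivAt (a := 0) (b := P.Y) (f := fun t => P.J t / P.L)
      (f' := P.io) (fun t _ => by unfold io; exact (J_deriv h t).div_const _)
      (Continuous.intervalIntegrable (io_cont h) _ _)
    simp only [J_zero h le_rfl, zero_div, sub_zero] at h3
    rw [← h3]
    apply intervalIntegral.integral_congr
    intro t ht
    rw [uIcc_of_le (by linarith)] at ht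
    exact If_e0 h ht.1
  rw [h1]
  have h2 : P.q P.e0 = 1 / P.L := by
    unfold q Y L; ring_nf
  rw [h2]
  have := J_Y h
  field_simp
  linarith

end Pool.Agent.CDk.Par
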