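import Pool.Agent.CDk.Defs
import Pool.Agent.CDk.ENC
import Pool.Agent.CDk.FNa
import Pool.Agent.CDk.FV
import Pool.Agent.CDk.GAP
import Pool.Agent.CDk.POT1

open MeasureTheory Set Filter Topology

namespace Pool.Agent.CDk

theorem D_lower {P : Par} (h : P.Star) {r : ℝ} (h0 : 0 ≤ r) (h1 : r ≤ P.Y) : 0.4 * r ≤ P.D r := by
  have he := h.e_lo
  have he' := h.e_hi
  have hρ := h.ρ_lo
  have hρ' := h.ρ_hi
  have hY := Par.Y_pos h
  have key : ∀ y, P.e0 ≤ y → y ≤ P.ρ → 0.66 * y ≤ P.D y := by
    intro y hy hy1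
    have h2 := (abs_le.mp (Par.D_app h (by linarith : 0 ≤ y) hy1)).1
    unfold Par.PD at h2
    have h3 : 0.66 * y + 0.00015 ≤ 0.99582*y + 0.0503*y^2 - 0.15027*y^3 - 0.01586*y^4 + 0.0092*y^5 := by
      have a1 : 0 ≤ y := by linarith
      have a2 : 0 ≤ (1.6401 - y) := by linarith
      have a3 : y^2 ≤ 2.69 := by nlinarith
      nlinarith [mul_nonneg a1 a2, mul_nonneg (mul_nonneg a1 a1) a2, pow_nonneg a1 3, pow_nonneg a1 4,
        mul_nonneg (pow_nonneg a1 3) a2, mul_nonneg (pow_nonneg a1 4) a2, pow_nonneg a1 5]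
    linarith
  rcases le_total r P.e0 with h2 | h2
  · rw [Par.D_small h h0 h2]; linarith
  rcases le_total r P.ρ with h3 | h3
  · have := key r h2 h3; linarith
  · rw [Par.D_const h h3]
    have := key P.ρ (by linarith) le_rfl
    nlinarith

theorem star_pf {P : Par} (h : P.Star) : Pf P.D := ⟨Par.D_cont h, Par.D_mono h, fun _ hy => Par.D_zero h hy⟩

theorem I1_star {P : Par} (h : P.Star) (y : ℝ) : I1 P.D y = P.I y := by
  unfold I1
  have := intervalIntegral.integral_eq_sub_of_hasDerivAt (a := 0) (b := y) (f := P.I) (f' := P.D)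
    (fun t _ => Par.I_deriv h t) ((Par.D_cont h).intervalIntegrable _ _)
  rw [this, Par.I_zero h le_rfl, sub_zero]

theorem I2_star {P : Par} (h : P.Star) (y : ℝ) : I2 P.D y = P.J y := by
  unfold I2
  have hI : Continuous P.I := by
    rw [continuous_iff_continuousAt]; exact fun t => (Par.I_deriv h t).continuousAt
  have := intervalIntegral.integral_eq_sub_of_hasDerivAt (a := 0) (b := y) (f := P.J) (f' := P.I)
    (fun t _ => Par.J_deriv h t) (hI.intervalIntegrable _ _)
  rw [show (fun t => I1 P.D t) = P.I from funext (I1_star h)] 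
  rw [this, Par.J_zero h le_rfl, sub_zero]

theorem I1_smul (c : ℝ) (D : ℝ → ℝ) (y : ℝ) : I1 (fun r => c * D r) y = c * I1 D y := by
  unfold I1; rw [intervalIntegral.integral_const_mul]

theorem I2_smul (c : ℝ) (D : ℝ → ℝ) (y : ℝ) : I2 (fun r => c * D r) y = c * I2 D y := by
  unfold I2
  rw [show (fun t => I1 (fun r => c * D r) t) = fun t => c * I1 D t from funext (I1_smul c D)]
  rw [intervalIntegral.integral_const_mul]

theorem Pf.smul {D : ℝ → ℝ} (hD : Pf D) {c : ℝ} (hc : 0 ≤ c) : Pf (fun r => c * D r) :=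
  ⟨continuous_const.mul hD.cont, fun _ _ hab => mul_le_mul_of_nonneg_left (hD.mono hab) hc,
    fun y hy => by simp [hD.zero y hy]⟩

/-- multiples of the extremal state -/
theorem VS_star {P : Par} (h : P.Star) {C : ℝ} (hC : 0 < C) : VS P (C * P.L) 0 (fun r => C * P.D r) ∧
    C * P.L - I2 (fun r => C * P.D r) P.Y = C * P.sg := by
  have hY := Par.Y_pos h
  have hsg := Par.sg_bd h
  have h1 : C * P.L - I2 (fun r => C * P.D r) P.Y = C * P.sg := by
    rw [I2_smul, I2_star h, ← mul_sub]
    have := Par.J_Y h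
    congr 1; linarith
  refine ⟨⟨(star_pf h).smul hC.le, mul_pos hC (by linarith), ?_, ?_⟩, h1⟩
  · rw [h1]; nlinarith
  · have h2 : (fun y => I1 (fun r => C * P.D r) y / (C * P.L)) = P.io := by
      funext y
      rw [I1_smul, I1_star h]
      unfold Par.io
      have : P.L ≠ 0 := by linarith
      field_simp
    rw [h2]
    refine ⟨Par.io_cont h, ?_, ?_, ?_⟩
    · intro a b hab
      unfold Par.io
      apply div_le_div_of_nonneg_right _ (by linarith)
      rw [← I1_star h, ← I1_star h]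
      exact I1_mono (star_pf h) hab
    · intro y hy
      unfold Par.io; rw [Par.I_zero h hy, zero_div]
    · intro y _ _
      simp

end Pool.Agent.CDk
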