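import Pool.Agent.CDk.Defs
import Pool.Agent.CDk.ENC

open MeasureTheory Set Filter Topology

namespace Pool.Agent.CDk.Par
variable {P : Par}

/-- the derivative of `Uf · ι` -/
noncomputable def dU (P : Par) (e c : ℝ) : ℝ :=
  -(P.q e)^2 * (P.sg + ∫ v in (0:ℝ)..(c + e), P.mb v) + ∫ y in (0:ℝ)..c, P.mb (y + e) * (P.D y / P.L)

end Pool.Agent.CDk.Par

namespace Pool.Agent.CDk.U1n


/-- approximation of `mb (ρ - e0 - t)` -/
noncomputable def PE (t : ℝ) : ℝ :=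
  0.526024 + 1.0256557*t + 0.2965689*t^2 - 0.1559569*t^3 - 0.0323028*t^4 + 0.009728*t^5

/-- `∫_0^t PM` -/
noncomputable def QM (t : ℝ) : ℝ :=
  0.405756*t + 0.946702/2*t^2 + 0.350512/3*t^3 - 0.138773/4*t^4 - 0.038228/5*t^5 + 0.009728/6*t^6

noncomputable def R1 (a : ℝ) : ℝ := (3273907623:ℝ)/12500000000*a^2 + (537143236787:ℝ)/3000000000000*a^3 + (27445711067:ℝ)/3000000000000*a^4 + (-332856300977:ℝ)/20000000000000*a^5 + (-100885180069:ℝ)/60000000000000*a^6 + (33746709959:ℝ)/60000000000000*a^7 + (3807161597:ℝ)/84000000000000*a^8 + (-1554232571:ℝ)/315000000000000*a^9 + (-2821699:ℝ)/7875000000000*a^10 + (437:ℝ)/13535156250*a^11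
noncomputable def R2 (a : ℝ) : ℝ := (1683583083:ℝ)/25000000000*a^3 + (8196365327:ℝ)/200000000000*a^4 + (2671838851:ℝ)/750000000000*a^5 + (-1380192953:ℝ)/562500000000*a^6 + (-256975939:ℝ)/840000000000*a^7 + (4332045097:ℝ)/67200000000000*a^8 + (706775467:ℝ)/126000000000000*a^9 + (-140843831:ℝ)/315000000000000*a^10 + (-1581199:ℝ)/43312500000000*a^11 + (437:ℝ)/162421875000*a^12

section
open Par


/-- `PM` is Lipschitz -/
theorem PM_lip {x y : ℝ} (hx : 0 ≤ x) (hx1 : x ≤ 1.7) (hy : 0 ≤ y) (hy1 : y ≤ 1.7) :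
    |Par.PM x - Par.PM y| ≤ 10 * |x - y| := by
  have e : Par.PM x - Par.PM y = (x - y) * (0.946702 + 0.350512*(x+y) - 0.138773*(x^2+x*y+y^2)
      - 0.038228*(x^3+x^2*y+x*y^2+y^3) + 0.009728*(x^4+x^3*y+x^2*y^2+x*y^3+y^4)) := by
    unfold Par.PM; ring
  rw [e, abs_mul, mul_comm]
  refine mul_le_mul_of_nonneg_right ?_ (abs_nonneg _)
  have hx2 : x^2 ≤ 1.7^2 := by gcongr
  have hx3 : x^3 ≤ 1.7^3 := by gcongr
  have hx4 : x^4 ≤ 1.7^4 := by gcongr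
  have hy2 : y^2 ≤ 1.7^2 := by gcongr
  have hy3 : y^3 ≤ 1.7^3 := by gcongr
  have hy4 : y^4 ≤ 1.7^4 := by gcongr
  have m1 : x*y ≤ 1.7*1.7 := by gcongr
  have m2 : x^2*y ≤ 1.7^2*1.7 := by gcongr
  have m3 : x*y^2 ≤ 1.7*1.7^2 := by gcongr
  have m4 : x^3*y ≤ 1.7^3*1.7 := by gcongr
  have m5 : x^2*y^2 ≤ 1.7^2*1.7^2 := by gcongr
  have m6 : x*y^3 ≤ 1.7*1.7^3 := by gcongr
  have p0 : 0 ≤ x^2 := by positivity
  have p1 : 0 ≤ x^3 := by positivity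
  have p2 : 0 ≤ x^4 := by positivity
  have p3 : 0 ≤ y^2 := by positivity
  have p4 : 0 ≤ y^3 := by positivity
  have p5 : 0 ≤ y^4 := by positivity
  have p6 : 0 ≤ x*y := by positivity
  have p7 : 0 ≤ x^2*y := by positivity
  have p8 : 0 ≤ x*y^2 := by positivity
  have p9 : 0 ≤ x^3*y := by positivity
  have p10 : 0 ≤ x^2*y^2 := by positivity
  have p11 : 0 ≤ x*y^3 := by positivity
  norm_num at hx2 hx3 hx4 hy2 hy3 hy4 m1 m2 m3 m4 m5 m6
  rw [abs_le]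
  constructor <;> linarith

end

end Pool.Agent.CDk.U1n
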