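import Pool.Agent.CDk.H1a

namespace Pool.Agent.CDk.H1p

def Tlow : List (List ℚ) :=
  padd2 (px (psm 0.0284 (pmul lU lU))) (padd2 (py [0, 0, -1/2])
    (pmul2 (padd2 (comp2 lJ [[-0.121819, 1], [-1]]) (pmul2 (py lI) (px (psm (-1) (padd lN [0.0002])))))
      (px (psm (1/2.66578) (pmul lU lU)))))

theorem Tlow_chk : chk2 Tlow 12 (-0.12183) 0.80001 0.577 1.4 = true := by decide +kernel

end Pool.Agent.CDk.H1p
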