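import Pool.Agent.CDk.H1a

namespace Pool.Agent.CDk.H1p

theorem qC1 : chk (padd [0.00004] (psm (-1) qC)) 6 (-0.12183) 0.80001 = true := by decide +kernel
theorem qC3 : chk (padd [1.5625] (psm (-1) lC)) 6 (-0.12183) 0.80001 = true := by decide +kernel
theorem qC4 : chk (padd [-1.24] lC) 6 (-0.12183) 0.80001 = true := by decide +kernel
theorem qC5 : chk (padd [2.1026, -1] (psm (-1) lC)) 6 (-0.12183) 0.80001 = true := by decide +kernel

theorem qW : chk lW 6 (-0.12183) 0.80001 = true := by decide +kernel

end Pool.Agent.CDk.H1p
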