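import Pool.Agent.CDk.H1a

namespace Pool.Agent.CDk.H1p

theorem qC2 : chk (padd [0.00004] qC) 6 (-0.12183) 0.80001 = true := by decide +kernel
theorem qC6 : chk (padd [-1.43, 1] lC) 6 (-0.12183) 0.80001 = true := by decide +kernel

theorem qN1 : chk (padd [0.0004] (padd lPhi (psm (-1) (pmul lN (pmul lU lU))))) 6 (-0.12183) 0.80001 = true := by
  decide +kernel
theorem qN2 : chk (padd [0.0004] (padd (psm (-1) lPhi) (pmul lN (pmul lU lU)))) 6 (-0.12183) 0.80001 = true := by
  decide +kernel
/-- bounds of `N` -/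
theorem qN3 : chk (padd [0.0133] (psm (-1) lN)) 6 (-0.12183) 0.80001 = true := by decide +kernel
theorem qN4 : chk (padd [0.1725] lN) 6 (-0.12183) 0.80001 = true := by decide +kernel
theorem qZ1 : chk lZ 6 (-0.12183) 0.80001 = true := by decide +kernel
theorem qZ2 : chk (padd [0.985] (psm (-1) lZ)) 6 (-0.12183) 0.80001 = true := by decide +kernel

theorem Tup_chk : chk2 Tup 12 (-0.12183) 0.80001 0.577 1.4 = true := by decide +kernel

end Pool.Agent.CDk.H1p
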