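import Pool.Agent.CDk.CX
import Pool.Agent.CDk.ENC
import Pool.Agent.CDk.FNa
import Pool.Agent.CDk.FNb
import Pool.Agent.CDk.Ker
import Pool.Agent.CDk.H1b
import Pool.Agent.CDk.H1c
import Pool.Agent.CDk.H1d

open MeasureTheory Set Filter Topology

namespace Pool.Agent.CDk.H1p

private theorem ev_lI (y : ℝ) : ev lI y = Par.PI y := by
  simp only [ev, lI, Par.PI]
  push_cast
  ring

private theorem ev_lJ (y : ℝ) : ev lJ y = Par.PJ y := by
  simp only [ev, lJ, Par.PJ]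
  push_cast
  ring

private theorem ev_lK (y : ℝ) : ev lK y = Par.PK y := by
  simp only [ev, lK, Par.PK]
  push_cast
  ring

private theorem ev_lU (y : ℝ) : ev lU y = 2.66578 + y := by
  simp only [ev, lU]
  push_cast
  ring

/-- the crossing as a function of `X = Y + e - 2.66578` -/
private noncomputable def C (X : ℝ) : ℝ := ev lC X
/-- the second moment -/
private noncomputable def N (X : ℝ) : ℝ := ev lN X


end Pool.Agent.CDk.H1p
namespace Pool.Agent.CDk.H1p

private theorem chkX {l : List ℚ} (hl : chk l 6 (-0.12183) 0.80001 = true) {X : ℝ}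
    (h0 : -0.12183 ≤ X) (h1 : X ≤ 0.80001) : 0 ≤ ev l X :=
  chk_sound 6 _ _ hl X (by push_cast; exact h0) (by push_cast; exact h1)

private theorem chkT {L : List (List ℚ)} (hl : chk2 L 12 (-0.12183) 0.80001 0.577 1.4 = true) {X r : ℝ}
    (h0 : -0.12183 ≤ X) (h1 : X ≤ 0.80001) (h2 : 0.577 ≤ r) (h3 : r ≤ 1.4) : 0 ≤ ev2 L X r :=
  chk2_sound 12 _ _ _ _ hl X r (by push_cast; exact h0) (by push_cast; exact h1)
    (by push_cast; exact h2) (by push_cast; exact h3)

private theorem ev_c (a : ℚ) (t : ℝ) : ev [a] t = a := by simp [ev]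

private noncomputable def Z (X : ℝ) : ℝ := 2 * 2.543963 - (2.66578 + X) - C X

private theorem ev_lZ (X : ℝ) : ev lZ X = Z X := by
  simp only [lZ, ev_padd, ev_psm, ev_lU, ev_c, Z, C]
  push_cast
  ring

private noncomputable def S (X : ℝ) : ℝ := C X + (2.66578 + X) - 2.543963

private theorem ev_lS (X : ℝ) : ev lS X = S X := by
  simp only [lS, ev_padd, ev_lU, ev_c, S, C]
  push_cast
  ring

private noncomputable def Phi (X : ℝ) : ℝ :=
  (2.66578 + X) * Z X ^ 2 / 2 + (2.66578 + X) ^ 2 * (Z X * Par.PJ (C X) + Par.PK (C X)) / 2.66578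
    - (0.521682 + 2.543963 ^ 3 / 6) + Z X ^ 3 / 6

private theorem ev_lPhi (X : ℝ) : ev lPhi X = Phi X := by
  simp only [lPhi, ev_padd, ev_psm, ev_pmul, ev_pcomp, ev_lU, ev_lZ, ev_lJ, ev_lK, ev_c, Phi, C]
  push_cast
  ring

variable {X : ℝ}

private theorem fC (h0 : -0.12183 ≤ X) (h1 : X ≤ 0.80001) :
    |Par.PI (C X) * (2.66578 + X) - 2.66578| ≤ 0.00004 := by
  have a1 := chkX qC1 h0 h1
  have a2 := chkX qC2 h0 h1
  simp only [qC, ev_padd, ev_psm, ev_pmul, ev_pcomp, ev_lU, ev_lI, ev_c] at a1 a2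
  push_cast at a1 a2
  rw [abs_le]
  unfold C
  constructor <;> linarith

private theorem fC3 (h0 : -0.12183 ≤ X) (h1 : X ≤ 0.80001) :
    1.24 ≤ C X ∧ C X ≤ 1.5625 ∧ C X + X ≤ 2.1026 ∧ 1.43 ≤ C X + X := by
  have a1 := chkX qC3 h0 h1
  have a2 := chkX qC4 h0 h1
  have a3 := chkX qC5 h0 h1
  have a4 := chkX qC6 h0 h1
  simp only [ev_padd, ev_psm, ev, lC] at a1 a2 a3 a4
  push_cast at a1 a2 a3 a4
  simp only [C, ev, lC]
  push_cast
  refine ⟨?_, ?_, ?_, ?_⟩ <;> linarith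

private theorem fZ (h0 : -0.12183 ≤ X) (h1 : X ≤ 0.80001) : 0 ≤ Z X ∧ Z X ≤ 0.985 := by
  have a1 := chkX qZ1 h0 h1
  have a2 := chkX qZ2 h0 h1
  simp only [ev_padd, ev_psm, ev_lZ, ev_c] at a1 a2
  push_cast at a1 a2
  constructor <;> linarith

private theorem fN (h0 : -0.12183 ≤ X) (h1 : X ≤ 0.80001) :
    |Phi X - N X * (2.66578 + X) ^ 2| ≤ 0.0004 := by
  have a1 := chkX qN1 h0 h1
  have a2 := chkX qN2 h0 h1
  simp only [ev_padd, ev_psm, ev_pmul, ev_lPhi, ev_lU, ev_c] at a1 a2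
  push_cast at a1 a2
  rw [abs_le]
  unfold N
  constructor <;> nlinarith

private theorem fN3 (h0 : -0.12183 ≤ X) (h1 : X ≤ 0.80001) : N X ≤ 0.0133 ∧ -0.1725 ≤ N X := by
  have a1 := chkX qN3 h0 h1
  have a2 := chkX qN4 h0 h1
  simp only [ev_padd, ev_psm, ev_c] at a1 a2
  push_cast at a1 a2
  unfold N
  constructor <;> linarith

private theorem fW (h0 : -0.12183 ≤ X) (h1 : X ≤ 0.80001) :
    0 ≤ 0.1197 * (2.66578 + X) ^ 2 + 2.2 * S X - S X ^ 2 / 2 - (2.2 - S X) * (2.66578 + X)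
      - (2.66578 + X) ^ 2 * (Par.PJ (C X) + 0.0008) / 2.66578
      + 0.6563 * (N X - 0.0002) * (2.66578 + X) ^ 2 - 0.0004 := by
  have a1 := chkX qW h0 h1
  simp only [lW, ev_padd, ev_psm, ev_pmul, ev_pcomp, ev_lU, ev_lS, ev_lJ, ev_c] at a1
  push_cast at a1
  unfold N
  have : ev lC X = C X := rfl
  rw [this] at a1
  refine le_of_le_of_eq a1 ?_
  ring

variable {r : ℝ}

private theorem fT (h0 : -0.12183 ≤ X) (h1 : X ≤ 0.80001) (h2 : 0.577 ≤ r) (h3 : r ≤ 1.4) :
    0 ≤ 0.0284 * (2.66578 + X) ^ 2 - r ^ 2 / 2 +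
      (Par.PJ (r - X - 0.121819) - Par.PI r * (N X + 0.0002)) * (2.66578 + X) ^ 2 / 2.66578 := by
  have a1 := chkT Tlow_chk h0 h1 h2 h3
  simp only [Tlow, ev2_padd, ev2_pmul, ev2_comp, ev2_px, ev2_py, ev_padd, ev_psm, ev_pmul, ev_lU, ev_lI,
    ev_lJ, ev_c] at a1
  have e1 : ev2 [[-0.121819, 1], [-1]] X r = r - X - 0.121819 := by
    simp only [ev2, ev]; push_cast; ring
  have e2 : ev [0, 0, -1/2] r = - r ^ 2 / 2 := by
    simp only [ev]; push_cast; ring
  rw [e1, e2] at a1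
  push_cast at a1
  unfold N
  refine le_of_le_of_eq a1 ?_
  ring

private theorem fU (h0 : -0.12183 ≤ X) (h1 : X ≤ 0.80001) (h2 : 0.577 ≤ r) (h3 : r ≤ 1.4) :
    0 ≤ 0.0149 * (2.66578 + X) ^ 2 + r ^ 2 / 2 -
      (Par.PJ (r - X - 0.121815) + 0.0074 - Par.PI r * (N X - 0.0002)) * (2.66578 + X) ^ 2 / 2.66578 := by
  have a1 := chkT Tup_chk h0 h1 h2 h3
  simp only [Tup, ev2_padd, ev2_pmul, ev2_comp, ev2_px, ev2_py, ev2_map, ev_padd, ev_psm, ev_pmul, ev_lU,
    ev_lI, ev_lJ, ev_c] at a1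
  have e1 : ev2 [[-0.121815, 1], [-1]] X r = r - X - 0.121815 := by
    simp only [ev2, ev]; push_cast; ring
  have e2 : ev [0, 0, 1/2] r = r ^ 2 / 2 := by
    simp only [ev]; push_cast; ring
  have e3 : ev2 [psm (-1) [0.0074]] X r = -0.0074 := by
    simp only [ev2, ev_psm, ev_c]; push_cast; ring
  rw [e1, e2, e3] at a1
  push_cast at a1
  unfold N
  refine le_of_le_of_eq a1 ?_
  ring

end Pool.Agent.CDk.H1p

namespace Pool.Agent.CDk.Par
variable {P : Par}

open Pool.Agent.CDk.H1p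

/-! ### closed forms -/

private theorem h1_pos_int (r a b : ℝ) : ∫ t in a..b, max (r - t) 0 =
    (max (r - a) 0) ^ 2 / 2 - (max (r - b) 0) ^ 2 / 2 := by
  have h1 : ∀ x ∈ uIcc a b, HasDerivAt (fun t => -((max (r - t) 0) ^ 2 / 2)) (max (r - x) 0) x := by
    intro x _
    have h3 := (((tp_hasDerivAt 1 le_rfl (r - x)).comp_const_sub r x).neg).congr_deriv
      (g' := max (r - x) 0) (by simp [Nat.factorial])
    refine h3.congr_of_eventuallyEq (Eventually.of_forall fun y => ?_)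
    simp [Nat.factorial]
  have h2 := intervalIntegral.integral_eq_sub_of_hasDerivAt h1
    ((by fun_prop : Continuous fun x : ℝ => max (r - x) 0).intervalIntegrable _ _)
  rw [h2]
  ring

private theorem h1_sq_int (Y a b : ℝ) : ∫ t in a..b, (Y - t) ^ 2 / 2 = (Y - a) ^ 3 / 6 - (Y - b) ^ 3 / 6 := by
  have h1 : ∀ x ∈ uIcc a b, HasDerivAt (fun t => -((Y - t) ^ 3 / 6)) ((Y - x) ^ 2 / 2) x := by
    intro x _
    have h3 := ((((hasDerivAt_id x).const_sub Y).pow 3).div_const 6).neg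
    refine h3.congr_deriv ?_
    simp only [id]
    push_cast
    ring
  have h2 := intervalIntegral.integral_eq_sub_of_hasDerivAt h1
    ((by fun_prop : Continuous fun x : ℝ => (Y - x) ^ 2 / 2).intervalIntegrable _ _)
  rw [h2]
  ring

/-- `∫_0^c (R - y)_+ D y dy` -/
private noncomputable def g2 (P : Par) (c R : ℝ) : ℝ := P.J (min R c) + P.I c * max (R - c) 0

private theorem h1_lin (h : P.Star) (R b : ℝ) :
    ∫ y in (0:ℝ)..b, (R - y) * P.D y = (R - b) * P.I b + P.J b := by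
  have h1 : ∀ x ∈ uIcc 0 b, HasDerivAt (fun y => (R - y) * P.I y + P.J y) ((R - x) * P.D x) x := by
    intro x _
    refine ((((hasDerivAt_id x).const_sub R).mul (I_deriv h x)).add (J_deriv h x)).congr_deriv ?_
    simp only [id]
    ring
  have hc : Continuous fun y => (R - y) * P.D y := by
    have := D_cont h
    fun_prop
  rw [intervalIntegral.integral_eq_sub_of_hasDerivAt h1 (hc.intervalIntegrable _ _), I_zero h le_rfl,
    J_zero h le_rfl]
  ring

private theorem h1_g2 (h : P.Star) {c : ℝ} (hc : 0 ≤ c) (R : ℝ) :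
    ∫ y in (0:ℝ)..c, max (R - y) 0 * P.D y = g2 P c R := by
  have hcont : Continuous fun y => max (R - y) 0 * P.D y := by
    have := D_cont h
    fun_prop
  unfold g2
  rcases le_total R c with h1 | h1
  · rw [min_eq_left h1, max_eq_right (by linarith), mul_zero, add_zero]
    rcases le_total R 0 with h2 | h2
    · rw [J_zero h h2]
      have : ∫ y in (0:ℝ)..c, max (R - y) 0 * P.D y = ∫ y in (0:ℝ)..c, (0:ℝ) := by
        refine intervalIntegral.integral_congr fun y hy => ?_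
        rw [uIcc_of_le hc] at hy
        rw [max_eq_right (by linarith [hy.1]), zero_mul]
      rw [this]
      simp
    · rw [← intervalIntegral.integral_add_adjacent_intervals (hcont.intervalIntegrable 0 R)
        (hcont.intervalIntegrable R c)]
      have e1 : ∫ y in (0:ℝ)..R, max (R - y) 0 * P.D y = ∫ y in (0:ℝ)..R, (R - y) * P.D y := by
        refine intervalIntegral.integral_congr fun y hy => ?_
        rw [uIcc_of_le h2] at hy
        rw [max_eq_left (by linarith [hy.2])]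
      have e2 : ∫ y in R..c, max (R - y) 0 * P.D y = ∫ y in R..c, (0:ℝ) := by
        refine intervalIntegral.integral_congr fun y hy => ?_
        rw [uIcc_of_le h1] at hy
        rw [max_eq_right (by linarith [hy.1]), zero_mul]
      rw [e1, e2, h1_lin h]
      simp
  · rw [min_eq_right h1, max_eq_left (by linarith)]
    have e1 : ∫ y in (0:ℝ)..c, max (R - y) 0 * P.D y = ∫ y in (0:ℝ)..c, (R - y) * P.D y := by
      refine intervalIntegral.integral_congr fun y hy => ?_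
      rw [uIcc_of_le hc] at hy
      rw [max_eq_left (by linarith [hy.2])]
    rw [e1, h1_lin h]
    ring

/-- `∫_0^c (A - y)^2/2 D y dy` -/
private noncomputable def m2 (P : Par) (c A : ℝ) : ℝ :=
  (A - c) ^ 2 / 2 * P.I c + (A - c) * P.J c + P.K c

private theorem h1_m2 (h : P.Star) (c A : ℝ) :
    ∫ y in (0:ℝ)..c, (A - y) ^ 2 / 2 * P.D y = m2 P c A := by
  have h1 : ∀ x ∈ uIcc 0 c, HasDerivAt (fun y => (A - y) ^ 2 / 2 * P.I y + (A - y) * P.J y + P.K y)
      ((A - x) ^ 2 / 2 * P.D x) x := by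
    intro x _
    refine (((((((hasDerivAt_id x).const_sub A).pow 2).div_const 2).mul (I_deriv h x)).add
      (((hasDerivAt_id x).const_sub A).mul (J_deriv h x))).add (K_deriv h x)).congr_deriv ?_
    simp only [id, Pi.pow_apply]
    push_cast
    ring
  have hc : Continuous fun y => (A - y) ^ 2 / 2 * P.D y := by
    have := D_cont h
    fun_prop
  rw [intervalIntegral.integral_eq_sub_of_hasDerivAt h1 (hc.intervalIntegrable _ _), I_zero h le_rfl,
    J_zero h le_rfl, K_zero h le_rfl]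
  unfold m2
  ring

private noncomputable def f1 (P : Par) (e c r : ℝ) : ℝ :=
  -(P.q e) ^ 2 * (r ^ 2 / 2 - (max (r - (c + e)) 0) ^ 2 / 2) + g2 P c (r - e) / P.L

private noncomputable def nn (P : Par) (e c : ℝ) : ℝ :=
  m2 P c (P.Y - e) / P.L - (P.q e) ^ 2 * (P.sg + (P.Y ^ 3 - (P.Y - (c + e)) ^ 3) / 6)

private theorem h1_eq (h : P.Star) {e c r : ℝ} (hc : 0 ≤ c) (hr : 0 ≤ r) :
    P.dH e c r = f1 P e c r - P.io r * nn P e c := by
  have hL := (cx_L_pos h).ne'
  have hD := D_cont h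
  have a1 : ∫ v in (0:ℝ)..(c + e), P.ker r v =
      (∫ v in (0:ℝ)..(c + e), max (r - v) 0) - P.io r * ∫ v in (0:ℝ)..(c + e), (P.Y - v) ^ 2 / 2 := by
    rw [← intervalIntegral.integral_const_mul, ← intervalIntegral.integral_sub
      ((by fun_prop : Continuous fun v : ℝ => max (r - v) 0).intervalIntegrable _ _)
      ((by fun_prop : Continuous fun v : ℝ => P.io r * ((P.Y - v) ^ 2 / 2)).intervalIntegrable _ _)]
    refine intervalIntegral.integral_congr fun v _ => ?_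
    unfold ker
    ring
  have a2 : ∫ y in (0:ℝ)..c, P.ker r (y + e) * (P.D y / P.L) =
      1 / P.L * (∫ y in (0:ℝ)..c, max ((r - e) - y) 0 * P.D y) -
        P.io r / P.L * ∫ y in (0:ℝ)..c, ((P.Y - e) - y) ^ 2 / 2 * P.D y := by
    rw [← intervalIntegral.integral_const_mul, ← intervalIntegral.integral_const_mul,
      ← intervalIntegral.integral_sub
      ((by fun_prop : Continuous fun y : ℝ => 1 / P.L * (max ((r - e) - y) 0 * P.D y)).intervalIntegrable _ _)
      ((by fun_prop : Continuous fun y : ℝ =>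
        P.io r / P.L * (((P.Y - e) - y) ^ 2 / 2 * P.D y)).intervalIntegrable _ _)]
    refine intervalIntegral.integral_congr fun y _ => ?_
    unfold ker
    have e1 : r - (y + e) = (r - e) - y := by ring
    have e2 : P.Y - (y + e) = (P.Y - e) - y := by ring
    rw [e1, e2]
    ring
  unfold dH
  rw [a1, a2, h1_pos_int, h1_sq_int, h1_g2 h hc, h1_m2 h]
  unfold f1 nn
  rw [sub_zero, sub_zero, max_eq_left hr]
  ring

/-! ### the part `f1` in `r` -/

private noncomputable def mm1 (P : Par) (e c r : ℝ) : ℝ :=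
  -(P.q e) ^ 2 * min r (c + e) + P.io (min (r - e) c)

private theorem g2_deriv (h : P.Star) (c R : ℝ) : HasDerivAt (g2 P c) (P.I (min R c)) R := by
  have h1 := glue_hasDerivAt c P.J P.I (fun z => P.I c * z) (fun _ => P.I c) (J_deriv h)
    (fun z => by simpa using (hasDerivAt_id z).const_mul (P.I c)) (by simp) rfl R
  rw [sub_self, add_zero] at h1
  exact h1

private theorem f1_deriv (h : P.Star) (e c r : ℝ) : HasDerivAt (f1 P e c) (mm1 P e c r) r := by
  have h1 := (g2_deriv h c (r - e)).comp_sub_const r e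
  have h2 := tp_hasDerivAt_shift (c + e) 1 le_rfl r
  have h3 := (((((hasDerivAt_pow 2 r).div_const 2).sub h2).const_mul (-(P.q e) ^ 2)).add
    (h1.div_const P.L))
  have h4 : r - max (r - (c + e)) 0 = min r (c + e) := by
    rcases le_total r (c + e) with h5 | h5
    · rw [min_eq_left h5, max_eq_right (by linarith), sub_zero]
    · rw [min_eq_right h5, max_eq_left (by linarith)]; ring
  refine (h3.congr_deriv ?_).congr_of_eventuallyEq (Eventually.of_forall fun x => ?_)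
  · unfold mm1 io
    rw [← h4]
    simp only [Nat.factorial]
    push_cast
    ring
  · unfold f1
    simp only [Nat.factorial]
    norm_num

private theorem h1_slope (h : P.Star) {a : ℝ} (ha : 0.478 ≤ a) {e : ℝ} (he : 0 ≤ e) :
    (P.q e) ^ 2 ≤ P.D a / P.L := by
  obtain ⟨hY1, hY2, hL1, hL2⟩ := Y_pos h
  have hL := cx_L_pos h
  have hρ := h.ρ_lo
  have h1 : (0.17 : ℝ) ≤ P.D a / P.L := by
    rw [le_div_iff₀ hL]
    have h1 := D_mono h ha
    have h2 := abs_le.1 (D_app h (y := 0.478) (by norm_num) (by linarith only [hL1, hL2, hρ]))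
    have h3 : (0.47 : ℝ) ≤ PD 0.478 := by unfold PD; norm_num
    linarith only [h2.1, hL1, hL2, h1, h2, h3]
  have h2 : P.q e ≤ 0.4 := by
    unfold q
    rw [div_le_iff₀ (by linarith only [he, hY1, hL1, hL2])]
    linarith only [he, hY1, hL1, hL2]
  have h3 := cx_q_pos h he
  nlinarith only [h1, h2, hL1, hL2, h3]

private theorem mm1_mono (h : P.Star) {e c a b : ℝ} (he : 0 ≤ e) (he1 : e ≤ 0.922) (hs : 1.4 ≤ c + e)
    (ha : 1.4 ≤ a) (hab : a ≤ b) : mm1 P e c a ≤ mm1 P e c b := by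
  have key : ∀ r, mm1 P e c r = -(P.q e) ^ 2 * min r (c + e) + P.io (min r (c + e) - e) := by
    intro r
    unfold mm1
    congr 2
    rcases le_total r (c + e) with h5 | h5
    · rw [min_eq_left h5, min_eq_left (by linarith only [h5])]
    · rw [min_eq_right h5, min_eq_right (by linarith only [h5])]; ring
  rw [key, key]
  have h1 : 1.4 ≤ min a (c + e) := le_min ha hs
  have h2 : min a (c + e) ≤ min b (c + e) := min_le_min_right _ hab
  generalize min a (c + e) = a' at h1 h2 ⊢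
  generalize min b (c + e) = b' at h2 ⊢
  rcases h2.eq_or_lt with h3 | h3
  · rw [h3]
  · obtain ⟨ξ, hξ1, -, hξ⟩ := cx_mvt h (a := a' - e) (b := b' - e) (by linarith only [h3])
    have h4 := h1_slope h (a := ξ) (by linarith only [he1, h1, hξ1]) he
    have h5 : (P.q e) ^ 2 * (b' - a') ≤ P.D ξ / P.L * (b' - a') :=
      mul_le_mul_of_nonneg_right h4 (by linarith only [h3])
    have h6 : b' - e - (a' - e) = b' - a' := by ring
    rw [h6] at hξ
    linarith only [hξ, h5]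

private theorem f1_tangent (h : P.Star) {e c r : ℝ} (he : 0 ≤ e) (he1 : e ≤ 0.922) (hs : 1.4 ≤ c + e)
    (hr : 1.4 ≤ r) : mm1 P e c 1.4 * (r - 1.4) ≤ f1 P e c r - f1 P e c 1.4 := by
  rcases hr.eq_or_lt with h1 | h1
  · rw [← h1]; simp
  · obtain ⟨ξ, hξ, h2⟩ := exists_hasDerivAt_eq_slope (f1 P e c) (mm1 P e c) h1
      (fun x _ => (f1_deriv h e c x).continuousAt.continuousWithinAt) (fun x _ => f1_deriv h e c x)
    rw [eq_div_iff (by linarith only [h1])] at h2
    rw [← h2]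
    exact mul_le_mul_of_nonneg_right (mm1_mono h he he1 hs le_rfl hξ.1.le) (by linarith only [h1])

private theorem f1_chord (h : P.Star) {e c l : ℝ} (he : 0 ≤ e) (he1 : e ≤ 0.922) (hs : 1.4 ≤ c + e)
    (hl0 : 0 ≤ l) (hl1 : l ≤ 1) : f1 P e c (l * 1.4 + (1 - l) * 2.2) ≤
      l * f1 P e c 1.4 + (1 - l) * f1 P e c 2.2 := by
  have hderiv : deriv (f1 P e c) = mm1 P e c := by
    funext x
    exact (f1_deriv h e c x).deriv
  have c1 : ConvexOn ℝ (Ici (1.4 : ℝ)) (f1 P e c) := by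
    refine MonotoneOn.convexOn_of_deriv (convex_Ici _)
      (fun x _ => (f1_deriv h e c x).continuousAt.continuousWithinAt)
      (fun x _ => (f1_deriv h e c x).differentiableAt.differentiableWithinAt) ?_
    rw [interior_Ici, hderiv]
    intro x hx y _ hxy
    exact mm1_mono h he he1 hs (le_of_lt hx) hxy
  have e1 := c1.2 (mem_Ici.2 (le_refl (1.4:ℝ))) (mem_Ici.2 (by norm_num : (1.4:ℝ) ≤ 2.2)) hl0
    (by linarith : 0 ≤ 1 - l) (by ring)
  simpa only [smul_eq_mul] using e1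

/-! ### chords of `ι` -/

private theorem h1_D_lip (h : P.Star) {x y : ℝ} (hxy : x ≤ y) : P.D y - P.D x ≤ y - x := by
  have hint : Continuous fun v => max (1 - P.I (v - P.e0)) 0 :=
    (continuous_const.sub ((I_cont h).comp (continuous_id.sub continuous_const))).max continuous_const
  have key : ∀ a b : ℝ, 0 ≤ a → a ≤ b → P.D b - P.D a ≤ b - a := by
    intro a b ha hab
    rw [D_fix h (ha.trans hab), D_fix h ha, intervalIntegral.integral_interval_sub_left
      (hint.intervalIntegrable _ _) (hint.intervalIntegrable _ _)]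
    have h1 := intervalIntegral.integral_mono_on hab (hint.intervalIntegrable (μ := volume) _ _)
      (continuous_const.intervalIntegrable (μ := volume) _ _) (g := fun _ => (1 : ℝ)) (fun v _ => by
        have := I_nonneg h (v - P.e0)
        exact max_le (by linarith) (by norm_num))
    refine h1.trans ?_
    simp
  rcases le_total 0 x with h0 | h0
  · exact key x y h0 hxy
  · rw [D_zero h h0]
    rcases le_total 0 y with h1 | h1
    · have := key 0 y le_rfl h1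
      rw [D_zero h le_rfl] at this
      linarith
    · rw [D_zero h h1]
      linarith

/-- chord minus function, for `ι` -/
private theorem h1_io_chord (h : P.Star) {r1 r2 l : ℝ} (hl0 : 0 ≤ l) (hl1 : l ≤ 1) :
    0 ≤ l * P.io r1 + (1 - l) * P.io r2 - P.io (l * r1 + (1 - l) * r2) ∧
    l * P.io r1 + (1 - l) * P.io r2 - P.io (l * r1 + (1 - l) * r2) ≤
      l * (1 - l) * (r2 - r1) ^ 2 / (2 * P.L) := by
  have hL := cx_L_pos h
  have hderiv : deriv P.I = P.D := by
    funext x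
    exact (I_deriv h x).deriv
  have c1 : ConvexOn ℝ univ P.I := by
    refine Monotone.convexOn_univ_of_deriv (fun x => (I_deriv h x).differentiableAt) ?_
    rw [hderiv]
    exact D_mono h
  have hd2 : ∀ x, HasDerivAt (fun x => x ^ 2 / 2 - P.I x) (x - P.D x) x := by
    intro x
    have := ((hasDerivAt_pow 2 x).div_const 2).sub (I_deriv h x)
    refine this.congr_deriv ?_
    push_cast
    ring
  have c2 : ConvexOn ℝ univ (fun x => x ^ 2 / 2 - P.I x) := by
    refine Monotone.convexOn_univ_of_deriv (fun x => (hd2 x).differentiableAt) ?_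
    have : deriv (fun x => x ^ 2 / 2 - P.I x) = fun x => x - P.D x := by
      funext x
      exact (hd2 x).deriv
    rw [this]
    intro x y hxy
    have := h1_D_lip h hxy
    dsimp only
    linarith
  have e1 := c1.2 (mem_univ r1) (mem_univ r2) hl0 (by linarith : 0 ≤ 1 - l) (by ring)
  have e2 := c2.2 (mem_univ r1) (mem_univ r2) hl0 (by linarith : 0 ≤ 1 - l) (by ring)
  simp only [smul_eq_mul] at e1 e2
  have e3 : l * P.io r1 + (1 - l) * P.io r2 - P.io (l * r1 + (1 - l) * r2) =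
      (l * P.I r1 + (1 - l) * P.I r2 - P.I (l * r1 + (1 - l) * r2)) / P.L := by
    unfold io
    ring
  rw [e3]
  constructor
  · exact div_nonneg (by linarith only [e1]) hL.le
  · have e4 : l * (1 - l) * (r2 - r1) ^ 2 / (2 * P.L) = (l * (1 - l) * (r2 - r1) ^ 2 / 2) / P.L := by
      rw [div_div]
    rw [e4]
    refine div_le_div_of_nonneg_right ?_ hL.le
    nlinarith only [e2]

private theorem h1_I_sq (h : P.Star) {r : ℝ} (hr : 0 ≤ r) : P.I r ≤ r ^ 2 / 2 := by
  have hd2 : ∀ x, HasDerivAt (fun x => x ^ 2 / 2 - P.I x) (x - P.D x) x := by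
    intro x
    have := ((hasDerivAt_pow 2 x).div_const 2).sub (I_deriv h x)
    refine this.congr_deriv ?_
    push_cast
    ring
  have hmono : MonotoneOn (fun x => x ^ 2 / 2 - P.I x) (Ici 0) := by
    refine monotoneOn_of_deriv_nonneg (convex_Ici 0)
      (fun x _ => (hd2 x).continuousAt.continuousWithinAt)
      (fun x _ => (hd2 x).differentiableAt.differentiableWithinAt) fun x hx => ?_
    rw [interior_Ici] at hx
    rw [(hd2 x).deriv]
    have := h1_D_lip h (le_of_lt hx)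
    rw [D_zero h le_rfl] at this
    linarith
  have := hmono (mem_Ici.2 le_rfl) (mem_Ici.2 hr) hr
  dsimp only at this
  rw [I_zero h le_rfl] at this
  linarith only [this]

private theorem h1_J_cu (h : P.Star) {r : ℝ} (hr : 0 ≤ r) : P.J r ≤ r ^ 3 / 6 := by
  have hd2 : ∀ x, HasDerivAt (fun x => x ^ 3 / 6 - P.J x) (x ^ 2 / 2 - P.I x) x := by
    intro x
    have := ((hasDerivAt_pow 3 x).div_const 6).sub (J_deriv h x)
    refine this.congr_deriv ?_
    push_cast
    ring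
  have hmono : MonotoneOn (fun x => x ^ 3 / 6 - P.J x) (Ici 0) := by
    refine monotoneOn_of_deriv_nonneg (convex_Ici 0)
      (fun x _ => (hd2 x).continuousAt.continuousWithinAt)
      (fun x _ => (hd2 x).differentiableAt.differentiableWithinAt) fun x hx => ?_
    rw [interior_Ici] at hx
    rw [(hd2 x).deriv]
    have := h1_I_sq h (le_of_lt hx)
    linarith only [this]
  have := hmono (mem_Ici.2 le_rfl) (mem_Ici.2 hr) hr
  dsimp only at this
  rw [J_zero h le_rfl] at this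
  linarith only [this]

private theorem h1_J_mono (h : P.Star) : Monotone P.J := by
  refine monotone_of_deriv_nonneg (fun y => (J_deriv h y).differentiableAt) fun y => ?_
  rw [(J_deriv h y).deriv]
  exact I_nonneg h y

private theorem h1_J_nonneg (h : P.Star) (y : ℝ) : 0 ≤ P.J y := by
  rcases le_total y 0 with h1 | h1
  · rw [J_zero h h1]
  · have := h1_J_mono h h1
    rwa [J_zero h le_rfl] at this

private theorem h1_K_mono (h : P.Star) : Monotone P.K := by
  refine monotone_of_deriv_nonneg (fun y => (K_deriv h y).differentiableAt) fun y => ?_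
  rw [(K_deriv h y).deriv]
  exact h1_J_nonneg h y

private theorem h1_vals (h : P.Star) {y : ℝ} (h0 : 0 ≤ y) (h1 : y ≤ 1.567) :
    (0 ≤ P.I y ∧ P.I y ≤ 1.06) ∧ (0 ≤ P.J y ∧ P.J y ≤ 0.6) ∧ (0 ≤ P.K y ∧ P.K y ≤ 0.3) := by
  have hρ := h.ρ_lo
  have a1 := abs_le.1 (I_app h (y := 1.567) (by norm_num) (by linarith only [hρ]))
  have a2 := abs_le.1 (J_app h (y := 1.567) (by norm_num) (by linarith only [hρ]))
  have a3 := abs_le.1 (K_app h (y := 1.567) (by norm_num) (by linarith only [hρ]))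
  have b1 : PI 1.567 ≤ 1.059 := by unfold PI; norm_num
  have b2 : PJ 1.567 ≤ 0.599 := by unfold PJ; norm_num
  have b3 : PK 1.567 ≤ 0.299 := by unfold PK; norm_num
  have c1 := I_mono h h1
  have c2 := h1_J_mono h h1
  have c3 := h1_K_mono h h1
  have d3 := h1_K_mono h h0
  rw [K_zero h le_rfl] at d3
  refine ⟨⟨I_nonneg h y, by linarith only [a1.2, a1, b1, c1]⟩, ⟨h1_J_nonneg h y, by linarith only [a2.2, a2, b2, c2]⟩, d3, by linarith only [a3.2, a3, b3, c3]⟩

private theorem h1_JK_lip (h : P.Star) {a b : ℝ} (ha : 0 ≤ a) (ha1 : a ≤ 1.567) (hb : 0 ≤ b)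
    (hb1 : b ≤ 1.567) : |P.J a - P.J b| ≤ 1.06 * |a - b| ∧ |P.K a - P.K b| ≤ 0.6 * |a - b| := by
  have hI : ∀ x ∈ Icc (0:ℝ) 1.567, ‖P.I x‖ ≤ 1.06 := fun x hx => by
    obtain ⟨⟨h1, h2⟩, -⟩ := h1_vals h hx.1 hx.2
    rw [Real.norm_eq_abs, abs_of_nonneg h1]; exact h2
  have hJ : ∀ x ∈ Icc (0:ℝ) 1.567, ‖P.J x‖ ≤ 0.6 := fun x hx => by
    obtain ⟨-, ⟨h1, h2⟩, -⟩ := h1_vals h hx.1 hx.2
    rw [Real.norm_eq_abs, abs_of_nonneg h1]; exact h2
  constructor
  · have := Convex.norm_image_sub_le_of_norm_hasDerivWithin_le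
      (fun x _ => (J_deriv h x).hasDerivWithinAt) hI (convex_Icc 0 1.567) (⟨hb, hb1⟩ : b ∈ Icc (0:ℝ) 1.567) ⟨ha, ha1⟩
    simpa only [Real.norm_eq_abs] using this
  · have := Convex.norm_image_sub_le_of_norm_hasDerivWithin_le
      (fun x _ => (K_deriv h x).hasDerivWithinAt) hJ (convex_Icc 0 1.567) (⟨hb, hb1⟩ : b ∈ Icc (0:ℝ) 1.567) ⟨ha, ha1⟩
    simpa only [Real.norm_eq_abs] using this

end Pool.Agent.CDk.Par

namespace Pool.Agent.CDk.Par
variable {P : Par}

open Pool.Agent.CDk.H1p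

/-! ### the crossing and the second moment as functions of `X = Y + e - 2.66578` -/

private noncomputable def hX (P : Par) (e : ℝ) : ℝ := P.Y + e - 2.66578

private theorem hX_bd (h : P.Star) {x : ℝ} (hx : -P.e0 ≤ x) (hx1 : x ≤ 0.8) :
    -0.12183 ≤ hX P (P.e0 + x) ∧ hX P (P.e0 + x) ≤ 0.80001 := by
  obtain ⟨hY1, hY2, hL1, hL2⟩ := Y_pos h
  have e1 : P.Y + (P.e0 + x) = P.L + x := by unfold Y L; ring
  constructor
  · unfold hX; linarith only [hx, hY1, hL1, hL2]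
  · unfold hX; rw [e1]; linarith only [hx1, hL1, hL2]

private theorem h1_c (h : P.Star) {e c : ℝ} (he : 0 ≤ e) (he1 : e ≤ P.e0 + 0.8) (hc : P.io c = P.q e)
    (h0 : -0.12183 ≤ hX P e) (h1 : hX P e ≤ 0.80001) :
    |c - C (hX P e)| ≤ 0.00004 ∧ 1.24 ≤ c ∧ c ≤ 1.565 ∧ P.I c * (P.Y + e) = P.L := by
  obtain ⟨c', hc', a1, a2, -⟩ := cross h he (by linarith)
  have hcc : c = c' := cross_unique h he hc hc'
  subst hcc
  obtain ⟨hY1, hY2, hL1, hL2⟩ := Y_pos h
  have hL := cx_L_pos h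
  have hρ := h.ρ_lo
  have f := abs_le.1 (fC h0 h1)
  obtain ⟨b1, b2, -, -⟩ := fC3 h0 h1
  have hu : (2.66578 : ℝ) + hX P e = P.Y + e := by unfold hX; ring
  have g := abs_le.1 (I_app h (y := C (hX P e)) (by linarith only [hL1, hL2, b1]) (by linarith only [hL1, hL2, hρ, b2]))
  rw [hu] at f
  generalize C (hX P e) = c1 at f b1 b2 g ⊢
  have hu0 : 2.543961 < P.Y + e := by linarith only [he, hY1]
  have hu1 : P.Y + e ≤ 3.46579 := by rw [← hu]; linarith only [h1]
  have i2 : P.I c * (P.Y + e) = P.L := by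
    unfold io q at hc
    rw [div_eq_div_iff hL.ne' (by linarith only [he, hY1, hL1, hL2])] at hc
    linarith only [hc]
  refine ⟨?_, a1, a2, i2⟩
  have i1 : |(P.I c1 - P.I c) * (P.Y + e)| ≤ 0.0001 := by
    have j1 : (P.I c1 - PI c1) * (P.Y + e) ≤ 0.000015 * 3.46579 :=
      mul_le_mul (by linarith only [g.2, g]) hu1 (by linarith only [he, hY1, hL1, hL2]) (by norm_num)
    have j2 : -(P.I c1 - PI c1) * (P.Y + e) ≤ 0.000015 * 3.46579 :=
      mul_le_mul (by linarith only [g.1, g]) hu1 (by linarith only [he, hY1, hL1, hL2]) (by norm_num)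
    rw [abs_le]
    constructor
    · nlinarith only [f.1, hL1, hL2, f, i2, j2]
    · nlinarith only [f.2, hL1, hL2, f, i2, j1]
  have i3 : |P.I c1 - P.I c| ≤ 0.00003931 := by
    rw [abs_mul, abs_of_pos (by linarith only [he, hY1, hL1, hL2] : 0 < P.Y + e)] at i1
    by_contra hcon
    push Not at hcon
    have : (0.00003931 : ℝ) * 2.543961 < |P.I c1 - P.I c| * (P.Y + e) :=
      mul_lt_mul'' hcon hu0 (by norm_num) (by norm_num)
    linarith only [hL1, hL2, i1, this]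
  have i4 : |P.io c1 - P.io c| ≤ 0.00001475 := by
    unfold io
    rw [← sub_div, abs_div, abs_of_pos hL, div_le_iff₀ hL]
    linarith only [hL1, hL2, i3]
  have i5 : ∀ a b : ℝ, 1.24 ≤ a → a < b → P.io b - P.io a ≤ 0.00001475 → b - a ≤ 0.00004 := by
    intro a b ha hab hh
    obtain ⟨ξ, hξ1, -, hξ⟩ := cx_mvt h hab
    have k1 := (io_slope h (y := ξ) (by linarith only [ha, hξ1])).1
    have k2 : 0.38 * (b - a) ≤ P.D ξ / P.L * (b - a) := mul_le_mul_of_nonneg_right k1 (by linarith only [hab])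
    linarith only [hab, hh, hξ, k2]
  have i6 := abs_le.1 i4
  rw [abs_le]
  rcases lt_trichotomy c c1 with hh | hh | hh
  · have := i5 c c1 a1 hh (by linarith only [i6.2, i6])
    constructor <;> linarith
  · subst hh; constructor <;> linarith
  · have := i5 c1 c b1 hh (by linarith only [i6.1, i6])
    constructor <;> linarith

private theorem np1 {u z Z : ℝ} (hu0 : 0 ≤ u) (hu : u ≤ 3.4658) (hz : |z - Z| ≤ 0.000044)
    (z0 : -0.000044 ≤ z) (z1 : z ≤ 0.985044) (hZ0 : 0 ≤ Z) (hZ1 : Z ≤ 0.985) :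
    |u * z ^ 2 / 2 - u * Z ^ 2 / 2| ≤ 0.000151 := by
  have e1 : u * z ^ 2 / 2 - u * Z ^ 2 / 2 = (z - Z) * (u / 2 * (z + Z)) := by ring
  rw [e1, abs_mul]
  have k0 : |z + Z| ≤ 1.970044 := by rw [abs_le]; constructor <;> linarith
  have k1 : |u / 2 * (z + Z)| ≤ 1.7329 * 1.970044 := by
    rw [abs_mul, abs_of_nonneg (by linarith only [hu0] : 0 ≤ u / 2)]
    exact mul_le_mul (by linarith only [hu]) k0 (abs_nonneg _) (by norm_num)
  have k2 : |z - Z| * |u / 2 * (z + Z)| ≤ 0.000044 * (1.7329 * 1.970044) :=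
    mul_le_mul hz k1 (abs_nonneg _) (by norm_num)
  refine k2.trans (by norm_num)

private theorem np2 {z Z J K J' K' : ℝ}
    (hz : |z - Z| ≤ 0.000044) (hZ0 : 0 ≤ Z) (hZ1 : Z ≤ 0.985) (hJ : |J - J'| ≤ 0.000053)
    (hK : |K - K'| ≤ 0.000035) (hJ0 : 0 ≤ J) (hJ1 : J ≤ 0.6) :
    |(z * J + K) - (Z * J' + K')| ≤ 0.0001137 := by
  have e1 : (z * J + K) - (Z * J' + K') = (z - Z) * J + Z * (J - J') + (K - K') := by ring
  rw [e1]
  have k1 : |(z - Z) * J| ≤ 0.000044 * 0.6 := by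
    rw [abs_mul, abs_of_nonneg hJ0]
    exact mul_le_mul hz hJ1 hJ0 (by norm_num)
  have k2 : |Z * (J - J')| ≤ 0.985 * 0.000053 := by
    rw [abs_mul, abs_of_nonneg hZ0]
    exact mul_le_mul hZ1 hJ (abs_nonneg _) (by norm_num)
  refine (abs_add_le _ _).trans ?_
  refine (add_le_add_left (abs_add_le _ _) _).trans ?_
  linarith only [hK, k1, k2]

private theorem np3 {B B' L : ℝ} (hB : |B - B'| ≤ 0.0001137) (hB1 : |B| ≤ 1)
    (hL0 : 2.665779 < L) (hL1 : L < 2.665784) : |B / L - B' / 2.66578| ≤ 0.000044 := by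
  have hL : 0 < L := by linarith only [hL0, hL1]
  have e1 : B / L - B' / 2.66578 = (B - B') / 2.66578 + B * (2.66578 - L) / (L * 2.66578) := by
    field_simp
    ring
  rw [e1]
  have k1 : |(B - B') / 2.66578| ≤ 0.0001137 / 2.66578 := by
    rw [abs_div, abs_of_pos (by norm_num : (0:ℝ) < 2.66578)]
    exact div_le_div_of_nonneg_right hB (by norm_num)
  have k3 : |B * (2.66578 - L) / (L * 2.66578)| ≤ 0.000001 := by
    rw [abs_div, abs_of_pos (by positivity : 0 < L * 2.66578), div_le_iff₀ (by positivity), abs_mul]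
    have k4 : |2.66578 - L| ≤ 0.000005 := by rw [abs_le]; constructor <;> linarith
    have k5 : |B| * |2.66578 - L| ≤ 1 * 0.000005 :=
      mul_le_mul hB1 k4 (abs_nonneg _) (by norm_num)
    linarith only [hL0, hL1, k5]
  refine (abs_add_le _ _).trans ?_
  have : (0.0001137 : ℝ) / 2.66578 ≤ 0.0000427 := by norm_num
  linarith only [hL0, hL1, k1, k3]

private theorem np5 {Y : ℝ} (hY0 : 2.543961 < Y) (hY1 : Y < 2.543965) :
    |Y ^ 3 / 6 - 2.543963 ^ 3 / 6| ≤ 0.000008 := by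
  have e1 : Y ^ 3 / 6 - 2.543963 ^ 3 / 6 =
      (Y - 2.543963) * ((Y ^ 2 + Y * 2.543963 + 2.543963 ^ 2) / 6) := by ring
  have k0 : Y ^ 2 ≤ 6.48 := by nlinarith only [hY0, hY1]
  have k1 : 0 ≤ Y ^ 2 := sq_nonneg Y
  have k2 : |(Y ^ 2 + Y * 2.543963 + 2.543963 ^ 2) / 6| ≤ 4 := by
    rw [abs_le]
    constructor
    · norm_num
      linarith only [hY0, hY1, k1]
    · norm_num
      linarith only [hY0, hY1, k0]
  have k3 : |Y - 2.543963| ≤ 0.000002 := by rw [abs_le]; constructor <;> linarith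
  rw [e1, abs_mul]
  refine (mul_le_mul k3 k2 (abs_nonneg _) (by norm_num)).trans (by norm_num)

private theorem np6 {z Z : ℝ} (hz : |z - Z| ≤ 0.000044) (z0 : -0.000044 ≤ z) (z1 : z ≤ 0.985044)
    (hZ0 : 0 ≤ Z) (hZ1 : Z ≤ 0.985) : |z ^ 3 / 6 - Z ^ 3 / 6| ≤ 0.000022 := by
  have e1 : z ^ 3 / 6 - Z ^ 3 / 6 = (z - Z) * ((z ^ 2 + z * Z + Z ^ 2) / 6) := by ring
  have a1 : |z| ≤ 1 := by rw [abs_le]; constructor <;> linarith
  have a2 : |Z| ≤ 1 := by rw [abs_le]; constructor <;> linarith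
  have b1 : |z ^ 2| ≤ 1 := by rw [abs_pow]; exact pow_le_one₀ (abs_nonneg _) a1
  have b2 : |Z ^ 2| ≤ 1 := by rw [abs_pow]; exact pow_le_one₀ (abs_nonneg _) a2
  have b3 : |z * Z| ≤ 1 := by rw [abs_mul]; exact mul_le_one₀ a1 (abs_nonneg _) a2
  have k2 : |(z ^ 2 + z * Z + Z ^ 2) / 6| ≤ 0.5 := by
    rw [abs_le] at b1 b2 b3 ⊢
    constructor
    · linarith only [b1.1, b2.1, b3.1, b1, b2, b3]
    · linarith only [b1.2, b2.2, b3.2, b1, b2, b3]
  rw [e1, abs_mul]
  refine (mul_le_mul hz k2 (abs_nonneg _) (by norm_num)).trans (by norm_num)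

private theorem np_sum {a a' b b' s y y' c c' : ℝ} (p1 : |a - a'| ≤ 0.000151)
    (p4 : |b - b'| ≤ 0.00052888) (p5 : |y - y'| ≤ 0.000008) (p6 : |c - c'| ≤ 0.000022)
    (hs0 : 0.52168 < s) (hs1 : s < 0.521684) :
    |(a + b - s - (y - c)) - (a' + b' - (0.521682 + y') + c')| ≤ 0.00075 := by
  rw [abs_le] at p1 p4 p5 p6 ⊢
  constructor
  · linarith only [p1.1, p4.1, p5.2, p6.1, p1, p4, p5, p6, hs0, hs1]
  · linarith only [p1.2, p4.2, p5.1, p6.2, p1, p4, p5, p6, hs0, hs1]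

private theorem n_pert {u z Z L J K J' K' Y sg : ℝ} (hu0 : 2.5439 ≤ u) (hu : u ≤ 3.4658)
    (hz : |z - Z| ≤ 0.000044) (hZ0 : 0 ≤ Z) (hZ1 : Z ≤ 0.985) (hJ : |J - J'| ≤ 0.000053)
    (hK : |K - K'| ≤ 0.000035) (hJ0 : 0 ≤ J) (hJ1 : J ≤ 0.6) (hK0 : 0 ≤ K) (hK1 : K ≤ 0.3)
    (hL0 : 2.665779 < L) (hL1 : L < 2.665784) (hY0 : 2.543961 < Y) (hY1 : Y < 2.543965)
    (hs0 : 0.52168 < sg) (hs1 : sg < 0.521684) :
    |(u * z ^ 2 / 2 + u ^ 2 * (z * J + K) / L - sg - (Y ^ 3 - z ^ 3) / 6) -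
      (u * Z ^ 2 / 2 + u ^ 2 * (Z * J' + K') / 2.66578 - (0.521682 + 2.543963 ^ 3 / 6) + Z ^ 3 / 6)| ≤
      0.00075 := by
  have hz' := abs_le.1 hz
  have z0 : -0.000044 ≤ z := by linarith only [hz'.1, hZ0, hz']
  have z1 : z ≤ 0.985044 := by linarith only [hz'.2, hZ1, hz']
  have p1 := np1 (by linarith only [hu0, hs0, hs1]) hu hz z0 z1 hZ0 hZ1
  have p2 := np2 hz hZ0 hZ1 hJ hK hJ0 hJ1
  have k2 : |z * J + K| ≤ 1 := by
    have e1 : -0.000044 * J ≤ z * J := mul_le_mul_of_nonneg_right z0 hJ0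
    have e2 : z * J ≤ 0.985044 * J := mul_le_mul_of_nonneg_right z1 hJ0
    rw [abs_le]; constructor <;> linarith
  have p3 := np3 p2 k2 hL0 hL1
  have p4 : |u ^ 2 * (z * J + K) / L - u ^ 2 * (Z * J' + K') / 2.66578| ≤ 0.00052888 := by
    rw [mul_div_assoc, mul_div_assoc, ← mul_sub, abs_mul, abs_of_nonneg (sq_nonneg u)]
    have k3 : u ^ 2 ≤ 12.02 := by nlinarith only [hu, hs0, hs1, hu0]
    refine (mul_le_mul k3 p3 (abs_nonneg _) (by norm_num)).trans (by norm_num)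
  have p5 := np5 hY0 hY1
  have p6 := np6 hz z0 z1 hZ0 hZ1
  have := np_sum p1 p4 p5 p6 hs0 hs1
  rw [sub_div]
  exact this

private theorem h1_JKc (h : P.Star) {c c1 : ℝ} (hcc : |c - c1| ≤ 0.00004) (h0 : 1.24 ≤ c)
    (h1 : c ≤ 1.565) (h2 : 1.24 ≤ c1) (h3 : c1 ≤ 1.5625) :
    |P.J c - PJ c1| ≤ 0.000053 ∧ |P.K c - PK c1| ≤ 0.000035 := by
  have hρ := h.ρ_lo
  obtain ⟨a1, a2⟩ := h1_JK_lip h (a := c) (b := c1) (by linarith only [h0]) (by linarith only [h1]) (by linarith only [h2]) (by linarith only [h3])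
  have b1 := J_app h (y := c1) (by linarith only [h2]) (by linarith only [h3, hρ])
  have b2 := K_app h (y := c1) (by linarith only [h2]) (by linarith only [h3, hρ])
  constructor
  · have := abs_add_le (P.J c - P.J c1) (P.J c1 - PJ c1)
    rw [sub_add_sub_cancel] at this
    linarith only [hcc, a1, b1, this]
  · have := abs_add_le (P.K c - P.K c1) (P.K c1 - PK c1)
    rw [sub_add_sub_cancel] at this
    linarith only [hcc, a2, b2, this]

private theorem h1_n (h : P.Star) {e c : ℝ} (he : 0 ≤ e) (he1 : e ≤ P.e0 + 0.8) (hc : P.io c = P.q e)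
    (h0 : -0.12183 ≤ hX P e) (h1 : hX P e ≤ 0.80001) : |nn P e c - N (hX P e)| ≤ 0.0002 := by
  obtain ⟨a0, a1, a2, a3⟩ := h1_c h he he1 hc h0 h1
  obtain ⟨hY1, hY2, hL1, hL2⟩ := Y_pos h
  obtain ⟨hs1, hs2⟩ := sg_bd h
  have hL := cx_L_pos h
  obtain ⟨b1, b2, -, -⟩ := fC3 h0 h1
  obtain ⟨d1, d2⟩ := h1_JKc h a0 a1 a2 b1 b2
  obtain ⟨-, ⟨v1, v2⟩, v3, v4⟩ := h1_vals h (y := c) (by linarith only [a1, hs1, hs2]) (by linarith only [a2, hs1, hs2])
  have hu : (2.66578 : ℝ) + hX P e = P.Y + e := by unfold hX; ring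
  obtain ⟨z0, z1⟩ := fZ h0 h1
  have f := fN h0 h1
  have hu0 : 2.543961 < P.Y + e := by linarith only [he, hY1]
  have hu1 : P.Y + e ≤ 3.46579 := by rw [← hu]; linarith only [h1]
  have hz : |(P.Y - (c + e)) - Z (hX P e)| ≤ 0.000044 := by
    unfold Z
    rw [hu]
    have e1 : P.Y - (c + e) - (2 * 2.543963 - (P.Y + e) - C (hX P e)) =
      2 * (P.Y - 2.543963) - (c - C (hX P e)) := by ring
    rw [e1]
    rw [abs_le] at a0 ⊢
    constructor <;> linarith [a0.1, a0.2]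
  have key := n_pert (u := P.Y + e) (by linarith only [he, hY1, hs1, hs2]) (by linarith only [h1, hs1, hs2, hu]) hz z0 z1 d1 d2 v1 v2 v3 v4 hL1 hL2 hY1 hY2
    hs1 hs2
  have hphi : Phi (hX P e) = (P.Y + e) * Z (hX P e) ^ 2 / 2 +
      (P.Y + e) ^ 2 * (Z (hX P e) * PJ (C (hX P e)) + PK (C (hX P e))) / 2.66578 -
      (0.521682 + 2.543963 ^ 3 / 6) + Z (hX P e) ^ 3 / 6 := by
    unfold Phi
    rw [hu]
  rw [← hphi] at key
  have hnn : (P.Y + e) * (P.Y - (c + e)) ^ 2 / 2 + (P.Y + e) ^ 2 * ((P.Y - (c + e)) * P.J c + P.K c) / P.L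
      - P.sg - (P.Y ^ 3 - (P.Y - (c + e)) ^ 3) / 6 = nn P e c * (P.Y + e) ^ 2 := by
    have hI : P.I c = P.L / (P.Y + e) := by
      rw [eq_div_iff (by linarith only [he, hY1, hs1, hs2])]; exact a3
    unfold nn m2 q
    rw [hI]
    have : P.Y + e ≠ 0 := by linarith only [he, hY1, hs1, hs2]
    have hz' : P.Y - e - c = P.Y - (c + e) := by ring
    rw [hz']
    field_simp
    ring
  rw [hnn] at key
  rw [hu] at f
  have key2 : |(nn P e c - N (hX P e)) * (P.Y + e) ^ 2| ≤ 0.00115 := by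
    have e1 : (nn P e c - N (hX P e)) * (P.Y + e) ^ 2 = (nn P e c * (P.Y + e) ^ 2 - Phi (hX P e)) +
      (Phi (hX P e) - N (hX P e) * (P.Y + e) ^ 2) := by ring
    rw [e1]
    refine (abs_add_le _ _).trans ?_
    linarith only [f, key]
  rw [abs_mul, abs_of_nonneg (sq_nonneg (P.Y + e))] at key2
  by_contra hcon
  push Not at hcon
  have h6 : (6.47 : ℝ) < (P.Y + e) ^ 2 := by nlinarith only [he, hY1, hs1, hs2]
  have : (0.0002 : ℝ) * 6.47 < |nn P e c - N (hX P e)| * (P.Y + e) ^ 2 :=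
    mul_lt_mul'' hcon h6 (by norm_num) (by norm_num)
  linarith only [hs1, hs2, key2, this]

/-! ### `PJ` at negative arguments -/

private theorem PJ_neg {t : ℝ} (h0 : -0.345 ≤ t) (h1 : t ≤ 0) : PJ t ≤ 0 ∧ -0.0074 ≤ PJ t := by
  obtain ⟨s, rfl⟩ : ∃ s, t = -s := ⟨-t, by ring⟩
  have s0 : 0 ≤ s := by linarith only [h1]
  have s1 : s ≤ 0.345 := by linarith only [h0]
  have e1 : PJ (-s) = -(s ^ 3 * (0.99582/6 - 0.0503/12*s - 0.15027/20*s^2 + 0.01586/30*s^3 + 0.0092/42*s^4)) := by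
    unfold PJ; ring
  have s2 : s ^ 2 ≤ 0.345 ^ 2 := pow_le_pow_left₀ s0 s1 2
  have s3 : s ^ 3 ≤ 0.345 ^ 3 := pow_le_pow_left₀ s0 s1 3
  have s4 : s ^ 4 ≤ 0.345 ^ 4 := pow_le_pow_left₀ s0 s1 4
  have t2 : 0 ≤ s ^ 2 := by positivity
  have t3 : 0 ≤ s ^ 3 := by positivity
  have t4 : 0 ≤ s ^ 4 := by positivity
  have b0 : 0 ≤ 0.99582/6 - 0.0503/12*s - 0.15027/20*s^2 + 0.01586/30*s^3 + 0.0092/42*s^4 := by
    norm_num at s2 ⊢
    linarith only [h0, t3, t4, s2]
  have b1 : 0.99582/6 - 0.0503/12*s - 0.15027/20*s^2 + 0.01586/30*s^3 + 0.0092/42*s^4 ≤ 0.167 := by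
    norm_num at s3 s4 ⊢
    linarith only [h1, t2, s3, s4]
  rw [e1]
  constructor
  · have := mul_nonneg t3 b0
    linarith only [this]
  · have := mul_le_mul s3 b1 b0 (by norm_num)
    norm_num at this ⊢
    linarith only [this]

/-! ### the range `0.577 ≤ r ≤ 1.4` -/

private theorem f1_in {e c r : ℝ} (hr : r ≤ c + e) :
    f1 P e c r = -(P.q e) ^ 2 * (r ^ 2 / 2) + P.J (r - e) / P.L := by
  unfold f1 g2
  rw [max_eq_right (by linarith : r - (c + e) ≤ 0), min_eq_left (by linarith), max_eq_right (by linarith)]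
  ring

/-- the assembled facts -/
private structure Fc (P : Par) (e c X : ℝ) : Prop where
  he : 0 ≤ e
  he1 : e ≤ 0.921819
  h0 : -0.12183 ≤ X
  h1 : X ≤ 0.80001
  hu : 2.66578 + X = P.Y + e
  c0 : 1.24 ≤ c
  c1 : c ≤ 1.565
  cc : |c - C X| ≤ 0.00004
  s0 : 1.54 ≤ c + e
  s1 : c + e ≤ 2.2245
  hI : P.I c * (P.Y + e) = P.L
  hn : |nn P e c - N X| ≤ 0.0002
  n1 : nn P e c ≤ 0.0135
  n2 : -0.1727 ≤ nn P e c

private theorem facts (h : P.Star) {x c : ℝ} (hx : -P.e0 ≤ x) (hx1 : x ≤ 0.8)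
    (hc : P.io c = P.q (P.e0 + x)) : Fc P (P.e0 + x) c (hX P (P.e0 + x)) := by
  obtain ⟨h0, h1⟩ := hX_bd h hx hx1
  have he : 0 ≤ P.e0 + x := by linarith only [hx]
  have he1 : P.e0 + x ≤ P.e0 + 0.8 := by linarith only [hx1]
  obtain ⟨a0, a1, a2, a3⟩ := h1_c h he he1 hc h0 h1
  have a4 := h1_n h he he1 hc h0 h1
  obtain ⟨hY1, hY2, hL1, hL2⟩ := Y_pos h
  obtain ⟨b1, b2, b3, b4⟩ := fC3 h0 h1
  obtain ⟨n1, n2⟩ := fN3 h0 h1
  have hu : (2.66578 : ℝ) + hX P (P.e0 + x) = P.Y + (P.e0 + x) := by unfold hX; ring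
  have ehi := h.e_hi
  have a0' := abs_le.1 a0
  have a4' := abs_le.1 a4
  exact ⟨he, by linarith only [hx1, ehi], h0, h1, hu, a1, a2, a0, by linarith only [a0'.1, hY2, hL1, hL2, b4, hu, a0'], by linarith only [a0'.2, hY1, hL1, hL2, b3, hu, a0'], a3, a4,
    by linarith only [a4'.2, n1, a4'], by linarith only [a4'.1, n2, a4']⟩

private theorem qu {e : ℝ} (he : 0 < P.Y + e) : (P.q e) ^ 2 * (P.Y + e) ^ 2 = 1 := by
  unfold q
  field_simp

private theorem mid_lo {L U R Jv J0 In PN F : ℝ} (hF : F * (L * U) = -L * R + U * Jv - U * In)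
    (J1 : J0 - 0.00001 ≤ Jv) (I1 : In ≤ PN + 0.000003)
    (hT : 0 ≤ 0.0284 * U - R + (J0 - PN) * U / 2.66578) (hL1 : 2.665779 < L) (hL2 : L < 2.665784)
    (r0 : 0 ≤ R) (r1 : R ≤ 1) (u2 : 6.47 ≤ U) : -0.0285 ≤ F := by
  have k3 := mul_le_mul_of_nonneg_left J1 (by linarith only [hL1, hL2, u2] : 0 ≤ U)
  have k4 := mul_le_mul_of_nonneg_left I1 (by linarith only [hL1, hL2, u2] : 0 ≤ U)
  have k5 : 0 ≤ 2.66578 * (0.0284 * U - R) + (J0 - PN) * U := by
    have := mul_nonneg (by norm_num : (0:ℝ) ≤ 2.66578) hT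
    refine le_of_le_of_eq this ?_
    ring
  have k6 : (L - 2.66578) * R ≤ 0.000004 * 1 := mul_le_mul (by linarith only [hL2]) r1 r0 (by norm_num)
  by_contra hcon
  push Not at hcon
  have k7 := mul_lt_mul_of_pos_right hcon (mul_pos (by linarith only [hL1, hL2] : 0 < L) (by linarith only [hL1, hL2, u2] : 0 < U))
  rw [hF] at k7
  have k8 : 0.0285 * 2.665779 * U ≤ 0.0285 * L * U :=
    mul_le_mul_of_nonneg_right (by linarith only [hL1]) (by linarith only [hL1, hL2, u2])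
  linarith only [hL1, hL2, u2, k3, k4, k5, k6, k7, k8]

private theorem mid_up {L U R Jv J0 In PN F : ℝ} (hF : F * (L * U) = -L * R + U * Jv - U * In)
    (J1 : Jv ≤ J0 + 0.0074) (I1 : PN - 0.000003 ≤ In)
    (hT : 0 ≤ 0.0149 * U + R - (J0 + 0.0074 - PN) * U / 2.66578) (hL1 : 2.665779 < L)
    (r0 : 0 ≤ R) (r1 : R ≤ 1) (u2 : 6.47 ≤ U) : F ≤ 0.015 := by
  have k3 := mul_le_mul_of_nonneg_left J1 (by linarith only [u2] : 0 ≤ U)
  have k4 := mul_le_mul_of_nonneg_left I1 (by linarith only [u2] : 0 ≤ U)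
  have k5 : 0 ≤ 2.66578 * (0.0149 * U + R) - (J0 + 0.0074 - PN) * U := by
    have := mul_nonneg (by norm_num : (0:ℝ) ≤ 2.66578) hT
    refine le_of_le_of_eq this ?_
    ring
  have k6 : (2.66578 - L) * R ≤ 0.000001 * 1 := mul_le_mul (by linarith only [hL1]) r1 r0 (by norm_num)
  by_contra hcon
  push Not at hcon
  have k7 := mul_lt_mul_of_pos_right hcon (mul_pos (by linarith only [hL1] : 0 < L) (by linarith only [u2] : 0 < U))
  rw [hF] at k7
  have k8 : 0.015 * 2.665779 * U ≤ 0.015 * L * U :=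
    mul_le_mul_of_nonneg_right (by linarith only [hL1]) (by linarith only [u2])
  linarith only [u2, k3, k4, k5, k6, k7, k8]

private theorem In_bd {I0 I1 n N ε : ℝ} (hI : 0 ≤ I0) (hI1 : |I0 - I1| ≤ 0.000015) (hn : n ≤ N)
    (hN : |N| ≤ 0.18) (hε : ε = 0.000003) : I0 * n ≤ I1 * N + ε := by
  have k1 : I0 * n ≤ I0 * N := mul_le_mul_of_nonneg_left hn hI
  have k2 : (I0 - I1) * N ≤ 0.000015 * 0.18 := by
    refine (le_abs_self _).trans ?_
    rw [abs_mul]
    exact mul_le_mul hI1 hN (abs_nonneg _) (by norm_num)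
  rw [sub_mul] at k2
  rw [hε]
  linarith only [k1, k2]

private theorem F_eq (h : P.Star) {e c r : ℝ} (hu0 : 0 < P.Y + e) (hr : r ≤ c + e) :
    (f1 P e c r - P.io r * nn P e c) * (P.L * (P.Y + e) ^ 2) =
      -P.L * (r ^ 2 / 2) + (P.Y + e) ^ 2 * P.J (r - e) - (P.Y + e) ^ 2 * (P.I r * nn P e c) := by
  have hL := cx_L_pos h
  rw [f1_in hr]
  unfold io
  have e1 : (-(P.q e) ^ 2 * (r ^ 2 / 2) + P.J (r - e) / P.L - P.I r / P.L * nn P e c) *
      (P.L * (P.Y + e) ^ 2) = -P.L * (r ^ 2 / 2) * ((P.q e) ^ 2 * (P.Y + e) ^ 2) +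
        (P.Y + e) ^ 2 * P.J (r - e) - (P.Y + e) ^ 2 * (P.I r * nn P e c) := by
    field_simp
  rw [e1, qu (P := P) hu0, mul_one]

private theorem J_low (h : P.Star) {r e t : ℝ} (k0 : t ≤ r - e) (k1 : -0.345 ≤ t) (k2 : t ≤ 1.6) :
    PJ t - 0.00001 ≤ P.J (r - e) := by
  have hρ := h.ρ_lo
  rcases le_total 0 t with k3 | k3
  · have k4 := abs_le.1 (J_app h k3 (by linarith only [k2, hρ]))
    have k5 := h1_J_mono h k0
    linarith only [k4.2, k4, k5]
  · have k4 := (PJ_neg k1 k3).1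
    have k5 := h1_J_nonneg h (r - e)
    linarith only [k4, k5]

private theorem J_up (h : P.Star) {r e t : ℝ} (k0 : r - e ≤ t) (k1 : -0.345 ≤ t) (k2 : t ≤ 1.6) :
    P.J (r - e) ≤ PJ t + 0.0074 := by
  have hρ := h.ρ_lo
  have k5 := h1_J_mono h k0
  rcases le_total 0 t with k3 | k3
  · have k4 := abs_le.1 (J_app h k3 (by linarith only [k2, hρ]))
    linarith only [k4.1, k5, k4]
  · have k4 := (PJ_neg k1 k3).2
    rw [J_zero h k3] at k5
    linarith only [k5, k4]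

private theorem h1_mid (h : P.Star) {e c X r : ℝ} (H : Fc P e c X) (h2 : 0.577 ≤ r) (h3 : r ≤ 1.4) :
    -0.0285 ≤ f1 P e c r - P.io r * nn P e c ∧ f1 P e c r - P.io r * nn P e c ≤ 0.015 := by
  obtain ⟨he, he1, h0, h1, hu, c0, c1, cc, s0, s1, hI, hn, n1, n2⟩ := H
  obtain ⟨hY1, hY2, hL1, hL2⟩ := Y_pos h
  have hρ := h.ρ_lo
  have hu0 : 0 < P.Y + e := by linarith only [h0, hu, hL1, hL2]
  obtain ⟨N1, N2⟩ := fN3 h0 h1
  have u2 : 6.47 ≤ (P.Y + e) ^ 2 := by nlinarith only [he, h0, hY1, hL1, hL2, hu]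
  have iapp := I_app h (y := r) (by linarith only [h2, hL1, hL2]) (by linarith only [h3, hL1, hL2, hρ])
  have I0 := I_nonneg h r
  have hn' := abs_le.1 hn
  have hF := F_eq h hu0 (by linarith only [h3, s0, hL1, hL2] : r ≤ c + e)
  have r2 : r ^ 2 / 2 ≤ 1 := by nlinarith only [h3, hL1, hL2, h2]
  have r20 : 0 ≤ r ^ 2 / 2 := by positivity
  constructor
  · refine mid_lo hF (J_low h (t := r - X - 0.121819) (by linarith only [hu, hY1]) (by linarith only [h2, h1, hL1, hL2]) (by linarith only [h3, h0, hL1, hL2]))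
      (In_bd I0 iapp (by linarith only [hn'.2, hn'] : nn P e c ≤ N X + 0.0002)
        (by rw [abs_le]; constructor <;> linarith) rfl) ?_ hL1 hL2 r20 r2 u2
    have hT := fT h0 h1 h2 h3
    rw [hu] at hT
    exact hT
  · refine mid_up hF (J_up h (t := r - X - 0.121815) (by linarith only [hu, hY2]) (by linarith only [h2, h1, hL1, hL2]) (by linarith only [h3, h0, hL1, hL2]))
      (PN := PI r * (N X - 0.0002)) ?_ ?_ hL1 r20 r2 u2
    · have := In_bd (n := -nn P e c) (N := -(N X - 0.0002)) I0 iapp (by linarith only [hn'.1, hn'])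
        (by rw [abs_le]; constructor <;> linarith) rfl
      rw [mul_neg, mul_neg] at this
      linarith only [this]
    · have hU := fU h0 h1 h2 h3
      rw [hu] at hU
      exact hU

/-! ### the point `r = 2.2` -/

private theorem h1_io22 (h : P.Star) : 0.65628 ≤ P.io 2.2 ∧ P.io 2.2 ≤ 0.65632 := by
  obtain ⟨-, -, hL1, hL2⟩ := Y_pos h
  have hL := cx_L_pos h
  have hρ := h.ρ_lo
  have hρ' := h.ρ_hi
  have he := h.e_hi
  have h2 := abs_le.1 (I_app h (y := 1.640087) (by norm_num) hρ.le)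
  have h3 := abs_le.1 (D_app5 h (y := 1.640087) (by linarith only [hρ, hρ', he]) hρ.le)
  have h4 : |PD5 1.640087 - 1.09996| ≤ 0.000009 := by
    rw [abs_le]; unfold PD5; constructor <;> norm_num
  rw [abs_le] at h4
  have h5 : P.D P.ρ - P.D 1.640087 ≤ P.ρ - 1.640087 := h1_D_lip h hρ.le
  obtain ⟨ξ, h6, h7⟩ := exists_hasDerivAt_eq_slope P.I P.D (by norm_num : (1.640087 : ℝ) < 2.2)
    (fun x _ => (I_deriv h x).continuousAt.continuousWithinAt) (fun x _ => I_deriv h x)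
  rw [eq_div_iff (by norm_num)] at h7
  have h9 : P.D ξ ≤ P.D P.ρ := by
    rcases le_total ξ P.ρ with h10 | h10
    · exact D_mono h h10
    · rw [D_const h h10]
  have h10 : P.D 1.640087 ≤ P.D ξ := D_mono h h6.1.le
  have h11 : 1.09994 * (2.2 - 1.640087) ≤ P.D ξ * (2.2 - 1.640087) :=
    mul_le_mul_of_nonneg_right (by linarith only [h3.1, h4.1, hρ, hρ', h3, h4, h10]) (by norm_num)
  have h12 : P.D ξ * (2.2 - 1.640087) ≤ 1.09998 * (2.2 - 1.640087) :=
    mul_le_mul_of_nonneg_right (by linarith only [h3.2, h4.2, hρ', h3, h4, h5, h9]) (by norm_num)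
  have h13 : (1.13367 : ℝ) ≤ PI 1.640087 := by unfold PI; norm_num
  have h14 : PI 1.640087 ≤ 1.133673 := by unfold PI; norm_num
  unfold io
  rw [le_div_iff₀ hL, div_le_iff₀ hL]
  constructor
  · linarith only [h2.1, hL2, hρ, hρ', h2, h3, h4, h7, h10, h13]
  · linarith only [h2.2, hL1, hρ, hρ', h2, h3, h4, h5, h7, h9, h14]

/-- `ι ≤ 1` slope of `I` -/
private theorem h1_Icd (h : P.Star) {c d : ℝ} (_hc : c ≤ 1.565) (hd : 0 ≤ d) (hd1 : d ≤ 0.0245)
    (hc0 : 1.24 ≤ c) : P.J (c - d) ≤ P.J c - d * P.I c + 0.0007 := by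
  rcases hd.eq_or_lt with h1 | h1
  · rw [← h1]; simp; norm_num
  · obtain ⟨ξ, hξ, h2⟩ := exists_hasDerivAt_eq_slope P.J P.I (by linarith only [h1] : c - d < c)
      (fun x _ => (J_deriv h x).continuousAt.continuousWithinAt) (fun x _ => J_deriv h x)
    rw [eq_div_iff (by linarith only [h1])] at h2
    have h3 : P.I c - P.I ξ ≤ 1.11 * d := by
      obtain ⟨η, hη, h4⟩ := exists_hasDerivAt_eq_slope P.I P.D hξ.2
        (fun x _ => (I_deriv h x).continuousAt.continuousWithinAt) (fun x _ => I_deriv h x)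
      rw [eq_div_iff (by linarith only [hξ.2, hξ])] at h4
      have h5 := (io_slope h (y := η + 0.1) (by linarith only [hη.1, hξ.1, hd1, hc0, h1, hη, hξ])).2
      obtain ⟨-, -, hL1, hL2⟩ := Y_pos h
      have hL := cx_L_pos h
      rw [div_le_iff₀ hL] at h5
      have h6 := D_mono h (by linarith only [hd1, h1] : η ≤ η + 0.1)
      have h7 : P.D η ≤ 1.11 := by linarith only [hd1, h1, h5, hL2, h6]
      have h8 := D_nonneg h η
      have h9 : c - ξ ≤ d := by linarith only [hξ.1, hξ]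
      rw [← h4]
      exact mul_le_mul h7 h9 (by linarith only [hξ.2, hξ]) (by norm_num)
    have h4 : c - (c - d) = d := by ring
    rw [h4] at h2
    nlinarith only [hd1, h1, h2, hd, h3]

private theorem g1_22 (h : P.Star) {e c : ℝ} (c0 : 1.24 ≤ c) (c1 : c ≤ 1.565) (s1 : c + e ≤ 2.2245) :
    f1 P e c 2.2 ≤ -(P.q e) ^ 2 * (2.2 * (c + e) - (c + e) ^ 2 / 2) +
      (P.J c + (2.2 - (c + e)) * P.I c + 0.0007) / P.L := by
  have hL := cx_L_pos h
  unfold f1
  have hq0 : 0 ≤ (P.q e) ^ 2 := sq_nonneg _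
  have k1 : 2.2 * (c + e) - (c + e) ^ 2 / 2 ≤ 2.2 ^ 2 / 2 - (max (2.2 - (c + e)) 0) ^ 2 / 2 := by
    rcases le_total (c + e) 2.2 with k | k
    · rw [max_eq_left (by linarith only [k])]; nlinarith only []
    · rw [max_eq_right (by linarith only [k])]; nlinarith only [sq_nonneg (c + e - 2.2)]
  have k2 : g2 P c (2.2 - e) ≤ P.J c + (2.2 - (c + e)) * P.I c + 0.0007 := by
    unfold g2
    rcases le_total (c + e) 2.2 with k | k
    · rw [min_eq_right (by linarith only [k]), max_eq_left (by linarith only [k])]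
      have : P.I c * (2.2 - e - c) = (2.2 - (c + e)) * P.I c := by ring
      rw [this]; linarith only []
    · rw [min_eq_left (by linarith only [k]), max_eq_right (by linarith only [k])]
      have := h1_Icd h (d := c + e - 2.2) c1 (by linarith only [k]) (by linarith only [s1]) c0
      have e1 : c - (c + e - 2.2) = 2.2 - e := by ring
      rw [e1] at this
      linarith only [this]
  have k3 := mul_le_mul_of_nonneg_left k1 hq0
  have k4 := div_le_div_of_nonneg_right k2 hL.le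
  linarith only [k3, k4]

private theorem end_alg {F A B G u s S J0 ν q2 L Jc Ic : ℝ} (hF : F ≤ A + B)
    (hA : A = -q2 * (2.2 * s - s ^ 2 / 2) + (Jc + (2.2 - s) * Ic + 0.0007) / L)
    (hB : B = -(0.6563 * ν) + 0.000004) (hq : q2 * u ^ 2 = 1) (hI : Ic * u = L) (hL : 0 < L)
    (hG : G = -(2.2 * s - s ^ 2 / 2) + (2.2 - s) * u) (hJ : (Jc + 0.0007) / L ≤ (J0 + 0.0008) / 2.66578)
    (hS : |s - S| ≤ 0.000042) (hs0 : 1.5 ≤ s) (hs1 : s ≤ 2.23) (u0 : 2.5 ≤ u) (u1 : u ≤ 3.466)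
    (W : 0 ≤ 0.1197 * u ^ 2 + 2.2 * S - S ^ 2 / 2 - (2.2 - S) * u - u ^ 2 * (J0 + 0.0008) / 2.66578
      + 0.6563 * ν * u ^ 2 - 0.0004) : F ≤ 0.1197 := by
  have u3 : 0 < u ^ 2 := by positivity
  have u2 : u ^ 2 ≤ 12.02 := by nlinarith only [u1, u0]
  have hS' := abs_le.1 hS
  have hI' : Ic / L * u = 1 := by rw [div_mul_eq_mul_div, hI, div_self hL.ne']
  have e1 : (A + B) * u ^ 2 = G + u ^ 2 * ((Jc + 0.0007) / L) + B * u ^ 2 := by
    have e2 : (A + B) * u ^ 2 = -(2.2 * s - s ^ 2 / 2) * (q2 * u ^ 2) + (2.2 - s) * u * (Ic / L * u) +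
        u ^ 2 * ((Jc + 0.0007) / L) + B * u ^ 2 := by rw [hA]; ring
    rw [e2, hq, hI', hG, mul_one, mul_one]
  have G3 := mul_le_mul_of_nonneg_left hJ u3.le
  have G4 : G ≤ -(2.2 * S - S ^ 2 / 2) + (2.2 - S) * u + 0.000042 * 4.2 := by
    have e1 : G - (-(2.2 * S - S ^ 2 / 2) + (2.2 - S) * u) =
        (s - S) * (-(2.2 - (s + S) / 2 + u)) := by rw [hG]; ring
    have k1 : (s - S) * (-(2.2 - (s + S) / 2 + u)) ≤ 0.000042 * 4.2 := by
      refine (le_abs_self _).trans ?_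
      rw [abs_mul]
      refine mul_le_mul hS ?_ (abs_nonneg _) (by norm_num)
      rw [abs_le]
      constructor <;> linarith [hS'.1, hS'.2]
    linarith only [hG, k1]
  have G5 : B * u ^ 2 ≤ -(0.6563 * ν * u ^ 2) + 0.00005 := by rw [hB]; nlinarith only [u2]
  have e3 : u ^ 2 * ((J0 + 0.0008) / 2.66578) = u ^ 2 * (J0 + 0.0008) / 2.66578 := by ring
  rw [e3] at G3
  have k7 : F * u ^ 2 ≤ (A + B) * u ^ 2 := mul_le_mul_of_nonneg_right hF u3.le
  have k8 : F * u ^ 2 ≤ 0.1197 * u ^ 2 := by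
    generalize u ^ 2 * ((Jc + 0.0007) / L) = x1 at *
    generalize u ^ 2 * (J0 + 0.0008) / 2.66578 = x2 at *
    generalize B * u ^ 2 = x3 at *
    generalize 0.6563 * ν * u ^ 2 = x4 at *
    generalize (2.2 - S) * u = x5 at *
    linarith only [k7, G3, e1, G5, G4, W]
  exact le_of_mul_le_mul_right k8 u3

private theorem h1_end (h : P.Star) {e c X : ℝ} (H : Fc P e c X) :
    f1 P e c 2.2 - P.io 2.2 * nn P e c ≤ 0.1197 := by
  obtain ⟨he, he1, h0, h1, hu, c0, c1, cc, s0, s1, hI, hn, n1, n2⟩ := H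
  obtain ⟨hY1, hY2, hL1, hL2⟩ := Y_pos h
  have hL := cx_L_pos h
  have hu0 : 0 < P.Y + e := by linarith only [h0, hu, hL1, hL2]
  have hu1 : P.Y + e ≤ 3.46579 := by rw [← hu]; linarith only [h1]
  obtain ⟨i1, i2⟩ := h1_io22 h
  obtain ⟨N1, N2⟩ := fN3 h0 h1
  obtain ⟨b1, b2, b3, b4⟩ := fC3 h0 h1
  obtain ⟨d1, -⟩ := h1_JKc h cc c0 c1 b1 b2
  have hn' := abs_le.1 hn
  have cc' := abs_le.1 cc
  have d1' := abs_le.1 d1
  have g1 := g1_22 h c0 c1 s1
  have g2' : -(P.io 2.2 * nn P e c) ≤ -(0.6563 * (N X - 0.0002)) + 0.000004 := by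
    have k1 : P.io 2.2 * (N X - 0.0002) ≤ P.io 2.2 * nn P e c :=
      mul_le_mul_of_nonneg_left (by linarith only [hn'.1, hn']) (by linarith only [hL1, hL2, i1])
    have k2 : (0.6563 - P.io 2.2) * (N X - 0.0002) ≤ 0.00002 * 0.18 := by
      refine (le_abs_self _).trans ?_
      rw [abs_mul]
      refine mul_le_mul ?_ ?_ (abs_nonneg _) (by norm_num)
      · rw [abs_le]; constructor <;> linarith
      · rw [abs_le]; constructor <;> linarith
    rw [sub_mul] at k2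
    linarith only [hL1, hL2, k1, k2]
  have hS : |(c + e) - S X| ≤ 0.000042 := by
    unfold S
    rw [hu]
    have e1 : c + e - (C X + (P.Y + e) - 2.543963) = (c - C X) - (P.Y - 2.543963) := by ring
    rw [e1, abs_le]
    constructor <;> linarith [cc'.1, cc'.2]
  have G2 : (P.J c + 0.0007) / P.L ≤ (PJ (C X) + 0.0008) / 2.66578 := by
    obtain ⟨-, ⟨v1, v2⟩, -⟩ := h1_vals h (y := c) (by linarith only [c0, hL1, hL2]) (by linarith only [c1, hL1, hL2])
    rw [div_le_div_iff₀ hL (by norm_num)]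
    have k1 : (P.J c + 0.0007) * 2.66578 ≤ (P.J c + 0.0007) * 2.665779 + 0.000001 := by linarith only [hL1, hL2, v2]
    have k2 : (P.J c + 0.000701) * 2.665779 ≤ (PJ (C X) + 0.0008) * 2.665779 :=
      mul_le_mul_of_nonneg_right (by linarith only [d1'.2, hL1, hL2, d1']) (by norm_num)
    have k3 : (PJ (C X) + 0.0008) * 2.665779 ≤ (PJ (C X) + 0.0008) * P.L :=
      mul_le_mul_of_nonneg_left hL1.le (by linarith only [d1'.2, hL1, hL2, d1', v1])
    linarith only [hL1, hL2, d1', v2, k3]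
  have W := fW h0 h1
  rw [hu] at W
  exact end_alg (F := f1 P e c 2.2 - P.io 2.2 * nn P e c) (by linarith only [add_le_add g1 g2', g1, g2']) rfl rfl
    (qu (P := P) hu0) hI hL rfl G2 hS (by linarith only [he, c0, s0]) (by linarith only [s1, hL1, hL2]) (by linarith only [h0, hu, hL1, hL2]) (by linarith only [he1, hY2, hL1, hL2]) W

/-! ### the range `1.4 ≤ r ≤ 2.2` -/

private theorem h1_up (h : P.Star) {e c X r : ℝ} (H : Fc P e c X) (h2 : 1.4 ≤ r) (h3 : r ≤ 2.2) :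
    f1 P e c r - P.io r * nn P e c ≤ 0.0285 * (1 + 4 * (r - 1.4)) := by
  have A := (h1_mid h H (by norm_num) (le_refl (1.4:ℝ))).2
  have B := h1_end h H
  obtain ⟨he, he1, h0, h1, hu, c0, c1, cc, s0, s1, hI, hn, n1, n2⟩ := H
  obtain ⟨hY1, hY2, hL1, hL2⟩ := Y_pos h
  have hL := cx_L_pos h
  obtain ⟨l, hl⟩ : ∃ l, l = (2.2 - r) / 0.8 := ⟨_, rfl⟩
  have hl0 : 0 ≤ l := by rw [hl]; exact div_nonneg (by linarith only [h3]) (by norm_num)
  have hl1 : l ≤ 1 := by rw [hl, div_le_iff₀ (by norm_num)]; linarith only [h2]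
  have hr : r = l * 1.4 + (1 - l) * 2.2 := by rw [hl]; ring
  have k1 := f1_chord h he (by linarith only [he1, hL1, hL2]) (by linarith only [s0, hL1, hL2]) hl0 hl1 (c := c) (e := e)
  obtain ⟨k2, k3⟩ := h1_io_chord h (r1 := 1.4) (r2 := 2.2) hl0 hl1
  rw [← hr] at k1 k2 k3
  have ll : 0 ≤ l * (1 - l) := mul_nonneg hl0 (by linarith only [hl1])
  have k4 : l * (1 - l) * (2.2 - 1.4) ^ 2 / (2 * P.L) ≤ l * (1 - l) * 0.13 := by
    rw [mul_div_assoc]
    refine mul_le_mul_of_nonneg_left ?_ ll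
    rw [div_le_iff₀ (by linarith only [hL1, hL2])]
    norm_num
    linarith only [hL1, hL2]
  have k5 : (l * P.io 1.4 + (1 - l) * P.io 2.2 - P.io r) * nn P e c ≤ l * (1 - l) * 0.13 * 0.0135 := by
    have e1 : (l * P.io 1.4 + (1 - l) * P.io 2.2 - P.io r) * nn P e c ≤
        (l * P.io 1.4 + (1 - l) * P.io 2.2 - P.io r) * 0.0135 := mul_le_mul_of_nonneg_left n1 k2
    have e2 : (l * P.io 1.4 + (1 - l) * P.io 2.2 - P.io r) * 0.0135 ≤ l * (1 - l) * 0.13 * 0.0135 :=
      mul_le_mul_of_nonneg_right (k3.trans k4) (by norm_num)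
    linarith only [k3, k4, e1]
  have k6 : f1 P e c r - P.io r * nn P e c ≤ l * (f1 P e c 1.4 - P.io 1.4 * nn P e c) +
      (1 - l) * (f1 P e c 2.2 - P.io 2.2 * nn P e c) + l * (1 - l) * 0.13 * 0.0135 := by
    nlinarith only [k1, k5]
  have k7 := mul_le_mul_of_nonneg_left A hl0
  have k8 := mul_le_mul_of_nonneg_left B (by linarith only [hl1] : 0 ≤ 1 - l)
  have k9 : l * (1 - l) ≤ l := by nlinarith only [hL1, hL2, hl0]
  rw [hr]
  rw [hr] at k6
  nlinarith only [hl0, k6, k7, k8, k9]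

private theorem h1_mm (h : P.Star) {e c : ℝ} (he : 0 ≤ e) (he1 : e ≤ 0.921819) (s0 : 1.54 ≤ c + e) :
    -0.1084 ≤ mm1 P e c 1.4 := by
  obtain ⟨hY1, hY2, hL1, hL2⟩ := Y_pos h
  have hL := cx_L_pos h
  have hρ := h.ρ_lo
  unfold mm1
  rw [min_eq_left (by linarith only [s0, hL1, hL2] : (1.4:ℝ) ≤ c + e), min_eq_left (by linarith only [s0, hL1, hL2] : 1.4 - e ≤ c)]
  have hq := cx_q_pos h he
  rcases le_total e 0.621819 with h1 | h1
  · have q1 : P.q e ≤ 0.3931 := by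
      unfold q
      rw [div_le_iff₀ (by linarith only [he, hY1, hL1, hL2])]
      linarith only [he, hY1, hL1, hL2]
    have i1 := cx_mono h (by linarith only [hq, h1, q1] : (0.778 : ℝ) ≤ 1.4 - e)
    have i2 : (0.11 : ℝ) ≤ P.io 0.778 := by
      unfold io
      rw [le_div_iff₀ hL]
      have h2 := abs_le.1 (I_app h (y := 0.778) (by norm_num) (by linarith only [hρ, hq, q1]))
      have h3 : (0.294 : ℝ) ≤ PI 0.778 := by unfold PI; norm_num
      linarith only [h2.1, hL2, hq, q1, h2, h3]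
    nlinarith only [q1, i1, i2, hL1, hL2, hq]
  · have q1 : P.q e ≤ 0.316 := by
      unfold q
      rw [div_le_iff₀ (by linarith only [hY1, hL1, hL2, h1])]
      linarith only [hY1, hL1, hL2, h1]
    have i1 := cx_mono h (by linarith only [he1, hq, q1] : (0.478 : ℝ) ≤ 1.4 - e)
    have i2 : (0.042 : ℝ) ≤ P.io 0.478 := by
      unfold io
      rw [le_div_iff₀ hL]
      have h2 := abs_le.1 (I_app h (y := 0.478) (by norm_num) (by linarith only [hρ, hq, q1]))
      have h3 : (0.113 : ℝ) ≤ PI 0.478 := by unfold PI; norm_num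
      linarith only [h2.1, hL2, hq, q1, h2, h3]
    nlinarith only [q1, i1, i2, hL1, hL2, hq]

private theorem h1_lo (h : P.Star) {e c X r : ℝ} (H : Fc P e c X) (h2 : 1.4 ≤ r) :
    -(0.0285 * (1 + 4 * (r - 1.4))) ≤ f1 P e c r - P.io r * nn P e c := by
  have A := (h1_mid h H (by norm_num) (le_refl (1.4:ℝ))).1
  obtain ⟨he, he1, h0, h1, hu, c0, c1, cc, s0, s1, hI, hn, n1, n2⟩ := H
  have k1 := f1_tangent h he (by linarith only [he1]) (by linarith only [s0] : 1.4 ≤ c + e) h2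
  have k2 := h1_mm h he he1 s0
  have k3 : -0.1084 * (r - 1.4) ≤ mm1 P e c 1.4 * (r - 1.4) :=
    mul_le_mul_of_nonneg_right k2 (by linarith only [h2])
  have k4 : (P.io r - P.io 1.4) * nn P e c ≤ 0.0056 * (r - 1.4) := by
    rcases h2.eq_or_lt with h3 | h3
    · rw [← h3]; simp
    · obtain ⟨ξ, hξ1, -, hξ⟩ := cx_mvt h h3
      have k5 := (io_slope h (y := ξ) (by linarith only [hξ1]))
      rw [hξ]
      have k6 : P.D ξ / P.L * (r - 1.4) * nn P e c ≤ P.D ξ / P.L * (r - 1.4) * 0.0135 :=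
        mul_le_mul_of_nonneg_left n1 (mul_nonneg (by linarith only [k5.1, k5]) (by linarith only [h3]))
      have k7 : P.D ξ / P.L * (r - 1.4) ≤ 0.4127 * (r - 1.4) :=
        mul_le_mul_of_nonneg_right k5.2 (by linarith only [h3])
      nlinarith only [h3, k6, k7]
  nlinarith only [A, k1, k3, k4]

/-! ### small `r` -/

private theorem h1_small (h : P.Star) {e c X r : ℝ} (H : Fc P e c X) (h2 : 0 < r) (h3 : r ≤ 0.5774) :
    |f1 P e c r - P.io r * nn P e c| ≤ 0.0854 * r ^ 2 := by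
  obtain ⟨he, he1, h0, h1, hu, c0, c1, cc, s0, s1, hI, hn, n1, n2⟩ := H
  obtain ⟨hY1, hY2, hL1, hL2⟩ := Y_pos h
  have hL := cx_L_pos h
  rw [f1_in (by linarith only [h3, s0, hL1, hL2])]
  have r2 : 0 < r ^ 2 := by positivity
  have q1 : P.q e ≤ 0.3931 := by
    unfold q
    rw [div_le_iff₀ (by linarith only [he, hY1, hL1, hL2])]
    linarith only [he, hY1, hL1, hL2]
  have q2 : 0.2885 ≤ P.q e := by
    unfold q
    rw [le_div_iff₀ (by linarith only [he, hY1, hL1, hL2])]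
    linarith only [h1, hu, hL1, hL2]
  have qq1 : (P.q e) ^ 2 ≤ 0.15453 := by nlinarith only [h3, q1, h2, hL1, r2, hL2, q2]
  have qq2 : 0.0832 ≤ (P.q e) ^ 2 := by nlinarith only [h3, q2, h2, hL1, r2, hL2]
  have i1 : P.io r ≤ 0.1876 * r ^ 2 := by
    unfold io
    rw [div_le_iff₀ hL]
    have := h1_I_sq h h2.le
    nlinarith only [r2, this, hL1]
  have i0 : 0 ≤ P.io r := div_nonneg (I_nonneg h r) hL.le
  have j0 := h1_J_nonneg h (r - e)
  have j1 : P.J (r - e) / P.L ≤ 0.0362 * r ^ 2 := by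
    rw [div_le_iff₀ hL]
    have k1 := h1_J_mono h (by linarith only [he] : r - e ≤ r)
    have k2 := h1_J_cu h h2.le
    have k3 : r ^ 3 ≤ 0.5774 * r ^ 2 := by nlinarith only [h3]
    nlinarith only [r2, k1, k2, k3, hL1]
  have j2 : 0 ≤ P.J (r - e) / P.L := div_nonneg j0 hL.le
  have m1 : P.io r * nn P e c ≤ 0.1876 * r ^ 2 * 0.0135 := by
    have k1 := mul_le_mul_of_nonneg_left n1 i0
    have k2 := mul_le_mul_of_nonneg_right i1 (by norm_num : (0:ℝ) ≤ 0.0135)
    linarith only [i1, k1]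
  have m2 : -(P.io r * nn P e c) ≤ 0.1876 * r ^ 2 * 0.1727 := by
    have k1 := mul_le_mul_of_nonneg_left (by linarith only [n2] : -nn P e c ≤ 0.1727) i0
    have k2 := mul_le_mul_of_nonneg_right i1 (by norm_num : (0:ℝ) ≤ 0.1727)
    linarith only [i1, k1]
  have m3 : (P.q e) ^ 2 * (r ^ 2 / 2) ≤ 0.15453 * (r ^ 2 / 2) :=
    mul_le_mul_of_nonneg_right qq1 (by positivity)
  have m4 : 0.0832 * (r ^ 2 / 2) ≤ (P.q e) ^ 2 * (r ^ 2 / 2) :=
    mul_le_mul_of_nonneg_right qq2 (by positivity)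
  rw [abs_le]
  constructor
  · linarith only [r2, j2, m1, m3]
  · linarith only [r2, j1, m2, m4]

private theorem h1_w_one {r : ℝ} (hr : 0.5774 ≤ r) : 1 ≤ w r ∧ 1 + 4 * (r - 1.4) ≤ w r := by
  unfold w
  rw [min_eq_right (by nlinarith only [hr])]
  have h1 : 0 ≤ max (r - 1.4) 0 := le_max_right _ _
  have h2 : r - 1.4 ≤ max (r - 1.4) 0 := le_max_left _ _
  constructor <;> linarith

private theorem h1_w_small {r : ℝ} (h0 : 0 < r) (hr : r ≤ 0.5774) : 2.999 * r ^ 2 ≤ w r := by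
  unfold w
  have h1 : 0 ≤ max (r - 1.4) 0 := le_max_right _ _
  have h2 : 2.999 * r ^ 2 ≤ min (3 * r ^ 2) 1 := le_min (by nlinarith only []) (by nlinarith only [hr, h0])
  linarith only [h1, h2]

theorem dH_bd (h : P.Star) {x c r : ℝ} (hx : -P.e0 ≤ x) (hx1 : x ≤ 0.8) (hc : P.io c = P.q (P.e0 + x))
    (hr : 0 < r) (hr1 : r ≤ 2.2) : |P.dH (P.e0 + x) c r| ≤ 0.0285 * w r := by
  have H := facts h hx hx1 hc
  rw [h1_eq h (by linarith only [H.c0, H]) hr.le]
  rcases le_total r 0.5774 with h1 | h1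
  · have a1 := h1_small h H hr h1
    have a2 := h1_w_small hr h1
    have a3 : 0 < r ^ 2 := by positivity
    linarith only [a1, a2, a3]
  · obtain ⟨w1, w2⟩ := h1_w_one h1
    rcases le_total r 1.4 with h2 | h2
    · obtain ⟨a1, a2⟩ := h1_mid h H (by linarith only [hr, h1]) h2
      rw [abs_le]
      constructor <;> linarith
    · have a1 := h1_up h H h2 hr1
      have a2 := h1_lo h H h2
      rw [abs_le]
      constructor <;> linarith

end Pool.Agent.CDk.Par
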