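import Pool.Agent.OptRes.Ivl

open MeasureTheory Set Filter Topology

namespace Pool.Agent.CDk.U1n

section
open Pool.Agent.OptRes Pool.Agent.OptRes.Ex

def qd (n : Int) (d : Nat) : Ex := Ex.q n d
def xPD (x : Ex) : Ex := (x * ((Ex.q (49791) 50000 + x * ((Ex.q (503) 10000 + x * ((Ex.q (-15027) 100000 + x * ((Ex.q (-793) 50000 + x * (Ex.q (23) 2500))))))))))
def xPI (x : Ex) : Ex := (x * ((x * ((Ex.q (49791) 100000 + x * ((Ex.q (503) 30000 + x * ((Ex.q (-15027) 400000 + x * ((Ex.q (-793) 250000 + x * (Ex.q (23) 15000))))))))))))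
def xPJ (x : Ex) : Ex := (x * ((x * ((x * ((Ex.q (16597) 100000 + x * ((Ex.q (503) 120000 + x * ((Ex.q (-15027) 2000000 + x * ((Ex.q (-793) 1500000 + x * (Ex.q (23) 105000))))))))))))))
def xPK (x : Ex) : Ex := (x * ((x * ((x * ((x * ((Ex.q (16597) 400000 + x * ((Ex.q (503) 600000 + x * ((Ex.q (-5009) 4000000 + x * ((Ex.q (-793) 10500000 + x * (Ex.q (23) 840000))))))))))))))))
def xR1 (x : Ex) : Ex := (x * ((x * ((Ex.q (3273907623) 12500000000 + x * ((Ex.q (537143236787) 3000000000000 + x * ((Ex.q (27445711067) 3000000000000 + x * ((Ex.q (-332856300977) 20000000000000 + x * ((Ex.q (-100885180069) 60000000000000 + x * ((Ex.q (33746709959) 60000000000000 + x * ((Ex.q (3807161597) 84000000000000 + x * ((Ex.q (-1554232571) 315000000000000 + x * ((Ex.q (-2821699) 7875000000000 + x * (Ex.q (437) 13535156250))))))))))))))))))))))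
def xR2 (x : Ex) : Ex := (x * ((x * ((x * ((Ex.q (1683583083) 25000000000 + x * ((Ex.q (8196365327) 200000000000 + x * ((Ex.q (2671838851) 750000000000 + x * ((Ex.q (-1380192953) 562500000000 + x * ((Ex.q (-256975939) 840000000000 + x * ((Ex.q (4332045097) 67200000000000 + x * ((Ex.q (706775467) 126000000000000 + x * ((Ex.q (-140843831) 315000000000000 + x * ((Ex.q (-1581199) 43312500000000 + x * (Ex.q (437) 162421875000))))))))))))))))))))))))

def vc : Ex := v 0
def vr : Ex := v 1
def vu : Ex := v 2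
def ve0 : Ex := v 3

/-- direct evaluation -/
def PDir (tgt : List Ex) (con : List Ex) : Prob where
  der := [ .eq (vr + vu),               -- 4 Y
           .eq (v 4 + ve0),             -- 5 L
           .bd [xPI vc - qd 15 1000000] [xPI vc + qd 15 1000000], -- 6 I c
           .eq (v 5 / v 6 - v 4),       -- 7 e
           .eq (v 6 / v 5),             -- 8 q
           .eq (vr - ve0 - v 7),        -- 9 a
           .bd [xPJ vc - qd 1 100000] [xPJ vc + qd 1 100000], -- 10 J c
           .bd [xPK vc - qd 1 100000] [xPK vc + qd 1 100000], -- 11 K c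
           .bd [xPI (v 9) - qd 15 1000000] [xPI (v 9) + qd 15 1000000], -- 12 I a
           .bd [xPJ (v 9) - qd 1 100000] [xPJ (v 9) + qd 1 100000], -- 13 J a
           .bd [xPK (v 9) - qd 1 100000] [xPK (v 9) + qd 1 100000], -- 14 K a
           .eq (v 4 - v 7 - vc),        -- 15 z = Y - e - c
           .eq (Ex.sq (v 15) / 2 * v 6 + v 15 * v 10 + v 11), -- 16 G c
           .eq (Ex.sq (vu + ve0) / 2 * v 12 + (vu + ve0) * v 13 + v 14), -- 17 G a
           .eq (xR1 (v 9) + v 16 - v 17 + qd 7 10000), -- 18 Phi upper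
           .eq ((v 18) / v 5 - Ex.sq (v 8) * (v 5 + (vu * Ex.sq vu - v 15 * Ex.sq (v 15)) / 6)) -- 19 dU upper
         ]
  con := con
  tgt := tgt
  wts := [1000, 1, 1, 1]

/-- near zero, `x ≥ 0` -/
def PPos : Prob where
  der := [ .eq (vr + vu),               -- 4 Y
           .eq (v 4 + ve0),             -- 5 L
           .bd [xPI vc - qd 15 1000000] [xPI vc + qd 15 1000000], -- 6 I c
           .eq (v 5 / v 6 - v 4),       -- 7 e
           .eq (v 6 / v 5),             -- 8 q
           .eq (vr - ve0 - v 7),        -- 9 a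
           .bd [xPJ vc - qd 1 100000] [xPJ vc + qd 1 100000], -- 10 J c
           .bd [xPD vc - qd 15 100000] [xPD vc + qd 15 100000], -- 11 D c
           .eq (v 4 - v 7 - vc),        -- 12 z = Y - e - c
           .eq (v 12 * v 6 + v 10 - xR2 (v 9) - qd 95 100000), -- 13 mu(e) L
           .eq ((v 4 - ve0 - vc) * v 6 + v 10 - xR2 (vr - ve0 - ve0) - qd 95 100000), -- 14 mu(e0) L
           .eq (v 7 - ve0), -- 15 x
           .eq ((2 * v 5 + v 15) * Ex.sq (v 8) / v 5 - Ex.sq (v 8) * (Ex.sq (v 12) / 2) * (1 - v 8 / v 11)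
               - (v 13 + v 14) / (2 * v 5) - Ex.sq vu / 2 * v 8 / v 5) -- 16 dU/x upper
         ]
  con := [qd 2001 10000 - v 15, v 15]
  tgt := [qd (-18) 100 - v 16]
  wts := [1000, 1, 1, 1]

/-- near zero, `x ≤ 0` -/
def PNeg : Prob where
  der := [ .eq (vr + vu),               -- 4 Y
           .eq (v 4 + ve0),             -- 5 L
           .bd [xPI vc - qd 15 1000000] [xPI vc + qd 15 1000000], -- 6 I c
           .eq (v 5 / v 6 - v 4),       -- 7 e
           .eq (v 6 / v 5),             -- 8 q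
           .eq (vr - ve0),              -- 9 c0
           .bd [xPJ (v 9) - qd 1 100000] [xPJ (v 9) + qd 1 100000], -- 10 J c0
           .bd [xPD (v 9) - qd 15 100000] [xPD (v 9) + qd 15 100000], -- 11 D c0
           .eq (v 4 - v 7 - vc),        -- 12 z = Y - e - c
           .eq ((v 4 - v 7 - v 9) + v 10 - xR2 (v 9 - v 7) - qd 95 100000), -- 13 mu(e) L
           .eq ((v 4 - ve0 - v 9) + v 10 - xR2 (v 9 - ve0) - qd 95 100000), -- 14 mu(e0) L
           .eq (v 7 - ve0), -- 15 x
           .eq (Ex.sq (v 8) * (Ex.sq vu / 2) * (1 - v 8 / v 11) - (2 * v 5 + v 15) * Ex.sq (v 8) / v 5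
               + (v 13 + v 14) / (2 * v 5) + Ex.sq (v 12) / 2 * v 8 / v 5) -- 16 dU/|x| lower
         ]
  con := [v 7, 0 - v 15]
  tgt := [v 16 - qd 22 100]
  wts := [1000, 1, 1, 1]

def boxP (a b d : Int) : List Iv :=
  [bx a b d, bx 1640087 1640088 1000000, bx 903874 903877 1000000, bx 121818 121819 1000000]

end

end Pool.Agent.CDk.U1n
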