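import Pool.Agent.CDk.U1a
import Pool.Agent.CDk.U1q

open MeasureTheory Set Filter Topology

namespace Pool.Agent.CDk.U1n

section
open Pool.Agent.OptRes Pool.Agent.OptRes.Ex

theorem ev_xPD (t : Ex) (x : ℕ → ℝ) : (xPD t).ev x = Par.PD (t.ev x) := by
  simp only [xPD, ev_add, ev_mul, ev_q]; unfold Par.PD; push_cast; ring
theorem ev_xPI (t : Ex) (x : ℕ → ℝ) : (xPI t).ev x = Par.PI (t.ev x) := by
  simp only [xPI, ev_add, ev_mul, ev_q]; unfold Par.PI; push_cast; ring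
theorem ev_xPJ (t : Ex) (x : ℕ → ℝ) : (xPJ t).ev x = Par.PJ (t.ev x) := by
  simp only [xPJ, ev_add, ev_mul, ev_q]; unfold Par.PJ; push_cast; ring
theorem ev_xPK (t : Ex) (x : ℕ → ℝ) : (xPK t).ev x = Par.PK (t.ev x) := by
  simp only [xPK, ev_add, ev_mul, ev_q]; unfold Par.PK; push_cast; ring
theorem ev_xR1 (t : Ex) (x : ℕ → ℝ) : (xR1 t).ev x = R1 (t.ev x) := by
  simp only [xR1, ev_add, ev_mul, ev_q]; unfold R1; push_cast; ring
theorem ev_xR2 (t : Ex) (x : ℕ → ℝ) : (xR2 t).ev x = R2 (t.ev x) := by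
  simp only [xR2, ev_add, ev_mul, ev_q]; unfold R2; push_cast; ring
theorem ev_qd (n : Int) (d : Nat) (x : ℕ → ℝ) : (qd n d).ev x = (n : ℝ) / (d : ℝ) := rfl

end

end Pool.Agent.CDk.U1n
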