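import Pool.Agent.CDk.U1q

open MeasureTheory Set Filter Topology

namespace Pool.Agent.CDk.U1n

section
open Pool.Agent.OptRes Pool.Agent.OptRes.Ex

theorem vDir1 : verify (PDir [qd 0 1 - v 19 - qd 18 100 * (v 7 - ve0)]
    [qd 6001 10000 - (v 7 - ve0), (v 7 - ve0) - qd 1999 10000]) 30 (boxP 1240 1565 1000) = true := by
  decide +kernel

end

end Pool.Agent.CDk.U1n
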