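import Pool.Agent.CDk.U1q

open MeasureTheory Set Filter Topology

namespace Pool.Agent.CDk.U1n

section
open Pool.Agent.OptRes Pool.Agent.OptRes.Ex

theorem vDir2 : verify (PDir [qd (-105) 1000 - v 19]
    [qd 10501 10000 - (v 7 - ve0), (v 7 - ve0) - qd 5999 10000]) 30 (boxP 1240 1565 1000) = true := by
  decide +kernel

theorem vPos : verify PPos 30 (boxP 1240 1565 1000) = true := by
  decide +kernel

theorem vNeg : verify PNeg 30 (boxP 1240 1565 1000) = true := by
  decide +kernel

end

end Pool.Agent.CDk.U1n
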