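import Pool.Agent.CDk.CX
import Pool.Agent.CDk.ENC
import Pool.Agent.CDk.FNa
import Pool.Agent.CDk.FNb
import Pool.Agent.CDk.U1a
import Pool.Agent.CDk.U1k
import Pool.Agent.CDk.U1q
import Pool.Agent.CDk.U1r
import Pool.Agent.CDk.U1s

open MeasureTheory Set Filter Topology



namespace Pool.Agent.CDk.U1n

/-! ### Convolutions of polynomials -/

/-- `∫_0^a (a-y)^i y^j dy` -/
theorem conv_pow (a : ℝ) (i j : ℕ) : ∫ y in (0:ℝ)..a, (a - y)^i * y^j =
    (i.factorial * j.factorial : ℝ) / ((i+j+1).factorial : ℝ) * a^(i+j+1) := by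
  induction i generalizing j with
  | zero =>
    simp only [pow_zero, one_mul, integral_pow, zero_add, Nat.factorial_zero, Nat.cast_one]
    rw [Nat.factorial_succ]
    push_cast
    have h1 : (j.factorial : ℝ) ≠ 0 := by positivity
    have h2 : (j : ℝ) + 1 ≠ 0 := by positivity
    rw [zero_pow (by omega), sub_zero]
    field_simp
  | succ i ih =>
    have hd : ∀ y : ℝ, HasDerivAt (fun y => (a - y)^(i+1) * (y^(j+1) / (j+1)))
        ((a - y)^(i+1) * y^j - (i+1)/(j+1) * ((a-y)^i * y^(j+1))) y := by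
      intro y
      have h1 : HasDerivAt (fun y => (a - y)^(i+1)) (((i+1 : ℕ) : ℝ) * (a-y)^i * (-1)) y := by
        have h0 : HasDerivAt (fun y => a - y) (-1) y := (hasDerivAt_id y).const_sub a
        exact (h0.pow (i+1)).congr_deriv (by rw [Nat.add_sub_cancel])
      have h2 : HasDerivAt (fun y : ℝ => y^(j+1) / (j+1)) (y^j) y := by
        have h3 : (j : ℝ) + 1 ≠ 0 := by positivity
        refine ((hasDerivAt_pow (j+1) y).div_const ((j : ℝ)+1)).congr_deriv ?_
        rw [Nat.add_sub_cancel]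
        push_cast
        field_simp
      refine (h1.mul h2).congr_deriv ?_
      push_cast
      have h3 : (j : ℝ) + 1 ≠ 0 := by positivity
      field_simp
      ring
    have h0 := intervalIntegral.integral_eq_sub_of_hasDerivAt (a := 0) (b := a)
      (fun y _ => hd y) (by apply Continuous.intervalIntegrable; fun_prop)
    rw [sub_self, zero_pow (by omega), zero_mul, zero_pow (by omega : j + 1 ≠ 0), zero_div,
      mul_zero, sub_zero, intervalIntegral.integral_sub
        (by apply Continuous.intervalIntegrable; fun_prop)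
        (by apply Continuous.intervalIntegrable; fun_prop),
      intervalIntegral.integral_const_mul, ih] at h0
    have h5 : ∫ y in (0:ℝ)..a, (a - y)^(i+1) * y^j = (i+1)/(j+1) *
        ((i.factorial * (j+1).factorial : ℝ) / ((i+(j+1)+1).factorial : ℝ) * a^(i+(j+1)+1)) := by
      linarith only [h0]
    rw [h5, Nat.factorial_succ j, Nat.factorial_succ i]
    have h6 : i + (j+1) + 1 = i + 1 + j + 1 := by ring
    rw [h6]
    push_cast
    have h3 : (j : ℝ) + 1 ≠ 0 := by positivity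
    field_simp

/-- convolution of two polynomials -/
theorem conv_poly (n m : ℕ) (p q : ℕ → ℝ) (a : ℝ) :
    ∫ y in (0:ℝ)..a, (∑ i ∈ Finset.range n, p i * (a - y)^i) * (∑ j ∈ Finset.range m, q j * y^j) =
    ∑ i ∈ Finset.range n, ∑ j ∈ Finset.range m, p i * q j *
      ((i.factorial * j.factorial : ℝ) / ((i+j+1).factorial : ℝ) * a^(i+j+1)) := by
  have h1 : ∀ y : ℝ, (∑ i ∈ Finset.range n, p i * (a - y)^i) * (∑ j ∈ Finset.range m, q j * y^j) =
      ∑ i ∈ Finset.range n, ∑ j ∈ Finset.range m, p i * q j * ((a - y)^i * y^j) := by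
    intro y
    rw [Finset.sum_mul_sum]
    refine Finset.sum_congr rfl fun i _ => Finset.sum_congr rfl fun j _ => ?_
    ring
  simp only [h1]
  rw [intervalIntegral.integral_finsetSum]
  · refine Finset.sum_congr rfl fun i _ => ?_
    rw [intervalIntegral.integral_finsetSum]
    · refine Finset.sum_congr rfl fun j _ => ?_
      rw [intervalIntegral.integral_const_mul, conv_pow]
    · intro j _
      apply Continuous.intervalIntegrable; fun_prop
  · intro i _
    apply Continuous.intervalIntegrable; fun_prop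

/-- integral of a polynomial -/
theorem int_poly (n : ℕ) (c : ℕ → ℝ) (a b : ℝ) :
    ∫ y in a..b, ∑ k ∈ Finset.range n, c k * y^k =
      ∑ k ∈ Finset.range n, c k * ((b^(k+1) - a^(k+1)) / (k+1)) := by
  rw [intervalIntegral.integral_finsetSum]
  · refine Finset.sum_congr rfl fun k _ => ?_
    rw [intervalIntegral.integral_const_mul, integral_pow]
  · intro k _
    apply Continuous.intervalIntegrable; fun_prop

theorem R1_eq (a : ℝ) : ∫ y in (0:ℝ)..a, PE (a - y) * Par.PD y = R1 a := by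
  have h := conv_poly 6 6 (fun i => ([0.526024, 1.0256557, 0.2965689, -0.1559569, -0.0323028, 0.009728] : List ℝ).getD i 0)
    (fun i => ([0, 0.99582, 0.0503, -0.15027, -0.01586, 0.0092] : List ℝ).getD i 0) a
  have h1 : ∀ y, (∑ i ∈ Finset.range 6, (([0.526024, 1.0256557, 0.2965689, -0.1559569, -0.0323028, 0.009728] : List ℝ).getD i 0) * (a - y)^i) *
      (∑ j ∈ Finset.range 6, (([0, 0.99582, 0.0503, -0.15027, -0.01586, 0.0092] : List ℝ).getD j 0) * y^j) = PE (a - y) * Par.PD y := by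
    intro y
    simp only [Finset.sum_range_succ, Finset.sum_range_zero, List.getD_cons_zero, List.getD_cons_succ]
    unfold PE Par.PD
    ring
  simp only [h1] at h
  rw [h]
  simp only [Finset.sum_range_succ, Finset.sum_range_zero, List.getD_cons_zero, List.getD_cons_succ,
    Nat.factorial]
  unfold R1
  push_cast
  ring

theorem R2_eq (a : ℝ) : ∫ y in (0:ℝ)..a, QM (a - y) * Par.PD y = R2 a := by
  have h := conv_poly 7 6 (fun i => ([0, 0.405756, 0.946702/2, 0.350512/3, -0.138773/4, -0.038228/5, 0.009728/6] : List ℝ).getD i 0)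
    (fun i => ([0, 0.99582, 0.0503, -0.15027, -0.01586, 0.0092] : List ℝ).getD i 0) a
  have h1 : ∀ y, (∑ i ∈ Finset.range 7, (([0, 0.405756, 0.946702/2, 0.350512/3, -0.138773/4, -0.038228/5, 0.009728/6] : List ℝ).getD i 0) * (a - y)^i) *
      (∑ j ∈ Finset.range 6, (([0, 0.99582, 0.0503, -0.15027, -0.01586, 0.0092] : List ℝ).getD j 0) * y^j) = QM (a - y) * Par.PD y := by
    intro y
    simp only [Finset.sum_range_succ, Finset.sum_range_zero, List.getD_cons_zero, List.getD_cons_succ]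
    unfold QM Par.PD
    ring
  simp only [h1] at h
  rw [h]
  simp only [Finset.sum_range_succ, Finset.sum_range_zero, List.getD_cons_zero, List.getD_cons_succ,
    Nat.factorial]
  unfold R2
  push_cast
  ring

/-! ### Bounds for the profiles -/

section
variable {P : Par}
open Par

theorem c0_bd (h : P.Star) : 1.518268 ≤ P.ρ - P.e0 ∧ P.ρ - P.e0 ≤ 1.51827 := by
  have h1 := h.ρ_lo; have h2 := h.ρ_hi; have h3 := h.e_lo; have h4 := h.e_hi
  constructor <;> linarith

theorem ii {f : ℝ → ℝ} (hf : Continuous f) (a b : ℝ) : IntervalIntegrable f volume a b :=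
  hf.intervalIntegrable a b

theorem PE_bd {t : ℝ} (h0 : 0 ≤ t) (h1 : t ≤ 1.52) : 0 ≤ PE t ∧ PE t ≤ 2.8 := by
  have t2 : t^2 ≤ 1.52^2 := by gcongr
  have t3 : t^3 ≤ 1.52^3 := by gcongr
  have t4 : t^4 ≤ 1.52^4 := by gcongr
  have p2 : 0 ≤ t^2 := by positivity
  have p3 : 0 ≤ t^3 := by positivity
  have p4 : 0 ≤ t^4 := by positivity
  have p5 : 0 ≤ t^5 := by positivity
  have q3 : t^3 ≤ 1.52 * t^2 := by nlinarith only [h1]
  have q5 : t^5 ≤ 1.52 * t^4 := by nlinarith only [q3]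
  norm_num at t2 t3 t4
  unfold PE
  constructor <;> linarith

theorem mb_pe (h : P.Star) {t : ℝ} (h0 : 0 ≤ t) (h1 : t ≤ P.ρ - P.e0) :
    |P.mb (P.ρ - P.e0 - t) - PE t| ≤ 0.00002 := by
  have hc := c0_bd h
  have h3 := h.e_lo; have h4 := h.e_hi
  have e1 : P.ρ - P.e0 - t = P.ρ - (P.e0 + t) := by ring
  rw [e1]
  have k1 := mb_app h (t := P.e0 + t) (by linarith only [h0]) (by linarith only [h1])
  have k2 := PM_lip (x := P.e0 + t) (y := 0.1218182 + t) (by linarith only [h0, h3, h4]) (by linarith only [h1, hc, h3, h4]) (by linarith only [h0, h3, h4])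
    (by linarith only [h1, hc, h3, h4])
  have k3 : |P.e0 + t - (0.1218182 + t)| ≤ 0.0000008 := by
    rw [abs_le]; constructor <;> linarith
  have k4 : |Par.PM (0.1218182 + t) - PE t| ≤ 0.000001 := by
    have e2 : Par.PM (0.1218182 + t) - PE t = ((-72517798854663024621022115487:ℝ)/12207031250000000000000000000000000000)*t^0 + ((7192812300479269994509:ℝ)/244140625000000000000000000000)*t^1 + ((-993223053642677:ℝ)/48828125000000000000000)*t^2 + ((94906857:ℝ)/2441406250000000)*t^3 + ((291:ℝ)/7812500000)*t^4 := by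
      unfold Par.PM PE; ring
    rw [e2]
    have h5 : t ≤ 1.52 := by linarith only [h1, hc, h3, h4]
    have t2 : t^2 ≤ 1.52^2 := by gcongr
    have t3 : t^3 ≤ 1.52^3 := by gcongr
    have t4 : t^4 ≤ 1.52^4 := by gcongr
    have p2 : 0 ≤ t^2 := by positivity
    have p3 : 0 ≤ t^3 := by positivity
    have p4 : 0 ≤ t^4 := by positivity
    norm_num at t2 t3 t4
    simp only [pow_zero, pow_one, mul_one]
    rw [abs_le]
    constructor <;> linarith
  calc |P.mb (P.ρ - (P.e0 + t)) - PE t| = |(P.mb (P.ρ - (P.e0 + t)) - Par.PM (P.e0 + t)) +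
        (Par.PM (P.e0 + t) - Par.PM (0.1218182 + t)) + (Par.PM (0.1218182 + t) - PE t)| := by
          congr 1; ring
    _ ≤ |P.mb (P.ρ - (P.e0 + t)) - Par.PM (P.e0 + t)| + |Par.PM (P.e0 + t) - Par.PM (0.1218182 + t)|
        + |Par.PM (0.1218182 + t) - PE t| := abs_add_three _ _ _
    _ ≤ 0.00001 + 10 * 0.0000008 + 0.000001 := by
        refine add_le_add (add_le_add k1 (k2.trans ?_)) k4
        exact mul_le_mul_of_nonneg_left k3 (by norm_num)
    _ ≤ 0.00002 := by norm_num


theorem QM_deriv (t : ℝ) : HasDerivAt QM (Par.PM t) t := by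
  unfold QM Par.PM
  have h1 := ((((((hasDerivAt_id t).const_mul 0.405756).add ((hasDerivAt_pow 2 t).const_mul (0.946702/2 : ℝ))).add
    ((hasDerivAt_pow 3 t).const_mul (0.350512/3 : ℝ))).sub ((hasDerivAt_pow 4 t).const_mul (0.138773/4 : ℝ))).sub
    ((hasDerivAt_pow 5 t).const_mul (0.038228/5 : ℝ))).add ((hasDerivAt_pow 6 t).const_mul (0.009728/6 : ℝ))
  refine h1.congr_deriv ?_
  norm_num
  ring

theorem PM_cont : Continuous Par.PM := by unfold Par.PM; fun_prop
theorem PD_cont : Continuous Par.PD := by unfold Par.PD; fun_prop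
theorem PE_cont : Continuous PE := by unfold PE; fun_prop
theorem QM_cont : Continuous QM := by unfold QM; fun_prop

theorem QM_bd {t : ℝ} (h0 : 0 ≤ t) (h1 : t ≤ 1.52) : 0 ≤ QM t ∧ QM t ≤ 2.2 := by
  have t2 : t^2 ≤ 1.52^2 := by gcongr
  have t3 : t^3 ≤ 1.52^3 := by gcongr
  have t4 : t^4 ≤ 1.52^4 := by gcongr
  have t5 : t^5 ≤ 1.52^5 := by gcongr
  have p2 : 0 ≤ t^2 := by positivity
  have p3 : 0 ≤ t^3 := by positivity
  have p4 : 0 ≤ t^4 := by positivity
  have p5 : 0 ≤ t^5 := by positivity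
  have p6 : 0 ≤ t^6 := by positivity
  have q4 : t^4 ≤ 1.52 * t^3 := by nlinarith only [h1, p3]
  have q5 : t^5 ≤ 1.52^2 * t^3 := by nlinarith only [q4, h0]
  have q6 : t^6 ≤ 1.52 * t^5 := by nlinarith
  norm_num at t2 t3 t4 t5 q5
  unfold QM
  constructor <;> linarith

/-- `∫_v^c0 mb (y + e0) dy ≤ QM (c0 - v) + 4e-4` -/
theorem mbq (h : P.Star) {v : ℝ} (h0 : 0 ≤ v) (h1 : v ≤ P.ρ - P.e0) :
    ∫ y in v..(P.ρ - P.e0), P.mb (y + P.e0) ≤ QM (P.ρ - P.e0 - v) + 0.0004 := by
  have hc := c0_bd h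
  have h3 := h.e_lo; have h4 := h.e_hi; have h5 := h.ρ_lo; have h6 := h.ρ_hi
  have h7 := h.u_lo; have h8 := h.u_hi
  have hcont : Continuous fun y => P.mb (y + P.e0) := (mb_cont h).comp (continuous_id.add continuous_const)
  have hcont2 : Continuous fun y => Par.PM (P.ρ - P.e0 - y) := PM_cont.comp (continuous_const.sub continuous_id)
  have hQ : ∀ a b : ℝ, ∫ y in a..b, Par.PM (P.ρ - P.e0 - y) = QM (P.ρ - P.e0 - a) - QM (P.ρ - P.e0 - b) := by
    intro a b
    have hd : ∀ y ∈ uIcc a b, HasDerivAt (fun y => -QM (P.ρ - P.e0 - y)) (Par.PM (P.ρ - P.e0 - y)) y := by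
      intro y _
      have e1 : HasDerivAt (fun y => P.ρ - P.e0 - y) (-1) y := (hasDerivAt_id y).const_sub _
      exact (((QM_deriv (P.ρ - P.e0 - y)).comp y e1).neg).congr_deriv (by ring)
    rw [intervalIntegral.integral_eq_sub_of_hasDerivAt hd (ii hcont2 _ _)]
    ring
  have key1 : ∀ y, P.ρ - P.e0 - P.e0 ≤ y → y ≤ P.ρ - P.e0 →
      P.mb (y + P.e0) ≤ Par.PM (P.ρ - P.e0 - y) + 0.0028 := by
    intro y hy1 hy2
    rw [mb_out h (by linarith only [hy1]), max_eq_left (by unfold Par.Y; linarith only [h5, h6, h7, hy2])]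
    obtain ⟨t, ht⟩ : ∃ t, t = P.ρ - P.e0 - y := ⟨_, rfl⟩
    have e1 : P.Y - (y + P.e0) = P.u + t := by rw [ht]; unfold Par.Y; ring
    rw [e1, ← ht]
    have t0 : 0 ≤ t := by linarith only [hy2, ht]
    have t1 : t ≤ 0.12182 := by linarith only [h4, h5, h6, hy1, ht]
    have e2 : (P.u + t)^2/2 ≤ (0.903877 + t)^2/2 := by
      have : P.u + t ≤ 0.903877 + t := by linarith only [h8]
      have h9 : 0 ≤ P.u + t := by linarith only [h5, h6, h7, hy2, ht]
      gcongr
    refine e2.trans ?_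
    unfold Par.PM
    have p3 : 0 ≤ t^3 := by positivity
    have p5 : 0 ≤ t^5 := by positivity
    have p2 : 0 ≤ t^2 := by positivity
    have q2 : t^2 ≤ 0.12182 * t := by nlinarith only [hy2, ht, h4, h3, h5, h6, hy1]
    have q3 : t^3 ≤ 0.12182 * 0.12182 * t := by nlinarith only [hy2, ht, q2, h4, hy1]
    have q4 : t^4 ≤ 0.12182 * t^3 := by nlinarith only [q2]
    nlinarith only [h5, h6, p5, q2, q3, q4]
  have key2 : ∀ y, 0 ≤ y → y ≤ P.ρ - P.e0 - P.e0 →
      P.mb (y + P.e0) ≤ Par.PM (P.ρ - P.e0 - y) + 0.00001 := by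
    intro y hy1 hy2
    have k := mb_app h (t := P.ρ - P.e0 - y) (by linarith only [hy2]) (by linarith only [hc, h5, h6, hy1])
    have e1 : P.ρ - (P.ρ - P.e0 - y) = y + P.e0 := by ring
    rw [e1, abs_le] at k
    linarith only [k.2, k]
  have hQ0 : QM 0 = 0 := by unfold QM; norm_num
  have hc3 : Continuous fun y => Par.PM (P.ρ - P.e0 - y) + (0.0028 : ℝ) := hcont2.add continuous_const
  have hc4 : Continuous fun y => Par.PM (P.ρ - P.e0 - y) + (0.00001 : ℝ) := hcont2.add continuous_const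
  have bd1 : ∀ a, P.ρ - P.e0 - P.e0 ≤ a → a ≤ P.ρ - P.e0 →
      ∫ y in a..(P.ρ - P.e0), P.mb (y + P.e0) ≤ QM (P.ρ - P.e0 - a) + 0.0028 * (P.ρ - P.e0 - a) := by
    intro a ha1 ha2
    have k := intervalIntegral.integral_mono_on ha2 (ii hcont _ _)
      (ii hc3 _ _)
      (fun y hy => key1 y (ha1.trans hy.1) hy.2)
    rw [intervalIntegral.integral_add (ii hcont2 _ _)
      (ii continuous_const _ _), hQ, intervalIntegral.integral_const, sub_self, hQ0,
      smul_eq_mul] at k
    linarith only [k]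
  rcases le_or_gt (P.ρ - P.e0 - P.e0) v with hv | hv
  · have k := bd1 v hv h1
    have : 0.0028 * (P.ρ - P.e0 - v) ≤ 0.0004 := by nlinarith only [h4, h5, h6, hv]
    linarith only [h4, h5, h6, hv, k]
  · have k1 := bd1 (P.ρ - P.e0 - P.e0) le_rfl (by linarith only [hc, h5, h6])
    have k2 := intervalIntegral.integral_mono_on hv.le (ii hcont _ _)
      (ii hc4 _ _)
      (fun y hy => key2 y (h0.trans hy.1) hy.2)
    rw [intervalIntegral.integral_add (ii hcont2 _ _)
      (ii continuous_const _ _), hQ, intervalIntegral.integral_const,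
      smul_eq_mul] at k2
    have k3 := intervalIntegral.integral_add_adjacent_intervals
      (ii hcont v (P.ρ - P.e0 - P.e0))
      (ii hcont (P.ρ - P.e0 - P.e0) (P.ρ - P.e0))
    have e1 : P.ρ - P.e0 - (P.ρ - P.e0 - P.e0) = P.e0 := by ring
    rw [e1] at k1 k2
    rw [← k3]
    nlinarith only [h0, h4, h5, h6, k1, k2]

/-- lower bound of `m` -/
theorem m_lo (h : P.Star) {v : ℝ} (h0 : 0 ≤ v) (h1 : v ≤ P.ρ - P.e0) :
    (P.Y - v) - QM (P.ρ - P.e0 - v) - 0.0004 ≤ P.m v := by
  have := mbq h h0 h1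
  unfold Par.m
  rw [min_eq_left h1]
  linarith only [this]

end
/-! ### Integrals -/

section
variable {P : Par}
open Par

/-- antiderivative of `(Y - e - y)^2/2 * D y` -/
noncomputable def Gf (P : Par) (e y : ℝ) : ℝ := (P.Y - e - y)^2/2 * P.I y + (P.Y - e - y) * P.J y + P.K y

theorem Gf_deriv (h : P.Star) (e y : ℝ) : HasDerivAt (Gf P e) ((P.Y - e - y)^2/2 * P.D y) y := by
  have e1 : HasDerivAt (fun y => P.Y - e - y) (-1) y := (hasDerivAt_id y).const_sub _
  have e2 : HasDerivAt (fun y => (P.Y - e - y)^2/2) (-(P.Y - e - y)) y :=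
    ((e1.pow 2).div_const 2).congr_deriv (by norm_num; ring)
  have e3 := ((e2.mul (I_deriv h y)).add (e1.mul (J_deriv h y))).add (K_deriv h y)
  exact e3.congr_deriv (by ring)

theorem G_int (h : P.Star) (e a b : ℝ) :
    ∫ y in a..b, (P.Y - e - y)^2/2 * P.D y = Gf P e b - Gf P e a := by
  refine intervalIntegral.integral_eq_sub_of_hasDerivAt (fun y _ => Gf_deriv h e y) (ii ?_ _ _)
  have := D_cont h
  fun_prop

theorem lin_int (h : P.Star) (s b : ℝ) :
    ∫ y in (0:ℝ)..b, (s - y) * P.D y = (s - b) * P.I b + P.J b := by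
  have hd : ∀ y ∈ uIcc 0 b, HasDerivAt (fun y => (s - y) * P.I y + P.J y) ((s - y) * P.D y) y := by
    intro y _
    have e1 : HasDerivAt (fun y => s - y) (-1) y := (hasDerivAt_id y).const_sub _
    exact ((e1.mul (I_deriv h y)).add (J_deriv h y)).congr_deriv (by ring)
  have hc := D_cont h
  rw [intervalIntegral.integral_eq_sub_of_hasDerivAt hd (ii (by fun_prop) _ _)]
  rw [I_zero h le_rfl, J_zero h le_rfl]
  ring

theorem D_bd (h : P.Star) (y : ℝ) : 0 ≤ P.D y ∧ P.D y ≤ 1.11 := by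
  refine ⟨D_nonneg h y, ?_⟩
  have h1 : P.D y ≤ P.D (max y 1.24) := D_mono h (le_max_left _ _)
  have h2 := (io_slope h (y := max y 1.24) (le_max_right _ _)).2
  have h3 := Y_pos h
  rw [div_le_iff₀ (by linarith only [h3.2.2.1, h3])] at h2
  nlinarith only [h3.2.2.2, h1, h2, h3]

theorem D_int (h : P.Star) (a b : ℝ) : ∫ y in a..b, P.D y = P.I b - P.I a :=
  intervalIntegral.integral_eq_sub_of_hasDerivAt (fun y _ => I_deriv h y) (ii (D_cont h) _ _)

theorem mbs_cont (h : P.Star) (e : ℝ) : Continuous fun y => P.mb (y + e) :=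
  (mb_cont h).comp (continuous_id.add continuous_const)

/-- upper and lower bound of `∫_0^c mb (y + e) D y dy` -/
theorem phi_bd (h : P.Star) {e c : ℝ} (he : 0 ≤ e) (ha : 0 ≤ P.ρ - P.e0 - e)
    (hac : P.ρ - P.e0 - e ≤ c) (hcY : c + e ≤ P.Y) :
    |(∫ y in (0:ℝ)..c, P.mb (y + e) * P.D y) -
      (R1 (P.ρ - P.e0 - e) + Gf P e c - Gf P e (P.ρ - P.e0 - e))| ≤ 0.0007 := by
  have hc0 := c0_bd h
  obtain ⟨a, haa⟩ : ∃ a, a = P.ρ - P.e0 - e := ⟨_, rfl⟩
  rw [← haa] at ha hac ⊢
  have hD := D_cont h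
  have hM := mbs_cont h e
  have hcont : Continuous fun y => P.mb (y + e) * P.D y := hM.mul hD
  have hP : Continuous fun y => PE (a - y) * Par.PD y :=
    (PE_cont.comp (continuous_const.sub continuous_id)).mul PD_cont
  rw [← intervalIntegral.integral_add_adjacent_intervals (ii hcont 0 a) (ii hcont a c)]
  have h2 : ∫ y in a..c, P.mb (y + e) * P.D y = Gf P e c - Gf P e a := by
    rw [← G_int h e a c]
    refine intervalIntegral.integral_congr fun y hy => ?_
    rw [uIcc_of_le hac] at hy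
    show P.mb (y + e) * P.D y = (P.Y - e - y)^2/2 * P.D y
    rw [mb_out h (by linarith only [hy.1, haa, hy]), max_eq_left (by linarith only [hy.2, hcY, hy])]
    ring
  have h3 : |(∫ y in (0:ℝ)..a, P.mb (y + e) * P.D y) - R1 a| ≤ 0.000444 * a := by
    rw [← R1_eq, ← intervalIntegral.integral_sub (ii hcont _ _) (ii hP _ _)]
    have h4 := intervalIntegral.norm_integral_le_of_norm_le_const (a := 0) (b := a)
      (C := 0.000444) (f := fun y => P.mb (y + e) * P.D y - PE (a - y) * Par.PD y) (fun y hy => by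
        rw [uIoc_of_le ha] at hy
        have k1 := mb_pe h (t := a - y) (by linarith only [hy.2, hy]) (by linarith only [hy.1, he, haa, hy])
        have e1 : P.ρ - P.e0 - (a - y) = y + e := by rw [haa]; ring
        rw [e1] at k1
        have k2 := D_app h (y := y) hy.1.le (by linarith only [hy.2, h.e_lo, he, haa, hy, h])
        have k3 := PE_bd (t := a - y) (by linarith only [hy.2, hy]) (by linarith only [hy.1, he, hc0, haa, hy])
        have k4 := D_bd h y
        have e2 : P.mb (y + e) * P.D y - PE (a - y) * Par.PD y =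
          (P.mb (y + e) - PE (a - y)) * P.D y + PE (a - y) * (P.D y - Par.PD y) := by ring
        rw [Real.norm_eq_abs, e2]
        refine (abs_add_le _ _).trans ?_
        rw [abs_mul, abs_mul, abs_of_nonneg k4.1, abs_of_nonneg k3.1]
        have k5 : |P.mb (y + e) - PE (a - y)| * P.D y ≤ 0.00002 * 1.11 := by
          apply mul_le_mul k1 k4.2 k4.1 (by norm_num)
        have k6 : PE (a - y) * |P.D y - Par.PD y| ≤ 2.8 * 0.00015 :=
          mul_le_mul k3.2 k2 (abs_nonneg _) (by norm_num)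
        linarith only [k5, k6])
    rw [Real.norm_eq_abs, sub_zero, abs_of_nonneg ha] at h4
    exact h4
  rw [h2]
  have e3 : (∫ y in (0:ℝ)..a, P.mb (y + e) * P.D y) + (Gf P e c - Gf P e a) - (R1 a + Gf P e c - Gf P e a)
    = (∫ y in (0:ℝ)..a, P.mb (y + e) * P.D y) - R1 a := by ring
  rw [e3]
  refine h3.trans ?_
  have : a ≤ 1.51827 := by linarith only [he, hc0, haa]
  linarith only [he, hc0, haa]

/-! ### Concavity of `m` -/

theorem m_cont (h : P.Star) : Continuous P.m := by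
  have hM := mbs_cont h P.e0
  have h1 : Continuous fun x => ∫ y in (P.ρ - P.e0)..x, P.mb (y + P.e0) :=
    intervalIntegral.continuous_primitive (fun a b => ii hM a b) _
  have h2 : P.m = fun v => (P.Y - v) + ∫ y in (P.ρ - P.e0)..(min v (P.ρ - P.e0)), P.mb (y + P.e0) := by
    funext v
    unfold Par.m
    rw [intervalIntegral.integral_symm]
    ring
  rw [h2]
  have h3 : Continuous fun v => ∫ y in (P.ρ - P.e0)..(min v (P.ρ - P.e0)), P.mb (y + P.e0) :=
    h1.comp (continuous_id.min continuous_const)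
  exact (continuous_const.sub continuous_id).add h3

theorem m_conc (h : P.Star) {v s w : ℝ} (hv : 0 ≤ v) (hvs : v ≤ s) (hsw : s ≤ w) :
    (w - s) * P.m v + (s - v) * P.m w ≤ (w - v) * P.m s := by
  have hM := mbs_cont h P.e0
  have he := e0_pos h
  have hc0 := c0_bd h
  obtain ⟨c0, hc⟩ : ∃ c, c = P.ρ - P.e0 := ⟨_, rfl⟩
  rw [← hc] at hc0
  unfold Par.m
  rw [← hc]
  have hv' : min v c0 ≤ min s c0 := min_le_min_right _ hvs
  have hw' : min s c0 ≤ min w c0 := min_le_min_right _ hsw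
  have hv0 : 0 ≤ min v c0 := le_min hv (by linarith only [hc0])
  have hs0 : 0 ≤ min s c0 := hv0.trans hv'
  have hμ : 0 ≤ P.mb (min s c0 + P.e0) := mb_nonneg h (by linarith only [he, hv', hv0])
  have k1 : (min s c0 - min v c0) * P.mb (min s c0 + P.e0) ≤
      ∫ y in (min v c0)..(min s c0), P.mb (y + P.e0) := by
    have := intervalIntegral.integral_mono_on hv' (ii (continuous_const (y := P.mb (min s c0 + P.e0))) _ _)
      (ii hM _ _) (fun y hy => mb_anti h (by simp only [mem_Ici]; linarith only [hy.1, he, hv0, hy])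
        (by simp only [mem_Ici]; linarith only [he, hv', hv0]) (by linarith [hy.2]))
    rwa [intervalIntegral.integral_const, smul_eq_mul] at this
  have k2 : ∫ y in (min s c0)..(min w c0), P.mb (y + P.e0) ≤
      (min w c0 - min s c0) * P.mb (min s c0 + P.e0) := by
    have := intervalIntegral.integral_mono_on hw' (ii hM _ _)
      (ii (continuous_const (y := P.mb (min s c0 + P.e0))) _ _)
      (fun y hy => mb_anti h (by simp only [mem_Ici]; linarith only [he, hv', hv0])
        (by simp only [mem_Ici]; linarith only [hy.1, he, hv', hv0, hy]) (by linarith only [hy.1, hy]))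
    rwa [intervalIntegral.integral_const, smul_eq_mul] at this
  have k3 := intervalIntegral.integral_add_adjacent_intervals
    (ii hM (min v c0) (min s c0)) (ii hM (min s c0) c0)
  have k4 := intervalIntegral.integral_add_adjacent_intervals
    (ii hM (min s c0) (min w c0)) (ii hM (min w c0) c0)
  have k5 : (s - v) * (min w c0 - min s c0) ≤ (w - s) * (min s c0 - min v c0) := by
    rcases le_or_gt s c0 with h1 | h1
    · rw [min_eq_left h1, min_eq_left (hvs.trans h1)]
      have : min w c0 ≤ w := min_le_left _ _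
      nlinarith only [hvs, this]
    · rw [min_eq_right h1.le, min_eq_right (h1.le.trans hsw), sub_self, mul_zero]
      have : min v c0 ≤ c0 := min_le_right _ _
      exact mul_nonneg (by linarith only [hsw]) (by linarith only [this])
  rw [← k3, ← k4]
  rw [← k4] at k3
  have k6 := mul_le_mul_of_nonneg_left k1 (by linarith only [hsw] : 0 ≤ w - s)
  have k7 := mul_le_mul_of_nonneg_left k2 (by linarith only [hvs] : 0 ≤ s - v)
  have k8 := mul_le_mul_of_nonneg_right k5 hμ
  nlinarith only [k6, k7, k8]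

theorem mb_diff (h : P.Star) {v δ : ℝ} (hv : 0 ≤ v) (hδ : 0 ≤ δ) (hY : v + δ ≤ P.Y) :
    δ * (P.m v + P.m (v + δ)) / 2 ≤ P.mb v - P.mb (v + δ) := by
  rcases hδ.eq_or_lt with h0 | h0
  · rw [← h0]; simp
  have hm := m_cont h
  have e1 : P.mb v - P.mb (v + δ) = ∫ t in v..(v+δ), P.m t := by
    have := intervalIntegral.integral_eq_sub_of_hasDerivAt (a := v) (b := v + δ)
      (f := fun t => -P.mb t) (f' := P.m) (fun t ht => by
        rw [uIcc_of_le (by linarith)] at ht
        exact ((mb_deriv h (v := t) (by linarith [ht.1]) (by linarith [ht.2])).neg).congr_deriv (by ring))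
      (ii hm _ _)
    rw [this]; ring
  have k1 : ∫ t in v..(v+δ), ((v + δ - t) * P.m v + (t - v) * P.m (v+δ)) ≤
      ∫ t in v..(v+δ), δ * P.m t := by
    refine intervalIntegral.integral_mono_on (by linarith) (ii (by fun_prop) _ _)
      (ii (by fun_prop) _ _) fun t ht => ?_
    have := m_conc h hv ht.1 ht.2
    have e2 : v + δ - v = δ := by ring
    rwa [e2] at this
  rw [intervalIntegral.integral_const_mul, ← e1] at k1
  have k2 : ∫ t in v..(v+δ), ((v + δ - t) * P.m v + (t - v) * P.m (v+δ)) =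
      δ^2 * (P.m v + P.m (v+δ)) / 2 := by
    have hd : ∀ t ∈ uIcc v (v+δ), HasDerivAt (fun t => -(v+δ-t)^2/2 * P.m v + (t-v)^2/2 * P.m (v+δ))
        ((v + δ - t) * P.m v + (t - v) * P.m (v+δ)) t := by
      intro t _
      have a1 : HasDerivAt (fun t => v + δ - t) (-1) t := (hasDerivAt_id t).const_sub _
      have a2 : HasDerivAt (fun t => t - v) 1 t := (hasDerivAt_id t).sub_const _
      have a3 : HasDerivAt (fun t => -(v+δ-t)^2/2 * P.m v) ((v + δ - t) * P.m v) t :=
        ((((a1.pow 2).neg).div_const 2).mul_const (P.m v)).congr_deriv (by norm_num)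
      have a4 : HasDerivAt (fun t => (t-v)^2/2 * P.m (v+δ)) ((t - v) * P.m (v+δ)) t :=
        (((a2.pow 2).div_const 2).mul_const (P.m (v+δ))).congr_deriv (by norm_num)
      exact a3.add a4
    rw [intervalIntegral.integral_eq_sub_of_hasDerivAt hd (ii (by fun_prop) _ _)]
    ring
  rw [k2] at k1
  have k3 : δ * (δ * (P.m v + P.m (v + δ)) / 2) ≤ δ * (P.mb v - P.mb (v + δ)) := by
    have : δ * (δ * (P.m v + P.m (v + δ)) / 2) = δ^2 * (P.m v + P.m (v+δ)) / 2 := by ring
    rw [this]; exact k1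
  exact le_of_mul_le_mul_left k3 h0

/-- the integral `∫_0^c m (y + e) D y dy` -/
noncomputable def mu (P : Par) (c e : ℝ) : ℝ := ∫ y in (0:ℝ)..c, P.m (y + e) * P.D y

theorem kdiff (h : P.Star) {c e1 e2 : ℝ} (hc : 0 ≤ c) (h1 : 0 ≤ e1) (h12 : e1 ≤ e2)
    (hY : c + e2 ≤ P.Y) :
    (e2 - e1) * (mu P c e1 + mu P c e2) / 2 ≤
      ∫ y in (0:ℝ)..c, (P.mb (y + e1) - P.mb (y + e2)) * P.D y := by
  have hm := m_cont h
  have hD := D_cont h
  have hb := mb_cont h
  have k1 : ∫ y in (0:ℝ)..c, ((e2 - e1) * (P.m (y + e1) * P.D y + P.m (y + e2) * P.D y) / 2) ≤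
      ∫ y in (0:ℝ)..c, (P.mb (y + e1) - P.mb (y + e2)) * P.D y := by
    refine intervalIntegral.integral_mono_on hc (ii (by fun_prop) _ _) (ii (by fun_prop) _ _)
      fun y hy => ?_
    have k := mb_diff h (v := y + e1) (δ := e2 - e1) (by linarith [hy.1]) (by linarith)
      (by linarith [hy.2])
    have e3 : y + e1 + (e2 - e1) = y + e2 := by ring
    rw [e3] at k
    have := mul_le_mul_of_nonneg_right k (D_nonneg h y)
    refine le_trans (le_of_eq ?_) this
    ring
  refine le_trans (le_of_eq ?_) k1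
  have e4 : ∀ y, (e2 - e1) * (P.m (y + e1) * P.D y + P.m (y + e2) * P.D y) / 2 =
      ((e2 - e1) / 2) * (P.m (y + e1) * P.D y + P.m (y + e2) * P.D y) := fun y => by ring
  simp only [e4]
  rw [intervalIntegral.integral_const_mul, intervalIntegral.integral_add (ii (by fun_prop) _ _)
    (ii (by fun_prop) _ _)]
  unfold mu
  ring

theorem mu_lo (h : P.Star) {e c : ℝ} (he : 0 ≤ e) (ha : 0 ≤ P.ρ - P.e0 - e)
    (hac : P.ρ - P.e0 - e ≤ c) :
    (P.Y - e - c) * P.I c + P.J c - R2 (P.ρ - P.e0 - e) - 0.00095 ≤ mu P c e := by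
  have hc0 := c0_bd h
  obtain ⟨a, haa⟩ : ∃ a, a = P.ρ - P.e0 - e := ⟨_, rfl⟩
  rw [← haa] at ha hac ⊢
  have hD := D_cont h
  have hm := m_cont h
  have hQ := QM_cont
  have hPD := PD_cont
  unfold mu
  rw [← lin_int h (P.Y - e) c,
    ← intervalIntegral.integral_add_adjacent_intervals (ii (f := fun y => P.m (y + e) * P.D y) (by fun_prop) 0 a)
      (ii (by fun_prop) a c),
    ← intervalIntegral.integral_add_adjacent_intervals (ii (f := fun y => (P.Y - e - y) * P.D y) (by fun_prop) 0 a)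
      (ii (by fun_prop) a c)]
  have h1 : ∫ y in a..c, P.m (y + e) * P.D y = ∫ y in a..c, (P.Y - e - y) * P.D y := by
    refine intervalIntegral.integral_congr fun y hy => ?_
    rw [uIcc_of_le hac] at hy
    show P.m (y + e) * P.D y = (P.Y - e - y) * P.D y
    rw [m_out P (by linarith only [hy.1, haa, hy])]
    ring
  have h2 : ∫ y in (0:ℝ)..a, ((P.Y - e - y) * P.D y - QM (a - y) * P.D y - 0.0004 * P.D y) ≤
      ∫ y in (0:ℝ)..a, P.m (y + e) * P.D y := by
    refine intervalIntegral.integral_mono_on ha (ii (by fun_prop) _ _) (ii (by fun_prop) _ _)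
      fun y hy => ?_
    have k := m_lo h (v := y + e) (by linarith only [hy.1, he, hy]) (by linarith only [hy.2, haa, hy])
    have e1 : P.ρ - P.e0 - (y + e) = a - y := by rw [haa]; ring
    rw [e1] at k
    have := mul_le_mul_of_nonneg_right k (D_nonneg h y)
    refine le_trans (le_of_eq ?_) this
    ring
  rw [intervalIntegral.integral_sub (ii (by fun_prop) _ _) (ii (by fun_prop) _ _),
    intervalIntegral.integral_sub (ii (by fun_prop) _ _) (ii (by fun_prop) _ _),
    intervalIntegral.integral_const_mul, D_int h, I_zero h le_rfl] at h2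
  have h3 : P.I a ≤ 1 := by
    rw [← I_rho h]
    exact I_mono h (by linarith only [he, haa])
  have h4 : ∫ y in (0:ℝ)..a, QM (a - y) * P.D y ≤ R2 a + 0.00033 * a := by
    have k1 : ∫ y in (0:ℝ)..a, QM (a - y) * P.D y ≤
        ∫ y in (0:ℝ)..a, (QM (a - y) * Par.PD y + 0.00033) := by
      refine intervalIntegral.integral_mono_on ha (ii (by fun_prop) _ _) (ii (by fun_prop) _ _)
        fun y hy => ?_
      have k2 := D_app h (y := y) hy.1 (by linarith only [hy.2, h.e_lo, he, haa, hy, h])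
      rw [abs_le] at k2
      have k3 := QM_bd (t := a - y) (by linarith only [hy.2, hy]) (by linarith only [hy.1, he, hc0, haa, hy])
      have k4 : QM (a - y) * (P.D y - Par.PD y) ≤ 2.2 * 0.00015 := by
        rcases le_or_gt 0 (P.D y - Par.PD y) with h5 | h5
        · exact mul_le_mul k3.2 k2.2 h5 (by norm_num)
        · nlinarith only [k3.1, k3, h5, k2]
      nlinarith only [k4]
    rw [intervalIntegral.integral_add (ii (by fun_prop) _ _) (ii (by fun_prop) _ _), R2_eq,
      intervalIntegral.integral_const, smul_eq_mul] at k1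
    linarith only [k1]
  rw [h1]
  have : a ≤ 1.51827 := by linarith only [he, hc0, haa]
  nlinarith only [he, hc0, haa, h2, h3, h4]

end
/-! ### The numerical part -/

/-! ### Assembly -/

section
variable {P : Par}
open Par

theorem facts (h : P.Star) {x c : ℝ} (hx : -P.e0 ≤ x) (hx1 : x ≤ 1.05)
    (hc : P.io c = P.q (P.e0 + x)) :
    (1.24 ≤ c ∧ c ≤ 1.565 ∧ c + (P.e0 + x) ≤ 2.44) ∧ (0 ≤ x → c ≤ P.ρ - P.e0) ∧
    (x ≤ 0 → P.ρ - P.e0 ≤ c) ∧ P.I c * (P.L + x) = P.L ∧ 0 < P.L + x ∧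
    P.q (P.e0 + x) = 1 / (P.L + x) ∧ P.q (P.e0 + x) = P.I c / P.L ∧ 0 < P.q (P.e0 + x) ∧
    P.q (P.e0 + x) ≤ 0.4 ∧ P.I c = 1 - x * P.q (P.e0 + x) := by
  have hL := Y_pos h
  have h3 := h.e_lo; have h4 := h.e_hi
  obtain ⟨c', h1, h2, h5, h6, h7, h8⟩ := cross h (e := P.e0 + x) (by linarith only [hx]) (by linarith only [hx1])
  have hcc : c = c' := cross_unique h (by linarith only [hx]) hc h1
  rw [← hcc] at h2 h5 h6 h7 h8
  have hq : P.q (P.e0 + x) = 1 / (P.L + x) := by
    unfold Par.q Par.L Par.Y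
    congr 1; ring
  have hLp : 0 < P.L := by linarith only [hL.2.2.1, hL, h3, h4]
  have hLx : 0 < P.L + x := by linarith only [hL.2.2.1, hx, hL, h3, h4]
  have hqI : P.q (P.e0 + x) = P.I c / P.L := by rw [← hc]; rfl
  have hI : P.I c * (P.L + x) = P.L := by
    have := hqI.symm.trans hq
    field_simp at this
    linarith only [this]
  refine ⟨⟨h2, h5, h6⟩, fun h0 => h7 (by linarith only [h0]), fun h0 => h8 (by linarith only [h0]), hI, hLx, hq, hqI,
    by rw [hq]; positivity, ?_, ?_⟩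
  · rw [hq, div_le_iff₀ hLx]
    linarith only [hL.2.2.1, hx, hL, h3, h4]
  · rw [hq]
    field_simp
    linarith only [hI]

theorem dU_eq (h : P.Star) {x c : ℝ} (h1 : P.ρ - P.e0 ≤ c + (P.e0 + x)) (h2 : c + (P.e0 + x) ≤ P.Y) :
    P.dU (P.e0 + x) c = -(P.q (P.e0 + x))^2 * (P.L + (P.u^3 - (P.Y - (P.e0 + x) - c)^3)/6) +
      (∫ y in (0:ℝ)..c, P.mb (y + (P.e0 + x)) * P.D y) / P.L := by
  have hb := mb_cont h
  have he := e0_pos h
  have hu := h.u_lo
  have k1 := intervalIntegral.integral_add_adjacent_intervals (ii hb 0 P.ρ) (ii hb P.ρ (c + (P.e0 + x)))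
  have k2 : ∫ v in P.ρ..(c + (P.e0 + x)), P.mb v = (P.u^3 - (P.Y - (P.e0 + x) - c)^3)/6 := by
    have e1 : ∫ v in P.ρ..(c + (P.e0 + x)), P.mb v = ∫ v in P.ρ..(c + (P.e0 + x)), (P.Y - v)^2/2 := by
      refine intervalIntegral.integral_congr fun v hv => ?_
      have hv1 : P.ρ - P.e0 ≤ v := le_trans (le_min (by linarith only [he]) h1) hv.1
      have hv2 : v ≤ P.Y := le_trans hv.2 (max_le (by unfold Par.Y; linarith only [hu]) h2)
      show P.mb v = (P.Y - v)^2/2
      rw [mb_out h hv1, max_eq_left (by linarith)]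
    rw [e1]
    have hd : ∀ v ∈ uIcc P.ρ (c + (P.e0 + x)), HasDerivAt (fun v => -(P.Y - v)^3/6) ((P.Y - v)^2/2) v := by
      intro v _
      have a1 : HasDerivAt (fun v => P.Y - v) (-1) v := (hasDerivAt_id v).const_sub _
      exact (((a1.pow 3).neg).div_const 6).congr_deriv (by norm_num; ring)
    rw [intervalIntegral.integral_eq_sub_of_hasDerivAt hd (ii (by fun_prop) _ _)]
    have e2 : P.Y - P.ρ = P.u := by unfold Par.Y; ring
    rw [e2]
    ring
  have k3 := mb_int h
  have k4 : ∫ y in (0:ℝ)..c, P.mb (y + (P.e0 + x)) * (P.D y / P.L) =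
      (∫ y in (0:ℝ)..c, P.mb (y + (P.e0 + x)) * P.D y) / P.L := by
    rw [← intervalIntegral.integral_div]
    refine intervalIntegral.integral_congr fun y _ => ?_
    show P.mb (y + (P.e0 + x)) * (P.D y / P.L) = P.mb (y + (P.e0 + x)) * P.D y / P.L
    ring
  unfold Par.dU
  rw [k4, ← k1, k2, ← add_assoc, k3]

/-- the variables of the direct evaluation -/
theorem dir_up (h : P.Star) {x c : ℝ} (hx : 0.2 ≤ x) (hx1 : x ≤ 1.05)
    (hc : P.io c = P.q (P.e0 + x)) (tgt con : List Pool.Agent.OptRes.Ex)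
    (hv : Pool.Agent.OptRes.verify (PDir tgt con) 30 (boxP 1240 1565 1000) = true) :
    ∃ y : ℕ → ℝ, y 3 = P.e0 ∧ y 7 = P.e0 + x ∧ P.dU (P.e0 + x) c ≤ y 19 ∧
      ((∀ e ∈ con, 0 ≤ e.ev y) → ∀ e ∈ tgt, 0 < e.ev y) := by
  obtain ⟨⟨h1, h2, h3⟩, h4, -, hI, hLx, hq, hqI, hq0, hq1, -⟩ := facts h (by linarith [h.e_lo]) hx1 hc
  have hL := Y_pos h
  have he1 := h.e_lo; have he2 := h.e_hi
  have hr1 := h.ρ_lo; have hr2 := h.ρ_hi
  have hu1 := h.u_lo; have hu2 := h.u_hi
  have hc0 := c0_bd h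
  have hLp : 0 < P.L := by linarith only [hL.2.2.1, hL, hr1, hr2]
  have hIc : 0 < P.I c := by
    rcases lt_or_ge 0 (P.I c) with h5 | h5
    · exact h5
    · nlinarith only [hI, hL, hr1, hr2, hLx, h5]
  have heq : P.e0 + x = P.L / P.I c - P.Y := by
    have : P.L / P.I c = P.L + x := by rw [div_eq_iff hIc.ne']; linarith only [hI]
    rw [this]; unfold Par.L Par.Y; ring
  have hphi := phi_bd h (e := P.e0 + x) (c := c) (by linarith only [hx, he1, hr1, hr2]) (by linarith only [hx1, he2, hr1, hr2]) (by linarith only [hx, h1, he1, hr1, hr2])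
    (by linarith only [hL.1, h3, hL, hr1, hr2])
  rw [abs_le] at hphi
  obtain ⟨a, ha⟩ : ∃ a, a = P.ρ - P.e0 - (P.e0 + x) := ⟨_, rfl⟩
  rw [← ha] at hphi
  have ha0 : 0 ≤ a := by linarith only [hx1, he2, hr1, hr2, ha]
  have hI1 := abs_le.1 (I_app h (y := c) (by linarith only [h1, hr1, hr2]) (by linarith only [h2, hr1, hr2]))
  have hJ1 := abs_le.1 (J_app h (y := c) (by linarith only [h1, hr1, hr2]) (by linarith only [h2, hr1, hr2]))
  have hK1 := abs_le.1 (K_app h (y := c) (by linarith only [h1, hr1, hr2]) (by linarith only [h2, hr1, hr2]))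
  have hI2 := abs_le.1 (I_app h (y := a) (by linarith only [hx1, he2, hr1, hr2, ha]) (by linarith only [hx, he1, hr1, hr2, ha]))
  have hJ2 := abs_le.1 (J_app h (y := a) (by linarith only [hx1, he2, hr1, hr2, ha]) (by linarith only [hx, he1, hr1, hr2, ha]))
  have hK2 := abs_le.1 (K_app h (y := a) (by linarith only [hx1, he2, hr1, hr2, ha]) (by linarith only [hx, he1, hr1, hr2, ha]))
  have hLeq : P.L = P.Y + P.e0 := by unfold Par.L Par.Y; ring
  obtain ⟨z, hz⟩ : ∃ z, z = P.Y - (P.e0 + x) - c := ⟨_, rfl⟩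
  refine ⟨Pool.Agent.OptRes.vec [c, P.ρ, P.u, P.e0, P.Y, P.L, P.I c, P.e0 + x, P.q (P.e0 + x), a,
    P.J c, P.K c, P.I a, P.J a, P.K a, z, z^2/2 * P.I c + z * P.J c + P.K c,
    (P.u + P.e0)^2/2 * P.I a + (P.u + P.e0) * P.J a + P.K a,
    R1 a + (z^2/2 * P.I c + z * P.J c + P.K c) -
      ((P.u + P.e0)^2/2 * P.I a + (P.u + P.e0) * P.J a + P.K a) + 7/10000,
    (R1 a + (z^2/2 * P.I c + z * P.J c + P.K c) -
      ((P.u + P.e0)^2/2 * P.I a + (P.u + P.e0) * P.J a + P.K a) + 7/10000) / P.L -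
      (P.q (P.e0 + x))^2 * (P.L + (P.u * P.u^2 - z * z^2)/6)], rfl, rfl, ?_, ?_⟩
  · show P.dU (P.e0 + x) c ≤ _
    simp only [Pool.Agent.OptRes.vec]
    rw [dU_eq h (by linarith only [hx, h1, he1, hr1, hr2]) (by linarith only [hL.1, h3, hL, hr1, hr2]), ← hz]
    have e1 : Gf P (P.e0 + x) c = z^2/2 * P.I c + z * P.J c + P.K c := by
      unfold Gf; rw [← hz]
    have e2 : Gf P (P.e0 + x) a = (P.u + P.e0)^2/2 * P.I a + (P.u + P.e0) * P.J a + P.K a := by
      have : P.Y - (P.e0 + x) - a = P.u + P.e0 := by rw [ha]; unfold Par.Y; ring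
      unfold Gf; rw [this]
    rw [e1, e2] at hphi
    have e3 : (∫ y in (0:ℝ)..c, P.mb (y + (P.e0 + x)) * P.D y) / P.L ≤
      (R1 a + (z^2/2 * P.I c + z * P.J c + P.K c) -
      ((P.u + P.e0)^2/2 * P.I a + (P.u + P.e0) * P.J a + P.K a) + 7/10000) / P.L := by
      apply div_le_div_of_nonneg_right _ hLp.le
      linarith only [hphi.2, hphi]
    have e4 : P.u^3 = P.u * P.u^2 := by ring
    have e5 : z^3 = z * z^2 := by ring
    rw [e4, e5]
    linarith only [e3]
  · intro hcon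
    refine Pool.Agent.OptRes.verify_sound _ 30 _ hv _ (fun i => ?_) ?_ hcon
    · match i with
      | 0 => exact Pool.Agent.OptRes.mem_bx (by norm_num) (by norm_num; linarith only [h1]) (by norm_num; linarith only [h2])
      | 1 => exact Pool.Agent.OptRes.mem_bx (by norm_num) (by norm_num; linarith only [hr1]) (by norm_num; linarith only [hr2])
      | 2 => exact Pool.Agent.OptRes.mem_bx (by norm_num) (by norm_num; linarith only [hu1]) (by norm_num; linarith only [hu2])
      | 3 => exact Pool.Agent.OptRes.mem_bx (by norm_num) (by norm_num; linarith only [he1]) (by norm_num; linarith only [he2])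
      | (n+4) => trivial
    · simp only [PDir, boxP, Pool.Agent.OptRes.DerOK, List.length, vc, vr, vu, ve0,
        Pool.Agent.OptRes.Ex.ev_add, Pool.Agent.OptRes.Ex.ev_sub, Pool.Agent.OptRes.Ex.ev_mul,
        Pool.Agent.OptRes.Ex.ev_div, Pool.Agent.OptRes.Ex.ev_sq, Pool.Agent.OptRes.Ex.ev_v,
        Pool.Agent.OptRes.Ex.ev_two, Pool.Agent.OptRes.Ex.ev_six, ev_qd, ev_xPI, ev_xPJ, ev_xPK, ev_xR1,
        Pool.Agent.OptRes.vec, List.mem_cons, List.not_mem_nil, or_false, forall_eq, and_true]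
      push_cast
      refine ⟨rfl, hLeq, ⟨by linarith only [hI1], by linarith only [hI1]⟩, ?_, hqI, by rw [ha], ⟨by linarith only [hJ1], by linarith only [hJ1]⟩,
        ⟨by linarith only [hK1], by linarith only [hK1]⟩, ⟨by linarith only [hI2], by linarith only [hI2]⟩, ⟨by linarith only [hJ2], by linarith only [hJ2]⟩,
        ⟨by linarith only [hK2], by linarith only [hK2]⟩, by rw [hz], trivial, trivial, rfl⟩
      exact heq

theorem dU_dir1 (h : P.Star) {x c : ℝ} (hx : 0.2 ≤ x) (hx1 : x ≤ 0.6)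
    (hc : P.io c = P.q (P.e0 + x)) : P.dU (P.e0 + x) c ≤ -(0.18 * x) := by
  obtain ⟨y, h3, h7, h19, hk⟩ := dir_up h hx (by linarith only [hx1]) hc _ _ vDir1
  have key := hk (by
    simp only [List.mem_cons, List.not_mem_nil, or_false, forall_eq_or_imp, forall_eq,
      Pool.Agent.OptRes.Ex.ev_sub, Pool.Agent.OptRes.Ex.ev_v, ev_qd, ve0]
    rw [h3, h7]
    push_cast
    constructor <;> linarith)
  simp only [List.mem_cons, List.not_mem_nil, or_false, forall_eq,
      Pool.Agent.OptRes.Ex.ev_sub, Pool.Agent.OptRes.Ex.ev_mul, Pool.Agent.OptRes.Ex.ev_v, ev_qd, ve0] at key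
  rw [h3, h7] at key
  push_cast at key
  linarith only [h19, key]

theorem dU_dir2 (h : P.Star) {x c : ℝ} (hx : 0.6 ≤ x) (hx1 : x ≤ 1.05)
    (hc : P.io c = P.q (P.e0 + x)) : P.dU (P.e0 + x) c ≤ -0.105 := by
  obtain ⟨y, h3, h7, h19, hk⟩ := dir_up h (by linarith only [hx]) (by linarith only [hx1]) hc _ _ vDir2
  have key := hk (by
    simp only [List.mem_cons, List.not_mem_nil, or_false, forall_eq_or_imp, forall_eq,
      Pool.Agent.OptRes.Ex.ev_sub, Pool.Agent.OptRes.Ex.ev_v, ev_qd, ve0]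
    rw [h3, h7]
    push_cast
    constructor <;> linarith)
  simp only [List.mem_cons, List.not_mem_nil, or_false, forall_eq,
      Pool.Agent.OptRes.Ex.ev_sub, Pool.Agent.OptRes.Ex.ev_v, ev_qd] at key
  push_cast at key
  linarith only [h19, key]

end
/-! ### Near zero -/

section
variable {P : Par}
open Par

/-- `D a (b - a) ≤ I b - I a` -/
theorem I_sub_ge (h : P.Star) {a b : ℝ} (hab : a ≤ b) : P.D a * (b - a) ≤ P.I b - P.I a := by
  have hD := D_cont h
  rw [← D_int h a b]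
  have := intervalIntegral.integral_mono_on hab (ii (continuous_const (y := P.D a)) _ _) (ii hD _ _)
    (fun y hy => D_mono h hy.1)
  rw [intervalIntegral.integral_const, smul_eq_mul] at this
  linarith

theorem D_lo (h : P.Star) {y : ℝ} (hy : 1.24 ≤ y) : 1.01 ≤ P.D y := by
  have h2 := (io_slope h (y := y) hy).1
  have h3 := Y_pos h
  rw [le_div_iff₀ (by linarith only [h3.2.2.1, h3])] at h2
  nlinarith only [h3.2.2.1, h2, h3]

theorem dU_pos_near (h : P.Star) {x c : ℝ} (hx : 0 ≤ x) (hx1 : x ≤ 0.2)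
    (hc : P.io c = P.q (P.e0 + x)) : P.dU (P.e0 + x) c ≤ -(0.18 * x) := by
  obtain ⟨⟨h1, h2, h3⟩, h4, -, hI, hLx, hq, hqI, hq0, hq1, hIx⟩ :=
    facts h (by linarith only [h.e_lo, hx, h]) (by linarith only [hx1]) hc
  have h4 := h4 hx
  have hL := Y_pos h
  have he1 := h.e_lo; have he2 := h.e_hi
  have hr1 := h.ρ_lo; have hr2 := h.ρ_hi
  have hu1 := h.u_lo; have hu2 := h.u_hi
  have hc0 := c0_bd h
  have hLp : 0 < P.L := by linarith only [hL.2.2.1, hL, hr1, hr2]
  have hIc : 0 < P.I c := by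
    rcases lt_or_ge 0 (P.I c) with h5 | h5
    · exact h5
    · nlinarith only [hx1, hIx, hr1, hr2, h5, hx, hq1]
  have heq : P.e0 + x = P.L / P.I c - P.Y := by
    have : P.L / P.I c = P.L + x := by rw [div_eq_iff hIc.ne']; linarith only [hI]
    rw [this]; unfold Par.L Par.Y; ring
  have hLeq : P.L = P.Y + P.e0 := by unfold Par.L Par.Y; ring
  obtain ⟨q, hqd⟩ : ∃ q, q = P.q (P.e0 + x) := ⟨_, rfl⟩
  have hDc := D_lo h h1
  -- `c0 - c ≤ x q / D c`
  have hcc : P.D c * (P.ρ - P.e0 - c) ≤ x * q := by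
    have := I_sub_ge h h4
    rw [I_rho h, hIx, ← hqd] at this
    linarith only [this]
  rw [← hqd] at hq hqI hq0 hq1 hIx
  have hxq : x * q ≤ 0.08 := by nlinarith only [hx1, hx, hq1]
  have hcc2 : P.ρ - P.e0 - c ≤ 0.08 := by nlinarith only [hx1, hcc, hx, hq1, h4, hDc]
  have hcc3 : P.ρ - P.e0 - c ≤ x * (q / P.D c) := by
    rw [← mul_div_assoc, le_div_iff₀ (by linarith only [hr1, hr2, hDc])]
    linarith only [hcc]
  have hqD : q / P.D c ≤ 1 := by
    rw [div_le_one (by linarith only [hr1, hr2, hDc])]; linarith only [hr1, hr2, hq1, hDc]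
  have hI1 := abs_le.1 (I_app h (y := c) (by linarith only [h1, hr1, hr2]) (by linarith only [h2, hr1, hr2]))
  have hJ1 := abs_le.1 (J_app h (y := c) (by linarith only [h1, hr1, hr2]) (by linarith only [h2, hr1, hr2]))
  have hD1 := abs_le.1 (D_app h (y := c) (by linarith only [h1, hr1, hr2]) (by linarith only [h2, hr1, hr2]))
  obtain ⟨z, hz⟩ : ∃ z, z = P.Y - (P.e0 + x) - c := ⟨_, rfl⟩
  have hz0 : 0 ≤ z := by linarith only [hx1, h4, hL, hr1, hr2, hz]
  have hmu1 := mu_lo h (e := P.e0 + x) (c := c) (by linarith only [hx, he1, hr1, hr2]) (by linarith only [hx1, he2, hr1, hr2]) (by linarith only [hx, hL, he1, hcc2])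
  have hmu2 := mu_lo h (e := P.e0) (c := c) (by linarith only [he1, hr1, hr2]) (by linarith only [he2, hr1, hr2]) (by linarith only [hL, he1, hcc2])
  obtain ⟨a, ha⟩ : ∃ a, a = P.ρ - P.e0 - (P.e0 + x) := ⟨_, rfl⟩
  rw [← ha, ← hz] at hmu1
  have hk := kdiff h (c := c) (e1 := P.e0) (e2 := P.e0 + x) (by linarith only [h1, hr1, hr2]) (by linarith only [he1, hr1, hr2]) (by linarith only [hx])
    (by linarith only [hL.1, hx1, h4, hL, hr1, hr2])
  have hb := mb_cont h
  have hD := D_cont h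
  have hb1 := mbs_cont h (P.e0 + x)
  have hb2 := mbs_cont h P.e0
  -- the integral
  have hst := mb_stat h
  rw [← intervalIntegral.integral_add_adjacent_intervals
    (ii (f := fun y => P.mb (y + P.e0) * P.D y) (by fun_prop) 0 c) (ii (by fun_prop) c (P.ρ - P.e0))] at hst
  have hA : P.u^2/2 * (x * q) ≤ ∫ y in c..(P.ρ - P.e0), P.mb (y + P.e0) * P.D y := by
    have k1 : ∫ y in c..(P.ρ - P.e0), P.u^2/2 * P.D y = P.u^2/2 * (x * q) := by
      rw [intervalIntegral.integral_const_mul, D_int h, I_rho h, hIx]; ring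
    rw [← k1]
    refine intervalIntegral.integral_mono_on h4 (ii (by fun_prop) _ _) (ii (by fun_prop) _ _)
      fun y hy => ?_
    refine mul_le_mul_of_nonneg_right ?_ (D_nonneg h y)
    have k2 : P.mb P.ρ = P.u^2/2 := by
      rw [mb_out h (by linarith only [he1, hr1, hr2])]
      have : P.Y - P.ρ = P.u := by unfold Par.Y; ring
      rw [this, max_eq_left (by linarith only [hr1, hr2, hu1])]
    rw [← k2]
    exact mb_anti h (by simp only [mem_Ici]; linarith only [hy.1, h1, he1, hr1, hr2, hy]) (by simp only [mem_Ici]; linarith only [hr1, hr2])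
      (by linarith only [hy.2, hy])
  have hB : ∫ y in (0:ℝ)..c, P.mb (y + (P.e0 + x)) * P.D y =
      (∫ y in (0:ℝ)..c, P.mb (y + P.e0) * P.D y) -
        ∫ y in (0:ℝ)..c, (P.mb (y + P.e0) - P.mb (y + (P.e0 + x))) * P.D y := by
    rw [← intervalIntegral.integral_sub (ii (by fun_prop) _ _) (ii (by fun_prop) _ _)]
    refine intervalIntegral.integral_congr fun y _ => ?_
    show P.mb (y + (P.e0 + x)) * P.D y = P.mb (y + P.e0) * P.D y -
      (P.mb (y + P.e0) - P.mb (y + (P.e0 + x))) * P.D y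
    ring
  have e1 : P.e0 + x - P.e0 = x := by ring
  rw [e1] at hk
  obtain ⟨m1, hm1⟩ : ∃ m1, m1 = z * P.I c + P.J c - R2 a - 95/100000 := ⟨_, rfl⟩
  obtain ⟨m2, hm2⟩ : ∃ m2, m2 = (P.Y - P.e0 - c) * P.I c + P.J c - R2 (P.ρ - P.e0 - P.e0) - 95/100000 :=
    ⟨_, rfl⟩
  have hm1' : m1 ≤ mu P c (P.e0 + x) := by rw [hm1]; linarith only [hmu1]
  have hm2' : m2 ≤ mu P c P.e0 := by rw [hm2]; linarith only [hmu2]
  have hPhi : ∫ y in (0:ℝ)..c, P.mb (y + (P.e0 + x)) * P.D y ≤
      1 - P.u^2/2 * (x * q) - x * (m1 + m2) / 2 := by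
    rw [hB]
    have : x * (m1 + m2) / 2 ≤ x * (mu P c P.e0 + mu P c (P.e0 + x)) / 2 := by
      have : x * (m1 + m2) ≤ x * (mu P c P.e0 + mu P c (P.e0 + x)) :=
        mul_le_mul_of_nonneg_left (by linarith only [hmu2, hmu1, hm1, hm2]) hx
      linarith only [this]
    linarith only [hk, hst, hA, this]
  -- the cubic term
  have hw : x * (1 - q / P.D c) ≤ P.u - z := by
    have : P.u - z = x - (P.ρ - P.e0 - c) := by rw [hz]; unfold Par.Y; ring
    rw [this]
    linarith only [hcc3]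
  have hw0 : 0 ≤ P.u - z := le_trans (mul_nonneg hx (by linarith only [hqD])) hw
  have hcub : z^2/2 * (x * (1 - q / P.D c)) ≤ (P.u^3 - z^3)/6 := by
    have k1 : z^2/2 * (x * (1 - q / P.D c)) ≤ z^2/2 * (P.u - z) :=
      mul_le_mul_of_nonneg_left hw (by positivity)
    have k2 : z^2/2 * (P.u - z) ≤ (P.u^3 - z^3)/6 := by
      have : (P.u^3 - z^3)/6 - z^2/2 * (P.u - z) = (P.u - z)^2 * (P.u + 2*z) / 6 := by ring
      have h9 : 0 ≤ (P.u - z)^2 * (P.u + 2*z) / 6 := by positivity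
      linarith only [h9]
    linarith only [k1, k2]
  -- the identity for `1/L - q^2 L`
  have hid : 1 / P.L - q^2 * P.L = x * ((2 * P.L + x) * q^2 / P.L) := by
    rw [hq]; field_simp; ring
  have hup : P.dU (P.e0 + x) c ≤ x * ((2 * P.L + x) * q^2 / P.L - q^2 * (z^2/2) * (1 - q / P.D c)
      - (m1 + m2) / (2 * P.L) - P.u^2/2 * q / P.L) := by
    rw [dU_eq h (by linarith only [hx, hL, he1, hcc2]) (by linarith only [hL.1, hx1, h4, hL, hr1, hr2]), ← hz, ← hqd]
    have k1 : (∫ y in (0:ℝ)..c, P.mb (y + (P.e0 + x)) * P.D y) / P.L ≤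
      (1 - P.u^2/2 * (x * q) - x * (m1 + m2) / 2) / P.L := div_le_div_of_nonneg_right hPhi hLp.le
    have k2 : q^2 * (z^2/2 * (x * (1 - q / P.D c))) ≤ q^2 * ((P.u^3 - z^3)/6) :=
      mul_le_mul_of_nonneg_left hcub (by positivity)
    have k3 : (1 - P.u^2/2 * (x * q) - x * (m1 + m2) / 2) / P.L = 1 / P.L -
      x * (P.u^2/2 * q / P.L) - x * ((m1 + m2) / (2 * P.L)) := by field_simp
    rw [k3] at k1
    nlinarith only [hid, k1, k2]
  -- numerics
  have key := Pool.Agent.OptRes.verify_sound _ 30 _ vPos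
    (Pool.Agent.OptRes.vec [c, P.ρ, P.u, P.e0, P.Y, P.L, P.I c, P.e0 + x, q, a,
    P.J c, P.D c, z, m1, m2, x, (2 * P.L + x) * q^2 / P.L - q^2 * (z^2/2) * (1 - q / P.D c)
      - (m1 + m2) / (2 * P.L) - P.u^2/2 * q / P.L])
    (fun i => by
      match i with
      | 0 => exact Pool.Agent.OptRes.mem_bx (by norm_num) (by norm_num; linarith only [h1]) (by norm_num; linarith only [h2])
      | 1 => exact Pool.Agent.OptRes.mem_bx (by norm_num) (by norm_num; linarith only [hr1]) (by norm_num; linarith only [hr2])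
      | 2 => exact Pool.Agent.OptRes.mem_bx (by norm_num) (by norm_num; linarith only [hu1]) (by norm_num; linarith only [hu2])
      | 3 => exact Pool.Agent.OptRes.mem_bx (by norm_num) (by norm_num; linarith only [he1]) (by norm_num; linarith only [he2])
      | (n+4) => trivial)
    (by
      simp only [PPos, boxP, Pool.Agent.OptRes.DerOK, List.length, vc, vr, vu, ve0,
        Pool.Agent.OptRes.Ex.ev_add, Pool.Agent.OptRes.Ex.ev_sub, Pool.Agent.OptRes.Ex.ev_mul,
        Pool.Agent.OptRes.Ex.ev_div, Pool.Agent.OptRes.Ex.ev_sq, Pool.Agent.OptRes.Ex.ev_v,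
        Pool.Agent.OptRes.Ex.ev_two, Pool.Agent.OptRes.Ex.ev_one, ev_qd, ev_xPI, ev_xPJ, ev_xPD, ev_xR2,
        Pool.Agent.OptRes.vec, List.mem_cons, List.not_mem_nil, or_false, forall_eq, and_true]
      push_cast
      refine ⟨rfl, hLeq, ⟨by linarith only [hI1], by linarith only [hI1]⟩, heq, hqI, by rw [ha], ⟨by linarith only [hJ1], by linarith only [hJ1]⟩,
        ⟨by linarith only [hD1], by linarith only [hD1]⟩, by rw [hz], hm1, hm2, by ring⟩)
    (by
      simp only [PPos, List.mem_cons, List.not_mem_nil, or_false, forall_eq_or_imp, forall_eq,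
        Pool.Agent.OptRes.Ex.ev_sub, Pool.Agent.OptRes.Ex.ev_v, ev_qd, Pool.Agent.OptRes.vec]
      push_cast
      constructor <;> linarith)
  simp only [PPos, List.mem_cons, List.not_mem_nil, or_false, forall_eq,
      Pool.Agent.OptRes.Ex.ev_sub, Pool.Agent.OptRes.Ex.ev_v, ev_qd, Pool.Agent.OptRes.vec] at key
  push_cast at key
  refine hup.trans ?_
  nlinarith only [hx, key]

theorem dU_neg_near (h : P.Star) {x c : ℝ} (hx : -P.e0 ≤ x) (hx1 : x ≤ 0)
    (hc : P.io c = P.q (P.e0 + x)) : 0.22 * (-x) ≤ P.dU (P.e0 + x) c := by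
  obtain ⟨⟨h1, h2, h3⟩, -, h4, hI, hLx, hq, hqI, hq0, hq1, hIx⟩ :=
    facts h hx (by linarith only [hx1]) hc
  have h4 := h4 hx1
  have hL := Y_pos h
  have he1 := h.e_lo; have he2 := h.e_hi
  have hr1 := h.ρ_lo; have hr2 := h.ρ_hi
  have hu1 := h.u_lo; have hu2 := h.u_hi
  have hc0 := c0_bd h
  have hLp : 0 < P.L := by linarith only [hL.2.2.1, hL, hr1, hr2]
  have hIc : 0 < P.I c := by
    rcases lt_or_ge 0 (P.I c) with h5 | h5
    · exact h5
    · nlinarith only [hIx, hr1, hr2, h5, hx1, hq0]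
  have heq : P.e0 + x = P.L / P.I c - P.Y := by
    have : P.L / P.I c = P.L + x := by rw [div_eq_iff hIc.ne']; linarith only [hI]
    rw [this]; unfold Par.L Par.Y; ring
  have hLeq : P.L = P.Y + P.e0 := by unfold Par.L Par.Y; ring
  obtain ⟨q, hqd⟩ : ∃ q, q = P.q (P.e0 + x) := ⟨_, rfl⟩
  obtain ⟨c0, hc0d⟩ : ∃ c0, c0 = P.ρ - P.e0 := ⟨_, rfl⟩
  rw [← hc0d] at hc0 h4
  have hIr := I_rho h
  rw [← hc0d] at hIr
  have hDc := D_lo h (y := c0) (by linarith only [he2, hr1, hr2, hc0d])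
  -- `c - c0 ≤ |x| q / D c0`
  have hcc : P.D c0 * (c - c0) ≤ (-x) * q := by
    have := I_sub_ge h h4
    rw [hIr, hIx, ← hqd] at this
    linarith only [this]
  rw [← hqd] at hq hqI hq0 hq1 hIx
  have hcc3 : c - c0 ≤ (-x) * (q / P.D c0) := by
    rw [← mul_div_assoc, le_div_iff₀ (by linarith only [hr1, hr2, hDc])]
    linarith only [hcc]
  have hqD : q / P.D c0 ≤ 1 := by
    rw [div_le_one (by linarith only [hr1, hr2, hDc])]; linarith only [hr1, hr2, hq1, hDc]
  have hI1 := abs_le.1 (I_app h (y := c) (by linarith only [he2, hr1, hr2, h4, hc0d]) (by linarith only [h2, hr1, hr2]))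
  have hJ1 := abs_le.1 (J_app h (y := c0) (by linarith only [he2, hr1, hr2, hc0d]) (by linarith only [h2, hr1, hr2, h4]))
  have hD1 := abs_le.1 (D_app h (y := c0) (by linarith only [he2, hr1, hr2, hc0d]) (by linarith only [h2, hr1, hr2, h4]))
  obtain ⟨z, hz⟩ : ∃ z, z = P.Y - (P.e0 + x) - c := ⟨_, rfl⟩
  have hz0 : 0 ≤ z := by linarith only [hL.1, hx1, h2, hL, he2, hr1, hr2, hz]
  have hmu1 := mu_lo h (e := P.e0 + x) (c := c0) (by linarith only [hx]) (by linarith only [hx1, he2, hr1, hr2]) (by linarith only [hx, hc0d])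
  have hmu2 := mu_lo h (e := P.e0) (c := c0) (by linarith only [hx, hx1]) (by linarith only [he2, hr1, hr2]) (by linarith only [hx, hx1, hc0d])
  rw [← hc0d, hIr, mul_one] at hmu1 hmu2
  have hk := kdiff h (c := c0) (e1 := P.e0 + x) (e2 := P.e0) (by linarith only [he2, hr1, hr2, hc0d]) (by linarith only [hx]) (by linarith only [hx1])
    (by linarith only [hL.1, h2, hL, he2, hr1, hr2, h4])
  have hb := mb_cont h
  have hD := D_cont h
  have hb1 := mbs_cont h (P.e0 + x)
  have hb2 := mbs_cont h P.e0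
  -- the integral
  have hst := mb_stat h
  rw [← hc0d] at hst
  have hA : z^2/2 * ((-x) * q) ≤ ∫ y in c0..c, P.mb (y + (P.e0 + x)) * P.D y := by
    have k1 : ∫ y in c0..c, z^2/2 * P.D y = z^2/2 * ((-x) * q) := by
      rw [intervalIntegral.integral_const_mul, D_int h, hIr, hIx]; ring
    rw [← k1]
    refine intervalIntegral.integral_mono_on h4 (ii (by fun_prop) _ _) (ii (by fun_prop) _ _)
      fun y hy => ?_
    refine mul_le_mul_of_nonneg_right ?_ (D_nonneg h y)
    have k2 : P.mb (c + (P.e0 + x)) = z^2/2 := by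
      rw [mb_out h (by linarith only [hx, h4, hc0d])]
      have : P.Y - (c + (P.e0 + x)) = z := by rw [hz]; ring
      rw [this, max_eq_left (by linarith only [hx1, h2, hL, he2, hr1, hr2, hz])]
    rw [← k2]
    exact mb_anti h (by simp only [mem_Ici]; linarith only [hy.1, hx, he2, hr1, hr2, hc0d, hy]) (by simp only [mem_Ici]; linarith only [hx, he2, hr1, hr2, h4, hc0d])
      (by linarith only [hy.2, hy])
  have hB : ∫ y in (0:ℝ)..c0, P.mb (y + (P.e0 + x)) * P.D y =
      (∫ y in (0:ℝ)..c0, P.mb (y + P.e0) * P.D y) +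
        ∫ y in (0:ℝ)..c0, (P.mb (y + (P.e0 + x)) - P.mb (y + P.e0)) * P.D y := by
    rw [← intervalIntegral.integral_add (ii (by fun_prop) _ _) (ii (by fun_prop) _ _)]
    refine intervalIntegral.integral_congr fun y _ => ?_
    show P.mb (y + (P.e0 + x)) * P.D y = P.mb (y + P.e0) * P.D y +
      (P.mb (y + (P.e0 + x)) - P.mb (y + P.e0)) * P.D y
    ring
  have e1 : P.e0 - (P.e0 + x) = -x := by ring
  rw [e1] at hk
  obtain ⟨m1, hm1⟩ : ∃ m1, m1 = P.Y - (P.e0 + x) - c0 + P.J c0 - R2 (c0 - (P.e0 + x)) - 95/100000 := ⟨_, rfl⟩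
  obtain ⟨m2, hm2⟩ : ∃ m2, m2 = P.Y - P.e0 - c0 + P.J c0 - R2 (c0 - P.e0) - 95/100000 :=
    ⟨_, rfl⟩
  have hm1' : m1 ≤ mu P c0 (P.e0 + x) := by rw [hm1]; linarith only [hmu1]
  have hm2' : m2 ≤ mu P c0 P.e0 := by rw [hm2]; linarith only [hmu2]
  have hPhi : 1 + z^2/2 * ((-x) * q) + (-x) * (m1 + m2) / 2 ≤
      ∫ y in (0:ℝ)..c, P.mb (y + (P.e0 + x)) * P.D y := by
    rw [← intervalIntegral.integral_add_adjacent_intervals
      (ii (f := fun y => P.mb (y + (P.e0 + x)) * P.D y) (by fun_prop) 0 c0) (ii (by fun_prop) c0 c), hB,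
      hst]
    have : (-x) * (m1 + m2) ≤ (-x) * (mu P c0 (P.e0 + x) + mu P c0 P.e0) :=
        mul_le_mul_of_nonneg_left (by linarith only [hmu1, hmu2, hm1, hm2]) (by linarith only [hx1])
    linarith only [hk, hA, this]
  -- the cubic term
  have hw : (-x) * (1 - q / P.D c0) ≤ z - P.u := by
    have : z - P.u = (-x) - (c - c0) := by rw [hz, hc0d]; unfold Par.Y; ring
    rw [this]
    linarith only [hcc3]
  have hw0 : 0 ≤ z - P.u := le_trans (mul_nonneg (by linarith only [hx1]) (by linarith only [hqD])) hw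
  have hu0 : 0 ≤ P.u := by linarith only [hr1, hr2, hu1]
  have hcub : P.u^2/2 * ((-x) * (1 - q / P.D c0)) ≤ (z^3 - P.u^3)/6 := by
    have k1 : P.u^2/2 * ((-x) * (1 - q / P.D c0)) ≤ P.u^2/2 * (z - P.u) :=
      mul_le_mul_of_nonneg_left hw (by positivity)
    have k2 : P.u^2/2 * (z - P.u) ≤ (z^3 - P.u^3)/6 := by
      have : (z^3 - P.u^3)/6 - P.u^2/2 * (z - P.u) = (z - P.u)^2 * (z + 2*P.u) / 6 := by ring
      have h9 : 0 ≤ (z - P.u)^2 * (z + 2*P.u) / 6 := by positivity
      linarith only [h9]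
    linarith only [k1, k2]
  -- the identity for `1/L - q^2 L`
  have hid : 1 / P.L - q^2 * P.L = x * ((2 * P.L + x) * q^2 / P.L) := by
    rw [hq]; field_simp; ring
  have hlow : (-x) * (q^2 * (P.u^2/2) * (1 - q / P.D c0) - (2 * P.L + x) * q^2 / P.L
      + (m1 + m2) / (2 * P.L) + z^2/2 * q / P.L) ≤ P.dU (P.e0 + x) c := by
    rw [dU_eq h (by linarith only [hx, h4, hc0d]) (by linarith only [hL.1, hx1, h2, hL, he2, hr1, hr2]), ← hz, ← hqd]
    have k1 : (1 + z^2/2 * ((-x) * q) + (-x) * (m1 + m2) / 2) / P.L ≤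
      (∫ y in (0:ℝ)..c, P.mb (y + (P.e0 + x)) * P.D y) / P.L := div_le_div_of_nonneg_right hPhi hLp.le
    have k2 : q^2 * (P.u^2/2 * ((-x) * (1 - q / P.D c0))) ≤ q^2 * ((z^3 - P.u^3)/6) :=
      mul_le_mul_of_nonneg_left hcub (by positivity)
    have k3 : (1 + z^2/2 * ((-x) * q) + (-x) * (m1 + m2) / 2) / P.L = 1 / P.L +
      (-x) * (z^2/2 * q / P.L) + (-x) * ((m1 + m2) / (2 * P.L)) := by field_simp
    rw [k3] at k1
    nlinarith only [hid, k1, k2]
  -- numerics
  have key := Pool.Agent.OptRes.verify_sound _ 30 _ vNeg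
    (Pool.Agent.OptRes.vec [c, P.ρ, P.u, P.e0, P.Y, P.L, P.I c, P.e0 + x, q, c0,
    P.J c0, P.D c0, z, m1, m2, x, q^2 * (P.u^2/2) * (1 - q / P.D c0) - (2 * P.L + x) * q^2 / P.L
      + (m1 + m2) / (2 * P.L) + z^2/2 * q / P.L])
    (fun i => by
      match i with
      | 0 => exact Pool.Agent.OptRes.mem_bx (by norm_num) (by norm_num; linarith only [he2, hr1, hr2, h4, hc0d]) (by norm_num; linarith only [h2])
      | 1 => exact Pool.Agent.OptRes.mem_bx (by norm_num) (by norm_num; linarith only [hr1]) (by norm_num; linarith only [hr2])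
      | 2 => exact Pool.Agent.OptRes.mem_bx (by norm_num) (by norm_num; linarith only [hu1]) (by norm_num; linarith only [hu2])
      | 3 => exact Pool.Agent.OptRes.mem_bx (by norm_num) (by norm_num; linarith only [he1]) (by norm_num; linarith only [he2])
      | (n+4) => trivial)
    (by
      simp only [PNeg, boxP, Pool.Agent.OptRes.DerOK, List.length, vc, vr, vu, ve0,
        Pool.Agent.OptRes.Ex.ev_add, Pool.Agent.OptRes.Ex.ev_sub, Pool.Agent.OptRes.Ex.ev_mul,
        Pool.Agent.OptRes.Ex.ev_div, Pool.Agent.OptRes.Ex.ev_sq, Pool.Agent.OptRes.Ex.ev_v,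
        Pool.Agent.OptRes.Ex.ev_two, Pool.Agent.OptRes.Ex.ev_one, ev_qd, ev_xPI, ev_xPJ, ev_xPD, ev_xR2,
        Pool.Agent.OptRes.vec, List.mem_cons, List.not_mem_nil, or_false, forall_eq, and_true]
      push_cast
      refine ⟨rfl, hLeq, ⟨by linarith only [hI1], by linarith only [hI1]⟩, heq, hqI, hc0d, ⟨by linarith only [hJ1], by linarith only [hJ1]⟩,
        ⟨by linarith only [hD1], by linarith only [hD1]⟩, by rw [hz], hm1, hm2, by ring⟩)
    (by
      simp only [PNeg, List.mem_cons, List.not_mem_nil, or_false, forall_eq_or_imp, forall_eq,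
        Pool.Agent.OptRes.Ex.ev_sub, Pool.Agent.OptRes.Ex.ev_v, Pool.Agent.OptRes.Ex.ev_zero,
        Pool.Agent.OptRes.vec]
      constructor <;> linarith)
  simp only [PNeg, List.mem_cons, List.not_mem_nil, or_false, forall_eq,
      Pool.Agent.OptRes.Ex.ev_sub, Pool.Agent.OptRes.Ex.ev_v, ev_qd, Pool.Agent.OptRes.vec] at key
  push_cast at key
  refine le_trans ?_ hlow
  nlinarith only [hx1, key]

end
end Pool.Agent.CDk.U1n

namespace Pool.Agent.CDk.Par
variable {P : Par}

theorem dU_neg (h : P.Star) {x c : ℝ} (hx : -P.e0 ≤ x) (hx1 : x ≤ 0) (hc : P.io c = P.q (P.e0 + x)) :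
    0.22 * (-x) ≤ P.dU (P.e0 + x) c :=
  U1n.dU_neg_near h hx hx1 hc

theorem dU_pos (h : P.Star) {x c : ℝ} (hx : 0 ≤ x) (hx1 : x ≤ 0.6) (hc : P.io c = P.q (P.e0 + x)) :
    P.dU (P.e0 + x) c ≤ -(0.18 * x) := by
  rcases le_total x 0.2 with h1 | h1
  · exact U1n.dU_pos_near h hx h1 hc
  · exact U1n.dU_dir1 h h1 hx1 hc

theorem dU_pos2 (h : P.Star) {x c : ℝ} (hx : 0.6 ≤ x) (hx1 : x ≤ 1.05) (hc : P.io c = P.q (P.e0 + x)) :
    P.dU (P.e0 + x) c ≤ -0.105 :=
  U1n.dU_dir2 h hx hx1 hc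

end Pool.Agent.CDk.Par
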