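import Pool.Agent.CDk.CX
import Pool.Agent.CDk.Defs
import Pool.Agent.CDk.FNa

open MeasureTheory Set Filter Topology

namespace Pool.Agent.CDk.Par
variable {P : Par}

private theorem ud_D_le (h : P.Star) (y : ℝ) : P.D y / P.L ≤ 1 := by
  have hL := cx_L_pos h
  have h1 := (io_slope h (y := max y 1.24) (le_max_right _ _)).2
  have h2 : P.D y ≤ P.D (max y 1.24) := D_mono h (le_max_left _ _)
  have h3 : P.D y / P.L ≤ P.D (max y 1.24) / P.L := div_le_div_of_nonneg_right h2 hL.le
  linarith

private theorem ud_io_deriv (h : P.Star) (y : ℝ) : HasDerivAt P.io (P.D y / P.L) y := by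
  have h1 := (I_deriv h y).div_const P.L
  exact h1

private theorem ud_io_lip (h : P.Star) (a b : ℝ) : |P.io a - P.io b| ≤ |a - b| := by
  have key : ∀ a b : ℝ, a < b → |P.io a - P.io b| ≤ |a - b| := by
    intro a b hab
    obtain ⟨ξ, -, -, h1⟩ := cx_mvt h hab
    have h2 := ud_D_le h ξ
    have h3 : 0 ≤ P.D ξ / P.L := div_nonneg (cx_D_nonneg h ξ) (cx_L_pos h).le
    rw [abs_sub_comm, h1, abs_of_nonneg (mul_nonneg h3 (by linarith)), abs_sub_comm,
      abs_of_pos (by linarith : 0 < b - a)]
    calc P.D ξ / P.L * (b - a) ≤ 1 * (b - a) := mul_le_mul_of_nonneg_right h2 (by linarith)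
      _ = b - a := one_mul _
  rcases lt_trichotomy a b with h1 | h1 | h1
  · exact key a b h1
  · rw [h1]
    simp
  · rw [abs_sub_comm, abs_sub_comm a b]
    exact key b a h1

private theorem ud_q_deriv (h : P.Star) {e : ℝ} (he : 0 < e) :
    HasDerivAt P.q (-(P.q e) ^ 2) e := by
  have hY := (Y_pos h).1
  have h0 : P.Y + e ≠ 0 := by linarith
  have h1 : HasDerivAt (fun x : ℝ => P.Y + x) 1 e := by
    simpa using (hasDerivAt_id e).const_add P.Y
  have h2 := h1.inv h0
  have h3 : P.q = fun x => (P.Y + x)⁻¹ := by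
    funext x
    unfold q
    rw [one_div]
  rw [h3]
  refine h2.congr_deriv ?_
  simp only
  rw [inv_pow, neg_div, one_div]

private theorem ud_q_lip (h : P.Star) {a b : ℝ} (ha : 0 < a) (hb : 0 < b) :
    |P.q a - P.q b| ≤ |a - b| := by
  have hY := (Y_pos h).1
  have h1 : P.q a - P.q b = (b - a) / ((P.Y + a) * (P.Y + b)) := by
    unfold q
    have h2 : P.Y + a ≠ 0 := by linarith
    have h3 : P.Y + b ≠ 0 := by linarith
    field_simp
    ring
  have h2 : (1 : ℝ) * 1 ≤ (P.Y + a) * (P.Y + b) :=
    mul_le_mul (by linarith) (by linarith) (by norm_num) (by linarith)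
  rw [h1, abs_div, abs_sub_comm, abs_of_pos (by linarith : 0 < (P.Y + a) * (P.Y + b))]
  exact div_le_self (abs_nonneg _) (by linarith)

/-- derivative in `e` of `∫ φ (q - ι(v - e))_+` -/
theorem gf_deriv (h : P.Star) {φ : ℝ → ℝ} (hφ : Continuous φ) {e c : ℝ} (he : 0 < e)
    (he1 : e < P.e0 + 1.05) (hc : P.io c = P.q e) :
    HasDerivAt (fun e' => ∫ v in (0:ℝ)..P.Y, φ v * P.gf e' P.io v)
      (-(P.q e)^2 * (∫ v in (0:ℝ)..(c + e), φ v) + ∫ y in (0:ℝ)..c, φ (y + e) * (P.D y / P.L)) e := by
  obtain ⟨c', hc', c1, c2, c3, -, -⟩ := cross h he.le he1.le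
  have hcc : c = c' := cross_unique h he.le hc hc'
  rw [← hcc] at c1 c2 c3
  have hY := (Y_pos h).1
  have hL := cx_L_pos h
  have hioc := cx_cont h
  have hDc := D_cont h
  have hf : Continuous fun v => φ v * (-(P.q e) ^ 2 + P.D (v - e) / P.L) := by fun_prop
  have hgc : ∀ e', Continuous (fun v => φ v * P.gf e' P.io v) := by
    intro e'
    unfold gf
    fun_prop
  have hmain := intervalIntegral.hasDerivAt_integral_of_dominated_loc_of_lip
    (μ := volume) (a := 0) (b := P.Y) (x₀ := e) (s := Ioi 0)
    (F := fun e' v => φ v * P.gf e' P.io v)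
    (F' := indicator {v | v ≤ c + e} (fun v => φ v * (-(P.q e) ^ 2 + P.D (v - e) / P.L)))
    (bound := fun v => |φ v| * 2) (Ioi_mem_nhds he)
    (Filter.Eventually.of_forall fun e' => (hgc e').aestronglyMeasurable)
    ((hgc e).intervalIntegrable _ _)
    ((hf.measurable.indicator (measurableSet_le measurable_id measurable_const)).aestronglyMeasurable)
    ?_ ((by fun_prop : Continuous fun v => |φ v| * 2).intervalIntegrable _ _) ?_
  · have h1 := hmain.2
    refine h1.congr_deriv ?_
    rw [intervalIntegral.integral_indicator (⟨by linarith, by linarith⟩ : c + e ∈ Icc 0 P.Y)]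
    have hA : Continuous fun v => φ v * (P.D (v - e) / P.L) := by fun_prop
    have e1 : ∫ v in (0:ℝ)..(c + e), φ v * (-(P.q e) ^ 2 + P.D (v - e) / P.L)
        = -(P.q e) ^ 2 * (∫ v in (0:ℝ)..(c + e), φ v)
          + ∫ v in (0:ℝ)..(c + e), φ v * (P.D (v - e) / P.L) := by
      rw [← intervalIntegral.integral_const_mul, ← intervalIntegral.integral_add
        ((hφ.const_mul _).intervalIntegrable _ _) (hA.intervalIntegrable _ _)]
      apply intervalIntegral.integral_congr
      intro v _
      simp only
      ring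
    rw [e1]
    congr 1
    rw [← intervalIntegral.integral_add_adjacent_intervals
      (hA.intervalIntegrable 0 e) (hA.intervalIntegrable e (c + e))]
    have s2 : ∫ v in (0:ℝ)..e, φ v * (P.D (v - e) / P.L) = ∫ v in (0:ℝ)..e, (0 : ℝ) := by
      apply intervalIntegral.integral_congr
      intro v hv
      rw [uIcc_of_le he.le] at hv
      simp only
      rw [D_zero h (by linarith [hv.2]), zero_div, mul_zero]
    rw [s2, intervalIntegral.integral_zero, zero_add]
    have s1 := intervalIntegral.integral_comp_add_right (a := 0) (b := c)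
      (fun v => φ v * (P.D (v - e) / P.L)) e
    rw [zero_add] at s1
    rw [← s1]
    apply intervalIntegral.integral_congr
    intro y _
    simp only [add_sub_cancel_right]
  · -- Lipschitz
    refine Filter.Eventually.of_forall fun v _ => ?_
    rw [lipschitzOnWith_iff_dist_le_mul]
    intro a ha b hb
    rw [Real.dist_eq, Real.dist_eq]
    have h1 : ((Real.nnabs (|φ v| * 2) : NNReal) : ℝ) = |φ v| * 2 := by
      rw [Real.coe_nnabs, abs_of_nonneg (by positivity)]
    rw [h1]
    have h2 : |P.gf a P.io v - P.gf b P.io v| ≤ 2 * |a - b| := by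
      unfold gf
      have h3 := abs_max_sub_max_le_abs (P.q a - P.io (v - a)) (P.q b - P.io (v - b)) 0
      refine h3.trans ?_
      have h4 : P.q a - P.io (v - a) - (P.q b - P.io (v - b))
          = (P.q a - P.q b) - (P.io (v - a) - P.io (v - b)) := by ring
      rw [h4]
      have h5 := abs_sub (P.q a - P.q b) (P.io (v - a) - P.io (v - b))
      have h6 := ud_q_lip h (mem_Ioi.1 ha) (mem_Ioi.1 hb)
      have h7 := ud_io_lip h (v - a) (v - b)
      have h8 : |v - a - (v - b)| = |a - b| := by
        rw [abs_sub_comm a b]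
        congr 1
        ring
      rw [h8] at h7
      linarith
    have h3 : φ v * P.gf a P.io v - φ v * P.gf b P.io v
        = φ v * (P.gf a P.io v - P.gf b P.io v) := by ring
    rw [h3, abs_mul]
    have h4 := mul_le_mul_of_nonneg_left h2 (abs_nonneg (φ v))
    linarith
  · -- derivative at almost every point
    have hne : ∀ᵐ v : ℝ, v ≠ c + e := by
      rw [ae_iff]
      simp
    filter_upwards [hne] with v hv _
    have hqd := ud_q_deriv h he
    have hiod : HasDerivAt (fun e' => P.io (v - e')) (-(P.D (v - e) / P.L)) e := by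
      have h1 : HasDerivAt (fun e' : ℝ => v - e') (-1) e := by
        simpa using (hasDerivAt_id e).const_sub v
      have h2 := (ud_io_deriv h (v - e)).comp e h1
      refine h2.congr_deriv ?_
      ring
    have hd : HasDerivAt (fun e' => P.q e' - P.io (v - e'))
        (-(P.q e) ^ 2 + P.D (v - e) / P.L) e := by
      refine (hqd.sub hiod).congr_deriv ?_
      ring
    rcases lt_or_gt_of_ne hv with hlt | hgt
    · have hpos : 0 < P.q e - P.io (v - e) := by
        rw [← hc]
        rcases le_total 0 (v - e) with h1 | h1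
        · have := cx_strict h h1 (by linarith : v - e < c)
          linarith
        · rw [cx_zero h h1, hc]
          have := cx_q_pos h he.le
          linarith
      have hev : ∀ᶠ e' in 𝓝 e, 0 < P.q e' - P.io (v - e') :=
        hd.continuousAt.eventually (lt_mem_nhds hpos)
      have h2 : (fun e' => φ v * P.gf e' P.io v) =ᶠ[𝓝 e]
          fun e' => φ v * (P.q e' - P.io (v - e')) := by
        filter_upwards [hev] with e' he'
        unfold gf
        rw [max_eq_left he'.le]
      rw [indicator_of_mem (show v ∈ {v | v ≤ c + e} from hlt.le)]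
      exact (hd.const_mul (φ v)).congr_of_eventuallyEq h2
    · have hneg : P.q e - P.io (v - e) < 0 := by
        rw [← hc]
        have := cx_strict h (by linarith : (0:ℝ) ≤ c) (by linarith : c < v - e)
        linarith
      have hev : ∀ᶠ e' in 𝓝 e, P.q e' - P.io (v - e') < 0 :=
        hd.continuousAt.eventually (gt_mem_nhds hneg)
      have h2 : (fun e' => φ v * P.gf e' P.io v) =ᶠ[𝓝 e] fun _ => (0 : ℝ) := by
        filter_upwards [hev] with e' he'
        unfold gf
        rw [max_eq_right he'.le, mul_zero]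
      rw [indicator_of_notMem (show v ∉ {v | v ≤ c + e} from not_le.2 hgt)]
      exact (hasDerivAt_const e (0 : ℝ)).congr_of_eventuallyEq h2

/-- continuity in `e` -/
theorem gf_cont (h : P.Star) {φ : ℝ → ℝ} (hφ : Continuous φ) :
    ContinuousOn (fun e' => ∫ v in (0:ℝ)..P.Y, φ v * P.gf e' P.io v) (Ici 0) := by
  have hY := (Y_pos h).1
  have hioc := cx_cont h
  have h1 : Continuous fun e' : ℝ => ∫ v in (0:ℝ)..P.Y,
      φ v * max (1 / (P.Y + max e' 0) - P.io (v - e')) 0 := by
    apply intervalIntegral.continuous_parametric_intervalIntegral_of_continuous'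
    have h2 : Continuous fun z : ℝ × ℝ => 1 / (P.Y + max z.1 0) := by
      refine continuous_const.div (by fun_prop) fun z => ?_
      have := le_max_right z.1 0
      linarith
    have h3 : Continuous fun z : ℝ × ℝ => P.io (z.2 - z.1) := by fun_prop
    exact (hφ.comp continuous_snd).mul ((h2.sub h3).max continuous_const)
  refine h1.continuousOn.congr ?_
  intro e' he'
  simp only
  apply intervalIntegral.integral_congr
  intro v _
  simp only
  unfold gf q
  rw [max_eq_left (mem_Ici.1 he')]

end Pool.Agent.CDk.Par
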