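import Pool.Agent.CDk.CX
import Pool.Agent.CDk.Defs
import Pool.Agent.CDk.FNa
import Pool.Agent.CDk.FNb
import Pool.Agent.CDk.H1
import Pool.Agent.CDk.Ker
import Pool.Agent.CDk.POT1
import Pool.Agent.CDk.U1
import Pool.Agent.CDk.U1a
import Pool.Agent.CDk.UD

open MeasureTheory Set Filter Topology

namespace Pool.Agent.CDk.Par
variable {P : Par}

theorem q_deriv (h : P.Star) {e : ℝ} (he : 0 ≤ e) : HasDerivAt P.q (-(P.q e)^2) e := by
  have hY := Y_pos h
  have h1 : HasDerivAt (fun e : ℝ => P.Y + e) 1 e := by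
    simpa using (hasDerivAt_id' e).const_add P.Y
  have h2 := h1.inv (by linarith : P.Y + e ≠ 0)
  have h3 : P.q = fun e => (P.Y + e)⁻¹ := by
    funext e; unfold q; rw [one_div]
  rw [h3]
  refine h2.congr_deriv ?_
  have : P.Y + e ≠ 0 := by linarith
  field_simp

theorem Uf_deriv (h : P.Star) {e c : ℝ} (he : 0 < e) (he1 : e < P.e0 + 1.05) (hc : P.io c = P.q e) :
    HasDerivAt (fun e' => P.Uf e' P.io) (P.dU e c) e := by
  have h1 := gf_deriv h (mb_cont h) he he1 hc
  have h2 := (q_deriv h he.le).const_mul P.sg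
  have h3 := h2.add h1
  unfold Uf
  refine h3.congr_deriv ?_
  unfold dU
  ring

theorem Uf_contOn (h : P.Star) : ContinuousOn (fun e' => P.Uf e' P.io) (Ici 0) := by
  unfold Uf
  apply ContinuousOn.add
  · apply ContinuousOn.mul continuousOn_const
    intro e he
    exact (q_deriv h he).continuousAt.continuousWithinAt
  · exact gf_cont h (mb_cont h)

theorem Uf_neg (h : P.Star) {x : ℝ} (hx : -P.e0 ≤ x) (hx1 : x ≤ 0) :
    P.Uf (P.e0 + x) P.io ≤ P.psi P.io - 0.11 * x^2 := by
  have he0 := h.e_lo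
  have key : MonotoneOn (fun e => P.Uf e P.io + 0.11 * (e - P.e0)^2) (Icc 0 P.e0) := by
    apply monotoneOn_of_deriv_nonneg (convex_Icc _ _)
    · apply ContinuousOn.add ((Uf_contOn h).mono (fun e he => he.1))
      fun_prop
    · intro e he
      rw [interior_Icc] at he
      obtain ⟨c, hc, -⟩ := cross h he.1.le (by linarith [he.2] : e ≤ P.e0 + 1.05)
      have h1 := Uf_deriv h he.1 (by linarith [he.2]) hc
      have h2 : HasDerivAt (fun e : ℝ => 0.11 * (e - P.e0)^2) (0.22 * (e - P.e0)) e := by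
        have := (((hasDerivAt_id' e).sub_const P.e0).pow 2).const_mul 0.11
        refine this.congr_deriv ?_
        norm_num; ring
      exact (h1.add h2).differentiableAt.differentiableWithinAt
    · intro e he
      rw [interior_Icc] at he
      obtain ⟨c, hc, -⟩ := cross h he.1.le (by linarith [he.2] : e ≤ P.e0 + 1.05)
      have h1 := Uf_deriv h he.1 (by linarith [he.2]) hc
      have h2 : HasDerivAt (fun e : ℝ => 0.11 * (e - P.e0)^2) (0.22 * (e - P.e0)) e := by
        have := (((hasDerivAt_id' e).sub_const P.e0).pow 2).const_mul 0.11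
        refine this.congr_deriv ?_
        norm_num; ring
      have h3 : deriv (fun e => P.Uf e P.io + 0.11 * (e - P.e0)^2) e = P.dU e c + 0.22 * (e - P.e0) :=
        (h1.add h2).deriv
      rw [h3]
      have h4 := dU_neg h (x := e - P.e0) (c := c) (by linarith [he.1]) (by linarith [he.2]) (by rw [show P.e0 + (e - P.e0) = e by ring]; exact hc)
      rw [show P.e0 + (e - P.e0) = e by ring] at h4
      linarith
  have := key (⟨by linarith, by linarith⟩ : P.e0 + x ∈ Icc 0 P.e0) (⟨by linarith, le_rfl⟩ : P.e0 ∈ Icc 0 P.e0) (by linarith)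
  simp only at this
  rw [Uf_e0 h] at this
  ring_nf at this ⊢
  linarith

theorem Uf_pos1 (h : P.Star) {x : ℝ} (hx : 0 ≤ x) (hx1 : x ≤ 0.6) :
    P.Uf (P.e0 + x) P.io ≤ P.psi P.io - 0.09 * x^2 := by
  have he0 := h.e_lo
  have key : AntitoneOn (fun e => P.Uf e P.io + 0.09 * (e - P.e0)^2) (Icc P.e0 (P.e0 + 0.6)) := by
    apply antitoneOn_of_deriv_nonpos (convex_Icc _ _)
    · apply ContinuousOn.add ((Uf_contOn h).mono (fun e he => mem_Ici.mpr (by linarith [he.1])))
      fun_prop
    · intro e he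
      rw [interior_Icc] at he
      obtain ⟨c, hc, -⟩ := cross h (by linarith [he.1]) (by linarith [he.2] : e ≤ P.e0 + 1.05)
      have h1 := Uf_deriv h (by linarith [he.1]) (by linarith [he.2]) hc
      have h2 : HasDerivAt (fun e : ℝ => 0.09 * (e - P.e0)^2) (0.18 * (e - P.e0)) e := by
        have := (((hasDerivAt_id' e).sub_const P.e0).pow 2).const_mul 0.09
        refine this.congr_deriv ?_
        norm_num; ring
      exact (h1.add h2).differentiableAt.differentiableWithinAt
    · intro e he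
      rw [interior_Icc] at he
      obtain ⟨c, hc, -⟩ := cross h (by linarith [he.1]) (by linarith [he.2] : e ≤ P.e0 + 1.05)
      have h1 := Uf_deriv h (by linarith [he.1]) (by linarith [he.2]) hc
      have h2 : HasDerivAt (fun e : ℝ => 0.09 * (e - P.e0)^2) (0.18 * (e - P.e0)) e := by
        have := (((hasDerivAt_id' e).sub_const P.e0).pow 2).const_mul 0.09
        refine this.congr_deriv ?_
        norm_num; ring
      have h3 : deriv (fun e => P.Uf e P.io + 0.09 * (e - P.e0)^2) e = P.dU e c + 0.18 * (e - P.e0) :=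
        (h1.add h2).deriv
      rw [h3]
      have h4 := dU_pos h (x := e - P.e0) (c := c) (by linarith [he.1]) (by linarith [he.2]) (by rw [show P.e0 + (e - P.e0) = e by ring]; exact hc)
      rw [show P.e0 + (e - P.e0) = e by ring] at h4
      linarith
  have := key (⟨le_rfl, by linarith⟩ : P.e0 ∈ Icc P.e0 (P.e0 + 0.6)) (⟨by linarith, by linarith⟩ : P.e0 + x ∈ Icc P.e0 (P.e0 + 0.6)) (by linarith)
  simp only at this
  rw [Uf_e0 h] at this
  ring_nf at this ⊢
  linarith

theorem Uf_pos2 (h : P.Star) {x : ℝ} (hx : 0.6 ≤ x) (hx1 : x ≤ 1) :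
    P.Uf (P.e0 + x) P.io ≤ P.psi P.io - 0.0324 - 0.105 * (x - 0.6) := by
  have he0 := h.e_lo
  have key : AntitoneOn (fun e => P.Uf e P.io + 0.105 * (e - P.e0)) (Icc (P.e0 + 0.6) (P.e0 + 1)) := by
    apply antitoneOn_of_deriv_nonpos (convex_Icc _ _)
    · apply ContinuousOn.add ((Uf_contOn h).mono (fun e he => mem_Ici.mpr (by linarith [he.1])))
      fun_prop
    · intro e he
      rw [interior_Icc] at he
      obtain ⟨c, hc, -⟩ := cross h (by linarith [he.1]) (by linarith [he.2] : e ≤ P.e0 + 1.05)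
      have h1 := Uf_deriv h (by linarith [he.1]) (by linarith [he.2]) hc
      have h2 : HasDerivAt (fun e : ℝ => 0.105 * (e - P.e0)) 0.105 e := by
        have := ((hasDerivAt_id' e).sub_const P.e0).const_mul 0.105
        refine this.congr_deriv ?_
        norm_num
      exact (h1.add h2).differentiableAt.differentiableWithinAt
    · intro e he
      rw [interior_Icc] at he
      obtain ⟨c, hc, -⟩ := cross h (by linarith [he.1]) (by linarith [he.2] : e ≤ P.e0 + 1.05)
      have h1 := Uf_deriv h (by linarith [he.1]) (by linarith [he.2]) hc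
      have h2 : HasDerivAt (fun e : ℝ => 0.105 * (e - P.e0)) 0.105 e := by
        have := ((hasDerivAt_id' e).sub_const P.e0).const_mul 0.105
        refine this.congr_deriv ?_
        norm_num
      have h3 : deriv (fun e => P.Uf e P.io + 0.105 * (e - P.e0)) e = P.dU e c + 0.105 :=
        (h1.add h2).deriv
      rw [h3]
      have h4 := dU_pos2 h (x := e - P.e0) (c := c) (by linarith [he.1]) (by linarith [he.2]) (by rw [show P.e0 + (e - P.e0) = e by ring]; exact hc)
      rw [show P.e0 + (e - P.e0) = e by ring] at h4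
      linarith
  have h5 := key (⟨le_rfl, by linarith⟩ : P.e0 + 0.6 ∈ Icc (P.e0 + 0.6) (P.e0 + 1)) (⟨by linarith, by linarith⟩ : P.e0 + x ∈ Icc (P.e0 + 0.6) (P.e0 + 1)) (by linarith)
  have h6 := Uf_pos1 h (x := 0.6) (by norm_num) le_rfl
  simp only at h5
  norm_num at h5 h6 ⊢
  linarith

/-- the function `e ↦ If e ι r - ι(r) Nf e ι` -/
theorem H_deriv (h : P.Star) {e c r : ℝ} (he : 0 < e) (he1 : e < P.e0 + 1.05) (hc : P.io c = P.q e)
    (hr : 0 ≤ r) (hr1 : r ≤ 2.2) :
    HasDerivAt (fun e' => P.If e' P.io r - P.io r * P.Nf e' P.io) (P.dH e c r) e := by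
  have h0 : (fun e' => P.If e' P.io r - P.io r * P.Nf e' P.io)
      = fun e' => (∫ v in (0:ℝ)..P.Y, P.ker r v * P.gf e' P.io v) - P.io r * (P.sg * P.q e') := by
    funext e'
    exact If_ker h (io_cont h) hr hr1
  rw [h0]
  have h1 := gf_deriv h (pker_cont (P := P) (r := r)) he he1 hc
  have h2 := ((q_deriv h he.le).const_mul P.sg).const_mul (P.io r)
  refine (h1.sub h2).congr_deriv ?_
  unfold dH
  ring

theorem H_contOn (h : P.Star) {r : ℝ} (hr : 0 ≤ r) (hr1 : r ≤ 2.2) :
    ContinuousOn (fun e' => P.If e' P.io r - P.io r * P.Nf e' P.io) (Ici 0) := by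
  have h0 : (fun e' => P.If e' P.io r - P.io r * P.Nf e' P.io)
      = fun e' => (∫ v in (0:ℝ)..P.Y, P.ker r v * P.gf e' P.io v) - P.io r * (P.sg * P.q e') := by
    funext e'
    exact If_ker h (io_cont h) hr hr1
  rw [h0]
  apply ContinuousOn.sub (gf_cont h pker_cont)
  apply ContinuousOn.mul continuousOn_const
  apply ContinuousOn.mul continuousOn_const
  intro e he
  exact (q_deriv h he).continuousAt.continuousWithinAt

theorem pw_nonneg (r : ℝ) : 0 ≤ w r := by
  unfold w
  have : 0 ≤ min (3 * r^2) 1 := le_min (by positivity) zero_le_one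
  have : 0 ≤ max (r - 1.4) 0 := le_max_right _ _
  linarith

theorem H_bd (h : P.Star) {x r : ℝ} (hx : -P.e0 ≤ x) (hx1 : x ≤ 0.8) (hr : 0 < r) (hr1 : r ≤ 2.2) :
    |P.If (P.e0 + x) P.io r - P.io r * P.Nf (P.e0 + x) P.io| ≤ 0.0285 * w r * |x| := by
  have he0 := h.e_lo
  set f : ℝ → ℝ := fun e' => P.If e' P.io r - P.io r * P.Nf e' P.io with hf
  have hf0 : f P.e0 = 0 := by
    simp only [hf]
    rw [If_e0 h hr.le, Nf_e0 h]; ring
  have hw := pw_nonneg r
  have hC : ∀ e, 0 < e → e < P.e0 + 0.8 → ∃ d, HasDerivAt f d e ∧ |d| ≤ 0.0285 * w r := by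
    intro e he he1
    obtain ⟨c, hc, -⟩ := cross h he.le (by linarith : e ≤ P.e0 + 1.05)
    refine ⟨_, H_deriv h he (by linarith) hc hr.le hr1, ?_⟩
    have := dH_bd h (x := e - P.e0) (c := c) (r := r) (by linarith) (by linarith) (by rw [show P.e0 + (e - P.e0) = e by ring]; exact hc) hr hr1
    rwa [show P.e0 + (e - P.e0) = e by ring] at this
  have hcont : ContinuousOn f (Ici 0) := H_contOn h hr.le hr1
  have key1 : MonotoneOn (fun e => f e + 0.0285 * w r * e) (Icc 0 (P.e0 + 0.8)) := by
    apply monotoneOn_of_deriv_nonneg (convex_Icc _ _)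
    · apply ContinuousOn.add (hcont.mono (fun e he => he.1))
      fun_prop
    · intro e he
      rw [interior_Icc] at he
      obtain ⟨d, hd, -⟩ := hC e he.1 he.2
      exact (hd.add ((hasDerivAt_id' e).const_mul (0.0285 * w r))).differentiableAt.differentiableWithinAt
    · intro e he
      rw [interior_Icc] at he
      obtain ⟨d, hd, hd2⟩ := hC e he.1 he.2
      have h3 : deriv (fun e => f e + 0.0285 * w r * e) e = d + 0.0285 * w r * 1 :=
        (hd.add ((hasDerivAt_id' e).const_mul (0.0285 * w r))).deriv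
      rw [h3]
      linarith [(abs_le.mp hd2).1]
  have key2 : AntitoneOn (fun e => f e - 0.0285 * w r * e) (Icc 0 (P.e0 + 0.8)) := by
    apply antitoneOn_of_deriv_nonpos (convex_Icc _ _)
    · apply ContinuousOn.sub (hcont.mono (fun e he => he.1))
      fun_prop
    · intro e he
      rw [interior_Icc] at he
      obtain ⟨d, hd, -⟩ := hC e he.1 he.2
      exact (hd.sub ((hasDerivAt_id' e).const_mul (0.0285 * w r))).differentiableAt.differentiableWithinAt
    · intro e he
      rw [interior_Icc] at he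
      obtain ⟨d, hd, hd2⟩ := hC e he.1 he.2
      have h3 : deriv (fun e => f e - 0.0285 * w r * e) e = d - 0.0285 * w r * 1 :=
        (hd.sub ((hasDerivAt_id' e).const_mul (0.0285 * w r))).deriv
      rw [h3]
      linarith [(abs_le.mp hd2).2]
  have m0 : P.e0 ∈ Icc 0 (P.e0 + 0.8) := ⟨by linarith, by linarith⟩
  have m1 : P.e0 + x ∈ Icc 0 (P.e0 + 0.8) := ⟨by linarith, by linarith⟩
  show |f (P.e0 + x)| ≤ _
  rcases le_total 0 x with hx0 | hx0
  · have a1 := key1 m0 m1 (by linarith)
    have a2 := key2 m0 m1 (by linarith)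
    simp only [hf0] at a1 a2
    rw [abs_of_nonneg hx0, abs_le]
    constructor <;> linarith
  · have a1 := key1 m1 m0 (by linarith)
    have a2 := key2 m1 m0 (by linarith)
    simp only [hf0] at a1 a2
    rw [abs_of_nonpos hx0, abs_le]
    constructor <;> linarith

end Pool.Agent.CDk.Par
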