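import Pool.Agent.CDk.CX
import Pool.Agent.CDk.Defs
import Pool.Agent.CDk.FNa

open MeasureTheory Set Filter Topology

namespace Pool.Agent.CDk.Par
variable {P : Par}

private theorem so_pos_int {m k T : ℝ} (hm : 0 ≤ m) (hk : 0 < k) (hT : 0 ≤ T) :
    ∫ t in (0:ℝ)..T, max (m - k * t) 0 ≤ m ^ 2 / (2 * k) := by
  have h0 : 0 ≤ min T (m / k) := le_min hT (div_nonneg hm hk.le)
  have hc : Continuous fun t : ℝ => max (m - k * t) 0 := by fun_prop
  have e1 : ∫ t in (0:ℝ)..(min T (m / k)), max (m - k * t) 0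
      = ∫ t in (0:ℝ)..(min T (m / k)), (m - k * t) := by
    apply intervalIntegral.integral_congr
    intro t ht
    rw [uIcc_of_le h0] at ht
    have h1 : k * t ≤ m := by
      have h2 := ht.2.trans (min_le_right _ _)
      rw [le_div_iff₀ hk] at h2
      linarith
    simp only
    rw [max_eq_left (by linarith)]
  have e2 : ∫ t in (min T (m / k))..T, max (m - k * t) 0 = 0 := by
    rcases le_total T (m / k) with h | h
    · rw [min_eq_left h, intervalIntegral.integral_same]
    · rw [min_eq_right h]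
      have h1 : ∫ t in (m / k)..T, max (m - k * t) 0 = ∫ t in (m / k)..T, (0 : ℝ) := by
        apply intervalIntegral.integral_congr
        intro t ht
        rw [uIcc_of_le h] at ht
        have h2 : m ≤ k * t := by
          have h3 := ht.1
          rw [div_le_iff₀ hk] at h3
          linarith
        simp only
        rw [max_eq_right (by linarith)]
      rw [h1]
      simp
  have e3 : ∫ t in (0:ℝ)..(min T (m / k)), (m - k * t)
      = m * (min T (m / k)) - k * (min T (m / k)) ^ 2 / 2 := by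
    rw [intervalIntegral.integral_sub (Continuous.intervalIntegrable (by fun_prop) _ _)
      (Continuous.intervalIntegrable (by fun_prop) _ _),
      intervalIntegral.integral_const, intervalIntegral.integral_const_mul, integral_id]
    simp only [smul_eq_mul]
    ring
  rw [← intervalIntegral.integral_add_adjacent_intervals (hc.intervalIntegrable 0 (min T (m / k)))
    (hc.intervalIntegrable _ T), e1, e2, e3, add_zero, le_div_iff₀ (by linarith)]
  nlinarith [sq_nonneg (m - k * (min T (m / k)))]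

private theorem so_abs {a b m k Φ : ℝ} {φ A g : ℝ → ℝ} (hab : a ≤ b)
    (hΦ : 0 ≤ Φ) (hg : Continuous g)
    (hgi : ∫ v in a..b, g v ≤ m ^ 2 / (2 * k)) (h1 : ∀ v ∈ Icc a b, |φ v| ≤ Φ)
    (h2 : ∀ v ∈ Icc a b, 0 ≤ A v ∧ A v ≤ g v) :
    |∫ v in a..b, φ v * A v| ≤ Φ * (m ^ 2 / (2 * k)) := by
  have h3 : ‖∫ v in a..b, φ v * A v‖ ≤ ∫ v in a..b, Φ * g v := by
    apply intervalIntegral.norm_integral_le_of_norm_le hab
    · refine Filter.Eventually.of_forall fun v hv => ?_
      have hv' : v ∈ Icc a b := ⟨hv.1.le, hv.2⟩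
      rw [Real.norm_eq_abs, abs_mul, abs_of_nonneg (h2 v hv').1]
      exact mul_le_mul (h1 v hv') (h2 v hv').2 (h2 v hv').1 hΦ
    · exact (continuous_const.mul hg).intervalIntegrable _ _
  rw [Real.norm_eq_abs, intervalIntegral.integral_const_mul] at h3
  exact h3.trans (mul_le_mul_of_nonneg_left hgi hΦ)

private theorem so_w_mono {a b : ℝ} (ha : 0 ≤ a) (hab : a ≤ b) : w a ≤ w b := by
  unfold w
  have h1 : 3 * a ^ 2 ≤ 3 * b ^ 2 := by
    have := pow_le_pow_left₀ ha hab 2
    linarith
  have h2 : min (3 * a ^ 2) 1 ≤ min (3 * b ^ 2) 1 := min_le_min_right _ h1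
  have h3 : max (a - 1.4) 0 ≤ max (b - 1.4) 0 := max_le_max_right _ (by linarith)
  linarith

private theorem so_w_lip {c y : ℝ} (hc : 1.24 ≤ c) (hy : c ≤ y) : w y ≤ w c + 4 * (y - c) := by
  unfold w
  have h1 : min (3 * c ^ 2) 1 = 1 := min_eq_right (by nlinarith)
  have h2 : min (3 * y ^ 2) 1 ≤ 1 := min_le_right _ _
  have h3 : max (y - 1.4) 0 ≤ max (c - 1.4) 0 + (y - c) := by
    apply max_le
    · have := le_max_left (c - 1.4) 0
      linarith
    · have := le_max_right (c - 1.4) 0
      linarith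
  rw [h1]
  linarith

private theorem so_w_c {c : ℝ} (hc : c ≤ 1.565) (hc0 : 0 ≤ c) : w c ≤ 1.66 := by
  have h1 := so_w_mono hc0 hc
  refine h1.trans ?_
  unfold w
  have h2 : min (3 * (1.565 : ℝ) ^ 2) 1 ≤ 1 := min_le_right _ _
  have h3 : max ((1.565 : ℝ) - 1.4) 0 = 0.165 := by
    rw [max_eq_left (by norm_num)]
    norm_num
  rw [h3]
  linarith

private theorem so_w_nonneg (y : ℝ) : 0 ≤ w y := by
  unfold w
  have h1 : 0 ≤ min (3 * y ^ 2) 1 := le_min (by positivity) zero_le_one
  have h2 : 0 ≤ max (y - 1.4) 0 := le_max_right _ _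
  linarith

/-- the error below the crossing -/
private theorem so_A (h : P.Star) {δ e c y : ℝ} {i : ℝ → ℝ} (hδ : 0 ≤ δ) (hδ1 : δ ≤ 0.03)
    (hi : P.Tube δ i) (he : 0 ≤ e) (hc : P.io c = P.q e) (c1 : 1.24 ≤ c) (c2 : c ≤ 1.565)
    (hy : y ≤ c) :
    max (P.q e - i y) 0 - max (P.q e - P.io y) 0 + (i y - P.io y) = max (i y - P.q e) 0 ∧
    (y ≤ c - 0.15 → i y - P.q e ≤ 0) ∧
    (c - 0.15 ≤ y → i y - P.q e ≤ δ * w c - 0.35 * (c - y)) := by
  have hq := cx_q_pos h he
  have h1 : P.io y ≤ P.q e := by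
    rw [← hc]
    exact cx_mono h hy
  refine ⟨?_, ?_, ?_⟩
  · rw [max_eq_left (by linarith : 0 ≤ P.q e - P.io y)]
    rcases le_total (i y) (P.q e) with h2 | h2
    · rw [max_eq_left (by linarith), max_eq_right (by linarith)]
      ring
    · rw [max_eq_right (by linarith), max_eq_left (by linarith)]
      ring
  · intro h2
    rcases le_total y 0 with h3 | h3
    · rw [hi.zero y h3]
      linarith
    · have h4 := abs_le.1 (hi.close y h3 (by linarith))
      have h5 : w y ≤ w c := so_w_mono h3 hy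
      have h6 : P.io y ≤ P.io (c - 0.15) := cx_mono h h2
      obtain ⟨ξ, hξ, -, h7⟩ := cx_mvt h (a := c - 0.15) (b := c) (by linarith)
      have h8 := io_slope2 h (y := ξ) (by linarith)
      have h9 : 0.35 * 0.15 ≤ P.D ξ / P.L * (c - (c - 0.15)) := by
        have h10 : c - (c - 0.15) = 0.15 := by ring
        rw [h10]
        exact mul_le_mul_of_nonneg_right h8 (by norm_num)
      have h11 : δ * w y ≤ 0.03 * 1.66 := by
        refine mul_le_mul hδ1 (h5.trans (so_w_c c2 (by linarith))) (so_w_nonneg _) (by norm_num)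
      rw [hc] at h7
      linarith [h4.2]
  · intro h2
    have h3 : 0 ≤ y := by linarith
    have h4 := abs_le.1 (hi.close y h3 (by linarith))
    have h5 : δ * w y ≤ δ * w c := mul_le_mul_of_nonneg_left (so_w_mono h3 hy) hδ
    have h6 : P.io y + 0.35 * (c - y) ≤ P.q e := by
      rcases hy.eq_or_lt with h7 | h7
      · rw [h7, hc]
        linarith
      · obtain ⟨ξ, hξ, -, h8⟩ := cx_mvt h h7
        have h9 := io_slope2 h (y := ξ) (by linarith)
        have h10 : 0.35 * (c - y) ≤ P.D ξ / P.L * (c - y) :=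
          mul_le_mul_of_nonneg_right h9 (by linarith)
        rw [hc] at h8
        linarith
    linarith [h4.2]

/-- the error above the crossing -/
private theorem so_B (h : P.Star) {δ e c y : ℝ} {i : ℝ → ℝ} (hδ : 0 ≤ δ) (hδ1 : δ ≤ 0.03)
    (hi : P.Tube δ i) (hc : P.io c = P.q e) (c1 : 1.24 ≤ c) (c2 : c ≤ 1.565)
    (hy : c ≤ y) :
    max (P.q e - i y) 0 - max (P.q e - P.io y) 0 = max (P.q e - i y) 0 ∧
    max (P.q e - i y) 0 ≤ max (δ * w c - 0.26 * (y - c)) 0 := by
  have h1 : P.q e ≤ P.io y := by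
    rw [← hc]
    exact cx_mono h hy
  have hsl : ∀ y', c ≤ y' → P.q e + 0.38 * (y' - c) ≤ P.io y' := by
    intro y' hy'
    rcases hy'.eq_or_lt with h7 | h7
    · rw [← h7, hc]
      linarith
    · obtain ⟨ξ, hξ, -, h8⟩ := cx_mvt h h7
      have h9 := (io_slope h (y := ξ) (by linarith)).1
      have h10 : 0.38 * (y' - c) ≤ P.D ξ / P.L * (y' - c) :=
        mul_le_mul_of_nonneg_right h9 (by linarith)
      rw [hc] at h8
      linarith
  refine ⟨?_, ?_⟩
  · rw [max_eq_right (by linarith : P.q e - P.io y ≤ 0), sub_zero]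
  · rcases le_total y 2.2 with h2 | h2
    · apply max_le_max_right
      have h4 := abs_le.1 (hi.close y (by linarith) h2)
      have h5 := so_w_lip c1 hy
      have h6 : δ * w y ≤ δ * (w c + 4 * (y - c)) := mul_le_mul_of_nonneg_left h5 hδ
      have h7 : δ * (y - c) ≤ 0.03 * (y - c) := mul_le_mul_of_nonneg_right hδ1 (by linarith)
      have h8 := hsl y hy
      have h9 : δ * (w c + 4 * (y - c)) = δ * w c + 4 * (δ * (y - c)) := by ring
      linarith [h4.1]
    · have h4 := abs_le.1 (hi.close 2.2 (by norm_num) le_rfl)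
      have h5 : w 2.2 ≤ 4.2 := by
        unfold w
        have h2 : min (3 * (2.2 : ℝ) ^ 2) 1 ≤ 1 := min_le_right _ _
        have h3 : max ((2.2 : ℝ) - 1.4) 0 = 0.8 := by
          rw [max_eq_left (by norm_num)]
          norm_num
        rw [h3]
        linarith
      have h6 : δ * w 2.2 ≤ 0.03 * 4.2 := mul_le_mul hδ1 h5 (so_w_nonneg _) (by norm_num)
      have h7 := hsl 2.2 (by linarith)
      have h8 : i 2.2 ≤ i y := hi.mono h2
      have h9 : P.q e - i y ≤ 0 := by
        have h10 : (0.38 : ℝ) * (2.2 - 1.565) ≤ 0.38 * (2.2 - c) := by linarith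
        linarith [h4.1]
      rw [max_eq_right h9]
      exact le_max_right _ _

/-- first order expansion with quadratic error -/
theorem second_order (h : P.Star) {δ e c Φ₁ Φ₂ : ℝ} {i φ : ℝ → ℝ} (hδ : 0 ≤ δ) (hδ1 : δ ≤ 0.03)
    (hi : P.Tube δ i) (he : 0 ≤ e) (he1 : e ≤ P.e0 + 1.05) (hc : P.io c = P.q e)
    (hφ : Continuous φ) (h1 : ∀ v, c + e ≤ v → v ≤ P.Y → |φ v| ≤ Φ₁)
    (h2 : ∀ v, c + e - 0.15 ≤ v → v ≤ c + e → |φ v| ≤ Φ₂) :
    |(∫ v in (0:ℝ)..P.Y, φ v * (P.gf e i v - P.gf e P.io v))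
      + ∫ y in (0:ℝ)..c, φ (y + e) * (i y - P.io y)| ≤ δ^2 * (w c)^2 * (1.924 * Φ₁ + 1.429 * Φ₂) := by
  obtain ⟨c', hc', c1, c2, c3, -, -⟩ := cross h he he1
  have hcc : c = c' := cross_unique h he hc hc'
  rw [← hcc] at c1 c2 c3
  have hY := (Y_pos h).1
  have hΦ1 : 0 ≤ Φ₁ := (abs_nonneg _).trans (h1 (c + e) le_rfl (by linarith))
  have hΦ2 : 0 ≤ Φ₂ := (abs_nonneg _).trans (h2 (c + e) (by linarith) le_rfl)
  have hic := hi.cont
  have hioc := cx_cont h
  have hg : ∀ j : ℝ → ℝ, Continuous j → Continuous (P.gf e j) := by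
    intro j hj
    unfold gf
    fun_prop
  have hgi := hg i hic
  have hgo := hg P.io hioc
  have hF : Continuous fun v => φ v * (P.gf e i v - P.gf e P.io v) := hφ.mul (hgi.sub hgo)
  have hG : Continuous fun v => φ v * (i (v - e) - P.io (v - e)) := by fun_prop
  -- the second integral
  have e1 : ∫ y in (0:ℝ)..c, φ (y + e) * (i y - P.io y)
      = ∫ v in (0:ℝ)..(c + e), φ v * (i (v - e) - P.io (v - e)) := by
    have s1 : ∫ y in (0:ℝ)..c, φ (y + e) * (i y - P.io y)
        = ∫ v in (0 + e)..(c + e), φ v * (i (v - e) - P.io (v - e)) := by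
      rw [← intervalIntegral.integral_comp_add_right
        (fun v => φ v * (i (v - e) - P.io (v - e))) e]
      apply intervalIntegral.integral_congr
      intro y _
      simp only [add_sub_cancel_right]
    rw [s1, zero_add, ← intervalIntegral.integral_add_adjacent_intervals
      (hG.intervalIntegrable 0 e) (hG.intervalIntegrable e (c + e))]
    have s2 : ∫ v in (0:ℝ)..e, φ v * (i (v - e) - P.io (v - e)) = ∫ v in (0:ℝ)..e, (0 : ℝ) := by
      apply intervalIntegral.integral_congr
      intro v hv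
      rw [uIcc_of_le he] at hv
      simp only
      rw [hi.zero _ (by linarith [hv.2]), cx_zero h (by linarith [hv.2])]
      ring
    rw [s2]
    simp
  -- splitting
  have e2 : (∫ v in (0:ℝ)..P.Y, φ v * (P.gf e i v - P.gf e P.io v))
      + ∫ y in (0:ℝ)..c, φ (y + e) * (i y - P.io y)
      = (∫ v in (0:ℝ)..(c + e), φ v * max (i (v - e) - P.q e) 0)
        + ∫ v in (c + e)..P.Y, φ v * max (P.q e - i (v - e)) 0 := by
    rw [e1, ← intervalIntegral.integral_add_adjacent_intervals
      (hF.intervalIntegrable 0 (c + e)) (hF.intervalIntegrable (c + e) P.Y)]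
    have s1 : (∫ v in (0:ℝ)..(c + e), φ v * (P.gf e i v - P.gf e P.io v))
        + ∫ v in (0:ℝ)..(c + e), φ v * (i (v - e) - P.io (v - e))
        = ∫ v in (0:ℝ)..(c + e), φ v * max (i (v - e) - P.q e) 0 := by
      rw [← intervalIntegral.integral_add (hF.intervalIntegrable _ _) (hG.intervalIntegrable _ _)]
      apply intervalIntegral.integral_congr
      intro v hv
      rw [uIcc_of_le (by linarith)] at hv
      have h3 := (so_A h hδ hδ1 hi he hc c1 c2 (y := v - e) (by linarith [hv.2])).1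
      simp only
      rw [← h3]
      unfold gf
      ring
    have s2 : ∫ v in (c + e)..P.Y, φ v * (P.gf e i v - P.gf e P.io v)
        = ∫ v in (c + e)..P.Y, φ v * max (P.q e - i (v - e)) 0 := by
      apply intervalIntegral.integral_congr
      intro v hv
      rw [uIcc_of_le (by linarith)] at hv
      have h3 := (so_B h hδ hδ1 hi hc c1 c2 (y := v - e) (by linarith [hv.1])).1
      simp only
      rw [← h3]
      rfl
    rw [← s1, ← s2]
    ring
  have hA : Continuous fun v => φ v * max (i (v - e) - P.q e) 0 := by fun_prop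
  -- the part below the crossing
  have e3 : ∫ v in (0:ℝ)..(c + e), φ v * max (i (v - e) - P.q e) 0
      = ∫ v in (c + e - 0.15)..(c + e), φ v * max (i (v - e) - P.q e) 0 := by
    rw [← intervalIntegral.integral_add_adjacent_intervals
      (hA.intervalIntegrable 0 (c + e - 0.15)) (hA.intervalIntegrable _ (c + e))]
    have s1 : ∫ v in (0:ℝ)..(c + e - 0.15), φ v * max (i (v - e) - P.q e) 0
        = ∫ v in (0:ℝ)..(c + e - 0.15), (0 : ℝ) := by
      apply intervalIntegral.integral_congr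
      intro v hv
      rw [uIcc_of_le (by linarith)] at hv
      have h3 := (so_A h hδ hδ1 hi he hc c1 c2 (y := v - e) (by linarith [hv.2])).2.1
        (by linarith [hv.2])
      simp only
      rw [max_eq_right h3, mul_zero]
    rw [s1]
    simp
  have hm : 0 ≤ δ * w c := mul_nonneg hδ (so_w_nonneg _)
  have b1 : |∫ v in (c + e - 0.15)..(c + e), φ v * max (i (v - e) - P.q e) 0|
      ≤ Φ₂ * ((δ * w c) ^ 2 / (2 * 0.35)) := by
    refine so_abs (g := fun v => max (δ * w c - 0.35 * (c + e - v)) 0) (by linarith) hΦ2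
      (by fun_prop) ?_ (fun v hv => h2 v hv.1 hv.2) ?_
    · have s1 : ∫ v in (c + e - 0.15)..(c + e), max (δ * w c - 0.35 * (c + e - v)) 0
          = ∫ t in (0:ℝ)..0.15, max (δ * w c - 0.35 * t) 0 := by
        rw [intervalIntegral.integral_comp_sub_left (fun t => max (δ * w c - 0.35 * t) 0) (c + e)]
        congr 1
        · ring
        · ring
      rw [s1]
      exact so_pos_int hm (by norm_num) (by norm_num)
    · intro v hv
      have h3 := (so_A h hδ hδ1 hi he hc c1 c2 (y := v - e) (by linarith [hv.2])).2.2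
        (by linarith [hv.1])
      refine ⟨le_max_right _ _, max_le_max_right _ ?_⟩
      linarith
  have b2 : |∫ v in (c + e)..P.Y, φ v * max (P.q e - i (v - e)) 0|
      ≤ Φ₁ * ((δ * w c) ^ 2 / (2 * 0.26)) := by
    refine so_abs (g := fun v => max (δ * w c - 0.26 * (v - (c + e))) 0) (by linarith) hΦ1
      (by fun_prop) ?_ (fun v hv => h1 v hv.1 hv.2) ?_
    · have s1 : ∫ v in (c + e)..P.Y, max (δ * w c - 0.26 * (v - (c + e))) 0
          = ∫ t in (0:ℝ)..(P.Y - (c + e)), max (δ * w c - 0.26 * t) 0 := by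
        rw [intervalIntegral.integral_comp_sub_right (fun t => max (δ * w c - 0.26 * t) 0) (c + e)]
        congr 1
        ring
      rw [s1]
      exact so_pos_int hm (by norm_num) (by linarith)
    · intro v hv
      have h3 := (so_B h hδ hδ1 hi hc c1 c2 (y := v - e) (by linarith [hv.1])).2
      refine ⟨le_max_right _ _, h3.trans (max_le_max_right _ ?_)⟩
      linarith
  rw [e2, e3]
  refine (abs_add_le _ _).trans ((add_le_add b1 b2).trans ?_)
  have hsq : 0 ≤ (δ * w c) ^ 2 := sq_nonneg _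
  have t1 : (δ * w c) ^ 2 / (2 * 0.35) ≤ 1.429 * (δ * w c) ^ 2 := by
    rw [div_le_iff₀ (by norm_num)]
    linarith
  have t2 : (δ * w c) ^ 2 / (2 * 0.26) ≤ 1.924 * (δ * w c) ^ 2 := by
    rw [div_le_iff₀ (by norm_num)]
    linarith
  have t3 := mul_le_mul_of_nonneg_left t1 hΦ2
  have t4 := mul_le_mul_of_nonneg_left t2 hΦ1
  have t5 : δ^2 * (w c)^2 * (1.924 * Φ₁ + 1.429 * Φ₂)
      = Φ₂ * (1.429 * (δ * w c) ^ 2) + Φ₁ * (1.924 * (δ * w c) ^ 2) := by ring
  rw [t5]
  exact add_le_add t3 t4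

end Pool.Agent.CDk.Par
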