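import Pool.Agent.CDk.T1a
import Pool.Agent.CDk.FNb

open MeasureTheory Set Filter Topology



namespace Pool.Agent.CDk.Par
variable {P : Par}

end Pool.Agent.CDk.Par

namespace Pool.Agent.CDk.Par
variable {P : Par}

/-- the integral with fixed ends -/
noncomputable def Sf (P : Par) (e b r : ℝ) : ℝ := ∫ t in e..b, |P.ker r t| * w (t - e)

theorem Sf_cont (P : Par) (e r : ℝ) : Continuous fun t => |P.ker r t| * w (t - e) :=
  (ker_cont P r).abs.mul (w_cont.comp (continuous_id.sub continuous_const))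

/-! ### one cell -/

theorem cell_bd (h : P.Star) {r k1 k2 e v : ℕ} {t : ℝ} (hk1 : (k1 : ℝ) ≤ P.io (r / 10 ^ 6) * 10 ^ 6)
    (hk2 : P.io (r / 10 ^ 6) * 10 ^ 6 ≤ k2) (hev : e ≤ v) (hv : v + 2500 ≤ 2543961)
    (h1 : (v : ℝ) / 10 ^ 6 ≤ t) (h2 : t ≤ ((v + 2500 : ℕ) : ℝ) / 10 ^ 6) :
    |P.ker (r / 10 ^ 6) t| * w (t - e / 10 ^ 6) ≤ (T1c.cell r k1 k2 e v : ℝ) / (2 * 10 ^ 30) := by
  obtain ⟨hY1, hY2, -, -⟩ := Y_pos h
  rw [div_le_iff₀ (by positivity)] at h1
  rw [le_div_iff₀ (by positivity)] at h2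
  set R : ℝ := (r : ℝ) / 10 ^ 6 with hR
  have hRr : R * 10 ^ 6 = r := by rw [hR]; ring
  have hio : 0 ≤ P.io R := t1_io_nonneg h (by rw [hR]; positivity)
  have hvv : ((v + 2500 : ℕ) : ℝ) = v + 2500 := by push_cast; ring
  have hv' : (v : ℝ) + 2500 ≤ 2543961 := by rw [← hvv]; exact_mod_cast hv
  rw [hvv] at h2
  obtain ⟨dm, hdm⟩ : ∃ d, d + (v + 2500) = 2543961 := ⟨2543961 - (v + 2500), by omega⟩
  obtain ⟨dp, hdp⟩ : ∃ d, d + v = 2543965 := ⟨2543965 - v, by omega⟩
  obtain ⟨ap, hap⟩ : ∃ d, d = r - v := ⟨_, rfl⟩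
  obtain ⟨am, ham⟩ : ∃ d, d = r - (v + 2500) := ⟨_, rfl⟩
  obtain ⟨m, hm⟩ : ∃ d, d + e = v + 2500 := ⟨v + 2500 - e, by omega⟩
  have hdm' : (dm : ℝ) + (v + 2500) = 2543961 := by exact_mod_cast hdm
  have hdp' : (dp : ℝ) + v = 2543965 := by exact_mod_cast hdp
  have hm' : (m : ℝ) + e = v + 2500 := by exact_mod_cast hm
  have a1 : max (R - t) 0 * 10 ^ 6 ≤ (ap : ℝ) := by
    have h3 : (r : ℝ) ≤ (ap : ℝ) + v := by
      have : r ≤ ap + v := by omega
      exact_mod_cast this
    have h4 : (0 : ℝ) ≤ (ap : ℝ) := Nat.cast_nonneg _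
    rcases le_total (R - t) 0 with h5 | h5
    · rw [max_eq_right h5]; linarith only []
    · rw [max_eq_left h5]; linarith only [h1, hR, h3]
  have a2 : (am : ℝ) ≤ max (R - t) 0 * 10 ^ 6 := by
    rcases le_total r (v + 2500) with h5 | h5
    · have h6 : am = 0 := by omega
      rw [h6]
      have : 0 ≤ max (R - t) 0 := le_max_right _ _
      simp
    · have h6 : (am : ℝ) + (v + 2500) = r := by
        have h7 : am + (v + 2500) = r := by rw [ham]; exact Nat.sub_add_cancel h5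
        have h8 : ((am + (v + 2500) : ℕ) : ℝ) = (r : ℝ) := by rw [h7]
        rw [Nat.cast_add, hvv] at h8
        exact h8
      have : R - t ≤ max (R - t) 0 := le_max_left _ _
      linarith only [h2, hR, h6, this]
  have hev' : (e : ℝ) ≤ v := by exact_mod_cast hev
  have hee : (e : ℝ) / 10 ^ 6 * 10 ^ 6 = e := by ring
  have hte : 0 ≤ t - (e : ℝ) / 10 ^ 6 := by
    by_contra hcon
    push Not at hcon
    have : (t - (e : ℝ) / 10 ^ 6) * 10 ^ 6 < 0 := mul_neg_of_neg_of_pos hcon (by positivity)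
    rw [sub_mul, hee] at this
    linarith only [h1, hev', hcon]
  have hw : w (t - e / 10 ^ 6) * 10 ^ 12 ≤ ((T1c.W m : ℕ) : ℝ) := by
    refine W_cast hte ?_
    rw [sub_mul, hee]
    linarith only [h2, hm']
  have hfin := cell_core (ker := P.ker R t) (mx := max (R - t) 0) (yt := P.Y - t) (io := P.io R)
    (dm := dm) (dp := dp)
    hio (by linarith only [h2, hY1, hv']) (w_nonneg (t - e / 10 ^ 6)) rfl a1 a2 (by linarith only [h2, hY1, hdm']) (by linarith only [h1, hY2, hdp']) hk1 hk2 hw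
  have e1 : T1c.cell r k1 k2 e v =
      max (2 * 10 ^ 12 * ap - k1 * dm ^ 2) (k2 * dp ^ 2 - 2 * 10 ^ 12 * am) * T1c.W m := by
    have f1 : 2543961 - (v + 2500) = dm := by omega
    have f2 : 2543965 - v = dp := by omega
    have f3 : v + 2500 - e = m := by omega
    unfold T1c.cell
    rw [f1, f2, f3, hap, ham]
  rw [e1]
  exact hfin

theorem cells_bd (h : P.Star) {r k1 k2 e : ℕ} (hk1 : (k1 : ℝ) ≤ P.io (r / 10 ^ 6) * 10 ^ 6)
    (hk2 : P.io (r / 10 ^ 6) * 10 ^ 6 ≤ k2) : ∀ (n v : ℕ), e ≤ v → v + 2500 * n ≤ 2543961 →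
    ∫ t in ((v : ℝ) / 10 ^ 6)..(((v + 2500 * n : ℕ) : ℝ) / 10 ^ 6),
      |P.ker (r / 10 ^ 6) t| * w (t - e / 10 ^ 6) ≤
      (T1c.cells r k1 k2 e n v : ℝ) * (2500 / (2 * 10 ^ 36)) := by
  intro n
  induction n with
  | zero =>
    intro v _ _
    simp [T1c.cells]
  | succ n ih =>
    intro v hev hv
    have hc := Sf_cont P (e / 10 ^ 6) (r / 10 ^ 6)
    have h1 := ih (v + 2500) (by omega) (by omega)
    have h2 : v + 2500 + 2500 * n = v + 2500 * (n + 1) := by ring
    rw [h2] at h1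
    rw [← intervalIntegral.integral_add_adjacent_intervals
      (hc.intervalIntegrable ((v : ℝ) / 10 ^ 6) (((v + 2500 : ℕ) : ℝ) / 10 ^ 6))
      (hc.intervalIntegrable _ _)]
    have h3 : ∫ t in ((v : ℝ) / 10 ^ 6)..(((v + 2500 : ℕ) : ℝ) / 10 ^ 6),
        |P.ker (r / 10 ^ 6) t| * w (t - e / 10 ^ 6) ≤
        (T1c.cell r k1 k2 e v : ℝ) * (2500 / (2 * 10 ^ 36)) := by
      have hle : (v : ℝ) / 10 ^ 6 ≤ ((v + 2500 : ℕ) : ℝ) / 10 ^ 6 := by
        push_cast
        linarith only []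
      have h4 := intervalIntegral.integral_mono_on hle (hc.intervalIntegrable _ _)
        (continuous_const.intervalIntegrable (μ := volume) _ _)
        (g := fun _ => (T1c.cell r k1 k2 e v : ℝ) / (2 * 10 ^ 30))
        (fun t ht => cell_bd h hk1 hk2 hev (by linarith only [Nat.zero_le n, hv]) ht.1 ht.2)
      refine h4.trans (le_of_eq ?_)
      rw [intervalIntegral.integral_const, smul_eq_mul]
      push_cast
      ring
    have h5 : (T1c.cells r k1 k2 e (n + 1) v : ℝ) =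
        (T1c.cell r k1 k2 e v : ℝ) + (T1c.cells r k1 k2 e n (v + 2500) : ℝ) := by
      show ((T1c.cell r k1 k2 e v + T1c.cells r k1 k2 e n (v + 2500) : ℕ) : ℝ) = _
      push_cast
      ring
    rw [h5, add_mul]
    exact add_le_add h3 h1

theorem Sf_num (h : P.Star) {r k1 k2 e n N : ℕ} (hk1 : (k1 : ℝ) ≤ P.io (r / 10 ^ 6) * 10 ^ 6)
    (hk2 : P.io (r / 10 ^ 6) * 10 ^ 6 ≤ k2) (hn : e + 2500 * n ≤ 2543961)
    (hN : T1c.cells r k1 k2 e n e ≤ N * 10 ^ 30) :
    P.Sf (e / 10 ^ 6) (((e + 2500 * n : ℕ) : ℝ) / 10 ^ 6) (r / 10 ^ 6) ≤ N * 0.00125 := by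
  have h1 := cells_bd h hk1 hk2 n e le_rfl hn
  have h2 : (T1c.cells r k1 k2 e n e : ℝ) ≤ N * 10 ^ 30 := by exact_mod_cast hN
  unfold Sf
  refine h1.trans ?_
  have h3 : (T1c.cells r k1 k2 e n e : ℝ) * (2500 / (2 * 10 ^ 36)) ≤
      (N * 10 ^ 30) * (2500 / (2 * 10 ^ 36)) := mul_le_mul_of_nonneg_right h2 (by positivity)
  refine h3.trans (le_of_eq ?_)
  ring

/-! ### interpolation in `r` -/

theorem Sf_chord (h : P.Star) {e b r1 r2 l : ℝ} (he : 0 ≤ e) (heb : e ≤ b) (hb : b - e ≤ 1.5625)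
    (hbY : b ≤ P.Y) (her : e ≤ r1) (hr : r1 ≤ r2) (hl0 : 0 ≤ l) (hl1 : l ≤ 1) :
    P.Sf e b (l * r1 + (1 - l) * r2) ≤ l * P.Sf e b r1 + (1 - l) * P.Sf e b r2 +
      0.42 * (r2 - r1) ^ 2 := by
  obtain ⟨hY1, hY2, hL1, hL2⟩ := Y_pos h
  have hL := cx_L_pos h
  set κ : ℝ := l * (1 - l) * (r2 - r1) ^ 2 / (2 * P.L) with hκ
  have hll : 0 ≤ l * (1 - l) := mul_nonneg hl0 (by linarith only [hl1])
  have hll4 : l * (1 - l) ≤ 1 / 4 := by nlinarith only [sq_nonneg (l - 1 / 2)]
  have hκ0 : 0 ≤ κ := by rw [hκ]; positivity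
  -- pointwise
  have hpt : ∀ t ∈ Icc e b, |P.ker (l * r1 + (1 - l) * r2) t| * w (t - e) ≤
      l * (|P.ker r1 t| * w (t - e)) + (1 - l) * (|P.ker r2 t| * w (t - e)) +
      1.65 * ((l * max (r1 - t) 0 + (1 - l) * max (r2 - t) 0 -
        max (l * r1 + (1 - l) * r2 - t) 0) + κ * ((P.Y - t) ^ 2 / 2)) := by
    intro t ht
    have h1 := ker_chord h (r1 := r1) (r2 := r2) (t := t) hl0 hl1
    rw [← hκ] at h1
    have h2 : w (t - e) ≤ 1.65 := by
      have h3 : w (t - e) ≤ w 1.5625 := w_mono (by linarith only [ht.1, ht]) (by linarith only [ht.2, hb, ht])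
      have h4 : w 1.5625 = 1.65 := by
        unfold w
        rw [min_eq_right (by norm_num), max_eq_left (by norm_num)]
        norm_num
      linarith only [h3, h4]
    have b1 := pos_chord (r1 - t) (r2 - t) l hl0 hl1
    have b2 : l * (r1 - t) + (1 - l) * (r2 - t) = l * r1 + (1 - l) * r2 - t := by ring
    rw [b2] at b1
    have h5 : 0 ≤ (l * max (r1 - t) 0 + (1 - l) * max (r2 - t) 0 -
        max (l * r1 + (1 - l) * r2 - t) 0) + κ * ((P.Y - t) ^ 2 / 2) := by
      have : 0 ≤ κ * ((P.Y - t) ^ 2 / 2) := by positivity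
      linarith only [b1, this]
    have h6 := mul_le_mul_of_nonneg_right h1 (w_nonneg (t - e))
    have h7 := mul_le_mul_of_nonneg_right h2 h5
    nlinarith only [h6, h7]
  have k1 := Sf_cont P e r1
  have k2 := Sf_cont P e r2
  have k3 := Sf_cont P e (l * r1 + (1 - l) * r2)
  have k4 : Continuous fun t : ℝ => l * max (r1 - t) 0 := by fun_prop
  have k5 : Continuous fun t : ℝ => (1 - l) * max (r2 - t) 0 := by fun_prop
  have k6 : Continuous fun t : ℝ => max (l * r1 + (1 - l) * r2 - t) 0 := by fun_prop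
  have k7 : Continuous fun t : ℝ => κ * ((P.Y - t) ^ 2 / 2) := by fun_prop
  have i1 : Continuous fun t => l * (|P.ker r1 t| * w (t - e)) := continuous_const.mul k1
  have i2 : Continuous fun t => (1 - l) * (|P.ker r2 t| * w (t - e)) := continuous_const.mul k2
  have i3 : Continuous fun t : ℝ => 1.65 * ((l * max (r1 - t) 0 + (1 - l) * max (r2 - t) 0 -
        max (l * r1 + (1 - l) * r2 - t) 0) + κ * ((P.Y - t) ^ 2 / 2)) := by fun_prop
  have h1 := intervalIntegral.integral_mono_on heb (k3.intervalIntegrable (μ := volume) _ _)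
    (((i1.add i2).add i3).intervalIntegrable _ _) hpt
  unfold Sf
  refine h1.trans ?_
  have h2 : ∫ t in e..b, (l * (|P.ker r1 t| * w (t - e)) + (1 - l) * (|P.ker r2 t| * w (t - e)) +
      1.65 * ((l * max (r1 - t) 0 + (1 - l) * max (r2 - t) 0 -
        max (l * r1 + (1 - l) * r2 - t) 0) + κ * ((P.Y - t) ^ 2 / 2))) =
      l * (∫ t in e..b, |P.ker r1 t| * w (t - e)) + (1 - l) * (∫ t in e..b, |P.ker r2 t| * w (t - e)) +
      1.65 * ((l * (∫ t in e..b, max (r1 - t) 0) + (1 - l) * (∫ t in e..b, max (r2 - t) 0) -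
        (∫ t in e..b, max (l * r1 + (1 - l) * r2 - t) 0)) + κ * (∫ t in e..b, (P.Y - t) ^ 2 / 2)) := by
    have i12 : Continuous fun t => l * (|P.ker r1 t| * w (t - e)) +
        (1 - l) * (|P.ker r2 t| * w (t - e)) := i1.add i2
    have k45 : Continuous fun t : ℝ => l * max (r1 - t) 0 + (1 - l) * max (r2 - t) 0 := k4.add k5
    have k456 : Continuous fun t : ℝ => l * max (r1 - t) 0 + (1 - l) * max (r2 - t) 0 -
        max (l * r1 + (1 - l) * r2 - t) 0 := k45.sub k6
    rw [intervalIntegral.integral_add (i12.intervalIntegrable _ _) (i3.intervalIntegrable _ _),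
      intervalIntegral.integral_add (i1.intervalIntegrable _ _) (i2.intervalIntegrable _ _),
      intervalIntegral.integral_const_mul, intervalIntegral.integral_const_mul,
      intervalIntegral.integral_const_mul,
      intervalIntegral.integral_add (k456.intervalIntegrable _ _) (k7.intervalIntegrable _ _),
      intervalIntegral.integral_sub (k45.intervalIntegrable _ _) (k6.intervalIntegrable _ _),
      intervalIntegral.integral_add (k4.intervalIntegrable _ _) (k5.intervalIntegrable _ _),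
      intervalIntegral.integral_const_mul, intervalIntegral.integral_const_mul,
      intervalIntegral.integral_const_mul]
  refine (le_of_eq h2).trans ?_
  rw [pos_int, pos_int, pos_int, sq_int]
  -- the values
  have hrr : e ≤ l * r1 + (1 - l) * r2 := by nlinarith only [her, hr, hl1]
  rw [max_eq_left (by linarith only [her] : 0 ≤ r1 - e), max_eq_left (by linarith only [her, hr] : 0 ≤ r2 - e),
    max_eq_left (by linarith only [hrr] : 0 ≤ l * r1 + (1 - l) * r2 - e)]
  have hΦ : (max (l * r1 + (1 - l) * r2 - b) 0) ^ 2 ≤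
      l * (max (r1 - b) 0) ^ 2 + (1 - l) * (max (r2 - b) 0) ^ 2 := by
    have b1 := pos_chord (r1 - b) (r2 - b) l hl0 hl1
    have b2 : l * (r1 - b) + (1 - l) * (r2 - b) = l * r1 + (1 - l) * r2 - b := by ring
    rw [b2] at b1
    have b3 : (max (l * r1 + (1 - l) * r2 - b) 0) ^ 2 ≤
        (l * max (r1 - b) 0 + (1 - l) * max (r2 - b) 0) ^ 2 :=
      pow_le_pow_left₀ (le_max_right _ _) b1 2
    have b4 : (l * max (r1 - b) 0 + (1 - l) * max (r2 - b) 0) ^ 2 =
        l * (max (r1 - b) 0) ^ 2 + (1 - l) * (max (r2 - b) 0) ^ 2 -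
        l * (1 - l) * (max (r1 - b) 0 - max (r2 - b) 0) ^ 2 := by ring
    have b5 := mul_nonneg hll (sq_nonneg (max (r1 - b) 0 - max (r2 - b) 0))
    linarith only [b3, b5]
  have hY3 : (P.Y - e) ^ 3 / 6 - (P.Y - b) ^ 3 / 6 ≤ 2.745 := by
    have a1 : (P.Y - e) ^ 3 ≤ 2.543965 ^ 3 := pow_le_pow_left₀ (by linarith only [heb, hbY]) (by linarith only [he, hY2]) 3
    have a2 : 0 ≤ (P.Y - b) ^ 3 := pow_nonneg (by linarith only [hbY]) 3
    norm_num at a1 ⊢
    linarith only [hL1, hL2, a2, a1]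
  have hκ2 : κ * 2.745 ≤ 0.129 * (r2 - r1) ^ 2 := by
    rw [hκ]
    rw [div_mul_eq_mul_div, div_le_iff₀ (by positivity)]
    have h9 : l * (1 - l) * (r2 - r1) ^ 2 ≤ 1 / 4 * (r2 - r1) ^ 2 :=
      mul_le_mul_of_nonneg_right hll4 (sq_nonneg _)
    have h10 : 0.129 * (r2 - r1) ^ 2 * (2 * 2.665779) ≤ 0.129 * (r2 - r1) ^ 2 * (2 * P.L) :=
      mul_le_mul_of_nonneg_left (by linarith only [hL1]) (by positivity)
    have h11 := sq_nonneg (r2 - r1)
    linarith only [h9, h10, h11]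
  have h8 : κ * ((P.Y - e) ^ 3 / 6 - (P.Y - b) ^ 3 / 6) ≤ κ * 2.745 :=
    mul_le_mul_of_nonneg_left hY3 hκ0
  have h9 : l * (r1 - e) ^ 2 / 2 + (1 - l) * (r2 - e) ^ 2 / 2 -
      (l * r1 + (1 - l) * r2 - e) ^ 2 / 2 = l * (1 - l) * (r2 - r1) ^ 2 / 2 := by ring
  have h10 : l * (1 - l) * (r2 - r1) ^ 2 ≤ 1 / 4 * (r2 - r1) ^ 2 :=
    mul_le_mul_of_nonneg_right hll4 (sq_nonneg _)
  have h11 := sq_nonneg (r2 - r1)
  set A : ℝ := ∫ t in e..b, |P.ker r1 t| * w (t - e)
  set B : ℝ := ∫ t in e..b, |P.ker r2 t| * w (t - e)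
  set D1 : ℝ := (max (r1 - b) 0) ^ 2
  set D2 : ℝ := (max (r2 - b) 0) ^ 2
  set D3 : ℝ := (max (l * r1 + (1 - l) * r2 - b) 0) ^ 2
  have h12 : l * ((r1 - e) ^ 2 / 2 - D1 / 2) + (1 - l) * ((r2 - e) ^ 2 / 2 - D2 / 2) -
      ((l * r1 + (1 - l) * r2 - e) ^ 2 / 2 - D3 / 2) =
      l * (1 - l) * (r2 - r1) ^ 2 / 2 - (l * D1 + (1 - l) * D2 - D3) / 2 := by
    rw [← h9]
    ring
  rw [h12]
  linarith only [hκ0, hκ2, h8, h10, hΦ]

end Pool.Agent.CDk.Par

namespace Pool.Agent.CDk.Par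
variable {P : Par}

/-! ### enclosures of `ι` at the grid points -/

/-! ### one interval -/

theorem Sint (h : P.Star) {e b r1 r2 r s1 s2 B ω1 ω2 : ℝ} (he : 0 ≤ e) (heb : e ≤ b)
    (hb : b - e ≤ 1.5625) (hbY : b ≤ P.Y) (her : e ≤ r1) (h12 : r1 < r2) (hr1 : r1 ≤ r) (hr2 : r ≤ r2)
    (h1 : P.Sf e b r1 ≤ s1) (h2 : P.Sf e b r2 ≤ s2) (c1 : s1 + 0.42 * (r2 - r1) ^ 2 ≤ B * ω1)
    (c2 : s2 + 0.42 * (r2 - r1) ^ 2 ≤ B * ω2) (hB : 0 ≤ B)
    (hw : ω1 * (r2 - r) + ω2 * (r - r1) ≤ w r * (r2 - r1)) : P.Sf e b r ≤ B * w r := by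
  have hd : 0 < r2 - r1 := by linarith only [h12]
  obtain ⟨l, hl⟩ : ∃ l, l = (r2 - r) / (r2 - r1) := ⟨_, rfl⟩
  have hl' : l * (r2 - r1) = r2 - r := by rw [hl]; field_simp
  have hl0 : 0 ≤ l := by rw [hl]; exact div_nonneg (by linarith only [hr2]) hd.le
  have hl1 : l ≤ 1 := by rw [hl, div_le_one hd]; linarith only [hr1]
  have hr : l * r1 + (1 - l) * r2 = r := by linarith only [hl']
  have h3 := Sf_chord h he heb hb hbY her h12.le hl0 hl1
  rw [hr] at h3
  have h4 : l * P.Sf e b r1 ≤ l * s1 := mul_le_mul_of_nonneg_left h1 hl0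
  have h5 : (1 - l) * P.Sf e b r2 ≤ (1 - l) * s2 := mul_le_mul_of_nonneg_left h2 (by linarith only [hl1])
  have h6 : l * s1 + (1 - l) * s2 + 0.42 * (r2 - r1) ^ 2 ≤ B * (l * ω1 + (1 - l) * ω2) := by
    have a1 := mul_le_mul_of_nonneg_left c1 hl0
    have a2 := mul_le_mul_of_nonneg_left c2 (by linarith only [hl1] : 0 ≤ 1 - l)
    linarith only [a1, a2]
  have h7 : l * ω1 + (1 - l) * ω2 ≤ w r := by
    have h8 : (l * ω1 + (1 - l) * ω2) * (r2 - r1) ≤ w r * (r2 - r1) := by
      have : (l * ω1 + (1 - l) * ω2) * (r2 - r1) = ω1 * (l * (r2 - r1)) +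
        ω2 * ((r2 - r1) - l * (r2 - r1)) := by ring
      rw [this, hl']
      linarith only [hw]
    exact le_of_mul_le_mul_right h8 hd
  have h8 := mul_le_mul_of_nonneg_left h7 hB
  linarith only [h3, h4, h5, h6, h8]

theorem hw_one {r r1 r2 : ℝ} (hr : 0.5774 ≤ r) (h12 : r1 < r2) :
    1 * (r2 - r) + 1 * (r - r1) ≤ w r * (r2 - r1) := by
  have h1 := mul_le_mul_of_nonneg_right (w_ge_one hr) (by linarith only [h12] : 0 ≤ r2 - r1)
  linarith

theorem hw_lin {r r1 r2 ω1 ω2 : ℝ} (hr : 0.5774 ≤ r) (h12 : r1 < r2) (h1 : ω1 = 1 + 4 * (r1 - 1.4))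
    (h2 : ω2 = 1 + 4 * (r2 - 1.4)) : ω1 * (r2 - r) + ω2 * (r - r1) ≤ w r * (r2 - r1) := by
  have h3 := mul_le_mul_of_nonneg_right (w_ge_lin hr) (by linarith only [h12] : 0 ≤ r2 - r1)
  have h4 : ω1 * (r2 - r) + ω2 * (r - r1) = (1 + 4 * (r - 1.4)) * (r2 - r1) := by
    rw [h1, h2]; ring
  linarith only [h3, h4]

theorem Sall (h : P.Star) {e b B r : ℝ} (he : 0 ≤ e) (heb : e ≤ b)
    (hb : b - e ≤ 1.5625) (hbY : b ≤ P.Y) (her : e ≤ 0.57) (hB : 0 ≤ B)
    (s0 : P.Sf e b 0.57 ≤ B - 0.0071) (s1 : P.Sf e b 0.7 ≤ B - 0.0071)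
    (s2 : P.Sf e b 0.8 ≤ B - 0.0042) (s3 : P.Sf e b 0.9 ≤ B - 0.0042)
    (s4 : P.Sf e b 1 ≤ B - 0.0042) (s5 : P.Sf e b 1.1 ≤ B - 0.0042)
    (s6 : P.Sf e b 1.2 ≤ B - 0.0042) (s7 : P.Sf e b 1.3 ≤ B - 0.0042)
    (s8 : P.Sf e b 1.4 ≤ B - 0.0042) (s9 : P.Sf e b 1.5 ≤ 1.4 * B - 0.0378)
    (s10 : P.Sf e b 1.8 ≤ 2.6 * B - 0.0672) (s11 : P.Sf e b 2.2 ≤ 4.2 * B - 0.0672)
    (hr : 0.5774 ≤ r) (hr2 : r ≤ 2.2) : P.Sf e b r ≤ B * w r := by
  have hw1 := w_ge_one hr
  have hw2 := w_ge_lin hr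
  rcases le_total r 0.7 with i1 | i1
  · exact Sint h he heb hb hbY her (by norm_num) (by linarith only [hr]) i1 s0 s1 (ω1 := 1) (ω2 := 1)
      (by norm_num; linarith only []) (by norm_num; linarith only []) hB (hw_one hr (by norm_num))
  rcases le_total r 0.8 with i2 | i2
  · exact Sint h he heb hb hbY (by linarith only [her]) (by norm_num) i1 i2 s1 s2 (ω1 := 1) (ω2 := 1)
      (by norm_num; linarith only []) (by norm_num) hB (hw_one hr (by norm_num))
  rcases le_total r 0.9 with i3 | i3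
  · exact Sint h he heb hb hbY (by linarith only [her]) (by norm_num) i2 i3 s2 s3 (ω1 := 1) (ω2 := 1)
      (by norm_num) (by norm_num) hB (hw_one hr (by norm_num))
  rcases le_total r 1 with i4 | i4
  · exact Sint h he heb hb hbY (by linarith only [her]) (by norm_num) i3 i4 s3 s4 (ω1 := 1) (ω2 := 1)
      (by norm_num) (by norm_num) hB (hw_one hr (by norm_num))
  rcases le_total r 1.1 with i5 | i5
  · exact Sint h he heb hb hbY (by linarith only [her]) (by norm_num) i4 i5 s4 s5 (ω1 := 1) (ω2 := 1)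
      (by norm_num) (by norm_num) hB (hw_one hr (by norm_num))
  rcases le_total r 1.2 with i6 | i6
  · exact Sint h he heb hb hbY (by linarith only [her]) (by norm_num) i5 i6 s5 s6 (ω1 := 1) (ω2 := 1)
      (by norm_num) (by norm_num) hB (hw_one hr (by norm_num))
  rcases le_total r 1.3 with i7 | i7
  · exact Sint h he heb hb hbY (by linarith only [her]) (by norm_num) i6 i7 s6 s7 (ω1 := 1) (ω2 := 1)
      (by norm_num) (by norm_num) hB (hw_one hr (by norm_num))
  rcases le_total r 1.4 with i8 | i8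
  · exact Sint h he heb hb hbY (by linarith only [her]) (by norm_num) i7 i8 s7 s8 (ω1 := 1) (ω2 := 1)
      (by norm_num) (by norm_num) hB (hw_one hr (by norm_num))
  rcases le_total r 1.5 with i9 | i9
  · exact Sint h he heb hb hbY (by linarith only [her]) (by norm_num) i8 i9 s8 s9 (ω1 := 1) (ω2 := 1.4)
      (by norm_num) (by norm_num; linarith only []) hB (hw_lin hr (by norm_num) (by norm_num) (by norm_num))
  rcases le_total r 1.8 with i10 | i10
  · exact Sint h he heb hb hbY (by linarith only [her]) (by norm_num) i9 i10 s9 s10 (ω1 := 1.4) (ω2 := 2.6)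
      (by norm_num; linarith only []) (by norm_num; linarith only []) hB (hw_lin hr (by norm_num) (by norm_num) (by norm_num))
  · exact Sint h he heb hb hbY (by linarith only [her]) (by norm_num) i10 hr2 s10 s11 (ω1 := 2.6) (ω2 := 4.2)
      (by norm_num; linarith only []) (by norm_num; linarith only []) hB (hw_lin hr (by norm_num) (by norm_num) (by norm_num))

theorem grid_io (h : P.Star) :
    ((60302 : ℝ) ≤ P.io 0.57 * 10 ^ 6 ∧ P.io 0.57 * 10 ^ 6 ≤ 60317) ∧
    ((90156 : ℝ) ≤ P.io 0.7 * 10 ^ 6 ∧ P.io 0.7 * 10 ^ 6 ≤ 90170) ∧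
    ((116740 : ℝ) ≤ P.io 0.8 * 10 ^ 6 ∧ P.io 0.8 * 10 ^ 6 ≤ 116754) ∧
    ((146225 : ℝ) ≤ P.io 0.9 * 10 ^ 6 ∧ P.io 0.9 * 10 ^ 6 ≤ 146240) ∧
    ((178353 : ℝ) ≤ P.io 1 * 10 ^ 6 ∧ P.io 1 * 10 ^ 6 ≤ 178368) ∧
    ((212836 : ℝ) ≤ P.io 1.1 * 10 ^ 6 ∧ P.io 1.1 * 10 ^ 6 ≤ 212850) ∧
    ((249356 : ℝ) ≤ P.io 1.2 * 10 ^ 6 ∧ P.io 1.2 * 10 ^ 6 ≤ 249371) ∧
    ((287575 : ℝ) ≤ P.io 1.3 * 10 ^ 6 ∧ P.io 1.3 * 10 ^ 6 ≤ 287590) ∧
    ((327130 : ℝ) ≤ P.io 1.4 * 10 ^ 6 ∧ P.io 1.4 * 10 ^ 6 ≤ 327145) ∧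
    ((367644 : ℝ) ≤ P.io 1.5 * 10 ^ 6 ∧ P.io 1.5 * 10 ^ 6 ≤ 367659) ∧
    ((491241 : ℝ) ≤ P.io 1.8 * 10 ^ 6 ∧ P.io 1.8 * 10 ^ 6 ≤ 491263) ∧
    ((656286 : ℝ) ≤ P.io 2.2 * 10 ^ 6 ∧ P.io 2.2 * 10 ^ 6 ≤ 656317) := by
  refine ⟨?_, ?_, ?_, ?_, ?_, ?_, ?_, ?_, ?_, ?_, ?_, ?_⟩
  · exact io_enc h (by norm_num) (by norm_num) (by unfold PI; norm_num) (by unfold PI; norm_num)
      (by norm_num) (by norm_num)
  · exact io_enc h (by norm_num) (by norm_num) (by unfold PI; norm_num) (by unfold PI; norm_num)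
      (by norm_num) (by norm_num)
  · exact io_enc h (by norm_num) (by norm_num) (by unfold PI; norm_num) (by unfold PI; norm_num)
      (by norm_num) (by norm_num)
  · exact io_enc h (by norm_num) (by norm_num) (by unfold PI; norm_num) (by unfold PI; norm_num)
      (by norm_num) (by norm_num)
  · exact io_enc h (by norm_num) (by norm_num) (by unfold PI; norm_num) (by unfold PI; norm_num)
      (by norm_num) (by norm_num)
  · exact io_enc h (by norm_num) (by norm_num) (by unfold PI; norm_num) (by unfold PI; norm_num)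
      (by norm_num) (by norm_num)
  · exact io_enc h (by norm_num) (by norm_num) (by unfold PI; norm_num) (by unfold PI; norm_num)
      (by norm_num) (by norm_num)
  · exact io_enc h (by norm_num) (by norm_num) (by unfold PI; norm_num) (by unfold PI; norm_num)
      (by norm_num) (by norm_num)
  · exact io_enc h (by norm_num) (by norm_num) (by unfold PI; norm_num) (by unfold PI; norm_num)
      (by norm_num) (by norm_num)
  · exact io_enc h (by norm_num) (by norm_num) (by unfold PI; norm_num) (by unfold PI; norm_num)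
      (by norm_num) (by norm_num)
  · exact io_enc2 h (by norm_num) (by unfold PI; norm_num) (by unfold PI; norm_num)
      (by norm_num) (by norm_num)
  · exact io_enc2 h (by norm_num) (by unfold PI; norm_num) (by unfold PI; norm_num)
      (by norm_num) (by norm_num)

/-- one evaluation -/
theorem Sval (h : P.Star) (r k1 k2 e n N : ℕ) {R E Bd s : ℝ} (hR : (r : ℝ) / 10 ^ 6 = R)
    (hE : (e : ℝ) / 10 ^ 6 = E) (hBd : ((e + 2500 * n : ℕ) : ℝ) / 10 ^ 6 = Bd)
    (hk : (k1 : ℝ) ≤ P.io R * 10 ^ 6 ∧ P.io R * 10 ^ 6 ≤ k2) (hn : e + 2500 * n ≤ 2543961)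
    (hN : T1c.cells r k1 k2 e n e ≤ N * 10 ^ 30) (hs : (N : ℝ) * 0.00125 ≤ s) :
    P.Sf E Bd R ≤ s := by
  have h1 := Sf_num h (r := r) (k1 := k1) (k2 := k2) (e := e) (n := n) (N := N)
    (by rw [hR]; exact hk.1) (by rw [hR]; exact hk.2) hn hN
  rw [hR, hE, hBd] at h1
  exact h1.trans hs

theorem S1_bd (h : P.Star) {r : ℝ} (hr : 0.5774 ≤ r) (hr2 : r ≤ 2.2) :
    P.Sf 0 1.56 r ≤ 0.177 * w r := by
  obtain ⟨g0, g1, g2, g3, g4, g5, g6, g7, g8, g9, g10, g11⟩ := grid_io h
  obtain ⟨n0, n1, n2, n3, n4, n5, n6, n7, n8, n9, n10, n11⟩ := T1c.num1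
  have hY := (Y_pos h).1
  refine Sall h le_rfl (by norm_num) (by norm_num) (by linarith only [hY]) (by norm_num) (by norm_num)
    ?_ ?_ ?_ ?_ ?_ ?_ ?_ ?_ ?_ ?_ ?_ ?_ hr hr2
  · exact Sval h _ _ _ _ _ _ (by norm_num) (by norm_num) (by norm_num) (by exact_mod_cast g0)
      (by norm_num) n0 (by norm_num)
  · exact Sval h _ _ _ _ _ _ (by norm_num) (by norm_num) (by norm_num) (by exact_mod_cast g1)
      (by norm_num) n1 (by norm_num)
  · exact Sval h _ _ _ _ _ _ (by norm_num) (by norm_num) (by norm_num) (by exact_mod_cast g2)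
      (by norm_num) n2 (by norm_num)
  · exact Sval h _ _ _ _ _ _ (by norm_num) (by norm_num) (by norm_num) (by exact_mod_cast g3)
      (by norm_num) n3 (by norm_num)
  · exact Sval h _ _ _ _ _ _ (by norm_num) (by norm_num) (by norm_num) (by exact_mod_cast g4)
      (by norm_num) n4 (by norm_num)
  · exact Sval h _ _ _ _ _ _ (by norm_num) (by norm_num) (by norm_num) (by exact_mod_cast g5)
      (by norm_num) n5 (by norm_num)
  · exact Sval h _ _ _ _ _ _ (by norm_num) (by norm_num) (by norm_num) (by exact_mod_cast g6)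
      (by norm_num) n6 (by norm_num)
  · exact Sval h _ _ _ _ _ _ (by norm_num) (by norm_num) (by norm_num) (by exact_mod_cast g7)
      (by norm_num) n7 (by norm_num)
  · exact Sval h _ _ _ _ _ _ (by norm_num) (by norm_num) (by norm_num) (by exact_mod_cast g8)
      (by norm_num) n8 (by norm_num)
  · exact Sval h _ _ _ _ _ _ (by norm_num) (by norm_num) (by norm_num) (by exact_mod_cast g9)
      (by norm_num) n9 (by norm_num)
  · exact Sval h _ _ _ _ _ _ (by norm_num) (by norm_num) (by norm_num) (by exact_mod_cast g10)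
      (by norm_num) n10 (by norm_num)
  · exact Sval h _ _ _ _ _ _ (by norm_num) (by norm_num) (by norm_num) (by exact_mod_cast g11)
      (by norm_num) n11 (by norm_num)

theorem S2_bd (h : P.Star) {r : ℝ} (hr : 0.5774 ≤ r) (hr2 : r ≤ 2.2) :
    P.Sf 0.12 1.64 r ≤ 0.157 * w r := by
  obtain ⟨g0, g1, g2, g3, g4, g5, g6, g7, g8, g9, g10, g11⟩ := grid_io h
  obtain ⟨n0, n1, n2, n3, n4, n5, n6, n7, n8, n9, n10, n11⟩ := T1c.num2
  have hY := (Y_pos h).1
  refine Sall h (by norm_num) (by norm_num) (by norm_num) (by linarith only [hY]) (by norm_num) (by norm_num)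
    ?_ ?_ ?_ ?_ ?_ ?_ ?_ ?_ ?_ ?_ ?_ ?_ hr hr2
  · exact Sval h _ _ _ _ _ _ (by norm_num) (by norm_num) (by norm_num) (by exact_mod_cast g0)
      (by norm_num) n0 (by norm_num)
  · exact Sval h _ _ _ _ _ _ (by norm_num) (by norm_num) (by norm_num) (by exact_mod_cast g1)
      (by norm_num) n1 (by norm_num)
  · exact Sval h _ _ _ _ _ _ (by norm_num) (by norm_num) (by norm_num) (by exact_mod_cast g2)
      (by norm_num) n2 (by norm_num)
  · exact Sval h _ _ _ _ _ _ (by norm_num) (by norm_num) (by norm_num) (by exact_mod_cast g3)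
      (by norm_num) n3 (by norm_num)
  · exact Sval h _ _ _ _ _ _ (by norm_num) (by norm_num) (by norm_num) (by exact_mod_cast g4)
      (by norm_num) n4 (by norm_num)
  · exact Sval h _ _ _ _ _ _ (by norm_num) (by norm_num) (by norm_num) (by exact_mod_cast g5)
      (by norm_num) n5 (by norm_num)
  · exact Sval h _ _ _ _ _ _ (by norm_num) (by norm_num) (by norm_num) (by exact_mod_cast g6)
      (by norm_num) n6 (by norm_num)
  · exact Sval h _ _ _ _ _ _ (by norm_num) (by norm_num) (by norm_num) (by exact_mod_cast g7)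
      (by norm_num) n7 (by norm_num)
  · exact Sval h _ _ _ _ _ _ (by norm_num) (by norm_num) (by norm_num) (by exact_mod_cast g8)
      (by norm_num) n8 (by norm_num)
  · exact Sval h _ _ _ _ _ _ (by norm_num) (by norm_num) (by norm_num) (by exact_mod_cast g9)
      (by norm_num) n9 (by norm_num)
  · exact Sval h _ _ _ _ _ _ (by norm_num) (by norm_num) (by norm_num) (by exact_mod_cast g10)
      (by norm_num) n10 (by norm_num)
  · exact Sval h _ _ _ _ _ _ (by norm_num) (by norm_num) (by norm_num) (by exact_mod_cast g11)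
      (by norm_num) n11 (by norm_num)

theorem S3_bd (h : P.Star) {r : ℝ} (hr : 0.5774 ≤ r) (hr2 : r ≤ 2.2) :
    P.Sf 0.4 1.83 r ≤ 0.14 * w r := by
  obtain ⟨g0, g1, g2, g3, g4, g5, g6, g7, g8, g9, g10, g11⟩ := grid_io h
  obtain ⟨n0, n1, n2, n3, n4, n5, n6, n7, n8, n9, n10, n11⟩ := T1c.num3
  have hY := (Y_pos h).1
  refine Sall h (by norm_num) (by norm_num) (by norm_num) (by linarith only [hY]) (by norm_num) (by norm_num)
    ?_ ?_ ?_ ?_ ?_ ?_ ?_ ?_ ?_ ?_ ?_ ?_ hr hr2
  · exact Sval h _ _ _ _ _ _ (by norm_num) (by norm_num) (by norm_num) (by exact_mod_cast g0)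
      (by norm_num) n0 (by norm_num)
  · exact Sval h _ _ _ _ _ _ (by norm_num) (by norm_num) (by norm_num) (by exact_mod_cast g1)
      (by norm_num) n1 (by norm_num)
  · exact Sval h _ _ _ _ _ _ (by norm_num) (by norm_num) (by norm_num) (by exact_mod_cast g2)
      (by norm_num) n2 (by norm_num)
  · exact Sval h _ _ _ _ _ _ (by norm_num) (by norm_num) (by norm_num) (by exact_mod_cast g3)
      (by norm_num) n3 (by norm_num)
  · exact Sval h _ _ _ _ _ _ (by norm_num) (by norm_num) (by norm_num) (by exact_mod_cast g4)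
      (by norm_num) n4 (by norm_num)
  · exact Sval h _ _ _ _ _ _ (by norm_num) (by norm_num) (by norm_num) (by exact_mod_cast g5)
      (by norm_num) n5 (by norm_num)
  · exact Sval h _ _ _ _ _ _ (by norm_num) (by norm_num) (by norm_num) (by exact_mod_cast g6)
      (by norm_num) n6 (by norm_num)
  · exact Sval h _ _ _ _ _ _ (by norm_num) (by norm_num) (by norm_num) (by exact_mod_cast g7)
      (by norm_num) n7 (by norm_num)
  · exact Sval h _ _ _ _ _ _ (by norm_num) (by norm_num) (by norm_num) (by exact_mod_cast g8)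
      (by norm_num) n8 (by norm_num)
  · exact Sval h _ _ _ _ _ _ (by norm_num) (by norm_num) (by norm_num) (by exact_mod_cast g9)
      (by norm_num) n9 (by norm_num)
  · exact Sval h _ _ _ _ _ _ (by norm_num) (by norm_num) (by norm_num) (by exact_mod_cast g10)
      (by norm_num) n10 (by norm_num)
  · exact Sval h _ _ _ _ _ _ (by norm_num) (by norm_num) (by norm_num) (by exact_mod_cast g11)
      (by norm_num) n11 (by norm_num)

end Pool.Agent.CDk.Par

namespace Pool.Agent.CDk.Par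
variable {P : Par}

/-- upper bound of `c + e` -/
theorem t1_cpe_up (h : P.Star) {e2 e c a : ℝ} (ha : a ≤ 2.4) (he0 : 0 ≤ e) (he : e ≤ e2) (he2 : e2 ≤ a)
    (h0 : P.L ≤ P.I (a - e2) * (P.Y + e2)) (hc : P.io c = P.q e) : c + e ≤ a := by
  by_contra hcon
  push Not at hcon
  have hY := (Y_pos h).1
  have hL := cx_L_pos h
  have h1 : P.io (a - e) < P.io c := cx_strict h (by linarith) (by linarith only [hcon])
  -- the function `I(a - e)(Y + e)` decreases
  have hd : ∀ e : ℝ, HasDerivAt (fun e => P.I (a - e) * (P.Y + e))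
      (-(P.D (a - e)) * (P.Y + e) + P.I (a - e) * 1) e := fun e =>
    ((I_deriv h (a - e)).comp_const_sub a e).mul ((hasDerivAt_id e).const_add P.Y)
  have hanti : AntitoneOn (fun e => P.I (a - e) * (P.Y + e)) (Ici 0) := by
    refine antitoneOn_of_deriv_nonpos (convex_Ici 0)
      (fun e _ => (hd e).continuousAt.continuousWithinAt)
      (fun e _ => (hd e).differentiableAt.differentiableWithinAt) fun e he => ?_
    rw [interior_Ici] at he
    rw [(hd e).deriv]
    have he0 : 0 < e := he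
    rcases le_or_gt (a - e) 0 with h1 | h1
    · rw [I_zero h h1, D_zero h h1]
      simp
    · have h2 := t1_I_le h h1.le
      have h3 := D_nonneg h (a - e)
      nlinarith only [h2, h3, ha, hY, he0]
  have h2 := hanti (mem_Ici.2 he0) (mem_Ici.2 (he0.trans he)) he
  dsimp only at h2
  rw [hc] at h1
  unfold io q at h1
  rw [div_lt_div_iff₀ hL (by linarith only [he0, hY])] at h1
  linarith only [h0, h1, h2]

/-- the step in `e` -/
theorem t1_step (h : P.Star) {e1 e c a2 b ω κ B r : ℝ} (he1 : 0 ≤ e1) (he : e1 ≤ e) (heb : e ≤ b)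
    (hbc : b ≤ c + e) (hca : c + e ≤ a2) (hc0 : 0 ≤ c) (hω : w c ≤ ω) (hκ0 : 0 ≤ κ)
    (hκ : ∀ v, b ≤ v → v ≤ a2 → |P.ker r v| ≤ κ * w r) (hr : 0 < r)
    (hS : P.Sf e1 b r ≤ B * w r) :
    ∫ y in (0:ℝ)..c, |P.ker r (y + e)| * w y ≤ (B + (a2 - b) * κ * ω) * w r := by
  have hw := t1_w_pos hr
  have hω0 : 0 ≤ ω := (w_nonneg c).trans hω
  have h1 : ∫ y in (0:ℝ)..c, |P.ker r (y + e)| * w y = ∫ t in e..(c + e), |P.ker r t| * w (t - e) := by
    have := intervalIntegral.integral_comp_add_right (a := 0) (b := c)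
      (fun t => |P.ker r t| * w (t - e)) e
    rw [zero_add] at this
    rw [← this]
    refine intervalIntegral.integral_congr fun y _ => ?_
    rw [add_sub_cancel_right]
  have hc1 := Sf_cont P e r
  have hc2 := Sf_cont P e1 r
  rw [h1, ← intervalIntegral.integral_add_adjacent_intervals (hc1.intervalIntegrable e b)
    (hc1.intervalIntegrable b (c + e))]
  have h2 : ∫ t in e..b, |P.ker r t| * w (t - e) ≤ P.Sf e1 b r := by
    have h3 : ∫ t in e..b, |P.ker r t| * w (t - e) ≤ ∫ t in e..b, |P.ker r t| * w (t - e1) :=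
      intervalIntegral.integral_mono_on heb (hc1.intervalIntegrable _ _) (hc2.intervalIntegrable _ _)
        fun t ht => mul_le_mul_of_nonneg_left (w_mono (by linarith [ht.1]) (by linarith)) (abs_nonneg _)
    have h4 : 0 ≤ ∫ t in e1..e, |P.ker r t| * w (t - e1) :=
      intervalIntegral.integral_nonneg he fun t _ => mul_nonneg (abs_nonneg _) (w_nonneg _)
    have h5 : P.Sf e1 b r = (∫ t in e1..e, |P.ker r t| * w (t - e1)) +
        ∫ t in e..b, |P.ker r t| * w (t - e1) :=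
      (intervalIntegral.integral_add_adjacent_intervals (hc2.intervalIntegrable e1 e)
        (hc2.intervalIntegrable e b)).symm
    rw [h5]
    linarith
  have h3 : ∫ t in b..(c + e), |P.ker r t| * w (t - e) ≤ (a2 - b) * κ * ω * w r := by
    have h4 := intervalIntegral.integral_mono_on hbc (hc1.intervalIntegrable (μ := volume) _ _)
      (continuous_const.intervalIntegrable (μ := volume) _ _) (g := fun _ => κ * w r * ω)
      (fun t ht => by
        have a1 := hκ t ht.1 (ht.2.trans hca)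
        have a2 : w (t - e) ≤ ω := (w_mono (by linarith [ht.1]) (by linarith [ht.2])).trans hω
        exact mul_le_mul a1 a2 (w_nonneg _) (by positivity))
    refine h4.trans ?_
    rw [intervalIntegral.integral_const, smul_eq_mul]
    have h5 : (c + e - b) * (κ * w r * ω) ≤ (a2 - b) * (κ * w r * ω) :=
      mul_le_mul_of_nonneg_right (by linarith) (by positivity)
    refine h5.trans (le_of_eq ?_)
    ring
  have h4 : (B + (a2 - b) * κ * ω) * w r = B * w r + (a2 - b) * κ * ω * w r := by ring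
  rw [h4]
  linarith

/-- `∫ (Y - y)^2/2 w(y) dy` -/
theorem t1_M (h : P.Star) {c : ℝ} (hc0 : 0 ≤ c) (hc : c ≤ 1.5625) :
    ∫ y in (0:ℝ)..c, (P.Y - y) ^ 2 / 2 * w y ≤ 1.74 := by
  obtain ⟨hY1, hY2, -, -⟩ := Y_pos h
  have hg : Continuous fun y => (P.Y - y) ^ 2 / 2 * w y := by
    have := w_cont
    fun_prop
  have hnn : ∀ y, 0 ≤ (P.Y - y) ^ 2 / 2 * w y := fun y => mul_nonneg (by positivity) (w_nonneg y)
  have h1 : ∫ y in (0:ℝ)..c, (P.Y - y) ^ 2 / 2 * w y ≤ ∫ y in (0:ℝ)..1.5625, (P.Y - y) ^ 2 / 2 * w y := by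
    rw [← intervalIntegral.integral_add_adjacent_intervals (hg.intervalIntegrable 0 c)
      (hg.intervalIntegrable c 1.5625)]
    have : 0 ≤ ∫ y in c..1.5625, (P.Y - y) ^ 2 / 2 * w y :=
      intervalIntegral.integral_nonneg hc fun y _ => hnn y
    linarith only [this]
  refine h1.trans ?_
  rw [← intervalIntegral.integral_add_adjacent_intervals (hg.intervalIntegrable 0 0.5)
      (hg.intervalIntegrable 0.5 1.5625),
    ← intervalIntegral.integral_add_adjacent_intervals (hg.intervalIntegrable 0.5 1.4)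
      (hg.intervalIntegrable 1.4 1.5625)]
  have b1 : ∫ y in (0:ℝ)..0.5, (P.Y - y) ^ 2 / 2 * w y ≤ 0.4045 := by
    have h2 := intervalIntegral.integral_mono_on (by norm_num : (0:ℝ) ≤ 0.5)
      (hg.intervalIntegrable (μ := volume) _ _)
      ((by fun_prop : Continuous fun y : ℝ => 3 * P.Y ^ 2 / 2 * y ^ 2).intervalIntegrable _ _)
      (fun y hy => by
        have a1 := (w_le_sq (y := y) (by linarith only [hy.2, hY1, hY2, hy])).1
        have a2 : (P.Y - y) ^ 2 ≤ P.Y ^ 2 := pow_le_pow_left₀ (by linarith only [hy.2, hY1, hY2, hy]) (by linarith only [hy.1, hy]) 2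
        have a3 : (P.Y - y) ^ 2 / 2 * w y ≤ (P.Y ^ 2 / 2) * (3 * y ^ 2) :=
          mul_le_mul (by linarith only [a2]) a1 (w_nonneg y) (by positivity)
        linarith only [a3])
    refine h2.trans ?_
    rw [intervalIntegral.integral_const_mul, integral_pow]
    have a4 : P.Y ^ 2 ≤ 2.543965 ^ 2 := pow_le_pow_left₀ (by linarith only [hY1, hY2]) hY2.le 2
    norm_num at a4 ⊢
    linarith only [hY1, hY2, a4]
  have b2 : ∫ y in (0.5:ℝ)..1.4, (P.Y - y) ^ 2 / 2 * w y ≤ 1.1738 := by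
    have h2 := intervalIntegral.integral_mono_on (by norm_num : (0.5:ℝ) ≤ 1.4)
      (hg.intervalIntegrable (μ := volume) _ _)
      ((by fun_prop : Continuous fun y : ℝ => (P.Y - y) ^ 2 / 2).intervalIntegrable _ _)
      (fun y hy => by
        have a1 := (w_le_sq (y := y) hy.2).2
        have a3 : (P.Y - y) ^ 2 / 2 * w y ≤ ((P.Y - y) ^ 2 / 2) * 1 :=
          mul_le_mul_of_nonneg_left a1 (by positivity)
        linarith only [a3])
    refine h2.trans ?_
    rw [sq_int]
    have a4 : (P.Y - 0.5) ^ 3 ≤ 2.043965 ^ 3 := pow_le_pow_left₀ (by linarith only [hY1, hY2]) (by linarith only [hY2]) 3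
    have a5 : (1.143961 : ℝ) ^ 3 ≤ (P.Y - 1.4) ^ 3 := pow_le_pow_left₀ (by norm_num) (by linarith only [hY1]) 3
    norm_num at a4 a5 ⊢
    linarith only [hY1, hY2, a4, a5]
  have b3 : ∫ y in (1.4:ℝ)..1.5625, (P.Y - y) ^ 2 / 2 * w y ≤ 0.152 := by
    have h2 := intervalIntegral.integral_mono_on (by norm_num : (1.4:ℝ) ≤ 1.5625)
      (hg.intervalIntegrable (μ := volume) _ _)
      ((by fun_prop : Continuous fun y : ℝ => 1.65 * ((P.Y - y) ^ 2 / 2)).intervalIntegrable _ _)
      (fun y hy => by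
        have a1 : w y ≤ 1.65 := by
          have h3 : w y ≤ w 1.5625 := w_mono (by linarith only [hy.1, hY1, hY2, hy]) hy.2
          have h4 : w 1.5625 = 1.65 := by
            unfold w
            rw [min_eq_right (by norm_num), max_eq_left (by norm_num)]
            norm_num
          linarith only [h3, h4]
        have a3 : (P.Y - y) ^ 2 / 2 * w y ≤ ((P.Y - y) ^ 2 / 2) * 1.65 :=
          mul_le_mul_of_nonneg_left a1 (by positivity)
        linarith only [a3])
    refine h2.trans ?_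
    rw [intervalIntegral.integral_const_mul, sq_int]
    have a4 : (P.Y - 1.4) ^ 3 ≤ 1.143965 ^ 3 := pow_le_pow_left₀ (by linarith only [hY1, hY2]) (by linarith only [hY2]) 3
    have a5 : (0.981461 : ℝ) ^ 3 ≤ (P.Y - 1.5625) ^ 3 := pow_le_pow_left₀ (by norm_num) (by linarith only [hY1]) 3
    norm_num at a4 a5 ⊢
    linarith only [hY1, hY2, a4, a5]
  linarith only [hY1, hY2, b1, b2, b3]

/-- small `r` -/
theorem t1_small (h : P.Star) {e c r : ℝ} (he : 0 ≤ e) (hc0 : 1.24 ≤ c) (hc1 : c ≤ 1.5625)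
    (hce : c + e ≤ P.Y) (hr : 0 < r) (hr1 : r ≤ 0.5774) :
    ∫ y in (0:ℝ)..c, |P.ker r (y + e)| * w y ≤ 0.2 * w r := by
  obtain ⟨hY1, hY2, hL1, hL2⟩ := Y_pos h
  have hL := cx_L_pos h
  have hio0 := t1_io_nonneg h hr.le
  have hwc := w_cont
  have hker := ker_cont P r
  have c1 : Continuous fun y => |P.ker r (y + e)| * w y := by fun_prop
  have c2 : Continuous fun y : ℝ => max (r - y) 0 * w y := by fun_prop
  have c3 : Continuous fun y => P.io r * ((P.Y - y) ^ 2 / 2 * w y) := by fun_prop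
  have h1 := intervalIntegral.integral_mono_on (by linarith only [hc0, hL1, hL2] : (0:ℝ) ≤ c)
    (c1.intervalIntegrable (μ := volume) _ _) ((c2.add c3).intervalIntegrable _ _)
    (fun y hy => by
      have a1 : max (r - (y + e)) 0 ≤ max (r - y) 0 := max_le_max (by linarith only [he]) le_rfl
      have a2 : (P.Y - (y + e)) ^ 2 ≤ (P.Y - y) ^ 2 :=
        pow_le_pow_left₀ (by linarith only [hy.2, hce, hy]) (by linarith only [he]) 2
      have a3 : P.io r * (P.Y - (y + e)) ^ 2 ≤ P.io r * (P.Y - y) ^ 2 :=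
        mul_le_mul_of_nonneg_left a2 hio0
      have a4 : 0 ≤ max (r - (y + e)) 0 := le_max_right _ _
      have a5 : 0 ≤ P.io r * (P.Y - (y + e)) ^ 2 := by positivity
      have a6 : |P.ker r (y + e)| ≤ max (r - y) 0 + P.io r * ((P.Y - y) ^ 2 / 2) := by
        unfold ker
        rw [abs_le]
        constructor <;> linarith
      have a7 := mul_le_mul_of_nonneg_right a6 (w_nonneg y)
      simp only [Pi.add_apply]
      linarith only [a7])
  refine h1.trans ?_
  simp only [Pi.add_apply]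
  rw [intervalIntegral.integral_add (c2.intervalIntegrable _ _) (c3.intervalIntegrable _ _),
    intervalIntegral.integral_const_mul]
  have h2 := t1_M h (by linarith only [hc0, hL1, hL2] : 0 ≤ c) hc1
  have h3 : P.io r * (∫ y in (0:ℝ)..c, (P.Y - y) ^ 2 / 2 * w y) ≤ 0.3265 * r ^ 2 := by
    have a1 : P.io r ≤ r ^ 2 / 2 / 2.665779 := by
      unfold io
      exact div_le_div₀ (by positivity) (t1_I_sq h hr.le) (by norm_num) hL1.le
    have a0 : 0 ≤ ∫ y in (0:ℝ)..c, (P.Y - y) ^ 2 / 2 * w y :=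
      intervalIntegral.integral_nonneg (by linarith only [hc0, hL1, hL2]) fun y _ => mul_nonneg (by positivity) (w_nonneg y)
    have a2 : P.io r * (∫ y in (0:ℝ)..c, (P.Y - y) ^ 2 / 2 * w y) ≤ (r ^ 2 / 2 / 2.665779) * 1.74 :=
      mul_le_mul a1 h2 a0 (by positivity)
    have a3 : 0 ≤ r ^ 2 := sq_nonneg r
    refine a2.trans ?_
    rw [div_div, div_mul_eq_mul_div, div_le_iff₀ (by norm_num)]
    linarith only [a3]
  have h4 : ∫ y in (0:ℝ)..c, max (r - y) 0 * w y ≤ 4 / 9 * r ^ 4 := by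
    rw [← intervalIntegral.integral_add_adjacent_intervals (c2.intervalIntegrable 0 r)
      (c2.intervalIntegrable r c)]
    have a1 : ∫ y in r..c, max (r - y) 0 * w y = ∫ _y in r..c, (0 : ℝ) := by
      refine intervalIntegral.integral_congr fun y hy => ?_
      rw [uIcc_of_le (by linarith only [hc0, hr1, hL1, hL2])] at hy
      rw [max_eq_right (by linarith only [hy.1, hy]), zero_mul]
    have a2 := intervalIntegral.integral_mono_on hr.le (c2.intervalIntegrable (μ := volume) 0 r)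
      (continuous_const.intervalIntegrable (μ := volume) _ _) (g := fun _ => 4 / 9 * r ^ 3)
      (fun y hy => by
        have b1 := (w_le_sq (y := y) (by linarith only [hy.2, hr1, hL1, hL2, hy])).1
        have b2 : max (r - y) 0 = r - y := max_eq_left (by linarith only [hy.2, hy])
        rw [b2]
        have b3 : (r - y) * w y ≤ (r - y) * (3 * y ^ 2) :=
          mul_le_mul_of_nonneg_left b1 (by linarith only [hy.2, hy])
        have b4 : (r - y) * (3 * y ^ 2) ≤ 4 / 9 * r ^ 3 := by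
          have : 4 / 9 * r ^ 3 - (r - y) * (3 * y ^ 2) = 3 * (y - 2 * r / 3) ^ 2 * (y + r / 3) := by ring
          have b5 : 0 ≤ 3 * (y - 2 * r / 3) ^ 2 * (y + r / 3) :=
            mul_nonneg (by positivity) (by linarith only [hy.1, hr, hy])
          linarith only [b5]
        exact b3.trans b4)
    rw [a1, intervalIntegral.integral_zero, add_zero]
    refine a2.trans (le_of_eq ?_)
    rw [intervalIntegral.integral_const, smul_eq_mul]
    ring
  have h5 : r ^ 4 ≤ 0.3334 * r ^ 2 := by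
    have hp : r ^ 2 ≤ 0.5774 ^ 2 := pow_le_pow_left₀ hr.le hr1 2
    have hq : r ^ 4 = r ^ 2 * r ^ 2 := by ring
    nlinarith only [sq_nonneg r, hp, hq]
  have h6 : 2.999 * r ^ 2 ≤ w r := by
    unfold w
    rw [max_eq_right (by linarith only [hr1, hL1, hL2]), mul_zero, add_zero]
    refine le_min (by nlinarith only [sq_nonneg r]) ?_
    have : r ^ 2 ≤ 0.5774 ^ 2 := pow_le_pow_left₀ hr.le hr1 2
    norm_num at this
    linarith only [hL1, hL2, this]
  have h7 := sq_nonneg r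
  linarith only [h3, h4, h5, h6, h7]

theorem T1_bd (h : P.Star) {x c r : ℝ} (hx : -P.e0 ≤ x) (hx1 : x ≤ 0.8) (hc : P.io c = P.q (P.e0 + x))
    (hr : 0 < r) (hr1 : r ≤ 2.2) :
    ∫ y in (0:ℝ)..c, |P.ker r (y + (P.e0 + x))| * w y ≤ 0.2 * w r := by
  obtain ⟨hY1, hY2, hL1, hL2⟩ := Y_pos h
  have hL := cx_L_pos h
  have hρ := h.ρ_lo
  have hρ' := h.ρ_hi
  have helo := h.e_lo
  have hehi := h.e_hi
  have hw := t1_w_pos hr
  have hYL : P.Y + P.e0 = P.L := by unfold Y L; ring
  obtain ⟨hc1, hc2, hc3, hc4⟩ := t1_c h hx (by linarith only [hx1, hρ, hρ']) hc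
  obtain ⟨hw1, hw2⟩ := w_c h hx (by linarith only [hx1, hρ, hρ']) hc
  have hup3 : c + (P.e0 + x) ≤ 2.23 := by
    refine t1_cpe_up h (e2 := P.e0 + 0.8) (by norm_num) (by linarith only [hx]) (by linarith only [hx1]) (by linarith only [hρ, hρ', hehi]) ?_ hc
    have a1 : P.I 1.30818 ≤ P.I (2.23 - (P.e0 + 0.8)) := I_mono h (by linarith only [hehi])
    have a2 := abs_le.1 (I_app h (y := 1.30818) (by norm_num) (by linarith only [hρ, hρ']))
    have a3 : (0.7744 : ℝ) ≤ PI 1.30818 := by unfold PI; norm_num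
    have a4 : (0.77438 : ℝ) * 3.465779 ≤ P.I (2.23 - (P.e0 + 0.8)) * (P.Y + (P.e0 + 0.8)) :=
      mul_le_mul (by linarith only [a2.1, hρ, hρ', a1, a2, a3]) (by linarith only [hY1, helo]) (by norm_num) (by linarith only [a2.1, hρ, hρ', a1, a2, a3])
    linarith only [hL2, hρ, hρ', a4]
  rcases le_or_gt r 0.5774 with hr2 | hr2
  · exact t1_small h (by linarith only [hx]) hc1 hc2 (by linarith only [hx1, hY1, hρ, hρ', hehi, hc2]) hr hr2
  rcases le_total x 0 with hx0 | hx0
  · -- `x ≤ 0`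
    have hup : c + (P.e0 + x) ≤ P.ρ := by
      refine t1_cpe_up h (e2 := P.e0) (by linarith only [hρ, hρ']) (by linarith only [hx]) (by linarith only [hx0]) (by linarith only [hρ, hρ', hehi]) ?_ hc
      rw [I_rho h, hYL, one_mul]
    have hS := S1_bd h hr2.le hr1
    have := t1_step h (e1 := 0) (e := P.e0 + x) (c := c) (a2 := P.ρ) (b := 1.56) (ω := 1.65)
      (κ := 0.1584) le_rfl (by linarith only [hx]) (by linarith only [hρ, hρ', hehi, hx0]) (by linarith only [hρ, hρ', hc3]) hup (by linarith only [hρ, hρ', hehi, hc3, hx0]) hw1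
      (by norm_num) (fun v hv1 hv2 => by
        refine (t1_ker h hr hr1 (a := 1.56) (by norm_num) (by norm_num) hv1 (by linarith only [hY1, hρ, hρ', hv2])).trans ?_
        refine mul_le_mul_of_nonneg_right (max_le (by norm_num) ?_) hw.le
        have : (P.Y - 1.56) ^ 2 ≤ 0.983965 ^ 2 := pow_le_pow_left₀ (by linarith only [hY1, hρ, hρ']) (by linarith only [hY2]) 2
        norm_num at this ⊢
        linarith only [hρ, hρ', this]) hr hS
    refine this.trans (mul_le_mul_of_nonneg_right ?_ hw.le)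
    nlinarith only [hρ, hρ']
  · obtain ⟨hc5, hc6⟩ := hc4 hx0
    have hω := hw2 hx0
    rcases le_total x 0.28 with hx2 | hx2
    · have hup : c + (P.e0 + x) ≤ 1.835 := by
        refine t1_cpe_up h (e2 := P.e0 + 0.28) (by norm_num) (by linarith only [hx]) (by linarith only [hx2])
          (by linarith only [hρ, hρ', hehi]) ?_ hc
        have a1 : P.I 1.43318 ≤ P.I (1.835 - (P.e0 + 0.28)) := I_mono h (by linarith only [hehi])
        have a2 := abs_le.1 (I_app h (y := 1.43318) (by norm_num) (by linarith only [hρ, hρ']))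
        have a3 : (0.9076 : ℝ) ≤ PI 1.43318 := by unfold PI; norm_num
        have a4 : (0.90758 : ℝ) * 2.945779 ≤ P.I (1.835 - (P.e0 + 0.28)) * (P.Y + (P.e0 + 0.28)) :=
          mul_le_mul (by linarith only [a2.1, hρ, hρ', a1, a2, a3]) (by linarith only [hY1, helo]) (by norm_num) (by linarith only [a2.1, hρ, hρ', a1, a2, a3])
        linarith only [hL2, hρ, hρ', a4]
      have hS := S2_bd h hr2.le hr1
      have := t1_step h (e1 := 0.12) (e := P.e0 + x) (c := c) (a2 := 1.835) (b := 1.64) (ω := 1.475)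
        (κ := 0.1338) (by norm_num) (by linarith only [hρ, hρ', helo, hx0]) (by linarith only [hρ, hρ', hehi, hx2]) (by linarith only [hρ, hρ', hc6]) hup (by linarith only [hρ, hρ', hc1]) hω
        (by norm_num) (fun v hv1 hv2 => by
          refine (t1_ker h hr hr1 (a := 1.64) (by norm_num) (by norm_num) hv1 (by linarith only [hY1, hρ, hρ', hv2])).trans ?_
          refine mul_le_mul_of_nonneg_right (max_le (by norm_num) ?_) hw.le
          have : (P.Y - 1.64) ^ 2 ≤ 0.903965 ^ 2 := pow_le_pow_left₀ (by linarith only [hY1, hρ, hρ']) (by linarith only [hY2]) 2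
          norm_num at this ⊢
          linarith only [hρ, hρ', this]) hr hS
      refine this.trans (mul_le_mul_of_nonneg_right ?_ hw.le)
      norm_num
    · have hlo : 1.83 ≤ c + (P.e0 + x) := by
        refine t1_cpe h (by norm_num) (e1 := P.e0 + 0.28) (by linarith only [hρ, hρ', helo]) (by linarith only [hx2]) ?_
          (by linarith only [hρ, hρ', hc1]) hc
        have a1 : P.I (1.83 - (P.e0 + 0.28)) ≤ P.I 1.428182 := I_mono h (by linarith only [helo])
        have a2 := abs_le.1 (I_app h (y := 1.428182) (by norm_num) (by linarith only [hρ, hρ']))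
        have a3 : PI 1.428182 ≤ 0.9025 := by unfold PI; norm_num
        have a4 : P.I (1.83 - (P.e0 + 0.28)) * (P.Y + (P.e0 + 0.28)) ≤ 0.90252 * 2.945784 :=
          mul_le_mul (by linarith only [a2.2, hρ, hρ', a1, a2, a3]) (by linarith only [hY2, hehi]) (by linarith only [hY1, hρ, hρ', helo]) (by norm_num)
        linarith only [hL1, hρ, hρ', a4]
      have hS := S3_bd h hr2.le hr1
      have := t1_step h (e1 := 0.4) (e := P.e0 + x) (c := c) (a2 := 2.23) (b := 1.83) (ω := 1.475)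
        (κ := 0.0882) (by norm_num) (by linarith only [hρ, hρ', helo, hx2]) (by linarith only [hx1, hρ, hρ', hehi]) (by linarith only [hlo]) hup3 (by linarith only [hρ, hρ', hc1]) hω
        (by norm_num) (fun v hv1 hv2 => by
          refine (t1_ker h hr hr1 (a := 1.83) (by norm_num) (by norm_num) hv1 (by linarith only [hY1, hρ, hρ', hv2])).trans ?_
          refine mul_le_mul_of_nonneg_right (max_le (by norm_num) ?_) hw.le
          have : (P.Y - 1.83) ^ 2 ≤ 0.713965 ^ 2 := pow_le_pow_left₀ (by linarith only [hY1, hρ, hρ']) (by linarith only [hY2]) 2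
          norm_num at this ⊢
          linarith only [hρ, hρ', this]) hr hS
      refine this.trans (mul_le_mul_of_nonneg_right ?_ hw.le)
      norm_num

end Pool.Agent.CDk.Par

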