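import Pool.Agent.CDk.B1
import Pool.Agent.CDk.Defs
import Pool.Agent.CDk.FNb
import Pool.Agent.CDk.Ker
import Pool.Agent.CDk.POT1
import Pool.Agent.CDk.POT2
import Pool.Agent.CDk.SO
import Pool.Agent.CDk.T1

open MeasureTheory Set Filter Topology

namespace Pool.Agent.CDk.Par
variable {P : Par}

theorem pw_cont : Continuous w := by
  unfold w
  fun_prop

theorem w_pos {r : ℝ} (hr : 0 < r) : 0 < w r := by
  unfold w
  have : 0 < min (3 * r^2) 1 := lt_min (by positivity) zero_lt_one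
  have : 0 ≤ max (r - 1.4) 0 := le_max_right _ _
  linarith

theorem tube_nonneg {δ : ℝ} {i : ℝ → ℝ} (hi : P.Tube δ i) (y : ℝ) : 0 ≤ i y := by
  rcases le_total y 0 with hy | hy
  · rw [hi.zero y hy]
  · rw [← hi.zero 0 le_rfl]
    exact hi.mono hy

/-- first order part for `x ≤ 0` -/
theorem first_neg (h : P.Star) {δ x c : ℝ} {i : ℝ → ℝ} (hδ : 0 ≤ δ) (hi : P.Tube δ i)
    (hx : -P.e0 ≤ x) (hx1 : x ≤ 0) (hc : P.io c = P.q (P.e0 + x)) (hcc : P.ρ - P.e0 ≤ c) (hc2 : c ≤ 2.2) :
    -(∫ y in (0:ℝ)..c, P.mb (y + (P.e0 + x)) * (i y - P.io y))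
      + (∫ y in (0:ℝ)..(P.ρ - P.e0), P.mb (y + P.e0) * (i y - P.io y)) ≤ δ * (1.7 * (-x)) := by
  have he := h.e_lo
  have he' := h.e_hi
  have hρ := h.ρ_lo
  have hio := io_cont h
  have hii := hi.cont
  have hmb := mb_cont h
  have hw := pw_cont
  have hb := B1_neg h hx hx1 hc
  set a := P.ρ - P.e0 with ha
  have ha0 : 0 ≤ a := by simp only [ha]; linarith only [he, he', hρ]
  have e1 : ∫ y in (0:ℝ)..c, P.mb (y + (P.e0 + x)) * (i y - P.io y)
      = (∫ y in (0:ℝ)..a, P.mb (y + (P.e0 + x)) * (i y - P.io y))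
        + ∫ y in a..c, P.mb (y + (P.e0 + x)) * (i y - P.io y) := by
    rw [intervalIntegral.integral_add_adjacent_intervals] <;>
      exact Continuous.intervalIntegrable (by fun_prop) _ _
  have e2 : -(∫ y in (0:ℝ)..a, P.mb (y + (P.e0 + x)) * (i y - P.io y))
      + (∫ y in (0:ℝ)..a, P.mb (y + P.e0) * (i y - P.io y))
      = ∫ y in (0:ℝ)..a, -((P.mb (y + (P.e0 + x)) - P.mb (y + P.e0)) * (i y - P.io y)) := by
    rw [← intervalIntegral.integral_neg, ← intervalIntegral.integral_add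
      (Continuous.intervalIntegrable (by fun_prop) _ _) (Continuous.intervalIntegrable (by fun_prop) _ _)]
    apply intervalIntegral.integral_congr
    intro y _
    simp only
    ring
  have e3 : ∫ y in (0:ℝ)..a, -((P.mb (y + (P.e0 + x)) - P.mb (y + P.e0)) * (i y - P.io y))
      ≤ ∫ y in (0:ℝ)..a, δ * (w y * (P.mb (y + (P.e0 + x)) - P.mb (y + P.e0))) := by
    apply intervalIntegral.integral_mono_on ha0
      (Continuous.intervalIntegrable (by fun_prop) _ _) (Continuous.intervalIntegrable (by fun_prop) _ _)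
    intro y hy
    have h1 := hi.close y hy.1 (by linarith only [hy.2, hc2, hcc, hy])
    have h2 : 0 ≤ P.mb (y + (P.e0 + x)) - P.mb (y + P.e0) := by
      have := mb_anti h (mem_Ici.mpr (by linarith only [hy.1, hx, hy] : (0:ℝ) ≤ y + (P.e0 + x)))
        (mem_Ici.mpr (by linarith only [hy.1, he, he', hy] : (0:ℝ) ≤ y + P.e0)) (by linarith only [hx1])
      linarith only [this]
    nlinarith only [abs_le.mp h1, he, he', h2, h1]
  have e4 : -(∫ y in a..c, P.mb (y + (P.e0 + x)) * (i y - P.io y))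
      ≤ ∫ y in a..c, δ * (w y * P.mb (y + (P.e0 + x))) := by
    rw [← intervalIntegral.integral_neg]
    apply intervalIntegral.integral_mono_on hcc
      (Continuous.intervalIntegrable (by fun_prop) _ _) (Continuous.intervalIntegrable (by fun_prop) _ _)
    intro y hy
    have h1 := hi.close y (by linarith only [hy.1, he, he', hρ, hy]) (by linarith only [hy.2, hc2, hy])
    have h2 : 0 ≤ P.mb (y + (P.e0 + x)) := mb_nonneg h (by linarith only [hy.1, hx, he, he', hρ, hy])
    nlinarith only [abs_le.mp h1, he, he', h2, h1]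
  rw [intervalIntegral.integral_const_mul] at e3 e4
  nlinarith only [e1, e2, e3, e4, hδ, hb]

/-- first order part for `x ≥ 0` -/
theorem first_pos (h : P.Star) {δ x c B : ℝ} {i : ℝ → ℝ} (hδ : 0 ≤ δ) (hi : P.Tube δ i)
    (hx : 0 ≤ x) (hc0 : 0 ≤ c) (hcc : c ≤ P.ρ - P.e0)
    (hb : (∫ y in (0:ℝ)..c, w y * (P.mb (y + P.e0) - P.mb (y + (P.e0 + x))))
      + (∫ y in c..(P.ρ - P.e0), w y * P.mb (y + P.e0)) ≤ B) :
    -(∫ y in (0:ℝ)..c, P.mb (y + (P.e0 + x)) * (i y - P.io y))
      + (∫ y in (0:ℝ)..(P.ρ - P.e0), P.mb (y + P.e0) * (i y - P.io y)) ≤ δ * B := by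
  have he := h.e_lo
  have he' := h.e_hi
  have hρ := h.ρ_hi
  have hio := io_cont h
  have hii := hi.cont
  have hmb := mb_cont h
  have hw := pw_cont
  set a := P.ρ - P.e0 with ha
  have e1 : ∫ y in (0:ℝ)..a, P.mb (y + P.e0) * (i y - P.io y)
      = (∫ y in (0:ℝ)..c, P.mb (y + P.e0) * (i y - P.io y))
        + ∫ y in c..a, P.mb (y + P.e0) * (i y - P.io y) := by
    rw [intervalIntegral.integral_add_adjacent_intervals] <;>
      exact Continuous.intervalIntegrable (by fun_prop) _ _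
  have e2 : -(∫ y in (0:ℝ)..c, P.mb (y + (P.e0 + x)) * (i y - P.io y))
      + (∫ y in (0:ℝ)..c, P.mb (y + P.e0) * (i y - P.io y))
      = ∫ y in (0:ℝ)..c, (P.mb (y + P.e0) - P.mb (y + (P.e0 + x))) * (i y - P.io y) := by
    rw [← intervalIntegral.integral_neg, ← intervalIntegral.integral_add
      (Continuous.intervalIntegrable (by fun_prop) _ _) (Continuous.intervalIntegrable (by fun_prop) _ _)]
    apply intervalIntegral.integral_congr
    intro y _
    simp only
    ring
  have e3 : ∫ y in (0:ℝ)..c, (P.mb (y + P.e0) - P.mb (y + (P.e0 + x))) * (i y - P.io y)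
      ≤ ∫ y in (0:ℝ)..c, δ * (w y * (P.mb (y + P.e0) - P.mb (y + (P.e0 + x)))) := by
    apply intervalIntegral.integral_mono_on hc0
      (Continuous.intervalIntegrable (by fun_prop) _ _) (Continuous.intervalIntegrable (by fun_prop) _ _)
    intro y hy
    have h1 := hi.close y hy.1 (by linarith only [hy.2, he, he', hρ, hcc, hy])
    have h2 : 0 ≤ P.mb (y + P.e0) - P.mb (y + (P.e0 + x)) := by
      have := mb_anti h (mem_Ici.mpr (by linarith only [hy.1, he, he', hy] : (0:ℝ) ≤ y + P.e0))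
        (mem_Ici.mpr (by linarith [hy.1] : (0:ℝ) ≤ y + (P.e0 + x))) (by linarith)
      linarith
    nlinarith only [abs_le.mp h1, he, he', h2, h1]
  have e4 : (∫ y in c..a, P.mb (y + P.e0) * (i y - P.io y))
      ≤ ∫ y in c..a, δ * (w y * P.mb (y + P.e0)) := by
    apply intervalIntegral.integral_mono_on hcc
      (Continuous.intervalIntegrable (by fun_prop) _ _) (Continuous.intervalIntegrable (by fun_prop) _ _)
    intro y hy
    have h1 := hi.close y (by linarith [hy.1]) (by linarith only [hy.2, he, he', hρ, hy])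
    have h2 : 0 ≤ P.mb (y + P.e0) := mb_nonneg h (by linarith [hy.1])
    nlinarith only [abs_le.mp h1, he, he', h2, h1]
  rw [intervalIntegral.integral_const_mul] at e3 e4
  nlinarith only [e1, e2, e3, e4, hδ, hb]

/-- `Uf i - psi i` against `Uf ι - psi ι` -/
theorem U_split (h : P.Star) {δ e c S B : ℝ} {i : ℝ → ℝ} (hi : P.Tube δ i)
    (hS : |(∫ v in (0:ℝ)..P.Y, P.mb v * (P.gf e i v - P.gf e P.io v))
      + ∫ y in (0:ℝ)..c, P.mb (y + e) * (i y - P.io y)| ≤ S)
    (hB : -(∫ y in (0:ℝ)..c, P.mb (y + e) * (i y - P.io y))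
      + (∫ y in (0:ℝ)..(P.ρ - P.e0), P.mb (y + P.e0) * (i y - P.io y)) ≤ B) :
    P.Uf e i - P.psi i ≤ P.Uf e P.io - P.psi P.io + B + S := by
  have hio := io_cont h
  have hii := hi.cont
  have hmb := mb_cont h
  have hg1 : Continuous (P.gf e i) := gf_contin hii
  have hg2 : Continuous (P.gf e P.io) := gf_contin hio
  have e1 : P.Uf e i - P.Uf e P.io = ∫ v in (0:ℝ)..P.Y, P.mb v * (P.gf e i v - P.gf e P.io v) := by
    unfold Uf
    have : (∫ v in (0:ℝ)..P.Y, P.mb v * (P.gf e i v - P.gf e P.io v))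
        = (∫ v in (0:ℝ)..P.Y, P.mb v * P.gf e i v) - ∫ v in (0:ℝ)..P.Y, P.mb v * P.gf e P.io v := by
      rw [← intervalIntegral.integral_sub
        (Continuous.intervalIntegrable (by fun_prop) _ _) (Continuous.intervalIntegrable (by fun_prop) _ _)]
      apply intervalIntegral.integral_congr
      intro y _
      simp only
      ring
    rw [this]; ring
  have e2 : P.psi P.io - P.psi i = ∫ y in (0:ℝ)..(P.ρ - P.e0), P.mb (y + P.e0) * (i y - P.io y) := by
    unfold psi
    have : (∫ y in (0:ℝ)..(P.ρ - P.e0), P.mb (y + P.e0) * (i y - P.io y))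
        = (∫ y in (0:ℝ)..(P.ρ - P.e0), P.mb (y + P.e0) * i y)
          - ∫ y in (0:ℝ)..(P.ρ - P.e0), P.mb (y + P.e0) * P.io y := by
      rw [← intervalIntegral.integral_sub
        (Continuous.intervalIntegrable (by fun_prop) _ _) (Continuous.intervalIntegrable (by fun_prop) _ _)]
      apply intervalIntegral.integral_congr
      intro y _
      simp only
      ring
    rw [this]; ring
  have := (abs_le.mp hS).2
  linarith

/-- tube part -/
theorem H_split (h : P.Star) {δ x c r Φ : ℝ} {i : ℝ → ℝ} (hδ : 0 ≤ δ) (hδ1 : δ ≤ 0.03)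
    (hi : P.Tube δ i) (hx : -P.e0 ≤ x) (hx1 : x ≤ 0.8) (hc : P.io c = P.q (P.e0 + x))
    (hc0 : 0 ≤ c) (hc2 : c ≤ 2.2) (hr : 0 < r) (hr1 : r ≤ 2.2)
    (hΦ : ∀ v, c + (P.e0 + x) - 0.15 ≤ v → v ≤ P.Y → |P.ker r v| ≤ Φ * w r)
    (hcY : c + (P.e0 + x) ≤ P.Y) :
    |P.If (P.e0 + x) i r - P.io r * P.Nf (P.e0 + x) i|
      ≤ (0.0285 * |x| + 0.2 * δ + δ^2 * (w c)^2 * (3.353 * Φ)) * w r := by
  have he := h.e_lo
  have hio := io_cont h
  have hii := hi.cont
  have hk : Continuous (P.ker r) := pker_cont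
  have hw := pw_cont
  have hg1 : Continuous (P.gf (P.e0 + x) i) := gf_contin hii
  have hg2 : Continuous (P.gf (P.e0 + x) P.io) := gf_contin hio
  have a1 := If_ker h (e := P.e0 + x) hii hr.le hr1
  have a2 := If_ker h (e := P.e0 + x) hio hr.le hr1
  have a3 := H_bd h hx hx1 hr hr1
  have a4 := second_order h hδ hδ1 hi (by linarith only [hx] : 0 ≤ P.e0 + x) (by linarith only [hx1]) hc hk
    (fun v h1 h2 => hΦ v (by linarith) h2) (fun v h1 h2 => hΦ v h1 (by linarith only [hcY, h2]))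
  have a5 := T1_bd h hx hx1 hc hr hr1
  have a6 : |∫ y in (0:ℝ)..c, P.ker r (y + (P.e0 + x)) * (i y - P.io y)| ≤ δ * (0.2 * w r) := by
    calc |∫ y in (0:ℝ)..c, P.ker r (y + (P.e0 + x)) * (i y - P.io y)|
        ≤ ∫ y in (0:ℝ)..c, |P.ker r (y + (P.e0 + x)) * (i y - P.io y)| :=
          intervalIntegral.abs_integral_le_integral_abs hc0
      _ ≤ ∫ y in (0:ℝ)..c, δ * (|P.ker r (y + (P.e0 + x))| * w y) := by
          apply intervalIntegral.integral_mono_on hc0
            (Continuous.intervalIntegrable (by fun_prop) _ _) (Continuous.intervalIntegrable (by fun_prop) _ _)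
          intro y hy
          have h1 := hi.close y hy.1 (by linarith only [hy.2, hc2, hy])
          rw [abs_mul]
          nlinarith only [abs_nonneg (P.ker r (y + (P.e0 + x))), h1]
      _ ≤ _ := by
          rw [intervalIntegral.integral_const_mul]
          exact mul_le_mul_of_nonneg_left a5 hδ
  have a7 : (∫ v in (0:ℝ)..P.Y, P.ker r v * (P.gf (P.e0 + x) i v - P.gf (P.e0 + x) P.io v))
      = (P.If (P.e0 + x) i r - P.io r * P.Nf (P.e0 + x) i)
        - (P.If (P.e0 + x) P.io r - P.io r * P.Nf (P.e0 + x) P.io) := by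
    rw [a1, a2]
    have : (∫ v in (0:ℝ)..P.Y, P.ker r v * (P.gf (P.e0 + x) i v - P.gf (P.e0 + x) P.io v))
        = (∫ v in (0:ℝ)..P.Y, P.ker r v * P.gf (P.e0 + x) i v)
          - ∫ v in (0:ℝ)..P.Y, P.ker r v * P.gf (P.e0 + x) P.io v := by
      rw [← intervalIntegral.integral_sub
        (Continuous.intervalIntegrable (by fun_prop) _ _) (Continuous.intervalIntegrable (by fun_prop) _ _)]
      apply intervalIntegral.integral_congr
      intro y _
      simp only
      ring
    rw [this]; ring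
  rw [a7] at a4
  have b1 := abs_le.mp a3
  have b2 := abs_le.mp a4
  have b3 := abs_le.mp a6
  rw [abs_le]
  constructor <;> nlinarith

end Pool.Agent.CDk.Par
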