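import Pool.Agent.CDk.Defs
import Pool.Agent.CDk.ENC
import Pool.Agent.CDk.FNa
import Pool.Agent.CDk.FNb

open MeasureTheory Set Filter Topology

namespace Pool.Agent.CDk.Par
variable {P : Par}

/-! ### private tools: integrals of polynomials given by the list of their coefficients -/

private noncomputable def pe : List ℝ → ℝ → ℝ
  | [], _ => 0
  | a :: l, x => a + x * pe l x

private noncomputable def pa : ℕ → List ℝ → ℝ → ℝ
  | _, [], _ => 0
  | k, a :: l, x => a / ((k : ℝ) + 1) * x ^ (k + 1) + pa (k + 1) l x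

private theorem pe_cont (l : List ℝ) : Continuous (pe l) := by
  induction l with
  | nil => exact continuous_const
  | cons a l ih =>
    show Continuous fun x => a + x * pe l x
    fun_prop

private theorem pa_deriv (l : List ℝ) (k : ℕ) (x : ℝ) :
    HasDerivAt (pa k l) (x ^ k * pe l x) x := by
  induction l generalizing k with
  | nil =>
    have : HasDerivAt (fun _ : ℝ => (0 : ℝ)) 0 x := hasDerivAt_const x 0
    simpa [pa, pe] using this
  | cons a l ih =>
    have h1 : HasDerivAt (fun x : ℝ => a / ((k : ℝ) + 1) * x ^ (k + 1)) (a * x ^ k) x := by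
      have h2 := (hasDerivAt_pow (k + 1) x).const_mul (a / ((k : ℝ) + 1))
      have h3 : ((k : ℝ) + 1) ≠ 0 := by positivity
      have h6 : a / ((k : ℝ) + 1) * (((k + 1 : ℕ) : ℝ) * x ^ (k + 1 - 1)) = a * x ^ k := by
        rw [Nat.add_sub_cancel]
        push_cast
        field_simp
      rw [h6] at h2
      exact h2
    have h4 := h1.add (ih (k + 1))
    have h5 : x ^ k * pe (a :: l) x = a * x ^ k + x ^ (k + 1) * pe l x := by
      simp only [pe]
      ring
    rw [h5]
    exact h4

private theorem int_pe (l : List ℝ) (a b : ℝ) :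
    ∫ x in a..b, pe l x = pa 0 l b - pa 0 l a := by
  refine intervalIntegral.integral_eq_sub_of_hasDerivAt (fun x _ => ?_)
    ((pe_cont l).intervalIntegrable _ _)
  simpa using pa_deriv l 0 x

private theorem int_le {f : ℝ → ℝ} {a b : ℝ} (hab : a ≤ b) (hf : Continuous f) (l : List ℝ)
    (h : ∀ x, a ≤ x → x ≤ b → f x ≤ pe l x) : ∫ x in a..b, f x ≤ pa 0 l b - pa 0 l a := by
  rw [← int_pe]
  exact intervalIntegral.integral_mono_on hab (hf.intervalIntegrable _ _)
    ((pe_cont l).intervalIntegrable _ _) fun x hx => h x hx.1 hx.2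

private theorem int_ge {f : ℝ → ℝ} {a b : ℝ} (hab : a ≤ b) (hf : Continuous f) (l : List ℝ)
    (h : ∀ x, a ≤ x → x ≤ b → pe l x ≤ f x) : pa 0 l b - pa 0 l a ≤ ∫ x in a..b, f x := by
  rw [← int_pe]
  exact intervalIntegral.integral_mono_on hab ((pe_cont l).intervalIntegrable _ _)
    (hf.intervalIntegrable _ _) fun x hx => h x hx.1 hx.2

private theorem I_cont' (h : P.Star) : Continuous P.I :=
  continuous_iff_continuousAt.2 fun y => (I_deriv h y).continuousAt

private theorem I_mono' (h : P.Star) {a b : ℝ} (hab : a ≤ b) : P.I a ≤ P.I b := by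
  have hD : ∀ y, 0 ≤ P.D y := fun y => by
    rcases le_total y 0 with h0 | h0
    · rw [D_zero h h0]
    · rw [← D_zero h (le_refl (0 : ℝ))]
      exact D_mono h h0
  exact monotone_of_deriv_nonneg (fun y => (I_deriv h y).differentiableAt)
    (fun y => by rw [(I_deriv h y).deriv]; exact hD y) hab

private theorem I_nonneg' (h : P.Star) (y : ℝ) : 0 ≤ P.I y := by
  rcases le_total y 0 with h0 | h0
  · rw [I_zero h h0]
  · rw [← I_zero h (le_refl (0 : ℝ))]
    exact I_mono' h h0

private theorem I_le_one' (h : P.Star) {y : ℝ} (hy : y ≤ P.ρ - P.e0) : P.I y ≤ 1 := by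
  rw [← I_rho h]
  exact I_mono' h hy

/-- `PM` is Lipschitz on `[0, 1.52]` -/
private theorem PM_lip {a b : ℝ} (ha0 : 0 ≤ a) (ha1 : a ≤ 1.52) (hb0 : 0 ≤ b) (hb1 : b ≤ 1.52)
    (hab : |a - b| ≤ 0.000001) : |PM a - PM b| ≤ 0.000003 := by
  have h1 : PM a - PM b = (a - b) * (0.946702 + 0.350512 * (a + b)
      - 0.138773 * (a ^ 2 + a * b + b ^ 2)
      - 0.038228 * (a ^ 3 + a ^ 2 * b + a * b ^ 2 + b ^ 3)
      + 0.009728 * (a ^ 4 + a ^ 3 * b + a ^ 2 * b ^ 2 + a * b ^ 3 + b ^ 4)) := by
    unfold PM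
    ring
  have key : ∀ i j : ℕ, 0 ≤ a ^ i * b ^ j ∧ a ^ i * b ^ j ≤ 1.52 ^ i * 1.52 ^ j := fun i j =>
    ⟨by positivity, mul_le_mul (pow_le_pow_left₀ ha0 ha1 i) (pow_le_pow_left₀ hb0 hb1 j)
      (by positivity) (by positivity)⟩
  have h20 := key 2 0
  have h11 := key 1 1
  have h02 := key 0 2
  have h30 := key 3 0
  have h21 := key 2 1
  have h12 := key 1 2
  have h03 := key 0 3
  have h40 := key 4 0
  have h31 := key 3 1
  have h22 := key 2 2
  have h13 := key 1 3
  have h04 := key 0 4
  norm_num at h20 h11 h02 h30 h21 h12 h03 h40 h31 h22 h13 h04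
  have h2 : |0.946702 + 0.350512 * (a + b)
      - 0.138773 * (a ^ 2 + a * b + b ^ 2)
      - 0.038228 * (a ^ 3 + a ^ 2 * b + a * b ^ 2 + b ^ 3)
      + 0.009728 * (a ^ 4 + a ^ 3 * b + a ^ 2 * b ^ 2 + a * b ^ 3 + b ^ 4)| ≤ 3 := by
    rw [abs_le]
    constructor <;> norm_num <;> linarith [h20.1, h20.2, h11.1, h11.2, h02.1, h02.2, h30.1,
      h30.2, h21.1, h21.2, h12.1, h12.2, h03.1, h03.2, h40.1, h40.2, h31.1, h31.2, h22.1, h22.2,
      h13.1, h13.2, h04.1, h04.2]
  rw [h1, abs_mul]
  calc |a - b| * _ ≤ 0.000001 * 3 := mul_le_mul hab h2 (abs_nonneg _) (by norm_num)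
    _ = 0.000003 := by norm_num

/-- approximation of `mb (y + e0)` up to `1.396452` -/
private theorem mbA (h : P.Star) {y : ℝ} (h0 : 0 ≤ y) (h1 : y ≤ 1.396452) :
    |P.mb (y + P.e0) - PM (1.518269 - y)| ≤ 0.000013 := by
  have e1 := h.e_lo
  have e2 := h.e_hi
  have r1 := h.ρ_lo
  have r2 := h.ρ_hi
  have u1 := h.u_lo
  have u2 := h.u_hi
  have hA : |P.mb (y + P.e0) - PM (P.ρ - P.e0 - y)| ≤ 0.00001 := by
    rcases le_total y (P.ρ - 2 * P.e0) with hy | hy
    · have := mb_app h (t := P.ρ - P.e0 - y) (by linarith only [hy]) (by linarith only [h0, e1, r1, r2])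
      rwa [show P.ρ - (P.ρ - P.e0 - y) = y + P.e0 by ring] at this
    · rw [mb_out h (by linarith only [hy])]
      set t := P.ρ - P.e0 - y with ht
      have hmax : max (P.Y - (y + P.e0)) 0 = P.u + t := by
        have : P.Y - (y + P.e0) = P.u + t := by
          rw [ht]
          unfold Y
          ring
        rw [this]
        exact max_eq_left (by linarith only [h1, e2, r1, r2, u1])
      rw [hmax]
      have t1 : 0.121815 ≤ t := by linarith only [h1, e2, r1, r2]
      have t2 : t ≤ 0.121819 := by linarith only [e2, hy]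
      have s1 : 1.025689 ≤ P.u + t := by linarith only [h1, e2, r1, r2, u1]
      have s2 : P.u + t ≤ 1.025696 := by linarith only [e2, u2, hy]
      have q1 : 1.025689 ^ 2 ≤ (P.u + t) ^ 2 := pow_le_pow_left₀ (by norm_num) s1 2
      have q2 : (P.u + t) ^ 2 ≤ 1.025696 ^ 2 := pow_le_pow_left₀ (by linarith only [h1, e2, r1, r2, u1]) s2 2
      have t0 : (0 : ℝ) ≤ t := by linarith only [h1, e2, r1, r2]
      have p2a : 0.121815 ^ 2 ≤ t ^ 2 := pow_le_pow_left₀ (by norm_num) t1 2
      have p2b : t ^ 2 ≤ 0.121819 ^ 2 := pow_le_pow_left₀ t0 t2 2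
      have p3a : 0.121815 ^ 3 ≤ t ^ 3 := pow_le_pow_left₀ (by norm_num) t1 3
      have p3b : t ^ 3 ≤ 0.121819 ^ 3 := pow_le_pow_left₀ t0 t2 3
      have p4a : 0.121815 ^ 4 ≤ t ^ 4 := pow_le_pow_left₀ (by norm_num) t1 4
      have p4b : t ^ 4 ≤ 0.121819 ^ 4 := pow_le_pow_left₀ t0 t2 4
      have p5a : 0.121815 ^ 5 ≤ t ^ 5 := pow_le_pow_left₀ (by norm_num) t1 5
      have p5b : t ^ 5 ≤ 0.121819 ^ 5 := pow_le_pow_left₀ t0 t2 5
      unfold PM
      norm_num at q1 q2 p2a p2b p3a p3b p4a p4b p5a p5b ⊢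
      rw [abs_le]
      constructor <;> linarith
  have hB := PM_lip (a := P.ρ - P.e0 - y) (b := 1.518269 - y) (by linarith only [h1, e2, r1, r2]) (by linarith only [h0, e1, r1, r2])
    (by linarith only [h1, r1, r2]) (by linarith only [h0, r1, r2]) (by rw [abs_le]; constructor <;> linarith)
  calc |P.mb (y + P.e0) - PM (1.518269 - y)|
      = |(P.mb (y + P.e0) - PM (P.ρ - P.e0 - y)) +
          (PM (P.ρ - P.e0 - y) - PM (1.518269 - y))| := by ring_nf
    _ ≤ _ := abs_add_le _ _
    _ ≤ 0.00001 + 0.000003 := add_le_add hA hB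
    _ = 0.000013 := by norm_num

/-- `mb (y + e0)` beyond `1.396452` -/
private theorem mbB (h : P.Star) {y : ℝ} (h0 : 1.396452 ≤ y) (h1 : y ≤ 1.52) :
    |P.mb (y + P.e0) - (2.4221445 - y) ^ 2 / 2| ≤ 0.000003 := by
  have e1 := h.e_lo
  have e2 := h.e_hi
  have r1 := h.ρ_lo
  have r2 := h.ρ_hi
  obtain ⟨y1, y2, -, -⟩ := Y_pos h
  rw [mb_out h (by linarith only [h0, e1, r2]), max_eq_left (by linarith only [h1, e2, r1, r2, y1])]
  have hz1 : 2.422142 ≤ P.Y - P.e0 := by linarith only [e2, y1]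
  have hz2 : P.Y - P.e0 ≤ 2.422147 := by linarith only [e1, y2]
  have h3 : (P.Y - (y + P.e0)) ^ 2 / 2 - (2.4221445 - y) ^ 2 / 2 =
      (P.Y - P.e0 - 2.4221445) * ((P.Y - P.e0 - y) + (2.4221445 - y)) / 2 := by ring
  rw [h3, abs_div, abs_mul, abs_two]
  have h4 : |P.Y - P.e0 - 2.4221445| ≤ 0.0000025 := by
    rw [abs_le]
    constructor <;> linarith
  have h5 : |(P.Y - P.e0 - y) + (2.4221445 - y)| ≤ 2.06 := by
    rw [abs_le]
    constructor <;> linarith
  have h6 := mul_le_mul h4 h5 (abs_nonneg _) (by norm_num)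
  linarith only [r1, r2, h6]

private theorem PM_bd {t : ℝ} (h0 : 0 ≤ t) (h1 : t ≤ 1.52) : 0 ≤ PM t ∧ PM t ≤ 2.2 := by
  have p2 : t ^ 2 ≤ 1.52 * t := by nlinarith only [h0, h1]
  have p3 : t ^ 3 ≤ 1.52 ^ 2 * t := by
    have : t ^ 3 = t ^ 2 * t := by ring
    rw [this]
    exact mul_le_mul_of_nonneg_right (pow_le_pow_left₀ h0 h1 2) h0
  have p4 : t ^ 4 ≤ 1.52 ^ 3 * t := by
    have : t ^ 4 = t ^ 3 * t := by ring
    rw [this]
    exact mul_le_mul_of_nonneg_right (pow_le_pow_left₀ h0 h1 3) h0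
  have p5 : t ^ 5 ≤ 1.52 ^ 5 := pow_le_pow_left₀ h0 h1 5
  have q2 : 0 ≤ t ^ 2 := by positivity
  have q3 : 0 ≤ t ^ 3 := by positivity
  have q4 : 0 ≤ t ^ 4 := by positivity
  have q5 : 0 ≤ t ^ 5 := by positivity
  unfold PM
  norm_num at p2 p3 p4 p5 ⊢
  constructor
  · nlinarith only [h0, q5, p3, p4]
  · nlinarith only [mul_nonneg h0 (sub_nonneg.2 h1), h1, q5, p2, q4, p5]

private theorem f_cont (h : P.Star) : Continuous fun y => P.mb (y + P.e0) * P.I y :=
  ((mb_cont h).comp (by fun_prop)).mul (I_cont' h)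

private noncomputable def L1u : List ℝ :=
    [1/20000, 0,
    396918507876757949608087321306656392367/390625000000000000000000000000000000000,
    -41190926722301208447147958289191688089/117187500000000000000000000000000000000,
    -1516828160769736276614129010874709237097/4687500000000000000000000000000000000000,
    257197176314765300603552573141124725077/2929687500000000000000000000000000000000,
    848286601858991073453553407960188717/19531250000000000000000000000000000000,
    -55398773137058837081958275527/5859375000000000000000000000000,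
    -15744133741254013776859/5859375000000000000000000, 699306811982309/1464843750000000000,
    333888577/3906250000000, -437/29296875]

private noncomputable def L1l : List ℝ :=
    [-1/20000, 0,
    396918507876757949608087321306656392367/390625000000000000000000000000000000000,
    -41190926722301208447147958289191688089/117187500000000000000000000000000000000,
    -1516828160769736276614129010874709237097/4687500000000000000000000000000000000000,
    257197176314765300603552573141124725077/2929687500000000000000000000000000000000,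
    848286601858991073453553407960188717/19531250000000000000000000000000000000,
    -55398773137058837081958275527/5859375000000000000000000000000,
    -15744133741254013776859/5859375000000000000000000, 699306811982309/1464843750000000000,
    333888577/3906250000000, -437/29296875]

private noncomputable def L2u : List ℝ :=
    [1/50000, 0, 1168452164369706111/800000000000000000, -92546140984430979/80000000000000000,
    314059222357465933/3200000000000000000, 540435164679475541/6000000000000000000,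
    -264113597154339/40000000000000000, -52999549/10000000000, 23/30000]

private noncomputable def L2l : List ℝ :=
    [-1/50000, 0, 1168452164369706111/800000000000000000, -92546140984430979/80000000000000000,
    314059222357465933/3200000000000000000, 540435164679475541/6000000000000000000,
    -264113597154339/40000000000000000, -52999549/10000000000, 23/30000]


private theorem pL1u (y : ℝ) : pe L1u y = PM (1.518269 - y) * PI y + 0.00005 := by
  simp only [pe, L1u, PM, PI]
  ring

private theorem pL1l (y : ℝ) : pe L1l y = PM (1.518269 - y) * PI y - 0.00005 := by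
  simp only [pe, L1l, PM, PI]
  ring

private theorem pL2u (y : ℝ) : pe L2u y = (2.4221445 - y) ^ 2 / 2 * PI y + 0.00002 := by
  simp only [pe, L2u, PI]
  ring

private theorem pL2l (y : ℝ) : pe L2l y = (2.4221445 - y) ^ 2 / 2 * PI y - 0.00002 := by
  simp only [pe, L2l, PI]
  ring

private theorem f_app1 (h : P.Star) {y : ℝ} (h0 : 0 ≤ y) (h1 : y ≤ 1.396452) :
    |P.mb (y + P.e0) * P.I y - PM (1.518269 - y) * PI y| ≤ 0.00005 := by
  have hr := h.ρ_lo
  have he := h.e_hi
  have a1 := mbA h h0 h1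
  have a2 := I_app h h0 (by linarith only [h1, hr])
  have a3 := PM_bd (t := 1.518269 - y) (by linarith only [h1]) (by linarith only [h0])
  have a4 := I_nonneg' h y
  have a5 := I_le_one' h (y := y) (by linarith only [h1, hr, he])
  have e : P.mb (y + P.e0) * P.I y - PM (1.518269 - y) * PI y =
      (P.mb (y + P.e0) - PM (1.518269 - y)) * P.I y + PM (1.518269 - y) * (P.I y - PI y) := by
    ring
  rw [e]
  calc _ ≤ |(P.mb (y + P.e0) - PM (1.518269 - y)) * P.I y| +
        |PM (1.518269 - y) * (P.I y - PI y)| := abs_add_le _ _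
    _ ≤ 0.000013 * 1 + 2.2 * 0.000015 := by
        rw [abs_mul, abs_mul, abs_of_nonneg a4, abs_of_nonneg a3.1]
        exact add_le_add (mul_le_mul a1 a5 a4 (by norm_num))
          (mul_le_mul a3.2 a2 (abs_nonneg _) (by norm_num))
    _ ≤ 0.00005 := by norm_num

private theorem f_app2 (h : P.Star) {y : ℝ} (h0 : 1.396452 ≤ y) (h1 : y ≤ 1.51827) :
    |P.mb (y + P.e0) * P.I y - (2.4221445 - y) ^ 2 / 2 * PI y| ≤ 0.00002 := by
  have hr := h.ρ_lo
  have hr2 := h.ρ_hi
  have he := h.e_hi
  have he2 := h.e_lo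
  have a1 := mbB h h0 (by linarith only [h1, hr, hr2])
  have a2 := I_app h (y := y) (by linarith only [h0, hr, hr2]) (by linarith only [h1, hr, hr2])
  have a4 := I_nonneg' h y
  have a5 : P.I y ≤ 1.01 := by
    have b1 : P.I y ≤ P.I (P.ρ - P.e0) + 1.2 * 0.000002 := by
      have b2 : ∀ x, P.D x ≤ 1.2 := by
        intro x
        rcases le_total x P.ρ with hx | hx
        · have b3 := D_app h (y := P.ρ) (by linarith only [hr, hr2]) le_rfl
          have b4 := D_mono h hx
          have b5 : PD P.ρ ≤ 1.19 := by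
            unfold PD
            have c1 : P.ρ ^ 2 ≤ 1.640088 ^ 2 := pow_le_pow_left₀ (by linarith only [hr, hr2]) hr2.le 2
            have c3 : 1.640087 ^ 3 ≤ P.ρ ^ 3 := pow_le_pow_left₀ (by norm_num) hr.le 3
            have c4 : 1.640087 ^ 4 ≤ P.ρ ^ 4 := pow_le_pow_left₀ (by norm_num) hr.le 4
            have c5 : P.ρ ^ 5 ≤ 1.640088 ^ 5 := pow_le_pow_left₀ (by linarith only [hr, hr2]) hr2.le 5
            norm_num at c1 c3 c4 c5 ⊢
            linarith only [hr, hr2, c1, c3, c4, c5]
          have := abs_le.1 b3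
          linarith only [hr, hr2, b4, b5, this]
        · rw [D_const h hx]
          have b3 := D_app h (y := P.ρ) (by linarith only [hr, hr2]) le_rfl
          have b5 : PD P.ρ ≤ 1.19 := by
            unfold PD
            have c1 : P.ρ ^ 2 ≤ 1.640088 ^ 2 := pow_le_pow_left₀ (by linarith only [hr, hr2]) hr2.le 2
            have c3 : 1.640087 ^ 3 ≤ P.ρ ^ 3 := pow_le_pow_left₀ (by norm_num) hr.le 3
            have c4 : 1.640087 ^ 4 ≤ P.ρ ^ 4 := pow_le_pow_left₀ (by norm_num) hr.le 4
            have c5 : P.ρ ^ 5 ≤ 1.640088 ^ 5 := pow_le_pow_left₀ (by linarith only [hr, hr2]) hr2.le 5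
            norm_num at c1 c3 c4 c5 ⊢
            linarith only [hr, hr2, c1, c3, c4, c5]
          have := abs_le.1 b3
          linarith only [hr, hr2, b5, this]
      rcases le_total y (P.ρ - P.e0) with hy | hy
      · have := I_mono' h hy
        linarith only [hr, hr2, this]
      · have b6 : ∀ z ∈ Icc (P.ρ - P.e0) y, HasDerivWithinAt P.I (P.D z) (Icc (P.ρ - P.e0) y) z :=
          fun z _ => (I_deriv h z).hasDerivWithinAt
        have b7 := Convex.norm_image_sub_le_of_norm_hasDerivWithin_le (C := 1.2) b6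
          (fun z _ => by
            rw [Real.norm_eq_abs, abs_le]
            constructor
            · have : 0 ≤ P.D z := by
                rcases le_total z 0 with h0' | h0'
                · rw [D_zero h h0']
                · rw [← D_zero h (le_refl (0 : ℝ))]
                  exact D_mono h h0'
              linarith only [hr, hr2, this]
            · exact b2 z)
          (convex_Icc _ _) (left_mem_Icc.2 hy) (right_mem_Icc.2 hy)
        rw [Real.norm_eq_abs, Real.norm_eq_abs, abs_of_nonneg (sub_nonneg.2 hy)] at b7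
        have b8 := (abs_le.1 b7).2
        linarith only [h1, hr, he, b8]
    rw [I_rho h] at b1
    linarith only [hr, hr2, b1]
  have a3 : (0 : ℝ) ≤ (2.4221445 - y) ^ 2 / 2 ∧ (2.4221445 - y) ^ 2 / 2 ≤ 0.6 := by
    constructor
    · positivity
    · nlinarith only [h0, hr, hr2, h1]
  have e : P.mb (y + P.e0) * P.I y - (2.4221445 - y) ^ 2 / 2 * PI y =
      (P.mb (y + P.e0) - (2.4221445 - y) ^ 2 / 2) * P.I y +
        (2.4221445 - y) ^ 2 / 2 * (P.I y - PI y) := by
    ring
  rw [e]
  calc _ ≤ |(P.mb (y + P.e0) - (2.4221445 - y) ^ 2 / 2) * P.I y| +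
        |(2.4221445 - y) ^ 2 / 2 * (P.I y - PI y)| := abs_add_le _ _
    _ ≤ 0.000003 * 1.01 + 0.6 * 0.000015 := by
        rw [abs_mul, abs_mul, abs_of_nonneg a4, abs_of_nonneg a3.1]
        exact add_le_add (mul_le_mul a1 a5 a4 (by norm_num))
          (mul_le_mul a3.2 a2 (abs_nonneg _) (by norm_num))
    _ ≤ 0.00002 := by norm_num

private theorem f_int (h : P.Star) :
    (∫ y in (0:ℝ)..(P.ρ - P.e0), P.mb (y + P.e0) * P.I y) ≤ 0.4487 ∧
    0.4485 ≤ ∫ y in (0:ℝ)..(P.ρ - P.e0), P.mb (y + P.e0) * P.I y := by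
  have e1 := h.e_lo
  have e2 := h.e_hi
  have r1 := h.ρ_lo
  have r2 := h.ρ_hi
  have hc := f_cont h
  have hi : ∀ a b : ℝ, IntervalIntegrable (fun y => P.mb (y + P.e0) * P.I y) volume a b :=
    fun a b => hc.intervalIntegrable a b
  have hnn : ∀ y, 0 ≤ y → 0 ≤ P.mb (y + P.e0) * P.I y := fun y hy =>
    mul_nonneg (mb_nonneg h (by linarith only [e1, r1, r2, hy])) (I_nonneg' h y)
  have s1 : (∫ y in (0:ℝ)..(P.ρ - P.e0), P.mb (y + P.e0) * P.I y) =
      (∫ y in (0:ℝ)..1.396452, P.mb (y + P.e0) * P.I y) +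
        ∫ y in (1.396452:ℝ)..(P.ρ - P.e0), P.mb (y + P.e0) * P.I y :=
    (intervalIntegral.integral_add_adjacent_intervals (hi _ _) (hi _ _)).symm
  have u1 : (∫ y in (0:ℝ)..1.396452, P.mb (y + P.e0) * P.I y) ≤
      pa 0 L1u 1.396452 - pa 0 L1u 0 := by
    refine int_le (by norm_num) hc _ fun x hx0 hx1 => ?_
    rw [pL1u]
    have := (abs_le.1 (f_app1 h hx0 hx1)).2
    linarith only [this]
  have l1 : pa 0 L1l 1.396452 - pa 0 L1l 0 ≤
      ∫ y in (0:ℝ)..1.396452, P.mb (y + P.e0) * P.I y := by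
    refine int_ge (by norm_num) hc _ fun x hx0 hx1 => ?_
    rw [pL1l]
    have := (abs_le.1 (f_app1 h hx0 hx1)).1
    linarith only [this]
  have u2 : (∫ y in (1.396452:ℝ)..(P.ρ - P.e0), P.mb (y + P.e0) * P.I y) ≤
      pa 0 L2u 1.51827 - pa 0 L2u 1.396452 := by
    refine le_trans ?_ (int_le (f := fun y => P.mb (y + P.e0) * P.I y) (by norm_num) hc _
      fun x hx0 hx1 => ?_)
    · refine intervalIntegral.integral_mono_interval le_rfl (by linarith only [e2, r1, r2]) (by linarith only [e1, r2]) ?_ (hi _ _)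
      refine (ae_restrict_iff' measurableSet_Ioc).2 (Eventually.of_forall fun y hy => ?_)
      exact hnn y (by linarith only [hy.1, r1, r2, hy])
    · rw [pL2u]
      have := (abs_le.1 (f_app2 h hx0 hx1)).2
      linarith only [this]
  have l2 : pa 0 L2l 1.518268 - pa 0 L2l 1.396452 ≤
      ∫ y in (1.396452:ℝ)..(P.ρ - P.e0), P.mb (y + P.e0) * P.I y := by
    refine le_trans (int_ge (f := fun y => P.mb (y + P.e0) * P.I y) (by norm_num) hc _
      fun x hx0 hx1 => ?_) ?_
    · rw [pL2l]
      have := (abs_le.1 (f_app2 h hx0 (by linarith only [r1, r2, hx1]))).1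
      linarith only [this]
    · refine intervalIntegral.integral_mono_interval le_rfl (by norm_num) (by linarith only [e2, r1]) ?_ (hi _ _)
      refine (ae_restrict_iff' measurableSet_Ioc).2 (Eventually.of_forall fun y hy => ?_)
      exact hnn y (by linarith only [hy.1, r1, r2, hy])
  have n1 : pa 0 L1u 1.396452 - pa 0 L1u 0 + (pa 0 L2u 1.51827 - pa 0 L2u 1.396452) ≤ 0.4487 := by
    simp only [pa, L1u, L2u]
    norm_num
  have n2 : 0.4485 ≤
      pa 0 L1l 1.396452 - pa 0 L1l 0 + (pa 0 L2l 1.518268 - pa 0 L2l 1.396452) := by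
    simp only [pa, L1l, L2l]
    norm_num
  rw [s1]
  constructor <;> linarith

theorem psi_io (h : P.Star) : 0.8316 ≤ P.psi P.io ∧ P.psi P.io ≤ 0.8318 := by
  obtain ⟨-, -, hL1, hL2⟩ := Y_pos h
  obtain ⟨f1, f2⟩ := f_int h
  have hL0 : 0 < P.L := by linarith only [hL1, hL2]
  have he : (∫ y in (0:ℝ)..(P.ρ - P.e0), P.mb (y + P.e0) * P.io y) =
      (∫ y in (0:ℝ)..(P.ρ - P.e0), P.mb (y + P.e0) * P.I y) / P.L := by
    rw [← intervalIntegral.integral_div]
    refine intervalIntegral.integral_congr fun y _ => ?_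
    simp only [io]
    ring
  unfold psi
  rw [he]
  constructor
  · have : (∫ y in (0:ℝ)..(P.ρ - P.e0), P.mb (y + P.e0) * P.I y) / P.L ≤ 0.1684 := by
      rw [div_le_iff₀ hL0]
      linarith only [hL1, hL2, f1]
    linarith only [this]
  · have : 0.1682 ≤ (∫ y in (0:ℝ)..(P.ρ - P.e0), P.mb (y + P.e0) * P.I y) / P.L := by
      rw [le_div_iff₀ hL0]
      linarith only [hL1, hL2, f2]
    linarith only [this]

private noncomputable def W1 : List ℝ :=
    [0, 0, 23915227831895926951141008694743411/3906250000000000000000000000000000,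
    -907808393333741885065358547/390625000000000000000000000,
    -550587776152543202199/390625000000000000000, 42975719692149/97656250000000,
    83485791/781250000, -456/15625]

private noncomputable def W2 : List ℝ :=
    [7971742610631975650380336231581137/3906250000000000000000000000000000,
    -302602797777913961688452849/390625000000000000000000000,
    -183529258717514400733/390625000000000000000, 14325239897383/97656250000000,
    27828597/781250000, -152/15625]

private noncomputable def W3 : List ℝ :=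
    [23467159915521/8000000000000, -4844289/2000000, 1/2]

private noncomputable def W4 : List ℝ :=
    [-539744678056983/40000000000000, 45750889315521/2000000000000, -5994289/500000, 2]


private theorem pW1 (y : ℝ) : pe W1 y = (PM (1.518269 - y) + 0.000013) * (3 * y ^ 2) := by
  simp only [pe, W1, PM]
  ring

private theorem pW2 (y : ℝ) : pe W2 y = PM (1.518269 - y) + 0.000013 := by
  simp only [pe, W2, PM]
  ring

private theorem pW3 (y : ℝ) : pe W3 y = (2.4221445 - y) ^ 2 / 2 + 0.000003 := by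
  simp only [pe, W3]
  ring

private theorem pW4 (y : ℝ) :
    pe W4 y = ((2.4221445 - y) ^ 2 / 2 + 0.000003) * (1 + 4 * (y - 1.4)) := by
  simp only [pe, W4]
  ring

private theorem w_cont' : Continuous w := by
  unfold w
  fun_prop

private theorem w_nonneg' (y : ℝ) : 0 ≤ w y := by
  unfold w
  have : 0 ≤ min (3 * y ^ 2) 1 := le_min (by positivity) zero_le_one
  have : 0 ≤ max (y - 1.4) 0 := le_max_right _ _
  linarith

private theorem w_int (h : P.Star) :
    ∫ y in (0:ℝ)..(P.ρ - P.e0), P.mb (y + P.e0) * w y ≤ 1.2 := by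
  have e1 := h.e_lo
  have e2 := h.e_hi
  have r1 := h.ρ_lo
  have r2 := h.ρ_hi
  have hc : Continuous fun y => P.mb (y + P.e0) * w y :=
    ((mb_cont h).comp (by fun_prop)).mul w_cont'
  have hi : ∀ a b : ℝ, IntervalIntegrable (fun y => P.mb (y + P.e0) * w y) volume a b :=
    fun a b => hc.intervalIntegrable a b
  have hnn : ∀ y, 0 ≤ y → 0 ≤ P.mb (y + P.e0) * w y := fun y hy =>
    mul_nonneg (mb_nonneg h (by linarith only [e1, r1, r2, hy])) (w_nonneg' y)
  have s0 : (∫ y in (0:ℝ)..(P.ρ - P.e0), P.mb (y + P.e0) * w y) ≤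
      ∫ y in (0:ℝ)..1.51827, P.mb (y + P.e0) * w y := by
    refine intervalIntegral.integral_mono_interval le_rfl (by linarith only [e2, r1, r2]) (by linarith only [e1, r2]) ?_ (hi _ _)
    refine (ae_restrict_iff' measurableSet_Ioc).2 (Eventually.of_forall fun y hy => ?_)
    exact hnn y (by linarith only [hy.1, hy])
  have s1 : (∫ y in (0:ℝ)..1.51827, P.mb (y + P.e0) * w y) =
      (∫ y in (0:ℝ)..0.577, P.mb (y + P.e0) * w y) +
      (∫ y in (0.577:ℝ)..1.396452, P.mb (y + P.e0) * w y) +
      (∫ y in (1.396452:ℝ)..1.4, P.mb (y + P.e0) * w y) +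
        ∫ y in (1.4:ℝ)..1.51827, P.mb (y + P.e0) * w y := by
    rw [intervalIntegral.integral_add_adjacent_intervals (hi _ _) (hi _ _),
      intervalIntegral.integral_add_adjacent_intervals (hi _ _) (hi _ _),
      intervalIntegral.integral_add_adjacent_intervals (hi _ _) (hi _ _)]
  have hw1 : ∀ y : ℝ, y ≤ 1.4 → w y ≤ 3 * y ^ 2 ∧ w y ≤ 1 := by
    intro y hy
    unfold w
    rw [max_eq_right (by linarith only [hy] : y - 1.4 ≤ 0)]
    constructor
    · have := min_le_left (3 * y ^ 2) 1
      linarith only [this]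
    · have := min_le_right (3 * y ^ 2) 1
      linarith only [this]
  have hw2 : ∀ y : ℝ, 1.4 ≤ y → w y ≤ 1 + 4 * (y - 1.4) := by
    intro y hy
    unfold w
    rw [max_eq_left (by linarith only [hy] : 0 ≤ y - 1.4)]
    have := min_le_right (3 * y ^ 2) 1
    linarith only [this]
  have u1 : (∫ y in (0:ℝ)..0.577, P.mb (y + P.e0) * w y) ≤ pa 0 W1 0.577 - pa 0 W1 0 := by
    refine int_le (by norm_num) hc _ fun x hx0 hx1 => ?_
    rw [pW1]
    have h1 := (abs_le.1 (mbA h hx0 (by linarith only [r1, r2, hx1]))).2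
    have h2 := mb_nonneg h (v := x + P.e0) (by linarith only [e1, r1, r2, hx0])
    exact mul_le_mul (by linarith only [h1]) (hw1 x (by linarith only [r1, r2, hx1])).1 (w_nonneg' x) (by linarith only [h1, h2])
  have u2 : (∫ y in (0.577:ℝ)..1.396452, P.mb (y + P.e0) * w y) ≤
      pa 0 W2 1.396452 - pa 0 W2 0.577 := by
    refine int_le (by norm_num) hc _ fun x hx0 hx1 => ?_
    rw [pW2]
    have h1 := (abs_le.1 (mbA h (y := x) (by linarith only [r1, r2, hx0]) hx1)).2
    have h2 := mb_nonneg h (v := x + P.e0) (by linarith only [e1, r1, r2, hx0])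
    calc P.mb (x + P.e0) * w x ≤ P.mb (x + P.e0) * 1 :=
          mul_le_mul_of_nonneg_left (hw1 x (by linarith only [r1, r2, hx1])).2 h2
      _ ≤ _ := by linarith only [h1]
  have u3 : (∫ y in (1.396452:ℝ)..1.4, P.mb (y + P.e0) * w y) ≤
      pa 0 W3 1.4 - pa 0 W3 1.396452 := by
    refine int_le (by norm_num) hc _ fun x hx0 hx1 => ?_
    rw [pW3]
    have h1 := (abs_le.1 (mbB h hx0 (by linarith only [r1, r2, hx1]))).2
    have h2 := mb_nonneg h (v := x + P.e0) (by linarith only [e1, r1, r2, hx0])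
    calc P.mb (x + P.e0) * w x ≤ P.mb (x + P.e0) * 1 :=
          mul_le_mul_of_nonneg_left (hw1 x (by linarith only [hx1])).2 h2
      _ ≤ _ := by linarith only [h1]
  have u4 : (∫ y in (1.4:ℝ)..1.51827, P.mb (y + P.e0) * w y) ≤
      pa 0 W4 1.51827 - pa 0 W4 1.4 := by
    refine int_le (by norm_num) hc _ fun x hx0 hx1 => ?_
    rw [pW4]
    have h1 := (abs_le.1 (mbB h (y := x) (by linarith only [r1, r2, hx0]) (by linarith only [r1, r2, hx1]))).2
    have h2 := mb_nonneg h (v := x + P.e0) (by linarith only [e1, r1, r2, hx0])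
    exact mul_le_mul (by linarith only [h1]) (hw2 x hx0) (w_nonneg' x) (by positivity)
  have n1 : pa 0 W1 0.577 - pa 0 W1 0 + (pa 0 W2 1.396452 - pa 0 W2 0.577) +
      (pa 0 W3 1.4 - pa 0 W3 1.396452) + (pa 0 W4 1.51827 - pa 0 W4 1.4) ≤ 1.2 := by
    simp only [pa, W1, W2, W3, W4]
    norm_num
  linarith only [s0, s1, u1, u2, u3, u4, n1]

theorem psi_near (h : P.Star) {δ : ℝ} {i : ℝ → ℝ} (hδ : 0 ≤ δ) (hi : P.Tube δ i) :
    |P.psi i - P.psi P.io| ≤ 1.2 * δ := by
  have e1 := h.e_lo
  have e2 := h.e_hi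
  have r1 := h.ρ_lo
  have r2 := h.ρ_hi
  have hmb : Continuous fun y => P.mb (y + P.e0) := (mb_cont h).comp (by fun_prop)
  have hio : Continuous P.io := (I_cont' h).div_const _
  have i1 : IntervalIntegrable (fun y => P.mb (y + P.e0) * i y) volume 0 (P.ρ - P.e0) :=
    (hmb.mul hi.cont).intervalIntegrable _ _
  have i2 : IntervalIntegrable (fun y => P.mb (y + P.e0) * P.io y) volume 0 (P.ρ - P.e0) :=
    (hmb.mul hio).intervalIntegrable _ _
  have h1 : P.psi i - P.psi P.io = ∫ y in (0:ℝ)..(P.ρ - P.e0),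
      (P.mb (y + P.e0) * P.io y - P.mb (y + P.e0) * i y) := by
    rw [intervalIntegral.integral_sub i2 i1]
    unfold psi
    ring
  rw [h1]
  calc |∫ y in (0:ℝ)..(P.ρ - P.e0), (P.mb (y + P.e0) * P.io y - P.mb (y + P.e0) * i y)|
      ≤ ∫ y in (0:ℝ)..(P.ρ - P.e0), |P.mb (y + P.e0) * P.io y - P.mb (y + P.e0) * i y| :=
        intervalIntegral.abs_integral_le_integral_abs (by linarith only [e2, r1, r2])
    _ ≤ ∫ y in (0:ℝ)..(P.ρ - P.e0), δ * (P.mb (y + P.e0) * w y) := by
        have hcd : Continuous fun y => |P.mb (y + P.e0) * P.io y - P.mb (y + P.e0) * i y| :=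
          ((hmb.mul hio).sub (hmb.mul hi.cont)).abs
        refine intervalIntegral.integral_mono_on (by linarith only [e2, r1, r2]) (hcd.intervalIntegrable _ _)
          ((continuous_const.mul (hmb.mul w_cont')).intervalIntegrable _ _) fun y hy => ?_
        have h2 := mb_nonneg h (v := y + P.e0) (by linarith only [hy.1, e1, r1, r2, hy])
        have h3 := hi.close y hy.1 (by linarith only [hy.2, e1, r1, r2, hy])
        have h4 : P.mb (y + P.e0) * P.io y - P.mb (y + P.e0) * i y =
            P.mb (y + P.e0) * (P.io y - i y) := by ring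
        rw [h4, abs_mul, abs_of_nonneg h2, abs_sub_comm]
        calc P.mb (y + P.e0) * |i y - P.io y| ≤ P.mb (y + P.e0) * (δ * w y) :=
              mul_le_mul_of_nonneg_left h3 h2
          _ = δ * (P.mb (y + P.e0) * w y) := by ring
    _ = δ * ∫ y in (0:ℝ)..(P.ρ - P.e0), P.mb (y + P.e0) * w y := by
        rw [intervalIntegral.integral_const_mul]
    _ ≤ δ * 1.2 := mul_le_mul_of_nonneg_left (w_int h) hδ
    _ = 1.2 * δ := by ring

private theorem gf_bd (h : P.Star) {e : ℝ} {i : ℝ → ℝ} (he : 0 ≤ e) (hi0 : ∀ y, 0 ≤ i y) (v : ℝ) :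
    0 ≤ P.gf e i v ∧ P.gf e i v ≤ P.q e := by
  obtain ⟨y1, -, -, -⟩ := Y_pos h
  have hq : 0 ≤ P.q e := by
    unfold q
    exact div_nonneg zero_le_one (by linarith only [he, y1])
  refine ⟨le_max_right _ _, max_le ?_ hq⟩
  have := hi0 (v - e)
  linarith only [this]

private theorem gf_cont' {e : ℝ} {i : ℝ → ℝ} (hi : Continuous i) : Continuous (P.gf e i) := by
  unfold gf
  fun_prop

theorem Uf_crude (h : P.Star) {e : ℝ} {i : ℝ → ℝ} (he : 0 ≤ e) (hi : Continuous i)
    (hi0 : ∀ y, 0 ≤ i y) : P.Uf e i ≤ 2.789 * P.q e := by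
  have r1 := h.ρ_lo
  have r2 := h.ρ_hi
  have e1 := h.e_lo
  have u1 := h.u_lo
  have u2 := h.u_hi
  obtain ⟨y1, y2, l1, l2⟩ := Y_pos h
  have hq : 0 ≤ P.q e := by
    unfold q
    exact div_nonneg zero_le_one (by linarith only [he, r1, r2, y1])
  have hmi : ∀ a b : ℝ, IntervalIntegrable P.mb volume a b := fun a b =>
    (mb_cont h).intervalIntegrable a b
  have h1 : (∫ v in (0:ℝ)..P.Y, P.mb v * P.gf e i v) ≤ ∫ v in (0:ℝ)..P.Y, P.mb v * P.q e := by
    refine intervalIntegral.integral_mono_on (by linarith only [r1, r2, y1])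
      (((mb_cont h).mul (gf_cont' hi)).intervalIntegrable _ _)
      (((mb_cont h).mul continuous_const).intervalIntegrable _ _) fun v hv => ?_
    exact mul_le_mul_of_nonneg_left (gf_bd h he hi0 v).2 (mb_nonneg h hv.1)
  have h2 : (∫ v in (0:ℝ)..P.Y, P.mb v) = (∫ v in (0:ℝ)..P.ρ, P.mb v) + P.u ^ 3 / 6 := by
    rw [← intervalIntegral.integral_add_adjacent_intervals (hmi 0 P.ρ) (hmi P.ρ P.Y)]
    congr 1
    have h3 : (∫ v in P.ρ..P.Y, P.mb v) = ∫ v in P.ρ..P.Y, (P.Y - v) ^ 2 / 2 := by
      refine intervalIntegral.integral_congr fun v hv => ?_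
      rw [uIcc_of_le (by unfold Y; linarith only [r1, r2, u1])] at hv
      have hv1 := hv.1
      have hv2 := hv.2
      show P.mb v = (P.Y - v) ^ 2 / 2
      rw [mb_out h (by linarith only [r1, r2, e1, hv1]), max_eq_left (by linarith only [hv2])]
    rw [h3]
    have h4 : ∀ v ∈ uIcc P.ρ P.Y, HasDerivAt (fun v => -(P.Y - v) ^ 3 / 6)
        ((P.Y - v) ^ 2 / 2) v := by
      intro v _
      have h5 : HasDerivAt (fun v => P.Y - v) (-1) v := by
        simpa using (hasDerivAt_id v).const_sub P.Y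
      have h6 := ((h5.pow 3).neg).div_const 6
      have h7 : -(((3 : ℕ) : ℝ) * (P.Y - v) ^ (3 - 1) * (-1)) / 6 = (P.Y - v) ^ 2 / 2 := by
        norm_num
        ring
      rw [h7] at h6
      exact h6
    rw [intervalIntegral.integral_eq_sub_of_hasDerivAt h4
      ((by fun_prop : Continuous fun v => (P.Y - v) ^ 2 / 2).intervalIntegrable _ _)]
    unfold Y
    ring
  have h7 := mb_int h
  have h8 : P.u ^ 3 ≤ 0.903877 ^ 3 := pow_le_pow_left₀ (by linarith only [r1, r2, u1]) u2.le 3
  norm_num at h8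
  unfold Uf
  rw [intervalIntegral.integral_mul_const, h2] at h1
  have h9 : P.sg * P.q e + ((∫ v in (0:ℝ)..P.ρ, P.mb v) + P.u ^ 3 / 6) * P.q e =
      (P.L + P.u ^ 3 / 6) * P.q e := by
    rw [← h7]
    ring
  calc P.sg * P.q e + ∫ v in (0:ℝ)..P.Y, P.mb v * P.gf e i v
      ≤ P.sg * P.q e + ((∫ v in (0:ℝ)..P.ρ, P.mb v) + P.u ^ 3 / 6) * P.q e := by linarith only [h1]
    _ = (P.L + P.u ^ 3 / 6) * P.q e := h9
    _ ≤ 2.789 * P.q e := mul_le_mul_of_nonneg_right (by norm_num; linarith only [r1, r2, l2, h8]) hq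

theorem Uf_pos (h : P.Star) {e : ℝ} {i : ℝ → ℝ} (he : 0 ≤ e) (hi : Continuous i) : 0 < P.Uf e i := by
  have _ := hi
  obtain ⟨y1, -, -, -⟩ := Y_pos h
  have hs := (sg_bd h).1
  have hq : 0 < P.q e := by
    unfold q
    exact div_pos zero_lt_one (by linarith only [he, y1])
  have h1 : 0 ≤ ∫ v in (0:ℝ)..P.Y, P.mb v * P.gf e i v := by
    refine intervalIntegral.integral_nonneg (by linarith only [y1]) fun v hv => ?_
    exact mul_nonneg (mb_nonneg h hv.1) (le_max_right _ _)
  unfold Uf
  have h2 : 0 < P.sg * P.q e := mul_pos (by linarith only [hs]) hq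
  linarith only [h1, h2]

end Pool.Agent.CDk.Par
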