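import Pool.Agent.CDk.Defs
import Pool.Agent.CDk.ENC
import Pool.Agent.CDk.FNa

open MeasureTheory Set Filter Topology

namespace Pool.Agent.CDk.Par
variable {P : Par}

/-! ### private tools: integrals of polynomials given by the list of their coefficients -/

private noncomputable def pe : List ℝ → ℝ → ℝ
  | [], _ => 0
  | a :: l, x => a + x * pe l x

private noncomputable def pa : ℕ → List ℝ → ℝ → ℝ
  | _, [], _ => 0
  | k, a :: l, x => a / ((k : ℝ) + 1) * x ^ (k + 1) + pa (k + 1) l x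

private theorem pe_cont (l : List ℝ) : Continuous (pe l) := by
  induction l with
  | nil => exact continuous_const
  | cons a l ih =>
    show Continuous fun x => a + x * pe l x
    fun_prop

private theorem pa_deriv (l : List ℝ) (k : ℕ) (x : ℝ) :
    HasDerivAt (pa k l) (x ^ k * pe l x) x := by
  induction l generalizing k with
  | nil =>
    have : HasDerivAt (fun _ : ℝ => (0 : ℝ)) 0 x := hasDerivAt_const x 0
    simpa [pa, pe] using this
  | cons a l ih =>
    have h1 : HasDerivAt (fun x : ℝ => a / ((k : ℝ) + 1) * x ^ (k + 1)) (a * x ^ k) x := by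
      have h2 := (hasDerivAt_pow (k + 1) x).const_mul (a / ((k : ℝ) + 1))
      have h3 : ((k : ℝ) + 1) ≠ 0 := by positivity
      have h6 : a / ((k : ℝ) + 1) * (((k + 1 : ℕ) : ℝ) * x ^ (k + 1 - 1)) = a * x ^ k := by
        rw [Nat.add_sub_cancel]
        push_cast
        field_simp
      rw [h6] at h2
      exact h2
    have h4 := h1.add (ih (k + 1))
    have h5 : x ^ k * pe (a :: l) x = a * x ^ k + x ^ (k + 1) * pe l x := by
      simp only [pe]
      ring
    rw [h5]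
    exact h4

private theorem int_pe (l : List ℝ) (a b : ℝ) :
    ∫ x in a..b, pe l x = pa 0 l b - pa 0 l a := by
  refine intervalIntegral.integral_eq_sub_of_hasDerivAt (fun x _ => ?_)
    ((pe_cont l).intervalIntegrable _ _)
  simpa using pa_deriv l 0 x

private theorem int_le {f : ℝ → ℝ} {a b : ℝ} (hab : a ≤ b) (hf : Continuous f) (l : List ℝ)
    (h : ∀ x, a ≤ x → x ≤ b → f x ≤ pe l x) : ∫ x in a..b, f x ≤ pa 0 l b - pa 0 l a := by
  rw [← int_pe]
  exact intervalIntegral.integral_mono_on hab (hf.intervalIntegrable _ _)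
    ((pe_cont l).intervalIntegrable _ _) fun x hx => h x hx.1 hx.2

private theorem int_ge {f : ℝ → ℝ} {a b : ℝ} (hab : a ≤ b) (hf : Continuous f) (l : List ℝ)
    (h : ∀ x, a ≤ x → x ≤ b → pe l x ≤ f x) : pa 0 l b - pa 0 l a ≤ ∫ x in a..b, f x := by
  rw [← int_pe]
  exact intervalIntegral.integral_mono_on hab ((pe_cont l).intervalIntegrable _ _)
    (hf.intervalIntegrable _ _) fun x hx => h x hx.1 hx.2

private theorem I_cont' (h : P.Star) : Continuous P.I :=
  continuous_iff_continuousAt.2 fun y => (I_deriv h y).continuousAt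

private theorem w_cont' : Continuous w := by
  unfold w
  fun_prop

private theorem w_nonneg' (y : ℝ) : 0 ≤ w y := by
  unfold w
  have : 0 ≤ min (3 * y ^ 2) 1 := le_min (by positivity) zero_le_one
  have : 0 ≤ max (y - 1.4) 0 := le_max_right _ _
  linarith

private theorem gf_cont' {e : ℝ} {i : ℝ → ℝ} (hi : Continuous i) : Continuous (P.gf e i) := by
  unfold gf
  fun_prop

private theorem sq_int (Y a b : ℝ) :
    ∫ v in a..b, (Y - v) ^ 2 / 2 = ((Y - a) ^ 3 - (Y - b) ^ 3) / 6 := by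
  have h4 : ∀ v ∈ uIcc a b, HasDerivAt (fun v => -(Y - v) ^ 3 / 6) ((Y - v) ^ 2 / 2) v := by
    intro v _
    have h5 : HasDerivAt (fun v => Y - v) (-1) v := by
      simpa using (hasDerivAt_id v).const_sub Y
    have h6 := ((h5.pow 3).neg).div_const 6
    have h7 : -(((3 : ℕ) : ℝ) * (Y - v) ^ (3 - 1) * (-1)) / 6 = (Y - v) ^ 2 / 2 := by
      norm_num
      ring
    rw [h7] at h6
    exact h6
  rw [intervalIntegral.integral_eq_sub_of_hasDerivAt h4
    ((by fun_prop : Continuous fun v => (Y - v) ^ 2 / 2).intervalIntegrable _ _)]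
  ring

private noncomputable def G1 : List ℝ :=
    [5/888593, 0, 24594337/88859300, 50300/7997337, -25045/1777186, -3172/2665779, 4600/7997337]

private noncomputable def G2 : List ℝ :=
    [2666279/88859300, 0, 165970/888593, 50300/7997337, -25045/1777186, -3172/2665779,
    4600/7997337]


private theorem pG1 (y : ℝ) : pe G1 y = (PI y + 0.000015) / 2.665779 + 0.09 * y ^ 2 := by
  simp only [pe, G1, PI]
  ring

private theorem pG2 (y : ℝ) : pe G2 y = (PI y + 0.000015) / 2.665779 + 0.03 := by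
  simp only [pe, G2, PI]
  ring

private theorem int_w (l : List ℝ) (A a b : ℝ) :
    ∫ y in a..b, (A - y) ^ 2 / 2 * pe l y = A ^ 2 / 2 * (pa 0 l b - pa 0 l a) -
      A * (pa 0 (0 :: l) b - pa 0 (0 :: l) a) +
      (pa 0 (0 :: 0 :: l) b - pa 0 (0 :: 0 :: l) a) / 2 := by
  rw [← int_pe, ← int_pe, ← int_pe]
  have hi : ∀ l : List ℝ, IntervalIntegrable (pe l) volume a b := fun l =>
    (pe_cont l).intervalIntegrable a b
  have h1 : (fun y => (A - y) ^ 2 / 2 * pe l y) = fun y =>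
      (A ^ 2 / 2 * pe l y - A * pe (0 :: l) y) + pe (0 :: 0 :: l) y / 2 := by
    funext y
    simp only [pe]
    ring
  rw [h1, intervalIntegral.integral_add (((hi _).const_mul _).sub ((hi _).const_mul _))
    ((hi _).div_const _), intervalIntegral.integral_sub ((hi _).const_mul _)
    ((hi _).const_mul _), intervalIntegral.integral_const_mul,
    intervalIntegral.integral_const_mul, intervalIntegral.integral_div]

private theorem io_le (h : P.Star) {y : ℝ} (h0 : 0 ≤ y) (h1 : y ≤ 1.4) :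
    P.io y ≤ (PI y + 0.000015) / 2.665779 := by
  have hr := h.ρ_lo
  obtain ⟨-, -, l1, l2⟩ := Y_pos h
  have a1 := (abs_le.1 (I_app h h0 (by linarith))).2
  have hD : ∀ y, 0 ≤ P.D y := fun y => by
    rcases le_total y 0 with h0 | h0
    · rw [D_zero h h0]
    · rw [← D_zero h (le_refl (0 : ℝ))]
      exact D_mono h h0
  have hmono : Monotone P.I := monotone_of_deriv_nonneg (fun y => (I_deriv h y).differentiableAt)
    (fun y => by rw [(I_deriv h y).deriv]; exact hD y)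
  have a2 : 0 ≤ P.I y := by
    rw [← I_zero h (le_refl (0 : ℝ))]
    exact hmono h0
  unfold io
  calc P.I y / P.L ≤ P.I y / 2.665779 :=
        div_le_div_of_nonneg_left a2 (by norm_num) l1.le
    _ ≤ (PI y + 0.000015) / 2.665779 := by
        apply div_le_div_of_nonneg_right _ (by norm_num)
        linarith

/-- upper bound of the weighted integral of `io + 0.03 w` on `[0, 1.4]` -/
private theorem up_int (h : P.Star) {A : ℝ} (hA : 0 ≤ A) :
    ∫ y in (0:ℝ)..1.4, (A - y) ^ 2 / 2 * (P.io y + 0.03 * w y) ≤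
      A ^ 2 / 2 * 0.191556 - A * 0.194637 + 0.21338 / 2 := by
  have hio : Continuous P.io := (I_cont' h).div_const _
  have hw := w_cont'
  have hc : Continuous fun y => (A - y) ^ 2 / 2 * (P.io y + 0.03 * w y) := by fun_prop
  have hi : ∀ a b : ℝ, IntervalIntegrable
      (fun y => (A - y) ^ 2 / 2 * (P.io y + 0.03 * w y)) volume a b :=
    fun a b => hc.intervalIntegrable a b
  have hw1 : ∀ y : ℝ, y ≤ 1.4 → w y ≤ 3 * y ^ 2 ∧ w y ≤ 1 := by
    intro y hy
    unfold w
    rw [max_eq_right (by linarith : y - 1.4 ≤ 0)]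
    constructor
    · have := min_le_left (3 * y ^ 2) 1
      linarith
    · have := min_le_right (3 * y ^ 2) 1
      linarith
  have u1 : (∫ y in (0:ℝ)..0.577, (A - y) ^ 2 / 2 * (P.io y + 0.03 * w y)) ≤
      ∫ y in (0:ℝ)..0.577, (A - y) ^ 2 / 2 * pe G1 y := by
    refine intervalIntegral.integral_mono_on (by norm_num) (hi _ _)
      (((by fun_prop : Continuous fun y => (A - y) ^ 2 / 2).mul
        (pe_cont _)).intervalIntegrable _ _) fun y hy => ?_
    refine mul_le_mul_of_nonneg_left ?_ (by positivity)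
    rw [pG1]
    have h1 := io_le h hy.1 (by linarith [hy.2])
    have h2 := (hw1 y (by linarith [hy.2])).1
    linarith
  have u2 : (∫ y in (0.577:ℝ)..1.4, (A - y) ^ 2 / 2 * (P.io y + 0.03 * w y)) ≤
      ∫ y in (0.577:ℝ)..1.4, (A - y) ^ 2 / 2 * pe G2 y := by
    refine intervalIntegral.integral_mono_on (by norm_num) (hi _ _)
      (((by fun_prop : Continuous fun y => (A - y) ^ 2 / 2).mul
        (pe_cont _)).intervalIntegrable _ _) fun y hy => ?_
    refine mul_le_mul_of_nonneg_left ?_ (by positivity)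
    rw [pG2]
    have h1 := io_le h (y := y) (by linarith [hy.1]) hy.2
    have h2 := (hw1 y hy.2).2
    linarith
  rw [int_w] at u1 u2
  have n0 : (pa 0 G1 0.577 - pa 0 G1 0) + (pa 0 G2 1.4 - pa 0 G2 0.577) ≤ 0.191556 := by
    simp only [pa, G1, G2]
    norm_num
  have n1 : 0.194637 ≤ (pa 0 (0 :: G1) 0.577 - pa 0 (0 :: G1) 0) +
      (pa 0 (0 :: G2) 1.4 - pa 0 (0 :: G2) 0.577) := by
    simp only [pa, G1, G2]
    norm_num
  have n2 : (pa 0 (0 :: 0 :: G1) 0.577 - pa 0 (0 :: 0 :: G1) 0) +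
      (pa 0 (0 :: 0 :: G2) 1.4 - pa 0 (0 :: 0 :: G2) 0.577) ≤ 0.21338 := by
    simp only [pa, G1, G2]
    norm_num
  rw [← intervalIntegral.integral_add_adjacent_intervals (hi 0 0.577) (hi 0.577 1.4)]
  have n0' := mul_le_mul_of_nonneg_left n0 (by positivity : 0 ≤ A ^ 2 / 2)
  have n1' := mul_le_mul_of_nonneg_left n1 hA
  linarith

private theorem Nf_ge (h : P.Star) {δ e : ℝ} {i : ℝ → ℝ} (hδ1 : δ ≤ 0.03)
    (hi : P.Tube δ i) (he : 0 ≤ e) (he1 : e ≤ 1) :
    P.q e * (P.sg + (P.Y ^ 3 - (P.Y - e - 1.4) ^ 3) / 6) -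
      ((P.Y - e) ^ 2 / 2 * 0.191556 - (P.Y - e) * 0.194637 + 0.21338 / 2) ≤ P.Nf e i := by
  obtain ⟨y1, y2, -, -⟩ := Y_pos h
  have hio : Continuous P.io := (I_cont' h).div_const _
  have hw := w_cont'
  have hic := hi.cont
  have hg : Continuous (P.gf e i) := gf_cont' hic
  have hc : Continuous fun v => (P.Y - v) ^ 2 / 2 * P.gf e i v := by fun_prop
  have hii : ∀ a b : ℝ, IntervalIntegrable (fun v => (P.Y - v) ^ 2 / 2 * P.gf e i v) volume a b :=
    fun a b => hc.intervalIntegrable a b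
  have hq : 0 ≤ P.q e := by
    unfold q
    exact div_nonneg zero_le_one (by linarith)
  have s : (∫ v in (0:ℝ)..P.Y, (P.Y - v) ^ 2 / 2 * P.gf e i v) =
      (∫ v in (0:ℝ)..e, (P.Y - v) ^ 2 / 2 * P.gf e i v) +
      (∫ v in e..(e + 1.4), (P.Y - v) ^ 2 / 2 * P.gf e i v) +
      ∫ v in (e + 1.4)..P.Y, (P.Y - v) ^ 2 / 2 * P.gf e i v := by
    rw [intervalIntegral.integral_add_adjacent_intervals (hii _ _) (hii _ _),
      intervalIntegral.integral_add_adjacent_intervals (hii _ _) (hii _ _)]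
  have s3 : 0 ≤ ∫ v in (e + 1.4)..P.Y, (P.Y - v) ^ 2 / 2 * P.gf e i v := by
    refine intervalIntegral.integral_nonneg (by linarith) fun v _ => ?_
    exact mul_nonneg (by positivity) (le_max_right _ _)
  have s1 : (∫ v in (0:ℝ)..e, (P.Y - v) ^ 2 / 2 * P.gf e i v) =
      (P.Y ^ 3 - (P.Y - e) ^ 3) / 6 * P.q e := by
    have h1 : (∫ v in (0:ℝ)..e, (P.Y - v) ^ 2 / 2 * P.gf e i v) =
        ∫ v in (0:ℝ)..e, (P.Y - v) ^ 2 / 2 * P.q e := by
      refine intervalIntegral.integral_congr fun v hv => ?_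
      rw [uIcc_of_le he] at hv
      show (P.Y - v) ^ 2 / 2 * max (P.q e - i (v - e)) 0 = (P.Y - v) ^ 2 / 2 * P.q e
      rw [hi.zero (v - e) (by linarith [hv.2]), sub_zero, max_eq_left hq]
    rw [h1, intervalIntegral.integral_mul_const, sq_int, sub_zero]
  have s2 : (∫ v in e..(e + 1.4), (P.Y - v) ^ 2 / 2 *
      (P.q e - (P.io (v - e) + 0.03 * w (v - e)))) ≤
      ∫ v in e..(e + 1.4), (P.Y - v) ^ 2 / 2 * P.gf e i v := by
    refine intervalIntegral.integral_mono_on (by linarith)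
      ((by fun_prop : Continuous fun v => (P.Y - v) ^ 2 / 2 *
        (P.q e - (P.io (v - e) + 0.03 * w (v - e)))).intervalIntegrable _ _)
      (hii _ _) fun v hv => ?_
    refine mul_le_mul_of_nonneg_left ?_ (by positivity)
    have h1 := (abs_le.1 (hi.close (v - e) (by linarith [hv.1]) (by linarith [hv.2]))).2
    have h2 : δ * w (v - e) ≤ 0.03 * w (v - e) :=
      mul_le_mul_of_nonneg_right hδ1 (w_nonneg' _)
    refine le_trans ?_ (le_max_left _ _)
    linarith
  have s2' : (∫ v in e..(e + 1.4), (P.Y - v) ^ 2 / 2 *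
      (P.q e - (P.io (v - e) + 0.03 * w (v - e)))) =
      ((P.Y - e) ^ 3 - (P.Y - e - 1.4) ^ 3) / 6 * P.q e -
        ∫ y in (0:ℝ)..1.4, (P.Y - e - y) ^ 2 / 2 * (P.io y + 0.03 * w y) := by
    have h1 : (∫ v in e..(e + 1.4), (P.Y - v) ^ 2 / 2 *
        (P.q e - (P.io (v - e) + 0.03 * w (v - e)))) =
        ∫ y in (0:ℝ)..1.4, (P.Y - e - y) ^ 2 / 2 * (P.q e - (P.io y + 0.03 * w y)) := by
      have h2 := intervalIntegral.integral_comp_sub_right (a := e) (b := e + 1.4)
        (fun y => (P.Y - e - y) ^ 2 / 2 * (P.q e - (P.io y + 0.03 * w y))) e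
      rw [sub_self, add_sub_cancel_left] at h2
      rw [← h2]
      refine intervalIntegral.integral_congr fun v _ => ?_
      show (P.Y - v) ^ 2 / 2 * (P.q e - (P.io (v - e) + 0.03 * w (v - e))) =
        (P.Y - e - (v - e)) ^ 2 / 2 * (P.q e - (P.io (v - e) + 0.03 * w (v - e)))
      rw [show P.Y - e - (v - e) = P.Y - v by ring]
    rw [h1]
    have h3 : (fun y => (P.Y - e - y) ^ 2 / 2 * (P.q e - (P.io y + 0.03 * w y))) = fun y =>
        (P.Y - e - y) ^ 2 / 2 * P.q e - (P.Y - e - y) ^ 2 / 2 * (P.io y + 0.03 * w y) := by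
      funext y
      ring
    rw [h3, intervalIntegral.integral_sub
      ((by fun_prop : Continuous fun y => (P.Y - e - y) ^ 2 / 2 * P.q e).intervalIntegrable _ _)
      ((by fun_prop : Continuous fun y =>
        (P.Y - e - y) ^ 2 / 2 * (P.io y + 0.03 * w y)).intervalIntegrable _ _),
      intervalIntegral.integral_mul_const, sq_int, sub_zero]
  have hup := up_int h (A := P.Y - e) (by linarith)
  unfold Nf
  rw [s, s1]
  have e1 : P.q e * (P.sg + (P.Y ^ 3 - (P.Y - e - 1.4) ^ 3) / 6) =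
      P.sg * P.q e + (P.Y ^ 3 - (P.Y - e) ^ 3) / 6 * P.q e +
        ((P.Y - e) ^ 3 - (P.Y - e - 1.4) ^ 3) / 6 * P.q e := by ring
  rw [e1]
  linarith

private theorem N_key (h : P.Star) {e k A : ℝ} (hA : A = P.Y - e) (he : 0 ≤ e) (he1 : e ≤ 1)
    (hk0 : 0 ≤ k)
    (hG : (5.08793 - A) * (k + (A ^ 2 / 2 * 0.191556 - A * 0.194637 + 0.21338 / 2)) ≤
      3.2656 - (A - 1.4) ^ 3 / 6) :
    k ≤ P.q e * (P.sg + (P.Y ^ 3 - (P.Y - e - 1.4) ^ 3) / 6) -
      ((P.Y - e) ^ 2 / 2 * 0.191556 - (P.Y - e) * 0.194637 + 0.21338 / 2) := by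
  obtain ⟨y1, y2, -, -⟩ := Y_pos h
  obtain ⟨g1, g2⟩ := sg_bd h
  rw [← hA]
  have hye : 0 < P.Y + e := by linarith
  have hye2 : P.Y + e = 2 * P.Y - A := by rw [hA]; ring
  have hq : P.q e = 1 / (P.Y + e) := rfl
  have hQ : 0 ≤ A ^ 2 / 2 * 0.191556 - A * 0.194637 + 0.21338 / 2 := by
    nlinarith [sq_nonneg (A - 1.016)]
  have hY3 : 2.543961 ^ 3 ≤ P.Y ^ 3 := pow_le_pow_left₀ (by norm_num) y1.le 3
  norm_num at hY3
  have h1 : (P.Y + e) * (k + (A ^ 2 / 2 * 0.191556 - A * 0.194637 + 0.21338 / 2)) ≤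
      P.sg + (P.Y ^ 3 - (A - 1.4) ^ 3) / 6 := by
    have h2 : (P.Y + e) * (k + (A ^ 2 / 2 * 0.191556 - A * 0.194637 + 0.21338 / 2)) ≤
        (5.08793 - A) * (k + (A ^ 2 / 2 * 0.191556 - A * 0.194637 + 0.21338 / 2)) := by
      apply mul_le_mul_of_nonneg_right _ (by linarith)
      rw [hye2]
      linarith
    have h3 : (3.2656 : ℝ) ≤ P.sg + P.Y ^ 3 / 6 := by linarith
    linarith
  rw [hq, one_div, ← div_eq_inv_mul]
  have h4 : k + (A ^ 2 / 2 * 0.191556 - A * 0.194637 + 0.21338 / 2) ≤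
      (P.sg + (P.Y ^ 3 - (A - 1.4) ^ 3) / 6) / (P.Y + e) := by
    rw [le_div_iff₀ hye]
    linarith
  linarith

theorem Nf_lo (h : P.Star) {δ x : ℝ} {i : ℝ → ℝ} (hδ : 0 ≤ δ) (hδ1 : δ ≤ 0.03) (hi : P.Tube δ i)
    (hx : -P.e0 ≤ x) : (x ≤ 0.3 → 0.945 ≤ P.Nf (P.e0 + x) i) ∧ (x ≤ 0.6 → 0.92 ≤ P.Nf (P.e0 + x) i) ∧
      (x ≤ 0.8 → 0.89 ≤ P.Nf (P.e0 + x) i) := by
  have _ := hδ
  have e1 := h.e_lo
  have e2 := h.e_hi
  obtain ⟨y1, y2, -, -⟩ := Y_pos h
  refine ⟨fun hx1 => ?_, fun hx1 => ?_, fun hx1 => ?_⟩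
  · refine (N_key h rfl (by linarith) (by linarith) (by norm_num) ?_).trans
      (Nf_ge h hδ1 hi (by linarith) (by linarith))
    have a1 : 2.12214 ≤ P.Y - (P.e0 + x) := by linarith
    have a2 : P.Y - (P.e0 + x) ≤ 2.543965 := by linarith
    generalize P.Y - (P.e0 + x) = A at a1 a2
    nlinarith [mul_nonneg (sub_nonneg.2 a1) (sub_nonneg.2 a2),
      mul_nonneg (mul_nonneg (sub_nonneg.2 a1) (sub_nonneg.2 a2)) (by linarith : (0:ℝ) ≤ A)]
  · refine (N_key h rfl (by linarith) (by linarith) (by norm_num) ?_).trans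
      (Nf_ge h hδ1 hi (by linarith) (by linarith))
    have a1 : 1.82214 ≤ P.Y - (P.e0 + x) := by linarith
    have a2 : P.Y - (P.e0 + x) ≤ 2.543965 := by linarith
    generalize P.Y - (P.e0 + x) = A at a1 a2
    nlinarith [mul_nonneg (sub_nonneg.2 a1) (sub_nonneg.2 a2),
      mul_nonneg (mul_nonneg (sub_nonneg.2 a1) (sub_nonneg.2 a2)) (by linarith : (0:ℝ) ≤ A)]
  · refine (N_key h rfl (by linarith) (by linarith) (by norm_num) ?_).trans
      (Nf_ge h hδ1 hi (by linarith) (by linarith))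
    have a1 : 1.62214 ≤ P.Y - (P.e0 + x) := by linarith
    have a2 : P.Y - (P.e0 + x) ≤ 2.543965 := by linarith
    generalize P.Y - (P.e0 + x) = A at a1 a2
    nlinarith [mul_nonneg (sub_nonneg.2 a1) (sub_nonneg.2 a2),
      mul_nonneg (mul_nonneg (sub_nonneg.2 a1) (sub_nonneg.2 a2)) (by linarith : (0:ℝ) ≤ A)]

/-- trivial bounds of `Nf` -/
theorem Nf_bd (h : P.Star) {e : ℝ} {i : ℝ → ℝ} (he : 0 ≤ e) (hi : Continuous i)
    (hi0 : ∀ y, 0 ≤ i y) : P.sg * P.q e ≤ P.Nf e i ∧ P.Nf e i ≤ 3.2658 * P.q e := by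
  obtain ⟨y1, y2, -, -⟩ := Y_pos h
  obtain ⟨g1, g2⟩ := sg_bd h
  have hq : 0 ≤ P.q e := by
    unfold q
    exact div_nonneg zero_le_one (by linarith)
  have hg : Continuous (P.gf e i) := gf_cont' hi
  unfold Nf
  constructor
  · have : 0 ≤ ∫ v in (0:ℝ)..P.Y, (P.Y - v) ^ 2 / 2 * P.gf e i v := by
      refine intervalIntegral.integral_nonneg (by linarith) fun v _ => ?_
      exact mul_nonneg (by positivity) (le_max_right _ _)
    linarith
  · have h1 : (∫ v in (0:ℝ)..P.Y, (P.Y - v) ^ 2 / 2 * P.gf e i v) ≤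
        ∫ v in (0:ℝ)..P.Y, (P.Y - v) ^ 2 / 2 * P.q e := by
      refine intervalIntegral.integral_mono_on (by linarith)
        ((by fun_prop : Continuous fun v =>
          (P.Y - v) ^ 2 / 2 * P.gf e i v).intervalIntegrable _ _)
        ((by fun_prop : Continuous fun v => (P.Y - v) ^ 2 / 2 * P.q e).intervalIntegrable _ _)
        fun v _ => ?_
      refine mul_le_mul_of_nonneg_left (max_le ?_ hq) (by positivity)
      have := hi0 (v - e)
      linarith
    rw [intervalIntegral.integral_mul_const, sq_int] at h1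
    have hY3 : P.Y ^ 3 ≤ 2.543965 ^ 3 := pow_le_pow_left₀ (by linarith) y2.le 3
    norm_num at hY3
    have h2 : ((P.Y - 0) ^ 3 - (P.Y - P.Y) ^ 3) / 6 = P.Y ^ 3 / 6 := by ring
    rw [h2] at h1
    have h3 : (P.sg + P.Y ^ 3 / 6) * P.q e ≤ 3.2658 * P.q e :=
      mul_le_mul_of_nonneg_right (by norm_num; linarith) hq
    linarith

end Pool.Agent.CDk.Par
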