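import Pool.Agent.CDk.B1
import Pool.Agent.CDk.CT
import Pool.Agent.CDk.CX
import Pool.Agent.CDk.Defs
import Pool.Agent.CDk.FNa
import Pool.Agent.CDk.FNb
import Pool.Agent.CDk.Ker
import Pool.Agent.CDk.N1
import Pool.Agent.CDk.POT2
import Pool.Agent.CDk.POT3
import Pool.Agent.CDk.PS
import Pool.Agent.CDk.SO
import Pool.Agent.CDk.T1a

open MeasureTheory Set Filter Topology

namespace Pool.Agent.CDk.Par
variable {P : Par}

/-- from the increment bound to the logarithmic inequality -/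
theorem log_step {U ψ δ δ' : ℝ} (hU : 0 < U) (hψ : 0 < ψ)
    (hk : (U - ψ) + 50 * δ'^2 * ψ - 50 * δ^2 * ψ ≤ 0) :
    Real.log U + 50 * δ'^2 ≤ Real.log ψ + 50 * δ^2 := by
  have h1 : Real.log U - Real.log ψ ≤ U / ψ - 1 := by
    rw [← Real.log_div hU.ne' hψ.ne']
    exact Real.log_le_sub_one_of_pos (by positivity)
  have h2 : U / ψ - 1 + 50 * δ'^2 - 50 * δ^2 ≤ 0 := by
    have : U / ψ - 1 + 50 * δ'^2 - 50 * δ^2 = ((U - ψ) + 50 * δ'^2 * ψ - 50 * δ^2 * ψ) / ψ := by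
      field_simp
    rw [this]
    exact div_nonpos_of_nonpos_of_nonneg hk hψ.le
  linarith

/-- the form of the new tube radius -/
theorem tube_step (h : P.Star) {x B N δ' : ℝ} {i : ℝ → ℝ} (hN : 0 < N) (hNi : N ≤ P.Nf (P.e0 + x) i)
    (hB0 : 0 ≤ B) (hB : B ≤ δ' * N)
    (hH : ∀ r, 0 < r → r ≤ 2.2 → |P.If (P.e0 + x) i r - P.io r * P.Nf (P.e0 + x) i| ≤ B * w r) :
    ∀ r, 0 ≤ r → r ≤ 2.2 → |P.If (P.e0 + x) i r - P.io r * P.Nf (P.e0 + x) i|
      ≤ δ' * w r * P.Nf (P.e0 + x) i := by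
  intro r hr hr1
  have hδ' : 0 ≤ δ' := by
    by_contra hcon
    push Not at hcon
    nlinarith
  rcases hr.eq_or_lt with hr0 | hr0
  · rw [← hr0]
    have h1 : P.If (P.e0 + x) i 0 = 0 := by unfold If; simp
    have h2 : P.io 0 = 0 := by unfold io; rw [I_zero h le_rfl, zero_div]
    rw [h1, h2]
    have := pw_nonneg 0
    simp only [zero_mul, sub_self, abs_zero]
    have : 0 ≤ P.Nf (P.e0 + x) i := by linarith
    positivity
  · have h1 := hH r hr0 hr1
    have h2 := pw_nonneg r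
    calc _ ≤ _ := h1
      _ ≤ δ' * N * w r := mul_le_mul_of_nonneg_right hB h2
      _ ≤ δ' * w r * P.Nf (P.e0 + x) i := by
        have : δ' * w r * N ≤ δ' * w r * P.Nf (P.e0 + x) i :=
          mul_le_mul_of_nonneg_left hNi (by positivity)
        linarith

/-- polynomial inequalities -/
theorem poly1 {X δ ψ : ℝ} (hδ : 0 ≤ δ) (hX : 0 ≤ X) (h1 : 0.7956 ≤ ψ) (h2 : ψ ≤ 0.868) :
    -(0.11 * X^2) + δ * (1.7 * X) + 5.0955 * δ^2 + 50 * (0.0302 * X + 0.2755 * δ)^2 * ψ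
      - 50 * δ^2 * ψ ≤ 0 := by
  have h3 : 50 * (0.0302 * X + 0.2755 * δ)^2 * ψ ≤ 50 * (0.0302 * X + 0.2755 * δ)^2 * 0.868 :=
    mul_le_mul_of_nonneg_left h2 (by positivity)
  have h4 : 50 * δ^2 * 0.7956 ≤ 50 * δ^2 * ψ := mul_le_mul_of_nonneg_left h1 (by positivity)
  nlinarith only [sq_nonneg (X - 17.2 * δ), sq_nonneg δ, h3, h4]

theorem poly2 {X δ ψ : ℝ} (hδ : 0 ≤ δ) (hX : 0 ≤ X) (h1 : 0.7956 ≤ ψ) (h2 : ψ ≤ 0.868) :
    -(0.09 * X^2) + δ * (1.6 * X) + 3.4993 * δ^2 + 50 * (0.0302 * X + 0.2558 * δ)^2 * ψ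
      - 50 * δ^2 * ψ ≤ 0 := by
  have h3 : 50 * (0.0302 * X + 0.2558 * δ)^2 * ψ ≤ 50 * (0.0302 * X + 0.2558 * δ)^2 * 0.868 :=
    mul_le_mul_of_nonneg_left h2 (by positivity)
  have h4 : 50 * δ^2 * 0.7956 ≤ 50 * δ^2 * ψ := mul_le_mul_of_nonneg_left h1 (by positivity)
  nlinarith only [sq_nonneg (X - 22.5 * δ), sq_nonneg δ, h4, h3]

theorem poly3 {X δ ψ : ℝ} (hδ : 0 ≤ δ) (hX : 0 ≤ X) (h1 : 0.7956 ≤ ψ) (h2 : ψ ≤ 0.868) :
    -(0.09 * X^2) + δ * (1.45 * X) + 3.4993 * δ^2 + 50 * (0.031 * X + 0.2628 * δ)^2 * ψ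
      - 50 * δ^2 * ψ ≤ 0 := by
  have h3 : 50 * (0.031 * X + 0.2628 * δ)^2 * ψ ≤ 50 * (0.031 * X + 0.2628 * δ)^2 * 0.868 :=
    mul_le_mul_of_nonneg_left h2 (by positivity)
  have h4 : 50 * δ^2 * 0.7956 ≤ 50 * δ^2 * ψ := mul_le_mul_of_nonneg_left h1 (by positivity)
  nlinarith only [sq_nonneg (X - 22.5 * δ), sq_nonneg δ, h3, h4]

theorem poly4 {x δ : ℝ} (hx6 : 0.6 ≤ x) (hx8 : x ≤ 0.8) :
    -0.0324 - 0.105 * (x - 0.6) + δ * (1.45 * x) + 3.4993 * δ^2
          + 50 * (0.0321 * x + 0.2715 * δ)^2 * 0.868 - 50 * δ^2 * 0.7956 ≤ 0 := by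
  have c6 : -0.0324 + 0.87 * δ + 3.4993 * δ^2 + 43.4 * (0.0321 * 0.6 + 0.2715 * δ)^2 - 39.78 * δ^2 ≤ 0 := by
    nlinarith only [sq_nonneg (δ - 0.02)]
  have c8 : -0.0534 + 1.16 * δ + 3.4993 * δ^2 + 43.4 * (0.0321 * 0.8 + 0.2715 * δ)^2 - 39.78 * δ^2 ≤ 0 := by
    nlinarith only [sq_nonneg (δ - 0.0267), c6]
  nlinarith only [mul_nonneg (sub_nonneg.mpr hx8) (neg_nonneg.mpr c6),
    mul_nonneg (sub_nonneg.mpr hx6) (neg_nonneg.mpr c8),
    mul_nonneg (sub_nonneg.mpr hx6) (sub_nonneg.mpr hx8), hx8, c6, hx6, c8]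

theorem poly5 {x δ : ℝ} (hx8 : 0.8 ≤ x) (hx1 : x ≤ 1) (hδ : 0 ≤ δ) :
    -0.0324 - 0.105 * (x - 0.6) + δ * (1.45 * x) + 3.4993 * δ^2
          + 50 * 0.03^2 * 0.868 - 50 * δ^2 * 0.7956 ≤ 0 := by
  have c8 : -0.0534 + 1.16 * δ + 3.4993 * δ^2 + 0.03906 - 39.78 * δ^2 ≤ 0 := by
    nlinarith only [sq_nonneg (δ - 0.016)]
  have c1 : -0.0744 + 1.45 * δ + 3.4993 * δ^2 + 0.03906 - 39.78 * δ^2 ≤ 0 := by
    nlinarith only [sq_nonneg (δ - 0.02)]
  nlinarith only [mul_nonneg (sub_nonneg.mpr hx1) (neg_nonneg.mpr c8),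
    mul_nonneg (sub_nonneg.mpr hx8) (neg_nonneg.mpr c1), hx1, c8, hx8, c1]

theorem pot (h : P.Star) {e δ : ℝ} {i : ℝ → ℝ} (he : 0 ≤ e) (hδ : 0 ≤ δ) (hδ1 : δ ≤ 0.03)
    (hi : P.Tube δ i) : ∃ δ', 0 ≤ δ' ∧ δ' ≤ 0.03 ∧
      (∀ r, 0 ≤ r → r ≤ 2.2 → |P.If e i r - P.io r * P.Nf e i| ≤ δ' * w r * P.Nf e i) ∧
      Real.log (P.Uf e i) + 50 * δ'^2 ≤ Real.log (P.psi i) + 50 * δ^2 := by
  obtain ⟨x, rfl⟩ : ∃ x, e = P.e0 + x := ⟨e - P.e0, by ring⟩
  have hx : -P.e0 ≤ x := by linarith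
  have he0 := h.e_lo
  have he0' := h.e_hi
  have hρ := h.ρ_lo
  have hρ' := h.ρ_hi
  have hY := Y_pos h
  have hii := hi.cont
  have hψ0 := psi_io h
  have hψ1 := abs_le.mp (psi_near h hδ hi)
  have hψlo : 0.7956 ≤ P.psi i := by linarith only [hδ1, hψ0, hψ1]
  have hψhi : P.psi i ≤ 0.868 := by linarith only [hδ1, hρ, hρ', hψ0, hψ1]
  have hψpos : 0 < P.psi i := by linarith only [hδ1, hρ, hρ', hψ0, hψ1]
  have hUpos : 0 < P.Uf (P.e0 + x) i := Uf_pos h he hii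
  rcases le_or_gt x 0 with hx0 | hx0
  · -- x ≤ 0
    obtain ⟨c, hc, c1, c2, c3, -, c5⟩ := cross h he (by linarith only [hρ, hρ', hx0] : P.e0 + x ≤ P.e0 + 1.05)
    have hcc : P.ρ - P.e0 ≤ c := c5 (by linarith only [hx0])
    have hwc := (w_c h hx (by linarith only [hρ, hρ', hx0]) hc).1
    have hwc0 := pw_nonneg c
    have hwc2 : (w c)^2 ≤ 2.7225 := by nlinarith only [hwc, hρ, hρ', hwc0]
    have hSO := second_order h hδ hδ1 hi he (by linarith only [hρ, hρ', hx0]) hc (mb_cont h) (Φ₁ := 0.49) (Φ₂ := 0.65)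
      (fun v h1 h2 => by
        rw [abs_of_nonneg (mb_nonneg h (by linarith only [he, he0', hρ, hρ', hcc, h1]))]
        exact ((mb_near h hx (by linarith only [hρ, hρ', hx0]) hc h2).2 (by linarith only [h1])).1)
      (fun v h1 h2 => by
        rw [abs_of_nonneg (mb_nonneg h (by linarith only [he, he0', hρ, hρ', hcc, h1]))]
        exact ((mb_near h hx (by linarith only [hρ, hρ', hx0]) hc (by linarith only [he0', hρ, hρ', hY, hx0, c2, h2])).1 (by linarith only [h1])).1)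
    have hF := first_neg h hδ hi hx hx0 hc hcc (by linarith only [hρ, hρ', c2])
    have hU := U_split h hi hSO hF
    have hU0 := Uf_neg h hx hx0
    have hN := (Nf_lo h hδ hδ1 hi hx).1 (by linarith only [hρ, hρ', hx0])
    have hH := fun r hr hr1 => H_split h (r := r) (Φ := 0.22) hδ hδ1 hi hx (by linarith only [hρ, hρ', hx0]) hc
      (by linarith only [he0', hρ, hρ', hcc]) (by linarith only [hρ, hρ', c2]) hr hr1
      (fun v h1 h2 => (ker_bd h hx (by linarith only [hρ, hρ', hx0]) hc hr hr1 h1 h2).1) (by linarith only [he0', hρ, hρ', hY, hx0, c2])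
    rw [abs_of_nonpos hx0] at hH
    have hq : δ^2 * (w c)^2 * (3.353 * 0.22) ≤ 2.0083 * δ^2 := by nlinarith only [sq_nonneg δ, hwc2]
    have hq2 : δ^2 * (w c)^2 * (1.924 * 0.49 + 1.429 * 0.65) ≤ 5.0955 * δ^2 := by nlinarith only [sq_nonneg δ, hq, hwc2]
    have hδ2 : δ^2 ≤ 0.03 * δ := by nlinarith only [hδ, hδ1]
    refine ⟨0.0302 * (-x) + 0.2755 * δ, by nlinarith only [hδ, hx0], by nlinarith only [hδ1, he, he0', hρ, hρ'], ?_, ?_⟩
    · apply tube_step h (B := 0.0285 * (-x) + 0.2 * δ + 2.0083 * δ^2) (N := 0.945) (by norm_num) hN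
        (by nlinarith only [sq_nonneg δ, hδ, hx0]) (by nlinarith only [hδ, hx0, hδ2])
      intro r hr hr1
      refine (hH r hr hr1).trans ?_
      have := pw_nonneg r
      apply mul_le_mul_of_nonneg_right _ this
      linarith only [hq]
    · apply log_step hUpos hψpos
      have h1 : P.Uf (P.e0 + x) i - P.psi i ≤ -(0.11 * (-x)^2) + δ * (1.7 * (-x)) + 5.0955 * δ^2 := by
        have : (-x)^2 = x^2 := by ring
        rw [this]; linarith only [hU, hU0, hq2]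
      have h2 := poly1 hδ (by linarith only [hx0] : (0:ℝ) ≤ -x) hψlo hψhi
      linarith only [hU, hU0, hq2, h2]
  rcases le_or_gt x 0.8 with hx8 | hx8
  · -- 0 < x ≤ 0.8
    obtain ⟨c, hc, c1, c2, c3, c4, -⟩ := cross h he (by linarith only [hρ, hρ', hx8] : P.e0 + x ≤ P.e0 + 1.05)
    have hcc : c ≤ P.ρ - P.e0 := c4 (by linarith only [hx0])
    have hwc := (w_c h hx (by linarith only [hρ, hρ', hx8]) hc).2 hx0.le
    have hwc0 := pw_nonneg c
    have hwc2 : (w c)^2 ≤ 2.1757 := by nlinarith only [hwc, hρ, hρ', hwc0]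
    have hSO := second_order h hδ hδ1 hi he (by linarith only [hρ, hρ', hx8]) hc (mb_cont h) (Φ₁ := 0.42) (Φ₂ := 0.56)
      (fun v h1 h2 => by
        rw [abs_of_nonneg (mb_nonneg h (by linarith only [he, hρ, hρ', c1, h1]))]
        exact ((mb_near h hx (by linarith only [hρ, hρ', hx8]) hc h2).2 (by linarith only [h1])).2 hx0.le)
      (fun v h1 h2 => by
        rw [abs_of_nonneg (mb_nonneg h (by linarith only [he, hρ, hρ', c1, h1]))]
        exact ((mb_near h hx (by linarith only [hρ, hρ', hx8]) hc (by linarith only [hρ, hρ', hY, c3, h2])).1 (by linarith only [h1])).2 hx0.le)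
    have hNN := Nf_lo h hδ hδ1 hi hx
    have hH := fun r hr hr1 => H_split h (r := r) (Φ := 0.19) hδ hδ1 hi hx hx8 hc
      (by linarith only [hρ, hρ', c1]) (by linarith only [hρ, hρ', c2]) hr hr1
      (fun v h1 h2 => (ker_bd h hx hx8 hc hr hr1 h1 h2).2 hx0.le) (by linarith only [he0', hρ, hρ', hY, hx8, c2])
    rw [abs_of_nonneg hx0.le] at hH
    have hq : δ^2 * (w c)^2 * (3.353 * 0.19) ≤ 1.3861 * δ^2 := by nlinarith only [sq_nonneg δ, hwc2]
    have hq2 : δ^2 * (w c)^2 * (1.924 * 0.42 + 1.429 * 0.56) ≤ 3.4993 * δ^2 := by nlinarith only [sq_nonneg δ, hq]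
    have hδ2 : δ^2 ≤ 0.03 * δ := by nlinarith only [hδ, hδ1]
    have h3 : 50 * δ^2 * 0.7956 ≤ 50 * δ^2 * P.psi i := mul_le_mul_of_nonneg_left hψlo (by positivity)
    have hB : ∀ r, 0 < r → r ≤ 2.2 → |P.If (P.e0 + x) i r - P.io r * P.Nf (P.e0 + x) i|
        ≤ (0.0285 * x + 0.2 * δ + 1.3861 * δ^2) * w r := by
      intro r hr hr1
      refine (hH r hr hr1).trans ?_
      have := pw_nonneg r
      apply mul_le_mul_of_nonneg_right _ this
      linarith only [hq]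
    rcases le_or_gt x 0.3 with hx3 | hx3
    · have hF := first_pos h hδ hi hx0.le (by linarith only [hρ, hρ', c1]) hcc (B1_pos h hx0.le hx3 hc)
      have hU := U_split h hi hSO hF
      have hU0 := Uf_pos1 h hx0.le (by linarith only [hρ, hρ', hx3])
      refine ⟨0.0302 * x + 0.2558 * δ, by positivity, by nlinarith only [hδ1, hρ, hρ', hx3], ?_, ?_⟩
      · exact tube_step h (B := 0.0285 * x + 0.2 * δ + 1.3861 * δ^2) (N := 0.945) (by norm_num)
          (hNN.1 hx3) (by positivity) (by nlinarith only [hδ, hx0, hδ2]) hB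
      · apply log_step hUpos hψpos
        have h1 : P.Uf (P.e0 + x) i - P.psi i ≤ -(0.09 * x^2) + δ * (1.6 * x) + 3.4993 * δ^2 := by linarith only [hq2, hU, hU0]
        have h2 := poly2 hδ hx0.le hψlo hψhi
        linarith only [hq2, hU, hU0, h2]
    rcases le_or_gt x 0.6 with hx6 | hx6
    · have hF := first_pos h hδ hi hx0.le (by linarith only [hρ, hρ', c1]) hcc (B1_pos2 h hx3.le (by linarith only [hρ, hρ', hx8]) hc)
      have hU := U_split h hi hSO hF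
      have hU0 := Uf_pos1 h hx0.le hx6
      refine ⟨0.031 * x + 0.2628 * δ, by positivity, by nlinarith only [hδ1, hρ, hρ', hx6], ?_, ?_⟩
      · exact tube_step h (B := 0.0285 * x + 0.2 * δ + 1.3861 * δ^2) (N := 0.92) (by norm_num)
          (hNN.2.1 hx6) (by positivity) (by nlinarith only [hδ, hρ, hρ', hδ2, hx3]) hB
      · apply log_step hUpos hψpos
        have h1 : P.Uf (P.e0 + x) i - P.psi i ≤ -(0.09 * x^2) + δ * (1.45 * x) + 3.4993 * δ^2 := by linarith only [hq2, hU, hU0]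
        have h2 := poly3 hδ hx0.le hψlo hψhi
        linarith only [hq2, hU, hU0, h2]
    · -- 0.6 < x ≤ 0.8
      have hF := first_pos h hδ hi hx0.le (by linarith only [hρ, hρ', c1]) hcc (B1_pos2 h (by linarith only [hρ, hρ', hx6]) (by linarith only [hρ, hρ', hx8]) hc)
      have hU := U_split h hi hSO hF
      have hU0 := Uf_pos2 h hx6.le (by linarith only [hρ, hρ', hx8])
      have h1 : P.Uf (P.e0 + x) i - P.psi i ≤ -0.0324 - 0.105 * (x - 0.6) + δ * (1.45 * x) + 3.4993 * δ^2 := by linarith only [hq2, hU, hU0]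
      have hpoly := poly4 (δ := δ) hx6.le hx8
      have hδ'0 : 0 ≤ min (0.0321 * x + 0.2715 * δ) 0.03 := le_min (by positivity) (by norm_num)
      refine ⟨min (0.0321 * x + 0.2715 * δ) 0.03, hδ'0, min_le_right _ _, ?_, ?_⟩
      · intro r hr hr1
        rcases le_total (0.0321 * x + 0.2715 * δ) 0.03 with hm | hm
        · rw [min_eq_left hm]
          exact tube_step h (B := 0.0285 * x + 0.2 * δ + 1.3861 * δ^2) (N := 0.89) (by norm_num)
            (hNN.2.2 hx8) (by positivity) (by nlinarith only [hδ, hρ, hρ', hδ2, hx6]) hB r hr hr1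
        · rw [min_eq_right hm]
          exact tube_long h hδ hδ1 hi hx6.le hr hr1
      · apply log_step hUpos hψpos
        have hm2 : (min (0.0321 * x + 0.2715 * δ) 0.03)^2 ≤ (0.0321 * x + 0.2715 * δ)^2 :=
          pow_le_pow_left₀ hδ'0 (min_le_left _ _) 2
        have h2 : 50 * (min (0.0321 * x + 0.2715 * δ) 0.03)^2 * P.psi i ≤ 50 * (0.0321 * x + 0.2715 * δ)^2 * 0.868 := by
          have := mul_le_mul hm2 hψhi hψpos.le (by positivity)
          linarith only [this]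
        linarith only [hq2, h3, hU, hU0, hpoly, h2]
  rcases le_or_gt x 1 with hx1 | hx1
  · -- 0.8 < x ≤ 1
    obtain ⟨c, hc, c1, c2, c3, c4, -⟩ := cross h he (by linarith only [hρ, hρ', hx1] : P.e0 + x ≤ P.e0 + 1.05)
    have hcc : c ≤ P.ρ - P.e0 := c4 (by linarith only [hρ, hρ', hx8])
    have hwc := (w_c h hx (by linarith only [hx1]) hc).2 hx0.le
    have hwc0 := pw_nonneg c
    have hwc2 : (w c)^2 ≤ 2.1757 := by nlinarith only [hwc, hρ, hρ', hwc0]
    have hSO := second_order h hδ hδ1 hi he (by linarith only [hρ, hρ', hx1]) hc (mb_cont h) (Φ₁ := 0.42) (Φ₂ := 0.56)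
      (fun v h1 h2 => by
        rw [abs_of_nonneg (mb_nonneg h (by linarith only [he, hρ, hρ', c1, h1]))]
        exact ((mb_near h hx (by linarith only [hx1]) hc h2).2 (by linarith only [h1])).2 hx0.le)
      (fun v h1 h2 => by
        rw [abs_of_nonneg (mb_nonneg h (by linarith only [he, hρ, hρ', c1, h1]))]
        exact ((mb_near h hx (by linarith only [hx1]) hc (by linarith only [hρ, hρ', hY, c3, h2])).1 (by linarith only [h1])).2 hx0.le)
    have hF := first_pos h hδ hi hx0.le (by linarith only [hρ, hρ', c1]) hcc (B1_pos2 h (by linarith only [hρ, hρ', hx8]) (by linarith only [hx1]) hc)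
    have hU := U_split h hi hSO hF
    have hU0 := Uf_pos2 h (by linarith only [hρ, hρ', hx8]) hx1
    have hq2 : δ^2 * (w c)^2 * (1.924 * 0.42 + 1.429 * 0.56) ≤ 3.4993 * δ^2 := by nlinarith only [sq_nonneg δ, hwc2]
    have h3 : 50 * δ^2 * 0.7956 ≤ 50 * δ^2 * P.psi i := mul_le_mul_of_nonneg_left hψlo (by positivity)
    refine ⟨0.03, by norm_num, le_rfl, fun r hr hr1 => tube_long h hδ hδ1 hi (by linarith only [hρ, hρ', hx8]) hr hr1, ?_⟩
    apply log_step hUpos hψpos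
    have h1 : P.Uf (P.e0 + x) i - P.psi i ≤ -0.0324 - 0.105 * (x - 0.6) + δ * (1.45 * x) + 3.4993 * δ^2 := by linarith only [hU, hU0, hq2]
    have h2 := poly5 hx8.le hx1 hδ
    have h4 : 50 * (0.03:ℝ)^2 * P.psi i ≤ 50 * (0.03:ℝ)^2 * 0.868 :=
      mul_le_mul_of_nonneg_left hψhi (by positivity)
    linarith only [hδ1, hρ, hρ', hψ0, hψ1, hU, hU0, hq2, h3, h2]
  · -- 1 < x
    have hU := Uf_crude h he hii (tube_nonneg hi)
    have hqb : P.q (P.e0 + x) ≤ 0.2728 := by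
      unfold q
      have hL : P.Y + (P.e0 + x) = P.L + x := by unfold Y L; ring
      rw [hL, div_le_iff₀ (by linarith only [he0, hρ, hρ', hY, hx1, hL])]
      nlinarith only [he0, hρ, hρ', hY, hx1, hL]
    refine ⟨0.03, by norm_num, le_rfl, fun r hr hr1 => tube_long h hδ hδ1 hi (by linarith only [hρ, hρ', hx1]) hr hr1, ?_⟩
    apply log_step hUpos hψpos
    have h1 : P.Uf (P.e0 + x) i ≤ 0.7609 := by linarith only [hρ, hρ', hU, hqb]
    have h4 : 0.8316 - 1.2 * δ ≤ P.psi i := by linarith only [hψ0, hψ1]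
    have h3 : 50 * δ^2 * 0.7956 ≤ 50 * δ^2 * P.psi i := mul_le_mul_of_nonneg_left hψlo (by positivity)
    nlinarith only [sq_nonneg (δ - 0.014), hδ1, hρ, hρ', hψ0, hψ1, hU, hqb, h3]

end Pool.Agent.CDk.Par
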