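import Pool.Agent.CDk.FVq
import Pool.Agent.CDk.FNa
import Pool.Agent.CDk.FNb
import Pool.Agent.CDk.N1
import Pool.Agent.CDk.POT1
import Pool.Agent.CDk.POT4
import Pool.Agent.CDk.PS
import Pool.Agent.CDk.STR

open MeasureTheory Set Filter Topology

namespace Pool.Agent.CDk

variable {P : Par}

theorem FD_eq {N e r : ℝ} {D : ℝ → ℝ} (hN : 0 < N) (hr : 0 ≤ r) :
    FD P.Y e (N - I2 D P.Y) D r = N * ∫ v in (0:ℝ)..r, P.gf e (fun y => I1 D y / N) v := by
  unfold FD
  rw [max_eq_left hr, ← intervalIntegral.integral_const_mul]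
  apply intervalIntegral.integral_congr
  intro v _
  simp only [Fq_eq, Par.gf]
  rw [mul_max_of_nonneg _ _ hN.le, mul_zero, mul_sub, mul_div_cancel₀ _ hN.ne']

theorem I1_FD {N e r : ℝ} {D : ℝ → ℝ} (hD : Pf D) (hN : 0 < N) (hr : 0 ≤ r) :
    I1 (FD P.Y e (N - I2 D P.Y) D) r = N * P.If e (fun y => I1 D y / N) r := by
  have hi : Continuous (fun y => I1 D y / N) := (I1_cont hD).div_const _
  have hg : Continuous (P.gf e (fun y => I1 D y / N)) := Par.gf_contin hi
  have h1 : I1 (FD P.Y e (N - I2 D P.Y) D) r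
      = ∫ t in (0:ℝ)..r, N * ∫ v in (0:ℝ)..t, P.gf e (fun y => I1 D y / N) v := by
    unfold I1
    apply intervalIntegral.integral_congr
    intro t ht
    rw [uIcc_of_le hr] at ht
    exact FD_eq hN ht.1
  rw [h1, intervalIntegral.integral_const_mul]
  have hcont : Continuous (fun t => ∫ v in (0:ℝ)..t, P.gf e (fun y => I1 D y / N) v) :=
    intervalIntegral.continuous_primitive (fun a b => Continuous.intervalIntegrable hg a b) 0
  have h2 := intervalIntegral.integral_eq_sub_of_hasDerivAt (a := 0) (b := r)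
    (fun t _ => Par.If_deriv (P := P) (e := e) hi t) (Continuous.intervalIntegrable hcont _ _)
  have h4 : P.If e (fun y => I1 D y / N) 0 = 0 := by unfold Par.If; simp
  rw [h2, h4, sub_zero]

theorem I2_FD {N e r : ℝ} {D : ℝ → ℝ} (hD : Pf D) (hN : 0 < N) (hr : 0 ≤ r) :
    I2 (FD P.Y e (N - I2 D P.Y) D) r = N * ∫ t in (0:ℝ)..r, P.If e (fun y => I1 D y / N) t := by
  unfold I2
  rw [← intervalIntegral.integral_const_mul]
  apply intervalIntegral.integral_congr
  intro t ht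
  rw [uIcc_of_le hr] at ht
  exact I1_FD hD hN ht.1

/-- one virtual step -/
theorem VS.step (h : P.Star) {N δ e : ℝ} {D : ℝ → ℝ} (hv : VS P N δ D) (he : 0 ≤ e) (hδ : 0 ≤ δ)
    (hδ1 : δ ≤ 0.03) : ∃ N' δ', 0 ≤ δ' ∧ δ' ≤ 0.03 ∧
      VS P N' δ' (FD P.Y e (N - I2 D P.Y) D) ∧
      N' - I2 (FD P.Y e (N - I2 D P.Y) D) P.Y = P.sg * Fq P.Y e (N - I2 D P.Y) D ∧
      Phi P N' δ' (FD P.Y e (N - I2 D P.Y) D) ≤ Phi P N δ D := by
  have hY := Par.Y_pos h
  have hN := hv.pos
  have hD := hv.pf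
  have hi : Continuous (fun y => I1 D y / N) := (I1_cont hD).div_const _
  have hi0 : ∀ y, 0 ≤ (fun y => I1 D y / N) y := fun y => div_nonneg ((I1_pf hD).nonneg y) hN.le
  have hNf := Par.Nf_bd h he hi hi0
  have hq := Par.q_pos h he
  have hsg := Par.sg_bd h
  obtain ⟨δ', h1, h2, h3, h4⟩ := Par.pot h he hδ hδ1 hv.tube
  set i : ℝ → ℝ := fun y => I1 D y / N with hidef
  set G := FD P.Y e (N - I2 D P.Y) D with hG
  have hGpf : Pf G := FD_pf hD
  set Nf := P.Nf e i with hNfdef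
  have hNfpos : 0 < Nf := lt_of_lt_of_le (by nlinarith) hNf.1
  have hN' : 0 < N * Nf := mul_pos hN hNfpos
  have hI2 : I2 G P.Y = N * ∫ t in (0:ℝ)..P.Y, P.If e i t := I2_FD hD hN (by linarith)
  have hNfeq : Nf = P.sg * P.q e + ∫ t in (0:ℝ)..P.Y, P.If e i t := Par.Nf_eq hi
  have hV : N * Nf - I2 G P.Y = P.sg * Fq P.Y e (N - I2 D P.Y) D := by
    rw [hI2, hNfeq, Fq_eq]; ring
  have hI1 : ∀ r, 0 ≤ r → I1 G r / (N * Nf) = P.If e i r / Nf := by
    intro r hr
    have hh : I1 G r = N * P.If e i r := I1_FD hD hN hr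
    rw [hh]
    field_simp
  refine ⟨N * Nf, δ', h1, h2, ⟨hGpf, hN', ?_, ?_⟩, hV, ?_⟩
  · rw [hV, Fq_eq]
    have : Nf ≤ 3.2658 * P.q e := hNf.2
    nlinarith [mul_pos hN hq]
  · refine ⟨(I1_cont hGpf).div_const _, ?_, ?_, ?_⟩
    · intro a b hab
      exact div_le_div_of_nonneg_right (I1_mono hGpf hab) hN'.le
    · intro y hy
      show I1 G y / (N * Nf) = 0
      rw [I1_zero hGpf hy, zero_div]
    · intro y hy hy2
      show |I1 G y / (N * Nf) - P.io y| ≤ δ' * w y
      rw [hI1 y hy]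
      have := h3 y hy hy2
      rw [div_sub' hNfpos.ne', abs_div, abs_of_pos hNfpos, div_le_iff₀ hNfpos]
      calc |P.If e i y - Nf * P.io y| = |P.If e i y - P.io y * Nf| := by ring_nf
        _ ≤ _ := this
  · -- potential
    unfold Phi
    have hpsi : N * Nf * P.psi (fun y => I1 G y / (N * Nf)) = N * P.Uf e i := by
      have hU := Par.Uf_eq h he hi
      unfold Par.psi
      have : (∫ y in (0:ℝ)..(P.ρ - P.e0), P.mb (y + P.e0) * (I1 G y / (N * Nf)))
          = (∫ y in (0:ℝ)..(P.ρ - P.e0), P.mb (y + P.e0) * P.If e i y) / Nf := by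
        rw [← intervalIntegral.integral_div]
        apply intervalIntegral.integral_congr
        intro y hy
        rw [uIcc_of_le (by linarith [h.ρ_lo, h.e_hi])] at hy
        simp only
        rw [hI1 y hy.1]; ring
      rw [this, hU, ← hNfdef]
      field_simp
    have hpp : 0 < P.psi i := by
      have a1 := Par.psi_io h
      have a2 := abs_le.mp (Par.psi_near h hδ hv.tube)
      linarith
    have hUp : 0 < P.Uf e i := Par.Uf_pos h he hi
    rw [hpsi, Real.log_mul hN.ne' hUp.ne', Real.log_mul hN.ne' hpp.ne']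
    linarith

/-- the potential bounds `N` -/
theorem VS.bound (h : P.Star) {N δ C : ℝ} {D : ℝ → ℝ} (hv : VS P N δ D) (hδ : 0 ≤ δ) (hδ1 : δ ≤ 0.03)
    (hC : Phi P N δ D ≤ C) : N ≤ 2 * Real.exp C := by
  have a1 := Par.psi_io h
  have a2 := abs_le.mp (Par.psi_near h hδ hv.tube)
  have hN := hv.pos
  have hp : 0.7 ≤ P.psi (fun y => I1 D y / N) := by linarith
  unfold Phi at hC
  have h1 : Real.log (N * P.psi (fun y => I1 D y / N)) ≤ C := by nlinarith [sq_nonneg δ]
  have h2 : N * P.psi (fun y => I1 D y / N) ≤ Real.exp C := by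
    rwa [← Real.log_le_iff_le_exp (by positivity)]
  nlinarith [Real.exp_pos C]

end Pool.Agent.CDk
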