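import Pool.Agent.CDk.Defs
import Pool.Agent.CDk.FIN2
import Pool.Agent.CDk.FNa
import Pool.Agent.CDk.FV
import Pool.Agent.CDk.GAP
import Pool.Agent.CDk.STR

open MeasureTheory Set Filter Topology

namespace Pool.Agent.CDk

/-- one long excursion (`T ≥ κ`) of a solution after a history of the opposite sign -/
theorem excursion {P : Par} (h : P.Star) {κ : ℝ} (hκ0 : 0 ≤ κ) (hκ : κ < P.Y + P.s) {x y : ℝ → ℝ}
    {t0 : ℝ} (hx : Sol x y t0 κ) {z T σ V : ℝ} {D : ℝ → ℝ} (hσ : σ = 1 ∨ σ = -1) (hz : t0 + κ ≤ z)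
    (hT0 : 0 < T) (hT : κ ≤ T) (hD : Pf D) (hV : 0 < V) (hx0 : x z = 0) (hxT : x (z + T) = 0)
    (hpos : ∀ t ∈ Ioo 0 T, 0 < σ * x (z + t)) (hneg : ∀ r ∈ Icc 0 κ, σ * x (z - r) ≤ 0)
    (hdom : ∀ r ∈ Icc 0 (min P.Y κ), |x (z - r)| ≤ D r) (hsl : P.sg * |y z| ≤ V) :
    (|y (z + T)| ≤ Fq P.Y (T - κ) (Real.sinh (max (κ - P.Y) 0) / P.sg * V) D) ∧
    (∀ r ∈ Icc 0 (min P.Y κ), |x (z + T - r)|
      ≤ FD P.Y (T - κ) (Real.sinh (max (κ - P.Y) 0) / P.sg * V) D r) ∧
    (∀ t ∈ Icc 0 T, |x (z + t)| ≤ V + I2 D P.Y) := by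
  have hY := Par.Y_pos h
  have hsg := Par.sg_bd h
  have hs_lo := h.s_lo
  have hs_hi := h.s_hi
  have hσ2 : σ * σ = 1 := by rcases hσ with rfl | rfl <;> norm_num
  have hσa : |σ| = 1 := by rcases hσ with rfl | rfl <;> norm_num
  set τ0 := max (κ - P.Y) 0 with hτ0
  have hτ00 : 0 ≤ τ0 := le_max_right _ _
  have hτ1 : τ0 < P.s := max_lt (by linarith) (by linarith)
  have hτκ : τ0 ≤ κ := max_le (by linarith) hκ0
  have hY' : κ - τ0 = min P.Y κ := by
    rcases le_total κ P.Y with h1 | h1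
    · rw [hτ0, max_eq_right (by linarith), min_eq_right h1]; ring
    · rw [hτ0, max_eq_left (by linarith), min_eq_left h1]; ring
  have hminpos : 0 ≤ min P.Y κ := le_min (by linarith) hκ0
  -- the translated functions
  set u : ℝ → ℝ := fun t => σ * x (z + t) with hu
  set v : ℝ → ℝ := fun t => σ * y (z + t) with hv
  have hut : ∀ t ∈ Icc 0 T, HasDerivWithinAt u (v t) (Icc 0 T) t := by
    intro t ht
    have h1 := hx.dx (z + t) (by linarith [ht.1])
    have h2 : HasDerivWithinAt (fun t => z + t) 1 (Icc 0 T) t := (hasDerivWithinAt_id t _).const_add z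
    have h3 := HasDerivWithinAt.scomp (t' := Ici t0) t h1 h2 (fun s hs => mem_Ici.mpr (by linarith [hs.1]))
    have h4 := h3.const_mul σ
    simpa [hu, hv, Function.comp_def] using h4
  have hvac : AbsolutelyContinuousOnInterval v 0 T :=
    ac_const_mul σ (ac_shift (hx.ac (z + 0) (z + T) (by linarith only [hκ0, hz]) (by linarith)))
  have hu0 : u 0 = 0 := by simp [hu, hx0]
  have huT : u T = 0 := by simp [hu, hxT]
  have hupos : ∀ t ∈ Icc 0 T, 0 ≤ u t := by
    intro t ht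
    rcases ht.1.eq_or_lt with h1 | h1
    · rw [← h1, hu0]
    rcases ht.2.eq_or_lt with h2 | h2
    · rw [h2, huT]
    · exact (hpos t ⟨h1, h2⟩).le
  -- the acceleration
  have hae := ae_shift z hx.eq
  have hchoose : ∀ t, ∃ a : ℝ, (∃ c θ, 0 ≤ c ∧ c ≤ 1 ∧ 0 ≤ θ ∧ θ ≤ κ ∧
      HasDerivAt y (c * x (z + t - θ)) (z + t)) → HasDerivAt v a t ∧ ∃ c θ, 0 ≤ c ∧ c ≤ 1 ∧ 0 ≤ θ ∧
        θ ≤ κ ∧ a = σ * (c * x (z + t - θ)) := by
    intro t
    by_cases hc : ∃ c θ, 0 ≤ c ∧ c ≤ 1 ∧ 0 ≤ θ ∧ θ ≤ κ ∧ HasDerivAt y (c * x (z + t - θ)) (z + t)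
    · obtain ⟨c, θ, c0, c1, θ0, θ1, hd⟩ := hc
      refine ⟨σ * (c * x (z + t - θ)), fun _ => ⟨?_, c, θ, c0, c1, θ0, θ1, rfl⟩⟩
      have h2 : HasDerivAt (fun t => z + t) 1 t := (hasDerivAt_id t).const_add z
      have h3 := HasDerivAt.scomp t hd h2
      have h4 := h3.const_mul σ
      simpa [hv, Function.comp_def] using h4
    · exact ⟨0, fun h => absurd h hc⟩
  choose a ha using hchoose
  have ha1 : ∀ᵐ t, t ∈ Ioo 0 T → HasDerivAt v (a t) t ∧ ∃ c θ, 0 ≤ c ∧ c ≤ 1 ∧ 0 ≤ θ ∧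
        θ ≤ κ ∧ a t = σ * (c * x (z + t - θ)) := by
    filter_upwards [hae] with t ht htI
    exact ha t (ht (by linarith [htI.1]))
  have hlow : ∀ᵐ t, t ∈ Ioo τ0 T → -(D (κ - t)) ≤ a t := by
    filter_upwards [ha1] with t ht htI
    obtain ⟨-, c, θ, c0, c1, θ0, θ1, rfl'⟩ := ht ⟨by linarith [htI.1], htI.2⟩
    rw [rfl']
    have hDn : 0 ≤ D (κ - t) := hD.nonneg _
    rcases le_total θ t with h1 | h1
    · -- inside the gap
      have : 0 ≤ σ * x (z + (t - θ)) := hupos (t - θ) ⟨by linarith, by linarith [htI.2]⟩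
      have e1 : σ * (c * x (z + t - θ)) = c * (σ * x (z + (t - θ))) := by
        rw [show z + t - θ = z + (t - θ) by ring]; ring
      rw [e1]
      have := mul_nonneg c0 this
      linarith
    · have h2 := hdom (θ - t) ⟨by linarith, by rw [← hY']; linarith [htI.1]⟩
      have h3 : D (θ - t) ≤ D (κ - t) := hD.mono (by linarith)
      have e1 : σ * (c * x (z + t - θ)) = c * (σ * x (z - (θ - t))) := by
        rw [show z + t - θ = z - (θ - t) by ring]; ring
      rw [e1]
      have h4 : |σ * x (z - (θ - t))| ≤ D (κ - t) := by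
        rw [abs_mul, hσa, one_mul]; linarith
      have h5 := (abs_le.mp h4).1
      nlinarith only [hsg, c0, h5, c1, hDn]
  have hupp : ∀ᵐ t, t ∈ Ioo 0 τ0 → ∀ B, 0 ≤ B → (∀ t' ∈ Icc 0 t, u t' ≤ B) → a t ≤ B + (fun _ => (0:ℝ)) (κ - t) := by
    filter_upwards [ha1] with t ht htI B hB0 hB
    have htT : t < T := by linarith [htI.2]
    obtain ⟨-, c, θ, c0, c1, θ0, θ1, rfl'⟩ := ht ⟨htI.1, htT⟩
    rw [rfl', add_zero]
    rcases le_total θ t with h1 | h1
    · have h2 := hB (t - θ) ⟨by linarith, by linarith⟩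
      have e1 : σ * (c * x (z + t - θ)) = c * u (t - θ) := by
        simp only [hu]
        rw [show z + t - θ = z + (t - θ) by ring]; ring
      rw [e1]
      have h3 := hupos (t - θ) ⟨by linarith, by linarith⟩
      nlinarith only [hsg, hB0, c1, c0, h2]
    · have h2 := hneg (θ - t) ⟨by linarith, by linarith [htI.1]⟩
      have e1 : σ * (c * x (z + t - θ)) = c * (σ * x (z - (θ - t))) := by
        rw [show z + t - θ = z - (θ - t) by ring]; ring
      rw [e1]
      nlinarith only [hB0, hsg, c0, h2]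
  have hτT : τ0 < T := by
    rcases hτκ.eq_or_lt with h1 | h1
    · rw [h1]
      rw [h1, sub_self] at hY'
      have : κ ≤ 0 := by
        rcases min_choice P.Y κ with h2 | h2
        · linarith
        · linarith
      linarith
    · linarith
  have G := gap (κ := κ) (T := T) (t0 := τ0) (E := fun _ => 0) (a := a) hD monotone_const
    (fun _ => le_rfl) hτ00 (by linarith) hτκ hτT hut hvac
    (by filter_upwards [ha1] with t ht htI using (ht htI).1) hlow hupp hu0 huT hupos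
  simp only [mul_zero, intervalIntegral.integral_zero, add_zero] at G
  have hneg0 : I2 D (κ - T) = 0 := (I2_pf hD).zero _ (by linarith only [hT])
  have hneg1 : I1 D (κ - T) = 0 := I1_zero hD (by linarith)
  rw [hneg0, hneg1] at G
  simp only [sub_zero, zero_sub, add_zero] at G
  obtain ⟨g1, g2, g3⟩ := G
  have hv0 : 0 ≤ v 0 := slope_nonneg hT0 (hut 0 ⟨le_rfl, hT0.le⟩) hu0 hupos
  have hvT : v T ≤ 0 := slope_nonpos hT0 (hut T ⟨hT0.le, le_rfl⟩) huT hupos
  have hv0' : v 0 = |y z| := by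
    have : |v 0| = |y z| := by simp only [hv, add_zero]; rw [abs_mul, hσa, one_mul]
    rw [← this, abs_of_nonneg hv0]
  have hvT' : -(v T) = |y (z + T)| := by
    have : |v T| = |y (z + T)| := by simp only [hv]; rw [abs_mul, hσa, one_mul]
    rw [← this, abs_of_nonpos hvT]
  have hsh0 : 0 ≤ Real.sinh τ0 := Real.sinh_nonneg_iff.mpr hτ00
  have hsh1 : Real.sinh τ0 ≤ P.sg := by
    unfold Par.sg; exact Real.sinh_le_sinh.mpr hτ1.le
  set lam := Real.sinh τ0 / P.sg with hlam
  have hlam0 : 0 ≤ lam := div_nonneg hsh0 (by linarith only [hsg])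
  have hlam1 : lam ≤ 1 := (div_le_one (by linarith)).mpr hsh1
  set A := v 0 * Real.sinh τ0 with hA
  have hA1 : A ≤ lam * V := by
    rw [hA, hv0', hlam]
    have : P.sg * |y z| * (Real.sinh τ0 / P.sg) ≤ V * (Real.sinh τ0 / P.sg) :=
      mul_le_mul_of_nonneg_right hsl hlam0
    have e1 : P.sg * |y z| * (Real.sinh τ0 / P.sg) = |y z| * Real.sinh τ0 := by
      have : P.sg ≠ 0 := by linarith
      field_simp
    linarith only [this, e1]
  have hA0 : 0 ≤ A := mul_nonneg hv0 hsh0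
  -- comparison of q
  have hI2n := (I2_pf hD).nonneg
  have hq : (A + I2 D (κ - τ0)) / (T - τ0) ≤ Fq P.Y (T - κ) (lam * V) D := by
    unfold Fq
    rcases le_total κ P.Y with h1 | h1
    · have e0 : τ0 = 0 := by rw [hτ0, max_eq_right (by linarith)]
      have eA : A = 0 := by rw [hA, e0]; simp
      have elam : lam = 0 := by rw [hlam, e0]; simp
      rw [e0, eA, elam, zero_mul, zero_add, sub_zero, sub_zero, zero_add]
      have h2 := I2_convex hD hκ0 h1 (by linarith only [hY, hsg] : 0 < P.Y)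
      rw [div_le_div_iff₀ hT0 (by linarith)]
      have h3 : I2 D κ * P.Y ≤ κ * I2 D P.Y := by
        rw [div_mul_eq_mul_div, le_div_iff₀ (by linarith only [hY, hsg])] at h2
        exact h2
      nlinarith only [hI2n κ, hI2n P.Y, mul_nonneg (hI2n P.Y) (sub_nonneg.mpr hT), mul_nonneg (hI2n P.Y) (mul_nonneg (sub_nonneg.mpr hT) (sub_nonneg.mpr h1)), mul_nonneg (hI2n κ) (sub_nonneg.mpr hT), h3, hI2n, hT, h1, hY]
    · have e0 : κ - τ0 = P.Y := by rw [hY', min_eq_left h1]
      rw [e0, show T - τ0 = P.Y + (T - κ) by rw [← e0]; ring]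
      apply div_le_div_of_nonneg_right _ (by linarith)
      linarith
  refine ⟨?_, ?_, ?_⟩
  · rw [← hvT']; exact g1.trans hq
  · intro r hr
    have h1 := g2 r ⟨hr.1, by
      have := hr.2; rw [← hY'] at this; linarith⟩
    have h2 : |x (z + T - r)| = u (T - r) := by
      have h3 : 0 ≤ u (T - r) := hupos _ ⟨by have := hr.2.trans (min_le_right _ _); linarith, by linarith only [hr.1, hr]⟩
      rw [← abs_of_nonneg h3]
      simp only [hu]
      rw [abs_mul, hσa, one_mul, show z + T - r = z + (T - r) by ring]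
    rw [h2]
    have h4 := FD_sup (Y := P.Y) (e := T - κ) (V := lam * V) hD (by linarith only [hY, hsg]) (by linarith)
      (mul_nonneg hlam0 hV.le) hr.1 (le_refl r)
    rw [show r - (T - κ) = r + κ - T by ring] at h4
    have h5 : r * ((A + I2 D (κ - τ0)) / (T - τ0)) ≤ r * Fq P.Y (T - κ) (lam * V) D :=
      mul_le_mul_of_nonneg_left hq hr.1
    linarith only [h1, h4, h5]
  · intro t ht
    have h0 := hupos t ht
    have habs : |x (z + t)| = u t := by
      rw [← abs_of_nonneg h0]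
      simp only [hu]
      rw [abs_mul, hσa, one_mul]
    rw [habs]
    have hlV : lam * V ≤ V := by nlinarith only [hV, hlam1]
    rcases le_total t τ0 with h1 | h1
    · have := g3 t ⟨ht.1, h1⟩
      have := hI2n P.Y
      linarith
    · have h2 := g2 (T - t) ⟨by linarith [ht.2], by linarith⟩
      rw [show T - (T - t) = t by ring] at h2
      have h3 : 0 ≤ I2 D (T - t + κ - T) := hI2n _
      have h4 : (A + I2 D (κ - τ0)) / (T - τ0) * (T - τ0) = A + I2 D (κ - τ0) :=
        div_mul_cancel₀ _ (by linarith)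
      have h5 : I2 D (κ - τ0) ≤ I2 D P.Y := (I2_pf hD).mono (by rw [hY']; exact min_le_left _ _)
      have h6 : 0 ≤ (A + I2 D (κ - τ0)) / (T - τ0) := div_nonneg (by linarith only [hI2n (κ - τ0), hA0, hI2n]) (by linarith)
      nlinarith only [hA1, hlV, h2, h3, h4, h5, hsg, hvT, h1, g1]

end Pool.Agent.CDk
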