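import Pool.Agent.CDk.Defs
import Pool.Agent.CDk.FIN1
import Pool.Agent.CDk.FIN2
import Pool.Agent.CDk.FIN3
import Pool.Agent.CDk.FIN4
import Pool.Agent.CDk.FNa
import Pool.Agent.CDk.FV
import Pool.Agent.CDk.GAP
import Pool.Agent.CDk.STR

open MeasureTheory Set Filter Topology

namespace Pool.Agent.CDk

/-- the invariant at the zero `z`: the actual state is at most `c` times a virtual state -/
structure Inv (P : Par) (x y : ℝ → ℝ) (κ Φ c z : ℝ) (N δ : ℝ) (D : ℝ → ℝ) : Prop where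
  vs : VS P N δ D
  δ0 : 0 ≤ δ
  δ1 : δ ≤ 0.03
  phi : Phi P N δ D ≤ Φ
  slope : P.sg * |y z| ≤ c * (N - I2 D P.Y)
  dom : ∀ r ∈ Icc 0 (min P.Y κ), |x (z - r)| ≤ c * D r

theorem slow_decay {P : Par} (h : P.Star) {κ : ℝ} (hκ0 : 0 ≤ κ) (hκ : κ < P.Y + P.s) {x y : ℝ → ℝ}
    {t0 : ℝ} (hx : Sol x y t0 κ) {z : ℕ → ℝ} (hz0 : t0 ≤ z 0) (hzt : Tendsto z atTop atTop)
    (hz : ∀ n, x (z n) = 0 ∧ z n < z (n+1) ∧ κ ≤ z (n+1) - z n ∧ ∀ t ∈ Ioo (z n) (z (n+1)), x t ≠ 0) :
    Tendsto x atTop (𝓝 0) := by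
  have hY := Par.Y_pos h
  have hsg := Par.sg_bd h
  have hs_lo := h.s_lo
  have hmono : StrictMono z := strictMono_nat_of_lt_succ (fun n => (hz n).2.1)
  have hzle : ∀ n, t0 ≤ z n := fun n => hz0.trans (hmono.monotone (Nat.zero_le n))
  have hcont : ContinuousOn x (Ici t0) := fun t ht => (hx.dx t ht).continuousWithinAt
  -- signs
  have hsign : ∀ n, ∃ σ : ℝ, (σ = 1 ∨ σ = -1) ∧ ∀ t ∈ Ioo (z n) (z (n+1)), 0 < σ * x t := by
    intro n
    exact sign_const (hcont.mono (fun t ht => mem_Ici.mpr ((hzle n).trans ht.1.le))) (hz n).2.2.2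
  choose σ hσ1 hσ2 using hsign
  -- alternation
  have halt : ∀ n, σ (n+1) = -σ n := by
    intro n
    by_contra hne
    have hs : σ (n+1) = σ n := by
      rcases hσ1 n with h1 | h1 <;> rcases hσ1 (n+1) with h2 | h2 <;> rw [h1, h2] at hne ⊢ <;>
        first | rfl | (exfalso; apply hne; norm_num)
    set T := z (n+1+1) - z (n+1) with hT
    have hT0 : 0 < T := by linarith [(hz (n+1)).2.1]
    have hu : ∀ t ∈ Icc 0 T, HasDerivWithinAt (fun t => σ n * x (z (n+1) + t)) (σ n * y (z (n+1) + t)) (Icc 0 T) t := by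
      intro t ht
      have h1 := hx.dx (z (n+1) + t) (by linarith [ht.1, hzle (n+1)])
      have h2 : HasDerivWithinAt (fun t => z (n+1) + t) 1 (Icc 0 T) t := (hasDerivWithinAt_id t _).const_add _
      have h3 := HasDerivWithinAt.scomp (t' := Ici t0) t h1 h2
        (fun s hs => mem_Ici.mpr (by linarith [hs.1, hzle (n+1)]))
      have h4 := h3.const_mul (σ n)
      simpa [Function.comp_def] using h4
    have hvac : AbsolutelyContinuousOnInterval (fun t => σ n * y (z (n+1) + t)) 0 T :=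
      ac_const_mul _ (ac_shift (hx.ac _ _ (by linarith [hzle (n+1)]) (by linarith)))
    have hge : ∀ t ∈ Icc (z n) (z (n+1+1)), 0 ≤ σ n * x t := by
      intro t ht
      rcases lt_trichotomy t (z (n+1)) with h1 | h1 | h1
      · rcases ht.1.eq_or_lt with h2 | h2
        · rw [← h2, (hz n).1, mul_zero]
        · exact (hσ2 n t ⟨h2, h1⟩).le
      · rw [h1, (hz (n+1)).1, mul_zero]
      · rcases ht.2.eq_or_lt with h2 | h2
        · rw [h2, (hz (n+1+1)).1, mul_zero]
        · rw [← hs]; exact (hσ2 (n+1) t ⟨h1, h2⟩).le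
    have ha : ∀ᵐ t, t ∈ Ioo 0 T → ∃ a, 0 ≤ a ∧ HasDerivAt (fun t => σ n * y (z (n+1) + t)) a t := by
      have hae := ae_shift (z (n+1)) hx.eq
      filter_upwards [hae] with t ht htI
      obtain ⟨c, θ, c0, c1, θ0, θ1, hd⟩ := ht (by linarith [htI.1, hzle (n+1)])
      refine ⟨σ n * (c * x (z (n+1) + t - θ)), ?_, ?_⟩
      · have h5 := hge (z (n+1) + t - θ) ⟨by linarith [htI.1, (hz n).2.2.1], by linarith [htI.2]⟩
        have : σ n * (c * x (z (n+1) + t - θ)) = c * (σ n * x (z (n+1) + t - θ)) := by ring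
        rw [this]; exact mul_nonneg c0 h5
      · have h2 : HasDerivAt (fun t => z (n+1) + t) 1 t := (hasDerivAt_id t).const_add _
        have h3 := HasDerivAt.scomp t hd h2
        have h4 := h3.const_mul (σ n)
        simpa [Function.comp_def] using h4
    have hle := convex_zero hT0 hu hvac ha (by simp [(hz (n+1)).1]) (by simp [hT, (hz (n+1+1)).1]) (T/2) ⟨by linarith, by linarith⟩
    have hgt := hσ2 (n+1) (z (n+1) + T/2) ⟨by linarith, by linarith⟩
    rw [hs] at hgt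
    linarith
  -- strictness
  set lam := Real.sinh (max (κ - P.Y) 0) / P.sg with hlam
  have hlam0 : 0 ≤ lam := div_nonneg (Real.sinh_nonneg_iff.mpr (le_max_right _ _)) (by linarith)
  have hlam1 : lam < 1 := by
    rw [hlam, div_lt_one (by linarith)]
    unfold Par.sg
    exact Real.sinh_lt_sinh.mpr (max_lt (by linarith) (by linarith))
  obtain ⟨η, hη0, hη1, hstr⟩ := F_strict (Y := P.Y) (by linarith) hlam0 hlam1
  have hmin : ∀ r ∈ Icc 0 (min P.Y κ), r ≤ P.Y ∧ r ≤ κ :=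
    fun r hr => ⟨hr.2.trans (min_le_left _ _), hr.2.trans (min_le_right _ _)⟩
  -- the initial bound
  have hinit : ∃ Φ N δ D, Inv P x y κ Φ 1 (z 1) N δ D := by
    have hyc : ContinuousOn y (Icc (z 0) (z 1)) := by
      have := (hx.ac (z 0) (z 1) hz0 (hz 0).2.1.le).continuousOn
      rwa [uIcc_of_le (hz 0).2.1.le] at this
    obtain ⟨B, hB⟩ := isCompact_Icc.exists_bound_of_continuousOn hyc
    have hB0 : 0 ≤ B := (norm_nonneg _).trans (hB (z 0) ⟨le_rfl, (hz 0).2.1.le⟩)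
    have hlip : ∀ r, 0 ≤ r → r ≤ κ → |x (z 1 - r)| ≤ B * r := by
      intro r hr hr1
      have h1 : z 1 - r ∈ Icc (z 0) (z 1) := ⟨by linarith [(hz 0).2.2.1], by linarith⟩
      have h2 := (convex_Icc (z 0) (z 1)).norm_image_sub_le_of_norm_hasDerivWithin_le
        (f := x) (f' := y) (C := B)
        (fun t ht => (hx.dx t (hz0.trans ht.1)).mono (fun s hs => mem_Ici.mpr (hz0.trans hs.1)))
        (fun t ht => hB t ht) (⟨(hz 0).2.1.le, le_rfl⟩ : z 1 ∈ Icc (z 0) (z 1)) h1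
      rw [(hz 1).1, sub_zero, Real.norm_eq_abs, Real.norm_eq_abs] at h2
      rwa [show z 1 - r - z 1 = -r by ring, abs_neg, abs_of_nonneg hr] at h2
    set C := 3 * B + 1 with hC
    have hC0 : 0 < C := by linarith
    obtain ⟨hvs, hop⟩ := VS_star h hC0
    refine ⟨_, _, 0, _, ⟨hvs, le_rfl, by norm_num, le_rfl, ?_, ?_⟩⟩
    · rw [hop, one_mul]
      have h1 := hB (z 1) ⟨(hz 0).2.1.le, le_rfl⟩
      rw [Real.norm_eq_abs] at h1
      have : |y (z 1)| ≤ C := by linarith
      nlinarith only [hB0, h1, hY, hsg]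
    · intro r hr
      have h1 := hlip r hr.1 (hmin r hr).2
      have h2 := D_lower h hr.1 (hmin r hr).1
      rw [one_mul]
      nlinarith only [hr.1, mul_nonneg hC0.le (sub_nonneg.mpr h2), h1, hr, hC0, h2, hsg, hB0]
  obtain ⟨Φ, N1, δ1, D1, hinv1⟩ := hinit
  -- one step
  have hstep : ∀ n c N δ D, 0 < c → Inv P x y κ Φ c (z (n+1)) N δ D →
      (∃ N' δ' D', Inv P x y κ Φ ((1 - η) * c) (z (n+1+1)) N' δ' D') ∧
      ∀ t ∈ Icc (z (n+1)) (z (n+1+1)), |x t| ≤ c * (2 * Real.exp Φ) := by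
    intro n c N δ D hc hI
    have hN := hI.vs.pos
    have hD := hI.vs.pf
    have hV : 0 < N - I2 D P.Y := by linarith [hI.vs.op]
    set T := z (n+1+1) - z (n+1) with hT
    have hT0 : 0 < T := by linarith [(hz (n+1)).2.1]
    have hTκ : κ ≤ T := (hz (n+1)).2.2.1
    have hcD : Pf (fun r => c * D r) := hD.smul hc.le
    have hE := excursion h hκ0 hκ hx (z := z (n+1)) (T := T) (σ := σ (n+1)) (V := c * (N - I2 D P.Y))
      (D := fun r => c * D r) (hσ1 (n+1)) (by linarith [(hz n).2.2.1, hzle n]) hT0 hTκ hcD (mul_pos hc hV)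
      (hz (n+1)).1 (by rw [hT, add_sub_cancel]; exact (hz (n+1+1)).1)
      (fun t ht => hσ2 (n+1) _ ⟨by linarith [ht.1], by linarith [ht.2]⟩)
      (fun r hr => by
        rw [halt n]
        rcases hr.1.eq_or_lt with h1 | h1
        · rw [← h1, sub_zero, (hz (n+1)).1, mul_zero]
        · rcases le_or_gt (z (n+1) - r) (z n) with h2 | h2
          · have : z (n+1) - r = z n := le_antisymm h2 (by linarith [(hz n).2.2.1, hr.2])
            rw [this, (hz n).1, mul_zero]
          · have := hσ2 n (z (n+1) - r) ⟨h2, by linarith⟩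
            linarith)
      hI.dom hI.slope
    have hzT : z (n+1) + T = z (n+1+1) := by rw [hT]; ring
    rw [hzT] at hE
    obtain ⟨e1, e2, e3⟩ := hE
    have he : 0 ≤ T - κ := by linarith
    obtain ⟨N', δ', d0, d1, hvs', hop', hphi'⟩ := hI.vs.step h he hI.δ0 hI.δ1
    obtain ⟨s1, s2⟩ := hstr (T - κ) (N - I2 D P.Y) D he hV hD (by linarith [hI.vs.op])
    have hh := F_homog (Y := P.Y) (e := T - κ) (V := lam * (N - I2 D P.Y)) (c := c) (D := D) hc.le
    have hlin : lam * (c * (N - I2 D P.Y)) = c * (lam * (N - I2 D P.Y)) := by ring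
    rw [hlin, hh.1] at e1
    rw [hlin] at e2
    refine ⟨⟨N', δ', _, ⟨hvs', d0, d1, hphi'.trans hI.phi, ?_, ?_⟩⟩, ?_⟩
    · rw [hop']
      have : |y (z (n+1+1))| ≤ (1 - η) * c * Fq P.Y (T - κ) (N - I2 D P.Y) D := by
        have := mul_le_mul_of_nonneg_left s1 hc.le
        linarith
      nlinarith only [this, hY, hsg]
    · intro r hr
      have h1 := e2 r hr
      rw [hh.2 r] at h1
      have h2 := mul_le_mul_of_nonneg_left (s2 r hr.1 (hmin r hr).1) hc.le
      linarith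
    · intro t ht
      have h1 := e3 (t - z (n+1)) ⟨by linarith [ht.1], by linarith [ht.2]⟩
      rw [show z (n+1) + (t - z (n+1)) = t by ring, I2_smul] at h1
      have h2 := hI.vs.bound h hI.δ0 hI.δ1 hI.phi
      have h3 := mul_le_mul_of_nonneg_left h2 hc.le
      linarith
  -- all n
  have hall : ∀ n, ∃ N δ D, Inv P x y κ Φ ((1 - η)^n) (z (n+1)) N δ D := by
    intro n
    induction n with
    | zero => exact ⟨N1, δ1, D1, by simpa using hinv1⟩
    | succ n ih =>
      obtain ⟨N, δ, D, hI⟩ := ih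
      obtain ⟨⟨N', δ', D', h'⟩, -⟩ := hstep n _ N δ D (pow_pos (by linarith) n) hI
      refine ⟨N', δ', D', ?_⟩
      rwa [pow_succ']
  have hbound : ∀ n, ∀ t ∈ Icc (z (n+1)) (z (n+1+1)), |x t| ≤ (1 - η)^n * (2 * Real.exp Φ) := by
    intro n
    obtain ⟨N, δ, D, hI⟩ := hall n
    exact (hstep n _ N δ D (pow_pos (by linarith) n) hI).2
  -- conclusion
  rw [Metric.tendsto_atTop]
  intro ε hε
  have hpow : Tendsto (fun n : ℕ => (1 - η)^n * (2 * Real.exp Φ)) atTop (𝓝 (0 * (2 * Real.exp Φ))) :=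
    (tendsto_pow_atTop_nhds_zero_of_lt_one (by linarith) (by linarith)).mul_const _
  rw [zero_mul] at hpow
  obtain ⟨n0, hn0⟩ := (Metric.tendsto_atTop.mp hpow ε hε)
  refine ⟨z (n0+1), fun t ht => ?_⟩
  rw [Real.dist_eq, sub_zero]
  -- find the gap
  obtain ⟨m, hm⟩ := (hzt.eventually (eventually_gt_atTop t)).exists
  have hex : ∃ m, t < z m := ⟨m, hm⟩
  classical
  set k := Nat.find hex with hk
  have hk1 : t < z k := Nat.find_spec hex
  have hk2 : n0 + 1 < k := by
    by_contra hcon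
    push Not at hcon
    have := hmono.monotone hcon
    linarith
  obtain ⟨j, hj⟩ : ∃ j, k = n0 + 1 + j + 1 := ⟨k - (n0 + 2), by omega⟩
  have hk3 : z (n0 + 1 + j) ≤ t := by
    by_contra hcon
    push Not at hcon
    have := Nat.find_min hex (m := n0 + 1 + j) (by omega)
    exact this hcon
  have hb := hbound (n0 + j) t ⟨by rw [show n0 + j + 1 = n0 + 1 + j by ring]; exact hk3, by
    rw [show n0 + j + 1 + 1 = n0 + 1 + j + 1 by ring, ← hj]; exact hk1.le⟩
  have hn := hn0 (n0 + j) (by omega)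
  rw [Real.dist_eq, sub_zero] at hn
  exact lt_of_le_of_lt (hb.trans (le_abs_self _)) hn

end Pool.Agent.CDk
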