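import Pool.Agent.CDk.Defs

open MeasureTheory Set Filter Topology

namespace Pool.Agent.CDk

namespace FP

noncomputable def WL (c : ℕ → ℝ) (e1 e2 t1 t2 : ℝ) (n j : ℕ) : ℝ :=
  ∑ k ∈ Finset.range n, c k * ((if k % 2 = 0 then (max (t1 - k * e2) 0)^(2*k+j)
    else -(max (t2 - k * e1) 0)^(2*k+j)) / ((2*k+j).factorial : ℝ))

noncomputable def WU (c : ℕ → ℝ) (e1 e2 t1 t2 : ℝ) (n j : ℕ) : ℝ :=
  ∑ k ∈ Finset.range n, c k * ((if k % 2 = 0 then (max (t2 - k * e1) 0)^(2*k+j)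
    else -(max (t1 - k * e2) 0)^(2*k+j)) / ((2*k+j).factorial : ℝ))

noncomputable def W (c : ℕ → ℝ) (e : ℝ) (n j : ℕ) (t : ℝ) : ℝ :=
  ∑ k ∈ Finset.range n, (-1 : ℝ)^k * c k * (max (t - k * e) 0)^(2*k+j) / ((2*k+j).factorial : ℝ)

theorem W_bd {c : ℕ → ℝ} (hc : ∀ k, 0 ≤ c k) {e1 e e2 t1 t t2 : ℝ} (h1 : e1 ≤ e) (h2 : e ≤ e2)
    (h3 : t1 ≤ t) (h4 : t ≤ t2) (n j : ℕ) :
    WL c e1 e2 t1 t2 n j ≤ W c e n j t ∧ W c e n j t ≤ WU c e1 e2 t1 t2 n j := by
  have key : ∀ k : ℕ, (max (t1 - k * e2) 0)^(2*k+j) ≤ (max (t - k * e) 0)^(2*k+j) ∧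
      (max (t - k * e) 0)^(2*k+j) ≤ (max (t2 - k * e1) 0)^(2*k+j) := by
    intro k
    have hk : (0:ℝ) ≤ k := Nat.cast_nonneg k
    constructor
    · apply pow_le_pow_left₀ (le_max_right _ _)
      apply max_le_max _ le_rfl
      nlinarith only [mul_le_mul_of_nonneg_left h2 hk, h3, h2, hk]
    · apply pow_le_pow_left₀ (le_max_right _ _)
      apply max_le_max _ le_rfl
      nlinarith only [mul_le_mul_of_nonneg_left h1 hk, h4, h1, hk]
  unfold WL WU W
  constructor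
  · apply Finset.sum_le_sum
    intro k _
    have hf : (0:ℝ) < ((2*k+j).factorial : ℝ) := by positivity
    obtain ⟨ha, hb⟩ := key k
    split_ifs with h
    · rw [(Nat.even_iff.2 h).neg_one_pow, one_mul, mul_div_assoc]
      exact mul_le_mul_of_nonneg_left (by gcongr) (hc k)
    · have ho : Odd k := Nat.odd_iff.2 (by omega)
      rw [ho.neg_one_pow, mul_div_assoc, neg_one_mul, neg_mul, neg_div, mul_neg, neg_le_neg_iff]
      exact mul_le_mul_of_nonneg_left (by gcongr) (hc k)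
  · apply Finset.sum_le_sum
    intro k _
    have hf : (0:ℝ) < ((2*k+j).factorial : ℝ) := by positivity
    obtain ⟨ha, hb⟩ := key k
    split_ifs with h
    · rw [(Nat.even_iff.2 h).neg_one_pow, one_mul, mul_div_assoc]
      exact mul_le_mul_of_nonneg_left (by gcongr) (hc k)
    · have ho : Odd k := Nat.odd_iff.2 (by omega)
      rw [ho.neg_one_pow, mul_div_assoc, neg_one_mul, neg_mul, neg_div, mul_neg, neg_le_neg_iff]
      exact mul_le_mul_of_nonneg_left (by gcongr) (hc k)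

theorem Zs_W (e : ℝ) (n j : ℕ) (t : ℝ) : Zs e n j t = W (fun _ => 1) e n j t := by
  unfold Zs W; simp

theorem Cs_W (e : ℝ) (n j : ℕ) (t : ℝ) : Cs e n j t = W (fun k => (k:ℝ)+1) e n j t := by
  unfold Cs W; rfl

theorem Zs_bd {e1 e e2 t1 t t2 : ℝ} (h1 : e1 ≤ e) (h2 : e ≤ e2)
    (h3 : t1 ≤ t) (h4 : t ≤ t2) (n j : ℕ) :
    WL (fun _ => 1) e1 e2 t1 t2 n j ≤ Zs e n j t ∧
      Zs e n j t ≤ WU (fun _ => 1) e1 e2 t1 t2 n j := by
  rw [Zs_W]; exact W_bd (fun _ => zero_le_one) h1 h2 h3 h4 n j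

theorem Cs_bd {e1 e e2 t1 t t2 : ℝ} (h1 : e1 ≤ e) (h2 : e ≤ e2)
    (h3 : t1 ≤ t) (h4 : t ≤ t2) (n j : ℕ) :
    WL (fun k => (k:ℝ)+1) e1 e2 t1 t2 n j ≤ Cs e n j t ∧
      Cs e n j t ≤ WU (fun k => (k:ℝ)+1) e1 e2 t1 t2 n j := by
  rw [Cs_W]; exact W_bd (fun k => by positivity) h1 h2 h3 h4 n j

theorem n1 : 0 < WL (fun _ => 1) 0.121818172 0.121818182 1.6400871 1.6400871 15 0 := by
  norm_num [WL, WU, Finset.sum_range_succ, Nat.factorial, max_def]

theorem n2 : WU (fun _ => 1) 0.121818172 0.121818182 1.6400872 1.6400872 15 0 < 0 := by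
  norm_num [WL, WU, Finset.sum_range_succ, Nat.factorial, max_def]

theorem p1 : 0 < WL (fun _ => 1) 0.121818172 0.121818172 1.6400871473 1.6400871473 15 0 := by
  norm_num [WL, WU, Finset.sum_range_succ, Nat.factorial, max_def]

theorem p2 : WU (fun _ => 1) 0.121818172 0.121818172 1.6400871474 1.6400871474 15 0 < 0 := by
  norm_num [WL, WU, Finset.sum_range_succ, Nat.factorial, max_def]

theorem q1 : 0 < WL (fun _ => 1) 0.121818182 0.121818182 1.6400871536 1.6400871536 15 0 := by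
  norm_num [WL, WU, Finset.sum_range_succ, Nat.factorial, max_def]

theorem q2 : WU (fun _ => 1) 0.121818182 0.121818182 1.6400871537 1.6400871537 15 0 < 0 := by
  norm_num [WL, WU, Finset.sum_range_succ, Nat.factorial, max_def]

structure Bx (e t A1 A2 B1 B2 C1 C2 a1 a2 b1 b2 c1 c2 : ℝ) : Prop where
  hA1 : A1 ≤ Cs e 15 2 (t - e)
  hA2 : Cs e 15 2 (t - e) ≤ A2
  hB1 : B1 ≤ Cs e 15 3 (t - e)
  hB2 : Cs e 15 3 (t - e) ≤ B2
  hC1 : C1 ≤ Cs e 15 4 (t - e)
  hC2 : Cs e 15 4 (t - e) ≤ C2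
  ha1 : a1 ≤ Zs e 15 1 t
  ha2 : Zs e 15 1 t ≤ a2
  hb1 : b1 ≤ Zs e 15 0 (t + e)
  hb2 : Zs e 15 0 (t + e) ≤ b2
  hc1 : c1 ≤ Zs e 15 1 (t + e)
  hc2 : Zs e 15 1 (t + e) ≤ c2

theorem pbx {e t : ℝ} (h1 : 0.121818172 ≤ e) (h2 : e ≤ 0.121818172) (h3 : 1.6400871473 ≤ t) (h4 : t ≤ 1.6400871474) :
    Bx e t 0.853232360263 0.853232360515 0.498011364852 0.498011365002 0.201317682650 0.201317682719 1.099961936119 1.099961936351 (-0.133667816950) (-0.133667816722) 1.091830316729 1.091830316988 := by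
  have k1 : (1.5182689753 : ℝ) ≤ t - e := by linarith only [h2, h3]
  have k2 : t - e ≤ 1.5182689754 := by linarith only [h1, h4]
  have k3 : (1.7619053193 : ℝ) ≤ t + e := by linarith only [h1, h3]
  have k4 : t + e ≤ 1.7619053194 := by linarith only [h2, h4]
  constructor
  · refine le_trans ?_ (Cs_bd h1 h2 k1 k2 15 2).1
    norm_num [WL, WU, Finset.sum_range_succ, Nat.factorial, max_def]
  · refine le_trans (Cs_bd h1 h2 k1 k2 15 2).2 ?_
    norm_num [WL, WU, Finset.sum_range_succ, Nat.factorial, max_def]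
  · refine le_trans ?_ (Cs_bd h1 h2 k1 k2 15 3).1
    norm_num [WL, WU, Finset.sum_range_succ, Nat.factorial, max_def]
  · refine le_trans (Cs_bd h1 h2 k1 k2 15 3).2 ?_
    norm_num [WL, WU, Finset.sum_range_succ, Nat.factorial, max_def]
  · refine le_trans ?_ (Cs_bd h1 h2 k1 k2 15 4).1
    norm_num [WL, WU, Finset.sum_range_succ, Nat.factorial, max_def]
  · refine le_trans (Cs_bd h1 h2 k1 k2 15 4).2 ?_
    norm_num [WL, WU, Finset.sum_range_succ, Nat.factorial, max_def]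
  · refine le_trans ?_ (Zs_bd h1 h2 h3 h4 15 1).1
    norm_num [WL, WU, Finset.sum_range_succ, Nat.factorial, max_def]
  · refine le_trans (Zs_bd h1 h2 h3 h4 15 1).2 ?_
    norm_num [WL, WU, Finset.sum_range_succ, Nat.factorial, max_def]
  · refine le_trans ?_ (Zs_bd h1 h2 k3 k4 15 0).1
    norm_num [WL, WU, Finset.sum_range_succ, Nat.factorial, max_def]
  · refine le_trans (Zs_bd h1 h2 k3 k4 15 0).2 ?_
    norm_num [WL, WU, Finset.sum_range_succ, Nat.factorial, max_def]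
  · refine le_trans ?_ (Zs_bd h1 h2 k3 k4 15 1).1
    norm_num [WL, WU, Finset.sum_range_succ, Nat.factorial, max_def]
  · refine le_trans (Zs_bd h1 h2 k3 k4 15 1).2 ?_
    norm_num [WL, WU, Finset.sum_range_succ, Nat.factorial, max_def]

theorem qbx {e t : ℝ} (h1 : 0.121818182 ≤ e) (h2 : e ≤ 0.121818182) (h3 : 1.6400871536 ≤ t) (h4 : t ≤ 1.6400871537) :
    Bx e t 0.853232365159 0.853232365411 0.498011364516 0.498011364666 0.201317681629 0.201317681697 1.099961944651 1.099961944884 (-0.133667828860) (-0.133667828632) 1.091830323874 1.091830324132 := by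
  have k1 : (1.5182689716 : ℝ) ≤ t - e := by linarith only [h2, h3]
  have k2 : t - e ≤ 1.5182689717 := by linarith only [h1, h4]
  have k3 : (1.7619053356 : ℝ) ≤ t + e := by linarith only [h1, h3]
  have k4 : t + e ≤ 1.7619053357 := by linarith only [h2, h4]
  constructor
  · refine le_trans ?_ (Cs_bd h1 h2 k1 k2 15 2).1
    norm_num [WL, WU, Finset.sum_range_succ, Nat.factorial, max_def]
  · refine le_trans (Cs_bd h1 h2 k1 k2 15 2).2 ?_
    norm_num [WL, WU, Finset.sum_range_succ, Nat.factorial, max_def]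
  · refine le_trans ?_ (Cs_bd h1 h2 k1 k2 15 3).1
    norm_num [WL, WU, Finset.sum_range_succ, Nat.factorial, max_def]
  · refine le_trans (Cs_bd h1 h2 k1 k2 15 3).2 ?_
    norm_num [WL, WU, Finset.sum_range_succ, Nat.factorial, max_def]
  · refine le_trans ?_ (Cs_bd h1 h2 k1 k2 15 4).1
    norm_num [WL, WU, Finset.sum_range_succ, Nat.factorial, max_def]
  · refine le_trans (Cs_bd h1 h2 k1 k2 15 4).2 ?_
    norm_num [WL, WU, Finset.sum_range_succ, Nat.factorial, max_def]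
  · refine le_trans ?_ (Zs_bd h1 h2 h3 h4 15 1).1
    norm_num [WL, WU, Finset.sum_range_succ, Nat.factorial, max_def]
  · refine le_trans (Zs_bd h1 h2 h3 h4 15 1).2 ?_
    norm_num [WL, WU, Finset.sum_range_succ, Nat.factorial, max_def]
  · refine le_trans ?_ (Zs_bd h1 h2 k3 k4 15 0).1
    norm_num [WL, WU, Finset.sum_range_succ, Nat.factorial, max_def]
  · refine le_trans (Zs_bd h1 h2 k3 k4 15 0).2 ?_
    norm_num [WL, WU, Finset.sum_range_succ, Nat.factorial, max_def]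
  · refine le_trans ?_ (Zs_bd h1 h2 k3 k4 15 1).1
    norm_num [WL, WU, Finset.sum_range_succ, Nat.factorial, max_def]
  · refine le_trans (Zs_bd h1 h2 k3 k4 15 1).2 ?_
    norm_num [WL, WU, Finset.sum_range_succ, Nat.factorial, max_def]

theorem zbx {e t : ℝ} (h1 : 0.121818172 ≤ e) (h2 : e ≤ 0.121818182) (h3 : 1.6400871 ≤ t) (h4 : t ≤ 1.6400872) :
    Bx e t 0.8532322189 0.8532325061 0.4980112807 0.4980114480 0.2013176443 0.2013177196 1.0999618172 1.0999620638 (-0.1336679618) (-0.1336676827) 1.0918301696 1.0918304714 := by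
  have k1 : (1.518268918 : ℝ) ≤ t - e := by linarith only [h2, h3]
  have k2 : t - e ≤ 1.518269028 := by linarith only [h1, h4]
  have k3 : (1.761905272 : ℝ) ≤ t + e := by linarith only [h1, h3]
  have k4 : t + e ≤ 1.761905382 := by linarith only [h2, h4]
  constructor
  · refine le_trans ?_ (Cs_bd h1 h2 k1 k2 15 2).1
    norm_num [WL, WU, Finset.sum_range_succ, Nat.factorial, max_def]
  · refine le_trans (Cs_bd h1 h2 k1 k2 15 2).2 ?_
    norm_num [WL, WU, Finset.sum_range_succ, Nat.factorial, max_def]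
  · refine le_trans ?_ (Cs_bd h1 h2 k1 k2 15 3).1
    norm_num [WL, WU, Finset.sum_range_succ, Nat.factorial, max_def]
  · refine le_trans (Cs_bd h1 h2 k1 k2 15 3).2 ?_
    norm_num [WL, WU, Finset.sum_range_succ, Nat.factorial, max_def]
  · refine le_trans ?_ (Cs_bd h1 h2 k1 k2 15 4).1
    norm_num [WL, WU, Finset.sum_range_succ, Nat.factorial, max_def]
  · refine le_trans (Cs_bd h1 h2 k1 k2 15 4).2 ?_
    norm_num [WL, WU, Finset.sum_range_succ, Nat.factorial, max_def]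
  · refine le_trans ?_ (Zs_bd h1 h2 h3 h4 15 1).1
    norm_num [WL, WU, Finset.sum_range_succ, Nat.factorial, max_def]
  · refine le_trans (Zs_bd h1 h2 h3 h4 15 1).2 ?_
    norm_num [WL, WU, Finset.sum_range_succ, Nat.factorial, max_def]
  · refine le_trans ?_ (Zs_bd h1 h2 k3 k4 15 0).1
    norm_num [WL, WU, Finset.sum_range_succ, Nat.factorial, max_def]
  · refine le_trans (Zs_bd h1 h2 k3 k4 15 0).2 ?_
    norm_num [WL, WU, Finset.sum_range_succ, Nat.factorial, max_def]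
  · refine le_trans ?_ (Zs_bd h1 h2 k3 k4 15 1).1
    norm_num [WL, WU, Finset.sum_range_succ, Nat.factorial, max_def]
  · refine le_trans (Zs_bd h1 h2 k3 k4 15 1).2 ?_
    norm_num [WL, WU, Finset.sum_range_succ, Nat.factorial, max_def]

end FP

namespace FP

theorem pw_sub {x y : ℝ} (hx : 0 ≤ x) (hxy : x ≤ y) (m : ℕ) :
    y^(m+1) - x^(m+1) ≤ (m+1) * y^m * (y - x) := by
  induction m with
  | zero => simp
  | succ m ih =>
    have hy : 0 ≤ y := hx.trans hxy
    have h1 : x^(m+1) ≤ y^(m+1) := pow_le_pow_left₀ hx hxy _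
    have h2 : x^(m+1) * (y - x) ≤ y^(m+1) * (y - x) :=
      mul_le_mul_of_nonneg_right h1 (by linarith)
    have h3 := mul_le_mul_of_nonneg_left ih hy
    push_cast
    calc y^(m+1+1) - x^(m+1+1) = y * (y^(m+1) - x^(m+1)) + x^(m+1) * (y - x) := by ring
      _ ≤ y * ((m+1) * y^m * (y - x)) + y^(m+1) * (y - x) := by linarith only [h2, h3]
      _ = (m + 1 + 1) * y^(m+1) * (y - x) := by ring

/-- even terms -/
theorem ev_bd {e t t' : ℝ} (he1 : 0.1218 ≤ e) (htt : t ≤ t') (ht' : t' ≤ 1.641)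
    (k m : ℕ) (hk : 2 ≤ k) :
    (max (t' - k * e) 0)^(m+1) - (max (t - k * e) 0)^(m+1) ≤ (m+1) * 1.398^m * (t' - t) := by
  have hk' : (2:ℝ) ≤ k := by exact_mod_cast hk
  have h0 : max (t - k * e) 0 ≤ max (t' - k * e) 0 := max_le_max (by linarith only [htt]) le_rfl
  have h1 : max (t' - k * e) 0 ≤ 1.398 := by
    apply max_le _ (by norm_num)
    nlinarith only [ht', hk', he1]
  have h2 : max (t' - k * e) 0 - max (t - k * e) 0 ≤ t' - t := by
    rcases le_total (t' - k * e) 0 with h | h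
    · rw [max_eq_right h]
      have := le_max_right (t - k * e) 0
      linarith only [htt, this]
    · rw [max_eq_left h]
      have := le_max_left (t - k * e) 0
      linarith only [this]
  have h3 := pw_sub (le_max_right (t - k * e) 0) h0 m
  refine h3.trans ?_
  have h4 : (max (t' - k * e) 0)^m ≤ 1.398^m := pow_le_pow_left₀ (le_max_right _ _) h1 _
  apply mul_le_mul _ h2 (by linarith only [h0]) (by positivity)
  exact mul_le_mul_of_nonneg_left h4 (by positivity)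

theorem od_bd {e t t' : ℝ} (htt : t ≤ t') (k m : ℕ) :
    (max (t - k * e) 0)^m ≤ (max (t' - k * e) 0)^m :=
  pow_le_pow_left₀ (le_max_right _ _) (max_le_max (by linarith) le_rfl) _

theorem f_anti {e t t' : ℝ} (he1 : 0.1218 ≤ e) (he2 : e ≤ 0.1219) (ht : 1.64 ≤ t) (htt : t < t')
    (ht' : t' ≤ 1.641) : Zs e 15 0 t' < Zs e 15 0 t := by
  have hd : 0 < t' - t := by linarith only [htt]
  have e2 := ev_bd he1 htt.le ht' 2 3 (by norm_num)
  have e4 := ev_bd he1 htt.le ht' 4 7 (by norm_num)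
  have e6 := ev_bd he1 htt.le ht' 6 11 (by norm_num)
  have e8 := ev_bd he1 htt.le ht' 8 15 (by norm_num)
  have e10 := ev_bd he1 htt.le ht' 10 19 (by norm_num)
  have e12 := ev_bd he1 htt.le ht' 12 23 (by norm_num)
  have e14 := ev_bd he1 htt.le ht' 14 27 (by norm_num)
  have o3 := od_bd (e := e) htt.le 3 6
  have o5 := od_bd (e := e) htt.le 5 10
  have o7 := od_bd (e := e) htt.le 7 14
  have o9 := od_bd (e := e) htt.le 9 18
  have o11 := od_bd (e := e) htt.le 11 22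
  have o13 := od_bd (e := e) htt.le 13 26
  have o1 : (max (t - (1:ℕ) * e) 0)^2 + 3 * (t' - t) ≤ (max (t' - (1:ℕ) * e) 0)^2 := by
    rw [max_eq_left (by push_cast; linarith only [he2, ht, htt, ht']), max_eq_left (by push_cast; linarith only [he2, ht, htt, ht'])]
    push_cast
    nlinarith only [htt, he2, ht]
  unfold Zs
  simp only [Finset.sum_range_succ, Finset.sum_range_zero, Nat.factorial]
  norm_num at e2 e4 e6 e8 e10 e12 e14 o3 o5 o7 o9 o11 o13 o1 ⊢
  nlinarith only [htt, e2, e4, e6, e8, e10, e12, e14, o3, o5, o7, o9, o11, o13, o1]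

theorem implicit {f : ℝ → ℝ → ℝ} {a b c d : ℝ} (hcd : c < d)
    (hf : Continuous fun p : ℝ × ℝ => f p.1 p.2)
    (hanti : ∀ e ∈ Icc a b, StrictAntiOn (f e) (Icc c d))
    (h1 : ∀ e ∈ Icc a b, 0 < f e c) (h2 : ∀ e ∈ Icc a b, f e d < 0) :
    ∃ r : ℝ → ℝ, ContinuousOn r (Icc a b) ∧ ∀ e ∈ Icc a b, r e ∈ Ioo c d ∧ f e (r e) = 0 := by
  have hex : ∀ e, ∃ r, e ∈ Icc a b → r ∈ Ioo c d ∧ f e r = 0 := by
    intro e
    by_cases he : e ∈ Icc a b
    · have hc : ContinuousOn (f e) (Icc c d) := by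
        have : Continuous (f e) := hf.comp (Continuous.prodMk_right e)
        exact this.continuousOn
      have := intermediate_value_Ioo' hcd.le hc ⟨h2 e he, h1 e he⟩
      obtain ⟨r, hr, hr0⟩ := this
      exact ⟨r, fun _ => ⟨hr, hr0⟩⟩
    · exact ⟨0, fun h => absurd h he⟩
  choose r hr using hex
  refine ⟨r, ?_, hr⟩
  intro e he
  obtain ⟨⟨hr1, hr2⟩, hr0⟩ := hr e he
  rw [ContinuousWithinAt, Metric.tendsto_nhds]
  intro ε hε
  obtain ⟨y1, hy1, hy1'⟩ : ∃ y1, max c (r e - ε) < y1 ∧ y1 < r e :=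
    exists_between (max_lt hr1 (by linarith))
  obtain ⟨y2, hy2, hy2'⟩ : ∃ y2, r e < y2 ∧ y2 < min d (r e + ε) :=
    exists_between (lt_min hr2 (by linarith))
  have m1 : y1 ∈ Icc c d := ⟨(le_max_left _ _).trans hy1.le, (hy1'.trans hr2).le⟩
  have m2 : y2 ∈ Icc c d := ⟨(hr1.trans hy2).le, hy2'.le.trans (min_le_left _ _)⟩
  have mr : r e ∈ Icc c d := ⟨hr1.le, hr2.le⟩
  have p1 : 0 < f e y1 := by
    have := hanti e he m1 mr hy1'
    linarith
  have p2 : f e y2 < 0 := by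
    have := hanti e he mr m2 hy2
    linarith
  have c1 : Continuous fun e' => f e' y1 := hf.comp (Continuous.prodMk_left y1)
  have c2 : Continuous fun e' => f e' y2 := hf.comp (Continuous.prodMk_left y2)
  have ev1 : ∀ᶠ e' in 𝓝[Icc a b] e, 0 < f e' y1 :=
    (c1.continuousAt.eventually (lt_mem_nhds p1)).filter_mono nhdsWithin_le_nhds
  have ev2 : ∀ᶠ e' in 𝓝[Icc a b] e, f e' y2 < 0 :=
    (c2.continuousAt.eventually (gt_mem_nhds p2)).filter_mono nhdsWithin_le_nhds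
  filter_upwards [ev1, ev2, self_mem_nhdsWithin] with e' q1 q2 he'
  obtain ⟨⟨g1, g2⟩, g0⟩ := hr e' he'
  have mr' : r e' ∈ Icc c d := ⟨g1.le, g2.le⟩
  have a1 : y1 < r e' := by
    by_contra hcon
    have := (hanti e' he').antitoneOn mr' m1 (not_lt.1 hcon)
    linarith
  have a2 : r e' < y2 := by
    by_contra hcon
    have := (hanti e' he').antitoneOn m2 mr' (not_lt.1 hcon)
    linarith
  rw [Real.dist_eq, abs_lt]
  have b1 := (le_max_right c (r e - ε)).trans_lt hy1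
  have b2 := hy2'.trans_le (min_le_right d (r e + ε))
  constructor <;> linarith

/-- the positive solution of `A u^2/2 + B u + C = 1` -/
noncomputable def U (A B C : ℝ) : ℝ := (-B + Real.sqrt (B^2 - 2 * A * (C - 1))) / A

theorem U_spec {A B C : ℝ} (hA : 0 < A) (hB : 0 < B) (hC : C < 1) :
    0 < U A B C ∧ (U A B C)^2/2 * A + (U A B C) * B + C = 1 := by
  have hd : 0 < B^2 - 2 * A * (C - 1) := by nlinarith only [mul_pos hA (sub_pos.2 hC), sq_nonneg B, hA, hC]
  have hd2 : B^2 < B^2 - 2 * A * (C - 1) := by nlinarith only [mul_pos hA (sub_pos.2 hC), hA, hC]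
  have hs : Real.sqrt (B^2 - 2 * A * (C - 1)) ^ 2 = B^2 - 2 * A * (C - 1) := Real.sq_sqrt hd.le
  have hB' : B < Real.sqrt (B^2 - 2 * A * (C - 1)) := by
    rw [Real.lt_sqrt hB.le]; exact hd2
  unfold U
  set S := Real.sqrt (B^2 - 2 * A * (C - 1)) with hS
  constructor
  · exact div_pos (by linarith) hA
  · field_simp
    nlinarith only [hs]

theorem U_lo {A B C A2 B2 C2 x : ℝ} (hA : 0 < A) (hB : 0 < B) (hC : C < 1)
    (h1 : A ≤ A2) (h2 : B ≤ B2) (h3 : C ≤ C2) (hx : 0 ≤ x) (h : x^2/2 * A2 + x * B2 + C2 < 1) :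
    x < U A B C := by
  obtain ⟨hu, hu1⟩ := U_spec hA hB hC
  by_contra hcon
  have hcon := not_lt.1 hcon
  have k1 : (U A B C)^2/2 * A ≤ x^2/2 * A2 := by gcongr
  have k2 : (U A B C) * B ≤ x * B2 := by gcongr
  linarith only [h3, h, hu1, k1, k2]

theorem U_hi {A B C A1 B1 C1 x : ℝ} (hA : 0 < A1) (hB : 0 < B1) (hC : C < 1)
    (h1 : A1 ≤ A) (h2 : B1 ≤ B) (h3 : C1 ≤ C) (hx : 0 ≤ x) (h : 1 < x^2/2 * A1 + x * B1 + C1) :
    U A B C < x := by
  obtain ⟨hu, hu1⟩ := U_spec (hA.trans_le h1) (hB.trans_le h2) hC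
  by_contra hcon
  have hcon := not_lt.1 hcon
  have k1 : x^2/2 * A1 ≤ (U A B C)^2/2 * A := by
    apply mul_le_mul _ h1 hA.le (by positivity)
    gcongr
  have k2 : x * B1 ≤ (U A B C) * B := mul_le_mul hcon h2 hB.le hu.le
  linarith only [h3, h, hu1, k1, k2]

noncomputable def Ue (e t : ℝ) : ℝ :=
  U (Cs e 15 2 (t - e)) (Cs e 15 3 (t - e)) (Cs e 15 4 (t - e))

noncomputable def ch (e t : ℝ) : ℝ := Zs e 15 1 t * Ue e t - Zs e 15 0 (t + e)

noncomputable def sh (e t : ℝ) : ℝ :=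
  Zs e 15 1 (t + e) + Zs e 15 0 (t + e) * Ue e t - Zs e 15 1 t * (Ue e t)^2 / 2

theorem chsh {e t A1 A2 B1 B2 C1 C2 a1 a2 b1 b2 c1 c2 : ℝ}
    (h : Bx e t A1 A2 B1 B2 C1 C2 a1 a2 b1 b2 c1 c2) (hA1 : 0 < A1) (hB1 : 0 < B1) (hC2 : C2 < 1)
    (ha1 : 0 < a1) (hb2 : b2 < 0) {u1 u2 : ℝ} (hu1 : 0 < u1) (hu2 : 0 < u2)
    (k1 : u1^2/2 * A2 + u1 * B2 + C2 < 1) (k2 : 1 < u2^2/2 * A1 + u2 * B1 + C1) :
    (u1 < Ue e t ∧ Ue e t < u2) ∧ (a1 * u1 - b2 ≤ ch e t ∧ ch e t ≤ a2 * u2 - b1) ∧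
    (c1 + b1 * u2 - a2 * u2^2/2 ≤ sh e t ∧ sh e t ≤ c2 + b2 * u1 - a1 * u1^2/2) := by
  have g1 : u1 < Ue e t := U_lo (hA1.trans_le h.hA1) (hB1.trans_le h.hB1) (h.hC2.trans_lt hC2)
    h.hA2 h.hB2 h.hC2 hu1.le k1
  have g2 : Ue e t < u2 := U_hi hA1 hB1 (h.hC2.trans_lt hC2) h.hA1 h.hB1 h.hC1 hu2.le k2
  have hU : 0 < Ue e t := hu1.trans g1
  have ha := ha1.trans_le h.ha1
  have hb := h.hb2.trans_lt hb2
  refine ⟨⟨g1, g2⟩, ?_, ?_⟩
  · unfold ch
    have m1 : a1 * u1 ≤ Zs e 15 1 t * Ue e t := mul_le_mul h.ha1 g1.le hu1.le ha.le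
    have m2 : Zs e 15 1 t * Ue e t ≤ a2 * u2 := mul_le_mul h.ha2 g2.le hU.le (ha.le.trans h.ha2)
    have := h.hb1
    have := h.hb2
    constructor <;> linarith
  · unfold sh
    have m1 : a1 * u1^2 ≤ Zs e 15 1 t * (Ue e t)^2 := by
      apply mul_le_mul h.ha1 _ (by positivity) ha.le
      gcongr
    have m2 : Zs e 15 1 t * (Ue e t)^2 ≤ a2 * u2^2 := by
      apply mul_le_mul h.ha2 _ (by positivity) (ha.le.trans h.ha2)
      gcongr
    have m3 : b1 * u2 ≤ Zs e 15 0 (t + e) * Ue e t := by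
      have hb1 : b1 < 0 := h.hb1.trans_lt hb
      nlinarith only [h.hb1, mul_pos hU (neg_pos.2 hb), mul_nonneg hU.le (sub_nonneg.2 h.hb1),
        mul_pos (neg_pos.2 hb1) (sub_pos.2 g2), hU, h, hb1, g2]
    have m4 : Zs e 15 0 (t + e) * Ue e t ≤ b2 * u1 := by
      nlinarith only [h.hb2, mul_nonneg hU.le (sub_nonneg.2 h.hb2),
        mul_pos (neg_pos.2 hb2) (sub_pos.2 g1), hU, h, hb2, g1]
    have := h.hc1
    have := h.hc2
    constructor <;> linarith

end FP

namespace FP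

theorem cont_Zs (n j : ℕ) : Continuous fun p : ℝ × ℝ => Zs p.1 n j p.2 := by
  unfold Zs; fun_prop

theorem cont_Cs (n j : ℕ) : Continuous fun p : ℝ × ℝ => Cs p.1 n j p.2 := by
  unfold Cs; fun_prop

theorem sinh_lo : Real.sinh 0.500519 < 0.521680855 := by
  have h1 : Real.exp 0.500519 ≤ _ := Real.exp_bound' (by norm_num) (by norm_num) (n := 10) (by norm_num)
  have h2 : _ ≤ Real.exp 0.500519 := Real.sum_le_exp_of_nonneg (by norm_num) 10
  norm_num [Finset.sum_range_succ, Nat.factorial] at h1 h2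
  have hp : (0:ℝ) < Real.exp 0.500519 := Real.exp_pos _
  have h3 : Real.exp (-0.500519) * Real.exp 0.500519 = 1 := by
    rw [← Real.exp_add]; norm_num
  have h4 : Real.exp 0.500519 < 1.64957754 := by norm_num at h1 ⊢; linarith only [h1]
  have h5 : 0.60621569 < Real.exp (-0.500519) := by
    by_contra hcon
    have hcon := not_lt.1 hcon
    nlinarith only [Real.exp_pos (-0.500519 : ℝ), h3, hcon, h1]
  rw [Real.sinh_eq]
  linarith only [h1, h5]

theorem sinh_hi : 0.521681838 < Real.sinh 0.500521 := by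
  have h2 : _ ≤ Real.exp 0.500521 := Real.sum_le_exp_of_nonneg (by norm_num) 10
  norm_num [Finset.sum_range_succ, Nat.factorial] at h2
  have hp : (0:ℝ) < Real.exp 0.500521 := Real.exp_pos _
  have h3 : Real.exp (-0.500521) * Real.exp 0.500521 = 1 := by
    rw [← Real.exp_add]; norm_num
  have h4 : 1.6495800 < Real.exp 0.500521 := by norm_num at h2 ⊢; linarith
  have h5 : Real.exp (-0.500521) < 0.6062149 := by
    by_contra hcon
    have hcon := not_lt.1 hcon
    nlinarith only [Real.exp_pos (-0.500521 : ℝ), h2, h3, h4, hcon]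
  rw [Real.sinh_eq]
  linarith only [h4, h5]

end FP

namespace FP

theorem contOn_Zs {r : ℝ → ℝ} {S : Set ℝ} (hr : ContinuousOn r S) (n j : ℕ) :
    ContinuousOn (fun e => Zs e n j (r e)) S :=
  Continuous.comp_continuousOn' (f := fun e => (e, r e)) (g := fun p : ℝ × ℝ => Zs p.1 n j p.2)
    (cont_Zs n j) (ContinuousOn.prodMk continuousOn_id hr)

theorem contOn_Cs {r : ℝ → ℝ} {S : Set ℝ} (hr : ContinuousOn r S) (n j : ℕ) :
    ContinuousOn (fun e => Cs e n j (r e)) S :=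
  Continuous.comp_continuousOn' (f := fun e => (e, r e)) (g := fun p : ℝ × ℝ => Cs p.1 n j p.2)
    (cont_Cs n j) (ContinuousOn.prodMk continuousOn_id hr)

theorem contOn_Ue {r : ℝ → ℝ} {S : Set ℝ} (hr : ContinuousOn r S)
    (hA : ∀ e ∈ S, Cs e 15 2 (r e - e) ≠ 0) : ContinuousOn (fun e => Ue e (r e)) S := by
  have h1 : ContinuousOn (fun e => r e - e) S := hr.sub continuousOn_id
  have hA' := contOn_Cs h1 15 2
  have hB' := contOn_Cs h1 15 3
  have hC' := contOn_Cs h1 15 4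
  unfold Ue U
  apply ContinuousOn.div _ hA' hA
  apply ContinuousOn.add hB'.neg
  apply ContinuousOn.sqrt
  exact (hB'.pow 2).sub ((continuousOn_const.mul hA').mul (hC'.sub continuousOn_const))

theorem contOn_g {r : ℝ → ℝ} {S : Set ℝ} (hr : ContinuousOn r S)
    (hA : ∀ e ∈ S, Cs e 15 2 (r e - e) ≠ 0) :
    ContinuousOn (fun e => (ch e (r e))^2 - (sh e (r e))^2 - 1) S := by
  have hU := contOn_Ue hr hA
  have ha := contOn_Zs hr 15 1
  have h1 : ContinuousOn (fun e => r e + e) S := hr.add continuousOn_id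
  have hb := contOn_Zs h1 15 0
  have hc := contOn_Zs h1 15 1
  unfold ch sh
  exact ((((ha.mul hU).sub hb).pow 2).sub (((hc.add (hb.mul hU)).sub
    ((ha.mul (hU.pow 2)).div_const 2)).pow 2)).sub continuousOn_const

theorem rho_bd {e t x y : ℝ} (he1 : 0.1218 ≤ e) (he2 : e ≤ 0.1219) (ht1 : 1.64 ≤ t)
    (ht2 : t ≤ 1.641) (hx2 : x ≤ 1.641) (hy1 : 1.64 ≤ y) (h0 : Zs e 15 0 t = 0)
    (hx : 0 < Zs e 15 0 x) (hy : Zs e 15 0 y < 0) : x ≤ t ∧ t ≤ y := by
  constructor
  · by_contra hcon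
    have hcon := not_le.1 hcon
    have := f_anti he1 he2 ht1 hcon hx2
    linarith only [h0, hx, this]
  · by_contra hcon
    have hcon := not_le.1 hcon
    have := f_anti he1 he2 hy1 hcon ht2
    linarith only [h0, hy, this]

theorem star : ∃ e t : ℝ, 0.121818172 ≤ e ∧ e ≤ 0.121818182 ∧ 1.6400871 ≤ t ∧ t ≤ 1.6400872 ∧
    Zs e 15 0 t = 0 ∧ (ch e t)^2 - (sh e t)^2 - 1 = 0 := by
  obtain ⟨r, hrc, hr⟩ := implicit (f := fun e t => Zs e 15 0 t) (a := 0.121818172)
    (b := 0.121818182) (c := 1.6400871) (d := 1.6400872) (by norm_num) (cont_Zs 15 0)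
    (by
      intro e he x hx y hy hxy
      exact f_anti (by linarith [he.1]) (by linarith [he.2]) (by linarith [hx.1]) hxy
        (by linarith only [hy.2, hy]))
    (fun e he => n1.trans_le (Zs_bd he.1 he.2 le_rfl le_rfl 15 0).1)
    (fun e he => (Zs_bd he.1 he.2 le_rfl le_rfl 15 0).2.trans_lt n2)
  have hA : ∀ e ∈ Icc (0.121818172:ℝ) 0.121818182, Cs e 15 2 (r e - e) ≠ 0 := by
    intro e he
    have hz := zbx he.1 he.2 (hr e he).1.1.le (hr e he).1.2.le
    have := hz.hA1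
    have : (0:ℝ) < Cs e 15 2 (r e - e) := by linarith
    exact this.ne'
  have hg := contOn_g hrc hA
  have hab : (0.121818172:ℝ) ≤ 0.121818182 := by norm_num
  have hiv := intermediate_value_Icc hab hg
  have he1 : (0.121818172:ℝ) ∈ Icc (0.121818172:ℝ) 0.121818182 := ⟨le_rfl, hab⟩
  have he2 : (0.121818182:ℝ) ∈ Icc (0.121818172:ℝ) 0.121818182 := ⟨hab, le_rfl⟩
  obtain ⟨⟨r11, r12⟩, r10⟩ := hr _ he1
  obtain ⟨⟨r21, r22⟩, r20⟩ := hr _ he2
  have b1 := rho_bd (e := 0.121818172) (x := 1.6400871473) (y := 1.6400871474) (by norm_num)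
    (by norm_num) (by linarith only [r11, r12]) (by linarith only [r11, r12]) (by norm_num) (by norm_num) r10
    (p1.trans_le (Zs_bd le_rfl le_rfl le_rfl le_rfl 15 0).1)
    ((Zs_bd le_rfl le_rfl le_rfl le_rfl 15 0).2.trans_lt p2)
  have b2 := rho_bd (e := 0.121818182) (x := 1.6400871536) (y := 1.6400871537) (by norm_num)
    (by norm_num) (by linarith only [r12, r21, b1]) (by linarith only [r12, r22, b1]) (by norm_num) (by norm_num) r20
    (q1.trans_le (Zs_bd le_rfl le_rfl le_rfl le_rfl 15 0).1)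
    ((Zs_bd le_rfl le_rfl le_rfl le_rfl 15 0).2.trans_lt q2)
  have c1 := chsh (pbx le_rfl le_rfl b1.1 b1.2) (by norm_num) (by norm_num) (by norm_num)
    (by norm_num) (by norm_num) (u1 := 0.90387589421) (u2 := 0.90387589447) (by norm_num)
    (by norm_num) (by norm_num) (by norm_num)
  have c2 := chsh (qbx le_rfl le_rfl b2.1 b2.2) (by norm_num) (by norm_num) (by norm_num)
    (by norm_num) (by norm_num) (u1 := 0.90387589368) (u2 := 0.90387589393) (by norm_num)
    (by norm_num) (by norm_num) (by norm_num)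
  have g1 : (ch 0.121818172 (r 0.121818172))^2 - (sh 0.121818172 (r 0.121818172))^2 - 1 ≤ 0 := by
    obtain ⟨-, ⟨x1, x2⟩, ⟨y1, y2⟩⟩ := c1
    have k1 : (ch 0.121818172 (r 0.121818172))^2 ≤ 1.1278968960523^2 := by
      apply pow_le_pow_left₀
      · refine le_trans ?_ x1
        norm_num
      · refine x2.trans ?_
        norm_num
    have k2 : (0.5216813500306:ℝ)^2 ≤ (sh 0.121818172 (r 0.121818172))^2 := by
      apply pow_le_pow_left₀ (by norm_num)
      refine le_trans ?_ y1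
      norm_num
    have k3 : (1.1278968960523:ℝ)^2 - 0.5216813500306^2 - 1 < 0 := by norm_num
    linarith only [r22, b2, k1, k2]
  have g2 : 0 ≤ (ch 0.121818182 (r 0.121818182))^2 - (sh 0.121818182 (r 0.121818182))^2 - 1 := by
    obtain ⟨-, ⟨x1, x2⟩, ⟨y1, y2⟩⟩ := c2
    have k1 : (1.1278969143673:ℝ)^2 ≤ (ch 0.121818182 (r 0.121818182))^2 := by
      apply pow_le_pow_left₀ (by norm_num)
      refine le_trans ?_ x1
      norm_num
    have k2 : (sh 0.121818182 (r 0.121818182))^2 ≤ 0.5216813443752^2 := by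
      apply pow_le_pow_left₀
      · refine le_trans ?_ y1
        norm_num
      · refine y2.trans ?_
        norm_num
    have k3 : 0 < (1.1278969143673:ℝ)^2 - 0.5216813443752^2 - 1 := by norm_num
    linarith only [r22, b2, k1, k2]
  obtain ⟨e, he, hge⟩ := hiv ⟨g1, g2⟩
  exact ⟨e, r e, he.1, he.2, (hr e he).1.1.le, (hr e he).1.2.le, (hr e he).2, hge⟩

end FP

theorem star_exists : ∃ P : Par, P.Star := by
  obtain ⟨e, t, he1, he2, ht1, ht2, h0, hg⟩ := FP.star
  have hz := FP.zbx he1 he2 ht1 ht2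
  obtain ⟨⟨u1, u2⟩, ⟨c1, c2⟩, ⟨s1, s2⟩⟩ := FP.chsh hz (by norm_num) (by norm_num) (by norm_num)
    (by norm_num) (by norm_num) (u1 := 0.90387575) (u2 := 0.90387604) (by norm_num)
    (by norm_num) (by norm_num) (by norm_num)
  have hA : 0 < Cs e 15 2 (t - e) := by linarith only [hz.hA1, hz]
  have hB : 0 < Cs e 15 3 (t - e) := by linarith only [hz.hB1, hz]
  have hC : Cs e 15 4 (t - e) < 1 := by linarith only [hz.hC2, hz]
  have hU := FP.U_spec hA hB hC
  have hch : 0 < FP.ch e t := lt_of_lt_of_le (by norm_num) c1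
  have hsinh : Real.sinh (Real.arsinh (FP.sh e t)) = FP.sh e t := Real.sinh_arsinh _
  have hcosh : Real.cosh (Real.arsinh (FP.sh e t)) = FP.ch e t := by
    rw [Real.cosh_arsinh]
    rw [show 1 + FP.sh e t ^ 2 = FP.ch e t ^ 2 by linarith only [hg]]
    exact Real.sqrt_sq hch.le
  have hs1 : 0.500519 < Real.arsinh (FP.sh e t) := by
    rw [← Real.sinh_lt_sinh, hsinh]
    refine FP.sinh_lo.trans (lt_of_lt_of_le ?_ s1)
    norm_num
  have hs2 : Real.arsinh (FP.sh e t) < 0.500521 := by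
    rw [← Real.sinh_lt_sinh, hsinh]
    refine lt_trans (lt_of_le_of_lt s2 ?_) FP.sinh_hi
    norm_num
  refine ⟨⟨e, t, FP.Ue e t, Real.arsinh (FP.sh e t)⟩, ?_⟩
  constructor
  · constructor
    · show 0 < e
      linarith only [he1]
    · show 0 < t
      linarith only [ht1]
    · show 0 ≤ FP.Ue e t
      linarith only [u1]
    · show 0 ≤ Real.arsinh (FP.sh e t)
      linarith only [hs1]
    · show t + e ≤ ((15:ℕ):ℝ) * e
      push_cast
      linarith only [he1, ht2]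
    · exact h0
    · exact hcosh
    · exact hsinh
  · exact hU.2
  · show 0.121818 < e
    linarith only [he1]
  · show e < 0.121819
    linarith only [he2]
  · show 1.640087 < t
    linarith only [ht1]
  · show t < 1.640088
    linarith only [ht2]
  · show 0.903874 < FP.Ue e t
    linarith only [u1]
  · show FP.Ue e t < 0.903877
    linarith only [u2]
  · exact hs1
  · exact hs2

end Pool.Agent.CDk
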