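import Pool.Agent.CDk.Defs

open MeasureTheory Set Filter Topology

namespace Pool.Agent.CDk

/-- one half period of the antiperiodic solution -/
noncomputable def bf (n : ℕ) (e ρ u s t : ℝ) : ℝ :=
  if t ≤ s then Real.sinh t
  else if t ≤ s + u then
    Zs e n 1 (ρ + e) + Zs e n 0 (ρ + e) * (s + u - t) - Zs e n 1 ρ * (s + u - t)^2 / 2
  else Zs e n 1 (ρ + e + u + s - t)

/-! ### truncated powers -/

private noncomputable def tp (m : ℕ) (t : ℝ) : ℝ := (max t 0)^m / (m.factorial : ℝ)

private theorem hdw_notMem {f : ℝ → ℝ} {f' x : ℝ} {s : Set ℝ} (hs : IsClosed s) (h : x ∉ s) :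
    HasDerivWithinAt f f' s x := by
  rw [hasDerivWithinAt_iff_hasFDerivWithinAt]
  exact HasFDerivWithinAt.of_notMem_closure (by rwa [hs.closure_eq])

private theorem glue {f g F G : ℝ → ℝ} {S : Set ℝ} (hS : IsClosed S)
    (hf : ∀ t ∈ S, f t = F t) (hg : ∀ t ∈ S, g t = G t)
    (hF : ∀ t ∈ S, HasDerivWithinAt F (G t) S t) (t : ℝ) : HasDerivWithinAt f (g t) S t := by
  by_cases ht : t ∈ S
  · rw [hg t ht]
    exact (hF t ht).congr hf (hf t ht)
  · exact hdw_notMem hS ht

private theorem tp_of_neg (m : ℕ) (hm : m ≠ 0) {t : ℝ} (ht : t ≤ 0) : tp m t = 0 := by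
  simp only [tp, max_eq_right ht, zero_pow hm, zero_div]

private theorem tp_of_pos (m : ℕ) {t : ℝ} (ht : 0 ≤ t) : tp m t = t^m / (m.factorial : ℝ) := by
  simp only [tp, max_eq_left ht]

private theorem tp_nonneg (m : ℕ) (t : ℝ) : 0 ≤ tp m t := by
  unfold tp; positivity

private theorem pow_deriv (m : ℕ) (t : ℝ) :
    HasDerivAt (fun x : ℝ => x^(m+1) / ((m+1).factorial : ℝ)) (t^m / (m.factorial : ℝ)) t := by
  have h2 := (hasDerivAt_pow (m+1) t).div_const ((m+1).factorial : ℝ)
  refine h2.congr_deriv ?_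
  have : (m.factorial : ℝ) ≠ 0 := by positivity
  rw [Nat.factorial_succ]
  push_cast
  field_simp

private theorem tp_deriv_pos (m : ℕ) (t : ℝ) :
    HasDerivWithinAt (tp (m+1)) (tp m t) (Ici 0) t := by
  refine glue (g := tp m) isClosed_Ici (fun x hx => tp_of_pos (m+1) hx) (fun x hx => tp_of_pos m hx)
    (fun x hx => ?_) t
  exact (pow_deriv m x).hasDerivWithinAt

private theorem tp_deriv (m : ℕ) (hm : m ≠ 0) (t : ℝ) : HasDerivAt (tp (m+1)) (tp m t) t := by
  have key : HasDerivWithinAt (tp (m+1)) (tp m t) (Iic 0 ∪ Ici 0) t := by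
    apply HasDerivWithinAt.union
    · refine glue (g := tp m) (F := fun _ => 0) (G := fun _ => 0) isClosed_Iic
        (fun x hx => tp_of_neg _ (by omega) hx) (fun x hx => tp_of_neg _ hm hx) (fun x hx => ?_) t
      exact hasDerivWithinAt_const _ _ _
    · exact glue (g := tp m) isClosed_Ici (fun x hx => tp_of_pos (m+1) hx)
        (fun x hx => tp_of_pos m hx) (fun x hx => (pow_deriv m x).hasDerivWithinAt) t
  rw [Iic_union_Ici] at key
  exact key.hasDerivAt univ_mem

private theorem Zs_tp (e : ℝ) (n j : ℕ) (t : ℝ) :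
    Zs e n j t = ∑ k ∈ Finset.range n, (-1 : ℝ)^k * tp (2*k+j) (t - k * e) := by
  unfold Zs tp
  refine Finset.sum_congr rfl fun k _ => ?_
  rw [mul_div_assoc]

/-- derivative of `Z` -/
private theorem Z1_deriv {e : ℝ} (n : ℕ) (t : ℝ) :
    HasDerivWithinAt (Zs e n 1) (Zs e n 0 t) (Ici 0) t := by
  have h1 : Zs e n 1 = fun t => ∑ k ∈ Finset.range n, (-1 : ℝ)^k * tp (2*k+1) (t - k * e) := by
    funext x; exact Zs_tp _ _ _ _
  rw [h1, Zs_tp]
  refine HasDerivWithinAt.fun_sum fun k _ => ?_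
  refine HasDerivWithinAt.const_mul _ ?_
  rcases Nat.eq_zero_or_pos k with rfl | hk
  · simpa using tp_deriv_pos 0 t
  · have h2 := (tp_deriv (2*k) (by omega) (t - k * e)).comp t
      ((hasDerivAt_id t).sub_const (k * e))
    have h3 := h2.hasDerivWithinAt (s := Ici 0)
    simpa [Function.comp_def] using h3

private theorem Zs_neg {e : ℝ} (he : 0 ≤ e) (n : ℕ) {t : ℝ} (ht : t ≤ 0) : Zs e n 1 t = 0 := by
  rw [Zs_tp]
  refine Finset.sum_eq_zero fun k _ => ?_
  rw [tp_of_neg _ (by omega), mul_zero]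
  have : 0 ≤ (k:ℝ) * e := by positivity
  linarith

private theorem Z0_deriv {e : ℝ} (n : ℕ) (t : ℝ) (hn : 1 ≤ n) (ht : t ≤ n * e) :
    HasDerivAt (Zs e n 0) (-Zs e n 1 (t - e)) t := by
  have h1 : Zs e n 0 = fun t => ∑ k ∈ Finset.range n, (-1 : ℝ)^k * tp (2*k) (t - k * e) := by
    funext x; exact Zs_tp _ _ _ _
  obtain ⟨m, rfl⟩ : ∃ m, n = m + 1 := ⟨n - 1, by omega⟩
  have h2 : -Zs e (m+1) 1 (t - e) =
      ∑ k ∈ Finset.range (m+1), (-1 : ℝ)^k * (if k = 0 then 0 else tp (2*k-1) (t - k * e)) := by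
    rw [Zs_tp, Finset.sum_range_succ, Finset.sum_range_succ']
    have h3 : tp (2*m+1) (t - e - m * e) = 0 := by
      apply tp_of_neg _ (by omega)
      push_cast at ht
      linarith
    rw [h3]
    simp only [mul_zero, add_zero, if_true, ← Finset.sum_neg_distrib]
    refine Finset.sum_congr rfl fun k _ => ?_
    have h4 : 2 * (k+1) - 1 = 2*k+1 := by omega
    rw [if_neg (by omega), h4, pow_succ]
    have h5 : t - ((k+1 : ℕ) : ℝ) * e = t - e - k * e := by push_cast; ring
    rw [h5]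
    ring
  rw [h1, h2]
  refine HasDerivAt.fun_sum fun k _ => ?_
  refine HasDerivAt.const_mul _ ?_
  rcases Nat.eq_zero_or_pos k with rfl | hk
  · rw [if_pos rfl]
    have : (fun x : ℝ => tp (2*0) (x - (0:ℕ) * e)) = fun _ => 1 := by
      funext x
      simp [tp]
    rw [this]
    exact hasDerivAt_const _ _
  · rw [if_neg (by omega)]
    have h5 : 2 * k = (2*k-1) + 1 := by omega
    have h2 := (tp_deriv (2*k-1) (by omega) (t - k * e)).comp t
      ((hasDerivAt_id t).sub_const (k * e))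
    rw [← h5] at h2
    simpa [Function.comp_def] using h2

/-! ### one half period -/

private noncomputable def bd (n : ℕ) (e ρ u s t : ℝ) : ℝ :=
  if t ≤ s then Real.cosh t
  else if t ≤ s + u then
    - Zs e n 0 (ρ + e) + Zs e n 1 ρ * (s + u - t)
  else -Zs e n 0 (ρ + e + u + s - t)

section half
variable {n : ℕ} {e ρ u s : ℝ} (h : Data n e ρ u s)
include h

omit h in
private theorem bf_eq1 {t : ℝ} (ht : t ≤ s) : bf n e ρ u s t = Real.sinh t := if_pos ht

private theorem bf_eq2 {t : ℝ} (h1 : s ≤ t) (h2 : t ≤ s + u) : bf n e ρ u s t =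
    Zs e n 1 (ρ + e) + Zs e n 0 (ρ + e) * (s + u - t) - Zs e n 1 ρ * (s + u - t)^2 / 2 := by
  unfold bf
  split_ifs with h3
  · have : t = s := le_antisymm h3 h1
    subst this
    rw [h.E3]
    ring
  · rfl

private theorem bf_eq3 {t : ℝ} (h1 : s + u ≤ t) : bf n e ρ u s t = Zs e n 1 (ρ + e + u + s - t) := by
  rcases h1.eq_or_lt with h2 | h2
  · rw [bf_eq2 h (by have := h.hu; linarith) h2.ge, ← h2]
    have : ρ + e + u + s - (s + u) = ρ + e := by ring
    rw [this]
    ring
  · unfold bf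
    rw [if_neg (by have := h.hu; linarith), if_neg (by linarith)]

omit h in
private theorem bd_eq1 {t : ℝ} (ht : t ≤ s) : bd n e ρ u s t = Real.cosh t := if_pos ht

private theorem bd_eq2 {t : ℝ} (h1 : s ≤ t) (h2 : t ≤ s + u) : bd n e ρ u s t =
    - Zs e n 0 (ρ + e) + Zs e n 1 ρ * (s + u - t) := by
  unfold bd
  split_ifs with h3
  · have : t = s := le_antisymm h3 h1
    subst this
    rw [h.E2]
    ring
  · rfl

private theorem bd_eq3 {t : ℝ} (h1 : s + u ≤ t) : bd n e ρ u s t = -Zs e n 0 (ρ + e + u + s - t) := by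
  rcases h1.eq_or_lt with h2 | h2
  · rw [bd_eq2 h (by have := h.hu; linarith) h2.ge, ← h2]
    have : ρ + e + u + s - (s + u) = ρ + e := by ring
    rw [this]
    ring
  · unfold bd
    rw [if_neg (by have := h.hu; linarith), if_neg (by linarith)]

private theorem n_pos : 1 ≤ n := by
  rcases Nat.eq_zero_or_pos n with rfl | h0
  · have h1 := h.hn
    have h2 := h.hρ
    have h3 := h.he
    simp at h1
    linarith
  · exact h0

private theorem T_pos : 0 < ρ + e + u + s := by
  have := h.hρ; have := h.he; have := h.hu; have := h.hs; linarith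

private theorem bf_zero : bf n e ρ u s 0 = 0 := by
  rw [bf_eq1 h.hs, Real.sinh_zero]

private theorem bf_T : bf n e ρ u s (ρ + e + u + s) = 0 := by
  rw [bf_eq3 h (by have := h.hρ; have := h.he; linarith), sub_self]
  exact Zs_neg h.he.le n le_rfl

private theorem Z0_zero : Zs e n 0 0 = 1 := by
  obtain ⟨m, rfl⟩ : ∃ m, n = m + 1 := ⟨n - 1, by have := n_pos h; omega⟩
  rw [Zs_tp, Finset.sum_range_succ', Finset.sum_eq_zero]
  · simp [tp]
  · intro k _
    rw [tp_of_neg _ (by omega), mul_zero]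
    have : 0 ≤ ((k + 1 : ℕ):ℝ) * e := by have := h.he; positivity
    linarith

private theorem bd_zero : bd n e ρ u s 0 = 1 := by
  rw [bd_eq1 h.hs, Real.cosh_zero]

private theorem bd_T : bd n e ρ u s (ρ + e + u + s) = -1 := by
  rw [bd_eq3 h (by have := h.hρ; have := h.he; linarith), sub_self, Z0_zero h]

private theorem bf_deriv (t : ℝ) :
    HasDerivWithinAt (bf n e ρ u s) (bd n e ρ u s t) (Icc 0 (ρ + e + u + s)) t := by
  have hρ := h.hρ; have he := h.he; have hu := h.hu; have hs := h.hs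
  have h1 : HasDerivWithinAt (bf n e ρ u s) (bd n e ρ u s t) (Icc 0 s) t := by
    refine glue isClosed_Icc (fun t ht => bf_eq1 ht.2) (fun t ht => bd_eq1 ht.2) ?_ t
    intro t _
    exact (Real.hasDerivAt_sinh t).hasDerivWithinAt
  have h2 : HasDerivWithinAt (bf n e ρ u s) (bd n e ρ u s t) (Icc s (s+u)) t := by
    refine glue isClosed_Icc (fun t ht => bf_eq2 h ht.1 ht.2) (fun t ht => bd_eq2 h ht.1 ht.2) ?_ t
    intro t _
    have h3 : HasDerivAt (fun t : ℝ => s + u - t) (-1) t := by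
      simpa using (hasDerivAt_id t).const_sub (s+u)
    have h4 := ((h3.const_mul (Zs e n 0 (ρ + e))).const_add (Zs e n 1 (ρ + e))).fun_sub
      (((h3.fun_pow 2).const_mul (Zs e n 1 ρ)).div_const 2)
    refine HasDerivAt.hasDerivWithinAt (h4.congr_deriv ?_)
    simp
    ring
  have h3 : HasDerivWithinAt (bf n e ρ u s) (bd n e ρ u s t) (Icc (s+u) (ρ + e + u + s)) t := by
    refine glue isClosed_Icc (fun t ht => bf_eq3 h ht.1) (fun t ht => bd_eq3 h ht.1) ?_ t
    intro t ht
    have h3 : HasDerivWithinAt (fun t : ℝ => ρ + e + u + s - t) (-1)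
        (Icc (s+u) (ρ + e + u + s)) t := by
      simpa using ((hasDerivAt_id t).const_sub (ρ + e + u + s)).hasDerivWithinAt
        (s := Icc (s+u) (ρ + e + u + s))
    have h4 := (Z1_deriv (e := e) n (ρ + e + u + s - t)).comp t h3
      (fun x hx => by simp only [mem_Ici]; linarith [hx.2])
    simpa [Function.comp_def] using h4
  have h4 := (h1.union h2).union h3
  rwa [Icc_union_Icc_eq_Icc hs (by linarith), Icc_union_Icc_eq_Icc (by linarith) (by linarith)]
    at h4

omit h in
private theorem bd_deriv1 {t : ℝ} (ht : t < s) :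
    HasDerivAt (bd n e ρ u s) (Real.sinh t) t := by
  refine (Real.hasDerivAt_cosh t).congr_of_eventuallyEq ?_
  filter_upwards [Iio_mem_nhds ht] with x hx
  exact bd_eq1 (le_of_lt hx)

private theorem bd_deriv2 {t : ℝ} (h1 : s < t) (h2 : t < s + u) :
    HasDerivAt (bd n e ρ u s) (-Zs e n 1 ρ) t := by
  have h3 : HasDerivAt (fun t : ℝ => s + u - t) (-1) t := by
    simpa using (hasDerivAt_id t).const_sub (s+u)
  have h4 : HasDerivAt (fun t => - Zs e n 0 (ρ + e) + Zs e n 1 ρ * (s + u - t)) (-Zs e n 1 ρ) t := by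
    refine ((h3.const_mul (Zs e n 1 ρ)).const_add (- Zs e n 0 (ρ + e))).congr_deriv ?_
    ring
  refine h4.congr_of_eventuallyEq ?_
  filter_upwards [Ioo_mem_nhds h1 h2] with x hx
  exact bd_eq2 h hx.1.le hx.2.le

private theorem bd_deriv3 {t : ℝ} (h1 : s + u < t) :
    HasDerivAt (bd n e ρ u s) (-Zs e n 1 (ρ + u + s - t)) t := by
  have h3 : HasDerivAt (fun t : ℝ => ρ + e + u + s - t) (-1) t := by
    simpa using (hasDerivAt_id t).const_sub (ρ + e + u + s)
  have h4 := ((Z0_deriv (e := e) n (ρ + e + u + s - t) (n_pos h)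
    (by have := h.hn; linarith)).comp t h3).fun_neg
  have h5 : ρ + e + u + s - t - e = ρ + u + s - t := by ring
  rw [h5] at h4
  have h6 : HasDerivAt (fun t => -Zs e n 0 (ρ + e + u + s - t)) (-Zs e n 1 (ρ + u + s - t)) t := by
    refine h4.congr_deriv ?_
    ring
  refine h6.congr_of_eventuallyEq ?_
  filter_upwards [Ioi_mem_nhds h1] with x hx
  exact bd_eq3 h (le_of_lt hx)

omit h in
private theorem Z0_cont : Continuous (Zs e n 0) := by
  unfold Zs
  fun_prop

private theorem bd_cont : Continuous (bd n e ρ u s) := by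
  have hu := h.hu
  have h1 : ContinuousOn (bd n e ρ u s) (Iic s) :=
    Real.continuous_cosh.continuousOn.congr fun t ht => bd_eq1 ht
  have h2 : ContinuousOn (bd n e ρ u s) (Icc s (s+u)) := by
    have h3 : Continuous fun t => - Zs e n 0 (ρ + e) + Zs e n 1 ρ * (s + u - t) := by fun_prop
    exact h3.continuousOn.congr fun t ht => bd_eq2 h ht.1 ht.2
  have h3 : ContinuousOn (bd n e ρ u s) (Ici (s+u)) := by
    have h4 : Continuous fun t => -Zs e n 0 (ρ + e + u + s - t) :=
      (Z0_cont.comp (continuous_const.sub continuous_id)).neg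
    exact h4.continuousOn.congr fun t ht => bd_eq3 h ht
  have h5 := (h1.union_of_isClosed h2 isClosed_Iic isClosed_Icc).union_of_isClosed h3
    (isClosed_Iic.union isClosed_Icc) isClosed_Ici
  rw [Iic_union_Icc_eq_Iic (by linarith), Iic_union_Ici] at h5
  exact continuousOn_univ.mp h5

end half

/-! ### the antiperiodic extension -/

private noncomputable def ext (T : ℝ) (f : ℝ → ℝ) (t : ℝ) : ℝ :=
  (-1 : ℝ)^⌊t / T⌋ * f (t - ⌊t / T⌋ * T)

private theorem floor_le {T : ℝ} (hT : 0 < T) (t : ℝ) : ⌊t / T⌋ * T ≤ t := by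
  have := Int.floor_le (t / T)
  rwa [le_div_iff₀ hT] at this

private theorem lt_floor {T : ℝ} (hT : 0 < T) (t : ℝ) : t < (⌊t / T⌋ + 1) * T := by
  have := Int.lt_floor_add_one (t / T)
  rwa [div_lt_iff₀ hT] at this

private theorem ext_eq {T : ℝ} (hT : 0 < T) {f : ℝ → ℝ} (hf : f T = - f 0) (k : ℤ) {t : ℝ}
    (h1 : k * T ≤ t) (h2 : t ≤ (k + 1) * T) : ext T f t = (-1 : ℝ)^k * f (t - k * T) := by
  rcases h2.lt_or_eq with h2 | h2
  · have h3 : ⌊t / T⌋ = k := by
      rw [Int.floor_eq_iff]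
      exact ⟨by rwa [le_div_iff₀ hT], by rwa [div_lt_iff₀ hT]⟩
    rw [ext, h3]
  · have h3 : ⌊t / T⌋ = k + 1 := by
      rw [h2, mul_div_assoc, div_self hT.ne', mul_one]
      exact_mod_cast Int.floor_intCast (k+1)
    have h4 : t - k * T = T := by rw [h2]; ring
    rw [ext, h3, h4, hf]
    have h5 : t - ((k + 1 : ℤ) : ℝ) * T = 0 := by rw [h2]; push_cast; ring
    rw [h5, zpow_add₀ (by norm_num)]
    simp

private theorem ext_deriv {T : ℝ} (hT : 0 < T) {f g : ℝ → ℝ} (hf : f T = - f 0) (hg : g T = - g 0)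
    (h : ∀ t, HasDerivWithinAt f (g t) (Icc 0 T) t) (t : ℝ) :
    HasDerivAt (ext T f) (ext T g t) t := by
  have key : ∀ k : ℤ, HasDerivWithinAt (ext T f) (ext T g t) (Icc (k * T) ((k + 1) * T)) t := by
    intro k
    refine glue isClosed_Icc (fun x hx => ext_eq hT hf k hx.1 hx.2)
      (fun x hx => ext_eq hT hg k hx.1 hx.2) (fun x hx => ?_) t
    refine HasDerivWithinAt.const_mul _ ?_
    have h3 : HasDerivWithinAt (fun t : ℝ => t - k * T) 1 (Icc (k * T) ((k + 1) * T)) x :=
      ((hasDerivAt_id x).sub_const (k * T)).hasDerivWithinAt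
    have hm : MapsTo (fun t : ℝ => t - k * T) (Icc (k * T) ((k + 1) * T)) (Icc 0 T) := by
      intro y hy
      have h6 := hy.2
      have h5 : (k + 1) * T = k * T + T := by ring
      exact ⟨by linarith [hy.1], by linarith⟩
    have h4 := (h (x - k * T)).comp x h3 hm
    simpa [Function.comp_def] using h4
  have h1 := key (⌊t / T⌋ - 1)
  have h2 := key ⌊t / T⌋
  have h3 := h1.union h2
  have h4 := floor_le hT t
  have h5 := lt_floor hT t
  have h6 : (((⌊t / T⌋ - 1 : ℤ) : ℝ) + 1) * T = ⌊t / T⌋ * T := by push_cast; ring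
  rw [h6, Icc_union_Icc_eq_Icc (by push_cast; nlinarith) (by nlinarith)] at h3
  exact h3.hasDerivAt (Icc_mem_nhds (by push_cast; nlinarith) h5)

private theorem ext_cont {T : ℝ} (hT : 0 < T) {f : ℝ → ℝ} (hf : f T = - f 0)
    (hc : Continuous f) : Continuous (ext T f) := by
  rw [continuous_iff_continuousAt]
  intro t
  have key : ∀ k : ℤ, ContinuousOn (ext T f) (Icc (k * T) ((k + 1) * T)) := by
    intro k
    have h1 : Continuous fun t => (-1 : ℝ)^k * f (t - k * T) :=
      continuous_const.mul (hc.comp (continuous_id.sub continuous_const))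
    exact h1.continuousOn.congr fun x hx => ext_eq hT hf k hx.1 hx.2
  have h3 := (key (⌊t / T⌋ - 1)).union_of_isClosed (key ⌊t / T⌋) isClosed_Icc isClosed_Icc
  have h4 := floor_le hT t
  have h5 := lt_floor hT t
  have h6 : (((⌊t / T⌋ - 1 : ℤ) : ℝ) + 1) * T = ⌊t / T⌋ * T := by push_cast; ring
  rw [h6, Icc_union_Icc_eq_Icc (by push_cast; nlinarith) (by nlinarith)] at h3
  exact h3.continuousAt (Icc_mem_nhds (by push_cast; nlinarith) h5)

private theorem ext_deriv' {T : ℝ} (hT : 0 < T) {f : ℝ → ℝ} (hf : f T = - f 0) (k : ℤ) {t c : ℝ}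
    (h1 : k * T < t) (h2 : t < (k + 1) * T) (h : HasDerivAt f c (t - k * T)) :
    HasDerivAt (ext T f) ((-1 : ℝ)^k * c) t := by
  have h3 : HasDerivAt (fun t : ℝ => t - k * T) 1 t := (hasDerivAt_id t).sub_const (k * T)
  have h4 := (h.comp t h3).const_mul ((-1 : ℝ)^k)
  have h5 : HasDerivAt (fun t => (-1 : ℝ)^k * f (t - k * T)) ((-1 : ℝ)^k * c) t := by
    simpa [Function.comp_def] using h4
  refine h5.congr_of_eventuallyEq ?_
  filter_upwards [Ioo_mem_nhds h1 h2] with x hx
  exact ext_eq hT hf k hx.1.le hx.2.le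

private theorem ext_meas {T : ℝ} {f : ℝ → ℝ} (hf : Measurable f) :
    Measurable fun t => f (t - ⌊t / T⌋ * T) := by
  refine hf.comp (measurable_id.sub (Measurable.mul_const ?_ _))
  exact measurable_from_top.comp (Int.measurable_floor.comp (measurable_id.div_const T))

/-! ### absolute continuity -/

private theorem ac_of_deriv {y a : ℝ → ℝ} {E : Set ℝ} (hE : E.Countable) (hy : Continuous y)
    (hd : ∀ t, t ∉ E → HasDerivAt y (a t) t) (ha : Measurable a)
    (hb : ∀ b c : ℝ, ∃ M, ∀ t ∈ Icc b c, |a t| ≤ M) (b c : ℝ) (hbc : b ≤ c) :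
    AbsolutelyContinuousOnInterval y b c := by
  obtain ⟨M, hM⟩ := hb b c
  have hM0 : 0 ≤ M := (abs_nonneg _).trans (hM b ⟨le_rfl, hbc⟩)
  have hint : ∀ t1 t2 : ℝ, IntervalIntegrable a volume t1 t2 := by
    intro t1 t2
    obtain ⟨M', hM'⟩ := hb (min t1 t2) (max t1 t2)
    rw [intervalIntegrable_iff]
    refine Measure.integrableOn_of_bounded (M := M') ?_ ha.aestronglyMeasurable ?_
    · rw [uIoc, Real.volume_Ioc]; exact ENNReal.ofReal_ne_top
    · refine (ae_restrict_iff' measurableSet_uIoc).mpr (Eventually.of_forall fun t ht => ?_)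
      rw [uIoc] at ht
      exact hM' t ⟨ht.1.le, ht.2⟩
  have hl : LipschitzOnWith (Real.toNNReal M) y (uIcc b c) := by
    rw [uIcc_of_le hbc]
    refine LipschitzOnWith.of_dist_le_mul fun t1 ht1 t2 ht2 => ?_
    rw [Real.coe_toNNReal _ hM0, Real.dist_eq, Real.dist_eq]
    have h1 := integral_eq_of_hasDerivAt_off_countable y a (a := t2) (b := t1) hE
      hy.continuousOn (fun t ht => hd t ht.2) (hint _ _)
    rw [← h1]
    have h2 := intervalIntegral.norm_integral_le_of_norm_le_const (a := t2) (b := t1) (f := a)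
      (C := M) (fun t ht => by
        rw [Real.norm_eq_abs]
        refine hM t ?_
        rw [uIoc] at ht
        exact ⟨(le_min ht2.1 ht1.1).trans ht.1.le, ht.2.trans (max_le ht2.2 ht1.2)⟩)
    simpa [Real.norm_eq_abs] using h2
  exact hl.absolutelyContinuousOnInterval

/-! ### the solution -/

private noncomputable def tau0 (ρ u s t : ℝ) : ℝ :=
  if t ≤ s then 0 else if t ≤ s + u then t + ρ else ρ + u + s

private noncomputable def p0 (ρ u s t : ℝ) : ℝ := if t ≤ ρ + u + s then -1 else 0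

private theorem tau0_meas (ρ u s : ℝ) : Measurable (tau0 ρ u s) := by
  unfold tau0
  refine Measurable.ite measurableSet_Iic measurable_const ?_
  exact Measurable.ite measurableSet_Iic (measurable_id.add_const ρ) measurable_const

private theorem p0_meas (ρ u s : ℝ) : Measurable (p0 ρ u s) := by
  unfold p0
  exact Measurable.ite measurableSet_Iic measurable_const measurable_const

theorem solution {n : ℕ} {e ρ u s : ℝ} (h : Data n e ρ u s) : ∃ p τ x : ℝ → ℝ, Coef p τ ∧
    tm τ 0 ≤ ρ + u + s ∧ IsSol p τ 0 (tm τ 0) x ∧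
    ∀ k : ℕ, ∀ t ∈ Icc 0 (ρ + e + u + s),
      x (k * (ρ + e + u + s) + t) = (-1)^k * bf n e ρ u s t := by
  have hρ := h.hρ; have he := h.he; have hu := h.hu; have hs := h.hs
  set T : ℝ := ρ + e + u + s with hTdef
  have hT : 0 < T := T_pos h
  set p : ℝ → ℝ := fun t => p0 ρ u s (t - ⌊t / T⌋ * T) with hp
  set τ : ℝ → ℝ := fun t => tau0 ρ u s (t - ⌊t / T⌋ * T) with hτ
  set x : ℝ → ℝ := ext T (bf n e ρ u s) with hx
  set y : ℝ → ℝ := ext T (bd n e ρ u s) with hy
  have hfb : bf n e ρ u s T = - bf n e ρ u s 0 := by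
    rw [bf_zero h, bf_T h, neg_zero]
  have hgb : bd n e ρ u s T = - bd n e ρ u s 0 := by
    rw [bd_zero h, bd_T h]
  have hpm : Measurable p := ext_meas (p0_meas ρ u s)
  have hτm : Measurable τ := ext_meas (tau0_meas ρ u s)
  have hp1 : ∀ t, -1 ≤ p t ∧ p t ≤ 0 := by
    intro t
    simp only [hp, p0]
    split_ifs <;> constructor <;> norm_num
  have hfl : ∀ t, 0 ≤ t - ⌊t / T⌋ * T := fun t => by have := floor_le hT t; linarith
  have hτ0 : ∀ t, 0 ≤ τ t := by
    intro t
    simp only [hτ, tau0]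
    split_ifs
    · exact le_rfl
    · have := hfl t; linarith
    · linarith
  have hτ1 : ∀ t, τ t ≤ ρ + u + s := by
    intro t
    simp only [hτ, tau0]
    split_ifs with h1 h2
    · linarith
    · linarith
    · exact le_rfl
  have hxd : ∀ t, HasDerivAt x (y t) t := ext_deriv hT hfb hgb (bf_deriv h)
  have hxc : Continuous x := continuous_iff_continuousAt.mpr fun t => (hxd t).continuousAt
  -- the second derivative
  set E : Set ℝ := ⋃ k : ℤ, ({k * T, k * T + s, k * T + (s + u), k * T + (ρ + u + s)} : Set ℝ)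
    with hE
  have hEc : E.Countable := countable_iUnion fun k => (Set.toFinite _).countable
  have hyd : ∀ t, t ∉ E → HasDerivAt y (-(p t * x (t - τ t))) t := by
    intro t ht
    set k : ℤ := ⌊t / T⌋ with hk
    have hne : ∀ a ∈ ({k * T, k * T + s, k * T + (s + u), k * T + (ρ + u + s)} : Set ℝ), t ≠ a := by
      intro a ha hta
      exact ht (mem_iUnion.mpr ⟨k, hta ▸ ha⟩)
    simp only [mem_insert_iff, mem_singleton_iff, forall_eq_or_imp, forall_eq] at hne
    obtain ⟨n1, n2, n3, n4⟩ := hne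
    have f1 : k * T < t := lt_of_le_of_ne (floor_le hT t) (Ne.symm n1)
    have f2 : t < (k + 1) * T := lt_floor hT t
    have f2' : t - k * T < T := by
      have h5 : (k + 1) * T = k * T + T := by ring
      linarith
    have hpt : p t = p0 ρ u s (t - k * T) := rfl
    have hτt : τ t = tau0 ρ u s (t - k * T) := rfl
    have hm1 : (-1 : ℝ)^(k - 1) = - (-1 : ℝ)^k := by
      rw [zpow_sub₀ (by norm_num)]; simp [div_neg]
    -- value of x one half period back
    have hback : ∀ r, 0 ≤ r → r ≤ T → x ((k - 1) * T + r) = - (-1 : ℝ)^k * bf n e ρ u s r := by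
      intro r h0 h1
      have h2 := ext_eq hT hfb (k - 1) (t := (k - 1) * T + r) (by push_cast; linarith)
        (by push_cast; linarith)
      rw [hx, h2, hm1]
      congr 2
      push_cast
      ring
    rcases lt_or_gt_of_ne (fun hh : t - k * T = s => n2 (by linarith)) with g1 | g1
    · have h1 := ext_deriv' hT hgb k f1 f2 (bd_deriv1 (n := n) (e := e) (ρ := ρ) (u := u) g1)
      have h2 : -(p t * x (t - τ t)) = (-1 : ℝ)^k * Real.sinh (t - k * T) := by
        have h3 : p t = -1 := by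
          rw [hpt, p0, if_pos (by linarith)]
        have h4 : τ t = 0 := by
          rw [hτt, tau0, if_pos g1.le]
        have h5 := ext_eq hT hfb k f1.le f2.le
        rw [h3, h4, sub_zero, hx, h5, bf_eq1 g1.le]
        ring
      rw [h2]
      exact h1
    · rcases lt_or_gt_of_ne (fun hh : t - k * T = s + u => n3 (by linarith)) with g2 | g2
      · have h1 := ext_deriv' hT hgb k f1 f2 (bd_deriv2 h g1 g2)
        have h2 : -(p t * x (t - τ t)) = (-1 : ℝ)^k * (-Zs e n 1 ρ) := by
          have h3 : p t = -1 := by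
            rw [hpt, p0, if_pos (by linarith)]
          have h4 : τ t = t - k * T + ρ := by
            rw [hτt, tau0, if_neg (by linarith), if_pos g2.le]
          have h5 : t - τ t = (k - 1) * T + (e + u + s) := by
            rw [h4, hTdef]; ring
          rw [h3, h5, hback _ (by linarith) (by linarith), bf_eq3 h (by linarith)]
          have h6 : ρ + e + u + s - (e + u + s) = ρ := by ring
          rw [h6]
          ring
        rw [h2]
        exact h1
      · have h1 := ext_deriv' hT hgb k f1 f2 (bd_deriv3 h g2)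
        have h4 : τ t = ρ + u + s := by
          rw [hτt, tau0, if_neg (by linarith), if_neg (by linarith)]
        rcases lt_or_gt_of_ne (fun hh : t - k * T = ρ + u + s => n4 (by linarith)) with g3 | g3
        · have h2 : -(p t * x (t - τ t)) = (-1 : ℝ)^k * (-Zs e n 1 (ρ + u + s - (t - k * T))) := by
            have h3 : p t = -1 := by
              rw [hpt, p0, if_pos g3.le]
            have h5 : t - τ t = (k - 1) * T + (t - k * T + e) := by
              rw [h4, hTdef]; ring
            rw [h3, h5, hback _ (by linarith) (by linarith), bf_eq3 h (by linarith)]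
            have h6 : ρ + e + u + s - (t - k * T + e) = ρ + u + s - (t - k * T) := by ring
            rw [h6]
            ring
          rw [h2]
          exact h1
        · have h2 : -(p t * x (t - τ t)) = (-1 : ℝ)^k * (-Zs e n 1 (ρ + u + s - (t - k * T))) := by
            have h3 : p t = 0 := by
              rw [hpt, p0, if_neg (by linarith)]
            rw [h3, Zs_neg he.le n (by linarith)]
            ring
          rw [h2]
          exact h1
  have hyc : Continuous y := ext_cont hT hgb (bd_cont h)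
  refine ⟨p, τ, x, ⟨hpm, hτm, hp1, hτ0, ρ + u + s, Eventually.of_forall hτ1⟩, ?_,
    ⟨y, fun t _ => (hxd t).hasDerivWithinAt, ?_, ?_⟩, ?_⟩
  · refine Filter.limsup_le_of_le ?_ (Eventually.of_forall hτ1)
    have hb : IsBoundedUnder (· ≥ ·) (ae (volume.restrict (Ici (0:ℝ)))) τ :=
      isBoundedUnder_of ⟨0, hτ0⟩
    have : NeBot (ae (volume.restrict (Ici (0:ℝ)))) := by
      rw [ae_neBot, Ne, Measure.restrict_eq_zero, Real.volume_Ici]
      exact ENNReal.top_ne_zero
    exact hb.isCoboundedUnder_le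
  · intro a b _ hab
    refine ac_of_deriv hEc hyc hyd ?_ ?_ a b hab
    · exact (hpm.mul (hxc.measurable.comp (measurable_id.sub hτm))).neg
    · intro b c
      obtain ⟨M, hM⟩ := (isCompact_Icc (a := b - (ρ + u + s)) (b := c)).exists_bound_of_continuousOn
        hxc.continuousOn
      refine ⟨M, fun t ht => ?_⟩
      have h1 := hM (t - τ t) ⟨by linarith [ht.1, hτ1 t], by linarith [ht.2, hτ0 t]⟩
      rw [Real.norm_eq_abs] at h1
      rw [abs_neg, abs_mul]
      have h2 : |p t| ≤ 1 := abs_le.mpr ⟨(hp1 t).1, (hp1 t).2.trans zero_le_one⟩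
      calc |p t| * |x (t - τ t)| ≤ 1 * |x (t - τ t)| := by gcongr
        _ ≤ M := by linarith
  · have h1 : ∀ᵐ t, t ∉ E := (hEc.ae_notMem volume)
    filter_upwards [h1] with t ht _
    exact hyd t ht
  · intro k t ht
    have h1 := ext_eq hT hfb (k : ℤ) (t := k * T + t) (by push_cast; linarith [ht.1])
      (by push_cast; linarith [ht.2])
    rw [hx, h1]
    simp

private theorem Z1_e {n : ℕ} {e ρ u s : ℝ} (h : Data n e ρ u s) : Zs e n 1 e = e := by
  obtain ⟨m, rfl⟩ : ∃ m, n = m + 1 := ⟨n - 1, by have := n_pos h; omega⟩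
  have he := h.he
  rw [Zs_tp, Finset.sum_range_succ', Finset.sum_eq_zero]
  · simp [tp, he.le]
  · intro k _
    rw [tp_of_neg _ (by omega), mul_zero]
    have h1 : 0 ≤ (k:ℝ) * e := by positivity
    push_cast
    linarith

private theorem no_lim {n : ℕ} {e ρ u s : ℝ} (h : Data n e ρ u s) {x : ℝ → ℝ}
    (hx : ∀ k : ℕ, ∀ t ∈ Icc 0 (ρ + e + u + s),
      x (k * (ρ + e + u + s) + t) = (-1)^k * bf n e ρ u s t) : ¬ Tendsto x atTop (𝓝 0) := by
  intro ht
  have hρ := h.hρ; have he := h.he; have hu := h.hu; have hs := h.hs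
  have h1 : Tendsto (fun k : ℕ => (k:ℝ) * (ρ + e + u + s) + (ρ + u + s)) atTop atTop := by
    apply tendsto_atTop_add_const_right
    exact tendsto_natCast_atTop_atTop.atTop_mul_const (T_pos h)
  have h2 := (ht.comp h1).abs
  have h3 : (fun k : ℕ => |(x ∘ fun k : ℕ => (k:ℝ) * (ρ + e + u + s) + (ρ + u + s)) k|) =
      fun _ => e := by
    funext k
    have h4 : ρ + e + u + s - (ρ + u + s) = e := by ring
    rw [Function.comp_apply, hx k _ ⟨by linarith, by linarith⟩, bf_eq3 h (by linarith), h4, Z1_e h,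
      abs_mul, abs_pow, abs_neg, abs_one, one_pow, one_mul, abs_of_pos he]
  rw [h3, abs_zero] at h2
  exact he.ne' (tendsto_nhds_unique tendsto_const_nhds h2)

theorem not_adm {n : ℕ} {e ρ u s κ : ℝ} (h : Data n e ρ u s) (hκ : ρ + u + s < κ) : ¬ Adm κ := by
  intro hA
  obtain ⟨p, τ, x, hc, htm, hsol, hx⟩ := solution h
  have hT := T_pos h
  have hosc : Osc x := by
    intro S
    obtain ⟨k, hk⟩ := exists_nat_ge (S / (ρ + e + u + s))
    refine ⟨k * (ρ + e + u + s) + 0, ?_, ?_⟩
    · rw [div_le_iff₀ hT] at hk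
      linarith
    · rw [hx k 0 ⟨le_rfl, hT.le⟩, bf_zero h, mul_zero]
  exact no_lim h hx (hA.2 p τ hc 0 (lt_of_le_of_lt htm hκ) x hsol hosc)

private theorem tp_step (k : ℕ) {e y z : ℝ} (he : 0 ≤ e) (hy : y ≤ 2) (hz : z ≤ y) :
    tp (2*k+3) (z - e) ≤ tp (2*k+1) z := by
  rcases le_or_gt z 0 with h0 | h0
  · rw [tp_of_neg _ (by omega) (by linarith)]
    exact tp_nonneg _ _
  · have h1 : tp (2*k+3) (z - e) ≤ tp (2*k+3) z := by
      unfold tp
      have : max (z - e) 0 ≤ max z 0 := max_le_max (by linarith) le_rfl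
      gcongr
    refine h1.trans ?_
    rw [tp_of_pos _ h0.le, tp_of_pos _ h0.le]
    have h2 : (2*k+3).factorial = (2*k+3) * ((2*k+2) * (2*k+1).factorial) := by
      rw [Nat.factorial_succ, Nat.factorial_succ]
    have h3 : (0:ℝ) < ((2*k+1).factorial : ℝ) := by positivity
    rw [h2]
    push_cast
    rw [div_le_div_iff₀ (by positivity) h3]
    have h4 : z^2 ≤ (2 * (k:ℝ) + 3) * (2 * k + 2) := by
      have h5 : z^2 ≤ 4 := by nlinarith
      have h6 : (0:ℝ) ≤ k := by positivity
      nlinarith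
    have h7 : z^(2*k+3) = z^(2*k+1) * z^2 := by rw [← pow_add]
    rw [h7]
    have h8 : 0 ≤ z^(2*k+1) * ((2*k+1).factorial : ℝ) := by positivity
    nlinarith [mul_le_mul_of_nonneg_left h4 h8]

private theorem Z1_pos {e y : ℝ} (he : 0 ≤ e) (h0 : 0 < y) (h2 : y ≤ 2) : 0 < Zs e 15 1 y := by
  have key : ∀ k : ℕ, tp (2*(k+1)+1) (y - ((k+1 : ℕ):ℝ) * e) ≤ tp (2*k+1) (y - (k:ℝ) * e) := by
    intro k
    have h3 := tp_step k (y := y) (z := y - k * e) he h2
      (by have : 0 ≤ (k:ℝ) * e := by positivity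
          linarith)
    have h4 : y - ((k+1 : ℕ):ℝ) * e = y - k * e - e := by push_cast; ring
    rw [h4]
    exact h3
  have h01 : tp (2*1+1) (y - ((1:ℕ):ℝ) * e) < tp (2*0+1) (y - ((0:ℕ):ℝ) * e) := by
    have h5 : tp (2*1+1) (y - ((1:ℕ):ℝ) * e) ≤ tp 3 y := by
      unfold tp
      have : max (y - ((1:ℕ):ℝ) * e) 0 ≤ max y 0 := max_le_max (by push_cast; linarith) le_rfl
      gcongr
    refine lt_of_le_of_lt h5 ?_
    rw [tp_of_pos _ h0.le]
    have h6 : tp (2*0+1) (y - ((0:ℕ):ℝ) * e) = y := by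
      simp [tp, h0.le]
    rw [h6]
    have h7 : ((3:ℕ).factorial : ℝ) = 6 := by norm_num [Nat.factorial]
    rw [h7]
    nlinarith [mul_pos h0 h0]
  rw [Zs_tp]
  simp only [Finset.sum_range_succ, Finset.sum_range_zero]
  have k2 := key 2
  have k4 := key 4
  have k6 := key 6
  have k8 := key 8
  have k10 := key 10
  have k12 := key 12
  have k14 := tp_nonneg (2*14+1) (y - ((14:ℕ):ℝ) * e)
  norm_num at k2 k4 k6 k8 k10 k12 k14 h01 ⊢
  linarith

private theorem bf_pos {P : Par} (h : P.Star) {t : ℝ} (h0 : 0 < t)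
    (h1 : t < P.ρ + P.e0 + P.u + P.s) : 0 < bf 15 P.e0 P.ρ P.u P.s t := by
  have hd := h.data
  have hu : 0 < P.u := by linarith [h.u_lo]
  have hs : 0 < P.s := by linarith [h.s_lo]
  have hA : 0 < Zs P.e0 15 1 (P.ρ + P.e0) :=
    Z1_pos hd.he.le (by linarith [hd.he, hd.hρ]) (by linarith [h.ρ_hi, h.e_hi])
  have hC : 0 < Zs P.e0 15 1 P.ρ := Z1_pos hd.he.le hd.hρ (by linarith [h.ρ_hi])
  rcases le_or_gt t P.s with h2 | h2
  · rw [bf_eq1 h2]
    exact Real.sinh_pos_iff.mpr h0
  · rcases le_or_gt t (P.s + P.u) with h3 | h3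
    · rw [bf_eq2 hd h2.le h3]
      have hE := hd.E3
      have hsp : 0 < Real.sinh P.s := Real.sinh_pos_iff.mpr hs
      set A := Zs P.e0 15 1 (P.ρ + P.e0)
      set B := Zs P.e0 15 0 (P.ρ + P.e0)
      set C := Zs P.e0 15 1 P.ρ
      set v := P.s + P.u - t with hv
      have hv0 : 0 ≤ v := by linarith
      have hv1 : v < P.u := by linarith
      have h5 : P.u * (A + B * v - C * v^2 / 2) =
          (P.u - v) * A + v * Real.sinh P.s + C * P.u * v * (P.u - v) / 2 := by
        rw [hE]; ring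
      have h6 : 0 < P.u * (A + B * v - C * v^2 / 2) := by
        rw [h5]
        have : 0 < (P.u - v) * A := mul_pos (by linarith) hA
        have : 0 ≤ v * Real.sinh P.s := mul_nonneg hv0 hsp.le
        have : 0 ≤ C * P.u * v * (P.u - v) / 2 := by
          have : 0 ≤ P.u - v := by linarith
          positivity
        linarith
      exact (mul_pos_iff_of_pos_left hu).mp h6
    · rw [bf_eq3 hd h3.le]
      exact Z1_pos hd.he.le (by linarith) (by linarith [h.ρ_hi, h.e_hi])

/-- the extremal solution is slowly oscillating -/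
theorem not_sadm {P : Par} (h : P.Star) {κ : ℝ} (hκ : P.ρ + P.u + P.s < κ) : ¬ SAdm κ := by
  intro hA
  have hd := h.data
  obtain ⟨p, τ, x, hc, htm, hsol, hx⟩ := solution hd
  have hT := T_pos hd
  have hz : ∀ k : ℕ, x (k * (P.ρ + P.e0 + P.u + P.s)) = 0 := by
    intro k
    have h1 := hx k 0 ⟨le_rfl, hT.le⟩
    rw [bf_zero hd, mul_zero, add_zero] at h1
    exact h1
  have hslow : Slow x 0 (tm τ 0) := by
    refine ⟨fun k => k * (P.ρ + P.e0 + P.u + P.s), by simp, ?_, fun k => ⟨hz k, ?_, ?_, ?_⟩⟩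
    · exact tendsto_natCast_atTop_atTop.atTop_mul_const hT
    · push_cast; nlinarith
    · have h1 : ((k+1 : ℕ):ℝ) * (P.ρ + P.e0 + P.u + P.s) - k * (P.ρ + P.e0 + P.u + P.s) =
          P.ρ + P.e0 + P.u + P.s := by push_cast; ring
      rw [h1]
      linarith [hd.he]
    · intro t ht
      have h1 : ((k+1 : ℕ):ℝ) * (P.ρ + P.e0 + P.u + P.s) = k * (P.ρ + P.e0 + P.u + P.s) +
          (P.ρ + P.e0 + P.u + P.s) := by push_cast; ring
      have h2 : 0 < t - k * (P.ρ + P.e0 + P.u + P.s) := by linarith [ht.1]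
      have h3 : t - k * (P.ρ + P.e0 + P.u + P.s) < P.ρ + P.e0 + P.u + P.s := by
        have h5 : t < ((k+1 : ℕ):ℝ) * (P.ρ + P.e0 + P.u + P.s) := ht.2
        rw [h1] at h5
        linarith
      have h4 := hx k _ ⟨h2.le, h3.le⟩
      rw [add_sub_cancel] at h4
      rw [h4]
      exact mul_ne_zero (pow_ne_zero _ (by norm_num)) (bf_pos h h2 h3).ne'
  exact no_lim hd hx (hA.2 p τ hc 0 (lt_of_le_of_lt htm hκ) x hsol hslow)

end Pool.Agent.CDk
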