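import Pool.Agent.CDk.Defs
import Pool.Agent.CDk.FIN2
import Pool.Agent.CDk.FIN5
import Pool.Agent.CDk.FP
import Pool.Agent.CDk.STA

open MeasureTheory Set Filter Topology

namespace Pool.Agent.CDk

theorem tm_ae {p τ : ℝ → ℝ} (hc : Coef p τ) (s : ℝ) : ∀ᵐ t, s ≤ t → τ t ≤ tm τ s := by
  obtain ⟨-, -, -, h0, C, hC⟩ := hc
  have hb : IsBoundedUnder (· ≤ ·) (ae (volume.restrict (Ici s))) τ :=
    ⟨C, by rw [eventually_map]; exact ae_restrict_of_ae hC⟩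
  have h1 : ∀ᵐ t ∂(volume.restrict (Ici s)), τ t ≤ tm τ s := ae_le_essSup hb
  rw [ae_restrict_iff' measurableSet_Ici] at h1
  exact h1

theorem tm_nonneg {p τ : ℝ → ℝ} (hc : Coef p τ) (s : ℝ) : 0 ≤ tm τ s := by
  have h1 := tm_ae hc s
  by_contra hneg
  push Not at hneg
  have h2 : ∀ᵐ t : ℝ, ¬ s ≤ t := by
    filter_upwards [h1] with t ht hst
    have := ht hst
    linarith [hc.2.2.2.1 t]
  have h3 : volume (Ici s) = 0 := by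
    rw [ae_iff] at h2
    simpa [Ici_def] using h2
  simp at h3

theorem sol_of_isSol {p τ x : ℝ → ℝ} (hc : Coef p τ) {s : ℝ} (hx : IsSol p τ s (tm τ s) x) :
    ∃ y, Sol x y s (tm τ s) := by
  obtain ⟨y, h1, h2, h3⟩ := hx
  have h0 := tm_nonneg hc s
  refine ⟨y, ⟨fun t ht => ?_, fun a b ha hab => h2 a b (by linarith) hab, ?_⟩⟩
  · exact (h1 t (by linarith)).mono (fun r hr => mem_Ici.mpr (by linarith [mem_Ici.mp hr]))
  · filter_upwards [h3, tm_ae hc s] with t ht ht2 hst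
    refine ⟨-p t, τ t, by linarith [(hc.2.2.1 t).2], by linarith [(hc.2.2.1 t).1], hc.2.2.2.1 t,
      ht2 hst, ?_⟩
    have := ht hst
    rwa [neg_mul]

/-- all slowly oscillating solutions decay below the constant -/
theorem sadm {P : Par} (h : P.Star) {κ : ℝ} (h0 : 0 < κ) (hκ : κ ≤ P.ρ + P.u + P.s) : SAdm κ := by
  refine ⟨h0, fun p τ hc s hτ x hx hsl => ?_⟩
  obtain ⟨y, hy⟩ := sol_of_isSol hc hx
  obtain ⟨z, hz0, hzt, hz⟩ := hsl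
  exact slow_decay h (tm_nonneg hc s) (by unfold Par.Y; linarith) hy hz0 hzt hz

theorem stageB : ∃ K : ℝ, 3.04448 < K ∧ K < 3.04449 ∧ K ∈ KSet ∧
    (∀ κ, SAdm κ ↔ 0 < κ ∧ κ ≤ K) ∧ (∀ κ, K < κ → ¬ Adm κ) ∧ ∀ k ∈ KSet, ∀ κ, k < κ → ¬ Adm κ := by
  obtain ⟨P, h⟩ := star_exists
  refine ⟨P.ρ + P.u + P.s, by linarith [h.ρ_lo, h.u_lo, h.s_lo], by linarith [h.ρ_hi, h.u_hi, h.s_hi],
    ⟨15, P.e0, P.ρ, P.u, P.s, h.data, rfl⟩, fun κ => ⟨fun hs => ⟨hs.1, ?_⟩, fun hs => sadm h hs.1 hs.2⟩,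
    fun κ hκ => not_adm h.data hκ, ?_⟩
  · by_contra hcon
    push Not at hcon
    exact not_sadm h hcon hs
  · rintro k ⟨n, e, ρ, u, s, hd, rfl⟩ κ hκ
    exact not_adm hd hκ

theorem stageB2 : ∃ P : Par, P.Star ∧ (3.04448 < P.ρ + P.u + P.s ∧ P.ρ + P.u + P.s < 3.04449) ∧
    (∀ κ, SAdm κ ↔ 0 < κ ∧ κ ≤ P.ρ + P.u + P.s) ∧ (∀ κ, P.ρ + P.u + P.s < κ → ¬ Adm κ) := by
  obtain ⟨P, h⟩ := star_exists
  refine ⟨P, h, ⟨by linarith [h.ρ_lo, h.u_lo, h.s_lo], by linarith [h.ρ_hi, h.u_hi, h.s_hi]⟩,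
    fun κ => ⟨fun hs => ⟨hs.1, ?_⟩, fun hs => sadm h hs.1 hs.2⟩, fun κ hκ => not_adm h.data hκ⟩
  by_contra hcon
  push Not at hcon
  exact not_sadm h hcon hs

end Pool.Agent.CDk
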