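import Pool.Agent.CDk.FV
import Pool.Agent.CDk.STR

open MeasureTheory Set Filter Topology

namespace Pool.Agent.CDk

variable {P : Par}

theorem Fq_eq {N e : ℝ} {D : ℝ → ℝ} : Fq P.Y e (N - I2 D P.Y) D = N * P.q e := by
  unfold Fq Par.q
  rw [sub_add_cancel]; ring


end Pool.Agent.CDk
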