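import Mathlib

open MeasureTheory Set Filter Topology

namespace Pool.Agent.CDk.H1p

/-! a small verified checker for rational polynomials in one and two variables -/

noncomputable def ev : List ℚ → ℝ → ℝ
  | [], _ => 0
  | a :: l, t => a + t * ev l t

def padd : List ℚ → List ℚ → List ℚ
  | [], m => m
  | l, [] => l
  | a :: l, b :: m => (a + b) :: padd l m

def psm (c : ℚ) (l : List ℚ) : List ℚ := l.map (fun x => c * x)

def pmul : List ℚ → List ℚ → List ℚ
  | [], _ => []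
  | a :: l, m => padd (psm a m) (0 :: pmul l m)

def pcomp : List ℚ → List ℚ → List ℚ
  | [], _ => []
  | a :: l, m => padd [a] (pmul m (pcomp l m))

def pshift (c : ℚ) : List ℚ → List ℚ
  | [] => []
  | a :: l => padd [a] (padd (psm c (pshift c l)) (0 :: pshift c l))

def pbd (r : ℚ) : List ℚ → ℚ
  | [] => 0
  | a :: l => |a| + r * pbd r l

/-- lower bound on `|t| ≤ r` -/
def plb (r : ℚ) : List ℚ → ℚ
  | [] => 0
  | a :: l => a - r * pbd r l

theorem ev_padd (l m : List ℚ) (t : ℝ) : ev (padd l m) t = ev l t + ev m t := by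
  induction l generalizing m with
  | nil => simp [padd, ev]
  | cons a l ih =>
    cases m with
    | nil => simp [padd, ev]
    | cons b m => simp only [padd, ev, ih]; push_cast; ring

theorem ev_psm (c : ℚ) (l : List ℚ) (t : ℝ) : ev (psm c l) t = c * ev l t := by
  induction l with
  | nil => simp [psm, ev]
  | cons a l ih =>
    have : psm c (a :: l) = (c * a) :: psm c l := rfl
    rw [this, ev, ev, ih]; push_cast; ring

theorem ev_pmul (l m : List ℚ) (t : ℝ) : ev (pmul l m) t = ev l t * ev m t := by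
  induction l with
  | nil => simp [pmul, ev]
  | cons a l ih =>
    rw [pmul, ev_padd, ev_psm, ev, ev, ih]; push_cast; ring

theorem ev_pcomp (l m : List ℚ) (t : ℝ) : ev (pcomp l m) t = ev l (ev m t) := by
  induction l with
  | nil => simp [pcomp, ev]
  | cons a l ih =>
    rw [pcomp, ev_padd, ev_pmul, ih, ev, ev, ev]; ring

theorem ev_pshift (c : ℚ) (l : List ℚ) (s : ℝ) : ev (pshift c l) s = ev l (c + s) := by
  induction l with
  | nil => rfl
  | cons a l ih =>
    rw [pshift, ev_padd, ev_padd, ev_psm, ev, ev, ev, ev, ih]; push_cast; ring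

theorem ev_pbd (r : ℚ) (l : List ℚ) {s : ℝ} (hs : |s| ≤ r) : |ev l s| ≤ pbd r l := by
  induction l with
  | nil => simp [ev, pbd]
  | cons a l ih =>
    rw [ev, pbd]
    push_cast
    refine (abs_add_le _ _).trans ?_
    rw [abs_mul]
    have h0 : (0:ℝ) ≤ r := (abs_nonneg s).trans hs
    have h1 : |s| * |ev l s| ≤ r * pbd r l := mul_le_mul hs ih (abs_nonneg _) h0
    linarith

theorem ev_plb (r : ℚ) (l : List ℚ) {s : ℝ} (hs : |s| ≤ r) : plb r l ≤ ev l s := by
  cases l with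
  | nil => simp [ev, plb]
  | cons a l =>
    rw [ev, plb]
    push_cast
    have h0 : (0:ℝ) ≤ r := (abs_nonneg s).trans hs
    have h1 : |s| * |ev l s| ≤ r * pbd r l := mul_le_mul hs (ev_pbd r l hs) (abs_nonneg _) h0
    have h2 := neg_abs_le (s * ev l s)
    rw [abs_mul] at h2
    linarith

/-- nonnegativity on `[lo, hi]` -/
def chk (l : List ℚ) : ℕ → ℚ → ℚ → Bool
  | 0, lo, hi => decide (0 ≤ plb ((hi - lo) / 2) (pshift ((lo + hi) / 2) l))
  | n + 1, lo, hi => decide (0 ≤ plb ((hi - lo) / 2) (pshift ((lo + hi) / 2) l)) ||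
      (chk l n lo ((lo + hi) / 2) && chk l n ((lo + hi) / 2) hi)

theorem chk_leaf {l : List ℚ} {lo hi : ℚ}
    (h : 0 ≤ plb ((hi - lo) / 2) (pshift ((lo + hi) / 2) l)) {t : ℝ} (h0 : (lo:ℝ) ≤ t)
    (h1 : t ≤ hi) : 0 ≤ ev l t := by
  have h2 := ev_plb ((hi - lo) / 2) (pshift ((lo + hi) / 2) l)
    (s := t - (lo + hi) / 2) (by push_cast; rw [abs_le]; constructor <;> linarith)
  rw [ev_pshift] at h2
  have h3 : (((lo + hi) / 2 : ℚ) : ℝ) + (t - (lo + hi) / 2) = t := by push_cast; ring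
  rw [h3] at h2
  exact le_trans (by exact_mod_cast h) h2

theorem chk_sound {l : List ℚ} : ∀ (n : ℕ) (lo hi : ℚ), chk l n lo hi = true →
    ∀ t : ℝ, (lo:ℝ) ≤ t → t ≤ hi → 0 ≤ ev l t := by
  intro n
  induction n with
  | zero =>
    intro lo hi h t h0 h1
    exact chk_leaf (of_decide_eq_true h) h0 h1
  | succ n ih =>
    intro lo hi h t h0 h1
    rw [chk, Bool.or_eq_true, Bool.and_eq_true] at h
    rcases h with h | ⟨ha, hb⟩
    · exact chk_leaf (of_decide_eq_true h) h0 h1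
    · rcases le_total t (((lo + hi) / 2 : ℚ) : ℝ) with h2 | h2
      · exact ih _ _ ha t h0 h2
      · exact ih _ _ hb t h2 h1

/-! two variables -/

noncomputable def ev2 : List (List ℚ) → ℝ → ℝ → ℝ
  | [], _, _ => 0
  | a :: L, x, y => ev a y + x * ev2 L x y

def padd2 : List (List ℚ) → List (List ℚ) → List (List ℚ)
  | [], m => m
  | l, [] => l
  | a :: l, b :: m => padd a b :: padd2 l m

def rmul (p : List ℚ) (A : List (List ℚ)) : List (List ℚ) := A.map (fun r => pmul p r)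

def pmul2 : List (List ℚ) → List (List ℚ) → List (List ℚ)
  | [], _ => []
  | a :: A, B => padd2 (rmul a B) ([] :: pmul2 A B)

def comp2 : List ℚ → List (List ℚ) → List (List ℚ)
  | [], _ => []
  | a :: l, M => padd2 [[a]] (pmul2 M (comp2 l M))

/-- a polynomial in `x` -/
def px (l : List ℚ) : List (List ℚ) := l.map (fun c => [c])

/-- a polynomial in `y` -/
def py (l : List ℚ) : List (List ℚ) := [l]

def pshx (c : ℚ) : List (List ℚ) → List (List ℚ)
  | [] => []
  | a :: l => padd2 [a] (padd2 ((pshx c l).map (psm c)) ([] :: pshx c l))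

def pbd2 (r s : ℚ) : List (List ℚ) → ℚ
  | [] => 0
  | a :: l => pbd s a + r * pbd2 r s l

def plb2 (r s : ℚ) : List (List ℚ) → ℚ
  | [] => 0
  | a :: l => plb s a - r * pbd2 r s l

theorem ev2_padd (A B : List (List ℚ)) (x y : ℝ) : ev2 (padd2 A B) x y = ev2 A x y + ev2 B x y := by
  induction A generalizing B with
  | nil => simp [padd2, ev2]
  | cons a A ih =>
    cases B with
    | nil => simp [padd2, ev2]
    | cons b B => simp only [padd2, ev2, ih, ev_padd]; ring

theorem ev2_rmul (p : List ℚ) (A : List (List ℚ)) (x y : ℝ) :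
    ev2 (rmul p A) x y = ev p y * ev2 A x y := by
  induction A with
  | nil => simp [rmul, ev2]
  | cons a A ih =>
    have : rmul p (a :: A) = pmul p a :: rmul p A := rfl
    rw [this, ev2, ev2, ih, ev_pmul]; ring

theorem ev2_pmul (A B : List (List ℚ)) (x y : ℝ) :
    ev2 (pmul2 A B) x y = ev2 A x y * ev2 B x y := by
  induction A with
  | nil => simp [pmul2, ev2]
  | cons a A ih =>
    rw [pmul2, ev2_padd, ev2_rmul, ev2, ev2, ih, ev]; ring

theorem ev2_comp (l : List ℚ) (M : List (List ℚ)) (x y : ℝ) :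
    ev2 (comp2 l M) x y = ev l (ev2 M x y) := by
  induction l with
  | nil => simp [comp2, ev2, ev]
  | cons a l ih =>
    rw [comp2, ev2_padd, ev2_pmul, ih, ev2, ev2, ev, ev, ev]; ring

theorem ev2_px (l : List ℚ) (x y : ℝ) : ev2 (px l) x y = ev l x := by
  induction l with
  | nil => simp [px, ev2, ev]
  | cons a l ih =>
    have : px (a :: l) = [a] :: px l := rfl
    rw [this, ev2, ih, ev, ev, ev]; ring

theorem ev2_py (l : List ℚ) (x y : ℝ) : ev2 (py l) x y = ev l y := by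
  simp [py, ev2]

theorem ev2_map (c : ℚ) (A : List (List ℚ)) (x y : ℝ) :
    ev2 (A.map (psm c)) x y = c * ev2 A x y := by
  induction A with
  | nil => simp [ev2]
  | cons a A ih =>
    rw [List.map_cons, ev2, ev2, ih, ev_psm]; ring

theorem ev2_pshx (c : ℚ) (A : List (List ℚ)) (x y : ℝ) :
    ev2 (pshx c A) x y = ev2 A (c + x) y := by
  induction A with
  | nil => rfl
  | cons a A ih =>
    rw [pshx, ev2_padd, ev2_padd, ev2_map, ev2, ev2, ev2, ev2, ih, ev]; ring

theorem ev2_pshy (c : ℚ) (A : List (List ℚ)) (x y : ℝ) :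
    ev2 (A.map (pshift c)) x y = ev2 A x (c + y) := by
  induction A with
  | nil => rfl
  | cons a A ih =>
    rw [List.map_cons, ev2, ev2, ih, ev_pshift]

theorem ev2_pbd (r s : ℚ) (A : List (List ℚ)) {x y : ℝ} (hx : |x| ≤ r) (hy : |y| ≤ s) :
    |ev2 A x y| ≤ pbd2 r s A := by
  induction A with
  | nil => simp [ev2, pbd2]
  | cons a A ih =>
    rw [ev2, pbd2]
    push_cast
    refine (abs_add_le _ _).trans ?_
    rw [abs_mul]
    have h0 : (0:ℝ) ≤ r := (abs_nonneg x).trans hx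
    have h1 : |x| * |ev2 A x y| ≤ r * pbd2 r s A := mul_le_mul hx ih (abs_nonneg _) h0
    have h2 := ev_pbd s a hy
    linarith

theorem ev2_plb (r s : ℚ) (A : List (List ℚ)) {x y : ℝ} (hx : |x| ≤ r) (hy : |y| ≤ s) :
    plb2 r s A ≤ ev2 A x y := by
  cases A with
  | nil => simp [ev2, plb2]
  | cons a A =>
    rw [ev2, plb2]
    push_cast
    have h0 : (0:ℝ) ≤ r := (abs_nonneg x).trans hx
    have h1 : |x| * |ev2 A x y| ≤ r * pbd2 r s A :=
      mul_le_mul hx (ev2_pbd r s A hx hy) (abs_nonneg _) h0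
    have h2 := neg_abs_le (x * ev2 A x y)
    rw [abs_mul] at h2
    have h3 := ev_plb s a hy
    linarith

def leaf (L : List (List ℚ)) (x0 x1 y0 y1 : ℚ) : Bool :=
  decide (0 ≤ plb2 ((x1 - x0) / 2) ((y1 - y0) / 2)
    (pshx ((x0 + x1) / 2) (L.map (pshift ((y0 + y1) / 2)))))

/-- nonnegativity on `[x0, x1] × [y0, y1]` -/
def chk2 (L : List (List ℚ)) : ℕ → ℚ → ℚ → ℚ → ℚ → Bool
  | 0, x0, x1, y0, y1 => leaf L x0 x1 y0 y1
  | n + 1, x0, x1, y0, y1 => leaf L x0 x1 y0 y1 ||
      (bif decide (y1 - y0 ≤ x1 - x0) then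
        (chk2 L n x0 ((x0 + x1) / 2) y0 y1 && chk2 L n ((x0 + x1) / 2) x1 y0 y1)
      else (chk2 L n x0 x1 y0 ((y0 + y1) / 2) && chk2 L n x0 x1 ((y0 + y1) / 2) y1))

theorem leaf_sound {L : List (List ℚ)} {x0 x1 y0 y1 : ℚ} (h : leaf L x0 x1 y0 y1 = true)
    {x y : ℝ} (h0 : (x0:ℝ) ≤ x) (h1 : x ≤ x1) (h2 : (y0:ℝ) ≤ y) (h3 : y ≤ y1) : 0 ≤ ev2 L x y := by
  have h4 := of_decide_eq_true h
  have h5 := ev2_plb ((x1 - x0) / 2) ((y1 - y0) / 2)
    (pshx ((x0 + x1) / 2) (L.map (pshift ((y0 + y1) / 2))))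
    (x := x - (x0 + x1) / 2) (y := y - (y0 + y1) / 2)
    (by push_cast; rw [abs_le]; constructor <;> linarith)
    (by push_cast; rw [abs_le]; constructor <;> linarith)
  rw [ev2_pshx, ev2_pshy] at h5
  have h6 : (((x0 + x1) / 2 : ℚ) : ℝ) + (x - (x0 + x1) / 2) = x := by push_cast; ring
  have h7 : (((y0 + y1) / 2 : ℚ) : ℝ) + (y - (y0 + y1) / 2) = y := by push_cast; ring
  rw [h6, h7] at h5
  exact le_trans (by exact_mod_cast h4) h5

theorem chk2_sound {L : List (List ℚ)} : ∀ (n : ℕ) (x0 x1 y0 y1 : ℚ),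
    chk2 L n x0 x1 y0 y1 = true → ∀ x y : ℝ, (x0:ℝ) ≤ x → x ≤ x1 → (y0:ℝ) ≤ y → y ≤ y1 →
      0 ≤ ev2 L x y := by
  intro n
  induction n with
  | zero =>
    intro x0 x1 y0 y1 h x y h0 h1 h2 h3
    exact leaf_sound h h0 h1 h2 h3
  | succ n ih =>
    intro x0 x1 y0 y1 h x y h0 h1 h2 h3
    rw [chk2, Bool.or_eq_true] at h
    rcases h with h | h
    · exact leaf_sound h h0 h1 h2 h3
    · cases hb : decide (y1 - y0 ≤ x1 - x0) with
      | true =>
        rw [hb, cond_true, Bool.and_eq_true] at h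
        rcases le_total x (((x0 + x1) / 2 : ℚ) : ℝ) with h4 | h4
        · exact ih _ _ _ _ h.1 x y h0 h4 h2 h3
        · exact ih _ _ _ _ h.2 x y h4 h1 h2 h3
      | false =>
        rw [hb, cond_false, Bool.and_eq_true] at h
        rcases le_total y (((y0 + y1) / 2 : ℚ) : ℝ) with h4 | h4
        · exact ih _ _ _ _ h.1 x y h0 h1 h2 h4
        · exact ih _ _ _ _ h.2 x y h0 h1 h4 h3

end Pool.Agent.CDk.H1p

namespace Pool.Agent.CDk.H1p

def lI : List ℚ := [0, 0, 0.99582/2, 0.0503/3, -0.15027/4, -0.01586/5, 0.0092/6]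
def lJ : List ℚ := [0, 0, 0, 0.99582/6, 0.0503/12, -0.15027/20, -0.01586/30, 0.0092/42]
def lK : List ℚ := [0, 0, 0, 0, 0.99582/24, 0.0503/60, -0.15027/120, -0.01586/210, 0.0092/336]
def lC : List ℚ := [1.518275, -0.343611, 0.121166, -0.045051, 0.011196]
def lN : List ℚ := [-0.026608, -0.305117, 0.178071, -0.028237]
def lU : List ℚ := [2.66578, 1]


end Pool.Agent.CDk.H1p

namespace Pool.Agent.CDk.H1p

def qC : List ℚ := padd (pmul (pcomp lI lC) lU) [-2.66578]

/-- `Z = 2 Y - u - C` -/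
def lZ : List ℚ := padd [2 * 2.543963] (psm (-1) (padd lU lC))

def lPhi : List ℚ :=
  padd (psm (1/2) (pmul lU (pmul lZ lZ)))
    (padd (psm (1/2.66578) (pmul (pmul lU lU) (padd (pmul lZ (pcomp lJ lC)) (pcomp lK lC))))
      (padd [-(0.521682 + 2.543963^3/6)] (psm (1/6) (pmul lZ (pmul lZ lZ)))))

/-- `S = C + u - Y` -/
def lS : List ℚ := padd [-2.543963] (padd lU lC)

/-- the bound at `r = 2.2` -/
def lW : List ℚ :=
  padd (psm 0.1197 (pmul lU lU)) (padd (psm 2.2 lS) (padd (psm (-1/2) (pmul lS lS))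
    (padd (psm (-1) (pmul (padd [2.2] (psm (-1) lS)) lU))
      (padd (psm (-1/2.66578) (pmul (pmul lU lU) (padd [0.0008] (pcomp lJ lC))))
        (padd (psm 0.6563 (pmul (padd [-0.0002] lN) (pmul lU lU))) [-0.0004])))))

def Tup : List (List ℚ) :=
  padd2 (px (psm 0.0149 (pmul lU lU))) (padd2 (py [0, 0, 1/2])
    (pmul2 (padd2 (psm (-1) [0.0074] :: []) (padd2 ((comp2 lJ [[-0.121815, 1], [-1]]).map (psm (-1)))
      (pmul2 (py lI) (px (padd lN [-0.0002])))))
      (px (psm (1/2.66578) (pmul lU lU)))))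

end Pool.Agent.CDk.H1p
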